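import Pool.Agent.Work.MP_d3517d_nt.PS.Defs

/-!
# Partial modular symbols on the cusps `a/c`, `N ∣ c` (MP_d3517d_nt, package P5): definitions

* `SN N` : the monoid of integer matrices `(a b; c d)`, `(a, N) = 1`, `N ∣ c`, determinant `≠ 0`;
* `Cusp N` : the cusps `a/c ∈ ℙ¹(ℚ)` with `N ∣ c`, `(a, N) = 1`, i.e. the orbit `Γ₀(N) ∞`
  (`N = 1`: all cusps);
* `Sym k N M n` : the additive, `Γ₀(M)`-equivariant functions on pairs of such cusps (`N ∣ M`)
  with values in polynomials of degree `≤ n`;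
* `SymLe k N M n t` : those with values in polynomials of degree `≤ t` (`k` of characteristic `p`,
  `p ∣ M`);
* `hecke k N M n l` : `T_l` (`l ∤ M`), `U_l` (`l ∣ M`).
-/

open Polynomial Finset Matrix

noncomputable section

namespace Gouvea.PX

open Gouvea.PS (slk slk_apply slk_one slk_mul slk_smul slk_neg slk_map map_cast_mul)

/-- The monoid of integer matrices `(a b; c d)` with `(a, N) = 1`, `N ∣ c`, determinant `≠ 0`. -/
def SN (N : ℕ) : Submonoid (Matrix (Fin 2) (Fin 2) ℤ) where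
  carrier := {g | g.det ≠ 0 ∧ IsCoprime (g 0 0) (N : ℤ) ∧ (N : ℤ) ∣ g 1 0}
  one_mem' := by
    refine ⟨by simp, ?_, by simp⟩
    rw [Matrix.one_apply_eq]
    exact isCoprime_one_left
  mul_mem' := by
    rintro g h ⟨g1, g2, g3⟩ ⟨h1, h2, h3⟩
    refine ⟨by rw [det_mul]; exact mul_ne_zero g1 h1, ?_, ?_⟩
    · rw [Matrix.mul_apply, Fin.sum_univ_two]
      obtain ⟨t, ht⟩ := h3
      rw [ht, mul_left_comm]
      exact (g2.mul_left h2).add_mul_left_left _
    · rw [Matrix.mul_apply, Fin.sum_univ_two]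
      exact dvd_add (g3.mul_right _) (h3.mul_left _)

/-- pairs `(u, v) ≠ (0, 0)`, `(u, N) = 1`, `N ∣ v` -/
structure PreCusp (N : ℕ) where
  u : ℤ
  v : ℤ
  hu : IsCoprime u (N : ℤ)
  hv : (N : ℤ) ∣ v
  hne : u ≠ 0 ∨ v ≠ 0

instance (N : ℕ) : Setoid (PreCusp N) where
  r x y := x.u * y.v = y.u * x.v
  iseqv := by
    refine ⟨fun x => rfl, fun {x y} h => h.symm, fun {x y z} h1 h2 => ?_⟩
    by_cases hy : y.u = 0
    · have hv : y.v ≠ 0 := y.hne.resolve_left (fun h => h hy)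
      rw [hy, zero_mul] at h1 h2
      have hx : x.u = 0 := (mul_eq_zero.1 h1).resolve_right hv
      have hz : z.u = 0 := (mul_eq_zero.1 h2.symm).resolve_right hv
      rw [hx, hz, zero_mul, zero_mul]
    · refine mul_left_cancel₀ hy ?_
      linear_combination x.u * h2 + z.u * h1

/-- The cusps `a/c` with `N ∣ c`, `(a, N) = 1`. -/
def Cusp (N : ℕ) : Type := Quotient (inferInstance : Setoid (PreCusp N))

variable {N : ℕ}

/-- the cusp `u/v` -/
def Cusp.mk (u v : ℤ) (hu : IsCoprime u (N : ℤ)) (hv : (N : ℤ) ∣ v) (hne : u ≠ 0 ∨ v ≠ 0) :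
    Cusp N := Quotient.mk _ ⟨u, v, hu, hv, hne⟩

variable (N) in
/-- the cusp `∞ = 1/0` -/
def inf : Cusp N := Cusp.mk 1 0 isCoprime_one_left (dvd_zero _) (Or.inl one_ne_zero)

lemma Cusp.mk_eq {u v u' v' : ℤ} {hu : IsCoprime u (N : ℤ)} {hv hne}
    {hu' : IsCoprime u' (N : ℤ)} {hv' hne'} :
    Cusp.mk u v hu hv hne = Cusp.mk u' v' hu' hv' hne' ↔ u * v' = u' * v :=
  ⟨fun h => Quotient.exact h, fun h => Quotient.sound h⟩

lemma Cusp.ind' {P : Cusp N → Prop} (h : ∀ u v hu hv hne, P (Cusp.mk u v hu hv hne))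
    (x : Cusp N) : P x :=
  Quotient.inductionOn x fun y => h y.u y.v y.hu y.hv y.hne

lemma smul_ne {g : Matrix (Fin 2) (Fin 2) ℤ} (hg : g.det ≠ 0) {u v : ℤ} (h : u ≠ 0 ∨ v ≠ 0) :
    g 0 0 * u + g 0 1 * v ≠ 0 ∨ g 1 0 * u + g 1 1 * v ≠ 0 := by
  by_contra hc
  rw [not_or, not_not, not_not] at hc
  obtain ⟨h1, h2⟩ := hc
  rw [det_fin_two] at hg
  have hu : (g 0 0 * g 1 1 - g 0 1 * g 1 0) * u = 0 := by
    linear_combination g 1 1 * h1 - g 0 1 * h2
  have hv : (g 0 0 * g 1 1 - g 0 1 * g 1 0) * v = 0 := by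
    linear_combination g 0 0 * h2 - g 1 0 * h1
  rcases h with h | h
  · exact h ((mul_eq_zero.1 hu).resolve_left hg)
  · exact h ((mul_eq_zero.1 hv).resolve_left hg)

instance : MulAction (SN N) (Cusp N) where
  smul g := Quotient.map (fun x : PreCusp N =>
    (⟨g.1 0 0 * x.u + g.1 0 1 * x.v, g.1 1 0 * x.u + g.1 1 1 * x.v, by
        obtain ⟨t, ht⟩ := x.hv
        rw [ht, mul_left_comm]
        exact (g.2.2.1.mul_left x.hu).add_mul_left_left _,
      dvd_add (g.2.2.2.mul_right _) (x.hv.mul_left _), smul_ne g.2.1 x.hne⟩ : PreCusp N)) (by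
    intro x y (h : x.u * y.v = y.u * x.v)
    show (g.1 0 0 * x.u + g.1 0 1 * x.v) * (g.1 1 0 * y.u + g.1 1 1 * y.v) =
      (g.1 0 0 * y.u + g.1 0 1 * y.v) * (g.1 1 0 * x.u + g.1 1 1 * x.v)
    linear_combination (g.1 0 0 * g.1 1 1 - g.1 0 1 * g.1 1 0) * h)
  one_smul x := by
    refine Quotient.inductionOn x fun y => ?_
    refine Quotient.sound ?_
    show (_ : ℤ) * _ = _ * _
    simp
  mul_smul g h x := by
    refine Quotient.inductionOn x fun y => ?_
    refine Quotient.sound ?_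
    show (_ : ℤ) * _ = _ * _
    simp only [Submonoid.coe_mul, Matrix.mul_apply, Fin.sum_univ_two]
    ring

lemma smul_mk (g : SN N) (u v : ℤ) (hu : IsCoprime u (N : ℤ)) (hv : (N : ℤ) ∣ v)
    (hne : u ≠ 0 ∨ v ≠ 0) :
    ∃ hu' hv' hne', g • Cusp.mk u v hu hv hne =
      Cusp.mk (g.1 0 0 * u + g.1 0 1 * v) (g.1 1 0 * u + g.1 1 1 * v) hu' hv' hne' :=
  ⟨_, _, _, rfl⟩

section Slash

variable (k : Type) [CommRing k]

/-- The right action of the monoid `SN N` on functions on pairs of cusps: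
`(φ | g)(x, y) = φ(g x, g y) | g`. -/
def act (N n : ℕ) (g : SN N) :
    (Cusp N → Cusp N → Fin (n + 1) → k) →ₗ[k] (Cusp N → Cusp N → Fin (n + 1) → k) where
  toFun φ x y := (slk n (g.1.map (Int.cast : ℤ → k))).mulVec (φ (g • x) (g • y))
  map_add' φ ψ := by
    ext x y i
    simp [Matrix.mulVec_add]
  map_smul' a φ := by
    ext x y i
    simp [Matrix.mulVec_smul]

variable {k}

lemma act_apply (n : ℕ) (g : SN N) (φ : Cusp N → Cusp N → Fin (n + 1) → k) (x y : Cusp N) :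
    act k N n g φ x y =
      (slk n (g.1.map (Int.cast : ℤ → k))).mulVec (φ (g • x) (g • y)) := rfl

lemma act_act (n : ℕ) (g h : SN N) (φ : Cusp N → Cusp N → Fin (n + 1) → k) :
    act k N n g (act k N n h φ) = act k N n (h * g) φ := by
  funext x y
  rw [act_apply, act_apply, act_apply, mul_smul, mul_smul, Submonoid.coe_mul, map_cast_mul,
    slk_mul, Matrix.mulVec_mulVec]

lemma act_one (n : ℕ) (φ : Cusp N → Cusp N → Fin (n + 1) → k) : act k N n 1 φ = φ := by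
  funext x y
  rw [act_apply, one_smul, one_smul]
  have : ((1 : SN N) : Matrix (Fin 2) (Fin 2) ℤ).map (Int.cast : ℤ → k) = 1 := by
    simp [Matrix.map_one]
  rw [this, slk_one, Matrix.one_mulVec]

/-- the elements of `Γ₀(M)` in `SN N` -/
def IsG0 (M : ℕ) (g : SN N) : Prop := g.1.det = 1 ∧ (M : ℤ) ∣ g.1 1 0

variable (k)

/-- Partial modular symbols on the cusps `Γ₀(N) ∞`, of level `Γ₀(M)` (`N ∣ M`), weight `n + 2`,
coefficients in `k`. -/
def Sym (N M n : ℕ) : Submodule k (Cusp N → Cusp N → Fin (n + 1) → k) where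
  carrier := {φ | (∀ x y z, φ x y + φ y z = φ x z) ∧ ∀ g, IsG0 M g → act k N n g φ = φ}
  add_mem' := by
    rintro φ ψ ⟨h1, h2⟩ ⟨h3, h4⟩
    refine ⟨fun x y z => ?_, fun g hg => by rw [map_add, h2 g hg, h4 g hg]⟩
    simp only [Pi.add_apply]
    rw [← h1 x y z, ← h3 x y z]
    abel
  zero_mem' := ⟨fun x y z => by simp, fun g hg => by simp⟩
  smul_mem' := by
    rintro a φ ⟨h1, h2⟩
    refine ⟨fun x y z => ?_, fun g hg => by rw [map_smul, h2 g hg]⟩
    simp only [Pi.smul_apply]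
    rw [← h1 x y z, smul_add]

/-- the symbols with values in polynomials of degree `≤ t` -/
def SymLe (N M n t : ℕ) : Submodule k (Cusp N → Cusp N → Fin (n + 1) → k) where
  carrier := {φ | φ ∈ Sym k N M n ∧ ∀ x y (i : Fin (n + 1)), t < (i : ℕ) → φ x y i = 0}
  add_mem' := by
    rintro φ ψ ⟨h1, h2⟩ ⟨h3, h4⟩
    refine ⟨(Sym k N M n).add_mem h1 h3, fun x y i hi => ?_⟩
    simp only [Pi.add_apply]
    rw [h2 x y i hi, h4 x y i hi, add_zero]
  zero_mem' := ⟨(Sym k N M n).zero_mem, fun x y i _ => rfl⟩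
  smul_mem' := by
    rintro a φ ⟨h1, h2⟩
    refine ⟨(Sym k N M n).smul_mem a h1, fun x y i hi => ?_⟩
    simp only [Pi.smul_apply]
    rw [h2 x y i hi, smul_zero]

lemma SymLe_le (N M n t : ℕ) : SymLe k N M n t ≤ Sym k N M n := fun _ h => h.1

lemma SymLe_self (N M n : ℕ) : SymLe k N M n n = Sym k N M n :=
  le_antisymm (SymLe_le k N M n n) fun _ h => ⟨h, fun _ _ i hi =>
    absurd i.2 (by omega)⟩

open Classical in
/-- the upper triangular matrix `(a b; 0 d)`, `(a, N) = 1`, `a d ≠ 0` (and `1` otherwise) -/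
def upS (N : ℕ) (a b d : ℤ) : SN N :=
  if h : IsCoprime a (N : ℤ) ∧ a * d ≠ 0 then
    ⟨!![a, b; 0, d], by
      refine ⟨?_, by simpa using h.1, by simp⟩
      rw [det_fin_two_of]
      simpa using h.2⟩
  else 1

lemma upS_coe {a b d : ℤ} (ha : IsCoprime a (N : ℤ)) (had : a * d ≠ 0) :
    (upS N a b d).1 = !![a, b; 0, d] := by
  unfold upS
  rw [dif_pos ⟨ha, had⟩]

/-- `T_l` for `l ∤ M`, `U_l` for `l ∣ M` (`l` prime, `N ∣ M`). -/
def hecke (N M n l : ℕ) :
    (Cusp N → Cusp N → Fin (n + 1) → k) →ₗ[k] (Cusp N → Cusp N → Fin (n + 1) → k) :=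
  (∑ b ∈ range l, act k N n (upS N 1 b l)) + if l ∣ M then 0 else act k N n (upS N l 0 1)

end Slash

end Gouvea.PX
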