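import Mathlib

/-!
# Commutation of the Hecke operators, abstract form

`s a b d` is the action `f ↦ f|(a b; 0 d)` of integral upper triangular matrices (`P a`, `d > 0`)
on an abelian group (port of `PS/HeckeU.lean`). On the elements which are invariant under translation, the operators
`U_l`, `V_l` and `T_l` commute.
-/

set_option autoImplicit false

open Finset

namespace Gouvea.PX

/-- a right action of the matrices `(a b; 0 d)`, `P a` and `d` positive -/
structure UAct (P : ℤ → Prop) {X : Type*} [AddCommMonoid X] (s : ℤ → ℤ → ℤ → X → X) : Prop where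
  one' : P 1
  add : ∀ (a b d : ℤ), P a → 0 < d → ∀ x y, s a b d (x + y) = s a b d x + s a b d y
  zero : ∀ (a b d : ℤ), P a → 0 < d → s a b d 0 = 0
  mul : ∀ (a b d a' b' d' : ℤ), P a → 0 < d → P a' → 0 < d' → ∀ x,
    s a' b' d' (s a b d x) = s (a * a') (a * b' + b * d') (d * d') x

section

variable {X : Type*} [AddCommMonoid X] {s : ℤ → ℤ → ℤ → X → X}

/-- `U_l` -/
def Uop (s : ℤ → ℤ → ℤ → X → X) (l : ℕ) (x : X) : X := ∑ b ∈ range l, s 1 b l x

/-- `V_l` -/
def Vop (s : ℤ → ℤ → ℤ → X → X) (l : ℕ) (x : X) : X := s l 0 1 x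

/-- `T_l` -/
def Top (s : ℤ → ℤ → ℤ → X → X) (l : ℕ) (x : X) : X := Uop s l x + Vop s l x

variable {P : ℤ → Prop} (h : UAct P s)

include h

theorem UAct.sum {ι : Type*} (t : Finset ι) (f : ι → X) (a b d : ℤ) (ha : P a) (hd : 0 < d) :
    s a b d (∑ i ∈ t, f i) = ∑ i ∈ t, s a b d (f i) := by
  classical
  induction t using Finset.induction_on with
  | empty => simpa using h.zero a b d ha hd
  | insert i t hi ih => rw [sum_insert hi, sum_insert hi, h.add _ _ _ ha hd, ih]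

/-- translates -/
theorem UAct.trans_nat {x : X} (hx : s 1 1 1 x = x) (j : ℕ) : s 1 j 1 x = x := by
  induction j with
  | zero =>
    have h1 : s 1 0 1 (s 1 1 1 x) = s 1 1 1 x := by
      rw [h.mul _ _ _ _ _ _ h.one' one_pos h.one' one_pos]
      simp
    rw [hx] at h1
    simpa using h1
  | succ j ih =>
    have h1 : s 1 1 1 (s 1 j 1 x) = s 1 (j + 1 : ℕ) 1 x := by
      rw [h.mul _ _ _ _ _ _ h.one' one_pos h.one' one_pos]
      push_cast
      ring_nf
    rw [ih, hx] at h1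
    exact h1.symm

theorem UAct.trans {x : X} (hx : s 1 1 1 x = x) (j : ℤ) : s 1 j 1 x = x := by
  obtain ⟨n, rfl | rfl⟩ := j.eq_nat_or_neg
  · exact h.trans_nat hx n
  · have h1 : s 1 (-(n : ℤ)) 1 (s 1 n 1 x) = s 1 0 1 x := by
      rw [h.mul _ _ _ _ _ _ h.one' one_pos h.one' one_pos]
      simp
    have h2 := h.trans_nat hx 0
    rw [h.trans_nat hx n] at h1
    rw [h1]
    simpa using h2

/-- the value of `x|(a b; 0 d)` depends on `b` modulo `d` only -/
theorem UAct.congr {x : X} (hx : s 1 1 1 x = x) {a b b' d : ℤ} (ha : P a) (hd : 0 < d)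
    (hb : b ≡ b' [ZMOD d]) : s a b d x = s a b' d x := by
  obtain ⟨j, hj⟩ := hb.dvd
  have h1 : s a b d (s 1 j 1 x) = s a b' d x := by
    rw [h.mul _ _ _ _ _ _ h.one' one_pos ha hd]
    congr 1
    · ring
    · linear_combination -hj
    · ring
  rw [← h1, h.trans hx]

/-- `U_l U_m = U_{lm}` -/
theorem UAct.Uop_Uop (l m : ℕ) (hl : 0 < l) (hm : 0 < m) (x : X) :
    Uop s l (Uop s m x) = Uop s (m * l) x := by
  have hl' : (0 : ℤ) < l := by exact_mod_cast hl
  have hm' : (0 : ℤ) < m := by exact_mod_cast hm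
  have h1 : ∀ b' ∈ range l, s 1 b' l (∑ b ∈ range m, s 1 b m x) =
      ∑ b ∈ range m, s 1 ((b' + l * b : ℕ) : ℤ) ((m * l : ℕ) : ℤ) x := by
    intro b' _
    rw [h.sum _ _ _ _ _ h.one' hl']
    refine sum_congr rfl fun b _ => ?_
    rw [h.mul _ _ _ _ _ _ h.one' hm' h.one' hl']
    push_cast
    congr 1
    ring
  rw [Uop, Uop, Uop, sum_congr rfl h1, ← Finset.sum_product', mul_comm m l]
  refine Finset.sum_bij' (fun p _ => p.1 + l * p.2) (fun c _ => (c % l, c / l)) ?_ ?_ ?_ ?_ ?_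
  · rintro ⟨b', b⟩ hb
    simp only [mem_product, mem_range] at hb ⊢
    calc b' + l * b < l + l * b := by omega
      _ = l * (b + 1) := by ring
      _ ≤ l * m := Nat.mul_le_mul_left _ (by omega)
  · intro c hc
    simp only [mem_product, mem_range] at hc ⊢
    exact ⟨Nat.mod_lt _ hl, Nat.div_lt_of_lt_mul hc⟩
  · rintro ⟨b', b⟩ hb
    simp only [mem_product, mem_range] at hb
    simp only [Prod.mk.injEq]
    refine ⟨?_, ?_⟩
    · rw [Nat.add_mul_mod_self_left, Nat.mod_eq_of_lt hb.1]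
    · rw [Nat.add_mul_div_left _ _ hl, Nat.div_eq_of_lt hb.1, zero_add]
  · intro c _
    exact Nat.mod_add_div c l
  · rintro ⟨b', b⟩ _
    rfl

theorem UAct.Uop_comm (l m : ℕ) (hl : 0 < l) (hm : 0 < m) (x : X) :
    Uop s l (Uop s m x) = Uop s m (Uop s l x) := by
  rw [h.Uop_Uop l m hl hm, h.Uop_Uop m l hm hl, mul_comm]

theorem UAct.Vop_comm (l m : ℕ) (hl' : P l) (hm' : P m) (x : X) :
    Vop s l (Vop s m x) = Vop s m (Vop s l x) := by
  rw [Vop, Vop, Vop, Vop, h.mul _ _ _ _ _ _ hm' one_pos hl' one_pos,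
    h.mul _ _ _ _ _ _ hl' one_pos hm' one_pos, mul_comm (m : ℤ)]
  simp

/-- `U_l V_m = V_m U_l` for coprime `l`, `m` -/
theorem UAct.Uop_Vop {x : X} (hx : s 1 1 1 x = x) (l m : ℕ) (hl : 0 < l) (hm' : P m)
    (hlm : Nat.Coprime l m) : Uop s l (Vop s m x) = Vop s m (Uop s l x) := by
  have hl' : (0 : ℤ) < l := by exact_mod_cast hl
  have h1 : Uop s l (Vop s m x) = ∑ b ∈ range l, s m ((m * b % l : ℕ) : ℤ) l x := by
    rw [Uop]
    refine sum_congr rfl fun b _ => ?_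
    rw [Vop, h.mul _ _ _ _ _ _ hm' one_pos h.one' hl']
    simp only [mul_one, one_mul, zero_mul, add_zero]
    refine h.congr hx hm' hl' ?_
    push_cast
    exact (Int.mod_modEq _ _).symm
  have h2 : Vop s m (Uop s l x) = ∑ b ∈ range l, s m b l x := by
    rw [Vop, Uop, h.sum _ _ _ _ _ hm' one_pos]
    refine sum_congr rfl fun b _ => ?_
    rw [h.mul _ _ _ _ _ _ h.one' hl' hm' one_pos]
    simp
  rw [h1, h2]
  refine Finset.sum_bij (fun b _ => m * b % l) ?_ ?_ ?_ ?_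
  · intro b _
    exact mem_range.2 (Nat.mod_lt _ hl)
  · intro b hb b' hb' hbb
    have h3 : m * b ≡ m * b' [MOD l] := hbb
    have h4 : b ≡ b' [MOD l] := Nat.ModEq.cancel_left_of_coprime hlm h3
    exact Nat.ModEq.eq_of_lt_of_lt h4 (mem_range.1 hb) (mem_range.1 hb')
  · intro c hc
    have h5 : Function.Surjective (fun b : Fin l => (⟨m * b % l, Nat.mod_lt _ hl⟩ : Fin l)) := by
      apply Finite.surjective_of_injective
      intro b b' hbb
      have h3 : m * (b : ℕ) ≡ m * b' [MOD l] := congrArg Fin.val hbb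
      have h4 : (b : ℕ) ≡ b' [MOD l] := Nat.ModEq.cancel_left_of_coprime hlm h3
      exact Fin.ext (Nat.ModEq.eq_of_lt_of_lt h4 b.2 b'.2)
    obtain ⟨b, hb⟩ := h5 ⟨c, mem_range.1 hc⟩
    exact ⟨b, mem_range.2 b.2, by simpa using congrArg Fin.val hb⟩
  · intro b _
    rfl

/-- invariance under translation is inherited -/
theorem UAct.Uop_inv {x : X} (hx : s 1 1 1 x = x) (l : ℕ) (hl : 0 < l) :
    s 1 1 1 (Uop s l x) = Uop s l x := by
  have hl' : (0 : ℤ) < l := by exact_mod_cast hl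
  have h1 : s 1 1 1 (Uop s l x) = ∑ b ∈ range l, s 1 ((b + 1 : ℕ) : ℤ) l x := by
    rw [Uop, h.sum _ _ _ _ _ h.one' one_pos]
    refine sum_congr rfl fun b _ => ?_
    rw [h.mul _ _ _ _ _ _ h.one' hl' h.one' one_pos]
    push_cast
    congr 1
    · ring
    · ring
  rw [h1, Uop]
  obtain ⟨k, rfl⟩ : ∃ k, l = k + 1 := ⟨l - 1, by omega⟩
  rw [sum_range_succ, sum_range_succ' (fun b : ℕ => s 1 (b : ℤ) ((k + 1 : ℕ) : ℤ) x)]
  congr 1
  refine h.congr hx h.one' hl' ?_
  rw [Nat.cast_zero]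
  exact (Int.modEq_zero_iff_dvd.2 dvd_rfl)

theorem UAct.Vop_inv {x : X} (hx : s 1 1 1 x = x) (l : ℕ) (hl' : P l) :
    s 1 1 1 (Vop s l x) = Vop s l x := by
  rw [Vop, h.mul _ _ _ _ _ _ hl' one_pos h.one' one_pos]
  simp only [mul_one]
  rw [add_zero]
  exact h.congr hx hl' one_pos (Int.modEq_one)

theorem UAct.Uop_add (l : ℕ) (hl : 0 < l) (x y : X) :
    Uop s l (x + y) = Uop s l x + Uop s l y := by
  have hl' : (0 : ℤ) < l := by exact_mod_cast hl
  rw [Uop, Uop, Uop, ← sum_add_distrib]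
  exact sum_congr rfl fun b _ => h.add _ _ _ h.one' hl' _ _

theorem UAct.Vop_add (l : ℕ) (hl' : P l) (x y : X) :
    Vop s l (x + y) = Vop s l x + Vop s l y := by
  exact h.add _ _ _ hl' one_pos _ _

theorem UAct.Top_inv {x : X} (hx : s 1 1 1 x = x) (l : ℕ) (hl0 : 0 < l) (hl : P l) :
    s 1 1 1 (Top s l x) = Top s l x := by
  rw [Top, h.add _ _ _ h.one' one_pos, h.Uop_inv hx l hl0, h.Vop_inv hx l hl]

/-- **Commutation** of `T_l` and `T_m`. -/
theorem UAct.Top_comm {x : X} (hx : s 1 1 1 x = x) (l m : ℕ) (hl0 : 0 < l) (hm0 : 0 < m)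
    (hl : P l) (hm : P m)
    (hlm : Nat.Coprime l m) : Top s l (Top s m x) = Top s m (Top s l x) := by
  simp only [Top]
  rw [h.Uop_add l hl0, h.Vop_add l hl, h.Uop_add m hm0, h.Vop_add m hm,
    h.Uop_comm l m hl0 hm0, h.Vop_comm l m hl hm, h.Uop_Vop hx l m hl0 hm hlm,
    ← h.Uop_Vop hx m l hm0 hl hlm.symm]
  ac_rfl

/-- **Commutation** of `T_l` and `U_m`. -/
theorem UAct.Top_Uop_comm {x : X} (hx : s 1 1 1 x = x) (l m : ℕ) (hl0 : 0 < l) (hl : P l)
    (hm : 0 < m)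
    (hlm : Nat.Coprime l m) : Top s l (Uop s m x) = Uop s m (Top s l x) := by
  simp only [Top]
  rw [h.Uop_add m hm, h.Uop_comm l m hl0 hm, ← h.Uop_Vop hx m l hm hl hlm.symm]

end

end Gouvea.PX
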