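import Pool.Agent.Work.MP_d3517d_nt.P5.Defs
import Pool.Agent.Work.MP_d3517d_nt.P5.HeckeU

/-!
# The Hecke operators on partial modular symbols of general level commute
(port of `PS/Hecke.lean`)
-/

open Polynomial Finset Matrix

noncomputable section

namespace Gouvea.PX

section Hecke

variable {k : Type} [CommRing k] {N : ℕ}

/-- the condition on the upper left entry -/
def PU (N : ℕ) (a : ℤ) : Prop := IsCoprime a (N : ℤ) ∧ a ≠ 0

theorem PU.one : PU N 1 := ⟨isCoprime_one_left, one_ne_zero⟩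

theorem upS_mul {a b d a' b' d' : ℤ} (ha : PU N a) (hd : d ≠ 0) (ha' : PU N a') (hd' : d' ≠ 0) :
    upS N a b d * upS N a' b' d' = upS N (a * a') (a * b' + b * d') (d * d') := by
  apply Subtype.ext
  rw [Submonoid.coe_mul, upS_coe ha.1 (mul_ne_zero ha.2 hd), upS_coe ha'.1 (mul_ne_zero ha'.2 hd'),
    upS_coe (ha.1.mul_left ha'.1)
      (mul_ne_zero (mul_ne_zero ha.2 ha'.2) (mul_ne_zero hd hd'))]
  simp

/-- the action of the upper triangular matrices -/
theorem uact (N n : ℕ) : UAct (PU N) (fun a b d (φ : Cusp N → Cusp N → Fin (n + 1) → k) =>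
    act k N n (upS N a b d) φ) where
  one' := PU.one
  add a b d _ _ x y := map_add _ _ _
  zero a b d _ _ := map_zero _
  mul a b d a' b' d' ha hd ha' hd' x := by
    show act k N n (upS N a' b' d') (act k N n (upS N a b d) x) = _
    rw [act_act, upS_mul ha hd.ne' ha' hd'.ne']

theorem hecke_apply_dvd {M n l : ℕ} (h : l ∣ M) (φ : Cusp N → Cusp N → Fin (n + 1) → k) :
    hecke k N M n l φ = Uop (fun a b d (φ : Cusp N → Cusp N → Fin (n + 1) → k) =>
      act k N n (upS N a b d) φ) l φ := by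
  rw [hecke, if_pos h, add_zero, LinearMap.sum_apply]
  rfl

theorem hecke_apply_not_dvd {M n l : ℕ} (h : ¬ l ∣ M) (φ : Cusp N → Cusp N → Fin (n + 1) → k) :
    hecke k N M n l φ = Top (fun a b d (φ : Cusp N → Cusp N → Fin (n + 1) → k) =>
      act k N n (upS N a b d) φ) l φ := by
  rw [hecke, if_neg h, LinearMap.add_apply, LinearMap.sum_apply]
  rfl

/-- a prime which does not divide `M`, `N ∣ M`, is prime to `N` -/
theorem pu_of_not_dvd_level {M l : ℕ} (hl : l.Prime) (hN : N ∣ M) (h : ¬ l ∣ M) :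
    PU N (l : ℤ) := by
  refine ⟨?_, by exact_mod_cast hl.ne_zero⟩
  rw [Nat.isCoprime_iff_coprime]
  exact (Nat.Prime.coprime_iff_not_dvd hl).2 fun h2 => h (h2.trans hN)

/-- all `T_l`, `U_l` commute on functions invariant under `(1 1; 0 1)`. -/
theorem hecke_comm {M l q n : ℕ} (hl : l.Prime) (hq : q.Prime) (hN : N ∣ M)
    {φ : Cusp N → Cusp N → Fin (n + 1) → k} (hφ : act k N n (upS N 1 1 1) φ = φ) :
    hecke k N M n l (hecke k N M n q φ) = hecke k N M n q (hecke k N M n l φ) := by
  by_cases hlq : l = q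
  · rw [hlq]
  have hcop : Nat.Coprime l q := (Nat.coprime_primes hl hq).2 hlq
  have hu := uact (k := k) N n
  by_cases h1 : l ∣ M
  · by_cases h2 : q ∣ M
    · simp only [hecke_apply_dvd h1, hecke_apply_dvd h2]
      exact hu.Uop_comm l q hl.pos hq.pos φ
    · simp only [hecke_apply_dvd h1, hecke_apply_not_dvd h2]
      exact (hu.Top_Uop_comm hφ q l hq.pos (pu_of_not_dvd_level hq hN h2) hl.pos hcop.symm).symm
  · by_cases h2 : q ∣ M
    · simp only [hecke_apply_not_dvd h1, hecke_apply_dvd h2]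
      exact hu.Top_Uop_comm hφ l q hl.pos (pu_of_not_dvd_level hl hN h1) hq.pos hcop
    · simp only [hecke_apply_not_dvd h1, hecke_apply_not_dvd h2]
      exact hu.Top_comm hφ l q hl.pos hq.pos (pu_of_not_dvd_level hl hN h1)
        (pu_of_not_dvd_level hq hN h2) hcop

/-- `T_l`, `U_l` preserve the invariance under `(1 1; 0 1)`. -/
theorem hecke_inv {M l n : ℕ} (hl : l.Prime) (hN : N ∣ M)
    {φ : Cusp N → Cusp N → Fin (n + 1) → k} (hφ : act k N n (upS N 1 1 1) φ = φ) :
    act k N n (upS N 1 1 1) (hecke k N M n l φ) = hecke k N M n l φ := by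
  have hu := uact (k := k) N n
  by_cases h1 : l ∣ M
  · rw [hecke_apply_dvd h1]
    exact hu.Uop_inv hφ l hl.pos
  · rw [hecke_apply_not_dvd h1]
    exact hu.Top_inv hφ l hl.pos (pu_of_not_dvd_level hl hN h1)

/-- symbols are invariant under translation -/
theorem sym_inv {M n : ℕ} {φ : Cusp N → Cusp N → Fin (n + 1) → k} (hφ : φ ∈ Sym k N M n) :
    act k N n (upS N 1 1 1) φ = φ := by
  refine hφ.2 _ ⟨?_, ?_⟩
  · rw [upS_coe isCoprime_one_left (by norm_num), det_fin_two_of]
    norm_num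
  · rw [upS_coe isCoprime_one_left (by norm_num)]
    simp

/-- the operators at different levels: for `l ∣ M` or `l ∤ M'` and `M ∣ M'` they are the same -/
theorem hecke_congr {M M' n l : ℕ} (h : l ∣ M ↔ l ∣ M') :
    hecke k N M n l = hecke k N M' n l := by
  unfold hecke
  by_cases h1 : l ∣ M
  · rw [if_pos h1, if_pos (h.1 h1)]
  · rw [if_neg h1, if_neg (fun h2 => h1 (h.2 h2))]

end Hecke

end Gouvea.PX
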