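import Pool.Agent.Work.MP_d3517d_nt.ES.DescLin
import Pool.Agent.Work.MP_d3517d_nt.P5.Hecke
import Pool.Agent.Work.MP_d3517d_nt.P5.Rep

/-!
# The Hecke ring `ℤ[T_q]` on partial modular symbols of general level, base change
(MP_d3517d_nt, package P5)
-/

open Gouvea.Desc Gouvea.PS

noncomputable section

namespace Gouvea.PX

section Rho

variable (k : Type) [CommRing k] (N M n : ℕ) [NeZero M]

/-- the operator `T_q` (`q ∤ M`), `U_q` (`q ∣ M`) on the symbols of level `M` -/
def opN (hN : N ∣ M) (q : Nat.Primes) : Module.End k (Sym k N M n) :=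
  (hecke k N M n q).restrict fun _ hφ => hecke_mem q.2 hN (NeZero.ne M) hφ

@[simp] theorem opN_coe (hN : N ∣ M) (q : Nat.Primes) (φ : Sym k N M n) :
    (opN k N M n hN q φ : Cusp N → Cusp N → Fin (n + 1) → k) = hecke k N M n q φ := rfl

theorem opN_comm (hN : N ∣ M) (q r : Nat.Primes) :
    Commute (opN k N M n hN q) (opN k N M n hN r) := by
  refine LinearMap.ext fun φ => Subtype.ext ?_
  exact hecke_comm q.2 r.2 hN (sym_inv φ.2)

/-- the action of `ℤ[T_q]` on the symbols -/
def rhoN (hN : N ∣ M) : MvPolynomial Nat.Primes ℤ →+* Module.End k (Sym k N M n) :=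
  comEval (opN k N M n hN) (opN_comm k N M n hN)

theorem rhoN_X (hN : N ∣ M) (q : Nat.Primes) :
    rhoN k N M n hN (MvPolynomial.X q) = opN k N M n hN q := comEval_X _ _ _

end Rho

section Base

variable {k k' : Type} [CommRing k] [CommRing k'] (f : k →+* k') {N M n : ℕ}

/-- change of the ring of coefficients of functions on pairs of cusps -/
def baseF (φ : Cusp N → Cusp N → Fin (n + 1) → k) : Cusp N → Cusp N → Fin (n + 1) → k' :=
  fun x y i => f (φ x y i)

@[simp] theorem baseF_apply (φ : Cusp N → Cusp N → Fin (n + 1) → k) (x y : Cusp N)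
    (i : Fin (n + 1)) : baseF f φ x y i = f (φ x y i) := rfl

theorem baseF_add (φ ψ : Cusp N → Cusp N → Fin (n + 1) → k) :
    baseF f (φ + ψ) = baseF f φ + baseF f ψ := by
  funext x y i
  exact map_add f _ _

theorem baseF_zero : baseF f (0 : Cusp N → Cusp N → Fin (n + 1) → k) = 0 := by
  funext x y i
  exact map_zero f

theorem baseF_sum {ι : Type*} (s : Finset ι) (φ : ι → Cusp N → Cusp N → Fin (n + 1) → k) :
    baseF f (∑ i ∈ s, φ i) = ∑ i ∈ s, baseF f (φ i) := by
  funext x y i
  simp only [baseF_apply, Finset.sum_apply, map_sum]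

theorem baseF_smul (a : k) (φ : Cusp N → Cusp N → Fin (n + 1) → k) :
    baseF f (a • φ) = f a • baseF f φ := by
  funext x y i
  exact map_mul f _ _

theorem baseF_injective (hf : Function.Injective f) :
    Function.Injective (baseF f : (Cusp N → Cusp N → Fin (n + 1) → k) → _) := by
  intro φ ψ h
  funext x y i
  exact hf (congrFun (congrFun (congrFun h x) y) i)

theorem act_baseF (g : SN N) (φ : Cusp N → Cusp N → Fin (n + 1) → k) :
    act k' N n g (baseF f φ) = baseF f (act k N n g φ) := by
  funext x y i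
  rw [baseF_apply, act_apply, act_apply, Matrix.mulVec, Matrix.mulVec, dotProduct, dotProduct,
    map_sum]
  refine Finset.sum_congr rfl fun j _ => ?_
  have h1 : (g.1.map (Int.cast : ℤ → k')) = (g.1.map (Int.cast : ℤ → k)).map f := by
    ext a b
    simp
  rw [map_mul, h1, slk_map]
  rfl

theorem hecke_baseF (l : ℕ) (φ : Cusp N → Cusp N → Fin (n + 1) → k) :
    hecke k' N M n l (baseF f φ) = baseF f (hecke k N M n l φ) := by
  rw [hecke, hecke, LinearMap.add_apply, LinearMap.add_apply, LinearMap.sum_apply,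
    LinearMap.sum_apply, baseF_add, baseF_sum]
  congr 1
  · exact Finset.sum_congr rfl fun b _ => act_baseF f _ φ
  · split_ifs
    · rw [LinearMap.zero_apply, LinearMap.zero_apply, baseF_zero]
    · exact act_baseF f _ φ

theorem baseF_mem {φ : Cusp N → Cusp N → Fin (n + 1) → k} (hφ : φ ∈ Sym k N M n) :
    baseF f φ ∈ Sym k' N M n := by
  refine ⟨fun x y z => ?_, fun g hg => ?_⟩
  · funext i
    rw [Pi.add_apply, baseF_apply, baseF_apply, baseF_apply, ← map_add, ← hφ.1 x y z]
    rfl
  · rw [act_baseF, hφ.2 g hg]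

theorem baseF_memLe {t : ℕ} {φ : Cusp N → Cusp N → Fin (n + 1) → k} (hφ : φ ∈ SymLe k N M n t) :
    baseF f φ ∈ SymLe k' N M n t :=
  ⟨baseF_mem f hφ.1, fun x y i hi => by rw [baseF_apply, hφ.2 x y i hi, map_zero]⟩

/-- **Base change** of symbols along `k → k'`. -/
def baseS (N M n : ℕ) : Sym k N M n →ₛₗ[f] Sym k' N M n where
  toFun φ := ⟨baseF f φ, baseF_mem f φ.2⟩
  map_add' _ _ := Subtype.ext (baseF_add f _ _)
  map_smul' a _ := Subtype.ext (baseF_smul f a _)

@[simp] theorem baseS_coe (φ : Sym k N M n) :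
    (baseS f N M n φ : Cusp N → Cusp N → Fin (n + 1) → k') = baseF f φ := rfl

theorem baseS_injective (hf : Function.Injective f) : Function.Injective (baseS f N M n) := by
  intro φ ψ h
  exact Subtype.ext (baseF_injective f hf (congrArg Subtype.val h))

variable [NeZero M]

theorem baseS_opN (hN : N ∣ M) (q : Nat.Primes) (φ : Sym k N M n) :
    opN k' N M n hN q (baseS f N M n φ) = baseS f N M n (opN k N M n hN q φ) :=
  Subtype.ext (hecke_baseF f q φ.1)

/-- base change commutes with the Hecke ring -/
theorem baseS_rhoN (hN : N ∣ M) (r : MvPolynomial Nat.Primes ℤ) (φ : Sym k N M n) :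
    rhoN k' N M n hN r (baseS f N M n φ) = baseS f N M n (rhoN k N M n hN r φ) := by
  induction r using MvPolynomial.induction_on generalizing φ with
  | C a =>
    have e : (MvPolynomial.C a : MvPolynomial Nat.Primes ℤ) =
        ((a : ℤ) : MvPolynomial Nat.Primes ℤ) := by simp
    rw [e, map_intCast, map_intCast, Module.End.intCast_apply, Module.End.intCast_apply,
      map_zsmul]
  | add p q hp hq =>
    rw [map_add, map_add, LinearMap.add_apply, LinearMap.add_apply, map_add, hp, hq]
  | mul_X p i hp =>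
    rw [map_mul, map_mul, Module.End.mul_apply, Module.End.mul_apply, rhoN_X, rhoN_X, baseS_opN,
      hp]

end Base

/-- maps (additive, e.g. semilinear) which commute with the generators commute with
everything. -/
theorem equivariant_of_X {ι : Type*} {K K' U V : Type*} [CommRing K] [CommRing K']
    [AddCommGroup U] [Module K U] [AddCommGroup V] [Module K' V]
    {ρU : MvPolynomial ι ℤ →+* Module.End K U} {ρV : MvPolynomial ι ℤ →+* Module.End K' V}
    {f : U →+ V}
    (h : ∀ i u, f (ρU (MvPolynomial.X i) u) = ρV (MvPolynomial.X i) (f u)) (r : MvPolynomial ι ℤ)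
    (u : U) : f (ρU r u) = ρV r (f u) := by
  induction r using MvPolynomial.induction_on generalizing u with
  | C a =>
    have e : (MvPolynomial.C a : MvPolynomial ι ℤ) = ((a : ℤ) : MvPolynomial ι ℤ) := by simp
    rw [e, map_intCast, map_intCast, Module.End.intCast_apply, Module.End.intCast_apply,
      map_zsmul]
  | add p q hp hq =>
    rw [map_add, map_add, LinearMap.add_apply, LinearMap.add_apply, map_add, hp, hq]
  | mul_X p i hp => rw [map_mul, map_mul, Module.End.mul_apply, Module.End.mul_apply, hp, h]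

/-- maps which commute with the generators `T_l`, `l ≠ p`, commute with `ℤ[T_l : l ≠ p]`
(restriction of the operators along an inclusion of the variables). -/
theorem equivariant_of_rename {ι κ : Type*} {K K' U V : Type*} [CommRing K] [CommRing K']
    [AddCommGroup U] [Module K U] [AddCommGroup V] [Module K' V] (e : κ → ι)
    {ρU : MvPolynomial ι ℤ →+* Module.End K U} {ρV : MvPolynomial ι ℤ →+* Module.End K' V}
    {f : U →+ V}
    (h : ∀ j u, f (ρU (MvPolynomial.X (e j)) u) = ρV (MvPolynomial.X (e j)) (f u))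
    (r : MvPolynomial κ ℤ) (u : U) :
    f (ρU (MvPolynomial.rename e r) u) = ρV (MvPolynomial.rename e r) (f u) := by
  have h1 := equivariant_of_X
    (ρU := ρU.comp (MvPolynomial.rename e : MvPolynomial κ ℤ →ₐ[ℤ] _).toRingHom)
    (ρV := ρV.comp (MvPolynomial.rename e : MvPolynomial κ ℤ →ₐ[ℤ] _).toRingHom) (f := f)
    (fun j u => by
      simp only [RingHom.comp_apply, AlgHom.toRingHom_eq_coe, RingHom.coe_coe,
        MvPolynomial.rename_X]
      exact h j u) r u
  exact h1

/-- multiplicativity of the level: the operators at the levels `M` and `M'` are the same if `q`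
divides both or none of them -/
theorem rhoN_congr_level {k : Type} [CommRing k] {N M M' n : ℕ} [NeZero M] [NeZero M']
    (hN : N ∣ M) (hN' : N ∣ M') {q : Nat.Primes} (h : (q : ℕ) ∣ M ↔ (q : ℕ) ∣ M')
    (φ : Sym k N M n) (ψ : Sym k N M' n)
    (e : (φ : Cusp N → Cusp N → Fin (n + 1) → k) = ψ) :
    (rhoN k N M n hN (MvPolynomial.X q) φ : Cusp N → Cusp N → Fin (n + 1) → k) =
      rhoN k N M' n hN' (MvPolynomial.X q) ψ := by
  rw [rhoN_X, rhoN_X, opN_coe, opN_coe, e, hecke_congr h]

end Gouvea.PX
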