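import Pool.Agent.Work.MP_d3517d_nt.CN.CuspFin
import Pool.Agent.Work.MP_d3517d_nt.CN.Index9
import Pool.Agent.Work.MP_d3517d_nt.P5.Rho
import Pool.Agent.Work.MP_d3517d_nt.POS.EisBeta

/-!
# The exact Eichler-Shimura relation for the cusps `9 ∣ c`: the statement (MP_d3517d_nt, POS23)

`ExactES9 n`: for every level `L` divisible by `9` the systems of eigenvalues of all `T_q`, `U_q` on
the partial symbols of level `L` (cusps `9 ∣ c`) with values in `V_n` are twice those of the cusp
forms of weight `n + 2`, together with the Eisenstein lines `(d, ψ)`, `d ∣ L`, `ψ` a Dirichlet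
character modulo `gcd (d, L / d)` (for `9 ∣ d` the boundary symbols, for `¬ 9 ∣ d` the residues);
for `n = 0` two lines are missing.
-/

set_option autoImplicit false

open MvPolynomial Gouvea.Sys Gouvea.ES

noncomputable section

namespace Gouvea.POS

/-- all the Eisenstein lines of level `L`, with branch divisor `9` -/
def eis9 (n L : ℕ) : Multiset (MvPolynomial Nat.Primes ℤ →+* ℂ) := eisLg 9 n L

theorem eis9_eq (n L : ℕ) : eis9 n L = eisLg 9 n L := rfl

/-- **Exact Eichler-Shimura in degree `n`, for the cusps `9 ∣ c`.** -/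
def ExactES9 (n : ℕ) : Prop :=
  ∀ (hn : Even n) (L : ℕ) [NeZero L] (h9 : 9 ∣ L),
    haveI := CN.finiteDimensional_Sym9 ℂ L n hn
    Sys (PX.rhoN ℂ 9 L n h9) + (if n = 0 then 2 • {sysOf (trivV L)} else 0) =
      2 • Sys (rhoC L (n + 2)) + eis9 n L

/-- the Eisenstein lines with branch divisor `N` are the two families of `CN/CuspFin` -/
theorem eisLg_eq (N n L : ℕ) : eisLg N n L = CN.eisIn N n L + CN.eisOut N n L := by
  classical
  have h1 : ∀ d : ℕ, ((Finset.univ : Finset (DirichletCharacter ℂ (d.gcd (L / d)))).val.map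
      fun ψ => sysOf (eisVg N n L d ψ)) =
      if N ∣ d then ∑ ψ : DirichletCharacter ℂ (d.gcd (L / d)), {sysOf (CN.inV n L d ψ)}
        else ∑ ψ : DirichletCharacter ℂ (d.gcd (L / d)), {sysOf (CN.outV n L d ψ)} := by
    intro d
    have h2 : ∀ g : DirichletCharacter ℂ (d.gcd (L / d)) → (MvPolynomial Nat.Primes ℤ →+* ℂ),
        (Finset.univ : Finset (DirichletCharacter ℂ (d.gcd (L / d)))).val.map g =
          ∑ ψ : DirichletCharacter ℂ (d.gcd (L / d)), {g ψ} := by
      intro g
      have e := Multiset.sum_map_singleton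
        ((Finset.univ : Finset (DirichletCharacter ℂ (d.gcd (L / d)))).val.map g)
      rw [Multiset.map_map] at e
      exact e.symm
    rw [h2]
    split_ifs with hd
    · refine Finset.sum_congr rfl fun ψ _ => ?_
      congr 2
      funext q
      rw [eisVg, if_pos hd, CN.inV]
    · refine Finset.sum_congr rfl fun ψ _ => ?_
      congr 2
      funext q
      rw [eisVg, if_neg hd, CN.outV]
  have h3 : ∀ (s : Finset ℕ) (f : ℕ → Multiset (MvPolynomial Nat.Primes ℤ →+* ℂ)),
      s.val.bind f = ∑ d ∈ s, f d := fun s f => rfl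
  rw [eisLg, h3, Finset.sum_congr rfl fun d _ => h1 d, Finset.sum_ite, CN.eisIn, CN.eisOut]

theorem eis9_eq_add (n L : ℕ) : eis9 n L = CN.eisIn 9 n L + CN.eisOut 9 n L := eisLg_eq 9 n L

end Gouvea.POS
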