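import Pool.Agent.Work.MP_d3517d_nt.P5.Defs

/-!
# The involution `ε = (-1 0; 0 1)` on partial modular symbols, general cusps `Γ₀(N) ∞`
-/

open Polynomial Finset Matrix

noncomputable section

namespace Gouvea.PX

open Gouvea.PS (slk slk_apply slk_one slk_mul slk_smul slk_neg slk_map map_cast_mul)

variable {N : ℕ}

variable (N) in
/-- the matrix `(-1 0; 0 1)` in `SN N` -/
def epsM : SN N := ⟨!![-1, 0; 0, 1], by
  refine ⟨?_, ?_, ?_⟩
  · rw [det_fin_two_of]; norm_num
  · show IsCoprime (-1 : ℤ) (N : ℤ)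
    exact isCoprime_one_left.neg_left
  · simp⟩

lemma epsM_coe : (epsM N).1 = !![-1, 0; 0, 1] := rfl

lemma epsM_mul_self : epsM N * epsM N = 1 := by
  apply Subtype.ext
  rw [Submonoid.coe_mul, epsM_coe]
  ext i j
  fin_cases i <;> fin_cases j <;> simp [Matrix.mul_apply, Fin.sum_univ_two]

/-- `(ε φ)(x, y) = φ(-x, -y) | (-1 0; 0 1)` -/
def epsS (k : Type) [CommRing k] (N n : ℕ) :
    (Cusp N → Cusp N → Fin (n + 1) → k) →ₗ[k] (Cusp N → Cusp N → Fin (n + 1) → k) :=
  act k N n (epsM N)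

variable {k : Type} [CommRing k]

/-- `x ↦ -x` on the cusps -/
def negC (x : Cusp N) : Cusp N := epsM N • x

lemma negC_mk {u v : ℤ} (hu : IsCoprime u (N : ℤ)) (hv : (N : ℤ) ∣ v) (hne : u ≠ 0 ∨ v ≠ 0) :
    negC (Cusp.mk u v hu hv hne) =
      Cusp.mk (-u) v hu.neg_left hv (hne.imp_left neg_ne_zero.2) := by
  obtain ⟨hu', hv', hne', h⟩ := smul_mk (epsM N) u v hu hv hne
  rw [negC, h, Cusp.mk_eq, epsM_coe]
  simp

@[simp] lemma negC_negC (x : Cusp N) : negC (negC x) = x := by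
  rw [negC, negC, ← mul_smul, epsM_mul_self, one_smul]

@[simp] lemma negC_inf : negC (inf N) = inf N := by
  show negC (Cusp.mk 1 0 _ _ _) = Cusp.mk 1 0 _ _ _
  rw [negC_mk, Cusp.mk_eq]
  simp

lemma epsS_apply (n : ℕ) (φ : Cusp N → Cusp N → Fin (n + 1) → k) (x y : Cusp N) :
    epsS k N n φ x y = (slk n !![-1, 0; 0, 1]).mulVec (φ (negC x) (negC y)) := by
  rw [epsS, act_apply, epsM_coe]
  congr 2
  ext i j
  fin_cases i <;> fin_cases j <;> simp

@[simp] lemma epsS_epsS (n : ℕ) (φ : Cusp N → Cusp N → Fin (n + 1) → k) :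
    epsS k N n (epsS k N n φ) = φ := by
  rw [epsS, act_act, epsM_mul_self, act_one]

lemma slk_eps (n : ℕ) (i j : Fin (n + 1)) :
    slk n (!![-1, 0; 0, 1] : Matrix (Fin 2) (Fin 2) k) i j = if i = j then (-1) ^ (i : ℕ) else 0 := by
  have h : ((C (-1 : k) * X + C 0) ^ (j : ℕ) * (C 0 * X + C 1) ^ (n - (j : ℕ))) =
      C ((-1) ^ (j : ℕ)) * X ^ (j : ℕ) := by
    rw [C_pow, C_neg, C_1, ← mul_pow]
    simp
  rw [slk_apply, slR]
  simp only [Matrix.of_apply, Matrix.cons_val', Matrix.cons_val_zero, Matrix.cons_val_one,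
    Matrix.cons_val_fin_one]
  rw [h, coeff_C_mul, coeff_X_pow]
  by_cases hij : i = j
  · subst hij; simp
  · have : ¬ (i : ℕ) = (j : ℕ) := fun h => hij (Fin.ext h)
    simp [hij, this]

/-- coefficient form of `ε` -/
lemma epsS_coeff (n : ℕ) (φ : Cusp N → Cusp N → Fin (n + 1) → k) (x y : Cusp N)
    (i : Fin (n + 1)) :
    epsS k N n φ x y i = (-1) ^ (i : ℕ) * φ (negC x) (negC y) i := by
  rw [epsS_apply, Matrix.mulVec, dotProduct]
  simp only [slk_eps]
  rw [Finset.sum_eq_single i]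
  · simp
  · intro j _ hj
    simp [hj.symm]
  · intro h; exact absurd (Finset.mem_univ i) h

/-- elements of `Γ₀(M)` on the left do not matter -/
lemma act_mul_of_isG0 {M n : ℕ} {φ : Cusp N → Cusp N → Fin (n + 1) → k} (hφ : φ ∈ Sym k N M n)
    {g h : SN N} (hg : IsG0 M g) : act k N n (g * h) φ = act k N n h φ := by
  rw [← act_act, hφ.2 g hg]

lemma isG0_conj {M : ℕ} {g : SN N} (hg : IsG0 M g) : IsG0 M (epsM N * g * epsM N) := by
  have h : (epsM N * g * epsM N).1 = !![g.1 0 0, -g.1 0 1; -g.1 1 0, g.1 1 1] := by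
    rw [Submonoid.coe_mul, Submonoid.coe_mul, epsM_coe]
    ext i j
    fin_cases i <;> fin_cases j <;>
      simp [Matrix.mul_apply, Matrix.vecMul, dotProduct, Fin.sum_univ_two]
  refine ⟨?_, ?_⟩
  · rw [h, det_fin_two_of, ← hg.1, det_fin_two]
    ring
  · rw [h]
    simpa using hg.2

/-- `ε` preserves the symbols of level `Γ₀(M)`. -/
theorem epsS_mem {M n : ℕ} {φ : Cusp N → Cusp N → Fin (n + 1) → k} (hφ : φ ∈ Sym k N M n) :
    epsS k N n φ ∈ Sym k N M n := by
  refine ⟨fun x y z => ?_, fun g hg => ?_⟩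
  · rw [epsS, act_apply, act_apply, act_apply, ← Matrix.mulVec_add, hφ.1]
  · have h1 : epsM N * g = (epsM N * g * epsM N) * epsM N := by
      rw [mul_assoc, mul_assoc, epsM_mul_self, mul_one]
    rw [epsS, act_act, h1, act_mul_of_isG0 hφ (isG0_conj hg)]

/-- `ε` preserves the symbols with values of degree `≤ t`. -/
theorem epsS_memLe {M n t : ℕ} {φ : Cusp N → Cusp N → Fin (n + 1) → k}
    (hφ : φ ∈ SymLe k N M n t) : epsS k N n φ ∈ SymLe k N M n t :=
  ⟨epsS_mem hφ.1, fun x y i hi => by rw [epsS_coeff, hφ.2 _ _ i hi, mul_zero]⟩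

lemma isG0_T (M : ℕ) (t : ℤ) : IsG0 M (upS N 1 t 1) := by
  have h : (1 : ℤ) * 1 ≠ 0 := by norm_num
  refine ⟨?_, ?_⟩
  · rw [upS_coe isCoprime_one_left h, det_fin_two_of]; ring
  · rw [upS_coe isCoprime_one_left h]; simp

/-- `ε` and the terms of `T_l`: `ε (1 b; 0 l) = T^t (1 b'; 0 l) ε` -/
lemma epsM_mul_upS {l : ℕ} (hl : 0 < l) {b b' t : ℤ} (h : -b = b' + t * l) :
    epsM N * upS N 1 b l = upS N 1 t 1 * (upS N 1 b' l * epsM N) := by
  have hl' : (1 : ℤ) * (l : ℤ) ≠ 0 := by rw [one_mul]; exact_mod_cast hl.ne'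
  have h1 : (1 : ℤ) * 1 ≠ 0 := by norm_num
  apply Subtype.ext
  rw [Submonoid.coe_mul, Submonoid.coe_mul, Submonoid.coe_mul, epsM_coe,
    upS_coe isCoprime_one_left hl', upS_coe isCoprime_one_left hl',
    upS_coe isCoprime_one_left h1]
  ext i j
  fin_cases i <;> fin_cases j <;> simp [Matrix.mul_apply, Fin.sum_univ_two]
  linarith

lemma epsM_mul_diag (l : ℤ) : epsM N * upS N l 0 1 = upS N l 0 1 * epsM N := by
  by_cases hl : IsCoprime l (N : ℤ) ∧ l * 1 ≠ 0
  · apply Subtype.ext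
    rw [Submonoid.coe_mul, Submonoid.coe_mul, epsM_coe, upS_coe hl.1 hl.2]
    ext i j
    fin_cases i <;> fin_cases j <;> simp [Matrix.mul_apply, Fin.sum_univ_two]
  · have : upS N l 0 1 = 1 := by
      unfold upS
      rw [dif_neg hl]
    rw [this, one_mul, mul_one]

/-- `ε` commutes with `T_l` and `U_l` on the symbols of level `Γ₀(M)`. -/
theorem epsS_hecke {M n l : ℕ} (hl : 0 < l) {φ : Cusp N → Cusp N → Fin (n + 1) → k}
    (hφ : φ ∈ Sym k N M n) :
    hecke k N M n l (epsS k N n φ) = epsS k N n (hecke k N M n l φ) := by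
  have h1 : ∀ b ∈ range l, act k N n (upS N 1 b l) (epsS k N n φ) =
      epsS k N n (act k N n (upS N 1 (((l - b) % l : ℕ) : ℤ) l) φ) := by
    intro b hb
    rw [mem_range] at hb
    rw [epsS, act_act, act_act]
    rcases Nat.eq_zero_or_pos b with rfl | hb0
    · rw [Nat.sub_zero, Nat.mod_self]
      rw [epsM_mul_upS hl (b := ((0 : ℕ) : ℤ)) (b' := ((0 : ℕ) : ℤ)) (t := 0) (by simp),
        act_mul_of_isG0 hφ (isG0_T M 0)]
    · rw [Nat.mod_eq_of_lt (by omega)]
      rw [epsM_mul_upS hl (b := (b : ℤ)) (b' := ((l - b : ℕ) : ℤ)) (t := -1)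
        (by rw [Nat.cast_sub hb.le]; ring), act_mul_of_isG0 hφ (isG0_T M (-1))]
  have h2 : ∑ b ∈ range l, act k N n (upS N 1 b l) (epsS k N n φ) =
      ∑ b ∈ range l, epsS k N n (act k N n (upS N 1 b l) φ) := by
    rw [Finset.sum_congr rfl h1]
    refine Finset.sum_nbij' (fun b => (l - b) % l) (fun b => (l - b) % l) ?_ ?_ ?_ ?_ ?_
    · intro b _; rw [mem_range]; exact Nat.mod_lt _ hl
    · intro b _; rw [mem_range]; exact Nat.mod_lt _ hl
    · intro b hb
      rw [mem_range] at hb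
      rcases Nat.eq_zero_or_pos b with rfl | hb0
      · simp
      · show (l - (l - b) % l) % l = b
        rw [Nat.mod_eq_of_lt (show l - b < l by omega), Nat.sub_sub_self hb.le,
          Nat.mod_eq_of_lt hb]
    · intro b hb
      rw [mem_range] at hb
      rcases Nat.eq_zero_or_pos b with rfl | hb0
      · simp
      · show (l - (l - b) % l) % l = b
        rw [Nat.mod_eq_of_lt (show l - b < l by omega), Nat.sub_sub_self hb.le,
          Nat.mod_eq_of_lt hb]
    · intro b _; rfl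
  rw [hecke, LinearMap.add_apply, LinearMap.add_apply, LinearMap.sum_apply, LinearMap.sum_apply,
    map_add, map_sum, h2]
  congr 1
  split_ifs
  · simp
  · rw [epsS, act_act, act_act, epsM_mul_diag]

end Gouvea.PX
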