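import Pool.Agent.Work.MP_d3517d_nt.P5.SymCountF

/-!
# P5: dimension of the symbols over any field, with torsion (MP_d3517d_nt)

`6 dim Sym k N M n ≤ [SL_2(ℤ) : Γ₀(M)] (n + 12)` for every field `k`, `N ∣ M`, `N ≥ 2`, `n` even.
Local bounds in every characteristic: `2 dim ker (1 + S) ≤ n + 2` (`S` is monomial),
`3 dim ker (1 + R + R²) ≤ 2 n + 6` (divisibility by powers of `X` and `X - 1`).
-/

open Matrix ModularGroup Module CongruenceSubgroup Polynomial

noncomputable section

namespace Gouvea.P5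

open Gouvea.PS (slk slk_apply slk_one slk_mul slk_smul slk_neg slk_map map_cast_mul
  coeff_slashM_eq)
open Gouvea.PX (SN Cusp inf act IsG0 Sym SymLe)

variable {k : Type} [Field k]

lemma rhoF_mul (n : ℕ) (γ δ : G) (v : Fin (n + 1) → k) :
    rhoF k n (γ * δ) v = rhoF k n γ (rhoF k n δ v) := by
  rw [rhoF_apply, rhoF_apply, rhoF_apply, red_mul, slk_mul, Matrix.mulVec_mulVec]

lemma rhoF_one (n : ℕ) (v : Fin (n + 1) → k) : rhoF k n 1 v = v := by
  rw [rhoF_apply, red_one, slk_one, Matrix.one_mulVec]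

/-- the action is by automorphisms -/
def rhoE (k : Type) [Field k] (n : ℕ) (g : G) : (Fin (n + 1) → k) ≃ₗ[k] (Fin (n + 1) → k) where
  toLinearMap := rhoF k n g
  invFun := rhoF k n g⁻¹
  left_inv v := by
    show rhoF k n g⁻¹ (rhoF k n g v) = v
    rw [← rhoF_mul, inv_mul_cancel, rhoF_one]
  right_inv v := by
    show rhoF k n g (rhoF k n g⁻¹ v) = v
    rw [← rhoF_mul, mul_inv_cancel, rhoF_one]

lemma rhoE_apply (n : ℕ) (g : G) (v : Fin (n + 1) → k) : rhoE k n g v = rhoF k n g v := rfl

/-! ### order four -/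

lemma finrank_ker_S_le (n : ℕ) (hn : Even n) :
    finrank k (LinearMap.ker (LinearMap.id + rhoF k n S)) ≤ n / 2 + 1 := by
  let Φ : LinearMap.ker (LinearMap.id + rhoF k n S) →ₗ[k] (Fin (n / 2 + 1) → k) :=
    { toFun := fun v j => v.1 ⟨j, by omega⟩
      map_add' := fun _ _ => rfl
      map_smul' := fun _ _ => rfl }
  have hΦ : Function.Injective Φ := by
    rw [← LinearMap.ker_eq_bot, LinearMap.ker_eq_bot']
    intro v hv
    have h0 : ∀ j : Fin (n + 1), (j : ℕ) ≤ n / 2 → v.1 j = 0 := fun j hj =>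
      congrFun hv (⟨j, by omega⟩ : Fin (n / 2 + 1))
    have h1 : ∀ i : Fin (n + 1), rhoF k n S v.1 i = (-1) ^ (i : ℕ) * v.1 (Fin.rev i) := by
      intro i
      rw [rhoF_apply]
      show ∑ j : Fin (n + 1), slR n (red k S) i j * v.1 j = _
      have h2 : red k S = !![0, 1; -1, 0] := by
        unfold red
        ext a b
        fin_cases a <;> fin_cases b <;> simp [S, Matrix.SpecialLinearGroup.coe_inv,
          Matrix.adjugate_fin_two]
      rw [h2, Finset.sum_eq_single (Fin.rev i)]
      · congr 1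
        unfold slR
        have h3 : n - ((Fin.rev i : Fin (n + 1)) : ℕ) = i := by
          rw [Fin.val_rev]
          omega
        rw [h3]
        simp only [Matrix.of_apply, Matrix.cons_val', Matrix.cons_val_zero, Matrix.cons_val_one,
          Matrix.cons_val_fin_one]
        rw [map_zero, map_one, zero_mul, zero_add, one_pow, one_mul, add_zero, map_neg, map_one,
          neg_one_mul, neg_pow, ← C_1, ← C_neg, ← C_pow, coeff_C_mul, coeff_X_pow, if_pos rfl,
          mul_one]
      · intro j _ hj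
        have h3 : (i : ℕ) ≠ n - (j : ℕ) := by
          intro h
          apply hj
          ext
          rw [Fin.val_rev]
          omega
        unfold slR
        simp only [Matrix.of_apply, Matrix.cons_val', Matrix.cons_val_zero, Matrix.cons_val_one,
          Matrix.cons_val_fin_one]
        rw [map_zero, map_one, zero_mul, zero_add, one_pow, one_mul, add_zero, map_neg, map_one,
          neg_one_mul, neg_pow, ← C_1, ← C_neg, ← C_pow, coeff_C_mul, coeff_X_pow, if_neg h3,
          mul_zero, zero_mul]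
      · intro h
        exact absurd (Finset.mem_univ _) h
    refine Subtype.ext (funext fun i => ?_)
    rcases Nat.lt_or_ge (n / 2) (i : ℕ) with h2 | h2
    · have h4 : v.1 + rhoF k n S v.1 = 0 := v.2
      have h3 : v.1 i + rhoF k n S v.1 i = 0 := congrFun h4 i
      rw [h1, h0 (Fin.rev i) (by
        rw [Fin.val_rev]
        obtain ⟨m, hm⟩ := hn
        omega), mul_zero, add_zero] at h3
      exact h3
    · exact h0 i h2
  have h5 := LinearMap.finrank_le_finrank_of_injective hΦ
  rwa [Module.finrank_fintype_fun_eq_card, Fintype.card_fin] at h5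

lemma bound_fourF (n : ℕ) (hn : Even n) (g : G) :
    2 * finrank k (LinearMap.ker (LinearMap.id + rhoF k n (g * S * g⁻¹))) ≤ (n + 1) + 1 := by
  let Φ : LinearMap.ker (LinearMap.id + rhoF k n (g * S * g⁻¹)) →ₗ[k]
      LinearMap.ker (LinearMap.id + rhoF k n S) :=
    ((rhoE k n g⁻¹).toLinearMap ∘ₗ Submodule.subtype _).codRestrict _ (fun v => by
      have h1 : v.1 + rhoF k n (g * S * g⁻¹) v.1 = 0 := v.2
      show rhoF k n g⁻¹ v.1 + rhoF k n S (rhoF k n g⁻¹ v.1) = 0
      have h2 := congrArg (rhoF k n g⁻¹) h1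
      rw [map_add, map_zero, ← rhoF_mul, show g⁻¹ * (g * S * g⁻¹) = S * g⁻¹ by group,
        rhoF_mul] at h2
      exact h2)
  have hΦ : Function.Injective Φ := by
    intro v w h
    exact Subtype.ext ((rhoE k n g⁻¹).injective (congrArg Subtype.val h))
  have h5 := LinearMap.finrank_le_finrank_of_injective hΦ
  have h6 := finrank_ker_S_le (k := k) n hn
  omega

/-! ### order three -/

/-- the polynomial with given coefficients -/
def polE {n : ℕ} (v : Fin (n + 1) → k) : k[X] := ∑ j : Fin (n + 1), v j • X ^ (j : ℕ)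

lemma coeff_polE {n : ℕ} (v : Fin (n + 1) → k) (i : Fin (n + 1)) : (polE v).coeff i = v i := by
  unfold polE
  rw [finsetSum_coeff, Finset.sum_eq_single i]
  · rw [coeff_smul, coeff_X_pow, if_pos rfl, smul_eq_mul, mul_one]
  · intro j _ hj
    rw [coeff_smul, coeff_X_pow, if_neg (fun h => hj (Fin.ext h.symm)), smul_eq_mul, mul_zero]
  · intro h
    exact absurd (Finset.mem_univ _) h

lemma slashM_pol {n : ℕ} (g : Matrix (Fin 2) (Fin 2) k) (v : Fin (n + 1) → k) :
    slashM n g (polE v) = ∑ j : Fin (n + 1), v j •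
      ((C (g 0 0) * X + C (g 0 1)) ^ (j : ℕ) * (C (g 1 0) * X + C (g 1 1)) ^ (n - (j : ℕ))) := by
  unfold polE
  rw [map_sum]
  refine Finset.sum_congr rfl fun j _ => ?_
  rw [map_smul, slashM_X_pow n g j (Nat.lt_succ_iff.1 j.2)]

lemma coeff_slashM_pol {n : ℕ} (g : Matrix (Fin 2) (Fin 2) k) (v : Fin (n + 1) → k)
    (i : Fin (n + 1)) : (slashM n g (polE v)).coeff i = (slk n g).mulVec v i := by
  rw [coeff_slashM_eq]
  congr 1
  funext j
  exact coeff_polE v j

lemma red_Re : red k Re = !![0, -1; 1, -1] := by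
  unfold red
  ext a b
  fin_cases a <;> fin_cases b <;> simp [Re, Matrix.SpecialLinearGroup.coe_inv,
    Matrix.adjugate_fin_two]

lemma red_Re_inv : red k Re⁻¹ = !![-1, 1; -1, 0] := by
  unfold red
  rw [inv_inv]
  ext a b
  fin_cases a <;> fin_cases b <;> simp [Re]

lemma Re_Re : Re * Re = Re⁻¹ := by
  rw [eq_inv_iff_mul_eq_one]
  exact Re_cube

lemma finrank_ker_Re_le (n : ℕ) :
    finrank k (LinearMap.ker (LinearMap.id + rhoF k n Re + rhoF k n Re ∘ₗ rhoF k n Re)) ≤
      2 * (n / 3 + 1) := by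
  let r := n / 3 + 1
  have hr : r ≤ n + 1 := by
    show n / 3 + 1 ≤ n + 1
    omega
  let Φ : LinearMap.ker (LinearMap.id + rhoF k n Re + rhoF k n Re ∘ₗ rhoF k n Re) →ₗ[k]
      (Fin r → k) × (Fin r → k) :=
    { toFun := fun v => (fun j => v.1 ⟨j, by omega⟩, fun j => v.1 (Fin.rev ⟨j, by omega⟩))
      map_add' := fun _ _ => rfl
      map_smul' := fun _ _ => rfl }
  have hΦ : Function.Injective Φ := by
    rw [← LinearMap.ker_eq_bot, LinearMap.ker_eq_bot']
    intro v hv
    have h0 : ∀ j : Fin (n + 1), (j : ℕ) < r → v.1 j = 0 := fun j hj =>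
      congrFun (congrArg Prod.fst hv) ⟨j, hj⟩
    have h0' : ∀ j : Fin (n + 1), n < (j : ℕ) + r → v.1 j = 0 := fun j hj => by
      have h1 := congrFun (congrArg Prod.snd hv) (⟨(Fin.rev j : Fin (n + 1)), by
        rw [Fin.val_rev]
        omega⟩ : Fin r)
      have h2 : v.1 (Fin.rev (Fin.rev j)) = 0 := h1
      rwa [Fin.rev_rev] at h2
    set Q := slashM n (red k Re) (polE v.1) with hQ
    set R' := slashM n (red k Re⁻¹) (polE v.1) with hR
    -- the sum vanishes
    have hsum : polE v.1 + Q + R' = 0 := by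
      ext i
      rcases Nat.lt_or_ge i (n + 1) with hi | hi
      · have h1 : v.1 + rhoF k n Re v.1 + rhoF k n Re (rhoF k n Re v.1) = 0 := v.2
        rw [← rhoF_mul, Re_Re] at h1
        have h2 := congrFun h1 ⟨i, hi⟩
        rw [rhoF_apply, rhoF_apply] at h2
        rw [coeff_add, coeff_add, hQ, hR, coeff_zero]
        have e1 := coeff_polE v.1 ⟨i, hi⟩
        have e2 := coeff_slashM_pol (red k Re) v.1 ⟨i, hi⟩
        have e3 := coeff_slashM_pol (red k Re⁻¹) v.1 ⟨i, hi⟩
        rw [e1, e2, e3]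
        exact h2
      · rw [coeff_add, coeff_add, coeff_zero, coeff_eq_zero_of_natDegree_lt,
          coeff_eq_zero_of_natDegree_lt, coeff_eq_zero_of_natDegree_lt, add_zero, add_zero]
        · exact lt_of_le_of_lt (natDegree_slashM_le _ _ _) hi
        · exact lt_of_le_of_lt (natDegree_slashM_le _ _ _) hi
        · refine lt_of_le_of_lt (natDegree_sum_le_of_forall_le (n := n) _ _ fun j _ => ?_) hi
          exact (natDegree_smul_le _ _).trans ((natDegree_X_pow_le _).trans
            (Nat.lt_succ_iff.1 j.2))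
    have hXP : (X : k[X]) ^ r ∣ polE v.1 := by
      refine Finset.dvd_sum fun j _ => ?_
      rcases Nat.lt_or_ge (j : ℕ) r with h1 | h1
      · rw [h0 j h1, zero_smul]
        exact dvd_zero _
      · exact dvd_smul_of_dvd _ (pow_dvd_pow _ h1)
    have hXR : (X : k[X]) ^ r ∣ R' := by
      rw [hR, slashM_pol, red_Re_inv]
      refine Finset.dvd_sum fun j _ => ?_
      rcases Nat.lt_or_ge n ((j : ℕ) + r) with h1 | h1
      · rw [h0' j h1, zero_smul]
        exact dvd_zero _
      · refine dvd_smul_of_dvd _ (Dvd.dvd.mul_left ?_ _)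
        simp only [Matrix.of_apply, Matrix.cons_val', Matrix.cons_val_zero, Matrix.cons_val_one,
          Matrix.cons_val_fin_one]
        rw [map_zero, add_zero, mul_pow]
        exact Dvd.dvd.mul_left (pow_dvd_pow _ (by omega)) _
    have hXQ : (X : k[X]) ^ r ∣ Q := by
      have : Q = -(polE v.1) - R' := by linear_combination hsum
      rw [this]
      exact dvd_sub (dvd_neg.2 hXP) hXR
    have hYQ : (X - 1 : k[X]) ^ r ∣ Q := by
      rw [hQ, slashM_pol, red_Re]
      refine Finset.dvd_sum fun j _ => ?_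
      rcases Nat.lt_or_ge n ((j : ℕ) + r) with h1 | h1
      · rw [h0' j h1, zero_smul]
        exact dvd_zero _
      · refine dvd_smul_of_dvd _ (Dvd.dvd.mul_left ?_ _)
        simp only [Matrix.of_apply, Matrix.cons_val', Matrix.cons_val_zero, Matrix.cons_val_one,
          Matrix.cons_val_fin_one]
        rw [map_one, one_mul, map_neg, map_one, ← sub_eq_add_neg]
        exact pow_dvd_pow _ (by omega)
    have hdeg : Q.natDegree ≤ n - r := by
      rw [hQ, slashM_pol, red_Re]
      refine natDegree_sum_le_of_forall_le _ _ fun j _ => ?_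
      rcases Nat.lt_or_ge (j : ℕ) r with h1 | h1
      · rw [h0 j h1, zero_smul, natDegree_zero]
        exact Nat.zero_le _
      · refine (natDegree_smul_le _ _).trans ?_
        simp only [Matrix.of_apply, Matrix.cons_val', Matrix.cons_val_zero, Matrix.cons_val_one,
          Matrix.cons_val_fin_one]
        rw [map_zero, zero_mul, zero_add, map_one, one_mul, ← C_pow]
        refine (natDegree_C_mul_le _ _).trans (natDegree_pow_le.trans ?_)
        rw [map_neg, map_one, ← sub_eq_add_neg]
        calc (n - (j : ℕ)) * (X - 1 : k[X]).natDegree = n - (j : ℕ) := by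
              rw [← C_1, natDegree_X_sub_C, mul_one]
          _ ≤ n - r := by omega
    have hcop : IsCoprime ((X : k[X]) ^ r) ((X - 1 : k[X]) ^ r) := by
      refine IsCoprime.pow ⟨1, -1, ?_⟩
      ring
    have hmul : (X : k[X]) ^ r * (X - 1) ^ r ∣ Q := hcop.mul_dvd hXQ hYQ
    have hQ0 : Q = 0 := by
      by_contra hne
      have h1 := natDegree_le_of_dvd hmul hne
      have hm1 : ((X : k[X]) ^ r).Monic := monic_X_pow r
      have hm2 : ((X - 1 : k[X]) ^ r).Monic := by
        rw [← C_1]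
        exact (monic_X_sub_C 1).pow r
      rw [hm1.natDegree_mul hm2, natDegree_X_pow, natDegree_pow, ← C_1, natDegree_X_sub_C,
        mul_one] at h1
      have h2 : r = n / 3 + 1 := rfl
      omega
    have h6 : rhoF k n Re v.1 = 0 := by
      funext i
      rw [rhoF_apply, ← coeff_slashM_pol, ← hQ, hQ0]
      rfl
    refine Subtype.ext ?_
    have h7 : rhoE k n Re v.1 = 0 := h6
    exact (LinearEquiv.map_eq_zero_iff _).1 h7
  have h5 := LinearMap.finrank_le_finrank_of_injective hΦ
  rw [Module.finrank_prod, Module.finrank_fintype_fun_eq_card, Fintype.card_fin] at h5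
  show _ ≤ 2 * r
  omega

lemma bound_threeF (n : ℕ) (g : G) :
    3 * finrank k (LinearMap.ker (LinearMap.id + rhoF k n (g * Re * g⁻¹) +
      rhoF k n (g * Re * g⁻¹) ∘ₗ rhoF k n (g * Re * g⁻¹))) ≤ 2 * (n + 1) + 4 := by
  let Φ : LinearMap.ker (LinearMap.id + rhoF k n (g * Re * g⁻¹) +
      rhoF k n (g * Re * g⁻¹) ∘ₗ rhoF k n (g * Re * g⁻¹)) →ₗ[k]
      LinearMap.ker (LinearMap.id + rhoF k n Re + rhoF k n Re ∘ₗ rhoF k n Re) :=
    ((rhoE k n g⁻¹).toLinearMap ∘ₗ Submodule.subtype _).codRestrict _ (fun v => by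
      have h1 : v.1 + rhoF k n (g * Re * g⁻¹) v.1 +
        rhoF k n (g * Re * g⁻¹) (rhoF k n (g * Re * g⁻¹) v.1) = 0 := v.2
      show rhoF k n g⁻¹ v.1 + rhoF k n Re (rhoF k n g⁻¹ v.1) +
        rhoF k n Re (rhoF k n Re (rhoF k n g⁻¹ v.1)) = 0
      have h2 := congrArg (rhoF k n g⁻¹) h1
      rw [map_add, map_add, map_zero, ← rhoF_mul, ← rhoF_mul, ← rhoF_mul,
        show g⁻¹ * (g * Re * g⁻¹) = Re * g⁻¹ by group,
        show Re * g⁻¹ * (g * Re * g⁻¹) = Re * (Re * g⁻¹) by group,
        rhoF_mul, rhoF_mul, rhoF_mul] at h2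
      exact h2)
  have hΦ : Function.Injective Φ := by
    intro v w h
    exact Subtype.ext ((rhoE k n g⁻¹).injective (congrArg Subtype.val h))
  have h5 := LinearMap.finrank_le_finrank_of_injective hΦ
  have h6 := finrank_ker_Re_le (k := k) n
  omega

/-- **Every field, every level**: `6 dim ≤ [SL_2(ℤ) : Γ₀(M)] (n + 12)`. -/
theorem finrank_Sym_le_add (k : Type) [Field k] {N M n : ℕ} [NeZero M] (hN : 2 ≤ N)
    (hNM : N ∣ M) (hn : Even n) :
    6 * finrank k (Sym k N M n) ≤ Nat.card (Qt (Gamma0 M)) * (n + 12) ∧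
      FiniteDimensional k (Sym k N M n) := by
  obtain ⟨h1, h2⟩ := finrank_Sym_le (k := k) hN hNM hn 1 4 (fun g _ => bound_fourF n hn g)
    (fun g _ => bound_threeF n g)
  exact ⟨h1.trans (Nat.mul_le_mul_left _ (by omega)), h2⟩

end Gouvea.P5
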