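import Pool.Agent.Work.MP_d3517d_nt.ES.InjFour
import Pool.Agent.Work.MP_d3517d_nt.P5.LinkX
import Pool.Agent.Work.MP_d3517d_nt.P5.EpsX
import Pool.Agent.Work.MP_d3517d_nt.P5.Rho
import Pool.Agent.Work.MP_d3517d_nt.P5.SymCountE

/-!
# Eichler–Shimura for the modular symbols on the cusps `Γ₀(N) ∞` (MP_d3517d_nt, P5)

`ESX : S_{n+2}(Γ₀(M)) × S_{n+2}(Γ₀(M)) → Sym ℂ N M n`,
`(f, g) ↦ (1 + ε) symC f + (1 - ε) symC g` (`N ∣ M`, any `N`), is injective for `n ≥ 2`, Hecke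
equivariant, and its cokernel has a dimension bounded by a constant which depends only on `M`.

* `Sys_SymX`: `Sys (Sym ℂ N M n) = Sys (S_{n+2}) + Sys (S_{n+2}) + r`, `card r ≤ C`.
-/

open UpperHalfPlane CongruenceSubgroup Polynomial Gouvea.Desc Gouvea.Sys
open scoped MatrixGroups ModularForm

noncomputable section

namespace Gouvea.PX

open Gouvea.ES Pool.Agent.Gouv.ES

variable {N M : ℕ} [NeZero M] {n : ℕ}

/-- `f ↦ symC f` on the cusp forms of level `M` -/
def symX (N M n : ℕ) [NeZero M] : Gouvea.Cusp M (n + 2) →ₗ[ℂ] Sym ℂ N M n where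
  toFun f := ⟨symC N n (f : ℍ → ℂ), symC_mem f⟩
  map_add' f g := Subtype.ext (symC_add (nice_of_cuspForm f) (nice_of_cuspForm g))
  map_smul' c f := Subtype.ext (symC_smul N n f c)

theorem symX_coe (f : Gouvea.Cusp M (n + 2)) :
    (symX N M n f : Cusp N → Cusp N → Fin (n + 1) → ℂ) = symC N n (f : ℍ → ℂ) := rfl

/-- `ε` on the symbols of level `M` -/
def epsX (N M n : ℕ) : Sym ℂ N M n →ₗ[ℂ] Sym ℂ N M n :=
  (epsS ℂ N n).restrict fun _ h => epsS_mem h

omit [NeZero M] in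
theorem epsX_coe (φ : Sym ℂ N M n) :
    (epsX N M n φ : Cusp N → Cusp N → Fin (n + 1) → ℂ) = epsS ℂ N n φ := rfl

omit [NeZero M] in
theorem epsX_epsX (φ : Sym ℂ N M n) : epsX N M n (epsX N M n φ) = φ :=
  Subtype.ext (epsS_epsS n φ.1)

theorem opN_epsX (hN : N ∣ M) (q : Nat.Primes) (φ : Sym ℂ N M n) :
    opN ℂ N M n hN q (epsX N M n φ) = epsX N M n (opN ℂ N M n hN q φ) :=
  Subtype.ext (epsS_hecke q.2.pos φ.2)

theorem opN_symX (hN : N ∣ M) (q : Nat.Primes) (f : Gouvea.Cusp M (n + 2)) :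
    opN ℂ N M n hN q (symX N M n f) = symX N M n (opC M (n + 2) q f) := by
  have : NeZero (q : ℕ) := ⟨q.2.ne_zero⟩
  refine Subtype.ext ?_
  rw [opN_coe, symX_coe, symX_coe]
  by_cases h : (q : ℕ) ∣ M
  · rw [opC_coe_dvd _ _ _ h, hecke_symC_U (nice_of_cuspForm f) h]
  · rw [opC_coe_not_dvd _ _ _ h, hecke_symC_T (nice_of_cuspForm f) q.2 hN h]

theorem toP_negC {c : Cusp N} {q : ℚ} (h : toP c = (q : OnePoint ℚ)) :
    toP (negC c) = ((-q : ℚ) : OnePoint ℚ) := by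
  revert h
  refine Cusp.ind' (P := fun c => toP c = (q : OnePoint ℚ) →
    toP (negC c) = ((-q : ℚ) : OnePoint ℚ)) (fun u v hu hv hne h => ?_) c
  rw [negC_mk, toP_mk]
  rw [toP_mk] at h
  by_cases hv0 : v = 0
  · rw [if_pos hv0] at h
    exact absurd h.symm (OnePoint.coe_ne_infty q)
  · rw [if_neg hv0] at h ⊢
    have h1 : (u : ℚ) / v = q := OnePoint.coe_injective h
    rw [← h1]
    push_cast
    rw [neg_div]

/-- **Injectivity of the even and the odd part**, every coefficient `s`. -/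
theorem epsX_inj [NeZero N] (hn : 2 ≤ n) (s : ℂ) (f : Gouvea.Cusp M (n + 2))
    (h : symX N M n f + s • epsX N M n (symX N M n f) = 0) : f = 0 := by
  refine sym_inj' (Γ := Gam0 M) hn f s (D := {q : ℚ | ∃ c : Cusp N, toP c = (q : OnePoint ℚ)})
    dense_cusps' ?_
  rintro x ⟨c, hc⟩
  have h1 : ∀ i : Fin (n + 1),
      (sym n f ((x : ℚ) : OnePoint ℚ) OnePoint.infty).coeff i +
        s * ((-1) ^ (i : ℕ) *
          (sym n f ((-x : ℚ) : OnePoint ℚ) OnePoint.infty).coeff i) = 0 := by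
    intro i
    have h2 := congrFun (congrFun (congrFun (congrArg Subtype.val h) c) (inf N)) i
    have h3 : symC N n (f : ℍ → ℂ) c (inf N) i +
        s * epsS ℂ N n (symC N n (f : ℍ → ℂ)) c (inf N) i = 0 := h2
    rw [epsS_coeff, negC_inf] at h3
    simp only [symC, toP_inf, toP_negC hc] at h3
    rw [hc] at h3
    exact h3
  rw [ES.eval_eq_sum_fin (natDegree_sym_le n _ _ _), ES.eval_eq_sum_fin (natDegree_sym_le n _ _ _),
    Finset.mul_sum, ← Finset.sum_add_distrib]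
  refine Finset.sum_eq_zero fun i _ => ?_
  have h4 := h1 i
  have h5 : (((-x : ℚ) : ℝ) : ℂ) ^ (i : ℕ) = (-1) ^ (i : ℕ) * (((x : ℝ)) : ℂ) ^ (i : ℕ) := by
    rw [← mul_pow]
    congr 1
    push_cast
    ring
  rw [h5]
  linear_combination (((x : ℝ)) : ℂ) ^ (i : ℕ) * h4

/-- **The Eichler–Shimura map.** -/
def ESX (N M n : ℕ) [NeZero M] :
    Gouvea.Cusp M (n + 2) × Gouvea.Cusp M (n + 2) →ₗ[ℂ] Sym ℂ N M n :=
  ((LinearMap.id + epsX N M n) ∘ₗ symX N M n).coprod ((LinearMap.id - epsX N M n) ∘ₗ symX N M n)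

theorem ESX_apply (f g : Gouvea.Cusp M (n + 2)) :
    ESX N M n (f, g) = (symX N M n f + epsX N M n (symX N M n f)) +
      (symX N M n g - epsX N M n (symX N M n g)) := by
  simp [ESX]

theorem two_smul_of_ESX {f g : Gouvea.Cusp M (n + 2)} {φ : Sym ℂ N M n}
    (h : ESX N M n (f, g) = φ) :
    (2 : ℂ) • (symX N M n f + epsX N M n (symX N M n f)) = φ + epsX N M n φ ∧
      (2 : ℂ) • (symX N M n g - epsX N M n (symX N M n g)) = φ - epsX N M n φ := by
  subst h
  rw [ESX_apply, map_add, map_add, map_sub, epsX_epsX, epsX_epsX, two_smul, two_smul]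
  constructor <;> abel

theorem ESX_injective [NeZero N] (hn : 2 ≤ n) : Function.Injective (ESX N M n) := by
  rw [injective_iff_map_eq_zero]
  rintro ⟨f, g⟩ h
  obtain ⟨h2, h3⟩ := two_smul_of_ESX h
  rw [map_zero, add_zero] at h2
  rw [map_zero, sub_zero] at h3
  have h4 := (smul_eq_zero.mp h2).resolve_left two_ne_zero
  have h5 := (smul_eq_zero.mp h3).resolve_left two_ne_zero
  have hf : f = 0 := epsX_inj (N := N) hn 1 f (by rw [one_smul]; exact h4)
  have hg : g = 0 := by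
    refine epsX_inj (N := N) hn (-1) g ?_
    have e := neg_one_smul ℂ (epsX N M n (symX N M n g))
    exact (congrArg (symX N M n g + ·) e).trans ((sub_eq_add_neg _ _).symm.trans h5)
  rw [hf, hg]
  rfl

theorem ESX_op (hN : N ∣ M) (q : Nat.Primes) (f g : Gouvea.Cusp M (n + 2)) :
    opN ℂ N M n hN q (ESX N M n (f, g)) = ESX N M n (opC M (n + 2) q f, opC M (n + 2) q g) := by
  rw [ESX_apply, ESX_apply, map_add, map_add, map_sub, opN_epsX, opN_epsX, opN_symX, opN_symX]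

/-- **`ESX` is Hecke equivariant.** -/
theorem ESX_equivariant (hN : N ∣ M) (r : MvPolynomial Nat.Primes ℤ)
    (x : Gouvea.Cusp M (n + 2) × Gouvea.Cusp M (n + 2)) :
    ESX N M n (prodRep (rhoC M (n + 2)) (rhoC M (n + 2)) r x) =
      rhoN ℂ N M n hN r (ESX N M n x) := by
  refine ES.equivariant_of_X (fun q x => ?_) r x
  rw [prodRep_apply, rhoC_X, rhoN_X]
  exact (ESX_op hN q x.1 x.2).symm

/-- **Eichler–Shimura, general form.** -/
theorem Sys_SymX_of_finrank [NeZero N] (hN : N ∣ M) (hn : 2 ≤ n)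
    [FiniteDimensional ℂ (Sym ℂ N M n)] {C : ℕ}
    (h : Module.finrank ℂ (Sym ℂ N M n) ≤
      2 * Module.finrank ℂ (Gouvea.Cusp M (n + 2)) + C) :
    ∃ r : Multiset (MvPolynomial Nat.Primes ℤ →+* ℂ), r.card ≤ C ∧
      Sys (rhoN ℂ N M n hN) = Sys (rhoC M (n + 2)) + Sys (rhoC M (n + 2)) + r := by
  obtain ⟨r, hr, -⟩ := Sys_range (prodRep (rhoC M (n + 2)) (rhoC M (n + 2)))
    (rhoN ℂ N M n hN) (ESX N M n) (ESX_injective hn) (ESX_equivariant hN)
  rw [Sys_prod] at hr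
  refine ⟨r, ?_, hr⟩
  have h1 := congrArg Multiset.card hr
  rw [Multiset.card_add, Multiset.card_add, card_Sys, card_Sys] at h1
  omega

/-! ### Counting, `2 ≤ N` -/

/-- the bound for the cokernel -/
def esBoundX (M : ℕ) : ℕ := 2 * (Gamma0 M).index ^ 2 + 4 * (Gamma0 M).index

theorem finiteDimensional_SymX (k : Type) [Field k] (hN2 : 2 ≤ N) (hN : N ∣ M) (hn : Even n) :
    FiniteDimensional k (Sym k N M n) :=
  (P5.finrank_Sym_le_add k hN2 hN hn).2

theorem finrank_SymX_le (hN2 : 2 ≤ N) (hN : N ∣ M) (hn : Even n) :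
    Module.finrank ℂ (Sym ℂ N M n) ≤
      2 * Module.finrank ℂ (Gouvea.Cusp M (n + 2)) + esBoundX M := by
  have h1 := Pool.Agent.Gouv.ESDim.finrank_cuspForm_ge M (n + 2) (hn.add even_two)
  have h2 := (P5.finrank_Sym_le_add ℂ hN2 hN hn).1
  rw [P5.card_Qt] at h2
  have h5 : Module.finrank ℂ (CuspForm ((Gamma0 M : Subgroup SL(2, ℤ)) :
      Subgroup (GL (Fin 2) ℝ)) ((n + 2 : ℕ) : ℤ)) = Module.finrank ℂ (Gouvea.Cusp M (n + 2)) := rfl
  rw [h5] at h1
  rw [esBoundX]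
  have h6 : (Gamma0 M).index * (n + 12) = (Gamma0 M).index * (n + 2) + 10 * (Gamma0 M).index := by
    ring
  rw [h6] at h2
  generalize (Gamma0 M).index ^ 2 = s at *
  generalize (Gamma0 M).index * (n + 2) = t at *
  omega

/-- **Eichler–Shimura for the symbols on the cusps `Γ₀(N) ∞`, `2 ≤ N ∣ M`.** The systems of
eigenvalues on the symbols of level `M` and weight `n + 2` are those on the cusp forms, twice, and
at most `esBoundX M` others. -/
theorem Sys_SymX (hN2 : 2 ≤ N) (hN : N ∣ M) (hn : Even n) (hn2 : 2 ≤ n) :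
    haveI := finiteDimensional_SymX ℂ hN2 hN hn
    ∃ r : Multiset (MvPolynomial Nat.Primes ℤ →+* ℂ), r.card ≤ esBoundX M ∧
      Sys (rhoN ℂ N M n hN) = Sys (rhoC M (n + 2)) + Sys (rhoC M (n + 2)) + r := by
  have : NeZero N := ⟨by omega⟩
  have := finiteDimensional_SymX ℂ hN2 hN hn
  exact Sys_SymX_of_finrank hN hn2 (finrank_SymX_le hN2 hN hn)

end Gouvea.PX
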