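import Pool.Agent.Work.MP_d3517d_nt.P5.GrDeg23
import Pool.Agent.Work.MP_d3517d_nt.Sys.Class
import Pool.Agent.Work.MP_d3517d_nt.Fin.Defs
import Pool.Agent.Work.MP_d3517d_nt.PN.ToX
import Pool.Agent.Work.MP_d3517d_nt.P5.Rho

/-!
# Systems of eigenvalues in a residue class, by degrees, for `p = 2, 3` (MP_d3517d_nt, P5)

* `card_PS_two` : `p = 2`, level `4 ∣ M`: the number of systems of weight `n + 2` in a class is
  `(n + 1) g`;
* `card_PX_three` : `p = 3`, level `9 ∣ M`: it is `(n / 2 + 1) g₀ + (n / 2) g₁`, and for the class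
  of `q c q` it is `(n / 2 + 1) g₁ + (n / 2) g₀`.
-/

set_option autoImplicit false

open Finset Matrix MvPolynomial Gouvea.Sys Gouvea.Red Gouvea.ES Gouvea.Fin
open Gouvea.PS (Lp)
open Gouvea.POS (HR0' tw tw_X)

noncomputable section

namespace Gouvea.GrFam

variable {p : ℕ} [Fact p.Prime]

/-- the variable of a prime different from `p` -/
def xq (p : ℕ) (q : Nat.Primes) : HR0' p := if h : (q : ℕ) ≠ p then X ⟨(q : ℕ), q.2, h⟩ else 0

omit [Fact p.Prime] in
lemma xq_of {q : Nat.Primes} (h : (q : ℕ) ≠ p) : xq p q = X ⟨(q : ℕ), q.2, h⟩ := dif_pos h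

lemma incl_xq {q : Nat.Primes} (h : (q : ℕ) ≠ p) : incl p (xq p q) = X q := by
  rw [xq_of h, incl_X]
  rfl

omit [Fact p.Prime] in
lemma tw_xq (i : ℕ) {q : Nat.Primes} (h : (q : ℕ) ≠ p) :
    tw p i (xq p q) = ((q : ℕ) : HR0' p) ^ i * xq p q := by
  rw [xq_of h, tw_X]

/-- commuting integral matrices over `ℤ_p`, without the prime `p` -/
def modB {ι : Type} [Fintype ι] [DecidableEq ι] (p : ℕ) [Fact p.Prime] (B : HR →+* Matrix ι ι ℤ) :
    HR0' p →+* Matrix ι ι ℤ_[p] :=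
  (Int.castRingHom ℤ_[p]).mapMatrix.comp (B.comp (incl p))

open Classical in
/-- reading a class over `ℂ` in the systems of the primes different from `p` -/
theorem card_InC {ι : Type} [Fintype ι] [DecidableEq ι] (B : HR →+* Matrix ι ι ℤ)
    (j : algebraicClosure ℚ ℂ →+* PadicAlgCl p) (A : Set Nat.Primes)
    (c : Nat.Primes → PadicAlgCl p) (hA : ∀ q ∈ A, (q : ℕ) ≠ p) :
    ((Sys (matRep (intRep ℂ B))).filter fun χ => InC j A c χ).card =
      ((Sys (matRep (toK (modB p B)))).filter fun χ => ∀ q ∈ A, ‖χ (xq p q) - c q‖ < 1).card := by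
  have h1 := card_emb B j fun f => ∀ q ∈ A, ‖f (X q) - c q‖ < 1
  have h2 : toK (modB p B) = (intRep (PadicAlgCl p) B).comp (incl p) := by
    apply RingHom.ext
    intro r
    ext a b
    change zK p ((B (incl p r) a b : ℤ) : ℤ_[p]) = ((B (incl p r) a b : ℤ) : PadicAlgCl p)
    rw [map_intCast]
  have h3 : Sys (matRep (toK (modB p B))) =
      (Sys (matRep (intRep (PadicAlgCl p) B))).map fun χ => χ.comp (incl p) := by
    rw [h2, ← Sys_comp]
    rfl
  rw [h3, Multiset.filter_map, Multiset.card_map]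
  refine h1.trans ?_
  congr 1
  refine Multiset.filter_congr fun χ _ => ?_
  refine forall₂_congr fun q hq => ?_
  rw [RingHom.comp_apply, incl_xq (hA q hq)]

variable {E : Type} [Fintype E] [DecidableEq E] (F : GrFam p E (Lp p))

open Classical in
/-- counting in a class, by degrees -/
theorem card_class0 {n : ℕ} (B : HR →+* Matrix (E × Fin (n + 1)) (E × Fin (n + 1)) ℤ)
    (hB : ∀ l : Lp p, (B (X ⟨l.1, l.2.1⟩)).map (Int.cast : ℤ → ℤ_[p]) = F.t n l)
    (j : algebraicClosure ℚ ℂ →+* PadicAlgCl p) (A : Set Nat.Primes)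
    (c : Nat.Primes → PadicAlgCl p) (hA : ∀ q ∈ A, (q : ℕ) ≠ p) (hc : ∀ q ∈ A, ‖c q‖ ≤ 1) :
    ((Sys (matRep (intRep ℂ B))).filter fun χ => InC j A c χ).card =
      ∑ i ∈ range (n + 1), ((F.S n i).filter fun ψ => ∀ q ∈ A, ψ (xq p q) = resK (c q)).card := by
  have hB' : ∀ l : Lp p, modB p B (X l) = F.t n l := by
    intro l
    rw [← hB, modB, RingHom.comp_apply, RingHom.comp_apply, incl_X]
    rfl
  rw [card_InC B j A c hA, F.card_filter (modB p B) hB' _
    (fun ψ => ∀ q ∈ A, ψ (xq p q) = resK (c q))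
    (Red.class_iff A (xq p) c hc _ fun q hq => resK_of_le (hc q hq))]

open Classical in
/-- the number of systems of weight `2` in the class of `c q / q ^ i` -/
def gc (A : Set Nat.Primes) (c : Nat.Primes → PadicAlgCl p) (i : ℕ) : ℕ :=
  ((F.S 0 0).filter fun ψ => ∀ q ∈ A, (((q : Nat.Primes) : ℕ) : kk p) ^ i * ψ (xq p q) =
    resK (c q)).card

open Classical in
/-- **Counting in a class, by degrees.** -/
theorem card_class (htw : ∀ n i j l, F.g (n + 2 * j) (i + j) l =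
    ((((l.1 : ℕ) : ℤ) ^ j : ℤ) : ZMod p) • F.g n i l) (hp : p - 1 ∣ 2) {n : ℕ} (hn : Even n)
    (B : HR →+* Matrix (E × Fin (n + 1)) (E × Fin (n + 1)) ℤ)
    (hB : ∀ l : Lp p, (B (X ⟨l.1, l.2.1⟩)).map (Int.cast : ℤ → ℤ_[p]) = F.t n l)
    (j : algebraicClosure ℚ ℂ →+* PadicAlgCl p) (A : Set Nat.Primes)
    (c : Nat.Primes → PadicAlgCl p) (hA : ∀ q ∈ A, (q : ℕ) ≠ p) (hc : ∀ q ∈ A, ‖c q‖ ≤ 1) :
    ((Sys (matRep (intRep ℂ B))).filter fun χ => InC j A c χ).card =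
      ∑ i ∈ range (n + 1), F.gc A c i := by
  rw [F.card_class0 B hB j A c hA hc]
  refine Finset.sum_congr rfl fun i _ => ?_
  rw [F.S_eq htw hp hn i, Multiset.filter_map, Multiset.card_map, gc]
  congr 1
  refine Multiset.filter_congr fun ψ _ => ?_
  refine forall₂_congr fun q hq => ?_
  change ψ (tw p i (xq p q)) = resK (c q) ↔ _
  rw [tw_xq i (hA q hq), map_mul, map_pow, map_natCast]

/-! ### the sums -/

lemma cast_pow_eq_one {q : Nat.Primes} (hq : (q : ℕ) ≠ p) : ((q : ℕ) : kk p) ^ (p - 1) = 1 := by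
  have h1 : ((q : ℕ) : ZMod p) ≠ 0 := by
    rw [Ne, ZMod.natCast_eq_zero_iff]
    intro h
    exact hq ((Nat.prime_dvd_prime_iff_eq Fact.out q.2).1 h).symm
  have h2 : ((q : ℕ) : kk p) = fK p ((q : ℕ) : ZMod p) := (map_natCast (fK p) _).symm
  rw [h2, ← map_pow, ZMod.pow_card_sub_one_eq_one h1, map_one]

theorem gc_add (A : Set Nat.Primes) (c : Nat.Primes → PadicAlgCl p) (hA : ∀ q ∈ A, (q : ℕ) ≠ p)
    (i : ℕ) : F.gc A c (i + (p - 1)) = F.gc A c i := by
  classical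
  unfold gc
  congr 1
  refine Multiset.filter_congr fun ψ _ => ?_
  refine forall₂_congr fun q hq => ?_
  rw [pow_add, cast_pow_eq_one (hA q hq), mul_one]

theorem gc_mul (A : Set Nat.Primes) (c : Nat.Primes → PadicAlgCl p) (hA : ∀ q ∈ A, (q : ℕ) ≠ p)
    (hc : ∀ q ∈ A, ‖c q‖ ≤ 1) (i : ℕ) :
    F.gc A (fun q => ((q : ℕ) : PadicAlgCl p) * c q) (i + 1) = F.gc A c i := by
  classical
  unfold gc
  congr 1
  refine Multiset.filter_congr fun ψ _ => ?_
  refine forall₂_congr fun q hq => ?_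
  have h1 : ((q : ℕ) : kk p) ≠ 0 := by
    intro h0
    have h2 := cast_pow_eq_one (p := p) (hA q hq)
    have hp1 : p - 1 ≠ 0 := by
      have := (Fact.out : p.Prime).two_le
      omega
    rw [h0, zero_pow hp1] at h2
    exact zero_ne_one h2
  have h3 : ‖((q : ℕ) : PadicAlgCl p)‖ ≤ 1 := by
    exact natCast_mem (O p) (q : ℕ)
  have h4 : resK (((q : ℕ) : PadicAlgCl p)) = ((q : ℕ) : kk p) := by
    have := resK_intCast (p := p) ((q : ℕ) : ℤ)
    simpa using this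
  rw [resK_mul h3 (hc q hq), h4, pow_succ', mul_assoc]
  exact mul_right_inj' h1

theorem sum_gc_three (hp : p = 3) (A : Set Nat.Primes) (c : Nat.Primes → PadicAlgCl p)
    (hA : ∀ q ∈ A, (q : ℕ) ≠ p) {n : ℕ} (hn : Even n) :
    ∑ i ∈ range (n + 1), F.gc A c i = (n / 2 + 1) * F.gc A c 0 + n / 2 * F.gc A c 1 := by
  obtain ⟨m, rfl⟩ := hn
  have h1 : ∀ i, F.gc A c (i + 2) = F.gc A c i := by
    intro i
    have := F.gc_add A c hA i
    have h2 : p - 1 = 2 := by omega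
    rwa [h2] at this
  have h2 : ∀ m, F.gc A c (m + m) = F.gc A c 0 ∧ F.gc A c (m + m + 1) = F.gc A c 1 := by
    intro m
    induction m with
    | zero => exact ⟨rfl, rfl⟩
    | succ m ih =>
      have e : m + 1 + (m + 1) = m + m + 2 := by ring
      rw [e]
      refine ⟨(h1 _).trans ih.1, ?_⟩
      have e' : m + m + 2 + 1 = m + m + 1 + 2 := by ring
      rw [e', h1]
      exact ih.2
  have h3 : ∀ m, ∑ i ∈ range (m + m + 1), F.gc A c i =
      (m + 1) * F.gc A c 0 + m * F.gc A c 1 := by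
    intro m
    induction m with
    | zero => simp
    | succ m ih =>
      have e : m + 1 + (m + 1) + 1 = m + m + 1 + 1 + 1 := by ring
      rw [e, Finset.sum_range_succ, Finset.sum_range_succ, ih, (h2 m).2]
      have e' : m + m + 1 + 1 = (m + 1) + (m + 1) := by ring
      rw [e', (h2 (m + 1)).1]
      ring
  have e : (m + m) / 2 = m := by omega
  rw [e]
  exact h3 m

end Gouvea.GrFam

namespace Gouvea.GrDeg

open Gouvea.PS

/-! ### `p = 2`, level `4 ∣ M` -/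

open Classical in
/-- **`p = 2`, level `4 ∣ M`: the number of systems of weight `n + 2` in a class.** -/
theorem card_PS_two [Fact (Nat.Prime 2)] {M : ℕ} [NeZero M] (h4 : 4 ∣ M)
    (j : algebraicClosure ℚ ℂ →+* PadicAlgCl 2) (A : Set Nat.Primes)
    (c : Nat.Primes → PadicAlgCl 2) (hA : ∀ q ∈ A, (q : ℕ) ≠ 2) (hc : ∀ q ∈ A, ‖c q‖ ≤ 1) :
    ∃ g : ℕ, ∀ (n : ℕ) (hn : Even n), haveI := finiteDimensional_Sym ℂ M n hn
      ((Sys (rhoS ℂ M n h4)).filter fun χ => InC j A c χ).card = (n + 1) * g := by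
  have h2 : 2 ∣ M := dvd_trans (by norm_num) h4
  refine ⟨(((famPS 2 M h4 h2).S 0 0).filter
    fun ψ => ∀ q ∈ A, ψ (GrFam.xq 2 q) = resK (c q)).card, fun n hn => ?_⟩
  have := finiteDimensional_Sym ℂ M n hn
  rw [Sys_rhoS ℂ h4 hn, (famPS 2 M h4 h2).card_class0 (AZ M n h4 hn) (fun l => ?_) j A c hA hc,
    Finset.sum_congr rfl fun i _ => congrArg
      (fun S => (Multiset.filter (fun ψ => ∀ q ∈ A, ψ (GrFam.xq 2 q) = resK (c q)) S).card)
      ((famPS 2 M h4 h2).S_eq_two rfl n i), Finset.sum_const, Finset.card_range, smul_eq_mul]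
  rw [famPS_t, AZ_X]

end Gouvea.GrDeg

namespace Gouvea.GrDegN

open Gouvea.Desc

/-! ### `p = 3`, level `9 ∣ M` -/

section Rep

variable {M n : ℕ} [NeZero M]

/-- the integral matrices of the Hecke operators at level `9 ∣ M` -/
def AN (M n : ℕ) [NeZero M] (hM : 9 ∣ M) (hn : Even n) :
    MvPolynomial Nat.Primes ℤ →+* Matrix (PN.Vx M × Fin (n + 1)) (PN.Vx M × Fin (n + 1)) ℤ :=
  comEval (fun q : Nat.Primes => PN.Tm M n q) fun q r => Tm_comm hM hn q.2 r.2

theorem AN_X (hM : 9 ∣ M) (hn : Even n) (q : Nat.Primes) :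
    AN M n hM hn (MvPolynomial.X q) = PN.Tm M n q := comEval_X _ _ _

variable (k : Type) [Field k]

/-- coordinates of the symbols on the cusps of level `9` -/
def eN (M n : ℕ) [NeZero M] (hn : Even n) :
    PX.Sym k 9 M n ≃ₗ[k] (PN.Vx M × Fin (n + 1) → k) :=
  (PN.symX k n M).trans (PN.Psi k M n hn)

theorem eN_opN (hM : 9 ∣ M) (hn : Even n) (q : Nat.Primes) (φ : PX.Sym k 9 M n) :
    eN k M n hn (PX.opN k 9 M n hM q φ) =
      ((PN.Tm M n q).map (Int.cast : ℤ → k)).mulVec (eN k M n hn φ) := by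
  have h1 := PN.Psi_hecke hn (PN.symX k n M φ)
    (PN.hecke_mem q.2 hM (NeZero.ne M) (PN.symX k n M φ).2)
  refine Eq.trans ?_ h1
  change PN.Psi k M n hn (PN.symX k n M (PX.opN k 9 M n hM q φ)) = _
  congr 1
  exact Subtype.ext (PN.hecke_symX M q φ).symm

theorem eN_equivariant (hM : 9 ∣ M) (hn : Even n) (r : MvPolynomial Nat.Primes ℤ)
    (φ : PX.Sym k 9 M n) : eN k M n hn (PX.rhoN k 9 M n hM r φ) =
      matRep (intRep k (AN M n hM hn)) r (eN k M n hn φ) := by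
  refine ES.equivariant_of_X (f := (eN k M n hn).toLinearMap) (fun q φ => ?_) r φ
  rw [PX.rhoN_X, matRep_apply]
  have e : intRep k (AN M n hM hn) (MvPolynomial.X q) = (PN.Tm M n q).map (Int.cast : ℤ → k) := by
    rw [intRep, RingHom.comp_apply, AN_X]
    rfl
  rw [e]
  exact eN_opN k hM hn q φ

theorem finiteDimensional_X (hn : Even n) : FiniteDimensional k (PX.Sym k 9 M n) :=
  (eN k M n hn).symm.finiteDimensional

/-- **The systems of eigenvalues on the symbols are those of the integral matrices.** -/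
theorem Sys_rhoN (hM : 9 ∣ M) (hn : Even n) [FiniteDimensional k (PX.Sym k 9 M n)] :
    Sys (PX.rhoN k 9 M n hM) = Sys (matRep (intRep k (AN M n hM hn))) :=
  Sys_congr (eN k M n hn) (eN_equivariant k hM hn)

end Rep

open Classical in
/-- **`p = 3`, level `9 ∣ M`: the number of systems of weight `n + 2` in a class.** -/
theorem card_PX_three [Fact (Nat.Prime 3)] {M : ℕ} [NeZero M] (h9 : 9 ∣ M)
    (j : algebraicClosure ℚ ℂ →+* PadicAlgCl 3) (A : Set Nat.Primes)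
    (c : Nat.Primes → PadicAlgCl 3) (hA : ∀ q ∈ A, (q : ℕ) ≠ 3) (hc : ∀ q ∈ A, ‖c q‖ ≤ 1) :
    ∃ g0 g1 : ℕ, ∀ (n : ℕ) (_ : Even n) [FiniteDimensional ℂ (PX.Sym ℂ 9 M n)],
      ((Sys (PX.rhoN ℂ 9 M n h9)).filter fun χ => InC j A c χ).card =
        (n / 2 + 1) * g0 + n / 2 * g1 ∧
      ((Sys (PX.rhoN ℂ 9 M n h9)).filter fun χ =>
        InC j A (fun q => ((q : ℕ) : PadicAlgCl 3) * c q) χ).card =
        (n / 2 + 1) * g1 + n / 2 * g0 := by
  have h3 : 3 ∣ M := dvd_trans (by norm_num) h9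
  set F := famPN 3 M h9 h3 with hF
  set c' : Nat.Primes → PadicAlgCl 3 := fun q => ((q : ℕ) : PadicAlgCl 3) * c q with hc'
  have hn' : ∀ q ∈ A, ‖c' q‖ ≤ 1 := by
    intro q hq
    rw [hc', norm_mul]
    exact mul_le_one₀ (natCast_mem (O 3) (q : ℕ)) (norm_nonneg _) (hc q hq)
  have e1 : F.gc A c' 1 = F.gc A c 0 := F.gc_mul A c hA hc 0
  have e2 : F.gc A c' 0 = F.gc A c 1 := by
    have h1 := F.gc_mul A c hA hc 1
    have h2 := F.gc_add A c' hA 0
    rw [← h1, ← h2]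
  refine ⟨F.gc A c 0, F.gc A c 1, fun n hn _ => ?_⟩
  have hB : ∀ l : Lp 3, (AN M n h9 hn (X ⟨l.1, l.2.1⟩)).map (Int.cast : ℤ → ℤ_[3]) = F.t n l := by
    intro l
    rw [AN_X, hF, famPN_t]
  have key : ∀ c : Nat.Primes → PadicAlgCl 3, (∀ q ∈ A, ‖c q‖ ≤ 1) →
      ((Sys (PX.rhoN ℂ 9 M n h9)).filter fun χ => InC j A c χ).card =
        (n / 2 + 1) * F.gc A c 0 + n / 2 * F.gc A c 1 := by
    intro c hc
    rw [Sys_rhoN ℂ h9 hn, F.card_class (famPN_twist h9 h3) (by norm_num) hn (AN M n h9 hn) hB j A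
      c hA hc, F.sum_gc_three rfl A c hA hn]
  refine ⟨key c hc, ?_⟩
  rw [key c' hn', e1, e2]

end Gouvea.GrDegN
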