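import Pool.Agent.Work.MP_d3517d_nt.P5.PosCom
import Pool.Agent.Work.MP_d3517d_nt.P5.GrCls

/-!
# The positivity at `p = 2` (MP_d3517d_nt, P5)

`pos_two` : if there is a newform of level `N` (odd) in the class, then the density of the
newforms of level `N` in the class is positive.
-/

set_option autoImplicit false

open Finset MvPolynomial Gouvea.Sys Gouvea.ES Gouvea.Fin Gouvea.NF Gouvea.POS

noncomputable section

namespace Gouvea.Pos23

variable {N : ℕ}

/-- the arithmetic of `p = 2` -/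
theorem arith_two (hN : 0 < N) {G bt : ℕ → ℝ} {T E : ℕ → ℕ → ℝ} {τ : ℝ} (hτ0 : 0 ≤ τ) (hτ1 : τ ≤ 1)
    (hid : ∀ n : ℕ, Even n → ∀ M, M ∣ N →
      ((n : ℝ) + 1) * G M + (if n = 0 then 2 * τ else 0) = 2 * T n M + E n M)
    (hEb : ∀ M, M ∣ N → Bdd fun n => E n M) (hE0 : ∀ n, 0 ≤ SB N (E n))
    (hT : ∀ M, M ∣ N → Bdd fun n => T n M - 2 * bt M * n)
    {n0 : ℕ} (hn0 : Even n0) (h3 : 3 ≤ SB N (T n0)) : 0 < SB N bt := by
  have key : ∀ n : ℕ, Even n → ((n : ℝ) + 1) * SB N G + (if n = 0 then 2 * τ * SB N (fun _ => 1) else 0)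
      = 2 * SB N (T n) + SB N (E n) := by
    intro n hn
    have h1 := SB_congr (N := N) (hid n hn)
    rw [SB_add, SB_add, SB_mul, SB_mul] at h1
    rw [← h1]
    congr 1
    split_ifs
    · have h2 := SB_mul (N := N) (2 * τ) (fun _ => 1)
      simp only [mul_one] at h2
      exact h2.symm
    · have h2 := SB_mul (N := N) 0 (fun _ => 1)
      simp only [mul_one, zero_mul] at h2
      exact h2.symm
  -- positivity of `SB N G`
  have hG : 0 < SB N G := by
    have h1 := key n0 hn0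
    have h2 := hE0 n0
    have h4 : (if n0 = 0 then 2 * τ * SB N (fun _ => 1) else 0) ≤ 2 := by
      split_ifs
      · have h5 := SB_one_le hN
        nlinarith
      · norm_num
    have h5 : (0 : ℝ) < (n0 : ℝ) + 1 := by positivity
    by_contra hneg
    push Not at hneg
    nlinarith
  -- the limit
  have hlim : SB N G - 4 * SB N bt = 0 := by
    have h1 : Bdd fun n => SB N (fun M => T n M - 2 * bt M * n) := SB_bdd hT
    have h2 : Bdd fun n => SB N (E n) := SB_bdd hEb
    have h3 : Bdd fun n : ℕ => -(if n = 0 then 2 * τ * SB N (fun _ => 1) else (0 : ℝ)) := by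
      refine ⟨|2 * τ * SB N (fun _ => 1)|, fun n _ => ?_⟩
      rw [abs_neg]
      split_ifs
      · exact le_rfl
      · rw [abs_zero]
        exact abs_nonneg _
    refine eq_zero_of_bdd (b := SB N G) (((h1.mul 2).add (h2.add h3)).congr fun n hn => ?_)
    have h4 := key n hn
    have h5 : SB N (fun M => T n M - 2 * bt M * n) = SB N (T n) - 2 * n * SB N bt := by
      rw [SB_sub, ← SB_mul]
      congr 1
      exact SB_congr fun M _ => by ring
    rw [h5]
    linear_combination -h4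
  linarith

open Classical in
/-- the exact Eichler-Shimura relation in one class -/
theorem class_exact {p : ℕ} [Fact p.Prime] {j : algebraicClosure ℚ ℂ →+* PadicAlgCl p}
    {A : Set Nat.Primes} {c : Nat.Primes → PadicAlgCl p} {n : ℕ} (hE : ExactES n) (hn : Even n)
    (L : ℕ) [NeZero L] (h4 : 4 ∣ L) (hA : ∀ q ∈ A, ¬ (q : ℕ) ∣ L) :
    haveI := finiteDimensional_Sym ℂ L n hn
    ((((Sys (rhoS ℂ L n h4)).filter fun χ => InC j A c χ).card : ℕ) : ℝ) +
      (if n = 0 then 2 * tau j A c else 0) = 2 * (cS L (n + 2) (InC j A c) : ℝ) +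
      ((((eisLg 4 n L).filter fun χ => InC j A c χ).card : ℕ) : ℝ) := by
  have := finiteDimensional_Sym ℂ L n hn
  have h1 := congrArg (fun S => (((S.filter fun χ => InC j A c χ).card : ℕ) : ℝ)) (hE hn L h4)
  simp only [Multiset.filter_add, Multiset.card_add, two_nsmul, Nat.cast_add] at h1
  have h2 : (((Multiset.filter (fun χ => InC j A c χ)
      (if n = 0 then {sysOf (trivV L)} + {sysOf (trivV L)} else 0)).card : ℕ) : ℝ) =
      if n = 0 then 2 * tau j A c else 0 := by
    split_ifs with h0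
    · rw [Multiset.filter_add, Multiset.card_add, Multiset.filter_singleton, tau,
        ← propext (InC_triv (j := j) (c := c) hA)]
      split_ifs
      · simp
      · simp
    · simp
  have h3 : (cS L (n + 2) (InC j A c) : ℝ) =
      (((Sys (rhoC L (n + 2))).filter fun χ => InC j A c χ).card : ℕ) := by
    rw [cS_eq]
  rw [h3, eisLg_four, ← h2]
  linear_combination h1

open Classical in
/-- **The positivity at `p = 2`.** -/
theorem pos_two [Fact (Nat.Prime 2)] {j : algebraicClosure ℚ ℂ →+* PadicAlgCl 2} (hN : 0 < N)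
    (h2N : ¬ 2 ∣ N) {k0 : ℕ} {f0 : Gouvea.Cusp N k0} (hf0 : IsNewform N k0 f0)
    (hc : ∀ q ∈ AN 2 N, ‖clc j f0 q‖ ≤ 1) {bt : ℕ → ℝ}
    (hT : ∀ (M : ℕ) [NeZero (2 * 2 * M)], M ∣ N → ∃ C : ℝ, ∀ n, Even n →
      |(tot j (2 * 2 * M) (n + 2) (AN 2 N) (clc j f0) : ℝ) - 2 * bt M * n| ≤ C)
    (hE : ∀ n, ExactES n) :
    0 < ∑ x ∈ N.divisorsAntidiagonal,
      (((ArithmeticFunction.moebius * ArithmeticFunction.moebius) x.1 : ℤ) : ℝ) * bt x.2 := by
  set A := AN 2 N with hAdef
  set c := clc j f0 with hcdef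
  have hA2 : ∀ q ∈ A, (q : ℕ) ≠ 2 := by
    intro q hq h
    exact hq (by rw [h]; exact Dvd.intro_left N rfl)
  have hAN : ∀ q ∈ A, ∀ M, M ∣ N → ¬ (q : ℕ) ∣ 4 * M := by
    intro q hq M hM h
    rcases (q.2.dvd_mul).1 h with h | h
    · have h1 : (q : ℕ) ∣ 2 := q.2.dvd_of_dvd_pow (show (q : ℕ) ∣ 2 ^ 2 from by simpa using h)
      exact hA2 q hq ((Nat.prime_dvd_prime_iff_eq q.2 Nat.prime_two).1 h1)
    · exact hq ((h.trans hM).mul_right 2)
  obtain ⟨hk, hk2⟩ := newform_weight hN hf0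
  have hn0 : Even (k0 - 2) := (Nat.even_sub hk2).2 ⟨fun _ => even_two, fun _ => hk⟩
  -- the numbers `g`
  have hex : ∀ M, M ∣ N → ∃ g : ℝ, ∀ n : ℕ, Even n →
      ((n : ℝ) + 1) * g + (if n = 0 then 2 * tau j A c else 0) =
        2 * (cS (4 * M) (n + 2) (InC j A c) : ℝ) +
        ((((eisLg 4 n (4 * M)).filter fun χ => InC j A c χ).card : ℕ) : ℝ) := by
    intro M hM
    have hM0 := ne_zero_of_dvd hN hM
    have : NeZero (4 * M) := ⟨by omega⟩
    obtain ⟨g, hg⟩ := GrDeg.card_PS_two (M := 4 * M) (Dvd.intro M rfl) j A c hA2 hc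
    refine ⟨g, fun n hn => ?_⟩
    have h1 := class_exact (j := j) (A := A) (c := c) (hE n) hn (4 * M) (Dvd.intro M rfl)
      (fun q hq => hAN q hq M hM)
    rw [← h1, hg n hn]
    push_cast
    ring
  choose! G hG using hex
  refine arith_two hN (G := G) (bt := bt) (T := fun n M => (cS (4 * M) (n + 2) (InC j A c) : ℝ))
    (E := fun n M => ((((eisLg 4 n (4 * M)).filter fun χ => InC j A c χ).card : ℕ) : ℝ))
    (tau_nonneg A c) (tau_le A c) (fun n hn M hM => hG M hM n hn)
    (fun M _ => bdd_eis 4 (4 * M) _) (fun n => ?_) (fun M hM => ?_) hn0 ?_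
  · have h1 := eis_beta_nonneg j 4 4 N n ?_ (by norm_num) A c fun q hq => hAN q hq N dvd_rfl
    · exact h1
    · exact (Nat.Coprime.pow_left 2 ((Nat.Prime.coprime_iff_not_dvd Nat.prime_two).2 h2N))
  · have hM0 := ne_zero_of_dvd hN hM
    have : NeZero (2 * 2 * M) := ⟨by omega⟩
    obtain ⟨C, hC⟩ := hT M hM
    refine ⟨C, fun n hn => ?_⟩
    have h1 := hC n hn
    rw [← cS_tot' (j := j) (A := A) (c := c) (2 * 2) M (n + 2)] at h1
    exact h1
  · have h1 := SB_cS_ge (j := j) (A := A) (c := c) (e := 4) hN (by norm_num)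
      (Nat.Coprime.pow_right 2 ((Nat.Prime.coprime_iff_not_dvd Nat.prime_two).2 h2N).symm)
      (fun q hq h => hAN q hq N dvd_rfl (by rwa [mul_comm] at h)) k0
    have h2 := one_le_cN (j := j) hN hf0
    have h3 : (Nat.divisors 4).card = 3 := by decide
    rw [h3] at h1
    have h4 : (1 : ℝ) ≤ (cN N k0 (InC j A c) : ℝ) := by exact_mod_cast h2
    have h5 : k0 - 2 + 2 = k0 := by omega
    simp only [h5]
    push_cast at h1
    linarith

end Gouvea.Pos23
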