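import Pool.Agent.Work.MP_d3517d_nt.P5.PosCom
import Pool.Agent.Work.MP_d3517d_nt.P5.GrCls
import Pool.Agent.Work.MP_d3517d_nt.P5.Ex9Defs

/-!
# The positivity at `p = 3` (MP_d3517d_nt, P5)

`pos_three` : if there is a newform of level `N` (prime to `3`) in the class, then the density of
the newforms of level `N` in the class is positive.
-/

set_option autoImplicit false

open Finset MvPolynomial Gouvea.Sys Gouvea.ES Gouvea.Fin Gouvea.NF Gouvea.POS

noncomputable section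

namespace Gouvea.Pos23

variable {N : ℕ}

/-- the convolved identity -/
lemma key_three {G0 G1 : ℕ → ℝ} {T E : ℕ → ℕ → ℝ} {τ : ℝ}
    (hid : ∀ n : ℕ, Even n → ∀ M, M ∣ N →
      (((n / 2 : ℕ) : ℝ) + 1) * G0 M + ((n / 2 : ℕ) : ℝ) * G1 M + (if n = 0 then 2 * τ else 0) =
        2 * T n M + E n M) (n : ℕ) (hn : Even n) :
    (((n / 2 : ℕ) : ℝ) + 1) * SB N G0 + ((n / 2 : ℕ) : ℝ) * SB N G1 +
      (if n = 0 then 2 * τ * SB N (fun _ => 1) else 0) = 2 * SB N (T n) + SB N (E n) := by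
  have h1 := SB_congr (N := N) (hid n hn)
  rw [SB_add, SB_add, SB_add, SB_mul, SB_mul, SB_mul] at h1
  rw [← h1]
  congr 1
  split_ifs
  · have h2 := SB_mul (N := N) (2 * τ) (fun _ => 1)
    simp only [mul_one] at h2
    exact h2.symm
  · have h2 := SB_mul (N := N) 0 (fun _ => 1)
    simp only [mul_one, zero_mul] at h2
    exact h2.symm

/-- the arithmetic of `p = 3` -/
theorem arith_three (hN : 0 < N) {G0 G1 bt : ℕ → ℝ} {T E T' E' : ℕ → ℕ → ℝ} {τ τ' : ℝ}
    (hτ0 : 0 ≤ τ) (hτ1 : τ ≤ 1)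
    (hid : ∀ n : ℕ, Even n → ∀ M, M ∣ N →
      (((n / 2 : ℕ) : ℝ) + 1) * G0 M + ((n / 2 : ℕ) : ℝ) * G1 M + (if n = 0 then 2 * τ else 0) =
        2 * T n M + E n M)
    (hid' : ∀ n : ℕ, Even n → ∀ M, M ∣ N →
      (((n / 2 : ℕ) : ℝ) + 1) * G1 M + ((n / 2 : ℕ) : ℝ) * G0 M + (if n = 0 then 2 * τ' else 0) =
        2 * T' n M + E' n M)
    (hEb : ∀ M, M ∣ N → Bdd fun n => E n M) (hE0 : ∀ n, 0 ≤ SB N (E n))
    (hE0' : ∀ n, 0 ≤ SB N (E' n)) (hT0' : ∀ n, 0 ≤ SB N (T' n))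
    (hT : ∀ M, M ∣ N → Bdd fun n => T n M - 3 * bt M * n)
    {n0 : ℕ} (hn0 : Even n0) (h3 : 3 ≤ SB N (T n0)) : 0 < SB N bt := by
  have key := key_three hid
  have key' := key_three hid'
  -- positivity of the sum
  have hG : 0 < SB N G0 + SB N G1 := by
    by_contra hneg
    push Not at hneg
    have h1 := key n0 hn0
    have h4 : (if n0 = 0 then 2 * τ * SB N (fun _ => 1) else 0) ≤ 2 := by
      split_ifs
      · have h5 := SB_one_le hN
        nlinarith
      · norm_num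
    have h5 : (0 : ℝ) ≤ ((n0 / 2 : ℕ) : ℝ) := Nat.cast_nonneg _
    have h6 : 4 ≤ SB N G0 := by nlinarith [hE0 n0]
    have h7 := key' 2 even_two
    rw [if_neg (by norm_num)] at h7
    have h8 : ((2 / 2 : ℕ) : ℝ) = 1 := by norm_num
    rw [h8] at h7
    have h9 := hE0' 2
    have h10 := hT0' 2
    -- for large weight
    have h11 : 0 ≤ SB N G1 := by nlinarith
    linarith
  -- the limit
  have hlim : (SB N G0 + SB N G1) / 2 - 6 * SB N bt = 0 := by
    have h1 : Bdd fun n => SB N (fun M => T n M - 3 * bt M * n) := SB_bdd hT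
    have h2 : Bdd fun n => SB N (E n) := SB_bdd hEb
    have h3 : Bdd fun n : ℕ => -(if n = 0 then 2 * τ * SB N (fun _ => 1) else (0 : ℝ)) := by
      refine ⟨|2 * τ * SB N (fun _ => 1)|, fun n _ => ?_⟩
      rw [abs_neg]
      split_ifs
      · exact le_rfl
      · rw [abs_zero]
        exact abs_nonneg _
    refine eq_zero_of_bdd (b := SB N G0) (((h1.mul 2).add (h2.add h3)).congr fun n hn => ?_)
    have h4 := key n hn
    have h5 : SB N (fun M => T n M - 3 * bt M * n) = SB N (T n) - 3 * n * SB N bt := by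
      rw [SB_sub, ← SB_mul]
      congr 1
      exact SB_congr fun M _ => by ring
    have h6 : ((n / 2 : ℕ) : ℝ) = (n : ℝ) / 2 := by
      obtain ⟨m, rfl⟩ := hn
      have e : (m + m) / 2 = m := by omega
      rw [e]
      push_cast
      ring
    rw [h6] at h4
    rw [h5]
    linear_combination -h4
  linarith

open Classical in
/-- the exact Eichler-Shimura relation in one class, cusps `9 ∣ c` -/
theorem class_exact9 {p : ℕ} [Fact p.Prime] {j : algebraicClosure ℚ ℂ →+* PadicAlgCl p}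
    {A : Set Nat.Primes} {c : Nat.Primes → PadicAlgCl p} {n : ℕ} (hE : ExactES9 n) (hn : Even n)
    (L : ℕ) [NeZero L] (h9 : 9 ∣ L) (hA : ∀ q ∈ A, ¬ (q : ℕ) ∣ L) :
    haveI := CN.finiteDimensional_Sym9 ℂ L n hn
    ((((Sys (PX.rhoN ℂ 9 L n h9)).filter fun χ => InC j A c χ).card : ℕ) : ℝ) +
      (if n = 0 then 2 * tau j A c else 0) = 2 * (cS L (n + 2) (InC j A c) : ℝ) +
      ((((eisLg 9 n L).filter fun χ => InC j A c χ).card : ℕ) : ℝ) := by
  have := CN.finiteDimensional_Sym9 ℂ L n hn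
  have h1 := congrArg (fun S => (((S.filter fun χ => InC j A c χ).card : ℕ) : ℝ)) (hE hn L h9)
  simp only [Multiset.filter_add, Multiset.card_add, two_nsmul, Nat.cast_add] at h1
  have h2 : (((Multiset.filter (fun χ => InC j A c χ)
      (if n = 0 then {sysOf (trivV L)} + {sysOf (trivV L)} else 0)).card : ℕ) : ℝ) =
      if n = 0 then 2 * tau j A c else 0 := by
    split_ifs with h0
    · rw [Multiset.filter_add, Multiset.card_add, Multiset.filter_singleton, tau,
        ← propext (InC_triv (j := j) (c := c) hA)]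
      split_ifs
      · simp
      · simp
    · simp
  have h3 : (cS L (n + 2) (InC j A c) : ℝ) =
      (((Sys (rhoC L (n + 2))).filter fun χ => InC j A c χ).card : ℕ) := by
    rw [cS_eq]
  rw [eis9_eq] at h1
  rw [h3, ← h2]
  linear_combination h1

open Classical in
/-- **The positivity at `p = 3`.** -/
theorem pos_three [Fact (Nat.Prime 3)] {j : algebraicClosure ℚ ℂ →+* PadicAlgCl 3} (hN : 0 < N)
    (h3N : ¬ 3 ∣ N) {k0 : ℕ} {f0 : Gouvea.Cusp N k0} (hf0 : IsNewform N k0 f0)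
    (hc : ∀ q ∈ AN 3 N, ‖clc j f0 q‖ ≤ 1) {bt : ℕ → ℝ}
    (hT : ∀ (M : ℕ) [NeZero (3 * 3 * M)], M ∣ N → ∃ C : ℝ, ∀ n, Even n →
      |(tot j (3 * 3 * M) (n + 2) (AN 3 N) (clc j f0) : ℝ) - 3 * bt M * n| ≤ C)
    (hE : ∀ n, ExactES9 n) :
    0 < ∑ x ∈ N.divisorsAntidiagonal,
      (((ArithmeticFunction.moebius * ArithmeticFunction.moebius) x.1 : ℤ) : ℝ) * bt x.2 := by
  set A := AN 3 N with hAdef
  set c := clc j f0 with hcdef
  have hA3 : ∀ q ∈ A, (q : ℕ) ≠ 3 := by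
    intro q hq h
    exact hq (by rw [h]; exact Dvd.intro_left N rfl)
  have hAN : ∀ q ∈ A, ∀ M, M ∣ N → ¬ (q : ℕ) ∣ 9 * M := by
    intro q hq M hM h
    rcases (q.2.dvd_mul).1 h with h | h
    · have h1 : (q : ℕ) ∣ 3 := q.2.dvd_of_dvd_pow (show (q : ℕ) ∣ 3 ^ 2 from by simpa using h)
      exact hA3 q hq ((Nat.prime_dvd_prime_iff_eq q.2 Nat.prime_three).1 h1)
    · exact hq ((h.trans hM).mul_right 3)
  have hcop : Nat.Coprime 9 N :=
    Nat.Coprime.pow_left 2 ((Nat.Prime.coprime_iff_not_dvd Nat.prime_three).2 h3N)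
  obtain ⟨hk, hk2⟩ := newform_weight hN hf0
  have hn0 : Even (k0 - 2) := (Nat.even_sub hk2).2 ⟨fun _ => even_two, fun _ => hk⟩
  set c' : Nat.Primes → PadicAlgCl 3 := fun q => ((q : ℕ) : PadicAlgCl 3) * c q with hc'
  -- the numbers `g0`, `g1`
  have hex : ∀ M, M ∣ N → ∃ g0 g1 : ℝ, ∀ n : ℕ, Even n →
      ((((n / 2 : ℕ) : ℝ) + 1) * g0 + ((n / 2 : ℕ) : ℝ) * g1 +
        (if n = 0 then 2 * tau j A c else 0) =
        2 * (cS (9 * M) (n + 2) (InC j A c) : ℝ) +
        ((((eisLg 9 n (9 * M)).filter fun χ => InC j A c χ).card : ℕ) : ℝ)) ∧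
      ((((n / 2 : ℕ) : ℝ) + 1) * g1 + ((n / 2 : ℕ) : ℝ) * g0 +
        (if n = 0 then 2 * tau j A c' else 0) =
        2 * (cS (9 * M) (n + 2) (InC j A c') : ℝ) +
        ((((eisLg 9 n (9 * M)).filter fun χ => InC j A c' χ).card : ℕ) : ℝ)) := by
    intro M hM
    have hM0 := ne_zero_of_dvd hN hM
    have : NeZero (9 * M) := ⟨by omega⟩
    obtain ⟨g0, g1, hg⟩ := GrDegN.card_PX_three (M := 9 * M) (Dvd.intro M rfl) j A c hA3 hc
    refine ⟨g0, g1, fun n hn => ?_⟩
    have hfd := CN.finiteDimensional_Sym9 ℂ (9 * M) n hn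
    obtain ⟨h1, h2⟩ := hg n hn
    have h3 := class_exact9 (j := j) (A := A) (c := c) (hE n) hn (9 * M) (Dvd.intro M rfl)
      (fun q hq => hAN q hq M hM)
    have h4 := class_exact9 (j := j) (A := A) (c := c') (hE n) hn (9 * M) (Dvd.intro M rfl)
      (fun q hq => hAN q hq M hM)
    rw [h1] at h3
    rw [h2] at h4
    refine ⟨?_, ?_⟩
    · rw [← h3]
      push_cast
      ring
    · rw [← h4]
      push_cast
      ring
  choose! G0 G1 hG using hex
  refine arith_three hN (G0 := G0) (G1 := G1) (bt := bt)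
    (T := fun n M => (cS (9 * M) (n + 2) (InC j A c) : ℝ))
    (E := fun n M => ((((eisLg 9 n (9 * M)).filter fun χ => InC j A c χ).card : ℕ) : ℝ))
    (T' := fun n M => (cS (9 * M) (n + 2) (InC j A c') : ℝ))
    (E' := fun n M => ((((eisLg 9 n (9 * M)).filter fun χ => InC j A c' χ).card : ℕ) : ℝ))
    (tau_nonneg A c) (tau_le A c) (fun n hn M hM => (hG M hM n hn).1)
    (fun n hn M hM => (hG M hM n hn).2)
    (fun M _ => bdd_eis 9 (9 * M) _) (fun n => ?_) (fun n => ?_) (fun n => ?_) (fun M hM => ?_)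
    hn0 ?_
  · exact eis_beta_nonneg j 9 9 N n hcop (by norm_num) A c fun q hq => hAN q hq N dvd_rfl
  · exact eis_beta_nonneg j 9 9 N n hcop (by norm_num) A c' fun q hq => hAN q hq N dvd_rfl
  · exact SB_cS_nonneg (j := j) (A := A) (c := c') (e := 9) hN (by norm_num) hcop.symm
      (fun q hq h => hAN q hq N dvd_rfl (by rwa [mul_comm] at h)) (n + 2)
  · have hM0 := ne_zero_of_dvd hN hM
    have : NeZero (3 * 3 * M) := ⟨by omega⟩
    obtain ⟨C, hC⟩ := hT M hM
    refine ⟨C, fun n hn => ?_⟩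
    have h1 := hC n hn
    rw [← cS_tot' (j := j) (A := A) (c := c) (3 * 3) M (n + 2)] at h1
    exact h1
  · have h1 := SB_cS_ge (j := j) (A := A) (c := c) (e := 9) hN (by norm_num) hcop.symm
      (fun q hq h => hAN q hq N dvd_rfl (by rwa [mul_comm] at h)) k0
    have h2 := one_le_cN (j := j) hN hf0
    have h3 : (Nat.divisors 9).card = 3 := by decide
    rw [h3] at h1
    have h4 : (1 : ℝ) ≤ (cN N k0 (InC j A c) : ℝ) := by exact_mod_cast h2
    have h5 : k0 - 2 + 2 = k0 := by omega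
    simp only [h5]
    push_cast at h1
    linarith

end Gouvea.Pos23
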