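import Pool.Agent.Work.MP_d3517d_nt.P5.Lin2

/-!
# P5: the classes at the levels `N p` and `N p²` (MP_d3517d_nt)

`tlevel_of_nil`: from the relation of the nilpotent parts modulo `p` to the numbers of systems.
-/

open Module

noncomputable section

namespace Gouvea.P5

open Gouvea.Sys Gouvea.ES Gouvea.PX

variable {p : ℕ} [hp : Fact p.Prime]

theorem tot_congr_level (j : algebraicClosure ℚ ℂ →+* PadicAlgCl p) {M M' : ℕ} [NeZero M]
    [NeZero M'] (h : M = M') (k : ℕ) (A : Set Nat.Primes) (c : Nat.Primes → PadicAlgCl p) :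
    Fin.tot j M k A c = Fin.tot j M' k A c := by
  subst h
  rfl

/-- the relation of the nilpotent parts gives the relation of the numbers of systems. -/
theorem tlevel_of_nil (j : algebraicClosure ℚ ℂ →+* PadicAlgCl p) (h23 : p = 2 ∨ p = 3) {N : ℕ}
    [NeZero N] (hN2 : 2 ≤ N) {A : Set Nat.Primes} {c : Nat.Primes → PadicAlgCl p}
    (hA : ∀ q ∈ A, (q : ℕ) ≠ p) (hc : ∀ q ∈ A, ‖c q‖ ≤ 1)
    (hnil : ∃ D : ℕ, ∀ n, Even n →
      |(finrank (ZMod p) (nilPart (rho0 p (ZMod p) (N := N) (L := N * p * p)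
          (Dvd.intro _ (mul_assoc N p p).symm) n) (Jc A c) ⊤) : ℤ) -
        p * finrank (ZMod p) (nilPart (rho0 p (ZMod p) (N := N) (L := N * p)
          (Dvd.intro _ rfl) n) (Jc A c) ⊤)| ≤ D) :
    ∃ C : ℝ, ∀ n, Even n → |(Fin.tot j (p * p * N) (n + 2) A c : ℝ) -
      p * Fin.tot j (p * N) (n + 2) A c| ≤ C := by
  have e1 : ∀ k, Fin.tot j (p * p * N) k A c = Fin.tot j (N * p * p) k A c := fun k =>
    tot_congr_level j (by ring) k A c
  have e2 : ∀ k, Fin.tot j (p * N) k A c = Fin.tot j (N * p) k A c := fun k =>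
    tot_congr_level j (by ring) k A c
  simp only [e1, e2]
  have hd1 : N ∣ N * p := Dvd.intro _ rfl
  have hd2 : N ∣ N * p * p := Dvd.intro _ (mul_assoc N p p).symm
  by_cases hG : Good A c
  · obtain ⟨C1, h1⟩ := lin_two (L := N * p) j h23 hN2 hd1 (dvd_mul_left p N) hG hA
    obtain ⟨C2, h2⟩ := lin_two (L := N * p * p) j h23 hN2 hd2 (dvd_mul_left p _) hG hA
    obtain ⟨D, hD⟩ := hnil
    have hf : (1 : ℝ) ≤ fdeg A c := by exact_mod_cast fdeg_pos A c
    have hp0 : (0 : ℝ) ≤ p := Nat.cast_nonneg p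
    refine ⟨|C2| + p * |C1| + D, fun n hn => ?_⟩
    have a1 := h1 n hn
    have a2 := h2 n hn
    have a3 : |((finrank (ZMod p) (nilPart (rho0 p (ZMod p) hd2 n) (Jc A c) ⊤) : ℕ) : ℝ) -
        p * ((finrank (ZMod p) (nilPart (rho0 p (ZMod p) hd1 n) (Jc A c) ⊤) : ℕ) : ℝ)| ≤ D := by
      exact_mod_cast hD n hn
    generalize ((finrank (ZMod p) (nilPart (rho0 p (ZMod p) hd2 n) (Jc A c) ⊤) : ℕ) : ℝ) = x2 at *
    generalize ((finrank (ZMod p) (nilPart (rho0 p (ZMod p) hd1 n) (Jc A c) ⊤) : ℕ) : ℝ) = x1 at *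
    generalize (Fin.tot j (N * p * p) (n + 2) A c : ℝ) = t2 at *
    generalize (Fin.tot j (N * p) (n + 2) A c : ℝ) = t1 at *
    generalize (fdeg A c : ℝ) = f at *
    have b1 : |2 * f * t1 - x1| ≤ |C1| := a1.trans (le_abs_self _)
    have b2 : |2 * f * t2 - x2| ≤ |C2| := a2.trans (le_abs_self _)
    have b3 : |(p : ℝ) * (2 * f * t1 - x1)| ≤ p * |C1| := by
      rw [abs_mul, abs_of_nonneg hp0]
      exact mul_le_mul_of_nonneg_left b1 hp0
    have key : |2 * f * (t2 - p * t1)| ≤ |C2| + p * |C1| + D := by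
      have e : 2 * f * (t2 - p * t1) = (2 * f * t2 - x2) - p * (2 * f * t1 - x1) +
          (x2 - p * x1) := by ring
      rw [e]
      refine (abs_add_le _ _).trans (add_le_add ((abs_sub _ _).trans (add_le_add b2 b3)) a3)
    rw [abs_mul, abs_of_nonneg (by linarith : 0 ≤ 2 * f)] at key
    have h4 : |t2 - p * t1| ≤ 2 * f * |t2 - p * t1| := by
      have := abs_nonneg (t2 - p * t1)
      nlinarith
    exact h4.trans key
  · refine ⟨|(Fin.tot j (N * p * p) (0 + 2) A c : ℝ) - p * Fin.tot j (N * p) (0 + 2) A c|,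
      fun n hn => ?_⟩
    rcases Nat.eq_zero_or_pos n with rfl | h0
    · exact le_rfl
    · have hn2 : 2 ≤ n := by
        obtain ⟨m, hm⟩ := hn
        omega
      rw [tot_eq_zero (L := N * p * p) j hN2 hd2 hc hA hG hn hn2,
        tot_eq_zero (L := N * p) j hN2 hd1 hc hA hG hn hn2]
      simp

end Gouvea.P5
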