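import Pool.Agent.Work.MP_d3517d_nt.P5.TLevB
import Pool.Agent.Work.MP_d3517d_nt.P5.TLevel

/-!
# P5, T-level (`p = 2, 3`, `N ≥ 2`): the classes at the levels `N p` and `N p²` (MP_d3517d_nt)
-/

noncomputable section

namespace Gouvea.P5

open Gouvea Gouvea.PX Gouvea.Sys Gouvea.ES Module

variable {p : ℕ} [hp : Fact p.Prime]

/-- **`tot(p² N) = p tot(p N) + O(1)` for every class, `p = 2, 3`, `2 ≤ N`, `p ∤ N`.** -/
theorem tlevel (j : algebraicClosure ℚ ℂ →+* PadicAlgCl p) (h23 : p = 2 ∨ p = 3) {N : ℕ}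
    [NeZero N] (hN2 : 2 ≤ N) (hpN : ¬ p ∣ N) {A : Set Nat.Primes}
    {c : Nat.Primes → PadicAlgCl p} (hA : ∀ q ∈ A, (q : ℕ) ≠ p) (hc : ∀ q ∈ A, ‖c q‖ ≤ 1) :
    ∃ C : ℝ, ∀ n, Even n → |(Fin.tot j (p * p * N) (n + 2) A c : ℝ) -
      p * Fin.tot j (p * N) (n + 2) A c| ≤ C := by
  have : NeZero (N * p) := ⟨mul_ne_zero (NeZero.ne N) hp.out.ne_zero⟩
  have : NeZero (N * p * p) := ⟨mul_ne_zero (NeZero.ne _) hp.out.ne_zero⟩
  exact tlevel_of_nil j h23 hN2 hA hc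
    (tlevel_nil (lq := fun l : {l : ℕ // l.Prime ∧ l ≠ p} => (l : ℕ)) h23 hN2 hpN
      (Dvd.intro _ rfl) (dvd_mul_left p N) (fun q => q.2)
      (Ψ := fun n => rho0 p (ZMod p) (N := N) (L := N * p) (Dvd.intro _ rfl) n)
      (fun n q φ => rho0_X p (ZMod p) _ n q φ)
      (Ψ' := fun n => rho0 p (ZMod p) (N := N) (L := N * p * p)
        (Dvd.intro _ (mul_assoc N p p).symm) n)
      (fun n q φ => rho0_X p (ZMod p) _ n q φ) (Jc A c)
      (exists_index_le_finrank_mod hN2 (Dvd.intro _ rfl))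
      (exists_index_le_finrank_mod hN2 (Dvd.intro _ (mul_assoc N p p).symm)))

end Gouvea.P5
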