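import Pool.Agent.Work.MP_d3517d_nt.P5.IndexP

/-!
# The index of `Γ₀(M p)` in `Γ₀(M)`, `p ∣ M` (MP_d3517d_nt, P5)
-/

open CongruenceSubgroup Matrix
open scoped MatrixGroups

noncomputable section

namespace Gouvea.P5

/-- representatives of `Γ₀(M p) \ Γ₀(M)`, `p ∣ M` -/
def repJ (M p : ℕ) (j : Fin p) : SL(2, ℤ) :=
  ⟨!![1, 0; (M : ℤ) * ((j : ℕ) : ℤ), 1], by rw [det_fin_two_of]; ring⟩

theorem repJ_mem (M p : ℕ) (j : Fin p) : repJ M p j ∈ Gamma0 M := by
  rw [Gamma0_mem]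
  simp [repJ]

/-- the lower left entry of `B (r j)⁻¹` -/
theorem mul_repJ_inv (M p : ℕ) (B : SL(2, ℤ)) (j : Fin p) :
    (B * (repJ M p j)⁻¹) 1 0 = B 1 0 - B 1 1 * ((M : ℤ) * ((j : ℕ) : ℤ)) := by
  rw [Matrix.SpecialLinearGroup.coe_mul, Matrix.SpecialLinearGroup.coe_inv, Matrix.mul_apply,
    Fin.sum_univ_two]
  simp [repJ, Matrix.adjugate_fin_two]
  ring

theorem relIndex_mul_of_dvd {M p : ℕ} (hp : p.Prime) (hM0 : M ≠ 0) (hpM : p ∣ M) :
    (Gamma0 (M * p)).relIndex (Gamma0 M) = p := by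
  have hpi : Prime (p : ℤ) := Nat.prime_iff_prime_int.1 hp
  have hp0 : (0 : ℤ) < p := by exact_mod_cast hp.pos
  have hM' : (M : ℤ) ≠ 0 := by exact_mod_cast hM0
  set H := (Gamma0 (M * p)).subgroupOf (Gamma0 M) with hH
  let f : Fin p → (Gamma0 M) ⧸ H := fun i =>
    QuotientGroup.mk (⟨(repJ M p i)⁻¹, inv_mem (repJ_mem M p i)⟩ : Gamma0 M)
  have hf : ∀ (i : Fin p) (g : Gamma0 M), f i = QuotientGroup.mk g ↔
      repJ M p i * g.1 ∈ Gamma0 (M * p) := by
    intro i g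
    rw [QuotientGroup.eq, hH, Subgroup.mem_subgroupOf]
    simp
  have hinj : Function.Injective f := by
    intro i j hij
    rw [hf] at hij
    change repJ M p i * (repJ M p j)⁻¹ ∈ _ at hij
    have h1 := dvd_of_mem_I hij
    rw [mul_repJ_inv] at h1
    simp only [repJ] at h1
    simp only [Matrix.of_apply, Matrix.cons_val', Matrix.cons_val_zero, Matrix.cons_val_one,
      Matrix.empty_val', Matrix.cons_val_fin_one, one_mul, Nat.cast_mul] at h1
    rw [← mul_sub] at h1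
    have h3 : (p : ℤ) ∣ ((i : ℕ) : ℤ) - ((j : ℕ) : ℤ) := (mul_dvd_mul_iff_left hM').1 h1
    have hi := i.2
    have hj := j.2
    have h4 : ((i : ℕ) : ℤ) - ((j : ℕ) : ℤ) = 0 := by
      apply Int.eq_zero_of_abs_lt_dvd h3
      rw [abs_lt]
      constructor <;> omega
    apply Fin.ext
    omega
  have hsurj : Function.Surjective f := by
    intro q
    obtain ⟨g, rfl⟩ := QuotientGroup.mk_surjective q
    set B := (g.1)⁻¹ with hB
    have hBM : B ∈ Gamma0 M := inv_mem g.2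
    have key : ∀ i, B * (repJ M p i)⁻¹ ∈ Gamma0 (M * p) → f i = QuotientGroup.mk g := by
      intro i hi
      rw [hf]
      have h1 := inv_mem hi
      rw [_root_.mul_inv_rev, inv_inv, hB, inv_inv] at h1
      exact h1
    obtain ⟨t, ht⟩ := dvd_of_mem_I hBM
    have hdet := B.2
    rw [det_fin_two] at hdet
    have hdet' : B 0 0 * B 1 1 - B 0 1 * B 1 0 = 1 := hdet
    obtain ⟨m, hm⟩ : (p : ℤ) ∣ (M : ℤ) := by exact_mod_cast hpM
    -- `B 1 1` is invertible modulo `p`, with inverse `B 0 0`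
    set z : ℤ := B 0 0 * t with hz
    have hzp := Int.emod_nonneg z hp0.ne'
    have hzl := Int.emod_lt_of_pos z hp0
    obtain ⟨jn, hjn⟩ := Int.eq_ofNat_of_zero_le hzp
    have hjlt : jn < p := by omega
    refine ⟨⟨jn, hjlt⟩, key _ (mem_of_dvd_I ?_)⟩
    rw [mul_repJ_inv]
    have h1 : ((jn : ℕ) : ℤ) = z - p * (z / p) := by
      have := Int.emod_add_mul_ediv z p
      omega
    change ((M * p : ℕ) : ℤ) ∣ B 1 0 - B 1 1 * ((M : ℤ) * ((jn : ℕ) : ℤ))
    rw [h1, hz]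
    push_cast
    refine ⟨-(B 0 1 * m * t * t) + B 1 1 * (B 0 0 * t / p), ?_⟩
    rw [ht] at hdet'
    rw [ht]
    linear_combination (-(M : ℤ) * t) * hdet' + (-(M : ℤ) * t * t * B 0 1) * hm
  have hbij := Nat.card_congr (Equiv.ofBijective f ⟨hinj, hsurj⟩)
  rw [Subgroup.relIndex, Subgroup.index, ← hbij, Nat.card_eq_fintype_card, Fintype.card_fin]

/-- **The index.** -/
theorem index_mul_of_dvd {M p : ℕ} (hp : p.Prime) (hM0 : M ≠ 0) (hpM : p ∣ M) :
    (Gamma0 (M * p)).index = p * (Gamma0 M).index := by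
  have hle : Gamma0 (M * p) ≤ Gamma0 M := fun g hg =>
    mem_of_dvd_I ((Dvd.intro (p : ℤ) (by push_cast; ring)).trans (dvd_of_mem_I hg))
  rw [← Subgroup.relIndex_mul_index hle, relIndex_mul_of_dvd hp hM0 hpM]

end Gouvea.P5
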