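import Pool.Agent.Work.MP_d3517d_nt.P5.TLevOneA
import Pool.Agent.Work.MP_d3517d_nt.P5.MainX
import Pool.Agent.Work.MP_d3517d_nt.P5.IndexPP
import Pool.Agent.Work.MP_d3517d_nt.Fin.Defs
import Pool.Agent.Work.MP_d3517d_nt.ES.DescSys

/-!
# The levels `1, p, p²`, `p = 2, 3` (MP_d3517d_nt, P5)

* `cong_one`: every system of eigenvalues on `S_{n+2}(Γ₀(L))`, `L ∣ p²`, satisfies
  `χ(T_q) ≡ 1 + q` for `q ≠ p` (`n` even, `n ≥ 2`);
* `tot_one`: so a class contains all of them or none;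
* `tlevel_one`: `|tot (p²) - p tot p| ≤ C`.
-/

open UpperHalfPlane CongruenceSubgroup MvPolynomial
open scoped MatrixGroups ModularForm

noncomputable section

namespace Gouvea.P5

open Gouvea.Sys Gouvea.ES Gouvea.Desc

variable {p : ℕ} [hp : Fact p.Prime] (j : algebraicClosure ℚ ℂ →+* PadicAlgCl p)

/-- level `p²` -/
theorem cong_sq {N n : ℕ} [NeZero N] (h : IsPN p N) (hn : Even n) (hn2 : 2 ≤ n)
    {χ : MvPolynomial Nat.Primes ℤ →+* ℂ} (hχ : χ ∈ Sys (rhoC N (n + 2))) (q : Nat.Primes)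
    (hqp : (q : ℕ) ≠ p) : ‖emb p j (χ (X q)) - (1 + ((q : ℕ) : PadicAlgCl p))‖ < 1 := by
  have hN2 : 2 ≤ N := by
    rcases h with ⟨-, rfl⟩ | ⟨-, rfl⟩ <;> norm_num
  have := PX.finiteDimensional_SymX (N := N) (M := N) ℂ hN2 dvd_rfl hn
  have := PX.finiteDimensional_SymX (N := N) (M := N) (PadicAlgCl p) hN2 dvd_rfl hn
  obtain ⟨r, -, hr⟩ := PX.Sys_SymX (N := N) (M := N) hN2 dvd_rfl hn hn2
  have h1 : χ ∈ Sys (PX.rhoN ℂ N N n dvd_rfl) := by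
    rw [hr, Multiset.mem_add, Multiset.mem_add]
    exact Or.inl (Or.inl hχ)
  have h2 := Multiset.mem_map_of_mem (fun χ : MvPolynomial Nat.Primes ℤ →+* ℂ =>
    fun r => emb p j (χ r)) h1
  rw [map_emb_rhoN (dvd_refl N) n j, Multiset.mem_map] at h2
  obtain ⟨χ', h3, h4⟩ := h2
  have h5 := norm_sub_lt h hn h3 q hqp
  rwa [congrFun h4 (X q)] at h5

/-- level `p` -/
theorem cong_p {n : ℕ} [NeZero p] (h23 : p = 2 ∨ p = 3) (hn : Even n) (hn2 : 2 ≤ n)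
    {χ : MvPolynomial Nat.Primes ℤ →+* ℂ} (hχ : χ ∈ Sys (rhoC p (n + 2))) (q : Nat.Primes)
    (hqp : (q : ℕ) ≠ p) : ‖emb p j (χ (X q)) - (1 + ((q : ℕ) : PadicAlgCl p))‖ < 1 := by
  have h : IsPN p (p * p) := by
    rcases h23 with h | h
    · exact Or.inl ⟨h, by rw [h]⟩
    · exact Or.inr ⟨h, by rw [h]⟩
  obtain ⟨rest, hr, -⟩ := Sys_cusp_ram p (n + 2) ⟨p, hp.out⟩ dvd_rfl
  exact cong_sq (N := p * p) j h hn hn2 (by
    rw [hr, Multiset.mem_add]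
    exact Or.inl hχ) q hqp

theorem exists_two (l : Nat.Primes) (c : ℂ) (χ : MvPolynomial Nat.Primes ℤ →+* ℂ) :
    ∃ χ' ∈ two l c χ, ∀ q, q ≠ l → χ' (X q) = χ (X q) := by
  set P : Polynomial ℂ := Polynomial.X ^ 2 - Polynomial.C (χ (X l)) * Polynomial.X +
    Polynomial.C c with hP
  have hdeg : P.degree ≠ 0 := by
    have h1 : P.degree = 2 := by
      rw [hP]
      compute_degree!
    rw [h1]
    norm_num
  obtain ⟨α, hα⟩ := IsAlgClosed.exists_root P hdeg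
  have hP0 : P ≠ 0 := fun h => hdeg (by
    exfalso
    have h1 : P.degree = 2 := by
      rw [hP]
      compute_degree!
    rw [h, Polynomial.degree_zero] at h1
    exact absurd h1 (by decide))
  refine ⟨repl l χ α, ?_, fun q hq => ?_⟩
  · exact Multiset.mem_map_of_mem _ ((Polynomial.mem_roots hP0).2 hα)
  · exact repl_ne _ _ hq _ _

/-- level `1` -/
theorem cong_lev_one {n : ℕ} (h23 : p = 2 ∨ p = 3) (hn : Even n) (hn2 : 2 ≤ n)
    {χ : MvPolynomial Nat.Primes ℤ →+* ℂ} (hχ : χ ∈ Sys (rhoC 1 (n + 2))) (q : Nat.Primes)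
    (hqp : (q : ℕ) ≠ p) : ‖emb p j (χ (X q)) - (1 + ((q : ℕ) : PadicAlgCl p))‖ < 1 := by
  have hne : ¬ ((⟨p, hp.out⟩ : Nat.Primes) : ℕ) ∣ 1 := fun h =>
    hp.out.one_lt.ne' (Nat.dvd_one.1 h)
  obtain ⟨rest, hr, -⟩ := Sys_cusp_unram 1 (n + 2) ⟨p, hp.out⟩ hne (by omega)
  obtain ⟨χ', h1, h2⟩ := exists_two ⟨p, hp.out⟩ ((((p : ℤ) ^ (n + 2 - 1) : ℤ) : ℂ)) χ
  have h3 : χ' ∈ Sys (rhoC (1 * p) (n + 2)) := by
    rw [hr, Multiset.mem_add, Multiset.mem_bind]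
    exact Or.inl ⟨χ, hχ, h1⟩
  have h4 : ∀ (L : ℕ) [NeZero L], L = p → χ' ∈ Sys (rhoC L (n + 2)) →
      ‖emb p j (χ' (X q)) - (1 + ((q : ℕ) : PadicAlgCl p))‖ < 1 := by
    intro L _ hL hmem
    subst hL
    exact cong_p j h23 hn hn2 hmem q hqp
  have h5 := h4 (1 * p) (one_mul p) h3
  rwa [h2 q fun h => hqp (congrArg (fun x : Nat.Primes => (x : ℕ)) h)] at h5

/-- **The levels `1, p, p²`: the systems of eigenvalues are congruent to `1 + q`.** -/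
theorem cong_one {L n : ℕ} [NeZero L] (h23 : p = 2 ∨ p = 3) (hL : L ∣ p ^ 2) (hn : Even n)
    (hn2 : 2 ≤ n) {χ : MvPolynomial Nat.Primes ℤ →+* ℂ} (hχ : χ ∈ Sys (rhoC L (n + 2)))
    (q : Nat.Primes) (hqp : (q : ℕ) ≠ p) :
    ‖emb p j (χ (X q)) - (1 + ((q : ℕ) : PadicAlgCl p))‖ < 1 := by
  obtain ⟨i, hi, rfl⟩ := (Nat.dvd_prime_pow hp.out).1 hL
  have h4 : ∀ (L' : ℕ) [NeZero L'], p ^ i = L' → χ ∈ Sys (rhoC L' (n + 2)) := by
    intro L' _ hL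
    subst hL
    exact hχ
  have hp0 : NeZero p := ⟨hp.out.ne_zero⟩
  interval_cases i
  · exact cong_lev_one j h23 hn hn2 (h4 1 (pow_zero p)) q hqp
  · exact cong_p j h23 hn hn2 (h4 p (pow_one p)) q hqp
  · refine cong_sq j ?_ hn hn2 hχ q hqp
    rcases h23 with h | h
    · exact Or.inl ⟨h, by rw [h]; norm_num⟩
    · exact Or.inr ⟨h, by rw [h]; norm_num⟩

/-- the class of `1 + q` -/
def EisC (A : Set Nat.Primes) (c : Nat.Primes → PadicAlgCl p) : Prop :=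
  ∀ q ∈ A, ‖(1 + ((q : ℕ) : PadicAlgCl p)) - c q‖ < 1

theorem inC_iff {L n : ℕ} [NeZero L] (h23 : p = 2 ∨ p = 3) (hL : L ∣ p ^ 2) (hn : Even n)
    (hn2 : 2 ≤ n) {A : Set Nat.Primes} (hA : ∀ q ∈ A, (q : ℕ) ≠ p)
    (c : Nat.Primes → PadicAlgCl p) {χ : MvPolynomial Nat.Primes ℤ →+* ℂ}
    (hχ : χ ∈ Sys (rhoC L (n + 2))) : Fin.InC j A c χ ↔ EisC A c := by
  refine forall₂_congr fun q hq => ?_
  have h1 := cong_one j h23 hL hn hn2 hχ q (hA q hq)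
  constructor
  · intro h2
    have h3 := Gouvea.Sys.norm_sub_lt h2 h1
    have e : (emb p j (χ (X q)) - c q) -
        (emb p j (χ (X q)) - (1 + ((q : ℕ) : PadicAlgCl p))) =
        (1 + ((q : ℕ) : PadicAlgCl p)) - c q := by ring
    rwa [e] at h3
  · intro h2
    have h3 := norm_add_lt h1 h2
    have e : (emb p j (χ (X q)) - (1 + ((q : ℕ) : PadicAlgCl p))) +
        ((1 + ((q : ℕ) : PadicAlgCl p)) - c q) = emb p j (χ (X q)) - c q := by ring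
    rwa [e] at h3

open Classical in
/-- **One class at the levels `1, p, p²`.** -/
theorem tot_one {L n : ℕ} [NeZero L] (h23 : p = 2 ∨ p = 3) (hL : L ∣ p ^ 2) (hn : Even n)
    (hn2 : 2 ≤ n) {A : Set Nat.Primes} (hA : ∀ q ∈ A, (q : ℕ) ≠ p)
    (c : Nat.Primes → PadicAlgCl p) :
    Fin.tot j L (n + 2) A c =
      if EisC A c then Module.finrank ℂ (Gouvea.Cusp L (n + 2)) else 0 := by
  unfold Fin.tot
  split_ifs with h
  · rw [Multiset.filter_eq_self.2 fun χ hχ => (inC_iff j h23 hL hn hn2 hA c hχ).2 h, card_Sys]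
  · rw [Multiset.filter_eq_nil.2 fun χ hχ h1 => h ((inC_iff j h23 hL hn hn2 hA c hχ).1 h1),
      Multiset.card_zero]

open Classical in
/-- the numbers with a condition on the slope -/
theorem cnt_one {L n : ℕ} [NeZero L] (h23 : p = 2 ∨ p = 3) (hL : L ∣ p ^ 2) (hn : Even n)
    (hn2 : 2 ≤ n) {A : Set Nat.Primes} (hA : ∀ q ∈ A, (q : ℕ) ≠ p)
    (c : Nat.Primes → PadicAlgCl p) (x : ℝ) :
    Fin.cnt j L (n + 2) A c x = if EisC A c then Fin.cnt j L (n + 2) ∅ c x else 0 := by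
  unfold Fin.cnt
  split_ifs with h
  · congr 1
    refine Multiset.filter_congr fun χ hχ => ?_
    rw [inC_iff j h23 hL hn hn2 hA c hχ]
    exact ⟨fun h1 => ⟨fun q hq => absurd hq (Set.notMem_empty q), h1.2⟩, fun h1 => ⟨h, h1.2⟩⟩
  · rw [Multiset.filter_eq_nil.2 fun χ hχ h1 => h ((inC_iff j h23 hL hn hn2 hA c hχ).1 h1.1),
      Multiset.card_zero]

/-- the dimension of the space of cusp forms -/
theorem abs_finrank_cusp (L : ℕ) [NeZero L] {k : ℕ} (hk : Even k) :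
    |12 * (Module.finrank ℂ (Gouvea.Cusp L k) : ℝ) - (Gamma0 L).index * k| ≤
      12 * ((Gamma0 L).index ^ 2 + (Gamma0 L).index) := by
  have h1 := Pool.Agent.Gouv.ESDim.finrank_cuspForm_ge L k hk
  have h2 := Pool.Agent.Gouv.ESDim.finrank_cuspForm_le L k
  have h5 : Module.finrank ℂ (CuspForm ((Gamma0 L : Subgroup SL(2, ℤ)) :
      Subgroup (GL (Fin 2) ℝ)) (k : ℤ)) = Module.finrank ℂ (Gouvea.Cusp L k) := rfl
  rw [h5] at h1 h2
  have h3 : (((Gamma0 L).index * k : ℕ) : ℝ) ≤ ((12 * Module.finrank ℂ (Gouvea.Cusp L k) +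
      12 * ((Gamma0 L).index ^ 2 + (Gamma0 L).index) : ℕ) : ℝ) := by exact_mod_cast h1
  have h4 : ((12 * Module.finrank ℂ (Gouvea.Cusp L k) : ℕ) : ℝ) ≤ (((Gamma0 L).index * k +
      12 * ((Gamma0 L).index ^ 2 + (Gamma0 L).index) : ℕ) : ℝ) := by exact_mod_cast h2
  push_cast at h3 h4
  rw [abs_le]
  constructor <;> linarith

/-- **`N = 1`: the classes at the levels `p` and `p²`.** -/
theorem tlevel_one (h23 : p = 2 ∨ p = 3) {L1 L2 : ℕ} [NeZero L1] [NeZero L2] (hL1 : L1 = p)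
    (hL2 : L2 = p * p) {A : Set Nat.Primes} (hA : ∀ q ∈ A, (q : ℕ) ≠ p)
    (c : Nat.Primes → PadicAlgCl p) :
    ∃ C : ℝ, ∀ n, Even n → |(Fin.tot j L2 (n + 2) A c : ℝ) - p * Fin.tot j L1 (n + 2) A c| ≤ C := by
  classical
  have hd1 : L1 ∣ p ^ 2 := by
    rw [hL1]
    exact dvd_pow_self p two_ne_zero
  have hd2 : L2 ∣ p ^ 2 := by
    rw [hL2, pow_two]
  have hidx : (Gamma0 L2).index = p * (Gamma0 L1).index := by
    rw [hL2, hL1]
    exact index_mul_of_dvd hp.out hp.out.ne_zero dvd_rfl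
  set I1 : ℝ := ((Gamma0 L1).index : ℝ) with hI1
  set I2 : ℝ := ((Gamma0 L2).index : ℝ) with hI2
  have hI : I2 = p * I1 := by
    rw [hI1, hI2, hidx]
    push_cast
    rfl
  have hp0 : (0 : ℝ) ≤ p := Nat.cast_nonneg p
  refine ⟨((I2 ^ 2 + I2) + p * (I1 ^ 2 + I1)) +
    |(Fin.tot j L2 (0 + 2) A c : ℝ) - p * Fin.tot j L1 (0 + 2) A c|, fun n hn => ?_⟩
  have hpos : 0 ≤ (I2 ^ 2 + I2) + p * (I1 ^ 2 + I1) := by positivity
  rcases Nat.eq_zero_or_pos n with h0 | h0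
  · rw [h0]
    linarith
  have hn2 : 2 ≤ n := by
    obtain ⟨m, hm⟩ := hn
    omega
  have habs := abs_nonneg ((Fin.tot j L2 (0 + 2) A c : ℝ) - p * Fin.tot j L1 (0 + 2) A c)
  rw [tot_one j h23 hd1 hn hn2 hA c, tot_one j h23 hd2 hn hn2 hA c]
  split_ifs with h
  · have h1 := abs_finrank_cusp L1 (hn.add even_two)
    have h2 := abs_finrank_cusp L2 (hn.add even_two)
    rw [← hI1] at h1
    rw [← hI2] at h2
    rw [abs_le] at h1 h2 ⊢
    generalize (Module.finrank ℂ (Gouvea.Cusp L1 (n + 2)) : ℝ) = f1 at *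
    generalize (Module.finrank ℂ (Gouvea.Cusp L2 (n + 2)) : ℝ) = f2 at *
    have h3 := mul_le_mul_of_nonneg_left h1.1 hp0
    have h4 := mul_le_mul_of_nonneg_left h1.2 hp0
    rw [hI] at h2 ⊢
    constructor <;> nlinarith
  · rw [Nat.cast_zero, mul_zero, sub_zero, abs_zero]
    linarith

end Gouvea.P5
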