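import Mathlib

/-!
# The index of `Γ₀(M p)` in `Γ₀(M)` (MP_d3517d_nt, P5)
-/

open CongruenceSubgroup Matrix
open scoped MatrixGroups

noncomputable section

namespace Gouvea.P5

/-- representatives of `Γ₀(M p) \ Γ₀(M)` -/
def repI (M p : ℕ) : Option (Fin p) → SL(2, ℤ)
  | none => 1
  | some j => ⟨!![1, ((j : ℕ) : ℤ); (M : ℤ), M * ((j : ℕ) : ℤ) + 1], by
      rw [det_fin_two_of]; ring⟩

theorem repI_mem (M p : ℕ) (i : Option (Fin p)) : repI M p i ∈ Gamma0 M := by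
  rcases i with _ | j
  · exact one_mem _
  · rw [Gamma0_mem]
    simp [repI]

/-- the lower left entry of `B (r j)⁻¹` -/
theorem mul_repI_inv (M p : ℕ) (B : SL(2, ℤ)) (j : Fin p) :
    (B * (repI M p (some j))⁻¹) 1 0 =
      B 1 0 * (M * ((j : ℕ) : ℤ) + 1) - B 1 1 * (M : ℤ) := by
  rw [Matrix.SpecialLinearGroup.coe_mul, Matrix.SpecialLinearGroup.coe_inv, Matrix.mul_apply,
    Fin.sum_univ_two]
  simp [repI, Matrix.adjugate_fin_two]
  ring

theorem dvd_of_mem_I {N : ℕ} {g : SL(2, ℤ)} (h : g ∈ Gamma0 N) : (N : ℤ) ∣ g 1 0 :=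
  (ZMod.intCast_zmod_eq_zero_iff_dvd _ _).1 (Gamma0_mem.1 h)

theorem mem_of_dvd_I {N : ℕ} {g : SL(2, ℤ)} (h : (N : ℤ) ∣ g 1 0) : g ∈ Gamma0 N :=
  Gamma0_mem.2 ((ZMod.intCast_zmod_eq_zero_iff_dvd _ _).2 h)

theorem mem_mul_I {M p : ℕ} (hp : p.Prime) (hpM : ¬ p ∣ M) {g : SL(2, ℤ)} (h : g ∈ Gamma0 M)
    (h' : (p : ℤ) ∣ g 1 0) : g ∈ Gamma0 (M * p) := by
  apply mem_of_dvd_I
  have hco : IsCoprime (M : ℤ) (p : ℤ) := by
    rw [Nat.isCoprime_iff_coprime]
    exact ((Nat.Prime.coprime_iff_not_dvd hp).2 hpM).symm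
  push_cast
  exact hco.mul_dvd (dvd_of_mem_I h) h'

theorem relIndex_mul_prime {M p : ℕ} (hp : p.Prime) (hpM : ¬ p ∣ M) :
    (Gamma0 (M * p)).relIndex (Gamma0 M) = p + 1 := by
  have hpi : Prime (p : ℤ) := Nat.prime_iff_prime_int.1 hp
  have hM' : ¬ (p : ℤ) ∣ (M : ℤ) := by exact_mod_cast hpM
  have hle : ∀ {g : SL(2, ℤ)}, g ∈ Gamma0 (M * p) → (p : ℤ) ∣ g 1 0 := fun h =>
    (Dvd.intro_left (M : ℤ) (by push_cast; ring)).trans (dvd_of_mem_I h)
  set H := (Gamma0 (M * p)).subgroupOf (Gamma0 M) with hH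
  let f : Option (Fin p) → (Gamma0 M) ⧸ H := fun i =>
    QuotientGroup.mk (⟨(repI M p i)⁻¹, inv_mem (repI_mem M p i)⟩ : Gamma0 M)
  have hf : ∀ (i : Option (Fin p)) (g : Gamma0 M), f i = QuotientGroup.mk g ↔
      repI M p i * g.1 ∈ Gamma0 (M * p) := by
    intro i g
    rw [QuotientGroup.eq, hH, Subgroup.mem_subgroupOf]
    simp
  have hinj : Function.Injective f := by
    intro i j hij
    rw [hf] at hij
    change repI M p i * (repI M p j)⁻¹ ∈ _ at hij
    have h1 := hle hij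
    rcases i with _ | i <;> rcases j with _ | j
    · rfl
    · exfalso
      rw [mul_repI_inv] at h1
      simp [repI] at h1
      exact hM' h1
    · exfalso
      rw [show repI M p none = 1 from rfl, inv_one, mul_one] at h1
      simp [repI] at h1
      exact hM' h1
    · congr 1
      rw [mul_repI_inv] at h1
      simp only [repI] at h1
      simp at h1
      have h2 : (p : ℤ) ∣ M * (M * (((j : ℕ) : ℤ) - ((i : ℕ) : ℤ))) := by
        have h3 : (M : ℤ) * (M * (((j : ℕ) : ℤ) - ((i : ℕ) : ℤ))) =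
          M * (M * (j : ℕ) + 1) - (M * (i : ℕ) + 1) * M := by ring
        rw [h3]; exact h1
      have h3 := (hpi.dvd_or_dvd ((hpi.dvd_or_dvd h2).resolve_left hM')).resolve_left hM'
      have hi := i.2
      have hj := j.2
      have h4 : ((j : ℕ) : ℤ) - ((i : ℕ) : ℤ) = 0 := by
        apply Int.eq_zero_of_abs_lt_dvd h3
        rw [abs_lt]
        constructor <;> omega
      apply Fin.ext
      omega
  have hsurj : Function.Surjective f := by
    intro q
    obtain ⟨g, rfl⟩ := QuotientGroup.mk_surjective q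
    set B := (g.1)⁻¹ with hB
    have hBM : B ∈ Gamma0 M := inv_mem g.2
    -- it suffices: `B (r i)⁻¹ ∈ Γ₀(M p)`
    have key : ∀ i, B * (repI M p i)⁻¹ ∈ Gamma0 (M * p) → f i = QuotientGroup.mk g := by
      intro i hi
      rw [hf]
      have h1 := inv_mem hi
      rw [_root_.mul_inv_rev, inv_inv, hB, inv_inv] at h1
      exact h1
    by_cases hc : (p : ℤ) ∣ B 1 0
    · refine ⟨none, key none ?_⟩
      simp only [repI, inv_one, mul_one]
      exact mem_mul_I hp hpM hBM hc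
    · have hMB : ¬ (p : ℤ) ∣ M * B 1 0 := fun h => (hpi.dvd_or_dvd h).elim hM' hc
      obtain ⟨u, v, huv⟩ := ((Prime.coprime_iff_not_dvd hpi).2 hMB).symm
      set z : ℤ := u * (M * B 1 1 - B 1 0) with hz
      have hp0 : (0 : ℤ) < p := by exact_mod_cast hp.pos
      have hzp := Int.emod_nonneg z hp0.ne'
      have hzl := Int.emod_lt_of_pos z hp0
      obtain ⟨jn, hjn⟩ := Int.eq_ofNat_of_zero_le hzp
      have hjlt : jn < p := by omega
      refine ⟨some ⟨jn, hjlt⟩, key _ (mem_mul_I hp hpM (mul_mem hBM (inv_mem (repI_mem M p _))) ?_)⟩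
      rw [mul_repI_inv]
      have h1 : ((jn : ℕ) : ℤ) = z - p * (z / p) := by
        have := Int.emod_add_mul_ediv z p
        omega
      change (p : ℤ) ∣ B 1 0 * (M * ((jn : ℕ) : ℤ) + 1) - B 1 1 * (M : ℤ)
      rw [h1, hz]
      refine ⟨-(v * (M * B 1 1 - B 1 0)) - M * B 1 0 * (u * (M * B 1 1 - B 1 0) / p), ?_⟩
      linear_combination (M * B 1 1 - B 1 0) * huv
  have hbij := Nat.card_congr (Equiv.ofBijective f ⟨hinj, hsurj⟩)
  rw [Subgroup.relIndex, Subgroup.index, ← hbij, Nat.card_eq_fintype_card, Fintype.card_option,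
    Fintype.card_fin]

/-- **The index.** -/
theorem index_mul_prime {M p : ℕ} (hp : p.Prime) (hpM : ¬ p ∣ M) :
    (Gamma0 (M * p)).index = (p + 1) * (Gamma0 M).index := by
  have hle : Gamma0 (M * p) ≤ Gamma0 M := fun g hg =>
    mem_of_dvd_I ((Dvd.intro (p : ℤ) (by push_cast; ring)).trans (dvd_of_mem_I hg))
  rw [← Subgroup.relIndex_mul_index hle, relIndex_mul_prime hp hpM]

end Gouvea.P5
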