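import Pool.Agent.Work.MP_d3517d_nt.P5.HodgeAbs
import Pool.Agent.Work.MP_d3517d_nt.Apx

/-!
# P5: from the Newton functions at natural numbers to `Apx` (MP_d3517d_nt)

`apx_of_GG`: if `GG (s n) x = β n x ^ 2 / 2 + o(n ^ 2)` for natural `x ≤ n / (p + 1)`, the same for
the complement `s' n`, and the total number of elements is `(β n + β' n) n / (p + 1) + O(1)`, then
the counting functions and the number of elements of `s n` are as predicted, outside density zero.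
-/

open Finset Filter Topology

noncomputable section

namespace Gouvea.P5

open Pool.Agent Pool.Agent.Gouv

section OneWeight

variable {K : Type*} [NormedField K] {p : ℝ}

theorem cnt_le_card (s : Multiset K) (x : ℝ) : Gouv.cnt p s x ≤ s.card :=
  Multiset.card_le_card (Multiset.filter_le _ _)

theorem GG_mono (hp : 1 < p) (s : Multiset K) {x y : ℝ} (h : x ≤ y) : GG p s x ≤ GG p s y := by
  have h1 := (Gouv.slope hp s h).1
  have h2 : 0 ≤ (y - x) * (Gouv.cnt p s x : ℝ) := mul_nonneg (by linarith) (Nat.cast_nonneg _)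
  unfold GG
  linarith

/-- From natural numbers to real numbers. -/
theorem real_of_nat (hp : 1 < p) {s : Multiset K} {β E hi : ℝ} (hβ : 0 ≤ β)
    (h : ∀ x : ℕ, (x : ℝ) ≤ hi → |GG p s x - β * (x : ℝ) ^ 2 / 2| ≤ E) (x : ℝ) (hx0 : 0 ≤ x)
    (hx : x ≤ hi) : |GG p s x - β * x ^ 2 / 2| ≤ E + s.card + β * hi := by
  have hk : ((⌊x⌋₊ : ℕ) : ℝ) ≤ x := Nat.floor_le hx0
  have hk1 : x < (⌊x⌋₊ : ℕ) + 1 := Nat.lt_floor_add_one x
  have h1 := abs_le.1 (h ⌊x⌋₊ (hk.trans hx))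
  have h2 := GG_mono hp s hk
  have h3 := (Gouv.slope hp s hk).2
  have h4 : (x - (⌊x⌋₊ : ℕ)) * (Gouv.cnt p s x : ℝ) ≤ s.card := by
    have h5 : (Gouv.cnt p s x : ℝ) ≤ s.card := by exact_mod_cast cnt_le_card s x
    have h6 : (0 : ℝ) ≤ Gouv.cnt p s x := Nat.cast_nonneg _
    nlinarith
  have h5 : GG p s x ≤ GG p s (⌊x⌋₊ : ℕ) + s.card := by
    unfold GG
    linarith
  have hk0 : (0 : ℝ) ≤ (⌊x⌋₊ : ℕ) := Nat.cast_nonneg _
  have h6 : x ^ 2 - ((⌊x⌋₊ : ℕ) : ℝ) ^ 2 ≤ 2 * hi := by nlinarith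
  have h7 : 0 ≤ x ^ 2 - ((⌊x⌋₊ : ℕ) : ℝ) ^ 2 := by nlinarith
  have h8 : β * (x ^ 2 - ((⌊x⌋₊ : ℕ) : ℝ) ^ 2) ≤ β * (2 * hi) := mul_le_mul_of_nonneg_left h6 hβ
  have h9 : 0 ≤ β * (x ^ 2 - ((⌊x⌋₊ : ℕ) : ℝ) ^ 2) := mul_nonneg hβ h7
  have h10 : (0 : ℝ) ≤ s.card := Nat.cast_nonneg _
  have h11 : 0 ≤ β * hi := mul_nonneg hβ (hx0.trans hx)
  rw [abs_le]
  constructor <;> nlinarith [h1.1, h1.2]

/-- The counting functions and the ranks in one weight. -/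
theorem core2 (hp : 1 < p) {s1 s2 : Multiset K} {β1 β2 q E D n δ : ℝ} (h1 : 0 ≤ β1)
    (h2 : 0 ≤ β2) (hb1 : β1 ≤ q) (hb2 : β2 ≤ q) (hn : 0 ≤ n) (hδ : 0 < δ) (hE : 0 ≤ E)
    (hD : 0 ≤ D)
    (hr : (s1.card : ℝ) + s2.card ≤ (β1 + β2) * (n / (p + 1)) + D)
    (hc1 : ∀ x, 0 ≤ x → x ≤ n / (p + 1) → |GG p s1 x - β1 * x ^ 2 / 2| ≤ E)
    (hc2 : ∀ x, 0 ≤ x → x ≤ n / (p + 1) → |GG p s2 x - β2 * x ^ 2 / 2| ≤ E) :
    (∀ x, 0 ≤ x → x ≤ n / (p + 1) → |(Gouv.cnt p s1 x : ℝ) - β1 * x| ≤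
      D + 2 * (q * δ) + 2 * (2 * E / δ)) ∧
    |(s1.card : ℝ) - β1 * (n / (p + 1))| ≤ D + 2 * (q * δ) + 2 * (2 * E / δ) := by
  have hp1 : 0 < p + 1 := by linarith
  have hn1 : 0 ≤ n / (p + 1) := by positivity
  have hq0 : 0 ≤ q := h1.trans hb1
  have l1 := fb_lower hp h1 hb1 hδ hE hc1
  have l2 := fb_lower hp h2 hb2 hδ hE hc2
  have hqδ : 0 ≤ q * δ := by positivity
  have h0 : 0 ≤ 2 * E / δ := by positivity
  have c1 : ∀ x, (Gouv.cnt p s1 x : ℝ) ≤ s1.card := fun x => by exact_mod_cast cnt_le_card s1 x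
  have c2 : ∀ x, (Gouv.cnt p s2 x : ℝ) ≤ s2.card := fun x => by exact_mod_cast cnt_le_card s2 x
  have r1u : (s1.card : ℝ) ≤ β1 * (n / (p + 1)) + D + q * δ + 2 * E / δ := by
    have a1 := l2 (n / (p + 1)) le_rfl
    have a2 := c2 (n / (p + 1))
    rw [add_mul] at hr
    linarith
  have r1l : β1 * (n / (p + 1)) - (q * δ + 2 * E / δ) ≤ s1.card :=
    (l1 (n / (p + 1)) le_rfl).trans (c1 _)
  refine ⟨?_, ?_⟩
  · intro x hx0 hx
    rw [abs_le]
    constructor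
    · have := l1 x hx
      linarith
    · by_cases hxδ : x + δ ≤ n / (p + 1)
      · have := cnt_le_of_close hp s1 hδ (lo := 0) (hi := n / (p + 1)) (q := β1) (E := E)
          (fun y hy0 hy => hc1 y hy0 hy) hx0 hxδ
        have hb : β1 * δ ≤ q * δ := mul_le_mul_of_nonneg_right hb1 hδ.le
        have hb0 : 0 ≤ β1 * δ := by positivity
        linarith
      · have a1 := c1 x
        have a2 : β1 * (n / (p + 1)) ≤ β1 * (x + δ) :=
          mul_le_mul_of_nonneg_left (by linarith) h1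
        have hb : β1 * δ ≤ q * δ := mul_le_mul_of_nonneg_right hb1 hδ.le
        rw [mul_add] at a2
        linarith
  · rw [abs_le]
    constructor <;> linarith

end OneWeight

/-- **From the Newton functions to `Apx`.** -/
theorem apx_of_GG {K : Type} [NormedField K] {p : ℝ} (hp : 1 < p) (s s' : ℕ → Multiset K)
    (β β' : ℕ → ℝ) {q : ℝ} (hβ0 : ∀ n, 0 ≤ β n) (hβ0' : ∀ n, 0 ≤ β' n) (hβq : ∀ n, β n ≤ q)
    (hβq' : ∀ n, β' n ≤ q)
    (hcard : ∀ δ : ℝ, 0 < δ → ∃ E : Set ℕ, D0 E ∧ ∀ n ∉ E, Even n →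
      |((s n).card : ℝ) + (s' n).card - (β n + β' n) * (n / (p + 1))| ≤ δ * ((n : ℝ) + 1))
    (h : ∀ δ : ℝ, 0 < δ → ∃ E : Set ℕ, D0 E ∧ ∀ n ∉ E, Even n → ∀ x : ℕ,
      (x : ℝ) * (p + 1) ≤ n → |GG p (s n) x - β n * (x : ℝ) ^ 2 / 2| ≤ δ * ((n : ℝ) + 1) ^ 2 ∧
        |GG p (s n) x + GG p (s' n) x - (β n + β' n) * (x : ℝ) ^ 2 / 2| ≤
          δ * ((n : ℝ) + 1) ^ 2) :
    Apx (p + 1) (fun n x => if Even n then (Gouv.cnt p (s n) x : ℝ) else 0)
      (fun n => if Even n then ((s n).card : ℝ) else 0) (fun n => if Even n then β n else 0) := by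
  have hp1 : 0 < p + 1 := by linarith
  have hq0 : 0 ≤ q := (hβ0 0).trans (hβq 0)
  intro δ hδ
  set a : ℝ := δ / (8 * (q + 1)) with ha
  have ha0 : 0 < a := by positivity
  have haq : 2 * (q * a) ≤ δ / 4 := by
    rw [ha]
    have h1 : 2 * (q * (δ / (8 * (q + 1)))) = δ / 4 * (q / (q + 1)) := by field_simp; ring
    rw [h1]
    have h2 : q / (q + 1) ≤ 1 := by rw [div_le_one (by positivity)]; linarith
    nlinarith
  set η : ℝ := a * δ / 32 with hη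
  have hη0 : 0 < η := by positivity
  obtain ⟨E0, hE0, hE0'⟩ := h (η / 4) (by positivity)
  obtain ⟨E1, hE1, hE1'⟩ := hcard (δ / 4) (by positivity)
  -- the threshold
  obtain ⟨n0, hn0⟩ := exists_nat_gt (4 * (3 * q + δ) / η)
  refine ⟨E0 ∪ E1 ∪ {n | n < n0}, (hE0.union hE1).union (D0.of_finite (Set.finite_lt_nat _)),
    fun n hn => ?_⟩
  rw [Set.mem_union, Set.mem_union, not_or, not_or] at hn
  have hn2 : n0 ≤ n := by
    by_contra hcon
    exact hn.2 (not_le.1 hcon)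
  have hnr : 4 * (3 * q + δ) / η < (n : ℝ) := hn0.trans_le (by exact_mod_cast hn2)
  have hnn : (0 : ℝ) ≤ n := Nat.cast_nonneg n
  have hn4 : 3 * q + δ ≤ η / 4 * (n + 1) := by
    rw [div_lt_iff₀ hη0] at hnr
    nlinarith
  by_cases hev : Even n
  · simp only [if_pos hev]
    have hhi : (n : ℝ) / (p + 1) ≤ n := div_le_self hnn (by linarith)
    have hhi0 : 0 ≤ (n : ℝ) / (p + 1) := by positivity
    have hx := fun (x : ℕ) (hx2 : (x : ℝ) ≤ n / (p + 1)) =>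
      hE0' n hn.1.1 hev x ((le_div_iff₀ hp1).1 hx2)
    have hcd0 := abs_le.1 (hE1' n hn.1.2 hev)
    have hcd : ((s n).card : ℝ) + (s' n).card ≤ 2 * q * (n + 1) + δ * (n + 1) := by
      have h1 : (β n + β' n) * (n / (p + 1)) ≤ 2 * q * (n + 1) :=
        mul_le_mul (by linarith [hβq n, hβq' n]) (by linarith) hhi0 (by linarith)
      have h2 : 0 ≤ δ * ((n : ℝ) + 1) := by positivity
      linarith [hcd0.2]
    have hc0 : (0 : ℝ) ≤ (s n).card := Nat.cast_nonneg _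
    have hc0' : (0 : ℝ) ≤ (s' n).card := Nat.cast_nonneg _
    have herr : 2 * q * (n + 1) + δ * (n + 1) + q * n ≤ η / 4 * ((n : ℝ) + 1) ^ 2 := by
      have h1 : 2 * q * ((n : ℝ) + 1) + δ * (n + 1) + q * n ≤ (3 * q + δ) * (n + 1) := by
        nlinarith
      have h2 := mul_le_mul_of_nonneg_right hn4 (by positivity : (0 : ℝ) ≤ (n : ℝ) + 1)
      nlinarith
    have hc1 : ∀ x, 0 ≤ x → x ≤ (n : ℝ) / (p + 1) →
        |GG p (s n) x - β n * x ^ 2 / 2| ≤ η * ((n : ℝ) + 1) ^ 2 := by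
      intro x hx0 hx1
      have h1 := real_of_nat hp (hβ0 n) (fun x hx2 => (hx x hx2).1) x hx0 hx1
      have h2 : β n * (n / (p + 1)) ≤ q * n := mul_le_mul (hβq n) hhi hhi0 hq0
      have h3 : 0 ≤ η * ((n : ℝ) + 1) ^ 2 := by positivity
      linarith
    have hc2 : ∀ x, 0 ≤ x → x ≤ (n : ℝ) / (p + 1) →
        |GG p (s' n) x - β' n * x ^ 2 / 2| ≤ η * ((n : ℝ) + 1) ^ 2 := by
      intro x hx0 hx1
      have h0 : ∀ x : ℕ, (x : ℝ) ≤ n / (p + 1) →
          |GG p (s' n) x - β' n * (x : ℝ) ^ 2 / 2| ≤ η / 2 * ((n : ℝ) + 1) ^ 2 := by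
        intro x hx2
        have h1 := abs_le.1 (hx x hx2).1
        have h2 := abs_le.1 (hx x hx2).2
        rw [abs_le]
        constructor <;> linarith [h1.1, h1.2, h2.1, h2.2]
      have h1 := real_of_nat hp (hβ0' n) h0 x hx0 hx1
      have h2 : β' n * (n / (p + 1)) ≤ q * n := mul_le_mul (hβq' n) hhi hhi0 hq0
      have h3 : 0 ≤ η * ((n : ℝ) + 1) ^ 2 := by positivity
      linarith
    have key := core2 hp (q := q) (D := δ / 4 * (n + 1)) (n := (n : ℝ)) (δ := a * (n + 1))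
      (E := η * ((n : ℝ) + 1) ^ 2) (hβ0 n) (hβ0' n) (hβq n) (hβq' n) hnn (by positivity)
      (by positivity) (by positivity) (by linarith [hcd0.2]) hc1 hc2
    have hb : δ / 4 * (n + 1) + 2 * (q * (a * (n + 1))) + 2 * (2 * (η * ((n : ℝ) + 1) ^ 2) /
        (a * (n + 1))) ≤ δ * (n + 1) := by
      have h1 : 2 * (2 * (η * ((n : ℝ) + 1) ^ 2) / (a * (n + 1))) = δ / 8 * (n + 1) := by
        rw [hη]
        field_simp
        ring
      rw [h1]
      have h2 := mul_le_mul_of_nonneg_right haq (by positivity : (0 : ℝ) ≤ (n : ℝ) + 1)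
      have h3 : 0 ≤ δ * ((n : ℝ) + 1) := by positivity
      nlinarith
    exact ⟨fun x hx0 hx1 => (key.1 x hx0 hx1).trans hb, key.2.trans hb⟩
  · simp only [if_neg hev, zero_mul, sub_zero, abs_zero]
    exact ⟨fun x _ _ => by positivity, by positivity⟩

end Gouvea.P5
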