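import Pool.Agent.Work.MP_d3517d_nt.P5.Defs

/-!
# Integral bases of the spaces of partial modular symbols (MP_d3517d_nt, package P5)

* `ofG N : Γ₀(N) →* SN N`, `Γ₀(N)` acts transitively on `Cusp N`;
* `exists_gen` : a symbol is determined, with integral coefficients which do not depend on the
  ring, by its values on finitely many pairs of cusps.
-/

open Polynomial Finset Matrix

open scoped MatrixGroups

noncomputable section

namespace Gouvea.PX

open Gouvea.PS (slk slk_apply slk_one slk_mul slk_smul slk_neg slk_map map_cast_mul)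

open CongruenceSubgroup (Gamma0 Gamma0_mem)

/-! ### `Γ₀(N)` inside the monoid `SN N` -/

lemma dvd_of_mem_Gamma0 {N : ℕ} {g : SL(2, ℤ)} (h : g ∈ Gamma0 N) : (N : ℤ) ∣ g 1 0 :=
  (ZMod.intCast_zmod_eq_zero_iff_dvd _ _).1 (Gamma0_mem.1 h)

lemma mem_Gamma0_iff_dvd {N : ℕ} {g : SL(2, ℤ)} : g ∈ Gamma0 N ↔ (N : ℤ) ∣ g 1 0 :=
  ⟨dvd_of_mem_Gamma0, fun h => Gamma0_mem.2 ((ZMod.intCast_zmod_eq_zero_iff_dvd _ _).2 h)⟩

lemma isCoprime_of_mem_Gamma0 {N : ℕ} {g : SL(2, ℤ)} (h : g ∈ Gamma0 N) :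
    IsCoprime (g 0 0) (N : ℤ) := by
  obtain ⟨t, ht⟩ := dvd_of_mem_Gamma0 h
  have hd : g 0 0 * g 1 1 - g 0 1 * g 1 0 = 1 := by
    have := g.det_coe
    rwa [det_fin_two] at this
  refine ⟨g 1 1, -(g 0 1 * t), ?_⟩
  rw [ht] at hd
  linear_combination hd

/-- `Γ₀(N)` in `SN N` -/
def ofG (N : ℕ) : Gamma0 N →* SN N where
  toFun g := ⟨(g.1 : Matrix (Fin 2) (Fin 2) ℤ), by
    refine ⟨?_, isCoprime_of_mem_Gamma0 g.2, dvd_of_mem_Gamma0 g.2⟩
    rw [g.1.det_coe]
    exact one_ne_zero⟩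
  map_one' := rfl
  map_mul' g h := rfl

lemma ofG_coe {N : ℕ} (g : Gamma0 N) : (ofG N g).1 = (g.1 : Matrix (Fin 2) (Fin 2) ℤ) := rfl

lemma isG0_ofG {N M : ℕ} (g : Gamma0 N) (h : g.1 ∈ Gamma0 M) : IsG0 M (ofG N g) :=
  ⟨g.1.det_coe, dvd_of_mem_Gamma0 h⟩

lemma ofG_inv_smul {N : ℕ} (g : Gamma0 N) (x : Cusp N) : ofG N g⁻¹ • ofG N g • x = x := by
  rw [← mul_smul, ← map_mul, inv_mul_cancel, map_one, one_smul]

/-- `Γ₀(N)` acts transitively on the cusps of `Cusp N`. -/
theorem exists_smul_inf {N : ℕ} (x : Cusp N) : ∃ g : Gamma0 N, ofG N g • inf N = x := by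
  induction x using Cusp.ind' with
  | h u v hu hv hne =>
    have hd : (Int.gcd u v : ℤ) ≠ 0 := by
      intro h0
      have h1 : Int.gcd u v = 0 := by exact_mod_cast h0
      rw [Int.gcd_eq_zero_iff] at h1
      rcases hne with h | h
      · exact h h1.1
      · exact h h1.2
    obtain ⟨u', hu'⟩ : (Int.gcd u v : ℤ) ∣ u := Int.gcd_dvd_left ..
    obtain ⟨v', hv'⟩ : (Int.gcd u v : ℤ) ∣ v := Int.gcd_dvd_right ..
    have hc : IsCoprime u' v' := by
      have h1 := Int.gcd_eq_gcd_ab u v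
      refine ⟨Int.gcdA u v, Int.gcdB u v, mul_left_cancel₀ hd ?_⟩
      calc (Int.gcd u v : ℤ) * (Int.gcdA u v * u' + Int.gcdB u v * v') =
          ((Int.gcd u v : ℤ) * u') * Int.gcdA u v + ((Int.gcd u v : ℤ) * v') * Int.gcdB u v := by
            ring
        _ = u * Int.gcdA u v + v * Int.gcdB u v := by rw [← hu', ← hv']
        _ = (Int.gcd u v : ℤ) * 1 := by rw [← h1, mul_one]
    obtain ⟨g, hg0, hg1⟩ := hc.exists_SL2_col 0
    have hNd : IsCoprime (N : ℤ) (Int.gcd u v : ℤ) := by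
      rw [hu'] at hu
      exact (IsCoprime.of_mul_left_left hu).symm
    have hN : (N : ℤ) ∣ v' := by
      rw [hv'] at hv
      exact hNd.dvd_of_dvd_mul_left hv
    have hgN : g ∈ Gamma0 N := mem_Gamma0_iff_dvd.2 (by rw [hg1]; exact hN)
    refine ⟨⟨g, hgN⟩, ?_⟩
    obtain ⟨h1, h2, h3, h4⟩ := smul_mk (ofG N ⟨g, hgN⟩) 1 0 isCoprime_one_left (dvd_zero _)
      (Or.inl one_ne_zero)
    refine h4.trans (Cusp.mk_eq.2 ?_)
    show (g 0 0 * 1 + g 0 1 * 0) * v = u * (g 1 0 * 1 + g 1 1 * 0)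
    rw [hg0, hg1]
    linear_combination u' * hv' - v' * hu'

/-! ### generation by finitely many pairs -/

/-- The value at `(x, y)` of every symbol of level `M` is an integral combination, with
coefficients independent of the ring, of the coordinates of its values at the pairs
`(P i, Q i)`. -/
def Good {N : ℕ} {ι : Type} [Fintype ι] (M n : ℕ) (P Q : ι → Cusp N) (x y : Cusp N) : Prop :=
  ∃ a : Fin (n + 1) → ι × Fin (n + 1) → ℤ, ∀ (k : Type) [CommRing k],
    ∀ φ ∈ Sym k N M n, ∀ r, φ x y r = ∑ p, (a r p : k) * φ (P p.1) (Q p.1) p.2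

section good

variable {N M n : ℕ} {ι : Type} [Fintype ι] {P Q : ι → Cusp N}

lemma sym_self {k : Type} [CommRing k] {φ : Cusp N → Cusp N → Fin (n + 1) → k}
    (hφ : φ ∈ Sym k N M n) (x : Cusp N) : φ x x = 0 := by
  have h := hφ.1 x x x
  simpa using h

lemma sym_swap {k : Type} [CommRing k] {φ : Cusp N → Cusp N → Fin (n + 1) → k}
    (hφ : φ ∈ Sym k N M n) (x y : Cusp N) : φ y x = -φ x y := by
  have h := hφ.1 x y x
  rw [sym_self hφ] at h
  exact (neg_eq_of_add_eq_zero_right h).symm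

lemma Good.refl (x : Cusp N) : Good M n P Q x x :=
  ⟨0, fun k _ φ hφ r => by rw [sym_self hφ]; simp⟩

lemma Good.symm {x y : Cusp N} (h : Good M n P Q x y) : Good M n P Q y x := by
  obtain ⟨a, ha⟩ := h
  refine ⟨fun r p => -a r p, fun k _ φ hφ r => ?_⟩
  rw [sym_swap hφ x y, Pi.neg_apply, ha k φ hφ r, ← Finset.sum_neg_distrib]
  refine Finset.sum_congr rfl fun p _ => ?_
  push_cast
  ring

lemma Good.trans {x y z : Cusp N} (h : Good M n P Q x y) (h' : Good M n P Q y z) :
    Good M n P Q x z := by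
  obtain ⟨a, ha⟩ := h
  obtain ⟨b, hb⟩ := h'
  refine ⟨fun r p => a r p + b r p, fun k _ φ hφ r => ?_⟩
  rw [← hφ.1 x y z, Pi.add_apply, ha k φ hφ r, hb k φ hφ r, ← Finset.sum_add_distrib]
  refine Finset.sum_congr rfl fun p _ => ?_
  push_cast
  ring

lemma Good.of_smul {g : SN N} (hg : IsG0 M g) {x y : Cusp N}
    (h : Good M n P Q (g • x) (g • y)) : Good M n P Q x y := by
  obtain ⟨a, ha⟩ := h
  refine ⟨fun r p => ∑ t, slk n g.1 r t * a t p, fun k _ φ hφ r => ?_⟩
  have h1 : φ x y r = ∑ t, (slk n (g.1.map (Int.cast : ℤ → k))) r t * φ (g • x) (g • y) t := by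
    conv_lhs => rw [← hφ.2 g hg]
    rfl
  have h2 : ∀ t, slk n (g.1.map (Int.cast : ℤ → k)) r t = ((slk n g.1 r t : ℤ) : k) := by
    intro t
    have := slk_map (Int.castRingHom k) n g.1
    exact congrFun (congrFun this r) t
  rw [h1]
  calc ∑ t, (slk n (g.1.map (Int.cast : ℤ → k))) r t * φ (g • x) (g • y) t =
      ∑ t, ∑ p, ((slk n g.1 r t : ℤ) : k) * ((a t p : k) * φ (P p.1) (Q p.1) p.2) := by
        refine Finset.sum_congr rfl fun t _ => ?_
        rw [h2, ha k φ hφ t, Finset.mul_sum]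
    _ = ∑ p, ∑ t, ((slk n g.1 r t : ℤ) : k) * ((a t p : k) * φ (P p.1) (Q p.1) p.2) :=
        Finset.sum_comm
    _ = _ := by
        refine Finset.sum_congr rfl fun p _ => ?_
        push_cast
        rw [Finset.sum_mul]
        refine Finset.sum_congr rfl fun t _ => ?_
        ring

lemma Good.base [DecidableEq ι] (i : ι) : Good M n P Q (P i) (Q i) := by
  classical
  refine ⟨fun r p => if p = (i, r) then 1 else 0, fun k _ φ hφ r => ?_⟩
  rw [Finset.sum_eq_single (i, r)]
  · simp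
  · intro p _ hp
    show ((if p = (i, r) then (1 : ℤ) else 0 : ℤ) : k) * _ = 0
    rw [if_neg hp, Int.cast_zero, zero_mul]
  · intro h
    exact absurd (Finset.mem_univ _) h

end good

/-- Finitely many pairs of cusps determine all symbols of level `M`, integrally. -/
theorem exists_gen {N M : ℕ} (hM : M ≠ 0) (hNM : N ∣ M) : ∃ (m : ℕ) (P Q : Fin m → Cusp N),
    ∀ n x y, Good M n P Q x y := by
  classical
  have : NeZero M := ⟨hM⟩
  have hN : N ≠ 0 := by
    rintro rfl
    exact hM (zero_dvd_iff.1 hNM)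
  have : NeZero N := ⟨hN⟩
  have hfg : Group.FG SL(2, ℤ) := Group.fg_iff.2
    ⟨{ModularGroup.S, ModularGroup.T}, SpecialLinearGroup.SL2Z_generators, by simp⟩
  have hfg1 : Group.FG (Gamma0 N) := inferInstance
  obtain ⟨S, hS, hSf⟩ := Group.fg_iff.1 hfg1
  have := hSf.fintype
  let H : Subgroup (Gamma0 N) := (Gamma0 M).subgroupOf (Gamma0 N)
  have hH : H.FiniteIndex := inferInstance
  have hfin : Finite (Quotient (QuotientGroup.rightRel H)) :=
    Finite.of_equiv _ (QuotientGroup.quotientRightRelEquivQuotientLeftRel H).symm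
  have := Fintype.ofFinite (Quotient (QuotientGroup.rightRel H))
  let ι : Type := Quotient (QuotientGroup.rightRel H) × S
  let e : Fin (Fintype.card ι) ≃ ι := (Fintype.equivFin ι).symm
  refine ⟨Fintype.card ι, fun i => ofG N (e i).1.out • inf N,
    fun i => ofG N ((e i).1.out * (e i).2.1) • inf N, fun n => ?_⟩
  have key1 : ∀ (g : Gamma0 N) (s : Gamma0 N), s ∈ S →
      Good M n (fun i => ofG N (e i).1.out • inf N)
        (fun i => ofG N ((e i).1.out * (e i).2.1) • inf N) (ofG N g • inf N)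
        (ofG N (g * s) • inf N) := by
    intro g s hs
    set q : Quotient (QuotientGroup.rightRel H) := Quotient.mk _ g with hq
    have h1 : (QuotientGroup.rightRel H).r q.out g := Quotient.exact (Quotient.out_eq _)
    have h2 : g * q.out⁻¹ ∈ H := QuotientGroup.rightRel_apply.1 h1
    have h3 : q.out * g⁻¹ ∈ H := by
      have := H.inv_mem h2
      rwa [_root_.mul_inv_rev, inv_inv] at this
    have h4 : IsG0 M (ofG N (q.out * g⁻¹)) := isG0_ofG _ (Subgroup.mem_subgroupOf.1 h3)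
    refine Good.of_smul h4 ?_
    have h5 : ofG N (q.out * g⁻¹) • ofG N g • inf N = ofG N q.out • inf N := by
      rw [← mul_smul, ← map_mul, inv_mul_cancel_right]
    have h6 : ofG N (q.out * g⁻¹) • ofG N (g * s) • inf N = ofG N (q.out * s) • inf N := by
      rw [← mul_smul, ← map_mul]
      congr 2
      group
    rw [h5, h6]
    have h7 := Good.base (M := M) (n := n) (P := fun i => ofG N (e i).1.out • inf N)
      (Q := fun i => ofG N ((e i).1.out * (e i).2.1) • inf N) (e.symm (q, ⟨s, hs⟩))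
    simpa using h7
  have key2 : ∀ (h : Gamma0 N) (g : Gamma0 N),
      Good M n (fun i => ofG N (e i).1.out • inf N)
        (fun i => ofG N ((e i).1.out * (e i).2.1) • inf N) (ofG N g • inf N)
        (ofG N (g * h) • inf N) := by
    intro h
    have hh : h ∈ Subgroup.closure S := by rw [hS]; exact Subgroup.mem_top h
    induction hh using Subgroup.closure_induction with
    | mem s hs => exact fun g => key1 g s hs
    | one => exact fun g => by rw [mul_one]; exact Good.refl _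
    | mul a b _ _ ha hb =>
      intro g
      have h1 := (ha g).trans (hb (g * a))
      rwa [mul_assoc] at h1
    | inv a _ ha =>
      intro g
      have h1 := (ha (g * a⁻¹)).symm
      rwa [inv_mul_cancel_right] at h1
  intro x y
  obtain ⟨g, rfl⟩ := exists_smul_inf x
  obtain ⟨h, rfl⟩ := exists_smul_inf y
  have h1 := key2 (g⁻¹ * h) g
  rwa [mul_inv_cancel_left] at h1

end Gouvea.PX
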