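import Pool.Agent.Work.MP_d3517d_nt.P5.FlatSol
import Pool.Agent.Work.MP_d3517d_nt.P5.Lat
import Pool.Agent.Work.MP_d3517d_nt.P5.Rho

/-!
# Integral bases of the spaces of partial modular symbols (MP_d3517d_nt, package P5)

* `symEquiv` : symbols = solutions of an integral linear system;
* `exists_basis`, `exists_lat` : integral symbols which are a basis of `Sym k N M n` for every
  domain `k` of characteristic zero; `rk`, `bas` : chosen ones;
* `toMatrix_cast` : the matrix of a base change is the cast of the integral matrix;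
* `AZ` : the integral matrices of the Hecke ring, `toMatrix_rhoN`.
-/

open Polynomial Finset Matrix

open scoped MatrixGroups

noncomputable section

namespace Gouvea.PX

open Gouvea.PS (slk slk_apply slk_one slk_mul slk_smul slk_neg slk_map map_cast_mul)

section basis

variable {N M n : ℕ} {ι : Type} [Fintype ι] [DecidableEq ι]

/-- the equations satisfied by the values of a symbol -/
def lfam (M n : ℕ) (P Q : ι → Cusp N) (a : Cusp N → Cusp N → Fin (n + 1) → ι × Fin (n + 1) → ℤ) :
    (Cusp N × Cusp N × Cusp N × Fin (n + 1)) ⊕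
      ({g : SN N // IsG0 M g} × Cusp N × Cusp N × Fin (n + 1)) ⊕ (ι × Fin (n + 1)) →
      ι × Fin (n + 1) → ℤ
  | .inl ⟨x, y, z, r⟩ => fun p => a x y r p + a y z r p - a x z r p
  | .inr (.inl ⟨g, x, y, r⟩) => fun p =>
      ∑ t, slk n g.1.1 r t * a (g.1 • x) (g.1 • y) t p - a x y r p
  | .inr (.inr q) => fun p => a (P q.1) (Q q.1) q.2 p - if p = q then 1 else 0

/-- A symbol is the same as a solution of the equations. -/
def symEquiv (P Q : ι → Cusp N) (a : Cusp N → Cusp N → Fin (n + 1) → ι × Fin (n + 1) → ℤ)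
    (k : Type) [CommRing k]
    (ha : ∀ x y, ∀ φ ∈ Sym k N M n, ∀ r, φ x y r = ∑ p, (a x y r p : k) * φ (P p.1) (Q p.1) p.2) :
    Sym k N M n ≃ₗ[k] SolI (lfam M n P Q a) k where
  toFun φ := ⟨fun p => φ.1 (P p.1) (Q p.1) p.2, by
    rintro (⟨x, y, z, r⟩ | ⟨g, x, y, r⟩ | q)
    · show ∑ p, ((a x y r p + a y z r p - a x z r p : ℤ) : k) * φ.1 (P p.1) (Q p.1) p.2 = 0
      have h1 := congrFun (φ.2.1 x y z) r
      rw [Pi.add_apply, ha x y φ.1 φ.2 r, ha y z φ.1 φ.2 r, ha x z φ.1 φ.2 r,
        ← Finset.sum_add_distrib, ← sub_eq_zero, ← Finset.sum_sub_distrib] at h1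
      rw [← h1]
      refine Finset.sum_congr rfl fun p _ => ?_
      push_cast
      ring
    · show ∑ p, ((∑ t, slk n g.1.1 r t * a (g.1 • x) (g.1 • y) t p - a x y r p : ℤ) : k) *
        φ.1 (P p.1) (Q p.1) p.2 = 0
      have h1 : act k N n g.1 φ.1 x y r = φ.1 x y r := by rw [φ.2.2 g.1 g.2]
      have h2 : act k N n g.1 φ.1 x y r =
          ∑ t, ((slk n g.1.1 r t : ℤ) : k) * φ.1 (g.1 • x) (g.1 • y) t := by
        have h3 : ∀ t, slk n (g.1.1.map (Int.cast : ℤ → k)) r t = ((slk n g.1.1 r t : ℤ) : k) :=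
          fun t => congrFun (congrFun (slk_map (Int.castRingHom k) n g.1.1) r) t
        calc act k N n g.1 φ.1 x y r =
            ∑ t, slk n (g.1.1.map (Int.cast : ℤ → k)) r t * φ.1 (g.1 • x) (g.1 • y) t := rfl
          _ = _ := Finset.sum_congr rfl fun t _ => by rw [h3 t]
      rw [h2, ha x y φ.1 φ.2 r, ← sub_eq_zero] at h1
      rw [← h1]
      have h4 : ∑ t, ((slk n g.1.1 r t : ℤ) : k) * φ.1 (g.1 • x) (g.1 • y) t =
          ∑ p, (∑ t, ((slk n g.1.1 r t : ℤ) : k) * (a (g.1 • x) (g.1 • y) t p : k)) *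
            φ.1 (P p.1) (Q p.1) p.2 := by
        simp_rw [Finset.sum_mul]
        rw [Finset.sum_comm]
        refine Finset.sum_congr rfl fun t _ => ?_
        rw [ha (g.1 • x) (g.1 • y) φ.1 φ.2 t, Finset.mul_sum]
        exact Finset.sum_congr rfl fun p _ => by ring
      rw [h4, ← Finset.sum_sub_distrib]
      refine Finset.sum_congr rfl fun p _ => ?_
      push_cast
      ring
    · show ∑ p, ((a (P q.1) (Q q.1) q.2 p - if p = q then 1 else 0 : ℤ) : k) *
        φ.1 (P p.1) (Q p.1) p.2 = 0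
      have h1 := ha (P q.1) (Q q.1) φ.1 φ.2 q.2
      have h2 : ∑ p : ι × Fin (n + 1), ((if p = q then 1 else 0 : ℤ) : k) *
          φ.1 (P p.1) (Q p.1) p.2 = φ.1 (P q.1) (Q q.1) q.2 := by
        rw [Finset.sum_eq_single q]
        · simp
        · intro p _ hp
          rw [if_neg hp, Int.cast_zero, zero_mul]
        · intro h
          exact absurd (Finset.mem_univ _) h
      rw [← sub_eq_zero, ← h2] at h1
      rw [← neg_eq_zero, ← h1, ← Finset.sum_neg_distrib, h2]
      rw [← h2, ← Finset.sum_sub_distrib]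
      refine Finset.sum_congr rfl fun p _ => ?_
      push_cast
      ring⟩
  map_add' φ ψ := rfl
  map_smul' c φ := rfl
  invFun v := ⟨fun x y r => ∑ p, (a x y r p : k) * v.1 p, by
    refine ⟨fun x y z => funext fun r => ?_, fun g hg => funext fun x => funext fun y =>
      funext fun r => ?_⟩
    · have h1 := v.2 (.inl ⟨x, y, z, r⟩)
      change ∑ p, ((a x y r p + a y z r p - a x z r p : ℤ) : k) * v.1 p = 0 at h1
      show ∑ p, (a x y r p : k) * v.1 p + ∑ p, (a y z r p : k) * v.1 p =
        ∑ p, (a x z r p : k) * v.1 p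
      rw [← Finset.sum_add_distrib, ← sub_eq_zero, ← Finset.sum_sub_distrib, ← h1]
      refine Finset.sum_congr rfl fun p _ => ?_
      push_cast
      ring
    · have h1 := v.2 (.inr (.inl ⟨⟨g, hg⟩, x, y, r⟩))
      change ∑ p, ((∑ t, slk n g.1 r t * a (g • x) (g • y) t p - a x y r p : ℤ) : k) *
        v.1 p = 0 at h1
      have h3 : ∀ t, slk n (g.1.map (Int.cast : ℤ → k)) r t = ((slk n g.1 r t : ℤ) : k) :=
        fun t => congrFun (congrFun (slk_map (Int.castRingHom k) n g.1) r) t
      show ∑ t, slk n (g.1.map (Int.cast : ℤ → k)) r t *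
        (∑ p, (a (g • x) (g • y) t p : k) * v.1 p) = ∑ p, (a x y r p : k) * v.1 p
      have h4 : ∑ t, slk n (g.1.map (Int.cast : ℤ → k)) r t *
          (∑ p, (a (g • x) (g • y) t p : k) * v.1 p) =
          ∑ p, (∑ t, ((slk n g.1 r t : ℤ) : k) * (a (g • x) (g • y) t p : k)) * v.1 p := by
        simp_rw [Finset.sum_mul]
        rw [Finset.sum_comm]
        refine Finset.sum_congr rfl fun t _ => ?_
        rw [h3 t, Finset.mul_sum]
        exact Finset.sum_congr rfl fun p _ => by ring
      rw [h4, ← sub_eq_zero, ← Finset.sum_sub_distrib, ← h1]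
      refine Finset.sum_congr rfl fun p _ => ?_
      push_cast
      ring⟩
  left_inv φ := by
    refine Subtype.ext (funext fun x => funext fun y => funext fun r => ?_)
    exact (ha x y φ.1 φ.2 r).symm
  right_inv v := by
    refine Subtype.ext (funext fun q => ?_)
    show ∑ p, (a (P q.1) (Q q.1) q.2 p : k) * v.1 p = v.1 q
    have h1 := v.2 (.inr (.inr q))
    change ∑ p, ((a (P q.1) (Q q.1) q.2 p - if p = q then 1 else 0 : ℤ) : k) * v.1 p = 0 at h1
    have h2 : ∑ p : ι × Fin (n + 1), ((if p = q then 1 else 0 : ℤ) : k) * v.1 p = v.1 q := by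
      rw [Finset.sum_eq_single q]
      · simp
      · intro p _ hp
        rw [if_neg hp, Int.cast_zero, zero_mul]
      · intro h
        exact absurd (Finset.mem_univ _) h
    rw [← sub_eq_zero, ← h1, ← h2, ← Finset.sum_sub_distrib]
    refine Finset.sum_congr rfl fun p _ => ?_
    push_cast
    ring

end basis

/-- **Integral bases.** There are finitely many integral symbols whose casts are a basis of the
symbols with coefficients in every domain of characteristic zero. -/
theorem exists_basis {N M : ℕ} (hM : M ≠ 0) (hNM : N ∣ M) (n : ℕ) :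
    ∃ (d : ℕ) (b : Fin d → Cusp N → Cusp N → Fin (n + 1) → ℤ),
      ∀ (k : Type) [CommRing k] [IsDomain k] [CharZero k],
        ∃ B : Module.Basis (Fin d) k (Sym k N M n), ∀ i x y r, (B i).1 x y r = (b i x y r : k) := by
  obtain ⟨m, P, Q, h⟩ := exists_gen hM hNM
  choose a ha using h n
  obtain ⟨d, c, hc⟩ := exists_basis_SolI (lfam M n P Q a)
  refine ⟨d, fun i x y r => ∑ p, a x y r p * c i p, fun k _ _ _ => ?_⟩
  obtain ⟨B, hB⟩ := hc k
  refine ⟨B.map (symEquiv P Q a k fun x y φ hφ r => ha x y k φ hφ r).symm, fun i x y r => ?_⟩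
  show ∑ p, (a x y r p : k) * (B i).1 p = _
  push_cast
  exact Finset.sum_congr rfl fun p _ => by rw [hB]

/-- the same with the base change maps -/
theorem exists_lat {N M : ℕ} (hM : M ≠ 0) (hNM : N ∣ M) (n : ℕ) :
    ∃ (d : ℕ) (b : Module.Basis (Fin d) ℤ (Sym ℤ N M n)),
      ∀ (k : Type) [CommRing k] [IsDomain k] [CharZero k],
        ∃ b' : Module.Basis (Fin d) k (Sym k N M n),
          ∀ i, b' i = baseS (Int.castRingHom k) N M n (b i) := by
  obtain ⟨d, b, h⟩ := exists_basis hM hNM n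
  obtain ⟨B, hB⟩ := h ℤ
  refine ⟨d, B, fun k _ _ _ => ?_⟩
  obtain ⟨B', hB'⟩ := h k
  refine ⟨B', fun i => Subtype.ext (funext fun x => funext fun y => funext fun r => ?_)⟩
  rw [hB', baseS_coe, baseF_apply, hB]
  rfl

/-! ### chosen bases and integral matrices -/

section choice

variable {N M : ℕ} (hM : M ≠ 0) (hNM : N ∣ M) (n : ℕ)

/-- the rank of the space of symbols -/
def rk : ℕ := (exists_basis hM hNM n).choose

/-- the integral basis -/
def bZ : Fin (rk hM hNM n) → Cusp N → Cusp N → Fin (n + 1) → ℤ :=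
  (exists_basis hM hNM n).choose_spec.choose

variable (k : Type) [CommRing k] [IsDomain k] [CharZero k]

/-- the basis over `k` -/
def bas : Module.Basis (Fin (rk hM hNM n)) k (Sym k N M n) :=
  ((exists_basis hM hNM n).choose_spec.choose_spec k).choose

variable {k}

lemma bas_apply (i : Fin (rk hM hNM n)) (x y : Cusp N) (r : Fin (n + 1)) :
    (bas hM hNM n k i).1 x y r = (bZ hM hNM n i x y r : k) :=
  ((exists_basis hM hNM n).choose_spec.choose_spec k).choose_spec i x y r

lemma bas_int_apply (i : Fin (rk hM hNM n)) (x y : Cusp N) (r : Fin (n + 1)) :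
    (bas hM hNM n ℤ i).1 x y r = bZ hM hNM n i x y r := by
  rw [bas_apply]
  rfl

/-- the basis over `k` is the base change of the basis over `ℤ` -/
lemma bas_eq_baseS (i : Fin (rk hM hNM n)) :
    bas hM hNM n k i = baseS (Int.castRingHom k) N M n (bas hM hNM n ℤ i) := by
  refine Subtype.ext (funext fun x => funext fun y => funext fun r => ?_)
  rw [bas_apply, baseS_coe, baseF_apply, bas_int_apply]
  rfl

lemma finrank_sym : Module.finrank k (Sym k N M n) = rk hM hNM n := by
  rw [Module.finrank_eq_card_basis (bas hM hNM n k), Fintype.card_fin]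

/-- for two domains `k → k'` the bases correspond -/
lemma baseS_bas {k' : Type} [CommRing k'] [IsDomain k'] [CharZero k'] (f : k →+* k')
    (i : Fin (rk hM hNM n)) : baseS f N M n (bas hM hNM n k i) = bas hM hNM n k' i := by
  refine Subtype.ext (funext fun x => funext fun y => funext fun r => ?_)
  rw [baseS_coe, baseF_apply, bas_apply, bas_apply, map_intCast]

/-- If `T` is the base change of `TZ`, then its matrix is the cast of the matrix of `TZ`. -/
theorem toMatrix_cast {N' M' n' : ℕ} (hM' : M' ≠ 0) (hNM' : N' ∣ M')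
    (TZ : Sym ℤ N M n →ₗ[ℤ] Sym ℤ N' M' n') (T : Sym k N M n →ₗ[k] Sym k N' M' n')
    (h : ∀ φ : Sym ℤ N M n, T (baseS (Int.castRingHom k) N M n φ) =
      baseS (Int.castRingHom k) N' M' n' (TZ φ)) :
    LinearMap.toMatrix (bas hM hNM n k) (bas hM' hNM' n' k) T =
      (LinearMap.toMatrix (bas hM hNM n ℤ) (bas hM' hNM' n' ℤ) TZ).map (Int.cast : ℤ → k) := by
  ext i j
  have h1 : TZ (bas hM hNM n ℤ j) =
      ∑ i, LinearMap.toMatrix (bas hM hNM n ℤ) (bas hM' hNM' n' ℤ) TZ i j •
        bas hM' hNM' n' ℤ i := by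
    conv_lhs => rw [← (bas hM' hNM' n' ℤ).sum_repr (TZ (bas hM hNM n ℤ j))]
    exact Finset.sum_congr rfl fun i _ => by rw [LinearMap.toMatrix_apply]
  have h2 : T (bas hM hNM n k j) =
      ∑ i, ((LinearMap.toMatrix (bas hM hNM n ℤ) (bas hM' hNM' n' ℤ) TZ i j : ℤ) : k) •
        bas hM' hNM' n' k i := by
    rw [bas_eq_baseS, h, h1, map_sum]
    refine Finset.sum_congr rfl fun i _ => ?_
    rw [LinearMap.map_smulₛₗ, ← bas_eq_baseS]
    rfl
  rw [LinearMap.toMatrix_apply, h2, Matrix.map_apply]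
  have h3 := (bas hM' hNM' n' k).repr_sum_self
    (fun i => ((LinearMap.toMatrix (bas hM hNM n ℤ) (bas hM' hNM' n' ℤ) TZ i j : ℤ) : k))
  exact congrFun h3 i

variable [NeZero M]

/-- the integral matrices of the Hecke ring -/
def AZ : MvPolynomial Nat.Primes ℤ →+* Matrix (Fin (rk hM hNM n)) (Fin (rk hM hNM n)) ℤ :=
  ((LinearMap.toMatrixAlgEquiv (bas hM hNM n ℤ)).toAlgHom.toRingHom :
    Module.End ℤ (Sym ℤ N M n) →+* _).comp (rhoN ℤ N M n hNM)

lemma AZ_apply (r : MvPolynomial Nat.Primes ℤ) :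
    AZ hM hNM n r = LinearMap.toMatrix (bas hM hNM n ℤ) (bas hM hNM n ℤ) (rhoN ℤ N M n hNM r) :=
  rfl

theorem toMatrix_rhoN (r : MvPolynomial Nat.Primes ℤ) :
    LinearMap.toMatrix (bas hM hNM n k) (bas hM hNM n k) (rhoN k N M n hNM r) =
      (AZ hM hNM n r).map (Int.cast : ℤ → k) :=
  toMatrix_cast hM hNM n hM hNM (rhoN ℤ N M n hNM r) (rhoN k N M n hNM r) fun φ =>
    baseS_rhoN _ hNM r φ

end choice

end Gouvea.PX
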