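import Pool.Agent.Work.MP_d3517d_nt.P5.SymCount

/-!
# P5: dimension of the symbols over any field, no torsion (MP_d3517d_nt)

`6 dim Sym k N M n ≤ [SL_2(ℤ) : Γ₀(M)] (n + 1)` for every field `k`, `N ∣ M`, `N ≥ 2`, `n` even,
`4 ∣ M` or `9 ∣ M`.
-/

open Matrix ModularGroup Module CongruenceSubgroup

noncomputable section

namespace Gouvea.P5

open Gouvea.PS (slk slk_apply slk_one slk_mul slk_smul slk_neg slk_map map_cast_mul)
open Gouvea.PX (SN Cusp inf act IsG0 Sym SymLe)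

variable {k : Type} [Field k]

/-- The action of `SL_2(ℤ)` on the polynomials of degree `≤ n`. -/
def rhoF (k : Type) [Field k] (n : ℕ) (γ : G) : (Fin (n + 1) → k) →ₗ[k] (Fin (n + 1) → k) :=
  (slk n (red k γ)).toLin'

lemma rhoF_apply (n : ℕ) (γ : G) (v : Fin (n + 1) → k) :
    rhoF k n γ v = (slk n (red k γ)).mulVec v := by
  unfold rhoF
  rw [Matrix.toLin'_apply]

lemma isAct_rhoF (k : Type) [Field k] {n : ℕ} (hn : Even n) {Γ : Subgroup G}
    (hΓ : (-1 : G) ∈ Γ) : IsAct Γ (rhoF k n) where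
  one := by
    ext v i
    rw [LinearMap.coe_comp, Function.comp_apply, rhoF_apply, red_one, slk_one, Matrix.one_mulVec]
    rfl
  mul γ _ δ _ v := by
    rw [rhoF_apply, rhoF_apply, rhoF_apply, red_mul, slk_mul, Matrix.mulVec_mulVec]
  neg_mem := hΓ
  neg := by
    ext v i
    rw [LinearMap.coe_comp, Function.comp_apply, rhoF_apply, red_neg_one, slk_neg n hn, slk_one,
      Matrix.one_mulVec]
    rfl

/-- restriction to pairs of group elements -/
def toSyF (k : Type) [Field k] (N M n : ℕ) :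
    Sym k N M n →ₗ[k] (Gamma0 N → Gamma0 N → Fin (n + 1) → k) where
  toFun φ g h := φ.1 (cu g) (cu h)
  map_add' _ _ := rfl
  map_smul' _ _ := rfl

lemma toSyF_injective (N M n : ℕ) : Function.Injective (toSyF k N M n) := by
  rw [← LinearMap.ker_eq_bot, LinearMap.ker_eq_bot']
  intro φ hφ
  refine Subtype.ext (funext fun x => funext fun y => ?_)
  obtain ⟨g, rfl⟩ := cu_surjective x
  obtain ⟨h, rfl⟩ := cu_surjective y
  exact congrFun (congrFun hφ g) h

lemma cu_inv_mul {N : ℕ} (γ x : Gamma0 N) (h : γ.1⁻¹ ∈ Gamma0 N) :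
    toSN γ.1⁻¹ h • cu (γ * x) = cu x := by
  rw [cu_mul, ← mul_smul, ← toSN_mul]
  have : toSN (γ.1⁻¹ * γ.1) ((Gamma0 N).mul_mem h γ.2) = 1 := by
    refine Subtype.ext ?_
    show (γ.1⁻¹ * γ.1).1 = 1
    rw [inv_mul_cancel]
    rfl
  rw [this, one_smul]

lemma cu_mul_of_c {N : ℕ} {x y : Gamma0 N} {δ : G} (h : y.1 = x.1 * δ) (hδ : δ.1 1 0 = 0) :
    cu y = cu x := by
  have h0 : δ ∈ Gamma0 N := mem_of_dvd (by rw [hδ]; exact dvd_zero _)
  have : y = x * ⟨δ, h0⟩ := Subtype.ext h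
  rw [this]
  unfold cu
  rw [show toSN (x * ⟨δ, h0⟩ : Gamma0 N).1 (x * ⟨δ, h0⟩ : Gamma0 N).2 =
    toSN x.1 x.2 * toSN δ h0 from rfl, mul_smul, toSN_smul_inf δ _ hδ]

lemma toSyF_mem {N M n : ℕ} (hNM : N ∣ M) (φ : Sym k N M n) :
    toSyF k N M n φ ∈ Sy (Gamma0 M) (Gamma0 N) (rhoF k n) := by
  obtain ⟨φ, hadd, hinv⟩ := φ
  have hzero : ∀ x, φ x x = 0 := fun x => by
    have := hadd x x x
    simpa using this
  refine ⟨fun x y z => hadd _ _ _, fun γ hγ x y => ?_, fun x y h => ?_, fun x y h => ?_⟩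
  · have h1 : γ.1⁻¹ ∈ Gamma0 M := (Gamma0 M).inv_mem hγ
    have h2 := hinv (toSN γ.1⁻¹ (Gamma0_le hNM h1)) (isG0_toSN _ _ h1)
    have h3 := congrFun (congrFun h2 (cu (γ * x))) (cu (γ * y))
    rw [PX.act_apply, cu_inv_mul, cu_inv_mul] at h3
    show φ (cu (γ * x)) (cu (γ * y)) = _
    rw [← h3, rhoF_apply]
    rfl
  · show φ (cu x) (cu y) = 0
    rw [cu_mul_of_c h (by simp [T]), hzero]
  · show φ (cu x) (cu y) = 0
    rw [cu_mul_of_c h (by simp), hzero]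

lemma neg_one_mem (M : ℕ) : (-1 : G) ∈ Gamma0 M := mem_of_dvd (by simp)

/-- **General upper bound for the symbols over any field.** -/
theorem finrank_Sym_le {N M n : ℕ} [NeZero M] (hN : 2 ≤ N) (hNM : N ∣ M)
    (hn : Even n) (c c' : ℕ)
    (h : ∀ g : G, g * S * g⁻¹ ∈ Gamma0 M →
      2 * finrank k (LinearMap.ker (LinearMap.id + rhoF k n (g * S * g⁻¹))) ≤ (n + 1) + c)
    (h' : ∀ g : G, g * Re * g⁻¹ ∈ Gamma0 M →
      3 * finrank k (LinearMap.ker (LinearMap.id + rhoF k n (g * Re * g⁻¹) +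
        rhoF k n (g * Re * g⁻¹) ∘ₗ rhoF k n (g * Re * g⁻¹))) ≤ 2 * (n + 1) + c') :
    6 * finrank k (Sym k N M n) ≤ Nat.card (Qt (Gamma0 M)) * ((n + 1) + 3 * c + 2 * c') ∧
      FiniteDimensional k (Sym k N M n) := by
  have hV : finrank k (Fin (n + 1) → k) = n + 1 := by
    rw [Module.finrank_fintype_fun_eq_card, Fintype.card_fin]
  obtain ⟨h1, h2⟩ := six_mul_finrank_Sy_le (isAct_rhoF k hn (neg_one_mem M)) (Gamma0_le hNM)
    (T_mem N) (S_not_mem hN) c c' (by rw [hV]; exact h) (by rw [hV]; exact h')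
  rw [hV] at h1
  let Φ : Sym k N M n →ₗ[k] Sy (Gamma0 M) (Gamma0 N) (rhoF k n) :=
    (toSyF k N M n).codRestrict _ (toSyF_mem hNM)
  have hΦ : Function.Injective Φ := fun φ ψ hφψ =>
    toSyF_injective N M n (congrArg Subtype.val hφψ)
  have h3 := LinearMap.finrank_le_finrank_of_injective hΦ
  exact ⟨(Nat.mul_le_mul_left 6 h3).trans h1, FiniteDimensional.of_injective Φ hΦ⟩

/-- **No torsion** (`4 ∣ M` or `9 ∣ M`), any field: `6 dim ≤ [SL_2(ℤ) : Γ₀(M)] (n + 1)`. -/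
theorem finrank_Sym_le_of_free (k : Type) [Field k] {N M n : ℕ} [NeZero M] (hN : 2 ≤ N)
    (hNM : N ∣ M) (h49 : 4 ∣ M ∨ 9 ∣ M) (hn : Even n) :
    6 * finrank k (Sym k N M n) ≤ Nat.card (Qt (Gamma0 M)) * (n + 1) ∧
      FiniteDimensional k (Sym k N M n) := by
  obtain ⟨h1, h2⟩ := finrank_Sym_le (k := k) hN hNM hn 0 0
    (fun g hg => absurd hg (no_four (h49.elim Or.inr
      (fun h => Or.inl ((by norm_num : 3 ∣ 9).trans h))) g))
    (fun g hg => absurd hg (no_three (h49.elim (fun h => Or.inl ((by norm_num : 2 ∣ 4).trans h))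
      Or.inr) g))
  exact ⟨h1.trans (Nat.mul_le_mul_left _ (by omega)), h2⟩

/-- the number of right cosets is the index -/
lemma card_Qt (Γ : Subgroup G) : Nat.card (Qt Γ) = Γ.index := by
  rw [Subgroup.index]
  exact Nat.card_congr (QuotientGroup.quotientRightRelEquivQuotientLeftRel Γ)

end Gouvea.P5
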