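import Pool.Agent.Work.MP_d3517d_nt.P5.HodgeAbs
import Pool.Agent.Work.MP_d3517d_nt.IharaSumm

/-!
# P5, L4: from `U = W (ι trp - 1)` at level `M p` to `T = trp W ι` at level `M` (MP_d3517d_nt)

`LK`, `LI` are free `ℤ_p`-modules of finite rank, `ι : LK → LI`, `trp : LI → LK`,
`W : LI → LI`, `W ^ 2 = p ^ n`, `trp ι = p + 1`. For `x ≤ n / 2`,
`GE (W (ι trp - 1)) x = GE (trp W ι) x`.
-/

open Polynomial Finset

noncomputable section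

namespace Gouvea.P5

open Pool.Agent.Gouv

variable {p : ℕ} [hp : Fact p.Prime]

/-- the matrix form -/
theorem Gf_TU {E V : Type} [Fintype E] [DecidableEq E] [Fintype V] [DecidableEq V] {n : ℕ}
    (ι : Matrix E V ℤ_[p]) (π : Matrix V E ℤ_[p]) (W : Matrix E E ℤ_[p])
    (hW : W * W = ((p : ℤ_[p]) ^ n) • (1 : Matrix E E ℤ_[p]))
    (hπ : π * ι = ((p : ℤ_[p]) + 1) • (1 : Matrix V V ℤ_[p])) {x : ℝ}
    (hx : x ≤ (n : ℝ) / 2) :
    Gf (toQ (W * (ι * π - 1))) x = Gf (toQ (π * W * ι)) x := by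
  have hW' : toQ W * toQ W = ((p : ℚ_[p]) ^ n) • (1 : Matrix E E ℚ_[p]) := by
    rw [← toQ_mul, hW]
    ext i j
    by_cases hij : i = j
    · subst hij; simp [toQ]
    · simp [toQ, hij]
  have hπ' : toQ π * toQ ι = ((p : ℚ_[p]) + 1) • (1 : Matrix V V ℚ_[p]) := by
    rw [← toQ_mul, hπ]
    ext i j
    by_cases hij : i = j
    · subst hij; simp [toQ]
    · simp [toQ, hij]
  have h := FF_det_U (p := (p : ℝ)) one_lt_pI isNonarch_Qp isNonarch_alg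
    (algebraMap ℚ_[p] (PadicAlgCl p)) norm_alg (p : ℚ_[p]) ((p : ℚ_[p]) ^ n)
    (toQ ι) (toQ π) (toQ W) hW' hπ' (x := x)
    (by rw [Padic.norm_p]; exact inv_le_one_of_one_le₀ one_lt_pI.le) (norm_pow_mul_le hx)
  have e1 : toQ (W * (ι * π - 1)) = toQ W * (toQ ι * toQ π - 1) := by
    rw [toQ_mul, toQ_sub_one, toQ_mul]
  have e2 : toQ (π * W * ι) = toQ π * toQ W * toQ ι := by
    rw [toQ_mul, toQ_mul]
  have h1 := Gf_eq (toQ (W * (ι * π - 1))) x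
  rw [e1, h] at h1
  rw [e1, e2]
  have h2 : Gf (toQ π * toQ W * toQ ι) x =
      ((((toQ π * toQ W * toQ ι).charpoly.map (algebraMap ℚ_[p] (PadicAlgCl p))).roots.map
        fun a => pp (p : ℝ) a x).sum) := rfl
  rw [h2]
  linarith

variable {LK LI : Type} [AddCommGroup LK] [Module ℤ_[p] LK] [Module.Free ℤ_[p] LK]
  [Module.Finite ℤ_[p] LK] [AddCommGroup LI] [Module ℤ_[p] LI] [Module.Free ℤ_[p] LI]
  [Module.Finite ℤ_[p] LI]

/-- **L4.** -/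
theorem GE_TU {n : ℕ} (ι : LK →ₗ[ℤ_[p]] LI) (trp : LI →ₗ[ℤ_[p]] LK) (W : LI →ₗ[ℤ_[p]] LI)
    (hW : ∀ x, W (W x) = (p : ℤ_[p]) ^ n • x)
    (hπ : ∀ x, trp (ι x) = ((p : ℤ_[p]) + 1) • x) {x : ℝ} (hx : x ≤ (n : ℝ) / 2) :
    GE (W ∘ₗ (ι ∘ₗ trp - LinearMap.id)) x = GE (trp ∘ₗ W ∘ₗ ι) x := by
  classical
  let bK := Module.Free.chooseBasis ℤ_[p] LK
  let bI := Module.Free.chooseBasis ℤ_[p] LI
  rw [GE_eq_Gf bI, GE_eq_Gf bK]
  have h1 : LinearMap.toMatrix bI bI (W ∘ₗ (ι ∘ₗ trp - LinearMap.id)) =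
      LinearMap.toMatrix bI bI W *
        (LinearMap.toMatrix bK bI ι * LinearMap.toMatrix bI bK trp - 1) := by
    rw [LinearMap.toMatrix_comp bI bI bI, map_sub, LinearMap.toMatrix_comp bI bK bI,
      LinearMap.toMatrix_id]
  have h2 : LinearMap.toMatrix bK bK (trp ∘ₗ W ∘ₗ ι) =
      LinearMap.toMatrix bI bK trp * LinearMap.toMatrix bI bI W *
        LinearMap.toMatrix bK bI ι := by
    rw [LinearMap.toMatrix_comp bK bI bK, LinearMap.toMatrix_comp bK bI bI, Matrix.mul_assoc]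
  rw [h1, h2]
  refine Gf_TU _ _ _ ?_ ?_ hx
  · rw [← LinearMap.toMatrix_comp bI bI bI]
    have : W ∘ₗ W = ((p : ℤ_[p]) ^ n) • (LinearMap.id : LI →ₗ[ℤ_[p]] LI) := by
      ext y
      simp [hW]
    rw [this, map_smul, LinearMap.toMatrix_id]
  · rw [← LinearMap.toMatrix_comp bK bI bK]
    have : trp ∘ₗ ι = ((p : ℤ_[p]) + 1) • (LinearMap.id : LK →ₗ[ℤ_[p]] LK) := by
      ext y
      simp [hπ, add_smul]
    rw [this, map_smul, LinearMap.toMatrix_id]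

/-- The same for stable submodules `A ⊆ LI`, `B ⊆ LK`. -/
theorem GE_TU_restrict {n : ℕ} (ι : LK →ₗ[ℤ_[p]] LI) (trp : LI →ₗ[ℤ_[p]] LK)
    (W : LI →ₗ[ℤ_[p]] LI)
    (hW : ∀ x, W (W x) = (p : ℤ_[p]) ^ n • x)
    (hπ : ∀ x, trp (ι x) = ((p : ℤ_[p]) + 1) • x)
    (A : Submodule ℤ_[p] LI) (B : Submodule ℤ_[p] LK)
    (hAW : A ≤ A.comap W) (hBA : B ≤ A.comap ι) (hAB : A ≤ B.comap trp)
    (hU : A ≤ A.comap (W ∘ₗ (ι ∘ₗ trp - LinearMap.id)))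
    (hT : B ≤ B.comap (trp ∘ₗ W ∘ₗ ι)) {x : ℝ} (hx : x ≤ (n : ℝ) / 2) :
    GE ((W ∘ₗ (ι ∘ₗ trp - LinearMap.id)).restrict hU) x =
      GE ((trp ∘ₗ W ∘ₗ ι).restrict hT) x := by
  have h := GE_TU (LK := B) (LI := A) (n := n) (ι.restrict hBA) (trp.restrict hAB)
    (W.restrict hAW) (fun y => Subtype.ext (hW y)) (fun y => Subtype.ext (hπ y)) hx
  have e1 : (W.restrict hAW) ∘ₗ ((ι.restrict hBA) ∘ₗ (trp.restrict hAB) - LinearMap.id) =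
      (W ∘ₗ (ι ∘ₗ trp - LinearMap.id)).restrict hU := by
    ext y
    rfl
  have e2 : (trp.restrict hAB) ∘ₗ (W.restrict hAW) ∘ₗ (ι.restrict hBA) =
      (trp ∘ₗ W ∘ₗ ι).restrict hT := by
    ext y
    rfl
  rwa [e1, e2] at h

end Gouvea.P5
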