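import Pool.Agent.Work.MP_d3517d_nt.P5.RedX
import Pool.Agent.Work.MP_d3517d_nt.P5.TU
import Pool.Agent.Work.MP_d3517d_nt.P5.SymCountF
import Pool.Agent.Work.MP_d3517d_nt.P5.LatBasis
import Pool.Agent.Work.MP_d3517d_nt.P5.GEApx
import Pool.Agent.Work.MP_d3517d_nt.ES.DimUpper
import Pool.Agent.Work.MP_d3517d_nt.Fin.SrcApx
import Pool.Agent.Work.MP_d3517d_nt.P5.MainX

/-!
# P5: sharpness of the ambient lattice (MP_d3517d_nt)

`N ≥ 2`, `N ∣ M`, `p ∤ M`, `4 ∣ M` or `9 ∣ M`.  `L_n = Sym ℤ_p N (M p) n` with its Atkin-Lehner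
operator `W`.  `amb`: `HH W x - GE (W (ι trp - 1)) x ≤ η (n + 1) ^ 2` for `x (p + 1) ≤ n`, outside a
set of weights of density zero.
-/

open Polynomial Finset Filter Topology Module CongruenceSubgroup
open scoped MatrixGroups

noncomputable section

namespace Gouvea.P5

open Pool.Agent Pool.Agent.Gouv Gouvea.Sys Gouvea.PX Gouvea.ES Gouvea.Fin

variable {p : ℕ} [hp : Fact p.Prime]

/-! ### the Hodge function -/

/-- The upper bound of the Hodge function. -/
theorem HH_le {N M L n : ℕ} [NeZero L] (hN : 2 ≤ N) (hNL : N ∣ L) (hpL : p ∣ L)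
    (h49 : 4 ∣ L ∨ 9 ∣ L) (hn : Even n) {a b c d : ℤ} (hNM : (N : ℤ) ∣ M)
    (hdet : (p : ℤ) * a * d - M * b * c = 1) (w : SN N)
    (hw : w.1 = !![(p : ℤ) * a, b; M * p * c, p * d])
    [Module.Finite ℤ_[p] (Sym ℤ_[p] N L n)] [Module.Free ℤ_[p] (Sym ℤ_[p] N L n)]
    (W : Sym ℤ_[p] N L n →ₗ[ℤ_[p]] Sym ℤ_[p] N L n)
    (hW : ∀ φ : Sym ℤ_[p] N L n, (W φ).1 = act ℤ_[p] N n w φ.1)
    (hWW : ∀ x, W (W x) = (p : ℤ_[p]) ^ n • x) {x : ℕ} (hx : x ≤ n + 1) :
    HH W x ≤ ((Gamma0 L).index : ℝ) * (x * (x + 1)) / 12 := by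
  have hk : ((L : ℕ) : ZMod p) = 0 := (ZMod.natCast_eq_zero_iff L p).2 hpL
  rw [HH_eq hWW (redX p N L n) hx]
  have h1 : ∀ k ∈ range x, (Module.finrank (ZMod p) ((redX p N L n).img (Fs W (n - k))) : ℝ) ≤
      ((Gamma0 L).index : ℝ) * (k + 1) / 6 := by
    intro k hk'
    have hkx : k ≤ n := by
      have := Finset.mem_range.1 hk'
      omega
    have h2 := redX_img_Fs_le hNM hdet w hw W hW (s := n - k) (Nat.sub_le _ _)
    rw [Nat.sub_sub_self hkx] at h2
    obtain ⟨h3, h4⟩ := finrank_SymLe_le_of_free (k := ZMod p) hN hNL hk h49 hn hkx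
    have : FiniteDimensional (ZMod p) (symLe (ZMod p) N L n k) :=
      LinearEquiv.finiteDimensional (symLeEquiv (ZMod p) N L n k).symm
    have h5 := Submodule.finrank_mono h2
    rw [finrank_symLe] at h5
    rw [card_Qt] at h3
    have h6 : 6 * Module.finrank (ZMod p) ((redX p N L n).img (Fs W (n - k))) ≤
        (Gamma0 L).index * (k + 1) := (Nat.mul_le_mul_left 6 h5).trans h3
    have h7 : (6 : ℝ) * Module.finrank (ZMod p) ((redX p N L n).img (Fs W (n - k))) ≤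
        ((Gamma0 L).index : ℝ) * (k + 1) := by exact_mod_cast h6
    linarith
  refine (Finset.sum_le_sum h1).trans (le_of_eq ?_)
  clear h1 hx
  induction x with
  | zero => simp
  | succ x ih =>
    rw [Finset.sum_range_succ, ih]
    push_cast
    ring

/-! ### the Newton function -/

theorem sum_cnt_le_GG {K : Type*} [NormedField K] {q : ℝ} (hq : 1 < q) (s : Multiset K) (x : ℕ) :
    ∑ y ∈ range x, (Gouv.cnt q s (y : ℝ) : ℝ) ≤ GG q s x := by
  induction x with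
  | zero =>
    simp only [Finset.range_zero, Finset.sum_empty]
    exact Multiset.sum_nonneg fun y hy => by
      obtain ⟨l, -, rfl⟩ := Multiset.mem_map.1 hy
      exact Gouv.pp_nonneg hq _ _
  | succ x ih =>
    rw [Finset.sum_range_succ]
    have h1 := (Gouv.slope hq s (show (x : ℝ) ≤ ((x + 1 : ℕ) : ℝ) by push_cast; linarith)).1
    have h2 : (((x + 1 : ℕ) : ℝ) - x) * (Gouv.cnt q s (x : ℝ) : ℝ) = Gouv.cnt q s (x : ℝ) := by
      push_cast
      ring
    rw [h2] at h1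
    unfold GG at ih ⊢
    linarith

/-- The Newton function of a Hecke operator on the lattice of symbols. -/
theorem GE_rhoN {N M n : ℕ} [NeZero M] (hM : M ≠ 0) (hNM : N ∣ M)
    [Module.Finite ℤ_[p] (Sym ℤ_[p] N M n)] [Module.Free ℤ_[p] (Sym ℤ_[p] N M n)]
    (r : HR) (x : ℝ) :
    GE (rhoN ℤ_[p] N M n hNM r) x =
      GG (p : ℝ) ((Sys (matRep (intRep (PadicAlgCl p) (AZ hM hNM n)))).map fun χ => χ r) x := by
  rw [GE_eq_Gf (bas hM hNM n ℤ_[p])]
  have h1 : LinearMap.toMatrix (bas hM hNM n ℤ_[p]) (bas hM hNM n ℤ_[p])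
      (rhoN ℤ_[p] N M n hNM r) = intP p (AZ hM hNM n) r := toMatrix_rhoN hM hNM n r
  rw [h1]
  have h2 : Gf (toQ (intP p (AZ hM hNM n) r)) x =
      GG (p : ℝ) (specM (toQ (intP p (AZ hM hNM n) r))) x := Gf_eq_GG _ _
  rw [h2, specM_toQ, toK_intP]

/-- The systems of eigenvalues on the symbols are those of the integral matrices. -/
theorem Sys_rhoN_eq {K : Type} [Field K] [IsAlgClosed K] [CharZero K] {N M n : ℕ} [NeZero M]
    (hM : M ≠ 0) (hNM : N ∣ M) [FiniteDimensional K (Sym K N M n)] :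
    Sys (rhoN K N M n hNM) = Sys (matRep (intRep K (AZ hM hNM n))) := by
  refine Sys_congr (bas hM hNM n K).equivFun fun r u => ?_
  have h1 := LinearMap.toMatrix_mulVec_repr (bas hM hNM n K) (bas hM hNM n K)
    (rhoN K N M n hNM r) u
  rw [toMatrix_rhoN] at h1
  exact h1.symm

open Classical in
/-- The lower bound of the Newton function of `T_p`. -/
theorem GE_Tp_ge (j : algebraicClosure ℚ ℂ →+* PadicAlgCl p) {N M n : ℕ} [NeZero M] (hN : 2 ≤ N)
    (hNM : N ∣ M) (hn : Even n) (hn2 : 2 ≤ n)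
    [Module.Finite ℤ_[p] (Sym ℤ_[p] N M n)] [Module.Free ℤ_[p] (Sym ℤ_[p] N M n)]
    (c : Nat.Primes → PadicAlgCl p) (x : ℕ) :
    2 * ∑ y ∈ range x, (Fin.cnt j M (n + 2) ∅ c (y : ℝ) : ℝ) ≤
      GE (rhoN ℤ_[p] N M n hNM (Xp p)) x := by
  have hM : M ≠ 0 := NeZero.ne M
  have := finiteDimensional_SymX ℂ hN hNM hn
  obtain ⟨r, -, hr⟩ := Sys_SymX hN hNM hn hn2
  rw [Sys_rhoN_eq hM] at hr
  rw [GE_rhoN hM]
  refine le_trans ?_ (sum_cnt_le_GG one_lt_pF _ x)
  rw [Finset.mul_sum]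
  refine Finset.sum_le_sum fun y _ => ?_
  have h1 : Gouv.cnt (p : ℝ) ((Sys (matRep (intRep (PadicAlgCl p) (AZ hM hNM n)))).map
      fun χ => χ (Xp p)) (y : ℝ) = ((Sys (matRep (intRep (PadicAlgCl p) (AZ hM hNM n)))).filter
        fun χ => (p : ℝ) ^ (-(y : ℝ)) ≤ ‖χ (Xp p)‖).card := by
    unfold Gouv.cnt
    rw [Multiset.filter_map, Multiset.card_map]
    rfl
  have h2 := card_emb (AZ hM hNM n) j fun g => (p : ℝ) ^ (-(y : ℝ)) ≤ ‖g (Xp p)‖
  have h3 : Fin.cnt j M (n + 2) ∅ c (y : ℝ) = ((Sys (rhoC M (n + 2))).filter fun χ =>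
      (p : ℝ) ^ (-(y : ℝ)) ≤ ‖emb p j (χ (Xp p))‖).card := by
    unfold Fin.cnt
    congr 1
    refine Multiset.filter_congr fun χ _ => ?_
    rw [slp, vp_le_iff (Nat.cast_nonneg y)]
    exact ⟨fun h => h.2, fun h => ⟨fun q hq => absurd hq (Set.notMem_empty q), h⟩⟩
  rw [h1, ← h2, hr, Multiset.filter_add, Multiset.filter_add, Multiset.card_add,
    Multiset.card_add, h3]
  push_cast
  have h4 : (0 : ℝ) ≤ ((r.filter fun χ => (p : ℝ) ^ (-(y : ℝ)) ≤ ‖emb p j (χ (Xp p))‖).card : ℝ) :=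
    Nat.cast_nonneg _
  linarith

/-! ### the index -/

/-- the index of `Γ₀(M p)` in `Γ₀(M)` -/
theorem index_Gamma0_mul_le {p M : ℕ} [hp : Fact p.Prime] (hpM : ¬ p ∣ M) :
    (Gamma0 (M * p)).index ≤ (p + 1) * (Gamma0 M).index := by
  classical
  have hle : Gamma0 (M * p) ≤ Gamma0 M := by
    intro g hg
    rw [Gamma0_mem, ZMod.intCast_zmod_eq_zero_iff_dvd] at hg ⊢
    exact (by exact_mod_cast Nat.dvd_mul_right M p : (M : ℤ) ∣ ((M * p : ℕ) : ℤ)).trans hg
  rw [← Subgroup.relIndex_mul_index hle]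
  refine Nat.mul_le_mul_right _ ?_
  set f : SL(2, ℤ) → Option (ZMod p) := fun g =>
    if ((g 1 0 : ℤ) : ZMod p) = 0 then none else some ((g 1 1 : ℤ) / ((g 1 0 : ℤ) : ZMod p)) with hf
  have key : ∀ g g' : SL(2, ℤ), g ∈ Gamma0 M → g' ∈ Gamma0 M → f g = f g' →
      g * g'⁻¹ ∈ Gamma0 (M * p) := by
    intro g g' hg hg' h
    have h1 : (g * g'⁻¹) 1 0 = g 1 0 * g' 1 1 - g 1 1 * g' 1 0 := by
      rw [Matrix.SpecialLinearGroup.coe_mul, Matrix.SpecialLinearGroup.SL2_inv_expl,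
        Matrix.mul_apply, Fin.sum_univ_two]
      simp
      ring
    rw [Gamma0_mem, h1, ZMod.intCast_zmod_eq_zero_iff_dvd]
    have h2 : (M : ℤ) ∣ g 1 0 * g' 1 1 - g 1 1 * g' 1 0 := by
      rw [Gamma0_mem, ZMod.intCast_zmod_eq_zero_iff_dvd] at hg hg'
      exact dvd_sub (hg.mul_right _) (hg'.mul_left _)
    have h3 : (p : ℤ) ∣ g 1 0 * g' 1 1 - g 1 1 * g' 1 0 := by
      rw [← ZMod.intCast_zmod_eq_zero_iff_dvd]
      push_cast
      simp only [hf] at h
      split_ifs at h with c1 c2 c2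
      · rw [c1, c2]
        ring
      · have := Option.some_injective _ h
        rw [div_eq_div_iff c1 c2] at this
        linear_combination (-1 : ZMod p) * this
    have h4 : IsCoprime (M : ℤ) (p : ℤ) := by
      rw [Nat.isCoprime_iff_coprime]
      exact ((Nat.Prime.coprime_iff_not_dvd hp.out).2 hpM).symm
    push_cast
    exact h4.mul_dvd h2 h3
  have hcard : Nat.card (Option (ZMod p)) = p + 1 := by
    rw [Nat.card_eq_fintype_card, Fintype.card_option, ZMod.card]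
  rw [← hcard, Subgroup.relIndex, Subgroup.index]
  refine Nat.card_le_card_of_injective
    (fun q : (Gamma0 M) ⧸ (Gamma0 (M * p)).subgroupOf (Gamma0 M) => f ((q.out : Gamma0 M) : SL(2, ℤ))⁻¹) ?_
  intro q q' h
  have h1 := key _ _ ((Gamma0 M).inv_mem q.out.2) ((Gamma0 M).inv_mem q'.out.2) h
  rw [inv_inv] at h1
  rw [← QuotientGroup.out_eq' q, ← QuotientGroup.out_eq' q', QuotientGroup.eq]
  rw [Subgroup.mem_subgroupOf]
  exact h1

/-! ### sharpness -/

theorem amb_arith {P I D δ β n x : ℝ} (hP : 1 ≤ P) (hI : 0 ≤ I) (hD : 0 ≤ D) (hδ : 0 ≤ δ)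
    (hn : 0 < n) (hx : x = 0 ∨ 1 ≤ x) (hxn : x * P ≤ n)
    (h1 : (I * (n + 2) - D) / 12 - δ * (n + 1) ≤ β * (n / P)) :
    P * I * (x * (x + 1)) / 12 - (β * (x * (x - 1)) - 2 * (δ * (n + 1)) * x) ≤
      (n + 1) * (D / 12 + I / 6) + 3 * δ * (n + 1) ^ 2 := by
  have hn1 : 0 < n + 1 := by linarith
  rcases hx with rfl | hx
  · have h2 : 0 ≤ (n + 1) * (D / 12 + I / 6) + 3 * δ * (n + 1) ^ 2 := by positivity
    simpa using h2
  · have hP0 : 0 < P := by linarith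
    set u := x * (x - 1) with hu
    have hu0 : 0 ≤ u := mul_nonneg (by linarith) (by linarith)
    set t := P * u / n with ht
    have htn : t * n = P * u := by
      rw [ht]
      field_simp
    have ht0 : 0 ≤ t := by positivity
    have htx : t ≤ x - 1 := by
      rw [ht, div_le_iff₀ hn, hu]
      have h3 : 0 ≤ (x - 1) * (n - x * P) := mul_nonneg (by linarith) (by linarith)
      nlinarith
    have hxn' : x ≤ n := by nlinarith
    have htn' : t ≤ n := by linarith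
    have h4 : ((I * (n + 2) - D) / 12 - δ * (n + 1)) * t ≤ β * u := by
      have h5 := mul_le_mul_of_nonneg_right h1 ht0
      have h6 : β * (n / P) * t = β * u := by
        rw [ht]
        field_simp
      rw [h6] at h5
      exact h5
    have h7 : P * I * (x * (x + 1)) / 12 = I * (t * n) / 12 + P * I * x / 6 := by
      rw [htn, hu]
      ring
    have h8 : P * I * x / 6 ≤ I * n / 6 := by
      have : I * (x * P) ≤ I * n := mul_le_mul_of_nonneg_left hxn hI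
      nlinarith
    have h9 : δ * (n + 1) * x ≤ δ * (n + 1) * n :=
      mul_le_mul_of_nonneg_left hxn' (by positivity)
    have h10 : t * (D / 12 + δ * (n + 1)) ≤ n * (D / 12 + δ * (n + 1)) :=
      mul_le_mul_of_nonneg_right htn' (by positivity)
    have h11 : 0 ≤ I * t := mul_nonneg hI ht0
    have h12 : 0 ≤ δ * (n + 1) := by positivity
    rw [h7]
    nlinarith

open Classical in
/-- **The ambient lattice is sharp.** -/
theorem amb (j : algebraicClosure ℚ ℂ →+* PadicAlgCl p) {N M : ℕ} [NeZero M] (hN : 2 ≤ N)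
    (hNM : N ∣ M) (h49 : 4 ∣ M ∨ 9 ∣ M) (hpM : ¬ p ∣ M) {β : ℕ → ℝ}
    (c : Nat.Primes → PadicAlgCl p)
    (hA : Apx ((p : ℝ) + 1) (fun n x => (Fin.cnt j M (n + 2) ∅ c x : ℝ))
      (fun n => (Fin.tot j M (n + 2) ∅ c : ℝ)) β) {η : ℝ} (hη : 0 < η) :
    ∃ E : Set ℕ, D0 E ∧ ∀ n ∉ E, Even n →
      ∀ [Module.Finite ℤ_[p] (Sym ℤ_[p] N M n)] [Module.Free ℤ_[p] (Sym ℤ_[p] N M n)]
        [Module.Finite ℤ_[p] (Sym ℤ_[p] N (M * p) n)] [Module.Free ℤ_[p] (Sym ℤ_[p] N (M * p) n)]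
        (iota : Sym ℤ_[p] N M n →ₗ[ℤ_[p]] Sym ℤ_[p] N (M * p) n)
        (trp : Sym ℤ_[p] N (M * p) n →ₗ[ℤ_[p]] Sym ℤ_[p] N M n)
        (W : Sym ℤ_[p] N (M * p) n →ₗ[ℤ_[p]] Sym ℤ_[p] N (M * p) n)
        (M' : ℕ) (a b c d : ℤ) (w : SN N), (N : ℤ) ∣ M' → (p : ℤ) * a * d - M' * b * c = 1 →
        w.1 = !![(p : ℤ) * a, b; M' * p * c, p * d] →
        (∀ φ : Sym ℤ_[p] N (M * p) n, (W φ).1 = act ℤ_[p] N n w φ.1) →
        (∀ x, W (W x) = (p : ℤ_[p]) ^ n • x) →
        (∀ x, trp (iota x) = ((p : ℤ_[p]) + 1) • x) →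
        (∀ x, trp (W (iota x)) = rhoN ℤ_[p] N M n hNM (Xp p) x) →
        ∀ x : ℕ, (x : ℝ) * (p + 1) ≤ n →
          HH W x - GE (W ∘ₗ (iota ∘ₗ trp - LinearMap.id)) x ≤ η * (n + 1) ^ 2 := by
  set I : ℝ := ((Gamma0 M).index : ℝ) with hI
  have hI0 : 0 ≤ I := Nat.cast_nonneg _
  set D : ℝ := 12 * (I ^ 2 + I) with hD
  have hD0 : 0 ≤ D := by positivity
  obtain ⟨E, hE, h⟩ := hA (η / 6) (by linarith)
  obtain ⟨n0, hn0⟩ := exists_nat_ge (2 * (D / 12 + I / 6) / η + 2)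
  refine ⟨E ∪ {n | n < n0}, hE.union (D0.of_finite (Set.finite_lt_nat n0)), ?_⟩
  intro n hnE hn _ _ _ _ iota trp W M' a b c' d w hNM' hdet hw hW hWW hti htW x hx
  rw [Set.mem_union, not_or, Set.mem_ofPred_eq, not_lt] at hnE
  obtain ⟨hnE, hn1⟩ := hnE
  obtain ⟨hcnt, htot⟩ := h n hnE
  have hn2 : 2 * (D / 12 + I / 6) / η + 2 ≤ (n : ℝ) := hn0.trans (by exact_mod_cast hn1)
  have h0 : 0 ≤ 2 * (D / 12 + I / 6) / η := by positivity
  have hn3 : (2 : ℝ) ≤ n := by linarith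
  have hn4 : 2 ≤ n := by exact_mod_cast hn3
  have hp1 : (1 : ℝ) < p := one_lt_pF
  have hp0 : (0 : ℝ) < (p : ℝ) + 1 := by linarith
  have : NeZero (M * p) := ⟨mul_ne_zero (NeZero.ne M) hp.out.ne_zero⟩
  -- the Hodge function
  have hx2 : (x : ℝ) ≤ n / 2 := by
    have : (x : ℝ) * 2 ≤ x * (p + 1) :=
      mul_le_mul_of_nonneg_left (by linarith) (Nat.cast_nonneg x)
    linarith
  have hxn : x ≤ n := by
    have : (x : ℝ) ≤ n := by linarith
    exact_mod_cast this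
  have hH := HH_le (L := M * p) hN (hNM.mul_right p) (Nat.dvd_mul_left p M)
    (h49.imp (fun h => h.mul_right p) fun h => h.mul_right p) hn hNM' hdet w hw W hW hWW
    (x := x) (by omega)
  have hidx : ((Gamma0 (M * p)).index : ℝ) ≤ (p + 1) * I := by
    have := index_Gamma0_mul_le (p := p) hpM
    rw [hI]
    exact_mod_cast this
  have hH' : HH W x ≤ ((p : ℝ) + 1) * I * (x * (x + 1)) / 12 := by
    refine hH.trans ?_
    have : ((Gamma0 (M * p)).index : ℝ) * (x * (x + 1)) ≤ (p + 1) * I * (x * (x + 1)) :=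
      mul_le_mul_of_nonneg_right hidx (by positivity)
    linarith
  -- the Newton function
  have hG : GE (W ∘ₗ (iota ∘ₗ trp - LinearMap.id)) x = GE (rhoN ℤ_[p] N M n hNM (Xp p)) x := by
    rw [GE_TU iota trp W hWW hti hx2]
    congr 1
    ext1 y
    exact htW y
  have hG2 := GE_Tp_ge j hN hNM hn hn4 c x
  have hG3 : β n * ((x : ℝ) * (x - 1)) - 2 * (η / 6 * (n + 1)) * x ≤
      2 * ∑ y ∈ range x, (Fin.cnt j M (n + 2) ∅ c (y : ℝ) : ℝ) := by
    have h1 : ∀ y ∈ range x, β n * (y : ℝ) - η / 6 * (n + 1) ≤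
        (Fin.cnt j M (n + 2) ∅ c (y : ℝ) : ℝ) := by
      intro y hy
      have hy' : (y : ℝ) ≤ x := by exact_mod_cast (Finset.mem_range.1 hy).le
      have h2 := (abs_le.1 (hcnt y (Nat.cast_nonneg y) (by
        rw [le_div_iff₀ hp0]
        exact (mul_le_mul_of_nonneg_right hy' hp0.le).trans hx))).1
      linarith
    have h2 := Finset.sum_le_sum h1
    rw [Finset.sum_sub_distrib, ← Finset.mul_sum, Finset.sum_const, Finset.card_range,
      nsmul_eq_mul] at h2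
    have h3 : (∑ y ∈ range x, (y : ℝ)) * 2 = x * (x - 1) := by
      clear h1 h2 hx hx2 hxn hH hH' hG hG2
      induction x with
      | zero => simp
      | succ x ih =>
        rw [Finset.sum_range_succ, add_mul, ih]
        push_cast
        ring
    rw [← h3]
    linarith
  -- the total
  have htot2 : (I * ((n : ℝ) + 2) - D) / 12 ≤ Fin.tot j M (n + 2) ∅ c := by
    have h1 := Pool.Agent.Gouv.ESDim.finrank_cuspForm_ge M (n + 2) (hn.add even_two)
    have h2 : Fin.tot j M (n + 2) ∅ c = Module.finrank ℂ (Gouvea.Cusp M (n + 2)) := by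
      rw [← card_Sys (rhoC M (n + 2))]
      unfold Fin.tot
      rw [Multiset.filter_eq_self.2]
      intro χ _ q hq
      exact absurd hq (Set.notMem_empty q)
    have h3 : ((Gamma0 M).index : ℝ) * ((n : ℝ) + 2) ≤
        12 * (Module.finrank ℂ (Gouvea.Cusp M (n + 2)) : ℝ) +
          12 * (((Gamma0 M).index : ℝ) ^ 2 + (Gamma0 M).index) := by exact_mod_cast h1
    rw [h2]
    rw [hD, hI]
    linarith
  have hfin := amb_arith (P := (p : ℝ) + 1) (I := I) (D := D) (δ := η / 6) (β := β n)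
    (n := n) (x := x) (by linarith) hI0 hD0 (by linarith) (by linarith)
    (by
      rcases Nat.eq_zero_or_pos x with h | h
      · left; simp [h]
      · right; exact_mod_cast h) hx (by
      have := (abs_le.1 htot).2
      linarith)
  have hlast : ((n : ℝ) + 1) * (D / 12 + I / 6) ≤ η / 2 * (n + 1) ^ 2 := by
    have h1 : D / 12 + I / 6 ≤ η / 2 * (n + 1) := by
      have h2 : 2 * (D / 12 + I / 6) / η ≤ n + 1 := by linarith
      rw [div_le_iff₀ hη] at h2
      linarith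
    have h2 := mul_le_mul_of_nonneg_left h1 (show (0 : ℝ) ≤ (n : ℝ) + 1 by linarith)
    nlinarith
  rw [hG]
  nlinarith

end Gouvea.P5
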