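import Mathlib

/-!
# P5, level one: index inequalities for lattices (MP_d3517d_nt)
-/

noncomputable section

namespace Gouvea.P5.One

variable {V : Type*} [AddCommGroup V]

/-- Upper bound: product formula. -/
theorem relIndex_inf_mul {N P Q : AddSubgroup V} (hP : N ≤ P) (hQ : N ≤ Q) :
    N.relIndex (P ⊓ Q) * N.index = N.relIndex P * N.relIndex Q * (P ⊔ Q).index := by
  have h1 : N.relIndex (P ⊔ Q) * (P ⊔ Q).index = N.index :=
    AddSubgroup.relIndex_mul_index (hP.trans le_sup_left)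
  have h2 : N.relIndex P * P.relIndex (P ⊔ Q) = N.relIndex (P ⊔ Q) :=
    AddSubgroup.relIndex_mul_relIndex N P (P ⊔ Q) hP le_sup_left
  have h3 : P.relIndex (P ⊔ Q) = P.relIndex Q := AddSubgroup.relIndex_sup_left Q P
  have h4 : N.relIndex (P ⊓ Q) * (P ⊓ Q).relIndex Q = N.relIndex Q :=
    AddSubgroup.relIndex_mul_relIndex N (P ⊓ Q) Q (le_inf hP hQ) inf_le_right
  have h5 : (P ⊓ Q).relIndex Q = P.relIndex Q := AddSubgroup.inf_relIndex_right P Q
  rw [← h1, ← h2, h3, ← h4, h5]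
  ring

/-- The distributivity defect. -/
theorem relIndex_defect {N A B : AddSubgroup V} (hN : (A ⊓ N ⊔ B ⊓ N).relIndex N ≠ 0) :
    (A ⊓ N ⊔ A ⊓ B).relIndex (A ⊓ (N ⊔ B)) ≤ (A ⊓ N ⊔ B ⊓ N).relIndex N ∧
      (A ⊓ N ⊔ A ⊓ B).relIndex (A ⊓ (N ⊔ B)) ≠ 0 := by
  set P : AddSubgroup (V × V) :=
    { carrier := {q | q.1 ∈ N ∧ q.2 ∈ B ∧ q.1 + q.2 ∈ A}
      add_mem' := fun {a b} h h' => ⟨N.add_mem h.1 h'.1, B.add_mem h.2.1 h'.2.1, by
        have := A.add_mem h.2.2 h'.2.2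
        rwa [add_add_add_comm] at this⟩
      zero_mem' := ⟨N.zero_mem, B.zero_mem, by simp⟩
      neg_mem' := fun {a} h => ⟨N.neg_mem h.1, B.neg_mem h.2.1, by
        have := A.neg_mem h.2.2
        rwa [neg_add] at this⟩ } with hP
  let f : P →+ V := ((AddMonoidHom.fst V V) + (AddMonoidHom.snd V V)).comp P.subtype
  let g : P →+ V := (AddMonoidHom.fst V V).comp P.subtype
  have hf : f.range = A ⊓ (N ⊔ B) := by
    ext a
    constructor
    · rintro ⟨⟨q, hq⟩, rfl⟩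
      refine ⟨hq.2.2, ?_⟩
      exact AddSubgroup.mem_sup.2 ⟨q.1, hq.1, q.2, hq.2.1, rfl⟩
    · rintro ⟨ha, hb⟩
      obtain ⟨n, hn, b, hb', rfl⟩ := AddSubgroup.mem_sup.1 hb
      exact ⟨⟨(n, b), hn, hb', ha⟩, rfl⟩
  have hg : g.range ≤ N := by
    rintro _ ⟨⟨q, hq⟩, rfl⟩
    exact hq.1
  have hle : (A ⊓ N ⊔ B ⊓ N).comap g ≤ (A ⊓ N ⊔ A ⊓ B).comap f := by
    rintro ⟨q, hq⟩ hq'
    obtain ⟨s, hs, r, hr, hsr⟩ := AddSubgroup.mem_sup.1 hq'
    change s + r = q.1 at hsr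
    refine AddSubgroup.mem_sup.2 ⟨s, hs, r + q.2, ⟨?_, B.add_mem hr.1 hq.2.1⟩, ?_⟩
    · have h1 : r + q.2 = (q.1 + q.2) - s := by rw [← hsr]; abel
      rw [h1]
      exact A.sub_mem hq.2.2 hs.1
    · show s + (r + q.2) = q.1 + q.2
      rw [← hsr]
      abel
  have h1 : ((A ⊓ N ⊔ B ⊓ N).comap g).index ≤ (A ⊓ N ⊔ B ⊓ N).relIndex N := by
    rw [AddSubgroup.index_comap]
    exact AddSubgroup.relIndex_le_of_le_right hg hN
  have h2 : ((A ⊓ N ⊔ B ⊓ N).comap g).index ≠ 0 := by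
    rw [AddSubgroup.index_comap]
    exact fun h0 => hN (AddSubgroup.relIndex_eq_zero_of_le_right hg h0)
  have h3 : (A ⊓ N ⊔ A ⊓ B).relIndex (A ⊓ (N ⊔ B)) = ((A ⊓ N ⊔ A ⊓ B).comap f).index := by
    rw [AddSubgroup.index_comap, hf]
  have h4 : ((A ⊓ N ⊔ A ⊓ B).comap f).index ∣ ((A ⊓ N ⊔ B ⊓ N).comap g).index :=
    AddSubgroup.index_dvd_of_le hle
  rw [h3]
  exact ⟨(Nat.le_of_dvd (Nat.pos_of_ne_zero h2) h4).trans h1, fun h0 => h2 (by
    rw [h0] at h4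
    exact Nat.eq_zero_of_zero_dvd h4)⟩

/-- Lower bound. -/
theorem index_le_mul {N A B : AddSubgroup V}
    (hd : (A ⊓ N ⊔ B ⊓ N).relIndex N ≠ 0) :
    N.index ≤ N.relIndex (A ⊓ B) * (N ⊔ A).index * (N ⊔ B).index *
      (A ⊓ N ⊔ B ⊓ N).relIndex N := by
  have h1 : N.relIndex (N ⊔ A ⊓ B) * (N ⊔ A ⊓ B).index = N.index :=
    AddSubgroup.relIndex_mul_index le_sup_left
  have h2 : N.relIndex (N ⊔ A ⊓ B) = N.relIndex (A ⊓ B) := AddSubgroup.relIndex_sup_left _ _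
  have hle : N ⊔ A ⊓ B ≤ (N ⊔ A) ⊓ (N ⊔ B) :=
    le_inf (sup_le_sup_left inf_le_left _) (sup_le_sup_left inf_le_right _)
  have h3 : (N ⊔ A ⊓ B).relIndex ((N ⊔ A) ⊓ (N ⊔ B)) * ((N ⊔ A) ⊓ (N ⊔ B)).index =
      (N ⊔ A ⊓ B).index := AddSubgroup.relIndex_mul_index hle
  have h4 : (N ⊔ A) ⊓ (N ⊔ B) = (N ⊔ A ⊓ B) ⊔ (A ⊓ (N ⊔ B)) := by
    rw [sup_inf_assoc_of_le A (le_sup_left : N ≤ N ⊔ B)]
    refine le_antisymm (sup_le (le_sup_left.trans le_sup_left) le_sup_right) ?_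
    refine sup_le (sup_le le_sup_left ?_) le_sup_right
    exact le_trans (inf_le_inf_left _ le_sup_right) le_sup_right
  have h5 : (N ⊔ A ⊓ B).relIndex ((N ⊔ A) ⊓ (N ⊔ B)) ≤ (A ⊓ N ⊔ B ⊓ N).relIndex N := by
    rw [h4, AddSubgroup.relIndex_sup_left]
    refine le_trans ?_ (relIndex_defect hd).1
    exact AddSubgroup.relIndex_le_of_le_left (sup_le (inf_le_right.trans le_sup_left)
      le_sup_right) (relIndex_defect hd).2
  have h6 : ((N ⊔ A) ⊓ (N ⊔ B)).index ≤ (N ⊔ A).index * (N ⊔ B).index :=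
    AddSubgroup.index_inf_le
  rw [← h1, h2, ← h3]
  calc N.relIndex (A ⊓ B) * ((N ⊔ A ⊓ B).relIndex ((N ⊔ A) ⊓ (N ⊔ B)) *
        ((N ⊔ A) ⊓ (N ⊔ B)).index) ≤ N.relIndex (A ⊓ B) * ((A ⊓ N ⊔ B ⊓ N).relIndex N *
        ((N ⊔ A).index * (N ⊔ B).index)) := by gcongr
    _ = _ := by ring

/-! ### chains -/

/-- One step of a chain. -/
theorem relIndex_le_card {H M P : AddSubgroup V} {W : Type*} [AddCommGroup W] (θ : M →+ W)
    (hθ : ∀ v : M, θ v = 0 ↔ (v : V) ∈ H) (C : AddSubgroup W) [Finite C]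
    (hP : ∀ v : M, (v : V) ∈ P → θ v ∈ C) : H.relIndex (M ⊓ P) ≤ Nat.card C := by
  have h1 : H.relIndex (M ⊓ P) = (H.addSubgroupOf M).relIndex ((M ⊓ P).addSubgroupOf M) :=
    (AddSubgroup.relIndex_addSubgroupOf inf_le_left).symm
  have h2 : H.addSubgroupOf M = θ.ker := by
    ext v
    rw [AddSubgroup.mem_addSubgroupOf, AddMonoidHom.mem_ker, hθ]
  rw [h1, h2, AddSubgroup.relIndex_ker]
  refine AddSubgroup.card_le_of_le ?_
  rintro _ ⟨v, hv, rfl⟩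
  exact hP v (AddSubgroup.mem_addSubgroupOf.1 hv).2

/-- The upper bound along a chain. -/
theorem chain_upper (N : ℕ → AddSubgroup V) (h0 : N 0 = ⊤) (hN : ∀ j, N (j + 1) ≤ N j)
    (P : AddSubgroup V) (a : ℕ → ℕ) (x : ℕ)
    (h : ∀ j < x, (N (j + 1)).relIndex (N j ⊓ P) ≤ a j) :
    (N x).relIndex P ≤ ∏ j ∈ Finset.range x, a j := by
  induction x with
  | zero => rw [h0, AddSubgroup.relIndex_top_left, Finset.prod_range_zero]
  | succ x ih =>
    have h1 := AddSubgroup.relIndex_inf_mul_relIndex (N (x + 1)) (N x) P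
    rw [inf_eq_left.2 (hN x)] at h1
    rw [← h1, Finset.prod_range_succ, mul_comm]
    exact Nat.mul_le_mul (ih fun j hj => h j (hj.trans (Nat.lt_succ_self x)))
      (h x (Nat.lt_succ_self x))

theorem card_relIndex_map {W : Type*} [AddCommGroup W] (f : W →+ W) (R : AddSubgroup W) [Finite R]
    (hf : R.map f ≤ R) : (R.map f).relIndex R = Nat.card (f.ker ⊓ R : AddSubgroup W) := by
  have h1 : Nat.card (R.map f) * (R.map f).relIndex R = Nat.card R := by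
    rw [← AddSubgroup.relIndex_bot_left, ← AddSubgroup.relIndex_bot_left (H := R)]
    exact AddSubgroup.relIndex_mul_relIndex ⊥ (R.map f) R bot_le hf
  have h2 : Nat.card (f.ker ⊓ R : AddSubgroup W) * f.ker.relIndex R = Nat.card R := by
    rw [← AddSubgroup.relIndex_bot_left, ← AddSubgroup.relIndex_bot_left (H := R),
      ← AddSubgroup.inf_relIndex_right f.ker R]
    exact AddSubgroup.relIndex_mul_relIndex ⊥ (f.ker ⊓ R) R bot_le inf_le_right
  rw [AddSubgroup.relIndex_ker] at h2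
  have h3 : Nat.card (R.map f) ≠ 0 := by
    have : Finite (R.map f) := Finite.of_injective (AddSubgroup.inclusion hf)
      (AddSubgroup.inclusion_injective hf)
    exact Nat.card_pos.ne'
  have h4 := h1.trans h2.symm
  rw [mul_comm (Nat.card (f.ker ⊓ R : AddSubgroup W))] at h4
  exact Nat.eq_of_mul_eq_mul_left (Nat.pos_of_ne_zero h3) h4

/-- Coinvariants of one step. -/
theorem relIndex_coinv_le {H M : AddSubgroup V} {W : Type*} [AddCommGroup W] [Finite W]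
    (θ : M →+ W) (hθ : ∀ v : M, θ v = 0 ↔ (v : V) ∈ H) (hH : H ≤ M) (f : V →+ V)
    (hf : ∀ v ∈ M, f v ∈ M) (fW : W →+ W) (hfW : ∀ v : M, θ ⟨f v, hf v v.2⟩ = fW (θ v)) :
    (H ⊔ M.map f).relIndex M ≤ Nat.card fW.ker ∧ (H ⊔ M.map f).relIndex M ≠ 0 := by
  have hle : H ⊔ M.map f ≤ M := sup_le hH (by
    rintro _ ⟨v, hv, rfl⟩
    exact hf v hv)
  let D : AddSubgroup M := (M.map f).addSubgroupOf M
  have h1 : (H ⊔ M.map f).relIndex M = ((D.map θ).comap θ).index := by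
    show ((H ⊔ M.map f).addSubgroupOf M).index = _
    congr 1
    ext v
    rw [AddSubgroup.mem_addSubgroupOf, AddSubgroup.mem_comap]
    constructor
    · intro hv
      obtain ⟨h, hh, d, hd, hv'⟩ := AddSubgroup.mem_sup.1 hv
      have hdM : d ∈ M := by
        obtain ⟨u, hu, rfl⟩ := hd
        exact hf u hu
      refine ⟨⟨d, hdM⟩, hd, ?_⟩
      have h2 : v = ⟨h, hH hh⟩ + ⟨d, hdM⟩ := Subtype.ext hv'.symm
      rw [h2, map_add, (hθ ⟨h, hH hh⟩).2 hh, zero_add]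
    · rintro ⟨d, hd, hdv⟩
      have h2 : ((v - d : M) : V) ∈ H := by
        rw [← hθ, map_sub, hdv, sub_self]
      refine AddSubgroup.mem_sup.2 ⟨_, h2, (d : V), hd, ?_⟩
      rw [AddSubgroup.coe_sub, sub_add_cancel]
  have h2 : D.map θ = θ.range.map fW := by
    ext w
    constructor
    · rintro ⟨d, hd, rfl⟩
      obtain ⟨u, hu, hud⟩ := hd
      refine ⟨θ ⟨u, hu⟩, ⟨_, rfl⟩, ?_⟩
      rw [← hfW]
      congr 1
      exact Subtype.ext hud
    · rintro ⟨_, ⟨u, rfl⟩, rfl⟩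
      rw [← hfW]
      exact ⟨⟨f u, hf u u.2⟩, ⟨u, u.2, rfl⟩, rfl⟩
  have h3 : θ.range.map fW ≤ θ.range := by
    rintro _ ⟨_, ⟨u, rfl⟩, rfl⟩
    rw [← hfW]
    exact ⟨_, rfl⟩
  rw [h1, AddSubgroup.index_comap, h2, card_relIndex_map fW θ.range h3]
  exact ⟨AddSubgroup.card_le_of_le inf_le_left, Nat.card_pos.ne'⟩

/-- The lower bound along a chain. -/
theorem chain_lower (N : ℕ → AddSubgroup V) (h0 : N 0 = ⊤) (hN : ∀ j, N (j + 1) ≤ N j)
    (K : AddSubgroup V) (D : ℕ → AddSubgroup V) (hD : ∀ j, D j ≤ K) (a : ℕ → ℕ) (x : ℕ)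
    (h : ∀ j < x, (N (j + 1) ⊔ D j).relIndex (N j) ≤ a j ∧
      (N (j + 1) ⊔ D j).relIndex (N j) ≠ 0) :
    (N x ⊔ K).index ≤ ∏ j ∈ Finset.range x, a j := by
  induction x with
  | zero => rw [h0, top_sup_eq, AddSubgroup.index_top, Finset.prod_range_zero]
  | succ x ih =>
    have hle : N (x + 1) ⊔ K ≤ N x ⊔ K := sup_le_sup_right (hN x) K
    rw [← AddSubgroup.relIndex_mul_index hle, Finset.prod_range_succ, mul_comm]
    refine Nat.mul_le_mul (ih fun j hj => h j (hj.trans (Nat.lt_succ_self x))) ?_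
    have h1 : N x ⊔ K = N x ⊔ (N (x + 1) ⊔ K) := by
      refine le_antisymm (sup_le le_sup_left (le_sup_right.trans le_sup_right)) ?_
      exact sup_le le_sup_left (sup_le ((hN x).trans le_sup_left) le_sup_right)
    rw [h1, AddSubgroup.relIndex_sup_right]
    exact (AddSubgroup.relIndex_le_of_le_left (sup_le_sup_left (hD x) _)
      (h x (Nat.lt_succ_self x)).2).trans (h x (Nat.lt_succ_self x)).1

end Gouvea.P5.One
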