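import Pool.Agent.Work.MP_d3517d_nt.P5.OneDefs
import Pool.Agent.Work.MP_d3517d_nt.P5.LatIndex
import Pool.Agent.Work.MP_d3517d_nt.P5.Amb

/-!
# P5, level one: sharpness of the ambient lattice, level `K` (MP_d3517d_nt)

`N ≥ 2`, `N ∣ M`, `4 ∣ M` or `9 ∣ M`, `n` even.

* `relIndex_AXx_le` : `[AXx j : AXx (j + 1)] ≤ p ^ (μ (p + 1) (j + 1) / 6)`, `μ = [SL_2(ℤ) : Γ₀(M)]`
  (the quotient embeds in the symbols with values in the induced module);
* `logb_index_AXx_le` : `log_p [Sym : AXx x] ≤ μ (p + 1) x (x + 1) / 12`;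
* `ambK` : `log_p [Sym : AXx x] - GE T_p x ≤ η (n + 1) ^ 2` for `x (p + 1) ≤ n` outside a set of
  weights of density zero.
-/

open Matrix ModularGroup Module Polynomial CongruenceSubgroup Finset

noncomputable section

namespace Gouvea.P5.One

open Gouvea.PS (slk slk_apply slk_one slk_mul slk_smul slk_neg slk_map map_cast_mul)
open Gouvea.PX (SN inf act act_apply act_act IsG0 Sym upS upS_coe hecke rhoN rhoN_X opN_coe)
open Pool.Agent Pool.Agent.Gouv Gouvea.Sys Gouvea.ES Gouvea.Fin Gouvea.P5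

variable {p : ℕ} [hp : Fact p.Prime]

/-! ### translations on the induced module -/

variable (p) in
/-- `F ↦ F(· γ)` on the induced module -/
def tra (n j : ℕ) (γ : G) :
    Ind (Gu p) (rho p n j) →ₗ[ZMod p] Ind (Gu p) (rho p n j) where
  toFun F := ⟨fun g => F.1 (g * γ), fun b hb g => by
    show F.1 (b * g * γ) = _
    rw [mul_assoc, F.2 b hb]⟩
  map_add' F F' := rfl
  map_smul' c F := rfl

lemma tra_apply (n j : ℕ) (γ : G) (F : Ind (Gu p) (rho p n j)) (g : G) :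
    (tra p n j γ F).1 g = F.1 (g * γ) := rfl

lemma isAct_tra {n j : ℕ} (hn : Even n) (hj : j ≤ n) {Γ : Subgroup G} (hΓ : (-1 : G) ∈ Γ) :
    IsAct Γ (tra p n j) where
  one := by
    refine LinearMap.ext fun F => Subtype.ext (funext fun g => ?_)
    rw [tra_apply, mul_one, LinearMap.id_apply]
  mul γ _ δ _ F := by
    refine Subtype.ext (funext fun g => ?_)
    rw [tra_apply, tra_apply, tra_apply, mul_assoc]
  neg_mem := hΓ
  neg := by
    refine LinearMap.ext fun F => Subtype.ext (funext fun g => ?_)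
    rw [tra_apply, neg_one_act hn hj, LinearMap.id_apply]

/-! ### the graded pieces -/

variable {N M n : ℕ}

/-- the value of a symbol at a pair of elements of `Γ₀(N)`, in the induced module -/
def thS {j : ℕ} (hj : j ≤ n) (φ : AXx p N M n j) (x y : Gamma0 N) :
    Ind (Gu p) (rho p n j) := theta hj ⟨φ.1.1 (cu x) (cu y), φ.2 _ _⟩

lemma sla_value (hNM : N ∣ M) (φ : Sym ℤ_[p] N M n) (γ : Gamma0 N) (hγ : γ.1 ∈ Gamma0 M)
    (x y : Gamma0 N) :
    φ.1 (cu (γ * x)) (cu (γ * y)) = sla p n (γ.1⁻¹ : G).1 (φ.1 (cu x) (cu y)) := by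
  have h1 : γ.1⁻¹ ∈ Gamma0 M := (Gamma0 M).inv_mem hγ
  have h2 := φ.2.2 (toSN γ.1⁻¹ (Gamma0_le hNM h1)) (isG0_toSN _ _ h1)
  have h3 := congrFun (congrFun h2 (cu (γ * x))) (cu (γ * y))
  rw [act_apply, cu_inv_mul, cu_inv_mul] at h3
  exact h3.symm

lemma symX_self (φ : Sym ℤ_[p] N M n) (x : PX.Cusp N) : φ.1 x x = 0 := by
  have := φ.2.1 x x x
  simpa using this

theorem thS_mem (hNM : N ∣ M) {j : ℕ} (hj : j ≤ n) (φ : AXx p N M n j) :
    thS hj φ ∈ Sy (Gamma0 M) (Gamma0 N) (tra p n j) := by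
  refine ⟨fun x y z => ?_, fun γ hγ x y => ?_, fun x y h => ?_, fun x y h => ?_⟩
  · unfold thS
    rw [← map_add]
    congr 1
    exact Subtype.ext (φ.1.2.1 _ _ _)
  · refine Subtype.ext (funext fun g => ?_)
    rw [tra_apply]
    have h1 := theta_sla hj ⟨φ.1.1 (cu x) (cu y), φ.2 _ _⟩ γ.1⁻¹ g
    rw [inv_inv] at h1
    have h2 : (⟨φ.1.1 (cu (γ * x)) (cu (γ * y)), φ.2 _ _⟩ : Nx p n j) =
        ⟨sla p n (γ.1⁻¹ : G).1 (φ.1.1 (cu x) (cu y)), sla_mem_Nx (φ.2 _ _) γ.1⁻¹⟩ :=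
      Subtype.ext (sla_value hNM φ.1 γ hγ x y)
    unfold thS
    rw [← h1, h2]
  · unfold thS
    have h1 : (⟨φ.1.1 (cu x) (cu y), φ.2 _ _⟩ : Nx p n j) = 0 := by
      refine Subtype.ext ?_
      show φ.1.1 (cu x) (cu y) = 0
      rw [cu_mul_of_c h (by simp [T]), symX_self]
    rw [h1, map_zero]
  · unfold thS
    have h1 : (⟨φ.1.1 (cu x) (cu y), φ.2 _ _⟩ : Nx p n j) = 0 := by
      refine Subtype.ext ?_
      show φ.1.1 (cu x) (cu y) = 0
      rw [cu_mul_of_c h (by simp), symX_self]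
    rw [h1, map_zero]

lemma thS_zero {j : ℕ} (hj : j ≤ n) (x y : Gamma0 N) :
    thS hj (0 : AXx p N M n j) x y = 0 := by
  have h1 : (⟨(0 : AXx p N M n j).1.1 (cu x) (cu y), (0 : AXx p N M n j).2 _ _⟩ : Nx p n j) = 0 :=
    rfl
  unfold thS
  rw [h1, map_zero]

lemma thS_add {j : ℕ} (hj : j ≤ n) (φ ψ : AXx p N M n j) (x y : Gamma0 N) :
    thS hj (φ + ψ) x y = thS hj φ x y + thS hj ψ x y := by
  have h1 : (⟨(φ + ψ).1.1 (cu x) (cu y), (φ + ψ).2 _ _⟩ : Nx p n j) =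
    ⟨φ.1.1 (cu x) (cu y), φ.2 _ _⟩ + ⟨ψ.1.1 (cu x) (cu y), ψ.2 _ _⟩ := rfl
  unfold thS
  rw [h1, map_add]

/-- the map to the symbols with values in the induced module -/
def thA (hNM : N ∣ M) {j : ℕ} (hj : j ≤ n) :
    (AXx p N M n j).toAddSubgroup →+ Sy (Gamma0 M) (Gamma0 N) (tra p n j) where
  toFun φ := ⟨thS hj φ, thS_mem hNM hj φ⟩
  map_zero' := Subtype.ext (funext fun x => funext fun y => thS_zero hj x y)
  map_add' φ ψ := Subtype.ext (funext fun x => funext fun y => thS_add hj φ ψ x y)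

theorem thA_eq_zero_iff (hNM : N ∣ M) {j : ℕ} (hj : j ≤ n) (φ : (AXx p N M n j).toAddSubgroup) :
    thA hNM hj φ = 0 ↔ (φ : Sym ℤ_[p] N M n) ∈ (AXx p N M n (j + 1)).toAddSubgroup := by
  constructor
  · intro h y z
    obtain ⟨y, rfl⟩ := cu_surjective y
    obtain ⟨z, rfl⟩ := cu_surjective z
    have h1 := congrFun (congrFun (congrArg Subtype.val h) y) z
    exact (theta_eq_zero_iff hj ⟨φ.1.1 (cu y) (cu z), φ.2 _ _⟩).1 h1
  · intro h
    refine Subtype.ext (funext fun y => funext fun z => ?_)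
    exact (theta_eq_zero_iff hj ⟨φ.1.1 (cu y) (cu z), φ.2 _ _⟩).2 (h _ _)

/-- the dimension of the symbols with values in the induced module -/
theorem six_mul_finrank_tra [NeZero M] (hN : 2 ≤ N) (hNM : N ∣ M) (h49 : 4 ∣ M ∨ 9 ∣ M)
    (hn : Even n) {j : ℕ} (hj : j ≤ n) :
    6 * finrank (ZMod p) (Sy (Gamma0 M) (Gamma0 N) (tra p n j)) ≤
      (Gamma0 M).index * ((p + 1) * (j + 1)) ∧
      FiniteDimensional (ZMod p) (Sy (Gamma0 M) (Gamma0 N) (tra p n j)) := by
  have hG := card_Gu (p := p)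
  have := hG.1
  have hfin : FiniteDimensional (ZMod p) (Ind (Gu p) (rho p n j)) :=
    finiteDimensional_Ind (isAct_rho hn hj)
  obtain ⟨h1, h2⟩ := six_mul_finrank_Sy_le (isAct_tra (p := p) hn hj (neg_one_mem M))
    (Gamma0_le hNM) (T_mem N) (S_not_mem hN) 0 0
    (fun g hg => absurd hg (no_four (h49.elim Or.inr
      (fun h => Or.inl ((by norm_num : 3 ∣ 9).trans h))) g))
    (fun g hg => absurd hg (no_three (h49.elim (fun h => Or.inl ((by norm_num : 2 ∣ 4).trans h))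
      Or.inr) g))
  refine ⟨h1.trans ?_, h2⟩
  rw [card_Qt]
  refine Nat.mul_le_mul_left _ ?_
  rw [finrank_Ind (isAct_rho hn hj), Module.finrank_fin_fun]
  simpa using Nat.mul_le_mul_right (j + 1) hG.2

/-- the graded pieces -/
theorem relIndex_AXx_le [NeZero M] (hN : 2 ≤ N) (hNM : N ∣ M) (h49 : 4 ∣ M ∨ 9 ∣ M)
    (hn : Even n) {j : ℕ} (hj : j ≤ n) :
    (AXx p N M n (j + 1)).toAddSubgroup.relIndex (AXx p N M n j).toAddSubgroup ≤
      p ^ finrank (ZMod p) (Sy (Gamma0 M) (Gamma0 N) (tra p n j)) := by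
  obtain ⟨-, hfin⟩ := six_mul_finrank_tra (p := p) hN hNM h49 hn hj
  have hf : Finite (Sy (Gamma0 M) (Gamma0 N) (tra p n j)) := Module.finite_of_finite (ZMod p)
  have h1 := relIndex_le_card (H := (AXx p N M n (j + 1)).toAddSubgroup)
    (M := (AXx p N M n j).toAddSubgroup) (P := ⊤)
    (W := Sy (Gamma0 M) (Gamma0 N) (tra p n j)) (thA (p := p) hNM hj)
    (fun v => thA_eq_zero_iff hNM hj v) ⊤ (fun _ _ => AddSubgroup.mem_top _)
  rw [inf_top_eq] at h1
  refine h1.trans (le_of_eq ?_)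
  rw [Nat.card_congr (AddSubgroup.topEquiv
    (G := Sy (Gamma0 M) (Gamma0 N) (tra p n j))).toEquiv]
  have h2 := Module.natCard_eq_pow_finrank (K := ZMod p)
    (V := Sy (Gamma0 M) (Gamma0 N) (tra p n j))
  rwa [Nat.card_zmod] at h2

/-- **The index of the symbols with values in `N_x`.** -/
theorem logb_index_AXx_le [NeZero M] (hN : 2 ≤ N) (hNM : N ∣ M) (h49 : 4 ∣ M ∨ 9 ∣ M)
    (hn : Even n) {x : ℕ} (hx : x ≤ n + 1) :
    Real.logb p ((AXx p N M n x).toAddSubgroup.index) ≤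
      ((p : ℝ) + 1) * (Gamma0 M).index * (x * (x + 1)) / 12 := by
  set a : ℕ → ℕ := fun j => finrank (ZMod p) (Sy (Gamma0 M) (Gamma0 N) (tra p n j)) with ha
  have h1 := chain_upper (fun j => (AXx p N M n j).toAddSubgroup)
    (by show (AXx p N M n 0).toAddSubgroup = ⊤; rw [AXx_zero]; rfl)
    (fun j => AXx_anti (Nat.le_succ j)) ⊤ (fun j => p ^ a j) x
    (fun j hj => by
      rw [inf_top_eq]
      exact relIndex_AXx_le hN hNM h49 hn (by omega))
  rw [AddSubgroup.relIndex_top_right, Finset.prod_pow_eq_pow_sum] at h1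
  have h2 : Real.logb p ((AXx p N M n x).toAddSubgroup.index) ≤ ∑ j ∈ range x, (a j : ℝ) := by
    rcases Nat.eq_zero_or_pos (AXx p N M n x).toAddSubgroup.index with h0 | h0
    · rw [h0, Nat.cast_zero, Real.logb_zero]
      exact Finset.sum_nonneg fun j _ => Nat.cast_nonneg _
    · have h3 : Real.logb p ((AXx p N M n x).toAddSubgroup.index) ≤
          Real.logb p ((p : ℝ) ^ ∑ j ∈ range x, a j) :=
        Real.logb_le_logb_of_le one_lt_pF (by exact_mod_cast h0) (by exact_mod_cast h1)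
      rw [Real.logb_pow, Real.logb_self_eq_one one_lt_pF, mul_one, Nat.cast_sum] at h3
      exact h3
  refine h2.trans ?_
  have h3 : ∀ j ∈ range x, (a j : ℝ) ≤ (Gamma0 M).index * ((p + 1) * (j + 1)) / 6 := by
    intro j hj
    have h4 := (six_mul_finrank_tra (p := p) (n := n) hN hNM h49 hn
      (by have := Finset.mem_range.1 hj; omega : j ≤ n)).1
    have h5 : (6 : ℝ) * a j ≤ (Gamma0 M).index * ((p + 1) * (j + 1)) := by exact_mod_cast h4
    linarith
  refine (Finset.sum_le_sum h3).trans (le_of_eq ?_)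
  clear h1 h2 h3 hx
  induction x with
  | zero => simp
  | succ x ih =>
    rw [Finset.sum_range_succ, ih]
    push_cast
    ring

/-! ### sharpness -/

open Classical in
/-- **The ambient lattice is sharp (level `K`).** -/
theorem ambK (j : algebraicClosure ℚ ℂ →+* PadicAlgCl p) {N M : ℕ} [NeZero M] (hN : 2 ≤ N)
    (hNM : N ∣ M) (h49 : 4 ∣ M ∨ 9 ∣ M) {β : ℕ → ℝ}
    (c : Nat.Primes → PadicAlgCl p)
    (hA : Apx ((p : ℝ) + 1) (fun n x => (Fin.cnt j M (n + 2) ∅ c x : ℝ))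
      (fun n => (Fin.tot j M (n + 2) ∅ c : ℝ)) β) {η : ℝ} (hη : 0 < η) :
    ∃ E : Set ℕ, D0 E ∧ ∀ n ∉ E, Even n →
      ∀ [Module.Finite ℤ_[p] (Sym ℤ_[p] N M n)] [Module.Free ℤ_[p] (Sym ℤ_[p] N M n)] (x : ℕ),
        (x : ℝ) * (p + 1) ≤ n →
          Real.logb p ((AXx p N M n x).toAddSubgroup.index) -
            GE (rhoN ℤ_[p] N M n hNM (Xp p)) x ≤ η * (n + 1) ^ 2 := by
  set I : ℝ := ((Gamma0 M).index : ℝ) with hI
  have hI0 : 0 ≤ I := Nat.cast_nonneg _
  set D : ℝ := 12 * (I ^ 2 + I) with hD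
  have hD0 : 0 ≤ D := by positivity
  obtain ⟨E, hE, h⟩ := hA (η / 6) (by linarith)
  obtain ⟨n0, hn0⟩ := exists_nat_ge (2 * (D / 12 + I / 6) / η + 2)
  refine ⟨E ∪ {n | n < n0}, hE.union (D0.of_finite (Set.finite_lt_nat n0)), ?_⟩
  intro n hnE hn _ _ x hx
  rw [Set.mem_union, not_or, Set.mem_ofPred_eq, not_lt] at hnE
  obtain ⟨hnE, hn1⟩ := hnE
  obtain ⟨hcnt, htot⟩ := h n hnE
  have hn2 : 2 * (D / 12 + I / 6) / η + 2 ≤ (n : ℝ) := hn0.trans (by exact_mod_cast hn1)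
  have h0 : 0 ≤ 2 * (D / 12 + I / 6) / η := by positivity
  have hn3 : (2 : ℝ) ≤ n := by linarith
  have hn4 : 2 ≤ n := by exact_mod_cast hn3
  have hp1 : (1 : ℝ) < p := one_lt_pF
  have hp0 : (0 : ℝ) < (p : ℝ) + 1 := by linarith
  -- the index
  have hx2 : (x : ℝ) ≤ n / 2 := by
    have : (x : ℝ) * 2 ≤ x * (p + 1) :=
      mul_le_mul_of_nonneg_left (by linarith) (Nat.cast_nonneg x)
    linarith
  have hxn : x ≤ n := by
    have : (x : ℝ) ≤ n := by linarith
    exact_mod_cast this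
  have hH := logb_index_AXx_le (p := p) hN hNM h49 hn (x := x) (by omega)
  rw [← hI] at hH
  -- the Newton function
  have hG2 := GE_Tp_ge j hN hNM hn hn4 c x
  have hG3 : β n * ((x : ℝ) * (x - 1)) - 2 * (η / 6 * (n + 1)) * x ≤
      2 * ∑ y ∈ range x, (Fin.cnt j M (n + 2) ∅ c (y : ℝ) : ℝ) := by
    have h1 : ∀ y ∈ range x, β n * (y : ℝ) - η / 6 * (n + 1) ≤
        (Fin.cnt j M (n + 2) ∅ c (y : ℝ) : ℝ) := by
      intro y hy
      have hy' : (y : ℝ) ≤ x := by exact_mod_cast (Finset.mem_range.1 hy).le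
      have h2 := (abs_le.1 (hcnt y (Nat.cast_nonneg y) (by
        rw [le_div_iff₀ hp0]
        exact (mul_le_mul_of_nonneg_right hy' hp0.le).trans hx))).1
      linarith
    have h2 := Finset.sum_le_sum h1
    rw [Finset.sum_sub_distrib, ← Finset.mul_sum, Finset.sum_const, Finset.card_range,
      nsmul_eq_mul] at h2
    have h3 : (∑ y ∈ range x, (y : ℝ)) * 2 = x * (x - 1) := by
      clear h1 h2 hx hx2 hxn hH hG2
      induction x with
      | zero => simp
      | succ x ih =>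
        rw [Finset.sum_range_succ, add_mul, ih]
        push_cast
        ring
    rw [← h3]
    linarith
  -- the total
  have htot2 : (I * ((n : ℝ) + 2) - D) / 12 ≤ Fin.tot j M (n + 2) ∅ c := by
    have h1 := Pool.Agent.Gouv.ESDim.finrank_cuspForm_ge M (n + 2) (hn.add even_two)
    have h2 : Fin.tot j M (n + 2) ∅ c = Module.finrank ℂ (Gouvea.Cusp M (n + 2)) := by
      rw [← card_Sys (rhoC M (n + 2))]
      unfold Fin.tot
      rw [Multiset.filter_eq_self.2]
      intro χ _ q hq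
      exact absurd hq (Set.notMem_empty q)
    have h3 : ((Gamma0 M).index : ℝ) * ((n : ℝ) + 2) ≤
        12 * (Module.finrank ℂ (Gouvea.Cusp M (n + 2)) : ℝ) +
          12 * (((Gamma0 M).index : ℝ) ^ 2 + (Gamma0 M).index) := by exact_mod_cast h1
    rw [h2]
    rw [hD, hI]
    linarith
  have hfin := amb_arith (P := (p : ℝ) + 1) (I := I) (D := D) (δ := η / 6) (β := β n)
    (n := n) (x := x) (by linarith) hI0 hD0 (by linarith) (by linarith)
    (by
      rcases Nat.eq_zero_or_pos x with h | h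
      · left; simp [h]
      · right; exact_mod_cast h) hx (by
      have := (abs_le.1 htot).2
      linarith)
  have hlast : ((n : ℝ) + 1) * (D / 12 + I / 6) ≤ η / 2 * (n + 1) ^ 2 := by
    have h1 : D / 12 + I / 6 ≤ η / 2 * (n + 1) := by
      have h2 : 2 * (D / 12 + I / 6) / η ≤ n + 1 := by linarith
      rw [div_le_iff₀ hη] at h2
      linarith
    have h2 := mul_le_mul_of_nonneg_left h1 (show (0 : ℝ) ≤ (n : ℝ) + 1 by linarith)
    nlinarith
  nlinarith

end Gouvea.P5.One
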