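import Pool.Agent.Work.MP_d3517d_nt.P5.CountUp

/-!
# P5, level one: the theorem of Manin (MP_d3517d_nt)

`V` a module over `G = SL(2, ℤ)` on which `-1` acts trivially, `v ∈ V` with `v + S v = 0` and
`v + R v + R² v = 0`. Then there is a cocycle `C : G → V`, `C (g γ) = C g + g C γ`, with `C T = 0`
and `C S = v`; it depends only on the first column.
-/

open Matrix ModularGroup

noncomputable section

namespace Gouvea.P5.One

variable {V : Type*} [AddCommGroup V] (ρ : G →* AddMonoid.End V) (v : V)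

/-- the matrix `(a b; c d)` (`1` if the determinant is not `1`) -/
def mk4 (a b c d : ℤ) : G := if h : (!![a, b; c, d] : Matrix (Fin 2) (Fin 2) ℤ).det = 1 then
  ⟨!![a, b; c, d], h⟩ else 1

lemma mk4_eq (γ : G) {a b c d : ℤ} (ha : a = γ 0 0) (hb : b = γ 0 1) (hc : c = γ 1 0)
    (hd : d = γ 1 1) : mk4 a b c d = γ := by
  subst ha hb hc hd
  have h : (!![γ 0 0, γ 0 1; γ 1 0, γ 1 1] : Matrix (Fin 2) (Fin 2) ℤ) = γ.1 := by
    ext i j
    fin_cases i <;> fin_cases j <;> rfl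
  have h' : (!![γ 0 0, γ 0 1; γ 1 0, γ 1 1] : Matrix (Fin 2) (Fin 2) ℤ).det = 1 := by
    rw [h]
    exact γ.2
  exact (dif_pos h').trans (Subtype.ext h)

/-- the inverse of `a` modulo `c` -/
def dd (c : ℕ) (a : ℤ) : ℕ := (Int.gcdA a c % c).toNat

lemma dd_lt {c : ℕ} (hc : 0 < c) (a : ℤ) : dd c a < c := by
  unfold dd
  have h1 : Int.gcdA a c % c < c := Int.emod_lt_of_pos _ (by exact_mod_cast hc)
  have h2 : 0 ≤ Int.gcdA a c % c := Int.emod_nonneg _ (by exact_mod_cast hc.ne')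
  omega

lemma dd_eq {c d : ℕ} {a b : ℤ} (hd : d < c) (h : a * d - b * c = 1) : dd c a = d := by
  have hc : 0 < c := by omega
  have h2 : 0 ≤ Int.gcdA a c % c := Int.emod_nonneg _ (by exact_mod_cast hc.ne')
  have hg : Int.gcd a c = 1 := by
    rw [← Int.isCoprime_iff_gcd_eq_one]
    exact ⟨d, -b, by linear_combination h⟩
  have h3 := Int.gcd_eq_gcd_ab a c
  rw [hg] at h3
  have h4 : (Int.gcdA a c : ℤ) % c = (d : ℤ) % c := by
    refine Int.emod_emod_of_dvd _ (dvd_refl (c : ℤ)) |>.symm.trans ?_ |>.trans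
      (Int.emod_emod_of_dvd _ (dvd_refl (c : ℤ)))
    rw [Int.emod_emod_of_dvd _ (dvd_refl (c : ℤ)), Int.emod_emod_of_dvd _ (dvd_refl (c : ℤ))]
    refine Int.ModEq.symm ?_
    rw [Int.modEq_iff_dvd]
    -- `gcdA - d = gcdA (a d - b c) - d = ...`
    refine ⟨-(b * Int.gcdA a c) - d * Int.gcdB a c, ?_⟩
    push_cast at h3
    linear_combination (-(Int.gcdA a c)) * h - (d : ℤ) * h3
  have h5 : (d : ℤ) % c = d := Int.emod_eq_of_lt (by positivity) (by exact_mod_cast hd)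
  unfold dd
  rw [h4, h5]
  exact Int.toNat_natCast d

/-- the value at `a/c` -/
def Phi (c : ℕ) (a : ℤ) : V :=
  if h : 0 < c then
    have := dd_lt h a
    Phi (dd c a) ((a * dd c a - 1) / c) - ρ (mk4 a ((a * dd c a - 1) / c) c (dd c a)) v
  else 0
termination_by c

lemma Phi_zero (a : ℤ) : Phi ρ v 0 a = 0 := by
  rw [Phi]
  simp

lemma Phi_pos {c d : ℕ} {a b : ℤ} (hd : d < c) (h : a * d - b * c = 1) :
    Phi ρ v c a = Phi ρ v d b - ρ (mk4 a b c d) v := by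
  have hc : 0 < c := by omega
  have hb : (a * d - 1) / (c : ℤ) = b := by
    have : a * d - 1 = b * c := by linear_combination h
    rw [this]
    exact Int.mul_ediv_cancel _ (by exact_mod_cast hc.ne')
  rw [Phi, dif_pos hc]
  simp only [dd_eq hd h, hb]

/-- the cocycle -/
def Cc (γ : G) : V :=
  if 0 ≤ γ 1 0 then Phi ρ v (γ 1 0).toNat (γ 0 0) else Phi ρ v (-γ 1 0).toNat (-γ 0 0)

lemma Cc_congr {γ δ : G} (h0 : γ 0 0 = δ 0 0) (h1 : γ 1 0 = δ 1 0) : Cc ρ v γ = Cc ρ v δ := by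
  unfold Cc
  rw [h0, h1]

lemma neg_ij (γ : G) (i j : Fin 2) : (-γ) i j = -γ i j := by
  rw [Matrix.SpecialLinearGroup.coe_neg]
  rfl

lemma Cc_neg (γ : G) : Cc ρ v (-γ) = Cc ρ v γ := by
  unfold Cc
  rw [neg_ij, neg_ij, neg_neg, neg_neg]
  rcases lt_trichotomy (γ 1 0) 0 with h | h | h
  · rw [if_pos (by omega), if_neg (by omega)]
  · rw [h]
    simp [Phi_zero]
  · rw [if_neg (by omega), if_pos (by omega)]

lemma mul_ij (γ δ : G) (i j : Fin 2) : (γ * δ) i j = γ i 0 * δ 0 j + γ i 1 * δ 1 j := by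
  rw [Matrix.SpecialLinearGroup.coe_mul, Matrix.mul_apply, Fin.sum_univ_two]

lemma S00 : S 0 0 = 0 := rfl
lemma S01 : S 0 1 = -1 := rfl
lemma S10 : S 1 0 = 1 := rfl
lemma S11 : S 1 1 = 0 := rfl
lemma T00 : T 0 0 = 1 := rfl
lemma T01 : T 0 1 = 1 := rfl
lemma T10 : T 1 0 = 0 := rfl
lemma T11 : T 1 1 = 1 := rfl
lemma Re00 : Re 0 0 = -1 := rfl
lemma Re01 : Re 0 1 = 1 := rfl
lemma Re10 : Re 1 0 = -1 := rfl
lemma Re11 : Re 1 1 = 0 := rfl

lemma det1 (γ : G) : γ 0 0 * γ 1 1 - γ 0 1 * γ 1 0 = 1 := by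
  have := γ.2
  rwa [Matrix.det_fin_two] at this

/-- the relation at the edge `(γ ∞, γ 0)` -/
def Eg (γ : G) : Prop := Cc ρ v (γ * S) = Cc ρ v γ + ρ γ v

/-- the relation holds by definition if `0 ≤ d < c` -/
lemma Eg_def {γ : G} (h0 : 0 ≤ γ 1 1) (h1 : γ 1 1 < γ 1 0) : Eg ρ v γ := by
  obtain ⟨c, hc⟩ : ∃ c : ℕ, γ 1 0 = c := ⟨(γ 1 0).toNat, by omega⟩
  obtain ⟨d, hd⟩ : ∃ d : ℕ, γ 1 1 = d := ⟨(γ 1 1).toNat, by omega⟩
  have hlt : d < c := by omega
  have hdet := det1 γ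
  rw [hc, hd] at hdet
  unfold Eg Cc
  have e1 : (γ * S) 1 0 = d := by rw [mul_ij, S00, S10, hd]; ring
  have e2 : (γ * S) 0 0 = γ 0 1 := by rw [mul_ij, S00, S10]; ring
  rw [e1, e2, hc, if_pos (by positivity), if_pos (by positivity), Int.toNat_natCast,
    Int.toNat_natCast, Phi_pos ρ v hlt hdet, mk4_eq γ rfl rfl hc.symm hd.symm]
  abel

variable {ρ v} (hneg : ρ (-1) = 1) (hS : v + ρ S v = 0)

lemma rho_mul (γ δ : G) (w : V) : ρ (γ * δ) w = ρ γ (ρ δ w) := by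
  rw [map_mul]
  rfl

include hneg in
lemma rho_neg (γ : G) (w : V) : ρ (-γ) w = ρ γ w := by
  have h : -γ = -1 * γ := by rw [neg_one_mul]
  rw [h, map_mul, hneg, one_mul]

include hneg in
lemma Eg_neg (γ : G) : Eg ρ v (-γ) ↔ Eg ρ v γ := by
  unfold Eg
  rw [neg_mul, Cc_neg, Cc_neg, rho_neg hneg]

include hS in
lemma Eg_S (γ : G) : Eg ρ v (γ * S) ↔ Eg ρ v γ := by
  unfold Eg
  have h1 : γ * S * S = -γ := by
    rw [mul_assoc, S_mul_S, mul_neg, mul_one]
  have h2 : ρ (γ * S) v = -ρ γ v := by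
    rw [rho_mul, eq_neg_of_add_eq_zero_right hS, map_neg]
  rw [h1, Cc_neg, h2]
  constructor
  · intro h
    rw [h]
    abel
  · intro h
    rw [h]
    abel

lemma Cc_T (γ : G) : Cc ρ v (γ * T) = Cc ρ v γ := by
  refine Cc_congr ρ v ?_ ?_
  · rw [mul_ij, T00, T10]; ring
  · rw [mul_ij, T00, T10]; ring

lemma Cc_ReRe (γ : G) : Cc ρ v (γ * Re * Re) = Cc ρ v (γ * S) := by
  refine Cc_congr ρ v ?_ ?_
  · rw [mul_ij, mul_ij, mul_ij, mul_ij, Re00, Re10, Re01, Re11, S00, S10]; ring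
  · rw [mul_ij, mul_ij, mul_ij, mul_ij, Re00, Re10, Re01, Re11, S00, S10]; ring

lemma Eg_three (hR : v + ρ Re v + ρ Re (ρ Re v) = 0) (γ : G) (h1 : Eg ρ v (γ * Re))
    (h2 : Eg ρ v (γ * Re * Re)) : Eg ρ v γ := by
  unfold Eg at *
  rw [mul_assoc γ Re S, Re_mul_S, Cc_T] at h1
  rw [mul_assoc (γ * Re) Re S, Re_mul_S, Cc_T, Cc_ReRe] at h2
  have h3 : ρ γ v + ρ (γ * Re) v + ρ (γ * Re * Re) v = 0 := by
    have := congrArg (ρ γ) hR
    rw [map_add, map_add, map_zero] at this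
    rw [rho_mul (γ * Re) Re, rho_mul γ Re, rho_mul γ Re]
    exact this
  have h4 : ρ γ v = -(ρ (γ * Re) v + ρ (γ * Re * Re) v) :=
    eq_neg_of_add_eq_zero_left (by rw [← h3]; abel)
  rw [h4]
  -- `C γ = C γR + .., C γR = C γS + ..`
  calc Cc ρ v (γ * S) = (Cc ρ v (γ * S) + ρ (γ * Re * Re) v) + ρ (γ * Re) v -
        (ρ (γ * Re) v + ρ (γ * Re * Re) v) := by abel
    _ = Cc ρ v (γ * Re) + ρ (γ * Re) v - (ρ (γ * Re) v + ρ (γ * Re * Re) v) := by rw [← h2]
    _ = Cc ρ v γ - (ρ (γ * Re) v + ρ (γ * Re * Re) v) := by rw [← h1]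
    _ = _ := by abel

/-- **The relation at all edges.** -/
theorem Eg_all (hneg : ρ (-1) = 1) (hS : v + ρ S v = 0)
    (hR : v + ρ Re v + ρ Re (ρ Re v) = 0) (γ : G) : Eg ρ v γ := by
  obtain ⟨m, hm⟩ : ∃ m : ℕ, (γ 1 0).natAbs + (γ 1 1).natAbs ≤ m := ⟨_, le_rfl⟩
  induction m using Nat.strong_induction_on generalizing γ with
  | _ m ih =>
    -- the case `c > 0`, `-c ≤ d < 0`
    have X : ∀ δ : G, (δ 1 0).natAbs + (δ 1 1).natAbs ≤ m → 0 < δ 1 0 → δ 1 1 < 0 →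
        -δ 1 1 ≤ δ 1 0 → Eg ρ v δ := by
      intro δ hδ h1 h2 h3
      refine Eg_three hR δ ?_ ?_
      · rw [← Eg_S hS, mul_assoc, Re_mul_S]
        refine Eg_def ρ v ?_ ?_
        · rw [mul_ij, T01, T11]; linarith
        · rw [mul_ij, mul_ij, T01, T11, T00, T10]; linarith
      · rw [← Eg_neg hneg]
        have e1 : (-(δ * Re * Re)) 1 0 = -δ 1 1 := by
          rw [neg_ij, mul_ij, mul_ij, mul_ij, Re00, Re10, Re01, Re11]; ring
        have e2 : (-(δ * Re * Re)) 1 1 = δ 1 0 + δ 1 1 := by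
          rw [neg_ij, mul_ij, mul_ij, mul_ij, Re00, Re10, Re01, Re11]; ring
        refine ih (((-(δ * Re * Re)) 1 0).natAbs + ((-(δ * Re * Re)) 1 1).natAbs) ?_ _ le_rfl
        rw [e1, e2]
        omega
    -- the case `c > 0`
    have Y : ∀ δ : G, (δ 1 0).natAbs + (δ 1 1).natAbs ≤ m → 0 < δ 1 0 → Eg ρ v δ := by
      intro δ hδ h1
      have e1 : (δ * S) 1 0 = δ 1 1 := by rw [mul_ij, S00, S10]; ring
      have e2 : (δ * S) 1 1 = -δ 1 0 := by rw [mul_ij, S01, S11]; ring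
      rcases lt_or_ge (δ 1 1) 0 with h2 | h2
      · rcases le_or_gt (-δ 1 1) (δ 1 0) with h3 | h3
        · exact X δ hδ h1 h2 h3
        · rw [← Eg_S hS, ← Eg_neg hneg]
          refine Eg_def ρ v ?_ ?_
          · rw [neg_ij, e2]; omega
          · rw [neg_ij, neg_ij, e1, e2]; omega
      · rcases lt_or_ge (δ 1 1) (δ 1 0) with h3 | h3
        · exact Eg_def ρ v h2 h3
        · rw [← Eg_S hS]
          refine X _ ?_ ?_ ?_ ?_
          · rw [e1, e2]; omega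
          · rw [e1]; omega
          · rw [e2]; omega
          · rw [e1, e2]; omega
    rcases lt_trichotomy (γ 1 0) 0 with h | h | h
    · rw [← Eg_neg hneg]
      refine Y _ ?_ ?_
      · rw [neg_ij, neg_ij]; omega
      · rw [neg_ij]; omega
    · have e1 : (γ * S) 1 0 = γ 1 1 := by rw [mul_ij, S00, S10]; ring
      have e2 : (γ * S) 1 1 = -γ 1 0 := by rw [mul_ij, S01, S11]; ring
      have hdet := det1 γ
      rw [h, mul_zero, sub_zero] at hdet
      have hd : γ 1 1 ≠ 0 := by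
        intro h0
        rw [h0, mul_zero] at hdet
        exact zero_ne_one hdet
      rw [← Eg_S hS]
      rcases lt_or_gt_of_ne hd with h1 | h1
      · rw [← Eg_neg hneg]
        refine Eg_def ρ v ?_ ?_
        · rw [neg_ij, e2]; omega
        · rw [neg_ij, neg_ij, e1, e2]; omega
      · refine Eg_def ρ v ?_ ?_
        · rw [e2]; omega
        · rw [e1, e2]; omega
    · exact Y γ hm h

/-- **The theorem of Manin.** -/
theorem manin (hneg : ρ (-1) = 1) (hS : v + ρ S v = 0)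
    (hR : v + ρ Re v + ρ Re (ρ Re v) = 0) :
    (∀ g γ, Cc ρ v (g * γ) = Cc ρ v g + ρ g (Cc ρ v γ)) ∧ Cc ρ v S = v ∧ Cc ρ v 1 = 0 := by
  have hE := Eg_all hneg hS hR
  have h1 : Cc ρ v 1 = 0 := by
    unfold Cc
    rw [Matrix.SpecialLinearGroup.coe_one]
    simp [Phi_zero]
  have hCS : Cc ρ v S = v := by
    have := hE 1
    unfold Eg at this
    rw [one_mul, h1, map_one, zero_add] at this
    exact this
  have hCT : Cc ρ v T = 0 := by
    have := Cc_T (ρ := ρ) (v := v) 1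
    rw [one_mul, h1] at this
    exact this
  refine ⟨fun g γ => ?_, hCS, h1⟩
  have hmem : γ ∈ Subgroup.closure {S, T} := by
    rw [SpecialLinearGroup.SL2Z_generators]
    exact Subgroup.mem_top γ
  induction hmem using Subgroup.closure_induction generalizing g with
  | mem x hx =>
    rcases hx with rfl | hx
    · rw [hCS]
      exact hE g
    · rw [Set.mem_singleton_iff.1 hx, Cc_T, hCT, map_zero, add_zero]
  | one => rw [mul_one, h1, map_zero, add_zero]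
  | mul x y _ _ ihx ihy =>
    rw [← mul_assoc, ihy (g * x), ihx g, ihy x, map_add, rho_mul, add_assoc]
  | inv x _ ihx =>
    have e1 := ihx (g * x⁻¹)
    rw [inv_mul_cancel_right] at e1
    have e2 := ihx x⁻¹
    rw [inv_mul_cancel, h1] at e2
    have e3 : Cc ρ v x⁻¹ = -ρ x⁻¹ (Cc ρ v x) := eq_neg_of_add_eq_zero_left e2.symm
    rw [e3, map_neg, e1, rho_mul]
    abel

end Gouvea.P5.One
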