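import Pool.Agent.Work.MP_d3517d_nt.FinalG

/-!
# P5: Hodge functions of lattices and saturated sublattices (MP_d3517d_nt)

`A` is a free `ℤ_p`-module of finite rank, `W` an endomorphism with `W ^ 2 = p ^ n`.
* `Fs W s = {x | W x ∈ p ^ s A}`;
* `HW W x = log_p [A : Fs W x]`, the Hodge function;
* `aW red s`: the dimension of the image of `Fs W s` in `A / p A`;
* `GE U x`: the sum of the `(x - v(λ))^+` over the eigenvalues `λ` of `U`.
-/

open Polynomial Finset

noncomputable section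

namespace Gouvea.P5

open Pool.Agent.Gouv

/-! ### The characteristic polynomial of a block triangular endomorphism -/

section Charpoly

variable {R V : Type*} [CommRing R] [AddCommGroup V] [Module R V]
  [Module.Free R V] [Module.Finite R V]
  (W : Submodule R V) [Module.Free R W] [Module.Finite R W] [Module.Free R (V ⧸ W)]

open Module.Basis in
theorem charpoly_eq_mul (e : V →ₗ[R] V) (he : W ≤ W.comap e) :
    e.charpoly = (e.restrict he).charpoly * (W.mapQ W e he).charpoly := by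
  classical
  let m := Module.Free.ChooseBasisIndex R W
  let bW : Module.Basis m R W := Module.Free.chooseBasis R W
  let n := Module.Free.ChooseBasisIndex R (V ⧸ W)
  let bQ : Module.Basis n R (V ⧸ W) := Module.Free.chooseBasis R (V ⧸ W)
  let b := sumQuot bW bQ
  let A : Matrix m m R := LinearMap.toMatrix bW bW (e.restrict he)
  let B : Matrix m n R := Matrix.of fun i l ↦
    ((sumQuot bW bQ).repr (e ((sumQuot bW bQ) (Sum.inr l)))) (Sum.inl i)
  let D : Matrix n n R := LinearMap.toMatrix bQ bQ (W.mapQ W e he)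
  suffices LinearMap.toMatrix b b e = Matrix.fromBlocks A B 0 D by
    rw [← LinearMap.charpoly_toMatrix e b, this, Matrix.charpoly_fromBlocks_zero₂₁,
      LinearMap.charpoly_toMatrix, LinearMap.charpoly_toMatrix]
  ext u v
  cases u with
  | inl i =>
    cases v with
    | inl k =>
      simp only [b, sumQuot_inl, Matrix.fromBlocks_apply₁₁, A, LinearMap.toMatrix_apply]
      apply sumQuot_repr_inl_of_mem
    | inr l => simp [b, LinearMap.toMatrix_apply, Matrix.fromBlocks_apply₁₂, B]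
  | inr j =>
    cases v with
    | inl k =>
      suffices W.mkQ (e (bW k)) = 0 by simp [LinearMap.toMatrix_apply, b, this]
      rw [← LinearMap.mem_ker, Submodule.ker_mkQ]
      exact he (Submodule.coe_mem (bW k))
    | inr l =>
      simp only [LinearMap.toMatrix_apply, sumQuot_repr_inr,
        Matrix.fromBlocks_apply₂₂, b, D]
      rw [← sumQuot_inr bW bQ l, W.mapQ_apply]
      simp

end Charpoly

variable {p : ℕ} [hp : Fact p.Prime]

/-! ### The eigenvalues of an endomorphism of a lattice -/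

section Eig

variable {A : Type} [AddCommGroup A] [Module ℤ_[p] A] [Module.Free ℤ_[p] A]
  [Module.Finite ℤ_[p] A]

/-- The eigenvalues of an endomorphism of a lattice. -/
def specE (U : A →ₗ[ℤ_[p]] A) : Multiset (PadicAlgCl p) :=
  ((U.charpoly.map (algebraMap ℤ_[p] ℚ_[p])).map (algebraMap ℚ_[p] (PadicAlgCl p))).roots

/-- `Σ_λ (x - v(λ))^+`. -/
def GE (U : A →ₗ[ℤ_[p]] A) (x : ℝ) : ℝ :=
  ((specE U).map fun l => Real.logb p (max 1 (‖l‖ * (p : ℝ) ^ x))).sum

theorem specE_eq {ι : Type} [Fintype ι] [DecidableEq ι] (b : Module.Basis ι ℤ_[p] A)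
    (U : A →ₗ[ℤ_[p]] A) : specE U = specM (toQ (LinearMap.toMatrix b b U)) := by
  unfold specE specM toQ
  rw [← LinearMap.charpoly_toMatrix U b, Matrix.charpoly_map]

theorem GE_eq_Gf {ι : Type} [Fintype ι] [DecidableEq ι] (b : Module.Basis ι ℤ_[p] A)
    (U : A →ₗ[ℤ_[p]] A) (x : ℝ) : GE U x = Gf (toQ (LinearMap.toMatrix b b U)) x := by
  unfold GE Gf
  rw [specE_eq b]

theorem GE_nonneg (U : A →ₗ[ℤ_[p]] A) (x : ℝ) : 0 ≤ GE U x := by
  unfold GE
  refine Multiset.sum_nonneg fun y hy => ?_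
  obtain ⟨l, -, rfl⟩ := Multiset.mem_map.1 hy
  exact Real.logb_nonneg one_lt_pF (le_max_left _ _)

theorem GE_mono (U : A →ₗ[ℤ_[p]] A) {x y : ℝ} (h : x ≤ y) : GE U x ≤ GE U y := by
  unfold GE
  refine Multiset.sum_map_le_sum_map _ _ fun l _ => ?_
  refine Real.logb_le_logb_of_le one_lt_pF (by positivity) (max_le_max le_rfl ?_)
  exact mul_le_mul_of_nonneg_left (Real.rpow_le_rpow_of_exponent_le one_lt_pF.le h)
    (norm_nonneg _)

/-- additivity of the eigenvalues -/
theorem GE_add (B : Submodule ℤ_[p] A) [Module.Free ℤ_[p] (A ⧸ B)] (U : A →ₗ[ℤ_[p]] A)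
    (hB : B ≤ B.comap U) (x : ℝ) :
    GE U x = GE (U.restrict hB) x + GE (B.mapQ B U hB) x := by
  unfold GE specE
  rw [charpoly_eq_mul B U hB, Polynomial.map_mul, Polynomial.map_mul, Polynomial.roots_mul,
    Multiset.map_add, Multiset.sum_add]
  refine mul_ne_zero ?_ ?_
  · exact (((LinearMap.charpoly_monic _).map _).map _).ne_zero
  · exact (((LinearMap.charpoly_monic _).map _).map _).ne_zero

end Eig

/-! ### Indices -/

section Index

variable {A : Type} [AddCommGroup A] [Module ℤ_[p] A]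

/-- `{x | W x ∈ p ^ s A}` -/
def Fs (W : A →ₗ[ℤ_[p]] A) (s : ℕ) : Submodule ℤ_[p] A where
  carrier := {x | ∃ y, W x = (p : ℤ_[p]) ^ s • y}
  add_mem' := by
    rintro a b ⟨y, hy⟩ ⟨z, hz⟩
    exact ⟨y + z, by rw [map_add, hy, hz, smul_add]⟩
  zero_mem' := ⟨0, by simp⟩
  smul_mem' := by
    rintro c a ⟨y, hy⟩
    exact ⟨c • y, by rw [map_smul, hy, smul_comm]⟩

theorem mem_Fs {W : A →ₗ[ℤ_[p]] A} {s : ℕ} {x : A} :
    x ∈ Fs W s ↔ ∃ y, W x = (p : ℤ_[p]) ^ s • y := Iff.rfl

theorem Fs_zero (W : A →ₗ[ℤ_[p]] A) : Fs W 0 = ⊤ :=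
  eq_top_iff.2 fun x _ => ⟨W x, by simp⟩

theorem Fs_anti (W : A →ₗ[ℤ_[p]] A) {s t : ℕ} (h : s ≤ t) : Fs W t ≤ Fs W s := by
  rintro x ⟨y, hy⟩
  refine ⟨(p : ℤ_[p]) ^ (t - s) • y, ?_⟩
  rw [hy, smul_smul, ← pow_add, Nat.add_sub_cancel' h]

theorem smul_mem_Fs (W : A →ₗ[ℤ_[p]] A) (s : ℕ) (x : A) : (p : ℤ_[p]) ^ s • x ∈ Fs W s :=
  ⟨W x, map_smul _ _ _⟩

/-- `p A` -/
def pA (p : ℕ) [Fact p.Prime] (A : Type) [AddCommGroup A] [Module ℤ_[p] A] : Submodule ℤ_[p] A :=
  LinearMap.range (LinearMap.lsmul ℤ_[p] A (p : ℤ_[p]))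

theorem mem_pA {x : A} : x ∈ pA p A ↔ ∃ y, (p : ℤ_[p]) • y = x := Iff.rfl

/-- an additive map to an `F_p`-space with kernel `p A` -/
structure Red (p : ℕ) [Fact p.Prime] (A X : Type) [AddCommGroup A] [Module ℤ_[p] A]
    [AddCommGroup X] [Module (ZMod p) X] where
  /-- the map -/
  f : A →+ X
  ker : ∀ a, f a = 0 ↔ ∃ y, (p : ℤ_[p]) • y = a

variable {X : Type} [AddCommGroup X] [Module (ZMod p) X]

/-- the image of a submodule under a reduction -/
def Red.img (red : Red p A X) (F : Submodule ℤ_[p] A) : Submodule (ZMod p) X :=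
  AddSubgroup.toZModSubmodule p (F.toAddSubgroup.map red.f)

theorem Red.mem_img {red : Red p A X} {F : Submodule ℤ_[p] A} {x : X} :
    x ∈ red.img F ↔ ∃ a ∈ F, red.f a = x := Iff.rfl

theorem Red.img_mono {red : Red p A X} {F G : Submodule ℤ_[p] A} (h : F ≤ G) :
    red.img F ≤ red.img G := by
  rintro x ⟨a, ha, rfl⟩
  exact ⟨a, h ha, rfl⟩

theorem toZMod_val (x : ZMod p) : PadicInt.toZMod ((x.val : ℕ) : ℤ_[p]) = x := by
  rw [map_natCast]
  exact ZMod.natCast_zmod_val x

theorem dvd_of_toZMod {x : ℤ_[p]} (h : PadicInt.toZMod x = 0) : (p : ℤ_[p]) ∣ x := by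
  have h1 : x ∈ RingHom.ker (PadicInt.toZMod : ℤ_[p] →+* ZMod p) := h
  rw [PadicInt.ker_toZMod, PadicInt.maximalIdeal_eq_span_p, Ideal.mem_span_singleton] at h1
  exact h1

theorem Red.smul (red : Red p A X) (c : ℤ_[p]) (a : A) :
    red.f (c • a) = PadicInt.toZMod c • red.f a := by
  have h1 : PadicInt.toZMod (c - (((PadicInt.toZMod c).val : ℕ) : ℤ_[p])) = 0 := by
    rw [map_sub, toZMod_val, sub_self]
  obtain ⟨d, hd⟩ := dvd_of_toZMod h1
  have h2 : c • a = (PadicInt.toZMod c).val • a + (p : ℤ_[p]) • (d • a) := by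
    rw [smul_smul, ← hd, sub_smul, Nat.cast_smul_eq_nsmul]
    abel
  have h3 : red.f ((p : ℤ_[p]) • (d • a)) = 0 := (red.ker _).2 ⟨_, rfl⟩
  rw [h2, map_add, h3, add_zero, map_nsmul]
  conv_rhs => rw [← ZMod.natCast_zmod_val (PadicInt.toZMod c)]
  rw [Nat.cast_smul_eq_nsmul]

theorem Red.fin_top [Module.Finite ℤ_[p] A] (red : Red p A X) :
    Module.Finite (ZMod p) (red.img ⊤) := by
  classical
  obtain ⟨s, hs⟩ := (inferInstance : Module.Finite ℤ_[p] A)
  have h1 : red.img ⊤ = Submodule.span (ZMod p) (red.f '' s) := by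
    apply le_antisymm
    · rintro x ⟨a, -, rfl⟩
      have ha : a ∈ Submodule.span ℤ_[p] (s : Set A) := by rw [hs]; trivial
      induction ha using Submodule.span_induction with
      | mem a ha => exact Submodule.subset_span ⟨a, ha, rfl⟩
      | zero => simp
      | add a b _ _ h3 h4 =>
        rw [map_add]
        exact Submodule.add_mem _ h3 h4
      | smul c a _ h3 =>
        rw [red.smul]
        exact Submodule.smul_mem _ _ h3
    · rw [Submodule.span_le]
      rintro x ⟨a, -, rfl⟩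
      exact ⟨a, trivial, rfl⟩
  rw [h1]
  exact Module.Finite.span_of_finite _ (s.finite_toSet.image _)

theorem Red.fin [Module.Finite ℤ_[p] A] (red : Red p A X) (F : Submodule ℤ_[p] A) :
    Module.Finite (ZMod p) (red.img F) := by
  have := red.fin_top
  exact Submodule.finiteDimensional_of_le (red.img_mono (le_top : F ≤ ⊤))

theorem Red.card_img [Module.Finite ℤ_[p] A] (red : Red p A X) (F : Submodule ℤ_[p] A) :
    Nat.card (F.toAddSubgroup.map red.f) = p ^ Module.finrank (ZMod p) (red.img F) := by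
  have := red.fin F
  have h1 := Module.natCard_eq_pow_finrank (K := ZMod p) (V := red.img F)
  rw [Nat.card_zmod] at h1
  exact h1

/-- the reduction of a lattice in coordinates -/
def Red.ofBasis {ι : Type} [Fintype ι] (b : Module.Basis ι ℤ_[p] A) : Red p A (ι → ZMod p) where
  f :=
    { toFun := fun a i => PadicInt.toZMod (b.equivFun a i)
      map_zero' := by ext i; simp
      map_add' := fun a c => by ext i; simp }
  ker a := by
    constructor
    · intro h
      have h1 : ∀ i, (p : ℤ_[p]) ∣ b.equivFun a i := fun i => dvd_of_toZMod (congrFun h i)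
      choose y hy using h1
      refine ⟨b.equivFun.symm y, b.equivFun.injective ?_⟩
      rw [map_smul, LinearEquiv.apply_symm_apply]
      ext i
      rw [Pi.smul_apply, smul_eq_mul, hy]
    · rintro ⟨y, rfl⟩
      ext i
      show PadicInt.toZMod (b.equivFun ((p : ℤ_[p]) • y) i) = 0
      rw [map_smul, Pi.smul_apply, smul_eq_mul, map_mul, map_natCast, ZMod.natCast_self,
        zero_mul]

theorem Red.ofBasis_surj {ι : Type} [Fintype ι] (b : Module.Basis ι ℤ_[p] A) :
    (Red.ofBasis b).img ⊤ = ⊤ := by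
  rw [eq_top_iff]
  intro x _
  refine ⟨b.equivFun.symm fun i => ((x i).val : ℤ_[p]), trivial, ?_⟩
  ext i
  show PadicInt.toZMod (b.equivFun (b.equivFun.symm _) i) = x i
  rw [LinearEquiv.apply_symm_apply]
  exact toZMod_val _

theorem Red.ker_eq (red : Red p A X) : red.f.ker = (pA p A).toAddSubgroup := by
  ext a
  rw [AddMonoidHom.mem_ker, red.ker]
  exact Iff.rfl

variable [Module.Finite ℤ_[p] A]

theorem Red.relIndex (red : Red p A X) (F : Submodule ℤ_[p] A) :
    (pA p A).toAddSubgroup.relIndex F.toAddSubgroup = p ^ Module.finrank (ZMod p) (red.img F) := by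
  rw [← red.ker_eq, AddSubgroup.relIndex_ker, red.card_img]

variable [Module.Free ℤ_[p] A]

theorem index_pA : (pA p A).toAddSubgroup.index = p ^ Module.finrank ℤ_[p] A := by
  have b := Module.finBasis ℤ_[p] A
  have h1 := (Red.ofBasis b).relIndex ⊤
  rw [Red.ofBasis_surj, finrank_top, Module.finrank_fintype_fun_eq_card, Fintype.card_fin] at h1
  rw [← h1]
  exact (AddSubgroup.relIndex_top_right _).symm

theorem Red.finrank_top (red : Red p A X) :
    Module.finrank (ZMod p) (red.img ⊤) = Module.finrank ℤ_[p] A := by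
  have h1 := red.relIndex ⊤
  have h2 : (⊤ : Submodule ℤ_[p] A).toAddSubgroup = ⊤ := rfl
  rw [h2, AddSubgroup.relIndex_top_right, index_pA] at h1
  exact (Nat.pow_right_injective hp.out.two_le h1).symm

end Index

/-! ### Newton over Hodge -/

section Newton

theorem card_quot_span {a : ℤ_[p]} (ha : a ≠ 0) :
    (Nat.card (ℤ_[p] ⧸ Ideal.span {a}) : ℝ) = ‖a‖⁻¹ := by
  set v := a.valuation
  have h1 : Ideal.span {a} = RingHom.ker (PadicInt.toZModPow v : ℤ_[p] →+* ZMod (p ^ v)) := by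
    rw [PadicInt.ker_toZModPow]
    have h2 := PadicInt.unitCoeff_spec ha
    conv_lhs => rw [h2]
    exact Ideal.span_singleton_mul_left_unit (PadicInt.unitCoeff ha).isUnit _
  have h3 : Function.Surjective (PadicInt.toZModPow v : ℤ_[p] →+* ZMod (p ^ v)) :=
    ZMod.ringHom_surjective _
  have h4 : Nat.card (ℤ_[p] ⧸ Ideal.span {a}) = p ^ v := by
    rw [h1, Nat.card_congr (RingHom.quotientKerEquivOfSurjective h3).toEquiv, Nat.card_zmod]
  rw [h4, PadicInt.norm_eq_zpow_neg_valuation ha, ← zpow_neg, neg_neg, zpow_natCast]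
  push_cast
  rfl

variable {A : Type} [AddCommGroup A] [Module ℤ_[p] A]

theorem card_quot {ι : Type} [Fintype ι] [DecidableEq ι] (N : Submodule ℤ_[p] A)
    (b : Module.Basis ι ℤ_[p] A) (h : Module.finrank ℤ_[p] N = Module.finrank ℤ_[p] A) :
    (Nat.card (A ⧸ N) : ℝ) = ‖∏ i, Submodule.smithNormalFormCoeffs b h i‖⁻¹ := by
  rw [Nat.card_congr (Submodule.quotientEquivPiSpan N b h).toEquiv, Nat.card_pi]
  push_cast
  rw [norm_prod, ← Finset.prod_inv_distrib]
  exact Finset.prod_congr rfl fun i _ =>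
    card_quot_span (Submodule.smithNormalFormCoeffs_ne_zero _ _ _)

variable [Module.Free ℤ_[p] A] [Module.Finite ℤ_[p] A]

theorem finrank_Fs (U : A →ₗ[ℤ_[p]] A) (x : ℕ) :
    Module.finrank ℤ_[p] (Fs U x) = Module.finrank ℤ_[p] A := by
  apply le_antisymm
  · exact Submodule.finrank_le _
  · let f : A →ₗ[ℤ_[p]] Fs U x := (LinearMap.lsmul ℤ_[p] A ((p : ℤ_[p]) ^ x)).codRestrict _
      fun y => smul_mem_Fs U x y
    refine LinearMap.finrank_le_finrank_of_injective (f := f) ?_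
    intro y z h
    have h1 : (p : ℤ_[p]) ^ x • y = (p : ℤ_[p]) ^ x • z := congrArg Subtype.val h
    exact smul_right_injective A (pow_ne_zero x (by exact_mod_cast hp.out.ne_zero)) h1

theorem coeff_charpolyRev_scaled {R ι : Type} [CommRing R] [Fintype ι] [DecidableEq ι]
    (M C' : Matrix ι ι R) (a : ι → R) (c : R) (h : ∀ i j, M i j * a j = c * C' i j) (r : ℕ) :
    (∏ i, a i) * M.charpolyRev.coeff r =
      c ^ r * (Matrix.det ((Matrix.diagonal a).map C - (X : R[X]) • C'.map C)).coeff r := by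
  have h1 : (C (∏ i, a i) : R[X]) = Matrix.det ((Matrix.diagonal a).map C) := by
    rw [Matrix.diagonal_map (map_zero _), Matrix.det_diagonal, map_prod]
  have h2 : Matrix.det ((1 : Matrix ι ι R[X]) - (X : R[X]) • M.map C) * C (∏ i, a i) =
      (Matrix.det ((Matrix.diagonal a).map C - (X : R[X]) • C'.map C)).comp (C c * X) := by
    rw [h1, ← Matrix.det_mul]
    have h3 := (Polynomial.compRingHom (C c * X : R[X])).map_det
      ((Matrix.diagonal a).map C - (X : R[X]) • C'.map C)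
    rw [Polynomial.coe_compRingHom_apply] at h3
    rw [h3]
    refine congrArg Matrix.det (Matrix.ext fun i j => ?_)
    rw [Matrix.diagonal_map (map_zero _), Matrix.mul_diagonal]
    have h4 := congrArg (C : R → R[X]) (h i j)
    rw [C_mul, C_mul] at h4
    simp only [Matrix.sub_apply, Matrix.smul_apply, Matrix.map_apply, smul_eq_mul,
      RingHom.mapMatrix_apply, Polynomial.coe_compRingHom_apply, Polynomial.sub_comp,
      Polynomial.mul_comp, Polynomial.X_comp, Polynomial.C_comp, Matrix.diagonal_apply,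
      Matrix.one_apply]
    by_cases hij : i = j
    · subst hij
      simp only [if_true, Polynomial.C_comp]
      linear_combination (-(X : R[X])) * h4
    · simp only [if_neg hij, Polynomial.zero_comp]
      linear_combination (-(X : R[X])) * h4
  have h5 := congrArg (fun P : R[X] => P.coeff r) h2
  simp only [Polynomial.coeff_mul_C, Polynomial.comp_C_mul_X_coeff] at h5
  rw [Matrix.charpolyRev, mul_comm, h5, mul_comm]

/-- **Newton over Hodge**. -/
theorem GE_le_index (U : A →ₗ[ℤ_[p]] A) (x : ℕ) :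
    GE U x ≤ Real.logb p (Nat.card (A ⧸ Fs U x)) := by
  classical
  let b := Module.finBasis ℤ_[p] A
  have hr := finrank_Fs U x
  set bT := Submodule.smithNormalFormTopBasis b hr with hbT
  set a := Submodule.smithNormalFormCoeffs b hr with ha
  have ha0 : ∀ i, a i ≠ 0 := Submodule.smithNormalFormCoeffs_ne_zero b hr
  have hmem : ∀ i, a i • bT i ∈ Fs U x := fun i => by
    rw [← Submodule.smithNormalFormBotBasis_def]
    exact (Submodule.smithNormalFormBotBasis b hr i).2
  choose y hy using hmem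
  have hcard := card_quot (Fs U x) b hr
  rw [← ha] at hcard
  set M := LinearMap.toMatrix bT bT U with hM
  set C' : Matrix _ _ ℤ_[p] := Matrix.of fun i j => bT.repr (y j) i with hC
  have h1 : ∀ i j, M i j * a j = (p : ℤ_[p]) ^ x * C' i j := by
    intro i j
    have h2 := congrArg (fun z => bT.repr z i) (hy j)
    simp only [map_smul, Finsupp.smul_apply, smul_eq_mul] at h2
    rw [hM, LinearMap.toMatrix_apply, hC, Matrix.of_apply, ← h2, mul_comm]
  have h3 := fun r => coeff_charpolyRev_scaled M C' a _ h1 r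
  have hp0 : (0 : ℝ) < p := by exact_mod_cast hp.out.pos
  rw [GE_eq_Gf bT, ← hM]
  have h4 := FF_det (toQ M) (x : ℝ)
  suffices h : - Real.logb p (Nat.card (A ⧸ Fs U x)) ≤ FF (p : ℝ) (toQ M).charpolyRev x by
    rw [h4] at h
    linarith
  have hne : (toQ M).charpolyRev ≠ 0 := by
    intro h0
    have h9 := congrArg (fun P : ℚ_[p][X] => P.eval 0) h0
    simp at h9
  refine le_FF one_lt_pF hne fun r hr0 => ?_
  have h5 : (toQ M).charpolyRev.coeff r = ((M.charpolyRev.coeff r : ℤ_[p]) : ℚ_[p]) := by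
    rw [toQ, charpolyRev_map, coeff_map]
    rfl
  rw [h5] at hr0 ⊢
  have h6 : 0 < ‖((M.charpolyRev.coeff r : ℤ_[p]) : ℚ_[p])‖ := norm_pos_iff.2 hr0
  have h7 := congrArg norm (h3 r)
  rw [norm_mul, norm_mul, norm_pow, norm_pow, PadicInt.norm_p] at h7
  have h8 : ‖∏ i, a i‖ * ‖((M.charpolyRev.coeff r : ℤ_[p]) : ℚ_[p])‖ ≤ (((p : ℝ)⁻¹) ^ x) ^ r := by
    have h9 := PadicInt.norm_le_one
      ((Matrix.det ((Matrix.diagonal a).map C - (X : ℤ_[p][X]) • C'.map C)).coeff r)
    rw [show ‖((M.charpolyRev.coeff r : ℤ_[p]) : ℚ_[p])‖ = ‖M.charpolyRev.coeff r‖ from rfl, h7]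
    exact mul_le_of_le_one_right (by positivity) h9
  have hprod : 0 < ‖∏ i, a i‖ := norm_pos_iff.2 (Finset.prod_ne_zero_iff.2 fun i _ => ha0 i)
  have h10 := Real.logb_le_logb_of_le (b := (p : ℝ)) one_lt_pF (mul_pos hprod h6) h8
  rw [Real.logb_mul hprod.ne' h6.ne', Real.logb_pow, Real.logb_pow, Real.logb_inv,
    Real.logb_self_eq_one one_lt_pF] at h10
  rw [hcard, Real.logb_inv, vv]
  nlinarith

end Newton

/-! ### The Hodge function -/

section Hodge

variable {A : Type} [AddCommGroup A] [Module ℤ_[p] A]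

/-- The Hodge function `log_p [A : Fs W x]`. -/
def HH (W : A →ₗ[ℤ_[p]] A) (x : ℕ) : ℝ := Real.logb p ((Fs W x).toAddSubgroup.index)

theorem p_ne_zero : (p : ℤ_[p]) ≠ 0 := by exact_mod_cast hp.out.ne_zero

section Swap

theorem pow_inj (p : ℕ) [Fact p.Prime] {A : Type} [AddCommGroup A] [Module ℤ_[p] A]
    [Module.Free ℤ_[p] A] (k : ℕ) {x y : A}
    (h : (p : ℤ_[p]) ^ k • x = (p : ℤ_[p]) ^ k • y) : x = y :=
  smul_right_injective A (pow_ne_zero k p_ne_zero) h

variable [Module.Free ℤ_[p] A]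

/-- `x ↦ p^(-k) W x` -/
def divp (W : A →ₗ[ℤ_[p]] A) (k : ℕ) : Fs W k →ₗ[ℤ_[p]] A where
  toFun x := x.2.choose
  map_add' x y := by
    apply pow_inj p k
    rw [smul_add, ← x.2.choose_spec, ← y.2.choose_spec, ← (x + y).2.choose_spec]
    exact map_add W _ _
  map_smul' c x := by
    apply pow_inj p k
    rw [RingHom.id_apply, smul_comm, ← x.2.choose_spec, ← (c • x).2.choose_spec]
    exact map_smul W _ _

theorem divp_spec (W : A →ₗ[ℤ_[p]] A) (k : ℕ) (x : Fs W k) :
    W x = (p : ℤ_[p]) ^ k • divp W k x := x.2.choose_spec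

variable {X : Type} [AddCommGroup X] [Module (ZMod p) X] {W : A →ₗ[ℤ_[p]] A} {n : ℕ}

omit [Module.Free ℤ_[p] A] in
theorem mem_Fs_iff {k : ℕ} {x : A} : x ∈ Fs W k ↔ ∃ y, W x = (p : ℤ_[p]) ^ k • y := Iff.rfl

theorem divp_W (hW : ∀ x, W (W x) = (p : ℤ_[p]) ^ n • x) {k : ℕ} (hk : k ≤ n) (x : Fs W k) :
    W (divp W k x) = (p : ℤ_[p]) ^ (n - k) • (x : A) := by
  apply pow_inj p k
  rw [← map_smul, ← divp_spec, hW, smul_smul, ← pow_add, Nat.add_sub_cancel' hk]

variable [Module.Finite ℤ_[p] A]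

theorem relIndex_Fs (hW : ∀ x, W (W x) = (p : ℤ_[p]) ^ n • x) (red : Red p A X) {k : ℕ}
    (hk : k ≤ n) : (Fs W (k + 1)).toAddSubgroup.relIndex (Fs W k).toAddSubgroup =
      p ^ Module.finrank (ZMod p) (red.img (Fs W (n - k))) := by
  let g : Fs W k →+ X := red.f.comp (divp W k).toAddMonoidHom
  have h1 : g.ker = (Fs W (k + 1)).toAddSubgroup.addSubgroupOf (Fs W k).toAddSubgroup := by
    ext x
    rw [AddMonoidHom.mem_ker, AddSubgroup.mem_addSubgroupOf]
    show red.f (divp W k x) = 0 ↔ (∃ y, W x = (p : ℤ_[p]) ^ (k + 1) • y)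
    rw [red.ker]
    constructor
    · rintro ⟨y, hy⟩
      exact ⟨y, by rw [divp_spec, ← hy, smul_smul, ← pow_succ]⟩
    · rintro ⟨y, hy⟩
      refine ⟨y, pow_inj p k ?_⟩
      rw [← divp_spec, hy, smul_smul, ← pow_succ]
  have h2 : g.range = (Fs W (n - k)).toAddSubgroup.map red.f := by
    ext z
    constructor
    · rintro ⟨x, rfl⟩
      exact ⟨divp W k x, ⟨x, divp_W hW hk x⟩, rfl⟩
    · rintro ⟨y, ⟨x, hx⟩, rfl⟩
      have h3 : W x = (p : ℤ_[p]) ^ k • y := by
        apply pow_inj p (n - k)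
        rw [← map_smul, ← hx, hW, smul_smul, ← pow_add, Nat.sub_add_cancel hk]
      refine ⟨⟨x, y, h3⟩, ?_⟩
      show red.f (divp W k ⟨x, y, h3⟩) = red.f y
      congr 1
      apply pow_inj p k
      rw [← divp_spec, h3]
  rw [AddSubgroup.relIndex, ← red.card_img, ← h2, ← AddSubgroup.index_ker, h1]

/-- the index of `Fs W x` -/
theorem index_Fs (hW : ∀ x, W (W x) = (p : ℤ_[p]) ^ n • x) (red : Red p A X) {x : ℕ}
    (hx : x ≤ n + 1) : (Fs W x).toAddSubgroup.index =
      p ^ ∑ k ∈ range x, Module.finrank (ZMod p) (red.img (Fs W (n - k))) := by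
  induction x with
  | zero =>
    rw [Fs_zero]
    simp
  | succ x ih =>
    rw [← AddSubgroup.relIndex_mul_index (show (Fs W (x + 1)).toAddSubgroup ≤
      (Fs W x).toAddSubgroup from Fs_anti W (Nat.le_succ x)), relIndex_Fs hW red (by omega),
      ih (by omega), ← pow_add, Finset.sum_range_succ, add_comm]

theorem HH_eq (hW : ∀ x, W (W x) = (p : ℤ_[p]) ^ n • x) (red : Red p A X) {x : ℕ}
    (hx : x ≤ n + 1) : HH W x =
      ∑ k ∈ range x, (Module.finrank (ZMod p) (red.img (Fs W (n - k))) : ℝ) := by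
  unfold HH
  rw [index_Fs hW red hx, Nat.cast_pow, Real.logb_pow, Real.logb_self_eq_one one_lt_pF, mul_one,
    Nat.cast_sum]

/-- duality -/
theorem finrank_add (hW : ∀ x, W (W x) = (p : ℤ_[p]) ^ n • x) (red : Red p A X) {k : ℕ}
    (hk : k < n) : Module.finrank (ZMod p) (red.img (Fs W (k + 1))) +
      Module.finrank (ZMod p) (red.img (Fs W (n - k))) = Module.finrank ℤ_[p] A := by
  let K := (Fs W k)
  let H : AddSubgroup K := (Fs W (k + 1)).toAddSubgroup.addSubgroupOf K.toAddSubgroup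
  have h1 : H.index = p ^ Module.finrank (ZMod p) (red.img (Fs W (n - k))) :=
    relIndex_Fs hW red hk.le
  have h2 : (pA p K).toAddSubgroup.index = p ^ Module.finrank ℤ_[p] A := by
    rw [index_pA, finrank_Fs]
  have h3 : (pA p K).toAddSubgroup ≤ H := by
    rintro x ⟨y, rfl⟩
    rw [AddSubgroup.mem_addSubgroupOf]
    obtain ⟨z, hz⟩ := y.2
    refine ⟨z, ?_⟩
    show W ((p : ℤ_[p]) • (y : A)) = _
    rw [map_smul, hz, smul_smul, ← pow_succ']
  let g : K →+ X := red.f.comp K.subtype.toAddMonoidHom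
  have h4 : (pA p K).toAddSubgroup.relIndex H =
      p ^ Module.finrank (ZMod p) (red.img (Fs W (k + 1))) := by
    have h5 : (pA p K).toAddSubgroup ⊓ H = g.ker ⊓ H := by
      ext x
      simp only [AddSubgroup.mem_inf]
      refine and_congr_left fun hx => ?_
      rw [AddMonoidHom.mem_ker]
      show (∃ y, (p : ℤ_[p]) • y = x) ↔ red.f x = 0
      rw [red.ker]
      constructor
      · rintro ⟨y, hy⟩
        exact ⟨y, congrArg Subtype.val hy⟩
      · rintro ⟨y, hy⟩
        obtain ⟨z, hz⟩ := (AddSubgroup.mem_addSubgroupOf.1 hx : ∃ z, W x = _ • z)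
        refine ⟨⟨y, z, ?_⟩, Subtype.ext hy⟩
        rw [← hy, map_smul, pow_succ', mul_smul] at hz
        exact smul_right_injective A p_ne_zero hz
    rw [← AddSubgroup.inf_relIndex_right, h5, AddSubgroup.inf_relIndex_right,
      AddSubgroup.relIndex_ker, ← red.card_img]
    congr 2
    ext z
    constructor
    · rintro ⟨x, hx, rfl⟩
      exact ⟨x, AddSubgroup.mem_addSubgroupOf.1 hx, rfl⟩
    · rintro ⟨x, hx, rfl⟩
      exact ⟨⟨x, Fs_anti W (Nat.le_succ k) hx⟩, AddSubgroup.mem_addSubgroupOf.2 hx, rfl⟩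
  have h6 := AddSubgroup.relIndex_mul_index h3
  rw [h4, h1, h2, ← pow_add] at h6
  exact Nat.pow_right_injective hp.out.two_le h6

end Swap

/-! ### Saturated stable sublattices -/

variable [Module.Free ℤ_[p] A] [Module.Finite ℤ_[p] A]

theorem index_Fs_ne_zero (W : A →ₗ[ℤ_[p]] A) (x : ℕ) : (Fs W x).toAddSubgroup.index ≠ 0 := by
  classical
  have b := Module.finBasis ℤ_[p] A
  have h1 := card_quot (Fs W x) b (finrank_Fs W x)
  have h2 : (Nat.card (A ⧸ Fs W x) : ℝ) ≠ 0 := by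
    rw [h1]
    exact inv_ne_zero (norm_ne_zero_iff.2 (Finset.prod_ne_zero_iff.2 fun i _ =>
      Submodule.smithNormalFormCoeffs_ne_zero _ _ _))
  exact_mod_cast h2

theorem GE_le_HH (W S : A →ₗ[ℤ_[p]] A) (x : ℕ) : GE (W ∘ₗ S) x ≤ HH W x := by
  refine (GE_le_index _ x).trans ?_
  have h1 : (Nat.card (A ⧸ Fs (W ∘ₗ S) x)) = (Fs (W ∘ₗ S) x).toAddSubgroup.index := rfl
  have h2 : (Fs (W ∘ₗ S) x).toAddSubgroup = (Fs W x).toAddSubgroup.comap S.toAddMonoidHom := rfl
  unfold HH
  rw [h1]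
  refine Real.logb_le_logb_of_le one_lt_pF ?_ ?_
  · exact_mod_cast Nat.pos_of_ne_zero (index_Fs_ne_zero _ x)
  · rw [h2, AddSubgroup.index_comap]
    exact_mod_cast Nat.le_of_dvd (Nat.pos_of_ne_zero (index_Fs_ne_zero W x))
      (AddSubgroup.relIndex_dvd_index_of_normal _ _)

/-- `B` is saturated in `A`. -/
def Sat (B : Submodule ℤ_[p] A) : Prop := ∀ x : A, (p : ℤ_[p]) • x ∈ B → x ∈ B

omit [Module.Free ℤ_[p] A] [Module.Finite ℤ_[p] A] in
theorem Sat.pow {B : Submodule ℤ_[p] A} (h : Sat B) (k : ℕ) {x : A}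
    (hx : (p : ℤ_[p]) ^ k • x ∈ B) : x ∈ B := by
  induction k with
  | zero => simpa using hx
  | succ k ih =>
    rw [pow_succ', mul_smul] at hx
    exact ih (h _ hx)

omit [Module.Free ℤ_[p] A] [Module.Finite ℤ_[p] A] in
theorem Sat.smul {B : Submodule ℤ_[p] A} (h : Sat B) {c : ℤ_[p]} (hc : c ≠ 0) {x : A}
    (hx : c • x ∈ B) : x ∈ B := by
  rw [PadicInt.unitCoeff_spec hc, mul_smul] at hx
  have h1 := B.smul_mem (↑(PadicInt.unitCoeff hc)⁻¹ : ℤ_[p]) hx
  rw [smul_smul, Units.inv_mul, one_smul] at h1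
  exact h.pow _ h1

omit [Module.Free ℤ_[p] A] in
theorem Sat.free {B : Submodule ℤ_[p] A} (h : Sat B) : Module.Free ℤ_[p] (A ⧸ B) := by
  have h1 : Module.IsTorsionFree ℤ_[p] (A ⧸ B) := by
    refine ⟨fun c hc y z hyz => ?_⟩
    obtain ⟨y, rfl⟩ := B.mkQ_surjective y
    obtain ⟨z, rfl⟩ := B.mkQ_surjective z
    have h2 : B.mkQ (c • (y - z)) = 0 := by
      rw [map_smul, map_sub, smul_sub]
      exact sub_eq_zero.2 hyz
    have h3 : y - z ∈ B := h.smul hc.ne_zero ((Submodule.Quotient.mk_eq_zero B).1 h2)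
    rw [← sub_eq_zero, ← map_sub]
    exact (Submodule.Quotient.mk_eq_zero B).2 h3
  exact inferInstance

theorem HH_super {B : Submodule ℤ_[p] A} (h : Sat B) (W : A →ₗ[ℤ_[p]] A)
    (hB : B ≤ B.comap W) (x : ℕ) : HH (W.restrict hB) x + HH (B.mapQ B W hB) x ≤ HH W x := by
  have := h.free
  set F := (Fs W x).toAddSubgroup with hF
  have h1 : (Fs (W.restrict hB) x).toAddSubgroup = F.comap B.subtype.toAddMonoidHom := by
    ext y
    constructor
    · rintro ⟨z, hz⟩
      exact ⟨z, congrArg Subtype.val hz⟩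
    · rintro ⟨z, hz⟩
      have hz' : W y = (p : ℤ_[p]) ^ x • z := hz
      have h2 : z ∈ B := h.pow x (by rw [← hz']; exact hB y.2)
      exact ⟨⟨z, h2⟩, Subtype.ext hz'⟩
  have h2 : (Fs (W.restrict hB) x).toAddSubgroup.index = F.relIndex (B.toAddSubgroup ⊔ F) := by
    rw [h1, AddSubgroup.index_comap, AddSubgroup.relIndex_sup_right]
    congr 1
    ext y
    simp
  have h3 := AddSubgroup.relIndex_mul_index (le_sup_right : F ≤ B.toAddSubgroup ⊔ F)
  have h4 : B.toAddSubgroup ⊔ F ≤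
      (Fs (B.mapQ B W hB) x).toAddSubgroup.comap B.mkQ.toAddMonoidHom := by
    rw [sup_le_iff]
    constructor
    · intro y hy
      refine ⟨0, ?_⟩
      have h5 : B.mkQ y = 0 := (Submodule.Quotient.mk_eq_zero B).2 hy
      show B.mapQ B W hB (B.mkQ y) = _
      rw [h5, map_zero, smul_zero]
    · rintro y ⟨z, hz⟩
      refine ⟨B.mkQ z, ?_⟩
      show B.mapQ B W hB (B.mkQ y) = _
      rw [Submodule.mkQ_apply, Submodule.mapQ_apply, hz, Submodule.Quotient.mk_smul]
      rfl
  have h5 := AddSubgroup.index_dvd_of_le h4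
  rw [AddSubgroup.index_comap_of_surjective _ (Submodule.mkQ_surjective B)] at h5
  have hne := index_Fs_ne_zero W x
  have h6 : (B.toAddSubgroup ⊔ F).index ≠ 0 := by
    intro h0
    rw [h0, mul_zero] at h3
    exact hne h3.symm
  have h7 := Nat.le_of_dvd (Nat.pos_of_ne_zero h6) h5
  have h8 := index_Fs_ne_zero (W.restrict hB) x
  have h9 := index_Fs_ne_zero (B.mapQ B W hB) x
  unfold HH
  rw [← Real.logb_mul (by exact_mod_cast h8) (by exact_mod_cast h9)]
  refine Real.logb_le_logb_of_le one_lt_pF ?_ ?_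
  · exact_mod_cast Nat.mul_pos (Nat.pos_of_ne_zero h8) (Nat.pos_of_ne_zero h9)
  · rw [← h3, ← h2]
    exact_mod_cast Nat.mul_le_mul_left _ h7

/-- **Sharpness passes to saturated stable sublattices.** -/
theorem sharp_sub {B : Submodule ℤ_[p] A} (h : Sat B) (W S : A →ₗ[ℤ_[p]] A)
    (hW : B ≤ B.comap W) (hS : B ≤ B.comap S) (x : ℕ) :
    GE ((W.restrict hW) ∘ₗ (S.restrict hS)) x ≤ HH (W.restrict hW) x ∧
    HH (W.restrict hW) x - GE ((W.restrict hW) ∘ₗ (S.restrict hS)) x ≤
      HH W x - GE (W ∘ₗ S) x := by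
  have := h.free
  refine ⟨GE_le_HH _ _ x, ?_⟩
  have hU : B ≤ B.comap (W ∘ₗ S) := fun y hy => hW (hS hy)
  have h1 := GE_add B (W ∘ₗ S) hU x
  have h2 : (W ∘ₗ S).restrict hU = (W.restrict hW) ∘ₗ (S.restrict hS) := rfl
  have h3 : B.mapQ B (W ∘ₗ S) hU = (B.mapQ B W hW) ∘ₗ (B.mapQ B S hS) := by
    ext y
    rfl
  rw [h2, h3] at h1
  have h4 := HH_super h W hW x
  have h5 := GE_le_HH (B.mapQ B W hW) (B.mapQ B S hS) x
  linarith

end Hodge

end Gouvea.P5
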