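import Pool.Agent.Work.MP_d3517d_nt.P5.Nx
import Pool.Agent.Work.MP_d3517d_nt.P5.HodgeAbs
import Pool.Agent.Work.MP_d3517d_nt.P5.LatBasis
import Pool.Agent.Work.MP_d3517d_nt.Sys.Source

/-!
# P5, level one: the symbols with values in `N_x` (MP_d3517d_nt)

* `AXx p N M n x` : the symbols with values in `N_x`, a submodule of `Sym ℤ_[p] N M n`;
* `AXx_anti`, `AXx_zero`, `pow_smul_mem_AXx`, `AXx_eq_of_smul` (saturation properties);
* `AXx_le_Fs` : `T_p (AXx x) ⊆ p ^ x Sym`;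
* `GE_Tp_le_index` : `GE T_p x ≤ log_p [Sym : AXx x]`.
-/

open Matrix ModularGroup Module Polynomial

noncomputable section

namespace Gouvea.P5.One

open Gouvea.PS (slk slk_apply slk_one slk_mul slk_smul slk_neg slk_map map_cast_mul)
open Gouvea.PX (SN Cusp inf act act_apply act_act IsG0 Sym upS upS_coe hecke rhoN rhoN_X opN_coe)
open Gouvea.Sys

variable (p : ℕ) [hp : Fact p.Prime]

/-- The symbols with values in `N_x`. -/
def AXx (N M n x : ℕ) : Submodule ℤ_[p] (Sym ℤ_[p] N M n) where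
  carrier := {φ | ∀ y z, φ.1 y z ∈ Nx p n x}
  add_mem' := fun {φ ψ} h h' y z => (Nx p n x).add_mem (h y z) (h' y z)
  zero_mem' := fun y z => (Nx p n x).zero_mem
  smul_mem' := fun c φ h y z => smul_mem_Nx (h y z) c

variable {p} {N M n : ℕ}

lemma mem_AXx {x : ℕ} {φ : Sym ℤ_[p] N M n} :
    φ ∈ AXx p N M n x ↔ ∀ y z, φ.1 y z ∈ Nx p n x := Iff.rfl

lemma AXx_anti {x y : ℕ} (h : x ≤ y) : AXx p N M n y ≤ AXx p N M n x :=
  fun _ hφ u v => Nx_anti n h (hφ u v)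

lemma AXx_zero : AXx p N M n 0 = ⊤ := by
  rw [eq_top_iff]
  intro φ _ y z
  rw [Nx_zero]
  exact AddSubgroup.mem_top _

lemma pow_smul_mem_AXx (x : ℕ) (φ : Sym ℤ_[p] N M n) :
    (p : ℤ_[p]) ^ x • φ ∈ AXx p N M n x := fun y z => pow_smul_mem_Nx n x (φ.1 y z)

/-- division by a power of `p` of a symbol with divisible values -/
theorem exists_pow_smul {x : ℕ} (φ : Sym ℤ_[p] N M n)
    (h : ∀ y z i, (p : ℤ_[p]) ^ x ∣ φ.1 y z i) :
    ∃ ψ : Sym ℤ_[p] N M n, φ = (p : ℤ_[p]) ^ x • ψ := by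
  choose ψ hψ using h
  have h2 : (p : ℤ_[p]) ^ x • ψ = φ.1 := by
    funext y z i
    rw [hψ y z i]
    rfl
  refine ⟨⟨ψ, ⟨fun u v w => ?_, fun g hg => ?_⟩⟩, Subtype.ext h2.symm⟩
  · funext i
    refine mul_left_cancel₀ (pp_ne (p := p) x) ?_
    have := congrFun (φ.2.1 u v w) i
    rw [← h2] at this
    simpa [mul_add] using this
  · have h3 := φ.2.2 g hg
    rw [← h2, map_smul] at h3
    funext u v i
    refine mul_left_cancel₀ (pp_ne (p := p) x) ?_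
    exact congrFun (congrFun (congrFun h3 u) v) i

/-- multiplication of a divisible vector by a matrix -/
lemma dvd_mulVec {m x : ℕ} (A : Matrix (Fin m) (Fin m) ℤ_[p]) {w : Fin m → ℤ_[p]}
    (hw : ∀ i, (p : ℤ_[p]) ^ x ∣ w i) (i : Fin m) : (p : ℤ_[p]) ^ x ∣ (A *ᵥ w) i := by
  rw [Matrix.mulVec, dotProduct]
  exact Finset.dvd_sum fun j _ => Dvd.dvd.mul_left (hw j) _

/-- The values on `N_x` of a product `k diag(p, 1) h` are divisible by `p ^ x`. -/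
lemma dvd_slk {x : ℕ} {v : Vn p n} (hv : v ∈ Nx p n x) (k : G) (h : Matrix (Fin 2) (Fin 2) ℤ)
    (i : Fin (n + 1)) :
    (p : ℤ_[p]) ^ x ∣ (slk n ((k.1 * dlt p * h).map (Int.cast : ℤ → ℤ_[p])) *ᵥ v) i := by
  rw [map_cast_mul, slk_mul, ← Matrix.mulVec_mulVec]
  exact dvd_mulVec _ (fun j => hv k j) i

/-- **`T_p` maps the symbols with values in `N_x` to `p ^ x Sym`.** -/
theorem dvd_hecke [NeZero M] (hNM : N ∣ M) {x : ℕ} {φ : Sym ℤ_[p] N M n}
    (hφ : φ ∈ AXx p N M n x) (y z : Cusp N) (i : Fin (n + 1)) :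
    (p : ℤ_[p]) ^ x ∣ hecke ℤ_[p] N M n p φ.1 y z i := by
  have hp0 : (p : ℤ) ≠ 0 := by exact_mod_cast hp.out.ne_zero
  unfold hecke
  rw [LinearMap.add_apply, LinearMap.sum_apply, Pi.add_apply, Pi.add_apply, Pi.add_apply]
  refine dvd_add ?_ ?_
  · rw [Finset.sum_apply, Finset.sum_apply, Finset.sum_apply]
    refine Finset.dvd_sum fun b _ => ?_
    rw [act_apply, upS_coe isCoprime_one_left (by rw [one_mul]; exact hp0)]
    have h1 : (!![(1 : ℤ), (b : ℤ); 0, (p : ℤ)] : Matrix (Fin 2) (Fin 2) ℤ) =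
        (S : G).1 * dlt p * !![0, 1; -1, -(b : ℤ)] := by
      show _ = (!![0, -1; 1, 0] : Matrix (Fin 2) (Fin 2) ℤ) * !![(p : ℤ), 0; 0, 1] * _
      rw [Matrix.mul_fin_two, Matrix.mul_fin_two]
      simp
    rw [h1]
    exact dvd_slk (hφ _ _) S _ i
  · split_ifs with hpM
    · exact dvd_zero _
    · have hcop : IsCoprime (p : ℤ) (N : ℤ) := PX.cop_prime_rep hp.out hNM hpM
      rw [act_apply, upS_coe hcop (by rw [mul_one]; exact hp0)]
      have h1 : (!![(p : ℤ), 0; 0, 1] : Matrix (Fin 2) (Fin 2) ℤ) = (1 : G).1 * dlt p * 1 := by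
        show _ = (1 : Matrix (Fin 2) (Fin 2) ℤ) * dlt p * 1
        rw [one_mul, mul_one]
        rfl
      rw [h1]
      exact dvd_slk (hφ _ _) 1 _ i

theorem AXx_le_Fs [NeZero M] (hNM : N ∣ M) (x : ℕ) :
    AXx p N M n x ≤ Fs (rhoN ℤ_[p] N M n hNM (Xp p)) x := by
  intro φ hφ
  rw [mem_Fs]
  refine exists_pow_smul _ fun y z i => ?_
  rw [Xp, rhoN_X, opN_coe]
  exact dvd_hecke hNM hφ y z i

/-- `AXx x` has finite index. -/
theorem index_AXx_ne_zero [Module.Finite ℤ_[p] (Sym ℤ_[p] N M n)]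
    [Module.Free ℤ_[p] (Sym ℤ_[p] N M n)] (x : ℕ) :
    (AXx p N M n x).toAddSubgroup.index ≠ 0 := by
  have h1 := index_Fs_ne_zero (p := p)
    (LinearMap.id : Sym ℤ_[p] N M n →ₗ[ℤ_[p]] Sym ℤ_[p] N M n) x
  refine ne_zero_of_dvd_ne_zero h1 (AddSubgroup.index_dvd_of_le ?_)
  rintro φ ⟨ψ, hψ⟩
  have h2 : φ = (p : ℤ_[p]) ^ x • ψ := hψ
  rw [h2]
  exact pow_smul_mem_AXx x ψ

/-- **The Newton function of `T_p` is bounded by the index.** -/
theorem GE_Tp_le_index [NeZero M] (hNM : N ∣ M) [Module.Finite ℤ_[p] (Sym ℤ_[p] N M n)]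
    [Module.Free ℤ_[p] (Sym ℤ_[p] N M n)] (x : ℕ) :
    GE (rhoN ℤ_[p] N M n hNM (Xp p)) x ≤
      Real.logb p ((AXx p N M n x).toAddSubgroup.index) := by
  refine (GE_le_index _ x).trans ?_
  have h1 : (AXx p N M n x).toAddSubgroup ≤ (Fs (rhoN ℤ_[p] N M n hNM (Xp p)) x).toAddSubgroup :=
    AXx_le_Fs hNM x
  have h2 : Nat.card (Sym ℤ_[p] N M n ⧸ Fs (rhoN ℤ_[p] N M n hNM (Xp p)) x) =
    (Fs (rhoN ℤ_[p] N M n hNM (Xp p)) x).toAddSubgroup.index := rfl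
  rw [h2]
  have h3 := index_Fs_ne_zero (rhoN ℤ_[p] N M n hNM (Xp p)) x
  have h4 := AddSubgroup.index_dvd_of_le h1
  refine Real.logb_le_logb_of_le one_lt_pF ?_ ?_
  · exact_mod_cast Nat.pos_of_ne_zero h3
  · exact_mod_cast Nat.le_of_dvd (Nat.pos_of_ne_zero (index_AXx_ne_zero x)) h4

end Gouvea.P5.One
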