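import Pool.Agent.Work.MP_d3517d_nt.P5.KerBound
import Pool.Agent.Work.MP_d3517d_nt.P5.Defs

/-!
# P5: dimension of the symbols modulo `p` with values of degree `≤ t` (MP_d3517d_nt)

`6 dim SymLe (ℤ/p) N M n t ≤ [SL_2(ℤ) : Γ₀(M)] (t + 1 + 4)` for `p = 2, 3`, `p ∣ M`, `N ∣ M`,
`N ≥ 2`, `n` even, `t ≤ n`, and without the `4` if `4 ∣ M` or `9 ∣ M` (any `p`).
-/

open Matrix ModularGroup Module CongruenceSubgroup Polynomial

noncomputable section

namespace Gouvea.P5

open Gouvea.PS (slk slk_apply slk_one slk_mul slk_smul slk_neg slk_map map_cast_mul)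
open Gouvea.PX (SN Cusp inf act IsG0 Sym SymLe)

/-! ### kernels of triangular matrices -/

section tri

variable {k : Type} [Field k]

/-- A linear map on `k^(t+1)` lowering the degree by `s` with nonzero leading terms for the
degrees in `J` has kernel of dimension `≤ t + 1 - |J|`. -/
lemma finrank_ker_add_card_le {t : ℕ} (L : (Fin (t + 1) → k) →ₗ[k] (Fin (t + 1) → k)) (s : ℕ)
    (J : Finset (Fin (t + 1))) (c : Fin (t + 1) → Fin (t + 1) → k)
    (hL : ∀ v i, L v i = ∑ j, c i j * v j)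
    (h0 : ∀ i j : Fin (t + 1), (j : ℕ) < i + s → c i j = 0)
    (h1 : ∀ i j : Fin (t + 1), j ∈ J → (j : ℕ) = i + s → c i j ≠ 0)
    (h2 : ∀ j ∈ J, s ≤ (j : ℕ)) :
    finrank k (LinearMap.ker L) + J.card ≤ t + 1 := by
  classical
  let Φ : LinearMap.ker L →ₗ[k] ({j // j ∉ J} → k) :=
    { toFun := fun v j => v.1 j.1
      map_add' := fun _ _ => rfl
      map_smul' := fun _ _ => rfl }
  have hΦ : Function.Injective Φ := by
    rw [← LinearMap.ker_eq_bot, LinearMap.ker_eq_bot']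
    intro v hv
    have hv0 : ∀ j, j ∉ J → v.1 j = 0 := fun j hj => congrFun hv ⟨j, hj⟩
    by_contra hne
    have hex : (Finset.univ.filter fun j : Fin (t + 1) => v.1 j ≠ 0).Nonempty := by
      by_contra hc
      rw [Finset.not_nonempty_iff_eq_empty, Finset.filter_eq_empty_iff] at hc
      exact hne (Subtype.ext (funext fun j => not_not.1 (hc (Finset.mem_univ j))))
    obtain ⟨j, hj, hmax⟩ := Finset.exists_max_image _ (fun j : Fin (t + 1) => (j : ℕ)) hex
    rw [Finset.mem_filter] at hj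
    have hjJ : j ∈ J := by
      by_contra hc
      exact hj.2 (hv0 j hc)
    have hs := h2 j hjJ
    let i : Fin (t + 1) := ⟨j - s, by omega⟩
    have hij : (j : ℕ) = i + s := by
      show (j : ℕ) = (j : ℕ) - s + s
      omega
    have h3 : L v.1 i = c i j * v.1 j := by
      rw [hL, Finset.sum_eq_single j]
      · intro l _ hl
        rcases lt_trichotomy (l : ℕ) j with h | h | h
        · rw [h0 i l (by omega), zero_mul]
        · exact absurd (Fin.ext h) hl
        · have : v.1 l = 0 := by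
            by_contra hc
            have := hmax l (Finset.mem_filter.2 ⟨Finset.mem_univ _, hc⟩)
            omega
          rw [this, mul_zero]
      · intro h
        exact absurd (Finset.mem_univ _) h
    have h4 : L v.1 = 0 := v.2
    rw [h4] at h3
    exact mul_ne_zero (h1 i j hjJ hij) hj.2 h3.symm
  have h5 := LinearMap.finrank_le_finrank_of_injective hΦ
  rw [Module.finrank_fintype_fun_eq_card] at h5
  have h6 : Fintype.card {j // j ∉ J} = t + 1 - J.card := by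
    rw [Fintype.card_subtype_compl, Fintype.card_fin, Fintype.card_coe]
  have h7 : J.card ≤ t + 1 := by
    have := Finset.card_le_univ J
    rwa [Fintype.card_fin] at this
  omega

end tri

/-! ### the action -/

section action

variable (k : Type) [Field k]

/-- the matrix of `γ⁻¹` modulo `p` -/
def red (γ : G) : Matrix (Fin 2) (Fin 2) k := (γ⁻¹).1.map (Int.cast : ℤ → k)

lemma red_one : red k 1 = 1 := by
  unfold red
  rw [inv_one, Matrix.SpecialLinearGroup.coe_one]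
  simp [Matrix.map_one]

lemma red_mul (γ δ : G) : red k (γ * δ) = red k δ * red k γ := by
  unfold red
  rw [_root_.mul_inv_rev, Matrix.SpecialLinearGroup.coe_mul, map_cast_mul]

lemma red_neg_one : red k (-1) = -1 := by
  unfold red
  have : ((-1 : G)⁻¹ : G) = -1 := by
    rw [inv_eq_iff_mul_eq_one]
    simp
  rw [this, Matrix.SpecialLinearGroup.coe_neg, Matrix.SpecialLinearGroup.coe_one]
  ext i j
  fin_cases i <;> fin_cases j <;> simp

variable {k}

/-- for `c = 0` the action on the monomials of degree `j ≤ t ≤ n` is up to a factor the action of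
weight `t` -/
lemma slR_of_c {g : Matrix (Fin 2) (Fin 2) k} (hg : g 1 0 = 0) {n t : ℕ} (ht : t ≤ n) (i j : ℕ)
    (hj : j ≤ t) : slR n g i j = g 1 1 ^ (n - t) * slR t g i j := by
  unfold slR
  rw [hg, map_zero, zero_mul, zero_add, ← map_pow, ← map_pow, coeff_mul_C, coeff_mul_C,
    show n - j = (n - t) + (t - j) by omega, pow_add]
  ring

/-- for `c = 0` the action is upper triangular -/
lemma slR_of_c_zero {g : Matrix (Fin 2) (Fin 2) k} (hg : g 1 0 = 0) {n : ℕ} (i j : ℕ)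
    (hij : j < i) : slR n g i j = 0 := by
  unfold slR
  rw [hg, map_zero, zero_mul, zero_add, ← map_pow, coeff_mul_C]
  rw [coeff_eq_zero_of_natDegree_lt, zero_mul]
  refine lt_of_le_of_lt (natDegree_pow_le.trans ?_) hij
  calc j * (C (g 0 0) * X + C (g 0 1) : k[X]).natDegree ≤ j * 1 :=
        Nat.mul_le_mul_left j natDegree_linear_le
    _ = j := mul_one j

/-- unipotent elements -/
lemma slR_unip {g : Matrix (Fin 2) (Fin 2) k} (ha : g 0 0 = 1) (hc : g 1 0 = 0)
    (hd : g 1 1 = 1) {n : ℕ} (i j : ℕ) :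
    slR n g i j = (g 0 1) ^ (j - i) * (j.choose i : k) := by
  unfold slR
  rw [ha, hc, hd, map_zero, map_one, zero_mul, zero_add, one_pow, mul_one, one_mul,
    coeff_X_add_C_pow]

/-- The action of `Γ₀(M)`, `p ∣ M`, on the polynomials of degree `≤ t`. -/
def rho (k : Type) [Field k] (n t : ℕ) (γ : G) : (Fin (t + 1) → k) →ₗ[k] (Fin (t + 1) → k) :=
  (red k γ 1 1) ^ (n - t) • (slk t (red k γ)).toLin'

lemma rho_apply (n t : ℕ) (γ : G) (v : Fin (t + 1) → k) :
    rho k n t γ v = (red k γ 1 1) ^ (n - t) • (slk t (red k γ)).mulVec v := by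
  unfold rho
  rw [LinearMap.smul_apply, Matrix.toLin'_apply]

lemma dvd_of_mem {M : ℕ} {γ : G} (h : γ ∈ Gamma0 M) : (M : ℤ) ∣ γ.1 1 0 :=
  (ZMod.intCast_zmod_eq_zero_iff_dvd _ M).1 (Gamma0_mem.1 h)

lemma mem_of_dvd {M : ℕ} {γ : G} (h : (M : ℤ) ∣ γ.1 1 0) : γ ∈ Gamma0 M :=
  Gamma0_mem.2 ((ZMod.intCast_zmod_eq_zero_iff_dvd _ M).2 h)

lemma red_c {M : ℕ} (hM : (M : k) = 0) {γ : G} (hγ : γ ∈ Gamma0 M) : red k γ 1 0 = 0 := by
  obtain ⟨c, hc⟩ := dvd_of_mem ((Gamma0 M).inv_mem hγ)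
  show (((γ⁻¹).1 1 0 : ℤ) : k) = 0
  rw [hc]
  push_cast
  rw [hM, zero_mul]

lemma isAct_rho {M n t : ℕ} (hM : (M : k) = 0) (hn : Even n) (ht : t ≤ n) :
    IsAct (Gamma0 M) (rho k n t) where
  one := by
    ext v i
    rw [LinearMap.coe_comp, Function.comp_apply, rho_apply, red_one, slk_one, Matrix.one_mulVec,
      Matrix.one_apply_eq, one_pow, one_smul]
    rfl
  mul γ hγ δ hδ v := by
    rw [rho_apply, rho_apply, rho_apply, red_mul, slk_mul, Matrix.mulVec_smul,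
      Matrix.mulVec_mulVec, smul_smul]
    congr 1
    rw [Matrix.mul_apply, Fin.sum_univ_two, red_c hM hδ, zero_mul, zero_add, mul_pow, mul_comm]
  neg_mem := mem_of_dvd (by simp)
  neg := by
    ext v i
    rw [LinearMap.coe_comp, Function.comp_apply, rho_apply, red_neg_one, ← neg_one_smul k,
      slk_smul, slk_one, Matrix.smul_mulVec, Matrix.one_mulVec, smul_smul]
    have h1 : ((-1 : k) • (1 : Matrix (Fin 2) (Fin 2) k)) 1 1 = -1 := by simp
    rw [h1, ← pow_add, Nat.sub_add_cancel ht, hn.neg_one_pow, one_smul]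
    rfl

/-! ### entries of the elliptic elements -/

lemma det_eq (δ : G) : δ.1 0 0 * δ.1 1 1 - δ.1 0 1 * δ.1 1 0 = 1 := by
  have := δ.2
  rwa [det_fin_two] at this

lemma trace_conj (g w : G) : (g * w * g⁻¹).1 0 0 + (g * w * g⁻¹).1 1 1 = w.1 0 0 + w.1 1 1 := by
  have h1 : (g * w * g⁻¹).1.trace = w.1.trace := by
    have e : (g * w * g⁻¹).1 = (g.1 * w.1) * (g⁻¹).1 := rfl
    have e2 : (g⁻¹).1 * g.1 = 1 := by
      rw [← Matrix.SpecialLinearGroup.coe_mul, inv_mul_cancel]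
      rfl
    rw [e, Matrix.trace_mul_comm, ← Matrix.mul_assoc, e2, Matrix.one_mul]
  rwa [Matrix.trace_fin_two, Matrix.trace_fin_two] at h1

lemma inv_conj (g w : G) : (g * w * g⁻¹)⁻¹ = g * w⁻¹ * g⁻¹ := by group

lemma inv_trace_S (g : G) : (g * S * g⁻¹)⁻¹.1 0 0 + (g * S * g⁻¹)⁻¹.1 1 1 = 0 := by
  rw [inv_conj, trace_conj]
  simp [S]

lemma inv_trace_Re (g : G) : (g * Re * g⁻¹)⁻¹.1 0 0 + (g * Re * g⁻¹)⁻¹.1 1 1 = -1 := by
  rw [inv_conj, trace_conj]
  simp [Re]

/-- no elliptic elements of order four of level divisible by 3, 4 -/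
lemma no_four {M : ℕ} (hM : 3 ∣ M ∨ 4 ∣ M) (g : G) : g * S * g⁻¹ ∉ Gamma0 M := by
  intro h
  have h1 := dvd_of_mem ((Gamma0 M).inv_mem h)
  have h2 := det_eq (g * S * g⁻¹)⁻¹
  have h3 := inv_trace_S g
  generalize (g * S * g⁻¹)⁻¹.1 0 0 = a at *
  generalize (g * S * g⁻¹)⁻¹.1 0 1 = b at *
  generalize (g * S * g⁻¹)⁻¹.1 1 0 = c at *
  generalize (g * S * g⁻¹)⁻¹.1 1 1 = d at *
  have hd : d = -a := by linarith
  subst hd
  rcases hM with hM | hM
  · obtain ⟨c', hc'⟩ : (3 : ℤ) ∣ c := (Int.natCast_dvd_natCast.2 hM).trans h1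
    subst hc'
    have h4 : a * a + 3 * (b * c') = -1 := by linarith
    rcases (by omega : a % 3 = 0 ∨ a % 3 = 1 ∨ a % 3 = 2) with h5 | h5 | h5
    all_goals
      obtain ⟨q, hq⟩ : ∃ q, a = 3 * q + a % 3 := ⟨a / 3, by omega⟩
      rw [h5] at hq
      subst hq
      ring_nf at h4
      generalize b * c' = x at h4
      generalize q ^ 2 = y at h4
      omega
  · obtain ⟨c', hc'⟩ : (4 : ℤ) ∣ c := (Int.natCast_dvd_natCast.2 hM).trans h1
    subst hc'
    have h4 : a * a + 4 * (b * c') = -1 := by linarith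
    rcases (by omega : a % 2 = 0 ∨ a % 2 = 1) with h5 | h5
    all_goals
      obtain ⟨q, hq⟩ : ∃ q, a = 2 * q + a % 2 := ⟨a / 2, by omega⟩
      rw [h5] at hq
      subst hq
      ring_nf at h4
      generalize b * c' = x at h4
      generalize q ^ 2 = y at h4
      omega

/-- no elliptic elements of order three of level divisible by 2, 9 -/
lemma no_three {M : ℕ} (hM : 2 ∣ M ∨ 9 ∣ M) (g : G) : g * Re * g⁻¹ ∉ Gamma0 M := by
  intro h
  have h1 := dvd_of_mem ((Gamma0 M).inv_mem h)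
  have h2 := det_eq (g * Re * g⁻¹)⁻¹
  have h3 := inv_trace_Re g
  generalize (g * Re * g⁻¹)⁻¹.1 0 0 = a at *
  generalize (g * Re * g⁻¹)⁻¹.1 0 1 = b at *
  generalize (g * Re * g⁻¹)⁻¹.1 1 0 = c at *
  generalize (g * Re * g⁻¹)⁻¹.1 1 1 = d at *
  have hd : d = -1 - a := by linarith
  subst hd
  rcases hM with hM | hM
  · obtain ⟨c', hc'⟩ : (2 : ℤ) ∣ c := (Int.natCast_dvd_natCast.2 hM).trans h1
    subst hc'
    have h4 : a * a + a + 2 * (b * c') = -1 := by linarith
    rcases (by omega : a % 2 = 0 ∨ a % 2 = 1) with h5 | h5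
    all_goals
      obtain ⟨q, hq⟩ : ∃ q, a = 2 * q + a % 2 := ⟨a / 2, by omega⟩
      rw [h5] at hq
      subst hq
      ring_nf at h4
      generalize b * c' = x at h4
      generalize q ^ 2 = y at h4
      omega
  · obtain ⟨c', hc'⟩ : (9 : ℤ) ∣ c := (Int.natCast_dvd_natCast.2 hM).trans h1
    subst hc'
    have h4 : a * a + a + 9 * (b * c') = -1 := by linarith
    rcases (by omega : a % 3 = 0 ∨ a % 3 = 1 ∨ a % 3 = 2) with h5 | h5 | h5
    all_goals
      obtain ⟨q, hq⟩ : ∃ q, a = 3 * q + a % 3 := ⟨a / 3, by omega⟩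
      rw [h5] at hq
      subst hq
      ring_nf at h4
      generalize b * c' = x at h4
      generalize q ^ 2 = y at h4
      omega

/-- elliptic elements of order four of even level -/
lemma entries_four {M : ℕ} (hM : 2 ∣ M) {g : G} (h : g * S * g⁻¹ ∈ Gamma0 M) :
    (g * S * g⁻¹)⁻¹.1 0 0 % 2 = 1 ∧ (g * S * g⁻¹)⁻¹.1 0 1 % 2 = 1 ∧
      (g * S * g⁻¹)⁻¹.1 1 1 % 2 = 1 := by
  have h1 := dvd_of_mem ((Gamma0 M).inv_mem h)
  have h2 := det_eq (g * S * g⁻¹)⁻¹
  have h3 := inv_trace_S g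
  generalize (g * S * g⁻¹)⁻¹.1 0 0 = a at *
  generalize (g * S * g⁻¹)⁻¹.1 0 1 = b at *
  generalize (g * S * g⁻¹)⁻¹.1 1 0 = c at *
  generalize (g * S * g⁻¹)⁻¹.1 1 1 = d at *
  have hd : d = -a := by linarith
  subst hd
  obtain ⟨c', hc'⟩ : (2 : ℤ) ∣ c := (Int.natCast_dvd_natCast.2 hM).trans h1
  subst hc'
  have h4 : a * a + 2 * (b * c') = -1 := by linarith
  have ha : a % 2 = 1 := by
    by_contra hc
    obtain ⟨q, hq⟩ : ∃ q, a = 2 * q := ⟨a / 2, by omega⟩
    subst hq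
    ring_nf at h4
    generalize b * c' = x at h4
    generalize q ^ 2 = y at h4
    omega
  refine ⟨ha, ?_, by omega⟩
  by_contra hb
  obtain ⟨q, hq⟩ : ∃ q, a = 2 * q + 1 := ⟨a / 2, by omega⟩
  obtain ⟨r, hr⟩ : ∃ r, b = 2 * r := ⟨b / 2, by omega⟩
  subst hq
  subst hr
  ring_nf at h4
  generalize r * c' = x at h4
  generalize q ^ 2 = y at h4
  omega

/-- elliptic elements of order three of level divisible by three -/
lemma entries_three {M : ℕ} (hM : 3 ∣ M) {g : G} (h : g * Re * g⁻¹ ∈ Gamma0 M) :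
    (g * Re * g⁻¹)⁻¹.1 0 0 % 3 = 1 ∧ (g * Re * g⁻¹)⁻¹.1 0 1 % 3 ≠ 0 ∧
      (g * Re * g⁻¹)⁻¹.1 1 1 % 3 = 1 := by
  have h1 := dvd_of_mem ((Gamma0 M).inv_mem h)
  have h2 := det_eq (g * Re * g⁻¹)⁻¹
  have h3 := inv_trace_Re g
  generalize (g * Re * g⁻¹)⁻¹.1 0 0 = a at *
  generalize (g * Re * g⁻¹)⁻¹.1 0 1 = b at *
  generalize (g * Re * g⁻¹)⁻¹.1 1 0 = c at *
  generalize (g * Re * g⁻¹)⁻¹.1 1 1 = d at *
  have hd : d = -1 - a := by linarith
  subst hd
  obtain ⟨c', hc'⟩ : (3 : ℤ) ∣ c := (Int.natCast_dvd_natCast.2 hM).trans h1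
  subst hc'
  have h4 : a * a + a + 3 * (b * c') = -1 := by linarith
  have ha : a % 3 = 1 := by
    by_contra hc
    rcases (by omega : a % 3 = 0 ∨ a % 3 = 2) with h5 | h5
    all_goals
      obtain ⟨q, hq⟩ : ∃ q, a = 3 * q + a % 3 := ⟨a / 3, by omega⟩
      rw [h5] at hq
      subst hq
      ring_nf at h4
      generalize b * c' = x at h4
      generalize q ^ 2 = y at h4
      omega
  refine ⟨ha, fun hb => ?_, by omega⟩
  obtain ⟨q, hq⟩ : ∃ q, a = 3 * q + 1 := ⟨a / 3, by omega⟩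
  obtain ⟨r, hr⟩ : ∃ r, b = 3 * r := ⟨b / 3, by omega⟩
  subst hq
  subst hr
  ring_nf at h4
  generalize r * c' = x at h4
  generalize q ^ 2 = y at h4
  omega

/-! ### the local bounds -/

lemma rho_sum (n t : ℕ) (γ : G) (v : Fin (t + 1) → k) (i : Fin (t + 1)) (hd : red k γ 1 1 = 1) :
    rho k n t γ v i = ∑ j : Fin (t + 1), slR t (red k γ) i j * v j := by
  rw [rho_apply, hd, one_pow, one_smul]
  rfl

lemma bound_four [CharP k 2] (n t : ℕ) {M : ℕ} (hM : 2 ∣ M) {g : G}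
    (h : g * S * g⁻¹ ∈ Gamma0 M) :
    2 * finrank k (LinearMap.ker (LinearMap.id + rho k n t (g * S * g⁻¹))) ≤ (t + 1) + 1 := by
  obtain ⟨ha, hb, hd⟩ := entries_four hM h
  have hMk : (M : k) = 0 := (CharP.cast_eq_zero_iff k 2 M).2 hM
  have hodd : ∀ x : ℤ, x % 2 = 1 → (x : k) = 1 := by
    intro x hx
    have h1 : ((x - 1 : ℤ) : k) = 0 := (CharP.intCast_eq_zero_iff k 2 _).2 (by
      push_cast
      omega)
    rw [Int.cast_sub, Int.cast_one, sub_eq_zero] at h1
    exact h1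
  have ha' : red k (g * S * g⁻¹) 0 0 = 1 := hodd _ ha
  have hb' : red k (g * S * g⁻¹) 0 1 = 1 := hodd _ hb
  have hd' : red k (g * S * g⁻¹) 1 1 = 1 := hodd _ hd
  have hc' : red k (g * S * g⁻¹) 1 0 = 0 := red_c hMk h
  have h2 : (1 : k) + 1 = 0 := by
    have := (CharP.cast_eq_zero_iff k 2 2).2 (dvd_refl 2)
    push_cast at this
    rw [one_add_one_eq_two, this]
  let J : Finset (Fin (t + 1)) := Finset.univ.image
    (fun m : Fin ((t + 1) / 2) => (⟨2 * m + 1, by omega⟩ : Fin (t + 1)))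
  have hJ : J.card = (t + 1) / 2 := by
    rw [Finset.card_image_of_injective, Finset.card_univ, Fintype.card_fin]
    intro a b hab
    have := congrArg (fun x : Fin (t + 1) => (x : ℕ)) hab
    simp only at this
    exact Fin.ext (by omega)
  have hJ' : ∀ j ∈ J, (j : ℕ) % 2 = 1 := by
    intro j hj
    obtain ⟨m, _, rfl⟩ := Finset.mem_image.1 hj
    show (2 * (m : ℕ) + 1) % 2 = 1
    omega
  have key := finrank_ker_add_card_le (LinearMap.id + rho k n t (g * S * g⁻¹)) 1 J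
    (fun i j => (if i = j then 1 else 0) + ((j : ℕ).choose i : k)) ?_ ?_ ?_ ?_
  · rw [hJ] at key
    omega
  · intro v i
    rw [LinearMap.add_apply, LinearMap.id_apply, Pi.add_apply, rho_sum n t _ v i hd']
    simp only [add_mul, Finset.sum_add_distrib, ite_mul, one_mul, zero_mul, Finset.sum_ite_eq,
      Finset.mem_univ, if_true]
    congr 1
    refine Finset.sum_congr rfl fun j _ => ?_
    rw [slR_unip ha' hc' hd', hb', one_pow, one_mul]
  · intro i j hij
    rcases Nat.lt_or_ge (j : ℕ) i with h1 | h1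
    · rw [if_neg (fun hc => by rw [hc] at h1; exact lt_irrefl _ h1),
        Nat.choose_eq_zero_of_lt h1, Nat.cast_zero, add_zero]
    · have : i = j := Fin.ext (by omega)
      rw [this, if_pos rfl, Nat.choose_self, Nat.cast_one, h2]
  · intro i j hj hij
    rw [if_neg (fun hc => by rw [hc] at hij; omega), zero_add, hij, Nat.choose_symm_add,
      Nat.choose_one_right]
    intro h0
    rw [CharP.cast_eq_zero_iff k 2] at h0
    have := hJ' j hj
    omega
  · intro j hj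
    have := hJ' j hj
    omega

lemma bound_three [CharP k 3] {n : ℕ} (hn : Even n) {t : ℕ} (ht : t ≤ n) {M : ℕ} (hM : 3 ∣ M)
    {g : G} (h : g * Re * g⁻¹ ∈ Gamma0 M) :
    3 * finrank k (LinearMap.ker (LinearMap.id + rho k n t (g * Re * g⁻¹) +
      rho k n t (g * Re * g⁻¹) ∘ₗ rho k n t (g * Re * g⁻¹))) ≤ 2 * (t + 1) + 2 := by
  obtain ⟨ha, hb, hd⟩ := entries_three hM h
  have hMk : (M : k) = 0 := (CharP.cast_eq_zero_iff k 3 M).2 hM
  have h1mod : ∀ x : ℤ, x % 3 = 1 → (x : k) = 1 := by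
    intro x hx
    have h1 : ((x - 1 : ℤ) : k) = 0 := (CharP.intCast_eq_zero_iff k 3 _).2 (by
      push_cast
      omega)
    rw [Int.cast_sub, Int.cast_one, sub_eq_zero] at h1
    exact h1
  set γ := g * Re * g⁻¹ with hγ
  have ha' : red k γ 0 0 = 1 := h1mod _ ha
  have hd' : red k γ 1 1 = 1 := h1mod _ hd
  have hb' : red k γ 0 1 ≠ 0 := by
    intro h0
    have h1 := (CharP.intCast_eq_zero_iff k 3 _).1 h0
    push_cast at h1
    omega
  have hc' : red k γ 1 0 = 0 := red_c hMk h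
  set β := red k γ 0 1 with hβ
  have h3 : (3 : k) = 0 := by
    have := (CharP.cast_eq_zero_iff k 3 3).2 (dvd_refl 3)
    push_cast at this
    exact this
  have e2 : red k (γ * γ) = red k γ * red k γ := red_mul k γ γ
  have ha2 : red k (γ * γ) 0 0 = 1 := by
    rw [e2, Matrix.mul_apply, Fin.sum_univ_two, ha', hc']
    ring
  have hd2 : red k (γ * γ) 1 1 = 1 := by
    rw [e2, Matrix.mul_apply, Fin.sum_univ_two, hd', hc']
    ring
  have hc2 : red k (γ * γ) 1 0 = 0 := by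
    rw [e2, Matrix.mul_apply, Fin.sum_univ_two, hc']
    ring
  have hb2 : red k (γ * γ) 0 1 = 2 * β := by
    rw [e2, Matrix.mul_apply, Fin.sum_univ_two, ha', hd', ← hβ]
    ring
  let J : Finset (Fin (t + 1)) := Finset.univ.image
    (fun m : Fin ((t + 1) / 3) => (⟨3 * m + 2, by omega⟩ : Fin (t + 1)))
  have hJ : J.card = (t + 1) / 3 := by
    rw [Finset.card_image_of_injective, Finset.card_univ, Fintype.card_fin]
    intro a b hab
    have := congrArg (fun x : Fin (t + 1) => (x : ℕ)) hab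
    simp only at this
    exact Fin.ext (by omega)
  have hJ' : ∀ j ∈ J, (j : ℕ) % 3 = 2 := by
    intro j hj
    obtain ⟨m, _, rfl⟩ := Finset.mem_image.1 hj
    show (3 * (m : ℕ) + 2) % 3 = 2
    omega
  have key := finrank_ker_add_card_le (LinearMap.id + rho k n t γ + rho k n t γ ∘ₗ rho k n t γ) 2 J
    (fun i j => (if i = j then 1 else 0) + β ^ ((j : ℕ) - i) * ((j : ℕ).choose i : k) +
      (2 * β) ^ ((j : ℕ) - i) * ((j : ℕ).choose i : k)) ?_ ?_ ?_ ?_
  · rw [hJ] at key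
    omega
  · intro v i
    rw [LinearMap.add_apply, LinearMap.add_apply, LinearMap.id_apply, Pi.add_apply, Pi.add_apply,
      LinearMap.comp_apply, ← (isAct_rho hMk hn ht).mul γ h γ h v, rho_sum n t _ v i hd',
      rho_sum n t _ v i hd2]
    simp only [add_mul, Finset.sum_add_distrib, ite_mul, one_mul, zero_mul, Finset.sum_ite_eq,
      Finset.mem_univ, if_true]
    congr 1
    · congr 1
      refine Finset.sum_congr rfl fun j _ => ?_
      rw [slR_unip ha' hc' hd']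
    · refine Finset.sum_congr rfl fun j _ => ?_
      rw [slR_unip ha2 hc2 hd2, hb2]
  · intro i j hij
    rcases Nat.lt_or_ge (j : ℕ) i with h1 | h1
    · rw [if_neg (fun hc => by rw [hc] at h1; exact lt_irrefl _ h1),
        Nat.choose_eq_zero_of_lt h1, Nat.cast_zero, mul_zero, mul_zero, add_zero, add_zero]
    · rcases Nat.lt_or_ge (i : ℕ) j with h4 | h4
      · rw [if_neg (fun hc => by rw [hc] at h4; exact lt_irrefl _ h4),
          show (j : ℕ) - i = 1 by omega, pow_one, pow_one, zero_add]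
        calc β * ((j : ℕ).choose i : k) + 2 * β * ((j : ℕ).choose i : k) =
            3 * (β * ((j : ℕ).choose i : k)) := by ring
          _ = 0 := by rw [h3, zero_mul]
      · have : i = j := Fin.ext (by omega)
        rw [this, if_pos rfl, Nat.choose_self, Nat.cast_one, Nat.sub_self, pow_zero, pow_zero]
        calc (1 : k) + 1 * 1 + 1 * 1 = 3 := by norm_num
          _ = 0 := h3
  · intro i j hj hij
    have hj2 := hJ' j hj
    rw [if_neg (fun hc => by rw [hc] at hij; omega), zero_add, show (j : ℕ) - i = 2 by omega]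
    have h5 : ((j : ℕ).choose i : k) = 1 := by
      have h6 : (j : ℕ).choose i * 2 = (i + 2) * (i + 1) := by
        rw [hij, Nat.choose_symm_add, Nat.choose_two_right]
        rw [show (i : ℕ) + 2 - 1 = i + 1 by omega]
        exact Nat.div_mul_cancel (even_iff_two_dvd.1 (by
          rw [mul_comm]
          exact Nat.even_mul_succ_self ((i : ℕ) + 1)))
      obtain ⟨m, hm⟩ : ∃ m, (i : ℕ) = 3 * m := ⟨i / 3, by omega⟩
      have h7 : ((j : ℕ).choose i : k) * 2 = 2 := by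
        calc ((j : ℕ).choose i : k) * 2 = (((j : ℕ).choose i * 2 : ℕ) : k) := by push_cast; ring
          _ = (((i + 2) * (i + 1) : ℕ) : k) := by rw [h6]
          _ = 3 * (3 * (m : k) ^ 2 + 3 * m) + 2 := by
            rw [hm]
            push_cast
            ring
          _ = 2 := by rw [h3]; ring
      calc ((j : ℕ).choose i : k) = 3 * ((j : ℕ).choose i : k) - ((j : ℕ).choose i : k) * 2 := by
            ring
        _ = 3 - 2 := by rw [h7, h3, zero_mul]
        _ = 1 := by norm_num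
    rw [h5]
    have h8 : β ^ 2 * 1 + (2 * β) ^ 2 * 1 = 3 * β ^ 2 + 2 * β ^ 2 := by ring
    rw [h8, h3, zero_mul, zero_add]
    refine mul_ne_zero (fun h2 => ?_) (pow_ne_zero 2 hb')
    have : (1 : k) = 0 := by
      calc (1 : k) = 3 - 2 := by norm_num
        _ = 0 := by rw [h3, h2, sub_zero]
    exact one_ne_zero this
  · intro j hj
    have := hJ' j hj
    omega

end action

/-! ### cusps -/

/-- an element of `Γ₀(N)` in the monoid -/
def toSN {N : ℕ} (γ : G) (h : γ ∈ Gamma0 N) : SN N :=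
  ⟨γ.1, by
    refine ⟨?_, ?_, dvd_of_mem h⟩
    · rw [γ.2]
      exact one_ne_zero
    · obtain ⟨c, hc⟩ := dvd_of_mem h
      have h1 := det_eq γ
      rw [hc] at h1
      exact ⟨γ.1 1 1, -(γ.1 0 1 * c), by linear_combination h1⟩⟩

lemma toSN_mul {N : ℕ} (γ δ : G) (h : γ ∈ Gamma0 N) (h' : δ ∈ Gamma0 N) :
    toSN (γ * δ) ((Gamma0 N).mul_mem h h') = toSN γ h * toSN δ h' := rfl

lemma isG0_toSN {N M : ℕ} (γ : G) (h : γ ∈ Gamma0 N) (h' : γ ∈ Gamma0 M) :
    IsG0 M (toSN γ h) := ⟨γ.2, dvd_of_mem h'⟩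

/-- the cusp `g ∞` -/
def cu {N : ℕ} (g : Gamma0 N) : Cusp N := toSN g.1 g.2 • inf N

lemma cu_mul {N : ℕ} (γ g : Gamma0 N) : cu (γ * g) = toSN γ.1 γ.2 • cu g := by
  unfold cu
  rw [← mul_smul]
  rfl

lemma toSN_smul_inf {N : ℕ} (γ : G) (h : γ ∈ Gamma0 N) (hc : γ.1 1 0 = 0) :
    toSN γ h • inf N = inf N := by
  show toSN γ h • Cusp.mk 1 0 _ _ _ = Cusp.mk 1 0 _ _ _
  obtain ⟨hu, hv, hne, e⟩ := PX.smul_mk (toSN γ h) 1 0 isCoprime_one_left (dvd_zero _)
    (Or.inl one_ne_zero)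
  rw [e, Cusp.mk_eq]
  show (γ.1 0 0 * 1 + γ.1 0 1 * 0) * 0 = 1 * (γ.1 1 0 * 1 + γ.1 1 1 * 0)
  rw [hc]
  ring

lemma cu_surjective {N : ℕ} : Function.Surjective (cu (N := N)) := by
  intro x
  refine Cusp.ind' (P := fun x => ∃ a, cu a = x) (fun u v hu hv hne => ?_) x
  obtain ⟨g, u', v', hg, hcop, hgu, hgv⟩ : ∃ g u' v' : ℤ, g ≠ 0 ∧ IsCoprime u' v' ∧
      u = g * u' ∧ v = g * v' := by
    have hg : Int.gcd u v ≠ 0 := by
      intro h
      rw [Int.gcd_eq_zero_iff] at h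
      rcases hne with h1 | h1
      · exact h1 h.1
      · exact h1 h.2
    obtain ⟨u', hu'⟩ := Int.gcd_dvd_left u v
    obtain ⟨v', hv'⟩ := Int.gcd_dvd_right u v
    refine ⟨Int.gcd u v, u', v', by exact_mod_cast hg, ?_, hu', hv'⟩
    obtain ⟨a, b, hab⟩ : ∃ a b, a * u + b * v = Int.gcd u v :=
      ⟨Int.gcdA u v, Int.gcdB u v, by rw [Int.gcd_eq_gcd_ab]; ring⟩
    refine ⟨a, b, ?_⟩
    have hg' : (Int.gcd u v : ℤ) ≠ 0 := by exact_mod_cast hg
    refine mul_left_cancel₀ hg' ?_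
    rw [mul_one]
    calc (Int.gcd u v : ℤ) * (a * u' + b * v') =
        a * ((Int.gcd u v : ℤ) * u') + b * ((Int.gcd u v : ℤ) * v') := by ring
      _ = a * u + b * v := by rw [← hu', ← hv']
      _ = Int.gcd u v := hab
  have hNv : (N : ℤ) ∣ v' := by
    rw [hgv] at hv
    rw [hgu] at hu
    exact (IsCoprime.of_mul_left_left hu).symm.dvd_of_dvd_mul_left hv
  obtain ⟨a, b, hab⟩ := hcop
  let γ : G := ⟨!![u', -b; v', a], by
    rw [det_fin_two_of]
    linear_combination hab⟩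
  have hγ : γ ∈ Gamma0 N := mem_of_dvd hNv
  refine ⟨⟨γ, hγ⟩, ?_⟩
  show toSN γ hγ • Cusp.mk 1 0 _ _ _ = _
  obtain ⟨hu1, hv1, hne1, e⟩ := PX.smul_mk (toSN γ hγ) 1 0 isCoprime_one_left (dvd_zero _)
    (Or.inl one_ne_zero)
  rw [e, Cusp.mk_eq]
  show (u' * 1 + -b * 0) * v = u * (v' * 1 + a * 0)
  rw [hgu, hgv]
  ring

/-! ### the comparison of the two kinds of symbols -/

section main

variable {k : Type} [Field k]

/-- restriction to the degrees `≤ t` and to pairs of group elements -/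
def toSy (N M n t : ℕ) (ht : t ≤ n) :
    SymLe k N M n t →ₗ[k] (Gamma0 N → Gamma0 N → Fin (t + 1) → k) where
  toFun φ g h i := φ.1 (cu g) (cu h) (Fin.castLE (Nat.succ_le_succ ht) i)
  map_add' _ _ := rfl
  map_smul' _ _ := rfl

lemma toSy_injective (N M n t : ℕ) (ht : t ≤ n) :
    Function.Injective (toSy (k := k) N M n t ht) := by
  rw [← LinearMap.ker_eq_bot, LinearMap.ker_eq_bot']
  intro φ hφ
  refine Subtype.ext (funext fun x => funext fun y => funext fun i => ?_)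
  obtain ⟨g, rfl⟩ := cu_surjective x
  obtain ⟨h, rfl⟩ := cu_surjective y
  rcases Nat.lt_or_ge t (i : ℕ) with h1 | h1
  · exact φ.2.2 _ _ i h1
  · exact congrFun (congrFun (congrFun hφ g) h) ⟨i, Nat.lt_succ_of_le h1⟩

/-- truncation of the action to the degrees `≤ t` -/
lemma trunc {n t : ℕ} (ht : t ≤ n) {g : Matrix (Fin 2) (Fin 2) k} (hg : g 1 0 = 0)
    (v : Fin (n + 1) → k) (hv : ∀ i : Fin (n + 1), t < (i : ℕ) → v i = 0) (i : Fin (t + 1)) :
    (slk n g).mulVec v (Fin.castLE (Nat.succ_le_succ ht) i) =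
      (g 1 1 ^ (n - t) • (slk t g).mulVec
        (fun j => v (Fin.castLE (Nat.succ_le_succ ht) j))) i := by
  have hle : t + 1 ≤ n + 1 := Nat.succ_le_succ ht
  have h1 : (slk n g).mulVec v (Fin.castLE hle i) =
      ∑ j : Fin (t + 1), slR n g i j * v (Fin.castLE hle j) := by
    show ∑ j : Fin (n + 1), slR n g i j * v j = _
    symm
    refine Finset.sum_of_injOn (Fin.castLE hle) (fun a _ b _ hab => Fin.castLE_injective hle hab)
      (fun a _ => Finset.mem_coe.2 (Finset.mem_univ _)) ?_ (fun j _ => rfl)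
    intro j _ hj
    have hj' : t < (j : ℕ) := by
      by_contra hc
      exact hj ⟨⟨j, by omega⟩, Finset.mem_coe.2 (Finset.mem_univ _), rfl⟩
    rw [hv j hj', mul_zero]
  rw [h1, Pi.smul_apply, smul_eq_mul]
  show _ = g 1 1 ^ (n - t) * ∑ j : Fin (t + 1), slR t g i j * v (Fin.castLE hle j)
  rw [Finset.mul_sum]
  refine Finset.sum_congr rfl fun j _ => ?_
  rw [slR_of_c hg ht _ _ (Nat.lt_succ_iff.1 j.2)]
  ring

lemma toSy_mem {N M n t : ℕ} (hM : (M : k) = 0) (hNM : N ∣ M) (ht : t ≤ n)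
    (φ : SymLe k N M n t) : toSy N M n t ht φ ∈ Sy (Gamma0 M) (Gamma0 N) (rho k n t) := by
  have hle : Gamma0 M ≤ Gamma0 N := fun γ hγ =>
    mem_of_dvd ((Int.natCast_dvd_natCast.2 hNM).trans (dvd_of_mem hγ))
  obtain ⟨φ, ⟨hadd, hinv⟩, hdeg⟩ := φ
  have hzero : ∀ x, φ x x = 0 := fun x => by
    have := hadd x x x
    simpa using this
  refine ⟨fun x y z => ?_, fun γ hγ x y => ?_, fun x y h => ?_, fun x y h => ?_⟩
  · funext i
    exact congrFun (hadd (cu x) (cu y) (cu z)) _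
  · have h1 : γ.1⁻¹ ∈ Gamma0 M := (Gamma0 M).inv_mem hγ
    have h2 := hinv (toSN γ.1⁻¹ (hle h1)) (isG0_toSN _ _ h1)
    have h3 := congrFun (congrFun h2 (cu (γ * x))) (cu (γ * y))
    have h4 : ∀ x : Gamma0 N, toSN γ.1⁻¹ (hle h1) • cu (γ * x) = cu x := by
      intro x
      rw [cu_mul, ← mul_smul, ← toSN_mul]
      have : toSN (γ.1⁻¹ * γ.1) ((Gamma0 N).mul_mem (hle h1) γ.2) = 1 := by
        refine Subtype.ext ?_
        show (γ.1⁻¹ * γ.1).1 = 1
        rw [inv_mul_cancel]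
        rfl
      rw [this, one_smul]
    rw [PX.act_apply, h4, h4] at h3
    funext i
    show φ (cu (γ * x)) (cu (γ * y)) _ = _
    rw [← h3, rho_apply]
    exact trunc ht (red_c hM hγ) _ (fun i hi => hdeg _ _ i hi) i
  · have h1 : cu y = cu x := by
      have : y = x * ⟨T, mem_of_dvd (by simp [T])⟩ := Subtype.ext h
      rw [this]
      unfold cu
      rw [show toSN (x * ⟨T, mem_of_dvd (by simp [T])⟩ : Gamma0 N).1
        (x * ⟨T, mem_of_dvd (by simp [T])⟩ : Gamma0 N).2 =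
        toSN x.1 x.2 * toSN T (mem_of_dvd (by simp [T])) from rfl, mul_smul,
        toSN_smul_inf T _ (by simp [T])]
    funext i
    show φ (cu x) (cu y) _ = 0
    rw [h1, hzero]
    rfl
  · have h1 : cu y = cu x := by
      have : y = x * ⟨-1, mem_of_dvd (by simp)⟩ := Subtype.ext h
      rw [this]
      unfold cu
      rw [show toSN (x * ⟨-1, mem_of_dvd (by simp)⟩ : Gamma0 N).1
        (x * ⟨-1, mem_of_dvd (by simp)⟩ : Gamma0 N).2 =
        toSN x.1 x.2 * toSN (-1) (mem_of_dvd (by simp)) from rfl, mul_smul,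
        toSN_smul_inf (-1) _ (by simp)]
    funext i
    show φ (cu x) (cu y) _ = 0
    rw [h1, hzero]
    rfl

lemma T_mem (N : ℕ) : T ∈ Gamma0 N := mem_of_dvd (by simp [T])

lemma S_not_mem {N : ℕ} (hN : 2 ≤ N) : S ∉ Gamma0 N := by
  intro h
  have h1 := dvd_of_mem h
  have h2 : (S : G).1 1 0 = 1 := by simp [S]
  rw [h2] at h1
  have h3 := Int.le_of_dvd one_pos h1
  omega

lemma Gamma0_le {N M : ℕ} (h : N ∣ M) : Gamma0 M ≤ Gamma0 N := fun _ hγ =>
  mem_of_dvd ((Int.natCast_dvd_natCast.2 h).trans (dvd_of_mem hγ))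

instance finite_Qt (Γ : Subgroup G) [Γ.FiniteIndex] : Finite (Qt Γ) :=
  Finite.of_equiv _ (QuotientGroup.quotientRightRelEquivQuotientLeftRel Γ).symm

/-- **General upper bound for the symbols with values of degree `≤ t`.** -/
theorem finrank_SymLe_le {N M n t : ℕ} [NeZero M] (hN : 2 ≤ N) (hNM : N ∣ M) (hM : (M : k) = 0)
    (hn : Even n) (ht : t ≤ n) (c c' : ℕ)
    (h : ∀ g : G, g * S * g⁻¹ ∈ Gamma0 M →
      2 * finrank k (LinearMap.ker (LinearMap.id + rho k n t (g * S * g⁻¹))) ≤ (t + 1) + c)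
    (h' : ∀ g : G, g * Re * g⁻¹ ∈ Gamma0 M →
      3 * finrank k (LinearMap.ker (LinearMap.id + rho k n t (g * Re * g⁻¹) +
        rho k n t (g * Re * g⁻¹) ∘ₗ rho k n t (g * Re * g⁻¹))) ≤ 2 * (t + 1) + c') :
    6 * finrank k (SymLe k N M n t) ≤ Nat.card (Qt (Gamma0 M)) * ((t + 1) + 3 * c + 2 * c') ∧
      FiniteDimensional k (SymLe k N M n t) := by
  have hV : finrank k (Fin (t + 1) → k) = t + 1 := by
    rw [Module.finrank_fintype_fun_eq_card, Fintype.card_fin]
  obtain ⟨h1, h2⟩ := six_mul_finrank_Sy_le (isAct_rho (k := k) hM hn ht) (Gamma0_le hNM)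
    (T_mem N) (S_not_mem hN) c c' (by rw [hV]; exact h) (by rw [hV]; exact h')
  rw [hV] at h1
  let Φ : SymLe k N M n t →ₗ[k] Sy (Gamma0 M) (Gamma0 N) (rho k n t) :=
    (toSy N M n t ht).codRestrict _ (toSy_mem hM hNM ht)
  have hΦ : Function.Injective Φ := fun φ ψ hφψ =>
    toSy_injective N M n t ht (congrArg Subtype.val hφψ)
  have h3 := LinearMap.finrank_le_finrank_of_injective hΦ
  exact ⟨(Nat.mul_le_mul_left 6 h3).trans h1, FiniteDimensional.of_injective Φ hΦ⟩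

/-- **`p = 2, 3`**: `6 dim ≤ [SL_2(ℤ) : Γ₀(M)] (t + 5)`. -/
theorem finrank_SymLe_le_add_four {p : ℕ} [CharP k p] (hp : p = 2 ∨ p = 3) {N M n t : ℕ}
    [NeZero M] (hN : 2 ≤ N) (hNM : N ∣ M) (hpM : p ∣ M) (hn : Even n) (ht : t ≤ n) :
    6 * finrank k (SymLe k N M n t) ≤ Nat.card (Qt (Gamma0 M)) * ((t + 1) + 4) ∧
      FiniteDimensional k (SymLe k N M n t) := by
  have hM : (M : k) = 0 := (CharP.cast_eq_zero_iff k p M).2 hpM
  rcases hp with rfl | rfl
  · obtain ⟨h1, h2⟩ := finrank_SymLe_le hN hNM hM hn ht 1 0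
      (fun g hg => bound_four n t hpM hg) (fun g hg => absurd hg (no_three (Or.inl hpM) g))
    exact ⟨h1.trans (Nat.mul_le_mul_left _ (by omega)), h2⟩
  · obtain ⟨h1, h2⟩ := finrank_SymLe_le hN hNM hM hn ht 0 2
      (fun g hg => absurd hg (no_four (Or.inl hpM) g)) (fun g hg => bound_three hn ht hpM hg)
    exact ⟨h1.trans (Nat.mul_le_mul_left _ (by omega)), h2⟩

/-- **No torsion** (`4 ∣ M` or `9 ∣ M`): `6 dim ≤ [SL_2(ℤ) : Γ₀(M)] (t + 1)`. -/
theorem finrank_SymLe_le_of_free {N M n t : ℕ} [NeZero M] (hN : 2 ≤ N) (hNM : N ∣ M)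
    (hM : (M : k) = 0) (h49 : 4 ∣ M ∨ 9 ∣ M) (hn : Even n) (ht : t ≤ n) :
    6 * finrank k (SymLe k N M n t) ≤ Nat.card (Qt (Gamma0 M)) * (t + 1) ∧
      FiniteDimensional k (SymLe k N M n t) := by
  obtain ⟨h1, h2⟩ := finrank_SymLe_le (k := k) hN hNM hM hn ht 0 0
    (fun g hg => absurd hg (no_four (h49.elim Or.inr
      (fun h => Or.inl ((by norm_num : 3 ∣ 9).trans h))) g))
    (fun g hg => absurd hg (no_three (h49.elim (fun h => Or.inl ((by norm_num : 2 ∣ 4).trans h))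
      Or.inr) g))
  exact ⟨h1.trans (Nat.mul_le_mul_left _ (by omega)), h2⟩

end main

end Gouvea.P5
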