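import Pool.Agent.Work.MP_d3517d_nt.P5.OneNum
import Pool.Agent.Work.MP_d3517d_nt.P5.OneDefs
import Pool.Agent.Work.MP_d3517d_nt.P5.Man
import Pool.Agent.Work.MP_d3517d_nt.P5.SymCount

/-!
# P5, level one: the symbols of level one are the period polynomials (MP_d3517d_nt)

* `ev` : `Sym ℤ_p 1 1 n → V`, `φ ↦ φ(∞, 0)`, with range `BB` (theorem of Manin);
* `index_AXx_one` : `[Sym : AXx x] = [BB : BB ∩ N_x]`;
* `abs_logb_AXx_one` : `|log_p [Sym : AXx x] - (p + 1) x² / 12| ≤ 4 n`.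
-/

open Matrix ModularGroup Module Polynomial CongruenceSubgroup

noncomputable section

namespace Gouvea.P5.One

open Gouvea.PS (slk slk_apply slk_one slk_mul slk_smul slk_neg slk_map map_cast_mul)
open Gouvea.PX (SN Cusp inf act act_apply act_act IsG0 Sym)

variable {p : ℕ} [Fact p.Prime] {n : ℕ}

lemma mem1 (g : G) : g ∈ Gamma0 1 := mem_of_dvd (by simp)

/-- the cusp `g ∞` -/
def cs (g : G) : Cusp 1 := cu (N := 1) ⟨g, mem1 g⟩

lemma cs_surjective : Function.Surjective cs := by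
  intro x
  obtain ⟨g, hg⟩ := cu_surjective (N := 1) x
  exact ⟨g.1, hg⟩

lemma cs_mul (g h : G) : cs (g * h) = toSN g (mem1 g) • cs h :=
  cu_mul (N := 1) ⟨g, mem1 g⟩ ⟨h, mem1 h⟩

lemma cs_eq_of {g : G} (hc : g.1 1 0 = 0) : cs g = cs 1 := by
  have h1 := toSN_smul_inf (N := 1) g (mem1 g) hc
  have h2 : cs 1 = inf 1 := toSN_smul_inf (N := 1) 1 (mem1 1) rfl
  rw [h2]
  exact h1

lemma cs_mul_T (g : G) : cs (g * T) = cs g := by
  rw [cs_mul, cs_eq_of (g := T) rfl, ← cs_mul, mul_one]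

lemma cs_mul_neg (g : G) : cs (g * -1) = cs g := by
  rw [cs_mul, cs_eq_of (g := -1) (by simp), ← cs_mul, mul_one]

/-- equivariance of the symbols -/
lemma sym_eq (φ : Sym ℤ_[p] 1 1 n) (g : G) (x y : G) :
    sla p n g.1 (φ.1 (cs (g * x)) (cs (g * y))) = φ.1 (cs x) (cs y) := by
  have h := congrFun (congrFun (φ.2.2 (toSN g (mem1 g)) (isG0_toSN g (mem1 g) (mem1 g))) (cs x))
    (cs y)
  rw [act_apply, ← cs_mul, ← cs_mul] at h
  exact h

lemma sym_add (φ : Sym ℤ_[p] 1 1 n) (x y z : G) :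
    φ.1 (cs x) (cs y) + φ.1 (cs y) (cs z) = φ.1 (cs x) (cs z) := φ.2.1 _ _ _

lemma sym_self (φ : Sym ℤ_[p] 1 1 n) (x : G) : φ.1 (cs x) (cs x) = 0 := by
  have h := sym_add φ x x x
  simpa using h

variable (p n) in
/-- `φ ↦ φ(∞, 0)` -/
def ev : Sym ℤ_[p] 1 1 n →+ Vn p n where
  toFun φ := φ.1 (cs 1) (cs S)
  map_zero' := rfl
  map_add' _ _ := rfl

lemma ev_apply (φ : Sym ℤ_[p] 1 1 n) : ev p n φ = φ.1 (cs 1) (cs S) := rfl

lemma ev_mem (φ : Sym ℤ_[p] 1 1 n) : ev p n φ ∈ BB p n := by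
  refine ⟨?_, ?_⟩
  · show ev p n φ ∈ PS' p n ⊥
    rw [mem_PS', AddSubgroup.mem_bot]
    have h1 := sym_eq φ S S 1
    have h2 : cs (S * S) = cs 1 := by
      rw [S_mul_S]
      exact cs_eq_of (by simp)
    rw [h2, mul_one] at h1
    rw [ev_apply, h1, sym_add φ, sym_self]
  · show ev p n φ ∈ PR' p n ⊥
    rw [mem_PR', AddSubgroup.mem_bot]
    -- `Re * (Re * Re) = 1`, `Re * (Re * Re * S) = S`
    have h1 := sym_eq φ Re (Re * Re) Re
    have h2 := sym_eq φ Re Re (Re * Re * Re)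
    have e1 : cs (Re * (Re * Re)) = cs 1 := by rw [← mul_assoc, Re_cube]
    have e2 : cs (Re * Re) = cs S := by
      have : Re * Re = S * (-1) * ((-1) * S⁻¹ * (Re * Re)) := by
        rw [mul_assoc, ← mul_assoc (-1 : G) _ _, ← mul_assoc (-1 : G) (-1) _]
        simp
      rw [this, cs_mul (S * -1), cs_eq_of (g := (-1) * S⁻¹ * (Re * Re)), ← cs_mul, mul_one,
        cs_mul_neg]
      decide
    rw [e1, e2] at h1
    rw [Re_cube] at h2
    rw [mul_one, e2] at h2
    rw [ev_apply, h1, h2, ← e2, sym_add φ, sym_add φ, sym_self]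

/-- the values of a symbol in a stable subgroup -/
lemma val_mem (N : AddSubgroup (Vn p n)) (hN : ∀ (g : G), ∀ v ∈ N, sla p n g.1 v ∈ N)
    (φ : Sym ℤ_[p] 1 1 n) (h : ev p n φ ∈ N) (x y : Cusp 1) : φ.1 x y ∈ N := by
  have key : ∀ γ g : G, φ.1 (cs g) (cs (g * γ)) ∈ N := by
    intro γ
    have hmem : γ ∈ Subgroup.closure {S, T} := by
      rw [SpecialLinearGroup.SL2Z_generators]
      exact Subgroup.mem_top γ
    induction hmem using Subgroup.closure_induction with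
    | mem x hx =>
      intro g
      rcases hx with rfl | hx
      · have h1 := sym_eq φ g⁻¹ g (g * S)
        rw [inv_mul_cancel, inv_mul_cancel_left] at h1
        rw [← h1]
        exact hN _ _ h
      · rw [Set.mem_singleton_iff.1 hx, cs_mul_T, sym_self]
        exact N.zero_mem
    | one =>
      intro g
      rw [mul_one, sym_self]
      exact N.zero_mem
    | mul x y _ _ ihx ihy =>
      intro g
      rw [← sym_add φ g (g * x), ← mul_assoc]
      exact N.add_mem (ihx g) (ihy (g * x))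
    | inv x _ ihx =>
      intro g
      have h1 := ihx (g * x⁻¹)
      rw [inv_mul_cancel_right] at h1
      have h2 : φ.1 (cs g) (cs (g * x⁻¹)) = -φ.1 (cs (g * x⁻¹)) (cs g) := by
        rw [eq_neg_iff_add_eq_zero, sym_add φ, sym_self]
      rw [h2]
      exact N.neg_mem h1
  obtain ⟨a, rfl⟩ := cs_surjective x
  obtain ⟨b, rfl⟩ := cs_surjective y
  have h1 := key (a⁻¹ * b) a
  rwa [mul_inv_cancel_left] at h1

lemma ev_injective : Function.Injective (ev p n) := by
  rw [injective_iff_map_eq_zero]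
  intro φ h
  refine Subtype.ext (funext fun x => funext fun y => ?_)
  have h1 := val_mem (⊥ : AddSubgroup (Vn p n)) (fun g v hv => by
    rw [AddSubgroup.mem_bot] at hv ⊢
    rw [hv, map_zero]) φ (by rw [h]; exact AddSubgroup.zero_mem _) x y
  exact h1

/-! ### surjectivity -/

variable (p n) in
/-- the left action -/
def rhoL : G →* AddMonoid.End (Vn p n) where
  toFun g := (sla p n (g⁻¹ : G).1).toAddMonoidHom
  map_one' := by
    ext v i
    show sla p n ((1 : G)⁻¹ : G).1 _ i = _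
    rw [inv_one]
    exact congrFun (sla_one p n _) i
  map_mul' g h := by
    refine AddMonoidHom.ext fun v => ?_
    show sla p n ((g * h)⁻¹ : G).1 v = sla p n (g⁻¹ : G).1 (sla p n (h⁻¹ : G).1 v)
    rw [_root_.mul_inv_rev, sla_mul]

lemma rhoL_apply (g : G) (v : Vn p n) : rhoL p n g v = sla p n (g⁻¹ : G).1 v := rfl

lemma exists_sym (hn : Even n) {v : Vn p n} (hv : v ∈ BB p n) :
    ∃ φ : Sym ℤ_[p] 1 1 n, ev p n φ = v := by
  have hS := AddSubgroup.mem_bot.1 (mem_PS'.1 hv.1)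
  have hR := AddSubgroup.mem_bot.1 (mem_PR'.1 hv.2)
  have hneg : rhoL p n (-1) = 1 := by
    refine AddMonoidHom.ext fun w => ?_
    show sla p n ((-1 : G)⁻¹ : G).1 w = w
    have h1 : ((-1 : G)⁻¹ : G) = -1 := by
      rw [inv_eq_iff_mul_eq_one]
      simp
    rw [h1, sla_neg hn]
    exact sla_one p n w
  have hS' : v + rhoL p n S v = 0 := by
    rw [rhoL_apply, inv_S_eq, mul_neg_one, sla_neg hn]
    exact hS
  have hR' : v + rhoL p n Re v + rhoL p n Re (rhoL p n Re v) = 0 := by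
    rw [rhoL_apply, rhoL_apply, inv_Re_eq, ← sla_mul]
    have h1 : Re * Re * (Re * Re) = Re := by
      rw [mul_assoc, ← mul_assoc Re Re Re, Re_cube, mul_one]
    rw [h1, sla_mul]
    rw [← hR]
    abel
  obtain ⟨hC, hCS, hC1⟩ := manin hneg hS' hR'
  set C := Cc (rhoL p n) v with hCdef
  have hC0 : ∀ g : G, g.1 1 0 = 0 → C g = 0 := by
    intro g hg
    rw [hCdef]
    unfold Cc
    rw [hg]
    simp [Phi_zero]
  have hwd : ∀ a b : G, cs a = cs b → C a = C b := by
    intro a b hab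
    have h1 : (a⁻¹ * b).1 1 0 = 0 := by
      have h2 : toSN a (mem1 a) • inf 1 = toSN b (mem1 b) • inf 1 := hab
      obtain ⟨hu, hv, hne, e⟩ := PX.smul_mk (toSN a (mem1 a)) 1 0 isCoprime_one_left
        (dvd_zero _) (Or.inl one_ne_zero)
      obtain ⟨hu', hv', hne', e'⟩ := PX.smul_mk (toSN b (mem1 b)) 1 0 isCoprime_one_left
        (dvd_zero _) (Or.inl one_ne_zero)
      have h3 := (e.symm.trans h2).trans e'
      rw [Cusp.mk_eq] at h3
      have h4 : a.1 0 0 * b.1 1 0 = b.1 0 0 * a.1 1 0 := by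
        have h5 : (a.1 0 0 * 1 + a.1 0 1 * 0) * (b.1 1 0 * 1 + b.1 1 1 * 0) =
          (b.1 0 0 * 1 + b.1 0 1 * 0) * (a.1 1 0 * 1 + a.1 1 1 * 0) := h3
        linarith
      have hinv : (a⁻¹ : G).1 = !![a.1 1 1, -(a.1 0 1); -(a.1 1 0), a.1 0 0] :=
        congrArg Subtype.val (SpecialLinearGroup.SL2_inv_expl a)
      have h6 : (a⁻¹ * b).1 1 0 = (a⁻¹ : G).1 1 0 * b.1 0 0 + (a⁻¹ : G).1 1 1 * b.1 1 0 := by
        rw [show (a⁻¹ * b).1 = (a⁻¹ : G).1 * b.1 from rfl, Matrix.mul_apply,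
          Fin.sum_univ_two]
      rw [h6, hinv]
      show -(a.1 1 0) * b.1 0 0 + a.1 0 0 * b.1 1 0 = 0
      linarith
    have h2 := hC a (a⁻¹ * b)
    rw [mul_inv_cancel_left, hC0 _ h1, map_zero, add_zero] at h2
    exact h2.symm
  choose γ hγ using cs_surjective
  have hval : ∀ g : G, C (γ (cs g)) = C g := fun g => hwd _ _ (hγ _)
  refine ⟨⟨fun x y => C (γ y) - C (γ x), ⟨fun x y z => by
      show C (γ y) - C (γ x) + (C (γ z) - C (γ y)) = C (γ z) - C (γ x)
      abel, fun g hg => ?_⟩⟩, ?_⟩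
  · -- equivariance
    obtain ⟨g', hg'⟩ : ∃ g' : G, toSN g' (mem1 g') = g := ⟨⟨g.1, hg.1⟩, Subtype.ext rfl⟩
    subst hg'
    funext x y
    obtain ⟨a, rfl⟩ := cs_surjective x
    obtain ⟨b, rfl⟩ := cs_surjective y
    rw [act_apply, ← cs_mul, ← cs_mul, hval, hval, hval, hval, hC, hC]
    have h1 : C g' + rhoL p n g' (C b) - (C g' + rhoL p n g' (C a)) =
        rhoL p n g' (C b - C a) := by
      rw [map_sub]
      abel
    rw [h1, rhoL_apply]
    show sla p n g'.1 (sla p n (g'⁻¹ : G).1 (C b - C a)) = _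
    rw [← sla_mul, inv_mul_cancel]
    exact sla_one p n _
  · rw [ev_apply]
    show C (γ (cs S)) - C (γ (cs 1)) = v
    rw [hval, hval, hCS, hC1, sub_zero]

/-- **The index of the symbols with values in `N_x`.** -/
theorem index_AXx_one (hn : Even n) (x : ℕ) :
    (AXx p 1 1 n x).toAddSubgroup.index = (Nx p n x).relIndex (BB p n) := by
  have h1 : (AXx p 1 1 n x).toAddSubgroup = (Nx p n x).comap (ev p n) := by
    ext φ
    constructor
    · intro h
      exact h _ _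
    · intro h y z
      exact val_mem (Nx p n x) (fun g v hv => sla_mem_Nx hv g) φ h y z
  have h2 : (ev p n).range = BB p n := by
    ext v
    constructor
    · rintro ⟨φ, rfl⟩
      exact ev_mem φ
    · intro hv
      exact exists_sym hn hv
  rw [h1, AddSubgroup.index_comap, h2]

/-- **(C) and (D).** -/
theorem abs_logb_AXx_one (hp : p = 2 ∨ p = 3) (hn : Even n) {x : ℕ} (hx : x * (p + 1) ≤ n) :
    |Real.logb p ((AXx p 1 1 n x).toAddSubgroup.index) - ((p : ℝ) + 1) * (x : ℝ) ^ 2 / 12| ≤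
      (4 : ℝ) * n := by
  rw [index_AXx_one hn]
  exact abs_log hp hn hx

end Gouvea.P5.One
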