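import Pool.Agent.Work.MP_d3517d_nt.PS.Defs
import Pool.Agent.Work.MP_d3517d_nt.P5.LatIndex

/-!
# P5, level one: coinvariants of lattices of polynomials (MP_d3517d_nt)

`V = ℤ_p[X]_{≤ n}` (as coefficient vectors), `T = (1 1; 0 1)`, `T' = (1 0; 1 1)`, and a lattice
`p^x V ≤ N ≤ V` stable under `T` and `T'`.

* `coinv_le` : `[N : (T - 1) N + (T' - 1) N] ≤ p^(n + 2 x)`;
* `ker_le` : `[{v : (T_b - 1) v ∈ N} : N] ≤ p^(n + x)` for a unit `b`.
-/

open Matrix Finset Polynomial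

noncomputable section

namespace Gouvea.P5.One

open Gouvea.PS (slk slk_apply)

variable {p : ℕ} [Fact p.Prime]

/-! ### the groups `p^k ℤ_p` -/

variable (p) in
/-- `p^k ℤ_p` -/
def pI (k : ℕ) : AddSubgroup ℤ_[p] :=
  (PadicInt.toZModPow (p := p) k).toAddMonoidHom.ker

lemma mem_pI {k : ℕ} {a : ℤ_[p]} : a ∈ pI p k ↔ (p : ℤ_[p]) ^ k ∣ a := by
  have h : a ∈ pI p k ↔ a ∈ RingHom.ker (PadicInt.toZModPow (p := p) k) := Iff.rfl
  rw [h, PadicInt.ker_toZModPow, Ideal.mem_span_singleton]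

lemma index_pI (k : ℕ) : (pI p k).index = p ^ k := by
  rw [pI, AddSubgroup.index_ker]
  have hs : Function.Surjective (PadicInt.toZModPow (p := p) k).toAddMonoidHom :=
    ZMod.ringHom_surjective _
  rw [AddMonoidHom.range_eq_top.2 hs, Nat.card_congr AddSubgroup.topEquiv.toEquiv, Nat.card_zmod]

/-- an element of valuation `k` divides the elements of `p^k ℤ_p` -/
lemma dvd_of_mem_pI {c a : ℤ_[p]} (hc : c ≠ 0) (ha : a ∈ pI p c.valuation) : c ∣ a := by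
  rw [mem_pI] at ha
  refine dvd_trans ?_ ha
  have h := PadicInt.unitCoeff_spec hc
  refine ⟨((PadicInt.unitCoeff hc)⁻¹ : ℤ_[p]ˣ), ?_⟩
  refine Eq.trans ?_ (congrArg (· * (((PadicInt.unitCoeff hc)⁻¹ : ℤ_[p]ˣ) : ℤ_[p])) h.symm)
  show _ = _ * _ * _
  rw [mul_right_comm, Units.mul_inv, one_mul]

variable {m : ℕ}

/-- the vectors supported on the indices `< l` -/
def Fl (p : ℕ) [Fact p.Prime] (m l : ℕ) : AddSubgroup (Fin m → ℤ_[p]) where
  carrier := {v | ∀ i : Fin m, l ≤ (i : ℕ) → v i = 0}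
  add_mem' := fun {a b} ha hb i hi => by rw [Pi.add_apply, ha i hi, hb i hi, add_zero]
  zero_mem' := fun i _ => rfl
  neg_mem' := fun {a} ha i hi => by rw [Pi.neg_apply, ha i hi, neg_zero]

lemma mem_Fl {l : ℕ} {v : Fin m → ℤ_[p]} :
    v ∈ Fl p m l ↔ ∀ i : Fin m, l ≤ (i : ℕ) → v i = 0 := Iff.rfl

lemma Fl_mono {l l' : ℕ} (h : l ≤ l') : Fl p m l ≤ Fl p m l' :=
  fun _ hv i hi => hv i (h.trans hi)

lemma Fl_top {l : ℕ} (h : m ≤ l) : Fl p m l = ⊤ := by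
  rw [eq_top_iff]
  intro v _ i hi
  exact absurd i.2 (by omega)

/-- the subgroup of the vectors whose coordinate at `i` is in `p^k ℤ_p` -/
def Ek (i : Fin m) (k : ℕ) : AddSubgroup (Fin m → ℤ_[p]) :=
  (pI p k).comap (Pi.evalAddMonoidHom (fun _ : Fin m => ℤ_[p]) i)

lemma mem_Ek {i : Fin m} {k : ℕ} {v : Fin m → ℤ_[p]} : v ∈ Ek i k ↔ v i ∈ pI p k := Iff.rfl

lemma index_Ek (i : Fin m) (k : ℕ) : (Ek i k : AddSubgroup (Fin m → ℤ_[p])).index = p ^ k := by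
  rw [Ek, AddSubgroup.index_comap_of_surjective _ (Function.surjective_eval i), index_pI]

lemma relIndex_Ek (i : Fin m) (k : ℕ) (L : AddSubgroup (Fin m → ℤ_[p])) :
    (Ek i k).relIndex L ≤ p ^ k ∧ (Ek i k).relIndex L ≠ 0 := by
  have h1 : (Ek i k).relIndex L ∣ (Ek i k).index :=
    AddSubgroup.relIndex_dvd_index_of_normal _ _
  have hp : 0 < p := (Fact.out : p.Prime).pos
  rw [index_Ek] at h1
  exact ⟨Nat.le_of_dvd (pow_pos hp k) h1, fun h0 => by
    rw [h0, zero_dvd_iff] at h1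
    exact (pow_pos hp k).ne' h1⟩

/-- **Triangular systems.** -/
theorem tri (D : Submodule ℤ_[p] (Fin m → ℤ_[p])) (c : ℕ → ℤ_[p]) (l : ℕ) (hl : l ≤ m)
    (hc : ∀ k < l, c k ≠ 0)
    (h : ∀ k (hk : k < l), ∃ d ∈ D, (∀ i : Fin m, k < (i : ℕ) → d i = 0) ∧
      d ⟨k, hk.trans_le hl⟩ = c k) :
    D.toAddSubgroup.relIndex (Fl p m l) ≤ p ^ (∑ k ∈ range l, (c k).valuation) ∧
      D.toAddSubgroup.relIndex (Fl p m l) ≠ 0 := by
  induction l with
  | zero =>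
    have h0 : Fl p m 0 = ⊥ := by
      rw [eq_bot_iff]
      intro v hv
      rw [AddSubgroup.mem_bot]
      funext i
      exact hv i (Nat.zero_le _)
    rw [h0, AddSubgroup.relIndex_bot_right]
    simp
  | succ l ih =>
    obtain ⟨ih1, ih2⟩ := ih (by omega) (fun k hk => hc k (by omega)) (fun k hk => h k (by omega))
    set A := D.toAddSubgroup with hA
    set F := Fl p m (l + 1) with hF
    set F' := Fl p m l with hF'
    have hFF : F' ≤ F := Fl_mono (Nat.le_succ l)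
    obtain ⟨d, hd, hd0, hdl⟩ := h l (Nat.lt_succ_self l)
    have hlm : l < m := by omega
    have hdF : d ∈ F := fun i hi => hd0 i (by omega)
    have e1 : (A ⊓ F).relIndex (A ⊓ F ⊔ F') * (A ⊓ F ⊔ F').relIndex F = (A ⊓ F).relIndex F :=
      AddSubgroup.relIndex_mul_relIndex _ _ _ le_sup_left (sup_le inf_le_right hFF)
    have e2 : (A ⊓ F).relIndex (A ⊓ F ⊔ F') = A.relIndex F' := by
      rw [AddSubgroup.relIndex_sup_left, ← AddSubgroup.inf_relIndex_right (A ⊓ F) F',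
        inf_assoc, inf_eq_right.2 hFF, AddSubgroup.inf_relIndex_right]
    have e3 : (A ⊓ F).relIndex F = A.relIndex F := AddSubgroup.inf_relIndex_right _ _
    have hle : Ek ⟨l, hlm⟩ (c l).valuation ⊓ F ≤ A ⊓ F ⊔ F' := by
      rintro v ⟨hv1, hv2⟩
      obtain ⟨u, hu⟩ := dvd_of_mem_pI (hc l (Nat.lt_succ_self l)) (mem_Ek.1 hv1)
      have h1 : u • d ∈ A ⊓ F := ⟨D.smul_mem u hd, fun i hi => by
        rw [Pi.smul_apply, hdF i hi, smul_zero]⟩
      have h2 : v - u • d ∈ F' := by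
        intro i hi
        rcases Nat.lt_or_ge l (i : ℕ) with h3 | h3
        · rw [Pi.sub_apply, Pi.smul_apply, hd0 i h3, smul_zero, sub_zero]
          exact hv2 i h3
        · have h4 : i = ⟨l, hlm⟩ := Fin.ext (le_antisymm h3 hi)
          rw [h4, Pi.sub_apply, Pi.smul_apply, hdl, hu, smul_eq_mul, mul_comm, sub_self]
      have h3 : v = u • d + (v - u • d) := by abel
      rw [h3]
      exact AddSubgroup.add_mem_sup h1 h2
    obtain ⟨h4, h5⟩ := relIndex_Ek (p := p) ⟨l, hlm⟩ (c l).valuation F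
    rw [← AddSubgroup.inf_relIndex_right] at h4 h5
    have h6 := AddSubgroup.relIndex_le_of_le_left hle h5
    have h7 : (A ⊓ F ⊔ F').relIndex F ≠ 0 := fun h0 => h5 (by
      have := AddSubgroup.relIndex_dvd_of_le_left F hle
      rw [h0] at this
      exact Nat.eq_zero_of_zero_dvd this)
    rw [← e3, ← e1, e2, Finset.sum_range_succ, pow_add]
    exact ⟨Nat.mul_le_mul ih1 (h6.trans h4), mul_ne_zero ih2 h7⟩

/-! ### the translations -/

variable (p) in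
/-- `v ↦ v | g - v` -/
def dl (n : ℕ) (g : Matrix (Fin 2) (Fin 2) ℤ_[p]) : (Fin (n + 1) → ℤ_[p]) →ₗ[ℤ_[p]]
    (Fin (n + 1) → ℤ_[p]) := (slk n g).mulVecLin - LinearMap.id

lemma dl_apply (n : ℕ) (g : Matrix (Fin 2) (Fin 2) ℤ_[p]) (v : Fin (n + 1) → ℤ_[p]) :
    dl p n g v = slk n g *ᵥ v - v := rfl

/-- `(1 b; 0 1)` -/
def Tb (b : ℤ_[p]) : Matrix (Fin 2) (Fin 2) ℤ_[p] := !![1, b; 0, 1]

/-- `(1 0; 1 1)` -/
def Tl1 (p : ℕ) [Fact p.Prime] : Matrix (Fin 2) (Fin 2) ℤ_[p] := !![1, 0; 1, 1]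

lemma slk_Tb (n : ℕ) (b : ℤ_[p]) (i j : Fin (n + 1)) :
    slk n (Tb b) i j = b ^ ((j : ℕ) - i) * ((j : ℕ).choose i : ℤ_[p]) := by
  rw [slk_apply, slR]
  simp only [Tb, Matrix.of_apply, Matrix.cons_val', Matrix.cons_val_zero, Matrix.cons_val_one,
    Matrix.cons_val_fin_one]
  rw [map_one, map_zero, one_mul, zero_mul, zero_add, one_pow, mul_one, coeff_X_add_C_pow]

lemma dl_Tb_single (n : ℕ) (b : ℤ_[p]) (k : ℕ) (hk : k < n) :
    (∀ i : Fin (n + 1), k < (i : ℕ) →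
      dl p n (Tb b) (Pi.single (⟨k + 1, by omega⟩ : Fin (n + 1)) 1) i = 0) ∧
    dl p n (Tb b) (Pi.single (⟨k + 1, by omega⟩ : Fin (n + 1)) 1) ⟨k, by omega⟩ =
      b * ((k + 1 : ℕ) : ℤ_[p]) := by
  have h1 : ∀ i : Fin (n + 1), dl p n (Tb b) (Pi.single (⟨k + 1, by omega⟩ : Fin (n + 1)) 1) i =
      b ^ ((k + 1) - (i : ℕ)) * ((k + 1).choose i : ℤ_[p]) - if (i : ℕ) = k + 1 then 1 else 0 := by
    intro i
    rw [dl_apply, Pi.sub_apply, Matrix.mulVec_single_one]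
    congr 1
    · exact slk_Tb n b i ⟨k + 1, by omega⟩
    · rw [Pi.single_apply]
      simp only [Fin.ext_iff]
  constructor
  · intro i hi
    rw [h1]
    rcases Nat.lt_or_ge (k + 1) (i : ℕ) with h2 | h2
    · rw [Nat.choose_eq_zero_of_lt h2, if_neg (by omega)]
      simp
    · have h3 : (i : ℕ) = k + 1 := by omega
      rw [h3]
      simp
  · rw [h1]
    have h2 : k + 1 - k = 1 := by omega
    simp only [h2]
    rw [if_neg (by omega), Nat.choose_succ_self_right]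
    simp

lemma range_dl_Tb_le (n : ℕ) (b : ℤ_[p]) :
    (LinearMap.range (dl p n (Tb b))).toAddSubgroup ≤ Fl p (n + 1) n := by
  rintro _ ⟨v, rfl⟩ i hi
  have hin : (i : ℕ) = n := by
    have := i.2
    omega
  rw [dl_apply, Pi.sub_apply, Matrix.mulVec, dotProduct, Finset.sum_eq_single i]
  · rw [slk_Tb]
    simp
  · intro j _ hj
    have hlt : (j : ℕ) < i := by
      have h1 := j.2
      have h2 : (j : ℕ) ≠ i := fun h => hj (Fin.ext h)
      omega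
    rw [slk_Tb, Nat.choose_eq_zero_of_lt hlt]
    simp
  · intro h
    exact absurd (Finset.mem_univ i) h

lemma sum_valuation_le (n : ℕ) :
    ∑ k ∈ range n, ((k + 1 : ℕ) : ℤ_[p]).valuation ≤ n := by
  have h1 : ∀ n : ℕ, ∑ k ∈ range n, ((k + 1 : ℕ) : ℤ_[p]).valuation =
      ((n.factorial : ℕ) : ℤ_[p]).valuation := by
    intro n
    induction n with
    | zero => simp
    | succ n ih =>
      rw [Finset.sum_range_succ, ih, Nat.factorial_succ, Nat.cast_mul, mul_comm, 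
        PadicInt.valuation_mul]
      · exact_mod_cast Nat.factorial_ne_zero n
      · exact_mod_cast Nat.succ_ne_zero n
  rw [h1]
  have h2 : ((n.factorial : ℕ) : ℤ_[p]).valuation = padicValNat p n.factorial := by
    have h3 := PadicInt.valuation_coe ((n.factorial : ℕ) : ℤ_[p])
    rw [PadicInt.coe_natCast, Padic.valuation_natCast] at h3
    exact_mod_cast h3.symm
  rw [h2]
  have h3 := sub_one_mul_padicValNat_factorial (p := p) n
  have hp : 2 ≤ p := (Fact.out : p.Prime).two_le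
  have h4 : (p - 1) * padicValNat p n.factorial ≤ n := by
    rw [h3]
    exact Nat.sub_le _ _
  calc padicValNat p n.factorial = 1 * padicValNat p n.factorial := (one_mul _).symm
    _ ≤ (p - 1) * padicValNat p n.factorial := Nat.mul_le_mul_right _ (by omega)
    _ ≤ n := h4

/-- `[V_{< n} : (T_b - 1) V] ≤ p^n` -/
lemma relIndex_range_dl (n : ℕ) {b : ℤ_[p]} (hb : IsUnit b) :
    (LinearMap.range (dl p n (Tb b))).toAddSubgroup.relIndex (Fl p (n + 1) n) ≤ p ^ n ∧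
      (LinearMap.range (dl p n (Tb b))).toAddSubgroup.relIndex (Fl p (n + 1) n) ≠ 0 := by
  have hk : ∀ k : ℕ, ((k + 1 : ℕ) : ℤ_[p]) ≠ 0 := fun k => by
    exact_mod_cast Nat.succ_ne_zero k
  obtain ⟨h1, h2⟩ := tri (LinearMap.range (dl p n (Tb b)))
    (fun k => b * ((k + 1 : ℕ) : ℤ_[p])) n (Nat.le_succ n)
    (fun k _ => mul_ne_zero hb.ne_zero (hk k)) (fun k hk => by
      obtain ⟨h3, h4⟩ := dl_Tb_single n b k hk
      exact ⟨_, ⟨_, rfl⟩, h3, h4⟩)
  refine ⟨h1.trans (Nat.pow_le_pow_right (Fact.out : p.Prime).pos ?_), h2⟩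
  have hv : ∀ k ∈ range n, (b * ((k + 1 : ℕ) : ℤ_[p])).valuation =
      ((k + 1 : ℕ) : ℤ_[p]).valuation := by
    intro k _
    rw [PadicInt.valuation_mul hb.ne_zero (hk k)]
    have h3 : b.valuation = 0 := by
      obtain ⟨c, hc⟩ := hb.exists_right_inv
      have hc0 : c ≠ 0 := by
        rintro rfl
        rw [mul_zero] at hc
        exact zero_ne_one hc
      have h4 := PadicInt.valuation_mul hb.ne_zero hc0
      rw [hc, PadicInt.valuation_one] at h4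
      omega
    rw [h3, zero_add]
  rw [Finset.sum_congr rfl hv]
  exact sum_valuation_le n

/-! ### lattices -/

variable {n : ℕ}

/-- lattices have finite index -/
lemma index_ne_zero (N : Submodule ℤ_[p] (Fin m → ℤ_[p])) (x : ℕ)
    (hx : ∀ v, (p : ℤ_[p]) ^ x • v ∈ N) : N.toAddSubgroup.index ≠ 0 := by
  have hp : (p : ℤ_[p]) ≠ 0 := by exact_mod_cast (Fact.out : p.Prime).ne_zero
  have h := (tri N (fun _ => (p : ℤ_[p]) ^ x) m le_rfl (fun _ _ => pow_ne_zero _ hp)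
    (fun k hk => ⟨(p : ℤ_[p]) ^ x • Pi.single ⟨k, hk⟩ 1, hx _, fun i hi => by
      rw [Pi.smul_apply, Pi.single_eq_of_ne (fun h => by
        rw [h] at hi
        exact lt_irrefl _ hi), smul_zero], by
      rw [Pi.smul_apply, Pi.single_eq_same, smul_eq_mul, mul_one]⟩)).2
  rwa [Fl_top le_rfl, AddSubgroup.relIndex_top_right] at h

lemma index_sup_le (N : Submodule ℤ_[p] (Fin (n + 1) → ℤ_[p])) (x : ℕ)
    (hx : ∀ v, (p : ℤ_[p]) ^ x • v ∈ N) :
    (N.toAddSubgroup ⊔ Fl p (n + 1) n).index ≤ p ^ x := by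
  have hle : (Ek (Fin.last n) x : AddSubgroup (Fin (n + 1) → ℤ_[p])) ≤
      N.toAddSubgroup ⊔ Fl p (n + 1) n := by
    intro v hv
    obtain ⟨u, hu⟩ := mem_pI.1 (mem_Ek.1 hv)
    have h1 : (p : ℤ_[p]) ^ x • (Pi.single (Fin.last n) u : Fin (n + 1) → ℤ_[p]) ∈ N := hx _
    have h2 : v - (p : ℤ_[p]) ^ x • (Pi.single (Fin.last n) u : Fin (n + 1) → ℤ_[p]) ∈
        Fl p (n + 1) n := by
      intro i hi
      have h3 : i = Fin.last n := by
        refine Fin.ext ?_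
        have := i.2
        rw [Fin.val_last]
        omega
      rw [h3, Pi.sub_apply, Pi.smul_apply, Pi.single_eq_same, hu, smul_eq_mul, sub_self]
    have h3 : v = (p : ℤ_[p]) ^ x • (Pi.single (Fin.last n) u : Fin (n + 1) → ℤ_[p]) +
        (v - (p : ℤ_[p]) ^ x • (Pi.single (Fin.last n) u : Fin (n + 1) → ℤ_[p])) := by abel
    rw [h3]
    exact AddSubgroup.add_mem_sup h1 h2
  have h1 := AddSubgroup.index_dvd_of_le hle
  rw [index_Ek] at h1
  exact Nat.le_of_dvd (pow_pos (Fact.out : p.Prime).pos x) h1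

/-- pure index calculus: kernel and cokernel of an endomorphism of a finite group -/
lemma idx3 {V : Type*} [AddCommGroup V] {A P D : AddSubgroup V} (f : V →+ V)
    (hP : ∀ v, v ∈ P ↔ f v ∈ A) (hD : D = f.range) (h0 : A.index ≠ 0) (hAP : A ≤ P) :
    A.relIndex P = (A ⊔ D).index := by
  have hP' : P = A.comap f := by
    ext v
    exact hP v
  have e1 : A.relIndex P * P.index = A.index := AddSubgroup.relIndex_mul_index hAP
  have e2 : P.index = A.relIndex D := by rw [hP', hD, AddSubgroup.index_comap]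
  have e3 : A.relIndex (A ⊔ D) * (A ⊔ D).index = A.index :=
    AddSubgroup.relIndex_mul_index le_sup_left
  rw [AddSubgroup.relIndex_sup_left] at e3
  have h1 : A.relIndex D ≠ 0 := fun h => h0 (by rw [← e3, h, zero_mul])
  rw [e2] at e1
  refine Nat.eq_of_mul_eq_mul_right (Nat.pos_of_ne_zero h1) ?_
  rw [e1, ← e3, mul_comm]

/-- pure index calculus -/
lemma idx4 {V : Type*} [AddCommGroup V] {A D F : AddSubgroup V} {a b c : ℕ}
    (hDF : D ≤ F) (r1 : D.relIndex F ≤ a) (r2 : D.relIndex F ≠ 0) (hb : (A ⊔ F).index ≤ b)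
    (hc : c = a * b) : (A ⊔ D).index ≤ c := by
  have e5 : (A ⊔ D).relIndex (A ⊔ F) * (A ⊔ F).index = (A ⊔ D).index :=
    AddSubgroup.relIndex_mul_index (sup_le_sup_left hDF A)
  have e6 : (A ⊔ D).relIndex (A ⊔ F) ≤ a := by
    have h1 : A ⊔ F = (A ⊔ D) ⊔ F := by
      rw [sup_assoc, sup_eq_right.2 hDF]
    rw [h1, AddSubgroup.relIndex_sup_left]
    exact (AddSubgroup.relIndex_le_of_le_left le_sup_right r2).trans r1
  rw [← e5, hc]
  exact Nat.mul_le_mul e6 hb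

/-- `[{v : (T_b - 1) v ∈ N} : N] ≤ p^(n + x)` -/
theorem ker_le (N : Submodule ℤ_[p] (Fin (n + 1) → ℤ_[p])) (x : ℕ)
    (hx : ∀ v, (p : ℤ_[p]) ^ x • v ∈ N) {b : ℤ_[p]} (hb : IsUnit b)
    (hN : ∀ v ∈ N, dl p n (Tb b) v ∈ N) :
    N.toAddSubgroup.relIndex (N.comap (dl p n (Tb b))).toAddSubgroup ≤ p ^ (n + x) := by
  obtain ⟨r1, r2⟩ := relIndex_range_dl (p := p) n hb
  rw [idx3 (D := (LinearMap.range (dl p n (Tb b))).toAddSubgroup)
    (dl p n (Tb b)).toAddMonoidHom (fun v => Iff.rfl) (by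
      ext v
      rfl) (index_ne_zero N x hx) (fun v hv => hN v hv)]
  exact idx4 (range_dl_Tb_le n b) r1 r2 (index_sup_le N x hx) (pow_add _ _ _)

lemma relIndex_map_dl (N : Submodule ℤ_[p] (Fin (n + 1) → ℤ_[p])) (b : ℤ_[p])
    (h0 : N.toAddSubgroup.index ≠ 0) :
    (N.map (dl p n (Tb b))).toAddSubgroup.relIndex
        (LinearMap.range (dl p n (Tb b))).toAddSubgroup ≤ N.toAddSubgroup.index ∧
    (N.map (dl p n (Tb b))).toAddSubgroup.relIndex
        (LinearMap.range (dl p n (Tb b))).toAddSubgroup ≠ 0 := by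
  obtain ⟨f, hf⟩ : ∃ f : (Fin (n + 1) → ℤ_[p]) →+ (Fin (n + 1) → ℤ_[p]),
      ∀ v, f v = dl p n (Tb b) v := ⟨(dl p n (Tb b)).toAddMonoidHom, fun _ => rfl⟩
  have h1 : (N.map (dl p n (Tb b))).toAddSubgroup = N.toAddSubgroup.map f := by
    ext v
    constructor
    · rintro ⟨w, hw, rfl⟩
      exact ⟨w, hw, hf w⟩
    · rintro ⟨w, hw, rfl⟩
      exact ⟨w, hw, (hf w).symm⟩
  have h2 : (LinearMap.range (dl p n (Tb b))).toAddSubgroup =
      (⊤ : AddSubgroup (Fin (n + 1) → ℤ_[p])).map f := by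
    ext v
    constructor
    · rintro ⟨w, rfl⟩
      exact ⟨w, trivial, hf w⟩
    · rintro ⟨w, _, rfl⟩
      exact ⟨w, (hf w).symm⟩
  rw [h1, h2, AddSubgroup.relIndex_map_map, top_sup_eq, AddSubgroup.relIndex_top_right]
  have h3 := AddSubgroup.index_dvd_of_le (le_sup_left : N.toAddSubgroup ≤
    N.toAddSubgroup ⊔ f.ker)
  exact ⟨Nat.le_of_dvd (Nat.pos_of_ne_zero h0) h3, fun h4 => h0 (by
    rw [h4] at h3
    exact Nat.eq_zero_of_zero_dvd h3)⟩

/-- pure index calculus -/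
lemma idx1 {V : Type*} [AddCommGroup V] {A D D1 F : AddSubgroup V} {a b c : ℕ}
    (h0 : A.index ≠ 0) (hDF : D ≤ F) (hD1D : D1 ≤ D) (hD1A : D1 ≤ A)
    (r1 : D.relIndex F ≤ a) (r2 : D.relIndex F ≠ 0) (e1 : D1.relIndex D ≤ A.index)
    (e1' : D1.relIndex D ≠ 0) (hb : (A ⊔ F).index ≤ b) (hc : c = a * b) :
    D1.relIndex (A ⊓ F) ≤ c ∧ D1.relIndex (A ⊓ F) ≠ 0 := by
  have e2 : D1.relIndex (A ⊓ F) * (A ⊓ F).relIndex F = D1.relIndex F :=
    AddSubgroup.relIndex_mul_relIndex _ _ _ (le_inf hD1A (hD1D.trans hDF)) inf_le_right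
  have e3 : D1.relIndex D * D.relIndex F = D1.relIndex F :=
    AddSubgroup.relIndex_mul_relIndex _ _ _ hD1D hDF
  rw [AddSubgroup.inf_relIndex_right] at e2
  have e4 : A.relIndex F * (A ⊔ F).index = A.index := by
    rw [← AddSubgroup.relIndex_sup_left (K := A) (H := F)]
    exact AddSubgroup.relIndex_mul_index le_sup_left
  have hAF : A.relIndex F ≠ 0 := fun h => h0 (by rw [← e4, h, zero_mul])
  constructor
  · refine Nat.le_of_mul_le_mul_right (c := A.relIndex F) ?_ (Nat.pos_of_ne_zero hAF)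
    rw [e2, ← e3]
    calc D1.relIndex D * D.relIndex F ≤ A.index * a := Nat.mul_le_mul e1 r1
      _ = A.relIndex F * (A ⊔ F).index * a := by rw [e4]
      _ ≤ A.relIndex F * b * a := by gcongr
      _ = c * A.relIndex F := by rw [hc]; ring
  · intro h
    rw [h, zero_mul, ← e3] at e2
    exact mul_ne_zero e1' r2 e2.symm

/-- pure index calculus -/
lemma idx2 {V : Type*} [AddCommGroup V] {A D1 D2 F E : AddSubgroup V} {a b c : ℕ}
    (hD1A : D1 ≤ A) (hD2A : D2 ≤ A) (e5 : D1.relIndex (A ⊓ F) ≤ a)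
    (e5' : D1.relIndex (A ⊓ F) ≠ 0) (hle : E ⊓ A ≤ D1 ⊔ D2 ⊔ A ⊓ F)
    (h4 : E.relIndex A ≤ b) (h5 : E.relIndex A ≠ 0) (hc : c = a * b) :
    (D1 ⊔ D2).relIndex A ≤ c ∧ (D1 ⊔ D2).relIndex A ≠ 0 := by
  have hDA : D1 ⊔ D2 ≤ A := sup_le hD1A hD2A
  have e6 : (D1 ⊔ D2).relIndex (D1 ⊔ D2 ⊔ A ⊓ F) * (D1 ⊔ D2 ⊔ A ⊓ F).relIndex A =
      (D1 ⊔ D2).relIndex A :=
    AddSubgroup.relIndex_mul_relIndex _ _ _ le_sup_left (sup_le hDA inf_le_left)
  rw [AddSubgroup.relIndex_sup_left] at e6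
  have e7 : (D1 ⊔ D2).relIndex (A ⊓ F) ≤ a :=
    (AddSubgroup.relIndex_le_of_le_left le_sup_left e5').trans e5
  have e7' : (D1 ⊔ D2).relIndex (A ⊓ F) ≠ 0 := fun h => e5' (by
    have h1 := AddSubgroup.relIndex_dvd_of_le_left (A ⊓ F) (le_sup_left : D1 ≤ D1 ⊔ D2)
    rw [h] at h1
    exact Nat.eq_zero_of_zero_dvd h1)
  rw [← AddSubgroup.inf_relIndex_right] at h4 h5
  have h6 := AddSubgroup.relIndex_le_of_le_left hle h5
  have h7 : (D1 ⊔ D2 ⊔ A ⊓ F).relIndex A ≠ 0 := fun h0 => h5 (by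
    have := AddSubgroup.relIndex_dvd_of_le_left A hle
    rw [h0] at this
    exact Nat.eq_zero_of_zero_dvd this)
  rw [← e6, hc]
  exact ⟨Nat.mul_le_mul e7 (h6.trans h4), mul_ne_zero e7' h7⟩

lemma slk_Tl1 (hn : 1 ≤ n) (i : Fin (n + 1)) : slk n (Tl1 p) i ⟨n - 1, by omega⟩ =
    if (i : ℕ) = n then 1 else if (i : ℕ) = n - 1 then 1 else 0 := by
  rw [slk_apply, slR]
  have h3 : n - (n - 1) = 1 := by omega
  simp only [Tl1, Matrix.of_apply, Matrix.cons_val', Matrix.cons_val_zero,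
    Matrix.cons_val_one, Matrix.cons_val_fin_one, h3]
  rw [map_one, map_zero, one_mul, add_zero, pow_one, mul_add, mul_one, ← pow_succ,
    Nat.sub_add_cancel hn, coeff_add, coeff_X_pow, coeff_X_pow]
  by_cases h4 : (i : ℕ) = n
  · rw [if_pos h4, if_neg (by omega), if_pos h4, add_zero]
  · rw [if_neg h4, if_neg h4, zero_add]

lemma dl_Tl1 (hn : 1 ≤ n) (u : ℤ_[p]) :
    dl p n (Tl1 p) (Pi.single ⟨n - 1, by omega⟩ u) = Pi.single (Fin.last n) u := by
  funext i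
  rw [dl_apply, Pi.sub_apply]
  have h1 : (slk n (Tl1 p) *ᵥ (Pi.single ⟨n - 1, by omega⟩ u : Fin (n + 1) → ℤ_[p])) i =
      slk n (Tl1 p) i ⟨n - 1, by omega⟩ * u := by
    rw [Matrix.mulVec_single]
    simp
  rw [h1, slk_Tl1 hn, Pi.single_apply, Pi.single_apply]
  simp only [Fin.ext_iff, Fin.val_last]
  by_cases h4 : (i : ℕ) = n
  · rw [if_pos h4, if_neg (by omega), if_pos h4, one_mul, sub_zero]
  · rw [if_neg h4, if_neg h4]
    by_cases h5 : (i : ℕ) = n - 1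
    · rw [if_pos h5, if_pos h5, one_mul, sub_self]
    · rw [if_neg h5, if_neg h5, zero_mul, sub_zero]

/-- `[N : (T - 1) N + (T' - 1) N] ≤ p^(n + 2 x)` -/
theorem coinv_le (hn : 1 ≤ n) (N : Submodule ℤ_[p] (Fin (n + 1) → ℤ_[p])) (x : ℕ)
    (hx : ∀ v, (p : ℤ_[p]) ^ x • v ∈ N)
    (hT : ∀ v ∈ N, dl p n (Tb 1) v ∈ N) (hT' : ∀ v ∈ N, dl p n (Tl1 p) v ∈ N) :
    ((N.map (dl p n (Tb 1))).toAddSubgroup ⊔ (N.map (dl p n (Tl1 p))).toAddSubgroup).relIndex
        N.toAddSubgroup ≤ p ^ (n + 2 * x) ∧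
      ((N.map (dl p n (Tb 1))).toAddSubgroup ⊔ (N.map (dl p n (Tl1 p))).toAddSubgroup).relIndex
        N.toAddSubgroup ≠ 0 := by
  have h0 := index_ne_zero N x hx
  obtain ⟨r1, r2⟩ := relIndex_range_dl (p := p) n (b := 1) isUnit_one
  obtain ⟨m1, m2⟩ := relIndex_map_dl N 1 h0
  have hD1A : (N.map (dl p n (Tb 1))).toAddSubgroup ≤ N.toAddSubgroup := by
    rintro _ ⟨v, hv, rfl⟩
    exact hT v hv
  have hD2A : (N.map (dl p n (Tl1 p))).toAddSubgroup ≤ N.toAddSubgroup := by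
    rintro _ ⟨v, hv, rfl⟩
    exact hT' v hv
  obtain ⟨e5, e5'⟩ := idx1 (c := p ^ (n + x)) h0 (range_dl_Tb_le n 1) (by
    rintro _ ⟨v, _, rfl⟩
    exact ⟨v, rfl⟩) hD1A r1 r2 m1 m2 (index_sup_le N x hx) (pow_add _ _ _)
  refine idx2 hD1A hD2A e5 e5' (E := Ek (Fin.last n) x) ?_ (relIndex_Ek _ _ _).1
    (relIndex_Ek _ _ _).2 (by rw [← pow_add]; congr 1; ring)
  rintro v ⟨hv1, hv2⟩
  obtain ⟨u, hu⟩ := mem_pI.1 (mem_Ek.1 hv1)
  have hwN : (p : ℤ_[p]) ^ x • (Pi.single ⟨n - 1, by omega⟩ u : Fin (n + 1) → ℤ_[p]) ∈ N := hx _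
  have hw2 : dl p n (Tl1 p) ((p : ℤ_[p]) ^ x •
      (Pi.single ⟨n - 1, by omega⟩ u : Fin (n + 1) → ℤ_[p])) ∈
      (N.map (dl p n (Tl1 p))).toAddSubgroup := ⟨_, hwN, rfl⟩
  rw [map_smul, dl_Tl1 hn] at hw2
  have h2 : v - (p : ℤ_[p]) ^ x • (Pi.single (Fin.last n) u : Fin (n + 1) → ℤ_[p]) ∈
      N.toAddSubgroup ⊓ Fl p (n + 1) n := by
    refine ⟨AddSubgroup.sub_mem _ hv2 (hD2A hw2), fun i hi => ?_⟩
    have h3 : i = Fin.last n := by
      refine Fin.ext ?_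
      have := i.2
      rw [Fin.val_last]
      omega
    rw [h3, Pi.sub_apply, Pi.smul_apply, Pi.single_eq_same, hu, smul_eq_mul, sub_self]
  have h3 : v = (p : ℤ_[p]) ^ x • (Pi.single (Fin.last n) u : Fin (n + 1) → ℤ_[p]) +
      (v - (p : ℤ_[p]) ^ x • (Pi.single (Fin.last n) u : Fin (n + 1) → ℤ_[p])) := by abel
  rw [h3]
  exact AddSubgroup.add_mem_sup (AddSubgroup.mem_sup_right hw2) h2

end Gouvea.P5.One
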