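import Pool.Agent.Work.MP_d3517d_nt.P5.NxEll

/-!
# P5, level one: the chain of lattices `N_x` (MP_d3517d_nt)

`V = V_n(ℤ_p)`, `N_x = {v | (v | g δ) ∈ p^x V for all g ∈ SL₂(ℤ)}`, `δ = diag(p, 1)`, i.e.
`p^x ∣ p^i (v|g)_i`. The map `θ_j : N_j → Ind_{Γ⁰(p)}^G (polynomials of degree ≤ j over 𝔽_p)`,
`θ_j(v)(g) = p^{-j} (v | g⁻¹ δ) mod p`, has kernel `N_{j+1}` and is equivariant.
-/

open Matrix ModularGroup Module Polynomial

noncomputable section

namespace Gouvea.P5.One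

open Gouvea.PS (slk slk_apply slk_one slk_mul slk_smul slk_neg slk_map map_cast_mul)

variable (p : ℕ) [Fact p.Prime]

/-- `V_n(ℤ_p)` -/
abbrev Vn (n : ℕ) : Type := Fin (n + 1) → ℤ_[p]

/-- `v ↦ v | g` -/
def sla (n : ℕ) (g : Matrix (Fin 2) (Fin 2) ℤ) : Vn p n →ₗ[ℤ_[p]] Vn p n :=
  (slk n (g.map (Int.cast : ℤ → ℤ_[p]))).mulVecLin

lemma sla_apply (n : ℕ) (g : Matrix (Fin 2) (Fin 2) ℤ) (v : Vn p n) :
    sla p n g v = slk n (g.map (Int.cast : ℤ → ℤ_[p])) *ᵥ v := rfl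

/-- `(v | g) | h = v | g h` -/
lemma sla_sla (n : ℕ) (g h : Matrix (Fin 2) (Fin 2) ℤ) (v : Vn p n) :
    sla p n h (sla p n g v) = sla p n (g * h) v := by
  rw [sla_apply, sla_apply, sla_apply, map_cast_mul, slk_mul, Matrix.mulVec_mulVec]

lemma sla_one (n : ℕ) (v : Vn p n) : sla p n 1 v = v := by
  rw [sla_apply]
  have : ((1 : Matrix (Fin 2) (Fin 2) ℤ)).map (Int.cast : ℤ → ℤ_[p]) = 1 := by
    simp [Matrix.map_one]
  rw [this, slk_one, Matrix.one_mulVec]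

/-- the matrix `diag(p, 1)` -/
def dlt : Matrix (Fin 2) (Fin 2) ℤ := !![(p : ℤ), 0; 0, 1]

lemma sla_dlt (n : ℕ) (v : Vn p n) (i : Fin (n + 1)) :
    sla p n (dlt p) v i = (p : ℤ_[p]) ^ (i : ℕ) * v i := by
  have h1 : (dlt p).map (Int.cast : ℤ → ℤ_[p]) = !![(p : ℤ_[p]), 0; 0, 1] := by
    ext i j
    fin_cases i <;> fin_cases j <;> simp [dlt]
  rw [sla_apply, h1, Matrix.mulVec, dotProduct, Finset.sum_eq_single i]
  · rw [slk_apply]
    unfold slR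
    simp only [Matrix.of_apply, Matrix.cons_val', Matrix.cons_val_zero, Matrix.cons_val_one,
      Matrix.empty_val', Matrix.cons_val_fin_one, C_0, add_zero, zero_mul, zero_add, C_1,
      one_pow, mul_one, mul_pow, ← C_pow]
    rw [coeff_C_mul, coeff_X_pow, if_pos rfl, mul_one]
  · intro m _ hm
    rw [slk_apply]
    unfold slR
    simp only [Matrix.of_apply, Matrix.cons_val', Matrix.cons_val_zero, Matrix.cons_val_one,
      Matrix.empty_val', Matrix.cons_val_fin_one, C_0, add_zero, zero_mul, zero_add, C_1,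
      one_pow, mul_one, mul_pow, ← C_pow]
    rw [coeff_C_mul, coeff_X_pow, if_neg (fun h => hm (Fin.ext h.symm)), mul_zero, zero_mul]
  · intro h
    exact absurd (Finset.mem_univ _) h

/-- the lattice `N_x` -/
def Nx (n x : ℕ) : AddSubgroup (Vn p n) where
  carrier := {v | ∀ (g : G) (i : Fin (n + 1)), (p : ℤ_[p]) ^ x ∣ sla p n (g.1 * dlt p) v i}
  add_mem' := by
    intro v w hv hw g i
    rw [map_add]
    exact dvd_add (hv g i) (hw g i)
  zero_mem' := by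
    intro g i
    rw [map_zero]
    exact dvd_zero _
  neg_mem' := by
    intro v hv g i
    rw [map_neg]
    exact (dvd_neg).2 (hv g i)

variable {p}

lemma mem_Nx {n x : ℕ} {v : Vn p n} : v ∈ Nx p n x ↔
    ∀ (g : G) (i : Fin (n + 1)), (p : ℤ_[p]) ^ x ∣ sla p n (g.1 * dlt p) v i := Iff.rfl

/-- the explicit form -/
lemma mem_Nx' {n x : ℕ} {v : Vn p n} : v ∈ Nx p n x ↔
    ∀ (g : G) (i : Fin (n + 1)), (p : ℤ_[p]) ^ x ∣ (p : ℤ_[p]) ^ (i : ℕ) * sla p n g.1 v i := by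
  simp only [mem_Nx, ← sla_sla, sla_dlt]

lemma Nx_zero (n : ℕ) : Nx p n 0 = ⊤ := by
  rw [eq_top_iff]
  intro v _ g i
  rw [pow_zero]
  exact one_dvd _

lemma Nx_succ_le (n x : ℕ) : Nx p n (x + 1) ≤ Nx p n x := fun _ hv g i =>
  (pow_dvd_pow _ (Nat.le_succ x)).trans (hv g i)

lemma Nx_anti (n : ℕ) {x y : ℕ} (h : x ≤ y) : Nx p n y ≤ Nx p n x := fun _ hv g i =>
  (pow_dvd_pow _ h).trans (hv g i)

/-- `p^x V ≤ N_x` -/
lemma pow_smul_mem_Nx (n x : ℕ) (v : Vn p n) : (p : ℤ_[p]) ^ x • v ∈ Nx p n x := by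
  intro g i
  rw [map_smul]
  exact Dvd.intro _ rfl

lemma sla_mem_Nx {n x : ℕ} {v : Vn p n} (hv : v ∈ Nx p n x) (γ : G) :
    sla p n γ.1 v ∈ Nx p n x := by
  intro g i
  rw [sla_sla, ← Matrix.mul_assoc]
  exact hv (γ * g) i

lemma smul_mem_Nx {n x : ℕ} {v : Vn p n} (hv : v ∈ Nx p n x) (c : ℤ_[p]) :
    c • v ∈ Nx p n x := by
  intro g i
  rw [map_smul]
  exact Dvd.dvd.mul_left (hv g i) c

/-! ### division by `p^m` -/

open Classical in
/-- `a / p^m mod p` if `p^m ∣ a` -/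
def dm (m : ℕ) (a : ℤ_[p]) : ZMod p :=
  if h : (p : ℤ_[p]) ^ m ∣ a then PadicInt.toZMod h.choose else 0

lemma pp_ne (m : ℕ) : (p : ℤ_[p]) ^ m ≠ 0 :=
  pow_ne_zero _ (by exact_mod_cast (Fact.out : p.Prime).ne_zero)

lemma dm_mul (m : ℕ) (b : ℤ_[p]) : dm m ((p : ℤ_[p]) ^ m * b) = PadicInt.toZMod b := by
  have h : (p : ℤ_[p]) ^ m ∣ (p : ℤ_[p]) ^ m * b := Dvd.intro _ rfl
  unfold dm
  rw [dif_pos h]
  congr 1
  exact (mul_left_cancel₀ (pp_ne m) h.choose_spec).symm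

lemma toZMod_eq_zero_iff (b : ℤ_[p]) : PadicInt.toZMod b = 0 ↔ (p : ℤ_[p]) ∣ b := by
  rw [← RingHom.mem_ker, PadicInt.ker_toZMod, PadicInt.maximalIdeal_eq_span_p,
    Ideal.mem_span_singleton]

lemma dm_add {m : ℕ} {a b : ℤ_[p]} (ha : (p : ℤ_[p]) ^ m ∣ a) (hb : (p : ℤ_[p]) ^ m ∣ b) :
    dm m (a + b) = dm m a + dm m b := by
  obtain ⟨a, rfl⟩ := ha
  obtain ⟨b, rfl⟩ := hb
  rw [← mul_add, dm_mul, dm_mul, dm_mul, map_add]

lemma dm_zero (m : ℕ) : dm (p := p) m 0 = 0 := by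
  have := dm_mul (p := p) m 0
  rwa [mul_zero, map_zero] at this

lemma dm_eq_zero_iff {m : ℕ} {a : ℤ_[p]} (ha : (p : ℤ_[p]) ^ m ∣ a) :
    dm m a = 0 ↔ (p : ℤ_[p]) ^ (m + 1) ∣ a := by
  obtain ⟨a, rfl⟩ := ha
  rw [dm_mul, toZMod_eq_zero_iff, pow_succ, mul_dvd_mul_iff_left (pp_ne m)]

/-- reduction of a matrix product -/
lemma dm_mulVec {n m : ℕ} (A : Matrix (Fin (n + 1)) (Fin (n + 1)) ℤ_[p]) {w : Vn p n}
    (hw : ∀ i, (p : ℤ_[p]) ^ m ∣ w i) (i : Fin (n + 1)) :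
    dm m ((A *ᵥ w) i) = (A.map PadicInt.toZMod *ᵥ fun l => dm m (w l)) i := by
  choose w' hw' using hw
  have h1 : w = fun l => (p : ℤ_[p]) ^ m * w' l := funext hw'
  rw [h1]
  have h2 : (A *ᵥ fun l => (p : ℤ_[p]) ^ m * w' l) i = (p : ℤ_[p]) ^ m * (A *ᵥ w') i := by
    simp only [Matrix.mulVec, dotProduct, Finset.mul_sum]
    exact Finset.sum_congr rfl fun l _ => by ring
  rw [h2, dm_mul]
  simp only [dm_mul, Matrix.mulVec, dotProduct, map_sum, map_mul, Matrix.map_apply]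

/-! ### the map `θ_j` -/

/-- `δ⁻¹ b δ` -/
lemma inv_mul_dlt {b : G} (hb : b ∈ Gu p) : (b⁻¹ : G).1 * dlt p = dlt p * bt p b := by
  have hp : (p : ℤ) ≠ 0 := by exact_mod_cast (Fact.out : p.Prime).ne_zero
  obtain ⟨t, ht⟩ := hb
  have hinv : (b⁻¹ : G).1 = !![b.1 1 1, -(b.1 0 1); -(b.1 1 0), b.1 0 0] :=
    congrArg Subtype.val (SpecialLinearGroup.SL2_inv_expl b)
  have hdiv : b.1 0 1 / (p : ℤ) = t := by
    rw [ht, Int.mul_ediv_cancel_left _ hp]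
  rw [hinv]
  unfold dlt bt
  rw [hdiv]
  rw [Matrix.mul_fin_two, Matrix.mul_fin_two, ht]
  ext i j
  fin_cases i <;> fin_cases j
  · show b.1 1 1 * p + -(p * t) * 0 = p * b.1 1 1 + 0 * -(p * b.1 1 0)
    ring
  · show b.1 1 1 * 0 + -(p * t) * 1 = p * -t + 0 * b.1 0 0
    ring
  · show -b.1 1 0 * p + b.1 0 0 * 0 = 0 * b.1 1 1 + 1 * -(p * b.1 1 0)
    ring
  · show -b.1 1 0 * 0 + b.1 0 0 * 1 = 0 * -t + 1 * b.1 0 0
    ring

variable {n j : ℕ}

/-- the inclusion of indices -/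
def cst (hj : j ≤ n) (i : Fin (j + 1)) : Fin (n + 1) := Fin.castLE (Nat.succ_le_succ hj) i

@[simp] lemma cst_val (hj : j ≤ n) (i : Fin (j + 1)) : ((cst hj i : Fin (n + 1)) : ℕ) = i := rfl

/-- the values of `θ_j` -/
def thv (hj : j ≤ n) (v : Vn p n) (g : G) (i : Fin (j + 1)) : ZMod p :=
  dm j (sla p n ((g⁻¹ : G).1 * dlt p) v (cst hj i))

lemma dm_high {v : Vn p n} (hv : v ∈ Nx p n j) (g : G) (i : Fin (n + 1)) (hi : j < i) :
    dm j (sla p n (g.1 * dlt p) v i) = 0 := by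
  rw [dm_eq_zero_iff (hv g i), ← sla_sla, sla_dlt]
  exact Dvd.dvd.mul_right (pow_dvd_pow _ hi) _

lemma thv_mul (hj : j ≤ n) {v : Vn p n} (hv : v ∈ Nx p n j) {b : G} (hb : b ∈ Gu p) (g : G) :
    thv hj v (b * g) = rho p n j b (thv hj v g) := by
  funext i
  unfold thv
  have h1 : ((b * g)⁻¹ : G).1 * dlt p = (g⁻¹ : G).1 * dlt p * bt p b := by
    have h0 : ((b * g)⁻¹ : G).1 = (g⁻¹ : G).1 * (b⁻¹ : G).1 :=
      congrArg Subtype.val (_root_.mul_inv_rev b g)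
    rw [h0, Matrix.mul_assoc, inv_mul_dlt hb, Matrix.mul_assoc]
  rw [h1, ← sla_sla, sla_apply p n (bt p b), dm_mulVec _ (hv g⁻¹), rho_apply]
  have h2 : (slk n ((bt p b).map (Int.cast : ℤ → ℤ_[p]))).map (PadicInt.toZMod) =
      slk n (btm p b) := by
    rw [← slk_map]
    congr 1
    unfold btm
    rw [Matrix.map_map]
    congr 1
    funext x
    simp
  rw [h2, Matrix.mulVec, dotProduct]
  symm
  refine Fintype.sum_of_injective (cst hj) (fun a b hab => Fin.ext (by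
    have := congrArg Fin.val hab
    simpa using this)) _ _ ?_ ?_
  · intro m hm
    have hm' : j < m := by
      by_contra hc
      exact hm ⟨⟨m, by omega⟩, Fin.ext rfl⟩
    rw [dm_high hv g⁻¹ m hm', mul_zero]
  · intro m
    rfl

/-- the map `θ_j` -/
def theta (hj : j ≤ n) : Nx p n j →+ Ind (Gu p) (rho p n j) where
  toFun v := ⟨thv hj v.1, fun b hb g => thv_mul hj v.2 hb g⟩
  map_zero' := by
    refine Subtype.ext (funext fun g => funext fun i => ?_)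
    show dm j (sla p n _ (0 : Vn p n) (cst hj i)) = 0
    rw [map_zero]
    exact dm_zero j
  map_add' v w := by
    refine Subtype.ext (funext fun g => funext fun i => ?_)
    show dm j (sla p n _ (v.1 + w.1) (cst hj i)) = _
    rw [map_add]
    exact dm_add (v.2 g⁻¹ _) (w.2 g⁻¹ _)

lemma theta_apply (hj : j ≤ n) (v : Nx p n j) (g : G) (i : Fin (j + 1)) :
    (theta hj v).1 g i = dm j (sla p n ((g⁻¹ : G).1 * dlt p) v.1 (cst hj i)) := rfl

/-- the kernel of `θ_j` is `N_{j+1}` -/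
theorem theta_eq_zero_iff (hj : j ≤ n) (v : Nx p n j) :
    theta hj v = 0 ↔ (v : Vn p n) ∈ Nx p n (j + 1) := by
  constructor
  · intro h g i
    by_cases hi : (i : ℕ) ≤ j
    · have h1 : (theta hj v).1 g⁻¹ ⟨i, Nat.lt_succ_of_le hi⟩ = 0 := by rw [h]; rfl
      rw [theta_apply, inv_inv, dm_eq_zero_iff (v.2 g _)] at h1
      exact h1
    · rw [← dm_eq_zero_iff (v.2 g i)]
      exact dm_high v.2 g i (by omega)
  · intro h
    refine Subtype.ext (funext fun g => funext fun i => ?_)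
    show dm j _ = 0
    rw [dm_eq_zero_iff (v.2 g⁻¹ _)]
    exact h g⁻¹ _

/-- equivariance: `θ_j(v | γ)(g) = θ_j(v)(g γ⁻¹)` -/
theorem theta_sla (hj : j ≤ n) (v : Nx p n j) (γ g : G) :
    (theta hj ⟨sla p n γ.1 v.1, sla_mem_Nx v.2 γ⟩).1 g = (theta hj v).1 (g * γ⁻¹) := by
  funext i
  rw [theta_apply, theta_apply]
  have h0 : ((g * γ⁻¹)⁻¹ : G).1 = γ.1 * (g⁻¹ : G).1 := by
    have h := congrArg Subtype.val (_root_.mul_inv_rev g γ⁻¹)
    rw [inv_inv] at h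
    exact h
  rw [sla_sla, h0, Matrix.mul_assoc]

/-! ### the conditions of `S` and `R` -/

lemma neg_one_act (hn : Even n) (hj : j ≤ n) (F : Ind (Gu p) (rho p n j)) (g : G) :
    F.1 (g * -1) = F.1 g := by
  have h1 : g * (-1 : G) = -1 * g := by
    ext i j
    simp
  rw [h1, F.2 _ (isAct_rho hn hj).neg_mem, (isAct_rho hn hj).neg, LinearMap.id_apply]

lemma inv_S_eq : (S : G)⁻¹ = S * -1 := by
  rw [inv_eq_iff_mul_eq_one, ← mul_assoc, S_mul_S]
  ext i j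
  simp

lemma inv_Re_eq : Re⁻¹ = Re * Re := by
  rw [inv_eq_iff_mul_eq_one, ← mul_assoc, Re_cube]

/-- `θ_j (v | S)(g) = θ_j(v)(g S)` -/
lemma theta_S (hn : Even n) (hj : j ≤ n) (v : Nx p n j) (g : G) :
    (theta hj ⟨sla p n (S : G).1 v.1, sla_mem_Nx v.2 S⟩).1 g = (theta hj v).1 (g * S) := by
  rw [theta_sla, inv_S_eq, ← mul_assoc, neg_one_act hn hj]

lemma theta_Re (hj : j ≤ n) (v : Nx p n j) (g : G) :
    (theta hj ⟨sla p n Re.1 v.1, sla_mem_Nx v.2 Re⟩).1 g = (theta hj v).1 (g * Re * Re) := by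
  rw [theta_sla, inv_Re_eq, ← mul_assoc]

lemma theta_Re_Re (hj : j ≤ n) (v : Nx p n j) (g : G) :
    (theta hj ⟨sla p n Re.1 (sla p n Re.1 v.1), sla_mem_Nx (sla_mem_Nx v.2 Re) Re⟩).1 g =
      (theta hj v).1 (g * Re) := by
  have h1 : g * Re * Re * Re * Re = g * Re := by
    rw [mul_assoc g, mul_assoc g, Re_cube, mul_one]
  rw [theta_Re hj ⟨sla p n Re.1 v.1, sla_mem_Nx v.2 Re⟩, theta_Re, h1]

/-- `v + v|S ∈ N_{j+1}` implies `θ_j(v) ∈ ker (1 + S)` -/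
theorem theta_mem_KS (hn : Even n) (hj : j ≤ n) (v : Nx p n j)
    (hv : v.1 + sla p n (S : G).1 v.1 ∈ Nx p n (j + 1)) :
    (theta hj v).1 ∈ KS (Gu p) (rho p n j) := by
  refine ⟨(theta hj v).2, fun g => ?_⟩
  have h1 : theta hj (v + ⟨sla p n (S : G).1 v.1, sla_mem_Nx v.2 S⟩) = 0 :=
    (theta_eq_zero_iff hj _).2 hv
  rw [map_add] at h1
  have h2 := congrFun (congrArg Subtype.val h1) g
  rw [← theta_S hn]
  exact h2

theorem theta_mem_KR (hj : j ≤ n) (v : Nx p n j)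
    (hv : v.1 + sla p n Re.1 v.1 + sla p n Re.1 (sla p n Re.1 v.1) ∈ Nx p n (j + 1)) :
    (theta hj v).1 ∈ KR (Gu p) (rho p n j) := by
  refine ⟨(theta hj v).2, fun g => ?_⟩
  have h1 : theta hj (v + ⟨sla p n Re.1 v.1, sla_mem_Nx v.2 Re⟩ +
      ⟨sla p n Re.1 (sla p n Re.1 v.1), sla_mem_Nx (sla_mem_Nx v.2 Re) Re⟩) = 0 :=
    (theta_eq_zero_iff hj _).2 hv
  rw [map_add, map_add] at h1
  have h2 := congrFun (congrArg Subtype.val h1) g
  change (theta hj v).1 g + _ + _ = 0 at h2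
  rw [theta_Re, theta_Re_Re] at h2
  rw [← h2]
  abel

/-- the difference `F ↦ F(g w⁻¹) - F(g)` on the induced module -/
def dif (w : G) : Ind (Gu p) (rho p n j) →+ Ind (Gu p) (rho p n j) where
  toFun F := ⟨fun g => F.1 (g * w⁻¹) - F.1 g, fun b hb g => by
    show F.1 (b * g * w⁻¹) - F.1 (b * g) = _
    rw [mul_assoc, F.2 b hb, F.2 b hb, map_sub]⟩
  map_zero' := by
    refine Subtype.ext (funext fun g => ?_)
    show (0 : Fin (j + 1) → ZMod p) - 0 = 0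
    rw [sub_zero]
  map_add' F F' := by
    refine Subtype.ext (funext fun g => ?_)
    show F.1 (g * w⁻¹) + F'.1 (g * w⁻¹) - (F.1 g + F'.1 g) =
      F.1 (g * w⁻¹) - F.1 g + (F'.1 (g * w⁻¹) - F'.1 g)
    abel

/-- `θ_j (v | w - v) = dif w (θ_j v)` -/
theorem theta_dif (hj : j ≤ n) (v : Nx p n j) (w : G) :
    theta hj ⟨sla p n w.1 v.1 - v.1, (Nx p n j).sub_mem (sla_mem_Nx v.2 w) v.2⟩ =
      dif w (theta hj v) := by
  have h1 : (⟨sla p n w.1 v.1 - v.1, (Nx p n j).sub_mem (sla_mem_Nx v.2 w) v.2⟩ : Nx p n j) =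
      ⟨sla p n w.1 v.1, sla_mem_Nx v.2 w⟩ - v := rfl
  rw [h1, map_sub]
  refine Subtype.ext (funext fun g => ?_)
  show (theta hj _).1 g - (theta hj v).1 g = (theta hj v).1 (g * w⁻¹) - (theta hj v).1 g
  rw [theta_sla]

lemma mem_ker_dif (w : G) (F : Ind (Gu p) (rho p n j)) :
    dif w F = 0 ↔ F.1 ∈ KI (Gu p) (rho p n j) w := by
  constructor
  · intro h
    refine ⟨F.2, fun g => ?_⟩
    have h1 := congrFun (congrArg Subtype.val h) (g * w)
    change F.1 (g * w * w⁻¹) - F.1 (g * w) = 0 at h1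
    rw [mul_inv_cancel_right, sub_eq_zero] at h1
    exact h1.symm
  · intro h
    refine Subtype.ext (funext fun g => ?_)
    show F.1 (g * w⁻¹) - F.1 g = 0
    have h1 := h.2 (g * w⁻¹)
    rw [inv_mul_cancel_right] at h1
    rw [h1, sub_self]

instance finite_Ind : Finite (Ind (Gu p) (rho p n j)) := by
  have hG := card_Gu (p := p)
  have := hG.1
  refine Finite.of_injective (fun (F : Ind (Gu p) (rho p n j)) (q : Qt (Gu p)) => F.1 q.out)
    fun F F' h => Subtype.ext (funext fun g => ?_)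
  rw [Ind_apply F.2, Ind_apply F'.2]
  exact congrArg _ (congrFun h _)

end Gouvea.P5.One
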