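import Pool.Agent.Work.MP_d3517d_nt.P5.Rho
import Pool.Agent.Work.MP_d3517d_nt.P5.SymCount
import Pool.Agent.Work.MP_d3517d_nt.P5.Nx
import Pool.Agent.Work.MP_d3517d_nt.P5.Coinv

/-!
# P5, level one: restriction to fewer cusps (MP_d3517d_nt)

* `rs` : the restriction `Sym k N M n → Sym k N' M' n` along `Cusp N' → Cusp N`, `N ∣ N'`,
  `M ∣ M'`; it commutes with the Hecke operators at the primes dividing both or none of `M`, `M'`;
* `mem_of_zero` : the values of a symbol of level one are in a stable subgroup if `φ(∞, 0)` is;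
* `rs_injective` : the restriction from level one to the cusps `Γ₀(q) ∞` is injective;
* `relIndex_rs_le` : the index of the symbols with all values in `N_x` in the symbols with the
  values at the cusps `Γ₀(q) ∞` in `N_x` is at most `p^(n + x)`.
-/

open Matrix ModularGroup Module CongruenceSubgroup

noncomputable section

namespace Gouvea.P5.One

open Gouvea.PS (slk slk_apply slk_one slk_mul slk_smul slk_neg slk_map map_cast_mul)
open Gouvea.PX (SN Cusp inf act act_apply act_act IsG0 Sym upS upS_coe hecke opN rhoN)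

/-! ### the restriction -/

section Res

variable {N N' : ℕ}

/-- `Γ₀(N') ∞ → Γ₀(N) ∞` -/
def resC (h : N ∣ N') : Cusp N' → Cusp N :=
  Quotient.map (fun x : PX.PreCusp N' =>
    (⟨x.u, x.v, x.hu.of_isCoprime_of_dvd_right (Int.natCast_dvd_natCast.2 h),
      (Int.natCast_dvd_natCast.2 h).trans x.hv, x.hne⟩ : PX.PreCusp N)) (fun _ _ hxy => hxy)

/-- the inclusion of the monoids -/
def resS (h : N ∣ N') (g : SN N') : SN N :=
  ⟨g.1, g.2.1, g.2.2.1.of_isCoprime_of_dvd_right (Int.natCast_dvd_natCast.2 h),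
    (Int.natCast_dvd_natCast.2 h).trans g.2.2.2⟩

lemma resC_smul (h : N ∣ N') (g : SN N') (x : Cusp N') :
    resC h (g • x) = resS h g • resC h x := by
  refine Quotient.inductionOn x fun y => ?_
  rfl

lemma resC_inf (h : N ∣ N') : resC h (inf N') = inf N := rfl

lemma resC_mk (h : N ∣ N') (u v : ℤ) (hu : IsCoprime u (N' : ℤ)) (hv : (N' : ℤ) ∣ v)
    (hne : u ≠ 0 ∨ v ≠ 0) : resC h (Cusp.mk u v hu hv hne) =
      Cusp.mk u v (hu.of_isCoprime_of_dvd_right (Int.natCast_dvd_natCast.2 h))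
        ((Int.natCast_dvd_natCast.2 h).trans hv) hne := rfl

lemma resS_upS (h : N ∣ N') {a b d : ℤ} (ha : IsCoprime a (N' : ℤ)) (had : a * d ≠ 0) :
    resS h (upS N' a b d) = upS N a b d := by
  apply Subtype.ext
  show (upS N' a b d).1 = _
  rw [upS_coe ha had,
    upS_coe (ha.of_isCoprime_of_dvd_right (Int.natCast_dvd_natCast.2 h)) had]

variable {k : Type} [CommRing k] {n : ℕ}

/-- the restriction of functions on pairs of cusps -/
def rsF (k : Type) [CommRing k] (n : ℕ) (h : N ∣ N') :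
    (Cusp N → Cusp N → Fin (n + 1) → k) →ₗ[k] (Cusp N' → Cusp N' → Fin (n + 1) → k) where
  toFun φ x y := φ (resC h x) (resC h y)
  map_add' _ _ := rfl
  map_smul' _ _ := rfl

@[simp] lemma rsF_apply (h : N ∣ N') (φ : Cusp N → Cusp N → Fin (n + 1) → k) (x y : Cusp N') :
    rsF k n h φ x y = φ (resC h x) (resC h y) := rfl

lemma act_rsF (h : N ∣ N') (g : SN N') (φ : Cusp N → Cusp N → Fin (n + 1) → k) :
    act k N' n g (rsF k n h φ) = rsF k n h (act k N n (resS h g) φ) := by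
  funext x y
  rw [act_apply, rsF_apply, rsF_apply, act_apply, resC_smul, resC_smul]
  rfl

/-- the Hecke operators commute with the restriction -/
lemma hecke_rsF {M M' l : ℕ} (hl : l.Prime) (h : N ∣ N') (hN' : N' ∣ M')
    (hlM : l ∣ M ↔ l ∣ M') (φ : Cusp N → Cusp N → Fin (n + 1) → k) :
    hecke k N' M' n l (rsF k n h φ) = rsF k n h (hecke k N M n l φ) := by
  have hl0 : (l : ℤ) ≠ 0 := by exact_mod_cast hl.ne_zero
  rw [hecke, hecke, LinearMap.add_apply, LinearMap.add_apply, LinearMap.sum_apply,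
    LinearMap.sum_apply, map_add, map_sum]
  congr 1
  · refine Finset.sum_congr rfl fun b _ => ?_
    rw [act_rsF, resS_upS h isCoprime_one_left (by rwa [one_mul])]
  · by_cases h1 : l ∣ M'
    · rw [if_pos h1, if_pos (hlM.2 h1), LinearMap.zero_apply, LinearMap.zero_apply, map_zero]
    · rw [if_neg h1, if_neg (fun h2 => h1 (hlM.1 h2)), act_rsF, resS_upS h ?_ (by rwa [mul_one])]
      exact (PX.pu_of_not_dvd_level hl hN' h1).1

lemma rsF_mem {M M' : ℕ} (h : N ∣ N') (hM : M ∣ M') {φ : Cusp N → Cusp N → Fin (n + 1) → k}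
    (hφ : φ ∈ Sym k N M n) : rsF k n h φ ∈ Sym k N' M' n := by
  refine ⟨fun x y z => hφ.1 _ _ _, fun g hg => ?_⟩
  rw [act_rsF, hφ.2 (resS h g) ⟨hg.1, (Int.natCast_dvd_natCast.2 hM).trans hg.2⟩]

/-- **The restriction** of symbols. -/
def rs (k : Type) [CommRing k] (n : ℕ) {M M' : ℕ} (h : N ∣ N') (hM : M ∣ M') :
    Sym k N M n →ₗ[k] Sym k N' M' n :=
  (rsF k n h).restrict fun _ hφ => rsF_mem h hM hφ

@[simp] lemma rs_coe {M M' : ℕ} (h : N ∣ N') (hM : M ∣ M') (φ : Sym k N M n) :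
    (rs k n h hM φ : Cusp N' → Cusp N' → Fin (n + 1) → k) = rsF k n h φ := rfl

lemma rs_apply {M M' : ℕ} (h : N ∣ N') (hM : M ∣ M') (φ : Sym k N M n) (x y : Cusp N') :
    (rs k n h hM φ).1 x y = φ.1 (resC h x) (resC h y) := rfl

variable {M M' : ℕ} [NeZero M] [NeZero M']

lemma rs_opN (h : N ∣ N') (hM : M ∣ M') (hN : N ∣ M) (hN' : N' ∣ M') {q : Nat.Primes}
    (hq : (q : ℕ) ∣ M ↔ (q : ℕ) ∣ M') (φ : Sym k N M n) :
    rs k n h hM (opN k N M n hN q φ) = opN k N' M' n hN' q (rs k n h hM φ) :=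
  Subtype.ext (hecke_rsF q.2 h hN' hq φ.1).symm

lemma rs_rhoN_X (h : N ∣ N') (hM : M ∣ M') (hN : N ∣ M) (hN' : N' ∣ M') {q : Nat.Primes}
    (hq : (q : ℕ) ∣ M ↔ (q : ℕ) ∣ M') (φ : Sym k N M n) :
    rs k n h hM (rhoN k N M n hN (MvPolynomial.X q) φ) =
      rhoN k N' M' n hN' (MvPolynomial.X q) (rs k n h hM φ) := by
  rw [PX.rhoN_X, PX.rhoN_X, rs_opN h hM hN hN' hq]

/-- the restriction commutes with the Hecke ring of the primes dividing both or none of the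
levels -/
theorem rs_equivariant {κ : Type*} (e : κ → Nat.Primes)
    (he : ∀ j, (e j : ℕ) ∣ M ↔ (e j : ℕ) ∣ M') (h : N ∣ N') (hM : M ∣ M') (hN : N ∣ M)
    (hN' : N' ∣ M') (r : MvPolynomial κ ℤ) (φ : Sym k N M n) :
    rs k n h hM (rhoN k N M n hN (MvPolynomial.rename e r) φ) =
      rhoN k N' M' n hN' (MvPolynomial.rename e r) (rs k n h hM φ) :=
  PX.equivariant_of_rename e (ρU := rhoN k N M n hN) (ρV := rhoN k N' M' n hN')
    (f := (rs k n h hM).toAddMonoidHom) (fun j u => rs_rhoN_X h hM hN hN' (he j) u) r φ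

/-- the operator `T_l`, `l ∤ q`, from level one to level `q` -/
theorem rs_one {q : ℕ} [NeZero q] {l : Nat.Primes} (hl : ¬ (l : ℕ) ∣ q) (φ : Sym k 1 1 n) :
    rs k n (one_dvd q) (one_dvd q) (rhoN k 1 1 n (one_dvd 1) (MvPolynomial.X l) φ) =
      rhoN k q q n (dvd_refl q) (MvPolynomial.X l) (rs k n (one_dvd q) (one_dvd q) φ) :=
  rs_rhoN_X (one_dvd q) (one_dvd q) (one_dvd 1) (dvd_refl q)
    (iff_of_false (fun h => l.2.one_lt.ne' (Nat.dvd_one.1 h)) hl) φ

end Res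

/-! ### the values of a symbol of level one -/

section Values

variable {k : Type} [CommRing k] {n N M : ℕ}

lemma mem_one (γ : G) : γ ∈ Gamma0 1 := mem_of_dvd (by simp)

/-- the cusp `γ ∞` of level one -/
def c1 (γ : G) : Cusp 1 := toSN γ (mem_one γ) • inf 1

lemma c1_mul (γ δ : G) : c1 (γ * δ) = toSN γ (mem_one γ) • c1 δ := by
  unfold c1
  rw [← mul_smul]
  rfl

lemma c1_surjective (x : Cusp 1) : ∃ γ, c1 γ = x := by
  obtain ⟨g, hg⟩ := cu_surjective x
  exact ⟨g.1, hg⟩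

lemma c1_one : c1 1 = inf 1 := by
  unfold c1
  exact toSN_smul_inf 1 _ (by simp)

lemma c1_T : c1 T = inf 1 := by
  unfold c1
  exact toSN_smul_inf T _ (by simp [T])

/-- the value at `(γ x, γ y)` -/
lemma val_smul {φ : Cusp N → Cusp N → Fin (n + 1) → k} (hφ : φ ∈ Sym k N M n) {γ : G}
    (hN : γ ∈ Gamma0 N) (hM : γ ∈ Gamma0 M) (x y : Cusp N) :
    φ (toSN γ hN • x) (toSN γ hN • y) =
      slk n ((γ⁻¹).1.map (Int.cast : ℤ → k)) *ᵥ φ x y := by
  have h1 := hφ.2 (toSN γ hN) (isG0_toSN γ hN hM)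
  have h2 := congrFun (congrFun h1 x) y
  rw [act_apply] at h2
  have h3 : (toSN γ hN).1 = γ.1 := rfl
  rw [← h2, Matrix.mulVec_mulVec, ← slk_mul, ← map_cast_mul, h3,
    ← Matrix.SpecialLinearGroup.coe_mul, mul_inv_cancel]
  have : ((1 : G).1).map (Int.cast : ℤ → k) = 1 := by
    show ((1 : Matrix (Fin 2) (Fin 2) ℤ)).map (Int.cast : ℤ → k) = 1
    simp [Matrix.map_one]
  rw [this, slk_one, Matrix.one_mulVec]

lemma val_self {φ : Cusp N → Cusp N → Fin (n + 1) → k} (hφ : φ ∈ Sym k N M n) (x : Cusp N) :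
    φ x x = 0 := by
  have := hφ.1 x x x
  simpa using this

lemma val_neg {φ : Cusp N → Cusp N → Fin (n + 1) → k} (hφ : φ ∈ Sym k N M n) (x y : Cusp N) :
    φ y x = -φ x y := by
  have h1 := hφ.1 x y x
  rw [val_self hφ] at h1
  exact eq_neg_of_add_eq_zero_right h1

/-- **The values of a symbol of level one** are in a stable subgroup if the value at `(∞, 0)`
is. -/
theorem mem_of_zero {φ : Cusp 1 → Cusp 1 → Fin (n + 1) → k} (hφ : φ ∈ Sym k 1 1 n)
    (A : AddSubgroup (Fin (n + 1) → k))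
    (hA : ∀ (γ : G) (v), v ∈ A → slk n (γ.1.map (Int.cast : ℤ → k)) *ᵥ v ∈ A)
    (h0 : φ (inf 1) (c1 S) ∈ A) (x y : Cusp 1) : φ x y ∈ A := by
  have hmul : ∀ γ δ : G, φ (inf 1) (c1 (γ * δ)) = φ (inf 1) (c1 γ) +
      slk n ((γ⁻¹).1.map (Int.cast : ℤ → k)) *ᵥ φ (inf 1) (c1 δ) := by
    intro γ δ
    rw [← val_smul hφ (mem_one γ) (mem_one γ), ← c1_mul]
    exact (hφ.1 _ _ _).symm
  have h1 : ∀ γ : G, φ (inf 1) (c1 γ) ∈ A := by
    intro γ
    have hmem : γ ∈ Subgroup.closure {S, T} := by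
      rw [SpecialLinearGroup.SL2Z_generators]
      exact Subgroup.mem_top γ
    induction hmem using Subgroup.closure_induction with
    | mem x hx =>
      rcases hx with rfl | hx
      · exact h0
      · rw [Set.mem_singleton_iff.1 hx, c1_T, val_self hφ]
        exact A.zero_mem
    | one =>
      rw [c1_one, val_self hφ]
      exact A.zero_mem
    | mul x y _ _ ihx ihy =>
      rw [hmul]
      exact A.add_mem ihx (hA _ _ ihy)
    | inv x _ ihx =>
      have h2 := hmul x⁻¹ x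
      rw [inv_mul_cancel, c1_one, val_self hφ] at h2
      rw [eq_neg_of_add_eq_zero_left h2.symm]
      exact A.neg_mem (hA _ _ ihx)
  obtain ⟨γ, rfl⟩ := c1_surjective x
  obtain ⟨δ, rfl⟩ := c1_surjective y
  have h3 := hφ.1 (c1 γ) (inf 1) (c1 δ)
  rw [val_neg hφ (inf 1) (c1 γ)] at h3
  rw [← h3]
  exact A.add_mem (A.neg_mem (h1 γ)) (h1 δ)

/-- the matrix `(1 b; 0 1)` -/
def TT (b : ℤ) : G := ⟨!![1, b; 0, 1], by
  rw [det_fin_two_of]
  ring⟩

lemma TT_inv (b : ℤ) : (TT b)⁻¹ = TT (-b) := by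
  rw [inv_eq_iff_mul_eq_one]
  apply Subtype.ext
  show (!![1, b; 0, 1] : Matrix (Fin 2) (Fin 2) ℤ) * !![1, -b; 0, 1] = 1
  rw [Matrix.mul_fin_two]
  ext i j
  fin_cases i <;> fin_cases j <;> simp

/-- the cusp `1/(-q)` of `Γ₀(q) ∞` -/
def iq (q : ℕ) : Cusp q :=
  Cusp.mk 1 (-q) isCoprime_one_left (dvd_neg.2 (dvd_refl _)) (Or.inl one_ne_zero)

lemma S_inf (q : ℕ) : toSN S (mem_one S) • resC (one_dvd q) (inf q) = c1 S := rfl

/-- the difference of `φ(∞, 0)` and its translate -/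
lemma val_zero_sub {q : ℕ} {φ : Cusp 1 → Cusp 1 → Fin (n + 1) → k} (hφ : φ ∈ Sym k 1 1 n) :
    slk n ((TT (-q)).1.map (Int.cast : ℤ → k)) *ᵥ φ (inf 1) (c1 S) - φ (inf 1) (c1 S) =
      slk n ((S⁻¹ : G).1.map (Int.cast : ℤ → k)) *ᵥ
        φ (resC (one_dvd q) (inf q)) (resC (one_dvd q) (iq q)) := by
  have h1 : toSN (TT q) (mem_one _) • inf 1 = inf 1 := toSN_smul_inf _ _ rfl
  have h2 : toSN (TT q) (mem_one _) • c1 S =
      toSN S (mem_one S) • resC (one_dvd q) (iq q) := by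
    show Quotient.mk _ _ = Quotient.mk _ _
    refine Quotient.sound ?_
    show (1 * (0 * 1 + -1 * 0) + (q : ℤ) * (1 * 1 + 0 * 0)) * (1 * 1 + 0 * -(q : ℤ)) =
      (0 * 1 + -1 * -(q : ℤ)) * (0 * (0 * 1 + -1 * 0) + 1 * (1 * 1 + 0 * 0))
    ring
  rw [← TT_inv, ← val_smul hφ (mem_one _) (mem_one _), ← val_smul hφ (mem_one _) (mem_one _), h1,
    h2, S_inf]
  exact sub_eq_of_eq_add' (hφ.1 (inf 1) (c1 S) _).symm

end Values

/-! ### over the `p`-adic integers -/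

section Padic

variable {p : ℕ} [Fact p.Prime] {n : ℕ}

lemma TT_map (b : ℤ) : (TT b).1.map (Int.cast : ℤ → ℤ_[p]) = Tb (b : ℤ_[p]) := by
  ext i j
  fin_cases i <;> fin_cases j <;> simp [TT, Tb]

lemma dl_val {q : ℕ} {φ : Cusp 1 → Cusp 1 → Fin (n + 1) → ℤ_[p]} (hφ : φ ∈ Sym ℤ_[p] 1 1 n) :
    dl p n (Tb (-(q : ℤ_[p]))) (φ (inf 1) (c1 S)) = sla p n (S⁻¹ : G).1
        (φ (resC (one_dvd q) (inf q)) (resC (one_dvd q) (iq q))) := by
  have h1 := val_zero_sub (q := q) hφ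
  rw [TT_map] at h1
  push_cast at h1
  rw [dl_apply, h1]
  rfl

/-- translation invariant vectors are constant -/
lemma eq_zero_of_dl {b : ℤ_[p]} (hb : b ≠ 0) {v : Fin (n + 1) → ℤ_[p]}
    (h : dl p n (Tb b) v = 0) (i : Fin (n + 1)) (hi : 0 < (i : ℕ)) : v i = 0 := by
  classical
  by_contra hne
  have hex : (Finset.univ.filter fun j : Fin (n + 1) => 0 < (j : ℕ) ∧ v j ≠ 0).Nonempty :=
    ⟨i, Finset.mem_filter.2 ⟨Finset.mem_univ _, hi, hne⟩⟩
  obtain ⟨j, hj, hmax⟩ := Finset.exists_max_image _ (fun j : Fin (n + 1) => (j : ℕ)) hex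
  obtain ⟨hj0, hjv⟩ := (Finset.mem_filter.1 hj).2
  have hj1 : (j : ℕ) - 1 < n + 1 := by
    have := j.2
    omega
  have h1 := congrFun h ⟨(j : ℕ) - 1, hj1⟩
  rw [dl_apply, Pi.sub_apply, Matrix.mulVec, dotProduct] at h1
  have h2 : ∑ l : Fin (n + 1), slk n (Tb b) ⟨(j : ℕ) - 1, hj1⟩ l * v l =
      v ⟨(j : ℕ) - 1, hj1⟩ + b * ((j : ℕ) : ℤ_[p]) * v j := by
    have hne' : (⟨(j : ℕ) - 1, hj1⟩ : Fin (n + 1)) ≠ j := by
      intro h
      have := congrArg (fun x : Fin (n + 1) => (x : ℕ)) h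
      simp only at this
      omega
    rw [← Finset.sum_subset (Finset.subset_univ {⟨(j : ℕ) - 1, hj1⟩, j}), Finset.sum_pair hne']
    · rw [slk_Tb, slk_Tb]
      simp only [Nat.sub_self, pow_zero, Nat.choose_self, Nat.cast_one, mul_one, one_mul]
      congr 1
      have e1 : (j : ℕ) - ((j : ℕ) - 1) = 1 := by omega
      have e2 : (j : ℕ).choose ((j : ℕ) - 1) = j := by
        obtain ⟨m, hm⟩ : ∃ m, (j : ℕ) = m + 1 := ⟨(j : ℕ) - 1, by omega⟩
        rw [hm, Nat.add_sub_cancel, Nat.choose_succ_self_right]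
      rw [e1, e2, pow_one]
    · intro l _ hl
      rw [Finset.mem_insert, Finset.mem_singleton, not_or] at hl
      rcases Nat.lt_or_ge (l : ℕ) ((j : ℕ) - 1) with h3 | h3
      · rw [slk_Tb, Nat.choose_eq_zero_of_lt h3, Nat.cast_zero, mul_zero, zero_mul]
      · have h4 : (l : ℕ) ≠ (j : ℕ) - 1 := fun h5 => hl.1 (Fin.ext h5)
        have h5 : (l : ℕ) ≠ j := fun h6 => hl.2 (Fin.ext h6)
        have h6 : v l = 0 := by
          by_contra hc
          have := hmax l (Finset.mem_filter.2 ⟨Finset.mem_univ _, by omega, hc⟩)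
          omega
        rw [h6, mul_zero]
  rw [h2, add_sub_cancel_left] at h1
  have h3 : ((j : ℕ) : ℤ_[p]) ≠ 0 := by
    exact_mod_cast hj0.ne'
  exact mul_ne_zero (mul_ne_zero hb h3) hjv h1

/-- **Injectivity** of the restriction from level one. -/
theorem rs_injective {q M' : ℕ} (hq : q ≠ 0) :
    Function.Injective (rs ℤ_[p] n (one_dvd q) (one_dvd M') :
      Sym ℤ_[p] 1 1 n → Sym ℤ_[p] q M' n) := by
  rw [← LinearMap.ker_eq_bot, LinearMap.ker_eq_bot']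
  intro φ hφ
  have h1 := dl_val (q := q) φ.2
  have h2 : φ.1 (resC (one_dvd q) (inf q)) (resC (one_dvd q) (iq q)) = 0 :=
    congrFun (congrFun (congrArg Subtype.val hφ) (inf q)) (iq q)
  rw [h2, map_zero] at h1
  have hq' : -(q : ℤ_[p]) ≠ 0 := neg_ne_zero.2 (by exact_mod_cast hq)
  have h3 := eq_zero_of_dl hq' h1
  set v := φ.1 (inf 1) (c1 S) with hv
  -- `v + v | S⁻¹ = 0`
  have h4 : v + sla p n (S⁻¹ : G).1 v = 0 := by
    have h5 : sla p n (S⁻¹ : G).1 v = φ.1 (c1 S) (toSN S (mem_one S) • c1 S) :=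
      (val_smul φ.2 (mem_one S) (mem_one S) (inf 1) (c1 S)).symm
    have h6 : toSN S (mem_one S) • c1 S = inf 1 := by
      rw [← c1_mul, S_mul_S]
      unfold c1
      exact toSN_smul_inf _ _ (by simp)
    rw [h5, h6, val_neg φ.2 (inf 1) (c1 S)]
    exact add_neg_cancel v
  have hv0 : v = 0 := by
    have h5 : sla p n (S⁻¹ : G).1 v 0 = if n = 0 then v 0 else 0 := by
      rw [sla_apply, Matrix.mulVec, dotProduct, Finset.sum_eq_single 0]
      · rw [slk_apply, slR]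
        have e : (S⁻¹ : G).1 = !![0, 1; -1, 0] := by
          ext a b
          fin_cases a <;> fin_cases b <;> simp [S]
        rw [e]
        simp
        by_cases hn : n = 0
        · subst hn
          simp
        · rw [if_neg hn]
          simp [Polynomial.coeff_zero_eq_eval_zero, hn]
      · intro j _ hj
        rw [h3 j (Nat.pos_of_ne_zero fun h => hj (Fin.ext h)), mul_zero]
      · intro h
        exact absurd (Finset.mem_univ _) h
    have h6 := congrFun h4 0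
    rw [Pi.add_apply, h5] at h6
    have h7 : v 0 = 0 := by
      by_cases hn : n = 0
      · rw [if_pos hn] at h6
        have h8 : (2 : ℤ_[p]) * v 0 = 0 := by
          rw [two_mul]
          exact h6
        exact (mul_eq_zero.1 h8).resolve_left two_ne_zero
      · rw [if_neg hn, add_zero] at h6
        exact h6
    funext i
    rcases Nat.eq_zero_or_pos (i : ℕ) with h8 | h8
    · have : i = 0 := Fin.ext h8
      rw [this, h7]
      rfl
    · exact h3 i h8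
  apply Subtype.ext
  funext x y
  have h8 := mem_of_zero φ.2 ⊥ (fun γ w hw => by
    rw [AddSubgroup.mem_bot] at hw ⊢
    rw [hw, Matrix.mulVec_zero]) (by rw [AddSubgroup.mem_bot]; exact hv0) x y
  exact h8

/-- `N_x` as a submodule -/
def NxS (p : ℕ) [Fact p.Prime] (n x : ℕ) : Submodule ℤ_[p] (Fin (n + 1) → ℤ_[p]) where
  carrier := Nx p n x
  add_mem' := (Nx p n x).add_mem
  zero_mem' := (Nx p n x).zero_mem
  smul_mem' c _ hv := smul_mem_Nx hv c

lemma mem_NxS {x : ℕ} {v : Fin (n + 1) → ℤ_[p]} : v ∈ NxS p n x ↔ v ∈ Nx p n x := Iff.rfl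

/-- the value at `(∞, 0)` -/
def ev0 (p : ℕ) [Fact p.Prime] (n : ℕ) : Sym ℤ_[p] 1 1 n →+ (Fin (n + 1) → ℤ_[p]) where
  toFun φ := φ.1 (inf 1) (c1 S)
  map_zero' := rfl
  map_add' _ _ := rfl

/-- **The index**, abstract form: `F₁` the symbols of level one with all values in `N_x`, `F` a
subgroup of the symbols with the value at `(∞, -1/q)` in `N_x`. -/
theorem relIndex_le_of_val {q x : ℕ} (hq : ¬ p ∣ q) (F1 F : AddSubgroup (Sym ℤ_[p] 1 1 n))
    (hF1 : ∀ φ : Sym ℤ_[p] 1 1 n, (∀ y z, φ.1 y z ∈ Nx p n x) → φ ∈ F1)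
    (hF : ∀ φ ∈ F, φ.1 (resC (one_dvd q) (inf q)) (resC (one_dvd q) (iq q)) ∈ Nx p n x) :
    F1.relIndex F ≤ p ^ (n + x) ∧ F1.relIndex F ≠ 0 := by
  have hb : IsUnit (-(q : ℤ_[p])) := by
    rw [IsUnit.neg_iff, PadicInt.isUnit_iff, ← Int.cast_natCast]
    refine le_antisymm (PadicInt.norm_le_one _) ?_
    by_contra hc
    rw [not_le, PadicInt.norm_int_lt_one_iff_dvd] at hc
    exact hq (by exact_mod_cast hc)
  have hdl : ∀ v ∈ NxS p n x, dl p n (Tb (-(q : ℤ_[p]))) v ∈ NxS p n x := by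
    intro v hv
    rw [dl_apply]
    refine (NxS p n x).sub_mem ?_ hv
    have h1 := sla_mem_Nx (mem_NxS.1 hv) (TT (-q))
    rw [sla_apply, TT_map] at h1
    push_cast at h1
    exact h1
  have hpx : ∀ v, (p : ℤ_[p]) ^ x • v ∈ NxS p n x := pow_smul_mem_Nx n x
  have h1 := ker_le (NxS p n x) x hpx hb hdl
  have h0 := index_ne_zero (NxS p n x) x hpx
  set P := ((NxS p n x).comap (dl p n (Tb (-(q : ℤ_[p]))))).toAddSubgroup with hP
  have hAP : (NxS p n x).toAddSubgroup ≤ P := fun v hv => hdl v hv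
  have h2 : (NxS p n x).toAddSubgroup.relIndex P ≠ 0 := fun h =>
    h0 (AddSubgroup.index_eq_zero_of_relIndex_eq_zero h)
  have h3 : F.map (ev0 p n) ≤ P := by
    rintro _ ⟨φ, hφ, rfl⟩
    show dl p n (Tb (-(q : ℤ_[p]))) (φ.1 (inf 1) (c1 S)) ∈ NxS p n x
    rw [dl_val φ.2]
    exact sla_mem_Nx (hF φ hφ) _
  have h4 : (NxS p n x).toAddSubgroup.comap (ev0 p n) ≤ F1 := by
    intro φ hφ
    refine hF1 φ fun y z => ?_
    exact mem_of_zero φ.2 (Nx p n x) (fun γ v hv => sla_mem_Nx hv γ) hφ y z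
  have h5 : ((NxS p n x).toAddSubgroup.comap (ev0 p n)).relIndex F ≤ p ^ (n + x) ∧
      ((NxS p n x).toAddSubgroup.comap (ev0 p n)).relIndex F ≠ 0 := by
    rw [AddSubgroup.relIndex_comap]
    exact ⟨(AddSubgroup.relIndex_le_of_le_right h3 h2).trans h1,
      fun h => h2 (AddSubgroup.relIndex_eq_zero_of_le_right h3 h)⟩
  exact ⟨(AddSubgroup.relIndex_le_of_le_left h4 h5.2).trans h5.1,
    fun h => h5.2 (AddSubgroup.relIndex_eq_zero_of_le_left h4 h)⟩

/-- **The index** for the restriction to the cusps `Γ₀(q) ∞`, level `M'`. -/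
theorem relIndex_rs_le {q M' x : ℕ} (hq : ¬ p ∣ q) (F1 : Submodule ℤ_[p] (Sym ℤ_[p] 1 1 n))
    (F : Submodule ℤ_[p] (Sym ℤ_[p] q M' n))
    (hF1 : ∀ φ : Sym ℤ_[p] 1 1 n, (∀ y z, φ.1 y z ∈ Nx p n x) → φ ∈ F1)
    (hF : ∀ φ ∈ F, ∀ y z, φ.1 y z ∈ Nx p n x) :
    F1.toAddSubgroup.relIndex
        (F.comap (rs ℤ_[p] n (one_dvd q) (one_dvd M'))).toAddSubgroup ≤ p ^ (n + x) ∧
      F1.toAddSubgroup.relIndex
        (F.comap (rs ℤ_[p] n (one_dvd q) (one_dvd M'))).toAddSubgroup ≠ 0 :=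
  relIndex_le_of_val hq _ _ hF1 fun _ hφ => hF _ hφ (inf q) (iq q)

/-- the symbols of level one with all values in `N_x` restrict to symbols with values in
`N_x` -/
lemma le_comap_rs {q M' x : ℕ} (F1 : Submodule ℤ_[p] (Sym ℤ_[p] 1 1 n))
    (F : Submodule ℤ_[p] (Sym ℤ_[p] q M' n))
    (hF1 : ∀ φ ∈ F1, ∀ y z, φ.1 y z ∈ Nx p n x)
    (hF : ∀ φ : Sym ℤ_[p] q M' n, (∀ y z, φ.1 y z ∈ Nx p n x) → φ ∈ F) :
    F1 ≤ F.comap (rs ℤ_[p] n (one_dvd q) (one_dvd M')) :=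
  fun _ hφ => hF _ fun _ _ => hF1 _ hφ _ _

/-- the logarithmic form -/
theorem logb_index_le {q M' x : ℕ} (hq : ¬ p ∣ q) (F1 : Submodule ℤ_[p] (Sym ℤ_[p] 1 1 n))
    (F : Submodule ℤ_[p] (Sym ℤ_[p] q M' n))
    (hF1 : ∀ φ : Sym ℤ_[p] 1 1 n, φ ∈ F1 ↔ ∀ y z, φ.1 y z ∈ Nx p n x)
    (hF : ∀ φ : Sym ℤ_[p] q M' n, φ ∈ F ↔ ∀ y z, φ.1 y z ∈ Nx p n x) :
    Real.logb p F1.toAddSubgroup.index ≤
      Real.logb p (F.comap (rs ℤ_[p] n (one_dvd q) (one_dvd M'))).toAddSubgroup.index +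
        (n + x) := by
  have hp1 : (1 : ℝ) < p := by exact_mod_cast (Fact.out : p.Prime).one_lt
  have hle := le_comap_rs F1 F (fun φ hφ => (hF1 φ).1 hφ) (fun φ hφ => (hF φ).2 hφ)
  obtain ⟨h1, h2⟩ := relIndex_rs_le hq F1 F (fun φ hφ => (hF1 φ).2 hφ)
    (fun φ hφ => (hF φ).1 hφ)
  set K := (F.comap (rs ℤ_[p] n (one_dvd q) (one_dvd M'))).toAddSubgroup with hK
  have h3 : F1.toAddSubgroup.relIndex K * K.index = F1.toAddSubgroup.index :=
    AddSubgroup.relIndex_mul_index hle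
  rw [← h3]
  rcases Nat.eq_zero_or_pos K.index with h0 | h0
  · rw [h0, mul_zero, Nat.cast_zero, Real.logb_zero, zero_add]
    positivity
  · rw [Nat.cast_mul, Real.logb_mul (by exact_mod_cast h2) (by exact_mod_cast h0.ne'), add_comm]
    gcongr
    have h4 : Real.logb p (F1.toAddSubgroup.relIndex K : ℕ) ≤
        Real.logb p ((p : ℝ) ^ (n + x)) := by
      refine Real.logb_le_logb_of_le hp1 ?_ ?_
      · exact_mod_cast Nat.pos_of_ne_zero h2
      · exact_mod_cast h1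
    refine h4.trans (le_of_eq ?_)
    rw [Real.logb_pow, Real.logb_self_eq_one hp1, mul_one]
    push_cast
    rfl

end Padic

end Gouvea.P5.One
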