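import Pool.Agent.Work.MP_d3517d_nt.P5.HodgeAbs

/-!
# P5, level one: the abstract squeeze (MP_d3517d_nt)

`A`, `S` are free `ℤ_p`-modules of finite rank, `ρ : S → A` is injective and intertwines `U` and
`U'`, and `F` is a submodule of `A` with `U' F ⊆ p ^ x A`.

* `charpoly_of_inj`: two lattices of the same rank have the same characteristic polynomial;
* `squeeze`: `GE U' x + log_p [S : ρ⁻¹ F] ≤ GE U x + log_p [A : F]`;
* `squeeze_both`: the two sided estimate of `GE U x`.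
-/

open Polynomial Finset

noncomputable section

namespace Gouvea.P5

open Pool.Agent.Gouv

variable {p : ℕ} [hp : Fact p.Prime]

section Sq

variable {A S : Type} [AddCommGroup A] [Module ℤ_[p] A] [Module.Free ℤ_[p] A]
  [Module.Finite ℤ_[p] A] [AddCommGroup S] [Module ℤ_[p] S] [Module.Free ℤ_[p] S]
  [Module.Finite ℤ_[p] S]

theorem charpoly_of_inj (U' : A →ₗ[ℤ_[p]] A) (U : S →ₗ[ℤ_[p]] S) (ρ : S →ₗ[ℤ_[p]] A)
    (hρ : Function.Injective ρ) (hU : ∀ s, ρ (U s) = U' (ρ s))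
    (hr : Module.finrank ℤ_[p] S = Module.finrank ℤ_[p] A) : U.charpoly = U'.charpoly := by
  classical
  let bS := Module.finBasisOfFinrankEq ℤ_[p] S hr
  let bA := Module.finBasis ℤ_[p] A
  set M := LinearMap.toMatrix bS bA ρ with hM
  set u := LinearMap.toMatrix bS bS U with hu
  set u' := LinearMap.toMatrix bA bA U' with hu'
  have h1 : M * u = u' * M := by
    rw [hM, hu, hu', ← LinearMap.toMatrix_comp, ← LinearMap.toMatrix_comp]
    congr 1
    ext s
    exact hU s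
  have hdet : M.det ≠ 0 := by
    intro h0
    obtain ⟨v, hv, hv0⟩ := Matrix.exists_mulVec_eq_zero_iff.2 h0
    apply hv
    have h2 : ρ (bS.equivFun.symm v) = 0 := by
      apply bA.repr.injective
      ext i
      have h3 := congrFun (LinearMap.toMatrix_mulVec_repr bS bA ρ (bS.equivFun.symm v)) i
      have h4 : (⇑(bS.repr (bS.equivFun.symm v)) : _ → ℤ_[p]) = v := by
        have := bS.equivFun.apply_symm_apply v
        exact this
      rw [h4] at h3
      rw [← h3, hv0]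
      simp
    have h5 : bS.equivFun.symm v = 0 := hρ (by rw [h2, map_zero])
    have := congrArg bS.equivFun h5
    rwa [LinearEquiv.apply_symm_apply, map_zero] at this
  have h2 : (C.mapMatrix M) * u.charmatrix = u'.charmatrix * (C.mapMatrix M) := by
    have h3 : (C.mapMatrix M) * (C.mapMatrix u) = (C.mapMatrix u') * (C.mapMatrix M) := by
      rw [← map_mul, ← map_mul, h1]
    have h4 : (C.mapMatrix M) * Matrix.scalar _ (X : ℤ_[p][X]) =
        Matrix.scalar _ (X : ℤ_[p][X]) * (C.mapMatrix M) :=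
      ((Matrix.scalar_commute (X : ℤ_[p][X]) (fun r => Commute.all _ _) _).eq).symm
    rw [Matrix.charmatrix, Matrix.charmatrix, mul_sub, sub_mul, h3, h4]
  have h3 := congrArg Matrix.det h2
  rw [Matrix.det_mul, Matrix.det_mul, mul_comm (Matrix.det (u'.charmatrix))] at h3
  have h4 : (C.mapMatrix M).det = C M.det := (RingHom.map_det C M).symm
  rw [h4] at h3
  have h5 : (C M.det : ℤ_[p][X]) ≠ 0 := C_ne_zero.2 hdet
  have h6 := mul_left_cancel₀ h5 h3
  rw [← LinearMap.charpoly_toMatrix U bS, ← LinearMap.charpoly_toMatrix U' bA]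
  exact h6

theorem GE_of_inj (U' : A →ₗ[ℤ_[p]] A) (U : S →ₗ[ℤ_[p]] S) (ρ : S →ₗ[ℤ_[p]] A)
    (hρ : Function.Injective ρ) (hU : ∀ s, ρ (U s) = U' (ρ s))
    (hr : Module.finrank ℤ_[p] S = Module.finrank ℤ_[p] A) (x : ℝ) : GE U x = GE U' x := by
  unfold GE specE
  rw [charpoly_of_inj U' U ρ hρ hU hr]

/-! ### The saturation -/

/-- The saturation of a submodule. -/
def satOf {A : Type} [AddCommGroup A] [Module ℤ_[p] A] (L : Submodule ℤ_[p] A) :
    Submodule ℤ_[p] A where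
  carrier := {a | ∃ k : ℕ, (p : ℤ_[p]) ^ k • a ∈ L}
  zero_mem' := ⟨0, by simp⟩
  add_mem' := by
    rintro a b ⟨k, hk⟩ ⟨l, hl⟩
    refine ⟨k + l, ?_⟩
    rw [smul_add]
    refine L.add_mem ?_ ?_
    · rw [add_comm, pow_add, mul_smul]
      exact L.smul_mem _ hk
    · rw [pow_add, mul_smul]
      exact L.smul_mem _ hl
  smul_mem' := by
    rintro c a ⟨k, hk⟩
    refine ⟨k, ?_⟩
    rw [smul_comm]
    exact L.smul_mem _ hk

omit [Module.Free ℤ_[p] A] [Module.Finite ℤ_[p] A] in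
theorem mem_satOf {L : Submodule ℤ_[p] A} {a : A} :
    a ∈ satOf L ↔ ∃ k : ℕ, (p : ℤ_[p]) ^ k • a ∈ L := Iff.rfl

omit [Module.Free ℤ_[p] A] [Module.Finite ℤ_[p] A] in
theorem le_satOf (L : Submodule ℤ_[p] A) : L ≤ satOf L := fun a ha => ⟨0, by simpa using ha⟩

omit [Module.Free ℤ_[p] A] [Module.Finite ℤ_[p] A] in
theorem sat_satOf (L : Submodule ℤ_[p] A) : Sat (satOf L) := by
  rintro a ⟨k, hk⟩
  refine ⟨k + 1, ?_⟩
  rwa [pow_succ, mul_smul]

omit [Module.Free ℤ_[p] A] [Module.Finite ℤ_[p] A] in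
theorem satOf_le_comap {L : Submodule ℤ_[p] A} {U : A →ₗ[ℤ_[p]] A} (h : L ≤ L.comap U) :
    satOf L ≤ (satOf L).comap U := by
  rintro a ⟨k, hk⟩
  refine ⟨k, ?_⟩
  rw [← map_smul]
  exact h hk

omit [Module.Free ℤ_[p] A] in
theorem exists_pow_satOf (L : Submodule ℤ_[p] A) :
    ∃ k : ℕ, ∀ a ∈ satOf L, (p : ℤ_[p]) ^ k • a ∈ L := by
  obtain ⟨s, hs⟩ := IsNoetherian.noetherian (satOf L)
  have h1 : ∀ a ∈ s, ∃ k : ℕ, (p : ℤ_[p]) ^ k • a ∈ L := fun a ha =>
    mem_satOf.1 (hs ▸ Submodule.subset_span ha)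
  choose! κ hκ using h1
  refine ⟨s.sup κ, fun a ha => ?_⟩
  rw [← hs] at ha
  refine Submodule.span_induction (p := fun a _ => (p : ℤ_[p]) ^ s.sup κ • a ∈ L) ?_ ?_ ?_ ?_ ha
  · intro x hx
    obtain ⟨d, hd⟩ := Nat.exists_eq_add_of_le (Finset.le_sup (f := κ) hx)
    rw [hd, add_comm, pow_add, mul_smul]
    exact L.smul_mem _ (hκ x hx)
  · rw [smul_zero]
    exact L.zero_mem
  · intro x y _ _ hx hy
    rw [smul_add]
    exact L.add_mem hx hy
  · intro c x _ hx
    rw [smul_comm]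
    exact L.smul_mem _ hx

theorem finrank_satOf (L : Submodule ℤ_[p] A) :
    Module.finrank ℤ_[p] (satOf L) = Module.finrank ℤ_[p] L := by
  obtain ⟨k, hk⟩ := exists_pow_satOf L
  apply le_antisymm
  · let f : satOf L →ₗ[ℤ_[p]] L := ((LinearMap.lsmul ℤ_[p] A ((p : ℤ_[p]) ^ k)).comp
      (satOf L).subtype).codRestrict _ fun y => hk y y.2
    refine LinearMap.finrank_le_finrank_of_injective (f := f) ?_
    intro y z h
    have h1 : (p : ℤ_[p]) ^ k • (y : A) = (p : ℤ_[p]) ^ k • (z : A) := congrArg Subtype.val h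
    exact Subtype.ext (smul_right_injective A (pow_ne_zero k (by exact_mod_cast hp.out.ne_zero)) h1)
  · exact Submodule.finrank_mono (le_satOf L)

/-- **The squeeze.** -/
theorem squeeze (U' : A →ₗ[ℤ_[p]] A) (U : S →ₗ[ℤ_[p]] S) (ρ : S →ₗ[ℤ_[p]] A)
    (hρ : Function.Injective ρ) (hU : ∀ s, ρ (U s) = U' (ρ s)) (F : Submodule ℤ_[p] A) (x : ℕ)
    (hF : F ≤ Fs U' x) (hF0 : F.toAddSubgroup.index ≠ 0) :
    (F.comap ρ).toAddSubgroup.index ≠ 0 ∧
    GE U' x + Real.logb p (F.comap ρ).toAddSubgroup.index ≤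
      GE U x + Real.logb p F.toAddSubgroup.index := by
  set L := LinearMap.range ρ with hL
  have hLU : L ≤ L.comap U' := by
    rintro _ ⟨s, rfl⟩
    exact ⟨U s, hU s⟩
  set B := satOf L with hB
  have hBU : B ≤ B.comap U' := satOf_le_comap hLU
  have hfree := (sat_satOf L).free
  have hLB : L ≤ B := le_satOf L
  let ρ1 : S →ₗ[ℤ_[p]] B := ρ.codRestrict B fun s => hLB ⟨s, rfl⟩
  have hr : Module.finrank ℤ_[p] S = Module.finrank ℤ_[p] B := by
    rw [hB, finrank_satOf, hL, LinearMap.finrank_range_of_inj hρ]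
  have h1 : GE U x = GE (U'.restrict hBU) x :=
    GE_of_inj (U'.restrict hBU) U ρ1 (fun a b h => hρ (congrArg Subtype.val h))
      (fun s => Subtype.ext (hU s)) hr x
  have h2 := GE_add B U' hBU x
  have h3 : GE (B.mapQ B U' hBU) x ≤ HH (B.mapQ B U' hBU) x := by
    have := GE_le_HH (B.mapQ B U' hBU) LinearMap.id x
    rwa [LinearMap.comp_id] at this
  -- the index of `B ⊔ F`
  set G := F.toAddSubgroup with hG
  have h4 : B.toAddSubgroup ⊔ G ≤
      (Fs (B.mapQ B U' hBU) x).toAddSubgroup.comap B.mkQ.toAddMonoidHom := by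
    rw [sup_le_iff]
    constructor
    · intro y hy
      refine ⟨0, ?_⟩
      have h5 : B.mkQ y = 0 := (Submodule.Quotient.mk_eq_zero B).2 hy
      show B.mapQ B U' hBU (B.mkQ y) = _
      rw [h5, map_zero, smul_zero]
    · intro y hy
      obtain ⟨z, hz⟩ := hF hy
      refine ⟨B.mkQ z, ?_⟩
      show B.mapQ B U' hBU (B.mkQ y) = _
      rw [Submodule.mkQ_apply, Submodule.mapQ_apply, hz, Submodule.Quotient.mk_smul]
      rfl
  have h5 := AddSubgroup.index_dvd_of_le h4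
  rw [AddSubgroup.index_comap_of_surjective _ (Submodule.mkQ_surjective B)] at h5
  have h6 := AddSubgroup.relIndex_mul_index (le_sup_right : G ≤ B.toAddSubgroup ⊔ G)
  have h7 : (B.toAddSubgroup ⊔ G).index ≠ 0 := by
    intro h0
    rw [h0, mul_zero] at h6
    exact hF0 h6.symm
  have h8 : G.relIndex (B.toAddSubgroup ⊔ G) ≠ 0 := by
    intro h0
    rw [h0, zero_mul] at h6
    exact hF0 h6.symm
  have h9 : (F.comap ρ).toAddSubgroup.index = G.relIndex L.toAddSubgroup := by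
    have : (F.comap ρ).toAddSubgroup = G.comap ρ.toAddMonoidHom := rfl
    rw [this, AddSubgroup.index_comap]
    congr 1
  have h10 : G.relIndex (B.toAddSubgroup ⊔ G) = G.relIndex B.toAddSubgroup :=
    AddSubgroup.relIndex_sup_right _ _
  rw [h10] at h8 h6
  have h11 : G.relIndex L.toAddSubgroup ≤ G.relIndex B.toAddSubgroup :=
    AddSubgroup.relIndex_le_of_le_right hLB h8
  have h12 : G.relIndex L.toAddSubgroup ≠ 0 := fun h0 =>
    h8 (AddSubgroup.relIndex_eq_zero_of_le_right hLB h0)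
  refine ⟨h9 ▸ h12, ?_⟩
  have h13 : HH (B.mapQ B U' hBU) x ≤ Real.logb p (B.toAddSubgroup ⊔ G).index := by
    unfold HH
    refine Real.logb_le_logb_of_le one_lt_pF ?_ ?_
    · exact_mod_cast Nat.pos_of_ne_zero (index_Fs_ne_zero _ x)
    · exact_mod_cast Nat.le_of_dvd (Nat.pos_of_ne_zero h7) h5
  have h14 : Real.logb p (F.comap ρ).toAddSubgroup.index + Real.logb p (B.toAddSubgroup ⊔ G).index ≤
      Real.logb p G.index := by
    rw [h9, ← Real.logb_mul (by exact_mod_cast h12) (by exact_mod_cast h7)]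
    refine Real.logb_le_logb_of_le one_lt_pF ?_ ?_
    · exact_mod_cast Nat.mul_pos (Nat.pos_of_ne_zero h12) (Nat.pos_of_ne_zero h7)
    · rw [← h6]
      exact_mod_cast Nat.mul_le_mul_right _ h11
  rw [h1]
  linarith

/-- An index bounds the Newton function. -/
theorem GE_le_logb_index (U : S →ₗ[ℤ_[p]] S) (F : Submodule ℤ_[p] S) (x : ℕ) (hF : F ≤ Fs U x)
    (hF0 : F.toAddSubgroup.index ≠ 0) : GE U x ≤ Real.logb p F.toAddSubgroup.index := by
  have h1 : GE U x ≤ HH U x := by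
    have := GE_le_HH U LinearMap.id x
    rwa [LinearMap.comp_id] at this
  refine h1.trans ?_
  unfold HH
  refine Real.logb_le_logb_of_le one_lt_pF ?_ ?_
  · exact_mod_cast Nat.pos_of_ne_zero (index_Fs_ne_zero _ x)
  · exact_mod_cast Nat.le_of_dvd (Nat.pos_of_ne_zero hF0) (AddSubgroup.index_dvd_of_le hF)

/-- **The two sided estimate.** -/
theorem squeeze_both (U' : A →ₗ[ℤ_[p]] A) (U : S →ₗ[ℤ_[p]] S) (ρ : S →ₗ[ℤ_[p]] A)
    (hρ : Function.Injective ρ) (hU : ∀ s, ρ (U s) = U' (ρ s)) (F : Submodule ℤ_[p] A)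
    (F1 : Submodule ℤ_[p] S) (x : ℕ) (hF : F ≤ Fs U' x) (hF0 : F.toAddSubgroup.index ≠ 0)
    (hF1 : F1 ≤ Fs U x) (hF10 : F1.toAddSubgroup.index ≠ 0) {c e1 e2 e3 : ℝ}
    (hA : Real.logb p F.toAddSubgroup.index - GE U' x ≤ e1)
    (hC : c - e2 ≤ Real.logb p F1.toAddSubgroup.index)
    (hD : Real.logb p F1.toAddSubgroup.index ≤ c + e2)
    (hB : Real.logb p F1.toAddSubgroup.index ≤
      Real.logb p (F.comap ρ).toAddSubgroup.index + e3) :
    c - (e1 + e2 + e3) ≤ GE U x ∧ GE U x ≤ c + e2 := by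
  have h1 := (squeeze U' U ρ hρ hU F x hF hF0).2
  have h2 := GE_le_logb_index U F1 x hF1 hF10
  exact ⟨by linarith, by linarith⟩

end Sq

end Gouvea.P5
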