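import Pool.Agent.Work.MP_d3517d_nt.P5.OneDefs
import Pool.Agent.Work.MP_d3517d_nt.P5.OneRes
import Pool.Agent.Work.MP_d3517d_nt.P5.OneSq
import Pool.Agent.Work.MP_d3517d_nt.Apx

/-!
# P5, level one: the Newton function of `T_p` (MP_d3517d_nt)

`ge_one`: from the sharpness of the lattice of level `q₀` (all cusps `Γ₀(q₀) ∞`) and the two sided
estimate of the index of the symbols with values in `N_x` of level one to
`GE T_p x = (p + 1) x ^ 2 / 12 + o(n ^ 2)` on the symbols of level one.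
-/

open Polynomial Finset Filter Topology Module

noncomputable section

namespace Gouvea.P5

open Pool.Agent Pool.Agent.Gouv Gouvea.Sys Gouvea.PX Gouvea.P5.One

variable {p : ℕ} [hp : Fact p.Prime]

theorem ge_one {q0 : ℕ} [NeZero q0] (hq : ¬ p ∣ q0)
    (hA : ∀ η : ℝ, 0 < η → ∃ E : Set ℕ, D0 E ∧ ∀ n ∉ E, Even n →
      ∀ [Module.Finite ℤ_[p] (Sym ℤ_[p] q0 q0 n)] [Module.Free ℤ_[p] (Sym ℤ_[p] q0 q0 n)],
      ∀ x : ℕ, (x : ℝ) * (p + 1) ≤ n →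
        Real.logb p ((AXx p q0 q0 n x).toAddSubgroup.index) -
          GE (rhoN ℤ_[p] q0 q0 n (dvd_refl q0) (Xp p)) x ≤ η * ((n : ℝ) + 1) ^ 2)
    (hCD : ∃ C : ℝ, ∀ n : ℕ, Even n → ∀ x : ℕ, (x : ℝ) * (p + 1) ≤ n →
      |Real.logb p ((AXx p 1 1 n x).toAddSubgroup.index) - ((p : ℝ) + 1) * (x : ℝ) ^ 2 / 12| ≤
        C * ((n : ℝ) + 1)) :
    ∀ η : ℝ, 0 < η → ∃ E : Set ℕ, D0 E ∧ ∀ n ∉ E, Even n →
      ∀ [Module.Finite ℤ_[p] (Sym ℤ_[p] 1 1 n)] [Module.Free ℤ_[p] (Sym ℤ_[p] 1 1 n)],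
      ∀ x : ℕ, (x : ℝ) * (p + 1) ≤ n →
        |GE (rhoN ℤ_[p] 1 1 n (one_dvd 1) (Xp p)) x - ((p : ℝ) + 1) * (x : ℝ) ^ 2 / 12| ≤
          η * ((n : ℝ) + 1) ^ 2 := by
  intro η hη
  obtain ⟨C, hC⟩ := hCD
  obtain ⟨E, hE, hE'⟩ := hA (η / 2) (by positivity)
  obtain ⟨n0, hn0⟩ := exists_nat_gt (2 * (|C| + 2) / η)
  refine ⟨E ∪ {n | n < n0}, hE.union (D0.of_finite (Set.finite_lt_nat _)), fun n hn hev => ?_⟩
  rw [Set.mem_union, not_or] at hn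
  have hn1 : n0 ≤ n := by
    by_contra hcon
    exact hn.2 (not_le.1 hcon)
  have hnn : (0 : ℝ) ≤ n := Nat.cast_nonneg n
  intro hfin hfree x hx
  have hq0 : q0 ≠ 0 := NeZero.ne q0
  have b := bas hq0 (dvd_refl q0) n ℤ_[p]
  have : Module.Finite ℤ_[p] (Sym ℤ_[p] q0 q0 n) := Module.Finite.of_basis b
  have : Module.Free ℤ_[p] (Sym ℤ_[p] q0 q0 n) := Module.Free.of_basis b
  have hp0 : (0 : ℝ) ≤ p := Nat.cast_nonneg p
  have hxn : (x : ℝ) ≤ n := by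
    have : (0 : ℝ) ≤ x := Nat.cast_nonneg x
    nlinarith
  have h1 := abs_le.1 (hC n hev x hx)
  have key := squeeze_both (rhoN ℤ_[p] q0 q0 n (dvd_refl q0) (Xp p))
    (rhoN ℤ_[p] 1 1 n (one_dvd 1) (Xp p)) (rs ℤ_[p] n (one_dvd q0) (one_dvd q0))
    (rs_injective hq0) (fun φ => rs_one (l := ⟨p, hp.out⟩) hq φ) (AXx p q0 q0 n x)
    (AXx p 1 1 n x) x (AXx_le_Fs _ x) (index_AXx_ne_zero x) (AXx_le_Fs _ x)
    (index_AXx_ne_zero x) (c := ((p : ℝ) + 1) * (x : ℝ) ^ 2 / 12)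
    (e1 := η / 2 * ((n : ℝ) + 1) ^ 2) (e2 := C * ((n : ℝ) + 1)) (e3 := (n : ℝ) + x)
    (hE' n hn.1 hev x hx) (by linarith [h1.1]) (by linarith [h1.2])
    (logb_index_le hq _ _ (fun _ => Iff.rfl) (fun _ => Iff.rfl))
  have h2 : C * ((n : ℝ) + 1) + (n + x) ≤ η / 2 * ((n : ℝ) + 1) ^ 2 := by
    have h3 : 2 * (|C| + 2) / η ≤ (n : ℝ) + 1 := by
      have : (n0 : ℝ) ≤ n := by exact_mod_cast hn1
      linarith
    rw [div_le_iff₀ hη] at h3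
    have h4 : C * ((n : ℝ) + 1) + (n + x) ≤ (|C| + 2) * ((n : ℝ) + 1) := by
      have := mul_le_mul_of_nonneg_right (le_abs_self C) (by linarith : (0 : ℝ) ≤ (n : ℝ) + 1)
      linarith
    nlinarith
  have h5 : 0 ≤ η / 2 * ((n : ℝ) + 1) ^ 2 := by positivity
  have h6 : 0 ≤ (n : ℝ) + x := by positivity
  rw [abs_le]
  constructor
  · linarith [key.1]
  · linarith [key.2]

end Gouvea.P5
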