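import Pool.Agent.Work.MP_d3517d_nt.P5.OneMain
import Pool.Agent.Work.MP_d3517d_nt.P5.OneGE
import Pool.Agent.Work.MP_d3517d_nt.P5.OneAmb
import Pool.Agent.Work.MP_d3517d_nt.P5.OneCD
import Pool.Agent.Work.MP_d3517d_nt.P5.TLevOne
import Pool.Agent.Work.MP_d3517d_nt.P5.IndexP
import Pool.Agent.Work.MP_d3517d_nt.Fin.Source
import Pool.Agent.Work.MP_d3517d_nt.Fin.Source9

/-!
# The counting functions of the cusp forms of level one at `p = 2, 3` (MP_d3517d_nt, P5)

* `ge_lev_one`: the Newton function of `T_p` on the symbols of level one;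
* `lev_one`: in every residual class the counting functions of level one are approximately linear
  with a constant density on the even weights, which is the density of the number of the cusp forms
  of level `p` in the class.
-/

open UpperHalfPlane CongruenceSubgroup Gouvea.Sys
open scoped MatrixGroups ModularForm

noncomputable section

namespace Gouvea.P5

open Gouvea.ES Gouvea.PX Gouvea.P5.One Pool.Agent Pool.Agent.Gouv

variable {p : ℕ} [hp : Fact p.Prime]

/-- **The Newton function of `T_p` at level one.** -/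
theorem ge_lev_one (hp23 : p = 2 ∨ p = 3) (j : algebraicClosure ℚ ℂ →+* PadicAlgCl p) :
    ∀ δ : ℝ, 0 < δ → ∃ E : Set ℕ, D0 E ∧ ∀ n ∉ E, Even n →
      ∀ [Module.Finite ℤ_[p] (Sym ℤ_[p] 1 1 n)] [Module.Free ℤ_[p] (Sym ℤ_[p] 1 1 n)],
      ∀ x : ℕ, (x : ℝ) * (p + 1) ≤ n →
        |GE (rhoN ℤ_[p] 1 1 n (one_dvd 1) (Xp p)) x - ((p : ℝ) + 1) * (x : ℝ) ^ 2 / 12| ≤
          δ * ((n : ℝ) + 1) ^ 2 := by
  have hA0 : ∀ q ∈ (∅ : Set Nat.Primes), (q : ℕ) ≠ p := fun q hq => absurd hq (by simp)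
  have hc0 : ∀ q ∈ (∅ : Set Nat.Primes), ‖(0 : Nat.Primes → PadicAlgCl p) q‖ ≤ 1 :=
    fun q hq => absurd hq (by simp)
  have hCD : ∃ C : ℝ, ∀ n : ℕ, Even n → ∀ x : ℕ, (x : ℝ) * (p + 1) ≤ n →
      |Real.logb p ((AXx p 1 1 n x).toAddSubgroup.index) - ((p : ℝ) + 1) * (x : ℝ) ^ 2 / 12| ≤
        C * ((n : ℝ) + 1) := by
    refine ⟨4, fun n hn x hx => (One.abs_logb_AXx_one hp23 hn (x := x) ?_).trans (by linarith)⟩
    exact_mod_cast hx
  rcases hp23 with h | h
  · have h9 : ¬ p ∣ 9 := by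
      rw [h]
      omega
    exact ge_one h9 (fun δ hδ => One.ambK j (by norm_num) (dvd_refl 9) (Or.inr (dvd_refl 9)) 0
      (Fin.apx_bet9 j 9 (dvd_refl 9) h9 hA0 hc0) hδ) hCD
  · have h4 : ¬ p ∣ 4 := by
      rw [h]
      omega
    have hp2 : p ≠ 2 := by omega
    exact ge_one h4 (fun δ hδ => One.ambK j (by norm_num) (dvd_refl 4) (Or.inl (dvd_refl 4)) 0
      (Fin.apx_bet j hp2 4 (dvd_refl 4) h4 hA0 hc0) hδ) hCD

/-- there are no cusp forms of level one and weight `2` -/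
theorem sys_one_two : Sys (rhoC 1 (0 + 2)) = 0 := by
  have key : ∀ {Γ : Subgroup (GL (Fin 2) ℝ)} (_ : Γ = 𝒮ℒ) (f : CuspForm Γ ((0 + 2 : ℕ) : ℤ)),
      f = 0 := by
    rintro Γ rfl f
    exact rank_zero_iff_forall_zero.1
      (CuspForm.rank_eq_zero_of_weight_lt_twelve (by norm_num)) f
  have h0 : Gamma0 1 = ⊤ := by
    ext g
    simp only [Gamma0_mem, Subgroup.mem_top, iff_true]
    exact Subsingleton.elim _ _
  have h1 : Gam0 1 = 𝒮ℒ := by
    rw [Gam0, h0]
    ext x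
    simp
  have h2 : Module.finrank ℂ (Gouvea.Cusp 1 (0 + 2)) = 0 := by
    have : Subsingleton (Gouvea.Cusp 1 (0 + 2)) :=
      ⟨fun f g => (key h1 f).trans (key h1 g).symm⟩
    exact Module.finrank_zero_of_subsingleton
  have h3 := card_Sys (rhoC 1 (0 + 2))
  rw [h2] at h3
  exact Multiset.card_eq_zero.1 h3

/-- **Level one**: the systems are congruent to `1 + q`. -/
theorem hone_one (hp23 : p = 2 ∨ p = 3) (j : algebraicClosure ℚ ℂ →+* PadicAlgCl p) :
    ∀ n, Even n → ∀ χ ∈ Sys (rhoC 1 (n + 2)), ∀ q : Nat.Primes, (q : ℕ) ≠ p →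
      ‖emb p j (χ (MvPolynomial.X q)) - (1 + ((q : ℕ) : PadicAlgCl p))‖ < 1 := by
  intro n hn χ hχ q hq
  rcases Nat.eq_zero_or_pos n with rfl | h0
  · rw [sys_one_two] at hχ
    exact absurd hχ (Multiset.notMem_zero χ)
  · have hn2 : 2 ≤ n := by
      obtain ⟨m, hm⟩ := hn
      omega
    exact cong_one j hp23 (one_dvd _) hn hn2 hχ q hq

open Classical in
/-- **Level one, `p ∈ {2, 3}`**: in every residual class the counting functions of the cusp forms
of level one are approximately linear with a constant density on the even weights, which is the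
density of the number of the cusp forms of level `p` in the class. -/
theorem lev_one (hp23 : p = 2 ∨ p = 3) (j : algebraicClosure ℚ ℂ →+* PadicAlgCl p)
    {A : Set Nat.Primes} {c : Nat.Primes → PadicAlgCl p}
    (hA : ∀ q ∈ A, (q : ℕ) ≠ p) (_ : ∀ q ∈ A, ‖c q‖ ≤ 1) :
    ∃ b C : ℝ, 0 ≤ b ∧ Apx ((p : ℝ) + 1) (fun n x => (Fin.cnt j 1 (n + 2) A c x : ℝ))
      (fun n => (Fin.tot j 1 (n + 2) A c : ℝ)) (fun n => if Even n then b else 0) ∧
      ∀ n, Even n → |(Fin.tot j (1 * p) (n + 2) A c : ℝ) - b * n| ≤ C := by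
  have hpd : ¬ p ∣ 1 := fun h => hp.out.one_lt.ne' (Nat.dvd_one.1 h)
  have hidx : ((Gamma0 (1 * p)).index : ℝ) = (p : ℝ) + 1 := by
    have h2 : (Gamma0 1).index = 1 := by
      have : Gamma0 1 = ⊤ := by
        rw [eq_top_iff]
        intro g _
        rw [Gamma0_mem]
        exact Subsingleton.elim _ _
      rw [this, Subgroup.index_top]
    rw [index_mul_prime hp.out hpd, h2, mul_one]
    push_cast
    rfl
  have hdvd : 1 * p ∣ p ^ 2 := by
    rw [one_mul]
    exact dvd_pow_self p two_ne_zero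
  have hp0 : (0 : ℝ) ≤ p := Nat.cast_nonneg p
  set b : ℝ := if EisC A c then ((p : ℝ) + 1) / 12 else 0 with hb
  have hb0 : 0 ≤ b := by
    rw [hb]
    split_ifs
    · positivity
    · exact le_rfl
  have hβ : bOne p A c = fun n => if Even n then b else 0 := by
    funext n
    unfold bOne
    rw [hb]
    by_cases hn : Even n
    · by_cases h : EisC A c
      · rw [if_pos ⟨hn, h⟩, if_pos hn, if_pos h]
      · rw [if_neg fun h' => h h'.2, if_pos hn, if_neg h]
    · rw [if_neg fun h => hn h.1, if_neg hn]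
  have h1 := apx_one j (hone_one hp23 j) (ge_lev_one hp23 j) hA c
  rw [hβ] at h1
  set K : ℝ := (((p : ℝ) + 1) ^ 2 + ((p : ℝ) + 1)) + ((p : ℝ) + 1) with hK
  have hK0 : 0 ≤ K := by positivity
  obtain ⟨Q, hQ⟩ : ∃ Q : ℝ, |(Fin.tot j (1 * p) (0 + 2) A c : ℝ) - b * (0 : ℕ)| = Q := ⟨_, rfl⟩
  have hQ0 : 0 ≤ Q := hQ ▸ abs_nonneg _
  refine ⟨b, K + Q, hb0, h1, fun n hn => ?_⟩
  rcases Nat.eq_zero_or_pos n with rfl | h0
  · rw [hQ]
    linarith
  have hn2 : 2 ≤ n := by
    obtain ⟨m, hm⟩ := hn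
    omega
  rw [tot_one j hp23 hdvd hn hn2 hA c]
  by_cases h : EisC A c
  · have h2 := abs_finrank_cusp (1 * p) (hn.add even_two)
    rw [hidx] at h2
    have hb1 : b = ((p : ℝ) + 1) / 12 := by rw [hb, if_pos h]
    rw [if_pos h, hb1]
    generalize (Module.finrank ℂ (Gouvea.Cusp (1 * p) (n + 2)) : ℝ) = f at *
    push_cast at h2
    rw [abs_le] at h2 ⊢
    constructor <;> nlinarith
  · have hb1 : b = 0 := by rw [hb, if_neg h]
    rw [if_neg h, hb1, Nat.cast_zero, zero_mul, sub_zero, abs_zero]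
    linarith

end Gouvea.P5
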