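import Pool.Agent.Work.MP_d3517d_nt.P5.Main
import Pool.Agent.Work.MP_d3517d_nt.Fin.Source
import Pool.Agent.Work.MP_d3517d_nt.Fin.Source9

/-!
# The counting functions of the cusp forms of level `N ≥ 2` at `p = 2, 3` (MP_d3517d_nt, P5)
-/

open Gouvea.Sys

noncomputable section

namespace Gouvea.P5

variable {p : ℕ} [hp : Fact p.Prime]

/-- **The levels `N ≥ 2`, `p ∈ {2, 3}`**: in every residual class the counting functions of the
cusp forms of level `N` are approximately linear with a constant density on the even weights, which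
is the density of the number of the cusp forms of level `N p` in the class. -/
theorem lev_two (hp23 : p = 2 ∨ p = 3) (j : algebraicClosure ℚ ℂ →+* PadicAlgCl p) (N : ℕ)
    [NeZero N] (hN : 2 ≤ N) (hpN : ¬ p ∣ N) {A : Set Nat.Primes} {c : Nat.Primes → PadicAlgCl p}
    (hA : ∀ q ∈ A, (q : ℕ) ≠ p) (hc : ∀ q ∈ A, ‖c q‖ ≤ 1) :
    ∃ b C : ℝ, 0 ≤ b ∧ Apx ((p : ℝ) + 1) (fun n x => (Fin.cnt j N (n + 2) A c x : ℝ))
      (fun n => (Fin.tot j N (n + 2) A c : ℝ)) (fun n => if Even n then b else 0) ∧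
      ∀ n, Even n → |(Fin.tot j (N * p) (n + 2) A c : ℝ) - b * n| ≤ C := by
  have hA0 : ∀ q ∈ (∅ : Set Nat.Primes), (q : ℕ) ≠ p := fun q hq => absurd hq (by simp)
  have hc0 : ∀ q ∈ (∅ : Set Nat.Primes), ‖c q‖ ≤ 1 := fun q hq => absurd hq (by simp)
  rcases hp23 with h | h
  · have h9 : NeZero (9 * N) := ⟨mul_ne_zero (by norm_num) (NeZero.ne N)⟩
    have hp9 : ¬ p ∣ 9 * N := by
      intro h1
      rcases (Nat.Prime.dvd_mul hp.out).1 h1 with h2 | h2
      · rw [h] at h2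
        omega
      · exact hpN h2
    exact apx_two_le (Or.inl h) j hN (Dvd.intro_left 9 rfl) (Or.inr (Dvd.intro N rfl)) hp9 c
      (Fin.apx_bet9 j (9 * N) (Dvd.intro N rfl) hp9 hA0 hc0) hA hc
  · have h4 : NeZero (4 * N) := ⟨mul_ne_zero (by norm_num) (NeZero.ne N)⟩
    have hp4 : ¬ p ∣ 4 * N := by
      intro h1
      rcases (Nat.Prime.dvd_mul hp.out).1 h1 with h2 | h2
      · rw [h] at h2
        omega
      · exact hpN h2
    have hp2 : p ≠ 2 := by omega
    exact apx_two_le (Or.inr h) j hN (Dvd.intro_left 4 rfl) (Or.inl (Dvd.intro N rfl)) hp4 c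
      (Fin.apx_bet j hp2 (4 * N) (Dvd.intro N rfl) hp4 hA0 hc0) hA hc

end Gouvea.P5
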