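import Pool.Agent.Work.MP_d3517d_nt.P5.Defs
import Pool.Agent.Work.MP_d3517d_nt.PS.Ops

/-!
# Points moved by `g`, values slashed by `A` (MP_d3517d_nt, partial symbols on `Cusp N`)

`ga n A g φ (x, y) = φ(g x, g y) | A`: the points are moved by `g ∈ SN N` and the values are
slashed by the integral matrix `A`.
-/

open Polynomial Finset Matrix

noncomputable section

namespace Gouvea.PX

open Gouvea.PS (slk slk_apply slk_one slk_mul slk_smul slk_neg slk_map map_cast_mul IsCoc)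

variable {N : ℕ} {k : Type} [CommRing k]

variable (k) in
/-- points moved by `g`, values slashed by `A` -/
def ga (n : ℕ) (A : Matrix (Fin 2) (Fin 2) ℤ) (g : SN N) :
    (Cusp N → Cusp N → Fin (n + 1) → k) →ₗ[k] (Cusp N → Cusp N → Fin (n + 1) → k) where
  toFun φ x y := (slk n (A.map (Int.cast : ℤ → k))).mulVec (φ (g • x) (g • y))
  map_add' φ ψ := by
    ext x y i
    simp [Matrix.mulVec_add]
  map_smul' a φ := by
    ext x y i
    simp [Matrix.mulVec_smul]

lemma ga_apply (n : ℕ) (A : Matrix (Fin 2) (Fin 2) ℤ) (g : SN N)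
    (φ : Cusp N → Cusp N → Fin (n + 1) → k) (x y : Cusp N) :
    ga k n A g φ x y = (slk n (A.map (Int.cast : ℤ → k))).mulVec (φ (g • x) (g • y)) := rfl

lemma act_eq_ga (n : ℕ) (g : SN N) : act k N n g = ga k n g.1 g := rfl

lemma ga_ga (n : ℕ) (A B : Matrix (Fin 2) (Fin 2) ℤ) (g h : SN N)
    (φ : Cusp N → Cusp N → Fin (n + 1) → k) :
    ga k n A g (ga k n B h φ) = ga k n (B * A) (h * g) φ := by
  funext x y
  rw [ga_apply, ga_apply, ga_apply, mul_smul, mul_smul, map_cast_mul, slk_mul,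
    Matrix.mulVec_mulVec]

lemma ga_congr (n : ℕ) (A : Matrix (Fin 2) (Fin 2) ℤ) {g h : SN N}
    (H : ∀ x : Cusp N, g • x = h • x) (φ : Cusp N → Cusp N → Fin (n + 1) → k) :
    ga k n A g φ = ga k n A h φ := by
  funext x y
  rw [ga_apply, ga_apply, H, H]

lemma ga_coc {n : ℕ} (A : Matrix (Fin 2) (Fin 2) ℤ) (g : SN N)
    {φ : Cusp N → Cusp N → Fin (n + 1) → k} (h : IsCoc φ) : IsCoc (ga k n A g φ) := by
  intro x y z
  rw [ga_apply, ga_apply, ga_apply, ← Matrix.mulVec_add, h]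

lemma map_smul_one (c : ℤ) : ((c • (1 : Matrix (Fin 2) (Fin 2) ℤ)).map (Int.cast : ℤ → k)) =
    (c : k) • 1 := by
  ext i j
  rw [Matrix.map_apply, Matrix.smul_apply, Matrix.smul_apply, smul_eq_mul, Int.cast_mul]
  fin_cases i <;> fin_cases j <;> simp

lemma ga_scalar (n : ℕ) (c : ℤ) (φ : Cusp N → Cusp N → Fin (n + 1) → k) :
    ga k n (c • 1) 1 φ = (c : k) ^ n • φ := by
  funext x y
  rw [ga_apply, map_smul_one, slk_smul, slk_one, one_smul, one_smul, Matrix.smul_mulVec,
    Matrix.one_mulVec]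
  rfl

lemma ga_one (n : ℕ) (φ : Cusp N → Cusp N → Fin (n + 1) → k) : ga k n 1 1 φ = φ := by
  have := ga_scalar (N := N) (k := k) n 1 φ
  simpa using this

/-- scalars act trivially on the cusps -/
lemma smul_scalar {g : SN N} {c : ℤ} (hg : g.1 = c • 1) (x : Cusp N) : g • x = x := by
  revert x
  refine Cusp.ind' (P := fun x => g • x = x) fun u v hu hv hne => ?_
  obtain ⟨hu', hv', hne', h⟩ := smul_mk g u v hu hv hne
  rw [h, Cusp.mk_eq, hg]
  simp
  ring

end Gouvea.PX
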