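import Pool.Agent.Work.MP_d3517d_nt.P5.RepP
import Pool.Agent.Work.MP_d3517d_nt.P5.Ga
import Pool.Agent.Work.MP_d3517d_nt.P5.Rho

set_option autoImplicit false
set_option linter.unusedVariables false

/-!
# The Atkin-Lehner operator at `p`, the inclusion and the trace between the levels `M` and `Mp`
(MP_d3517d_nt, package P5)

* `IsW M p w` : `w` is an Atkin-Lehner matrix at `p` of level `Mp`;
* `inclX h : Sym k N M n → Sym k N M' n` for `M ∣ M'`, `iotaX M p` the case `M' = M p`;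
* `trX : Sym k N (M p) n → Sym k N M n` the trace;
* `WX hM hw : Sym k N (M p) n → Sym k N (M p) n` the action of `w`;
* `SX = iotaX ∘ trX - 1`.
-/

open Polynomial Finset Matrix

noncomputable section

namespace Gouvea.PX

open Gouvea.PS (slk slk_apply slk_one slk_mul slk_smul slk_neg slk_map map_cast_mul)

variable {N : ℕ}

/-- `w` is an Atkin-Lehner matrix at `p` of level `Mp` -/
def IsW (M p : ℕ) (w : SN N) : Prop :=
  ∃ a b c d : ℤ, w.1 = !![(p : ℤ) * a, b; (M : ℤ) * p * c, p * d] ∧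
    (p : ℤ) * a * d - M * b * c = 1

/-- the same matrix works at lower levels -/
theorem IsW.mono {M L p : ℕ} (h : M ∣ L) {w : SN N} (hw : IsW L p w) : IsW M p w := by
  obtain ⟨t, rfl⟩ := h
  obtain ⟨a, b, c, d, h1, h2⟩ := hw
  refine ⟨a, b, t * c, d, ?_, ?_⟩
  · rw [h1]
    have e : ((M * t : ℕ) : ℤ) * p * c = (M : ℤ) * p * (t * c) := by
      push_cast
      ring
    rw [e]
  · push_cast at h2
    linear_combination h2

theorem exists_isW {M p : ℕ} (hp : p.Prime) (hM : N ∣ M) (hpM : ¬ p ∣ M) :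
    ∃ w : SN N, IsW M p w := by
  have hco : IsCoprime (p : ℤ) (M : ℤ) := by
    rw [Nat.isCoprime_iff_coprime]
    exact (Nat.Prime.coprime_iff_not_dvd hp).2 hpM
  obtain ⟨u, v, huv⟩ := hco
  obtain ⟨t, ht⟩ := castN hM
  have hp0 : (p : ℤ) ≠ 0 := by exact_mod_cast hp.ne_zero
  refine ⟨⟨!![(p : ℤ) * u, -v; (M : ℤ) * p * 1, p * 1], ?_, ?_, ?_⟩, u, -v, 1, 1, rfl, ?_⟩
  · rw [det_fin_two_of]
    have : (p : ℤ) * u * (p * 1) - -v * (M * p * 1) = p := by
      linear_combination (p : ℤ) * huv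
    rw [this]
    exact hp0
  · simp only [of_apply, cons_val', cons_val_zero, empty_val', cons_val_fin_one]
    exact ⟨1, v * t, by rw [ht] at huv; linear_combination huv⟩
  · simp only [of_apply, cons_val', cons_val_zero, cons_val_one, empty_val', cons_val_fin_one]
    exact ⟨t * p, by rw [ht]; ring⟩
  · linear_combination huv

theorem IsW.det {M p : ℕ} {w : SN N} (hw : IsW M p w) : w.1.det = p := by
  obtain ⟨a, b, c, d, h1, h2⟩ := hw
  rw [h1, det_fin_two_of]
  linear_combination (p : ℤ) * h2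

/-- conjugation by `w` from the left -/
theorem IsW.conj {M p : ℕ} (hM : N ∣ M) {w : SN N} (hw : IsW M p w) {g : SN N}
    (hg : ((M * p : ℕ) : ℤ) ∣ g.1 1 0) :
    ∃ g' : SN N, w * g = g' * w ∧ g'.1.det = g.1.det ∧ ((M * p : ℕ) : ℤ) ∣ g'.1 1 0 ∧
      (M : ℤ) ∣ g'.1 0 0 - g.1 0 0 ∧ (p : ℤ) ∣ g'.1 0 0 - g.1 1 1 := by
  obtain ⟨a, b, c, d, h1, h2⟩ := hw
  obtain ⟨t, ht⟩ := hg
  obtain ⟨s, hs⟩ := castN hM
  push_cast at ht
  have hgd : g.1.det = g.1 0 0 * g.1 1 1 - g.1 0 1 * (M * p * t) := by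
    rw [det_fin_two, ht]
  generalize hα : g.1 0 0 = α at *
  generalize hβ : g.1 0 1 = β at *
  generalize hδ : g.1 1 1 = δ at *
  have hd : (!![(p * a * α + b * M * p * t) * d - (p * a * β + b * δ) * M * c,
        -(a * α + b * M * t) * b + (p * a * β + b * δ) * a;
        (M : ℤ) * p * (c * α * d + p * d * d * t - M * c * c * β - c * d * δ),
        -(M * c * α + d * M * p * t) * b + (M * p * c * β + p * d * δ) * a] :
        Matrix (Fin 2) (Fin 2) ℤ).det = g.1.det := by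
    rw [det_fin_two_of, hgd]
    linear_combination (α * δ - β * (M * p * t)) * (p * a * d - M * b * c + 1) * h2
  have e00 : (p * a * α + b * M * p * t) * d - (p * a * β + b * δ) * M * c =
      α + M * (α * b * c + b * p * t * d - (p * a * β + b * δ) * c) := by
    linear_combination α * h2
  refine ⟨⟨_, by rw [hd]; exact g.2.1, ?_, ?_⟩, ?_, hd, ?_, ?_, ?_⟩
  · simp only [of_apply, cons_val', cons_val_zero, empty_val', cons_val_fin_one]
    rw [e00, hs, mul_assoc (N : ℤ)]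
    have := g.2.2.1
    rw [hα] at this
    exact this.add_mul_left_left _
  · simp only [of_apply, cons_val', cons_val_zero, cons_val_one, empty_val', cons_val_fin_one]
    rw [hs, mul_assoc (N : ℤ), mul_assoc (N : ℤ)]
    exact dvd_mul_right _ _
  · apply Subtype.ext
    rw [Submonoid.coe_mul, Submonoid.coe_mul, h1]
    ext i j
    rw [Matrix.mul_apply, Matrix.mul_apply, Fin.sum_univ_two, Fin.sum_univ_two]
    fin_cases i <;> fin_cases j <;>
      simp only [of_apply, cons_val', cons_val_zero, cons_val_one, empty_val', cons_val_fin_one,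
        Fin.zero_eta, Fin.mk_one, Fin.isValue, hα, hβ, hδ, ht]
    · linear_combination (-(p * a * α + b * (M * p * t))) * h2
    · linear_combination (-(p * a * β + b * δ)) * h2
    · linear_combination (-(M * p * c * α + p * d * (M * p * t))) * h2
    · linear_combination (-(M * p * c * β + p * d * δ)) * h2
  · simp only [of_apply, cons_val', cons_val_zero, cons_val_one, empty_val', cons_val_fin_one]
    push_cast
    exact dvd_mul_right _ _
  · simp only [of_apply, cons_val', cons_val_zero, empty_val', cons_val_fin_one]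
    rw [e00, add_sub_cancel_left]
    exact dvd_mul_right _ _
  · simp only [of_apply, cons_val', cons_val_zero, empty_val', cons_val_fin_one]
    exact ⟨a * α * d + b * M * t * d - a * β * M * c - δ * a * d, by
      linear_combination δ * h2⟩

/-- conjugation by `w` from the right -/
theorem IsW.conj' {M p : ℕ} (hM : N ∣ M) {w : SN N} (hw : IsW M p w) {g : SN N}
    (hg : ((M * p : ℕ) : ℤ) ∣ g.1 1 0) :
    ∃ g' : SN N, g * w = w * g' ∧ g'.1.det = g.1.det ∧ ((M * p : ℕ) : ℤ) ∣ g'.1 1 0 ∧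
      (M : ℤ) ∣ g'.1 0 0 - g.1 0 0 ∧ (p : ℤ) ∣ g'.1 0 0 - g.1 1 1 := by
  obtain ⟨a, b, c, d, h1, h2⟩ := hw
  obtain ⟨t, ht⟩ := hg
  obtain ⟨s, hs⟩ := castN hM
  push_cast at ht
  have hgd : g.1.det = g.1 0 0 * g.1 1 1 - g.1 0 1 * (M * p * t) := by
    rw [det_fin_two, ht]
  generalize hα : g.1 0 0 = α at *
  generalize hβ : g.1 0 1 = β at *
  generalize hδ : g.1 1 1 = δ at *
  have hd : (!![d * (α * p * a + β * M * p * c) - b * (M * t * p * a + δ * M * c),
        d * (α * b + β * p * d) - b * (M * t * b + δ * d);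
        (M : ℤ) * p * (-c * (α * a + β * M * c) + a * (t * p * a + δ * c)),
        -M * c * (α * b + β * p * d) + a * (M * p * t * b + δ * p * d)] :
        Matrix (Fin 2) (Fin 2) ℤ).det = g.1.det := by
    rw [det_fin_two_of, hgd]
    linear_combination (α * δ - β * (M * p * t)) * (p * a * d - M * b * c + 1) * h2
  have e00 : d * (α * p * a + β * M * p * c) - b * (M * t * p * a + δ * M * c) =
      α + M * (α * b * c + d * β * p * c - b * (t * p * a + δ * c)) := by
    linear_combination α * h2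
  refine ⟨⟨_, by rw [hd]; exact g.2.1, ?_, ?_⟩, ?_, hd, ?_, ?_, ?_⟩
  · simp only [of_apply, cons_val', cons_val_zero, empty_val', cons_val_fin_one]
    rw [e00, hs, mul_assoc (N : ℤ)]
    have := g.2.2.1
    rw [hα] at this
    exact this.add_mul_left_left _
  · simp only [of_apply, cons_val', cons_val_zero, cons_val_one, empty_val', cons_val_fin_one]
    rw [hs, mul_assoc (N : ℤ), mul_assoc (N : ℤ)]
    exact dvd_mul_right _ _
  · apply Subtype.ext
    rw [Submonoid.coe_mul, Submonoid.coe_mul, h1]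
    ext i j
    rw [Matrix.mul_apply, Matrix.mul_apply, Fin.sum_univ_two, Fin.sum_univ_two]
    fin_cases i <;> fin_cases j <;>
      simp only [of_apply, cons_val', cons_val_zero, cons_val_one, empty_val', cons_val_fin_one,
        Fin.zero_eta, Fin.mk_one, Fin.isValue, hα, hβ, hδ, ht]
    · linear_combination (-(α * (p * a) + β * (M * p * c))) * h2
    · linear_combination (-(α * b + β * (p * d))) * h2
    · linear_combination (-(M * p * t * (p * a) + δ * (M * p * c))) * h2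
    · linear_combination (-(M * p * t * b + δ * (p * d))) * h2
  · simp only [of_apply, cons_val', cons_val_zero, cons_val_one, empty_val', cons_val_fin_one]
    push_cast
    exact dvd_mul_right _ _
  · simp only [of_apply, cons_val', cons_val_zero, empty_val', cons_val_fin_one]
    rw [e00, add_sub_cancel_left]
    exact dvd_mul_right _ _
  · simp only [of_apply, cons_val', cons_val_zero, empty_val', cons_val_fin_one]
    exact ⟨d * α * a + d * β * M * c - b * M * t * a - δ * a * d, by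
      linear_combination δ * h2⟩

theorem IsW.conj_G0 {M p : ℕ} (hM : N ∣ M) {w : SN N} (hw : IsW M p w) {g : SN N}
    (hg : IsG0 (M * p) g) : ∃ g' : SN N, w * g = g' * w ∧ IsG0 (M * p) g' := by
  obtain ⟨g', h1, h2, h3, -, -⟩ := hw.conj hM hg.2
  exact ⟨g', h1, h2.trans hg.1, h3⟩

theorem IsW.conj_G0' {M p : ℕ} (hM : N ∣ M) {w : SN N} (hw : IsW M p w) {g : SN N}
    (hg : IsG0 (M * p) g) : ∃ g' : SN N, g * w = w * g' ∧ IsG0 (M * p) g' := by
  obtain ⟨g', h1, h2, h3, -, -⟩ := hw.conj' hM hg.2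
  exact ⟨g', h1, h2.trans hg.1, h3⟩

theorem IsW.conj_del {M p l : ℕ} (hp : p.Prime) (hl : l.Prime) (hlp : l ≠ p) (hM : N ∣ M)
    {w : SN N} (hw : IsW M p w) {g : SN N}
    (hg : Del (M * p) l g) : ∃ g' : SN N, w * g = g' * w ∧ Del (M * p) l g' := by
  have hpi : Prime (p : ℤ) := Nat.prime_iff_prime_int.1 hp
  obtain ⟨g', h1, h2, h3, h4, h5⟩ := hw.conj hM hg.2.1
  refine ⟨g', h1, h2.trans hg.1, h3, ?_⟩
  obtain ⟨hd, ⟨t, ht⟩, hco⟩ := hg
  push_cast at hco ht ⊢
  have hcM : IsCoprime (g.1 0 0) (M : ℤ) := hco.of_mul_right_left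
  refine IsCoprime.mul_right ?_ ?_
  · obtain ⟨x, hx⟩ := h4
    have : g'.1 0 0 = g.1 0 0 + M * x := by linear_combination hx
    rw [this]
    exact hcM.add_mul_left_left _
  · obtain ⟨x, hx⟩ := h5
    have e : g'.1 0 0 = g.1 1 1 + p * x := by linear_combination hx
    rw [e]
    refine IsCoprime.add_mul_left_left ?_ _
    refine ((Prime.coprime_iff_not_dvd hpi).2 fun hdv => ?_).symm
    refine prime_not_dvd hp hl hlp ?_
    rw [← hd, det_fin_two, ht]
    exact dvd_sub (hdv.mul_left _) ⟨g.1 0 1 * (M * t), by ring⟩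

section Maps

variable {k : Type} [CommRing k] {M M' p n : ℕ}

theorem isG0_mono (h : M ∣ M') {g : SN N} (hg : IsG0 M' g) : IsG0 M g :=
  ⟨hg.1, (by exact_mod_cast h : (M : ℤ) ∣ (M' : ℤ)).trans hg.2⟩

theorem sym_mono (h : M ∣ M') : Sym k N M n ≤ Sym k N M' n :=
  fun _ hφ => ⟨hφ.1, fun g hg => hφ.2 g (isG0_mono h hg)⟩

/-- the inclusion of the symbols of level `M` in those of level `M'`, `M ∣ M'` -/
def inclX (h : M ∣ M') : Sym k N M n →ₗ[k] Sym k N M' n := Submodule.inclusion (sym_mono h)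

@[simp] theorem inclX_coe (h : M ∣ M') (x : Sym k N M n) :
    (inclX h x : Cusp N → Cusp N → Fin (n + 1) → k) = x := rfl

theorem inclX_injective (h : M ∣ M') :
    Function.Injective (inclX h : Sym k N M n →ₗ[k] Sym k N M' n) :=
  Submodule.inclusion_injective _

theorem inclX_inclX {M'' : ℕ} (h : M ∣ M') (h' : M' ∣ M'') (x : Sym k N M n) :
    inclX h' (inclX h x) = inclX (h.trans h') x := rfl

/-- the inclusion of level `M` in level `Mp` -/
def iotaX (M p : ℕ) : Sym k N M n →ₗ[k] Sym k N (M * p) n := inclX (dvd_mul_right M p)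

@[simp] theorem iotaX_coe (x : Sym k N M n) :
    (iotaX M p x : Cusp N → Cusp N → Fin (n + 1) → k) = x := rfl

theorem iotaX_injective : Function.Injective (iotaX M p : Sym k N M n →ₗ[k] Sym k N (M * p) n) :=
  inclX_injective _

/-- the trace from level `Mp` to level `M` -/
def trX (hp : p.Prime) (hM : N ∣ M) (hM0 : M ≠ 0) (hpM : ¬ p ∣ M) :
    Sym k N (M * p) n →ₗ[k] Sym k N M n where
  toFun φ := ⟨∑ i, act k N n (kap N M p i) φ.1, trace_mem hp hM hM0 hpM φ.2⟩
  map_add' φ ψ := by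
    apply Subtype.ext
    show ∑ i, act k N n (kap N M p i) (φ.1 + ψ.1) = _ + _
    rw [← Finset.sum_add_distrib]
    exact Finset.sum_congr rfl fun i _ => map_add _ _ _
  map_smul' a φ := by
    apply Subtype.ext
    show ∑ i, act k N n (kap N M p i) (a • φ.1) = a • _
    rw [Finset.smul_sum]
    exact Finset.sum_congr rfl fun i _ => map_smul _ _ _

@[simp] theorem trX_coe (hp : p.Prime) (hM : N ∣ M) (hM0 : M ≠ 0) (hpM : ¬ p ∣ M)
    (φ : Sym k N (M * p) n) :
    (trX hp hM hM0 hpM φ : Cusp N → Cusp N → Fin (n + 1) → k) =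
      ∑ i, act k N n (kap N M p i) φ.1 := rfl

theorem act_w_mem (hM : N ∣ M) {w : SN N} (hw : IsW M p w)
    {φ : Cusp N → Cusp N → Fin (n + 1) → k} (hφ : φ ∈ Sym k N (M * p) n) :
    act k N n w φ ∈ Sym k N (M * p) n := by
  refine ⟨fun x y z => act_add_mem w hφ.1 x y z, fun g hg => ?_⟩
  obtain ⟨g', h1, h2⟩ := hw.conj_G0 hM hg
  rw [act_act, h1, ← act_act, hφ.2 g' h2]

/-- the Atkin-Lehner operator -/
def WX (hM : N ∣ M) {w : SN N} (hw : IsW M p w) : Sym k N (M * p) n →ₗ[k] Sym k N (M * p) n :=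
  (act k N n w).restrict fun _ hφ => act_w_mem hM hw hφ

@[simp] theorem WX_coe (hM : N ∣ M) {w : SN N} (hw : IsW M p w) (φ : Sym k N (M * p) n) :
    (WX hM hw φ : Cusp N → Cusp N → Fin (n + 1) → k) = act k N n w φ.1 := rfl

/-- `S' = ι ∘ tr - 1` -/
def SX (hp : p.Prime) (hM : N ∣ M) (hM0 : M ≠ 0) (hpM : ¬ p ∣ M) :
    Sym k N (M * p) n →ₗ[k] Sym k N (M * p) n :=
  iotaX M p ∘ₗ trX hp hM hM0 hpM - LinearMap.id

theorem SX_coe (hp : p.Prime) (hM : N ∣ M) (hM0 : M ≠ 0) (hpM : ¬ p ∣ M)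
    (φ : Sym k N (M * p) n) :
    (SX hp hM hM0 hpM φ : Cusp N → Cusp N → Fin (n + 1) → k) =
      ∑ i, act k N n (kap N M p i) φ.1 - φ.1 := rfl

theorem act_scalar {c : ℤ} {g : SN N} (hg : g.1 = c • 1)
    (φ : Cusp N → Cusp N → Fin (n + 1) → k) : act k N n g φ = (c : k) ^ n • φ := by
  rw [act_eq_ga, hg, ← ga_scalar]
  exact ga_congr n _ (fun x => by rw [smul_scalar hg, one_smul]) φ

theorem act_ww (hM : N ∣ M) {w : SN N} (hw : IsW M p w)
    {φ : Cusp N → Cusp N → Fin (n + 1) → k} (hφ : ∀ γ, IsG0 (M * p) γ → act k N n γ φ = φ) :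
    act k N n w (act k N n w φ) = (p : k) ^ n • φ := by
  have hpd : (p : ℤ) ≠ 0 := by rw [← hw.det]; exact w.2.1
  obtain ⟨a, b, c, d, h1, h2⟩ := hw
  obtain ⟨s, hs⟩ := castN hM
  have hcp : IsCoprime (p : ℤ) (N : ℤ) := ⟨a * d, -(s * b * c), by
    rw [hs] at h2
    linear_combination h2⟩
  have hP : (upS N p 0 p).1 = (p : ℤ) • 1 := by
    rw [upS_coe hcp (mul_ne_zero hpd hpd)]
    ext i j
    fin_cases i <;> fin_cases j <;> simp
  have hd : (!![(p : ℤ) * a * a + b * M * c, b * (a + d); (M : ℤ) * p * (c * (a + d)),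
      M * c * b + p * d * d] : Matrix (Fin 2) (Fin 2) ℤ).det = 1 := by
    rw [det_fin_two_of]
    linear_combination (p * a * d - M * b * c + 1) * h2
  have hco : IsCoprime ((p : ℤ) * a * a + b * M * c) (N : ℤ) := by
    rw [det_fin_two_of] at hd
    rw [hs] at hd ⊢
    exact ⟨N * s * c * b + p * d * d, - (b * (a + d) * (s * p * (c * (a + d)))), by
      linear_combination hd⟩
  let γ : SN N := ⟨!![(p : ℤ) * a * a + b * M * c, b * (a + d); (M : ℤ) * p * (c * (a + d)),
      M * c * b + p * d * d], by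
    rw [hd]; exact one_ne_zero, by simpa using hco, by
    simp only [of_apply, cons_val', cons_val_zero, cons_val_one, empty_val', cons_val_fin_one]
    rw [hs, mul_assoc (N : ℤ), mul_assoc (N : ℤ)]
    exact dvd_mul_right _ _⟩
  have hγ : IsG0 (M * p) γ := ⟨hd, by
    show _ ∣ (M : ℤ) * p * (c * (a + d))
    push_cast
    exact dvd_mul_right _ _⟩
  have hww : w * w = γ * upS N p 0 p := by
    apply Subtype.ext
    rw [Submonoid.coe_mul, Submonoid.coe_mul, h1, upS_coe hcp (mul_ne_zero hpd hpd)]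
    show _ = !![(p : ℤ) * a * a + b * M * c, b * (a + d); (M : ℤ) * p * (c * (a + d)),
      M * c * b + p * d * d] * _
    ext i j
    rw [Matrix.mul_apply, Matrix.mul_apply, Fin.sum_univ_two, Fin.sum_univ_two]
    fin_cases i <;> fin_cases j <;>
      simp only [of_apply, cons_val', cons_val_zero, cons_val_one, empty_val', cons_val_fin_one,
        Fin.zero_eta, Fin.mk_one, Fin.isValue] <;> ring
  rw [act_act, hww, ← act_act, hφ γ hγ, act_scalar hP]
  simp

/-- `W² = p^n` -/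
theorem WX_WX (hM : N ∣ M) {w : SN N} (hw : IsW M p w) (x : Sym k N (M * p) n) :
    WX hM hw (WX hM hw x) = (p : k) ^ n • x :=
  Subtype.ext (act_ww hM hw x.2.2)

/-- `tr ∘ ι = p + 1` -/
theorem trX_iotaX (hp : p.Prime) (hM : N ∣ M) (hM0 : M ≠ 0) (hpM : ¬ p ∣ M) (x : Sym k N M n) :
    trX hp hM hM0 hpM (iotaX M p x) = ((p : k) + 1) • x := by
  apply Subtype.ext
  show ∑ i, act k N n (kap N M p i) x.1 = ((p : k) + 1) • x.1
  rw [Finset.sum_congr rfl fun i _ => x.2.2 _ (kap_mem hM i), Finset.sum_const,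
    Finset.card_univ, Fintype.card_option, Fintype.card_fin, ← Nat.cast_smul_eq_nsmul k]
  push_cast
  rfl

/-- `w = γ₀ (p 0; 0 1)`, `γ₀ ∈ Γ₀(M)` -/
theorem IsW.eq_mul_up (hM : N ∣ M) {w : SN N} (hw : IsW M p w) :
    ∃ γ : SN N, IsG0 M γ ∧ w = γ * upS N p 0 1 := by
  have hpd : (p : ℤ) ≠ 0 := by rw [← hw.det]; exact w.2.1
  obtain ⟨a, b, c, d, h1, h2⟩ := hw
  obtain ⟨s, hs⟩ := castN hM
  have hcp : IsCoprime (p : ℤ) (N : ℤ) := ⟨a * d, -(s * b * c), by
    rw [hs] at h2
    linear_combination h2⟩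
  have hd : (!![a, b; (M : ℤ) * c, p * d] : Matrix (Fin 2) (Fin 2) ℤ).det = 1 := by
    rw [det_fin_two_of]
    linear_combination h2
  refine ⟨⟨!![a, b; (M : ℤ) * c, p * d], by rw [hd]; exact one_ne_zero, ?_, ?_⟩, ⟨hd, ?_⟩, ?_⟩
  · simp only [of_apply, cons_val', cons_val_zero, empty_val', cons_val_fin_one]
    exact ⟨p * d, -(s * b * c), by rw [hs] at h2; linear_combination h2⟩
  · simp only [of_apply, cons_val', cons_val_zero, cons_val_one, empty_val', cons_val_fin_one]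
    rw [hs, mul_assoc]
    exact dvd_mul_right _ _
  · show (M : ℤ) ∣ M * c
    exact dvd_mul_right _ _
  · apply Subtype.ext
    rw [Submonoid.coe_mul, h1, upS_coe hcp (by simpa using hpd)]
    ext i j
    rw [Matrix.mul_apply, Fin.sum_univ_two]
    fin_cases i <;> fin_cases j <;>
      simp only [of_apply, cons_val', cons_val_zero, cons_val_one, empty_val', cons_val_fin_one,
        Fin.zero_eta, Fin.mk_one, Fin.isValue] <;> ring

/-- `tr ∘ W ∘ ι = T_p` -/
theorem trX_WX_iotaX (hp : p.Prime) (hM : N ∣ M) (hM0 : M ≠ 0) (hpM : ¬ p ∣ M) {w : SN N}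
    (hw : IsW M p w) (x : Sym k N M n) :
    (trX hp hM hM0 hpM (WX hM hw (iotaX M p x)) : Cusp N → Cusp N → Fin (n + 1) → k) =
      hecke k N M n p x.1 := by
  obtain ⟨γ, hγ, h⟩ := hw.eq_mul_up hM
  rw [← hecke_p_eq_d hp hM hM0 hpM x.2.2, trX_coe]
  refine Finset.sum_congr rfl fun i _ => ?_
  show act k N n (kap N M p i) (act k N n w x.1) = _
  rw [act_act, h, mul_assoc, ← act_act, x.2.2 γ hγ]

/-- `U_p = (ι ∘ tr - 1) ∘ W` at level `Mp` -/
theorem hecke_p_level (hp : p.Prime) (hM : N ∣ M) (hM0 : M ≠ 0) (hpM : ¬ p ∣ M) {w : SN N}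
    (hw : IsW M p w) {φ : Cusp N → Cusp N → Fin (n + 1) → k}
    (hφ : ∀ γ, IsG0 (M * p) γ → act k N n γ φ = φ) :
    hecke k N (M * p) n p φ =
      ∑ i, act k N n (kap N M p i) (act k N n w φ) - act k N n w φ := by
  classical
  have hpi : Prime (p : ℤ) := Nat.prime_iff_prime_int.1 hp
  have hMp : N ∣ M * p := hM.mul_right p
  have h0 : ∑ i, act k N n (kap N M p i) (act k N n w φ) - act k N n w φ =
      ∑ j : Fin p, act k N n (w * kap N M p (some j)) φ := by
    rw [Fintype.sum_option, kap_none, act_one, add_sub_cancel_left]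
    exact Finset.sum_congr rfl fun j _ => act_act n _ _ φ
  rw [h0]
  symm
  refine hecke_eq_sum hp hMp (mul_ne_zero hM0 hp.ne_zero) hφ _ (fun j => ?_) ?_ ?_
  · refine ⟨?_, ?_, ?_⟩
    · rw [Submonoid.coe_mul, det_mul, hw.det, (kap_mem hM (some j)).1, mul_one]
    · obtain ⟨a, b, c, d, h1, h2⟩ := hw
      rw [Submonoid.coe_mul, Matrix.mul_apply, Fin.sum_univ_two, kap_some hM, h1]
      simp only [of_apply, cons_val', cons_val_zero, cons_val_one, empty_val', cons_val_fin_one]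
      push_cast
      exact ⟨c + d, by ring⟩
    · obtain ⟨a, b, c, d, h1, h2⟩ := hw
      rw [Submonoid.coe_mul, Matrix.mul_apply, Fin.sum_univ_two, kap_some hM, h1]
      simp only [of_apply, cons_val', cons_val_zero, cons_val_one, empty_val', cons_val_fin_one]
      push_cast
      refine IsCoprime.mul_right ?_ ?_
      · exact ⟨d, -(b * c) - b * d, by linear_combination h2⟩
      · exact ⟨-c, a * d + a * c, by linear_combination h2⟩
  · have hE : IsEmpty {_u : Unit // ¬ p ∣ M * p} := ⟨fun u => u.2 (dvd_mul_left p M)⟩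
    refine Fintype.card_congr ?_
    exact (Equiv.sumEmpty (Fin p) {_u : Unit // ¬ p ∣ M * p}).symm
  · intro i j γ hγ h
    obtain ⟨γ', h1, h2⟩ := hw.conj_G0' hM hγ
    rw [← mul_assoc, h1, mul_assoc] at h
    have h3 := S9_mul_left_cancel h
    obtain ⟨h4, h5⟩ := PL_of_isG0 h2
    have := kap_un hp hM hpM (some i) (some j) γ' h4 h5 h3
    exact Option.some_injective _ this

/-- `U_p = S' ∘ W` at level `Mp` -/
theorem SX_WX (hp : p.Prime) (hM : N ∣ M) (hM0 : M ≠ 0) (hpM : ¬ p ∣ M) {w : SN N}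
    (hw : IsW M p w) (x : Sym k N (M * p) n) :
    (SX hp hM hM0 hpM (WX hM hw x) : Cusp N → Cusp N → Fin (n + 1) → k) =
      hecke k N (M * p) n p x.1 :=
  (hecke_p_level hp hM hM0 hpM hw x.2.2).symm

/-- `ι ∘ T_l = T_l ∘ ι`, `l ≠ p` -/
theorem hecke_level (M n : ℕ) {l : ℕ} (hp : p.Prime) (hl : l.Prime) (hlp : l ≠ p) :
    hecke k N (M * p) n l = hecke k N M n l := by
  apply hecke_congr
  rw [Nat.Prime.dvd_mul hl, Nat.prime_dvd_prime_iff_eq hl hp]
  exact ⟨fun h => h.resolve_right hlp, Or.inl⟩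

/-- `W` commutes with `T_l`, `U_l`, `l ≠ p` -/
theorem hecke_act_w {l : ℕ} (hp : p.Prime) (hl : l.Prime) (hlp : l ≠ p) (hM : N ∣ M)
    (hM0 : M ≠ 0) {w : SN N} (hw : IsW M p w) {φ : Cusp N → Cusp N → Fin (n + 1) → k}
    (hφ : ∀ γ, IsG0 (M * p) γ → act k N n γ φ = φ) :
    hecke k N (M * p) n l (act k N n w φ) = act k N n w (hecke k N (M * p) n l φ) := by
  classical
  have hMp : N ∣ M * p := hM.mul_right p
  have hMp0 : M * p ≠ 0 := mul_ne_zero hM0 hp.ne_zero
  choose g hg hgd using fun i : Ix (M * p) l => hw.conj_del hp hl hlp hM (del_bet hl hMp i)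
  have h1 : hecke k N (M * p) n l (act k N n w φ) = act k N n w (∑ i, act k N n (g i) φ) := by
    rw [hecke_eq, LinearMap.sum_apply, map_sum]
    refine Finset.sum_congr rfl fun i _ => ?_
    rw [act_act, hg i, ← act_act]
  rw [h1]
  congr 1
  refine hecke_eq_sum hl hMp hMp0 hφ g hgd rfl ?_
  intro i j γ hγ h
  obtain ⟨γ', h2, h3⟩ := hw.conj_G0' hM hγ
  refine rep_unique hl hMp hMp0 h3 (S9_mul_left_cancel (b := w) ?_)
  rw [hg i, h, mul_assoc, ← hg j, ← mul_assoc, h2, mul_assoc]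

/-- the traces at the levels `M ∣ L` agree -/
theorem trace_level {L : ℕ} (hp : p.Prime) (hML : M ∣ L) (hM : N ∣ M) (hM0 : M ≠ 0)
    (hpL : ¬ p ∣ L) {φ : Cusp N → Cusp N → Fin (n + 1) → k}
    (hφ : ∀ γ, IsG0 (M * p) γ → act k N n γ φ = φ) :
    ∑ i, act k N n (kap N L p i) φ = ∑ i, act k N n (kap N M p i) φ := by
  classical
  have hpM : ¬ p ∣ M := fun h => hpL (h.trans hML)
  have hL : N ∣ L := hM.trans hML
  choose f hf _hfu using fun i => kap_rep hp hM hM0 hpM (isG0_mono hML (kap_mem (p := p) hL i))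
  choose γ hγ hgγ using hf
  have hfi : Function.Injective f := by
    intro i j hij
    obtain ⟨δ, hδ, hδ1, hδ2⟩ := isG0_inv (hM.mul_right p) (hγ j)
    have e1 : kap N L p i = (γ i * δ) * kap N L p j := by
      rw [hgγ i, hgγ j, hij, mul_assoc, ← mul_assoc δ, hδ1, one_mul]
    obtain ⟨tj, htj, htj1, htj2⟩ := isG0_inv hL (kap_mem (p := p) hL j)
    have e2 : γ i * δ = kap N L p i * tj := by
      rw [e1, mul_assoc, htj2, mul_one]
    refine kap_un hp hL hpL i j (γ i * δ) ?_ (PL_of_isG0 (isG0_mul (hγ i) hδ)).2 e1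
    rw [e2]
    exact isG0_mul (kap_mem hL i) htj
  refine Fintype.sum_bijective f (Finite.injective_iff_bijective.1 hfi) _ _ fun i => ?_
  rw [hgγ i, ← act_act, hφ (γ i) (hγ i)]

/-- the trace commutes with the inclusions -/
theorem inclX_trX {L : ℕ} (hp : p.Prime) (hML : M ∣ L) (hM : N ∣ M) (hM0 : M ≠ 0)
    (hL0 : L ≠ 0) (hpM : ¬ p ∣ M) (hpL : ¬ p ∣ L) (x : Sym k N (M * p) n) :
    trX hp (hM.trans hML) hL0 hpL (inclX (mul_dvd_mul_right hML p) x) =
      inclX hML (trX hp hM hM0 hpM x) :=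
  Subtype.ext (trace_level hp hML hM hM0 hpL x.2.2)

/-- `ι` commutes with the inclusions -/
theorem inclX_iotaX {L : ℕ} (hML : M ∣ L) (x : Sym k N M n) :
    iotaX L p (inclX hML x) = inclX (mul_dvd_mul_right hML p) (iotaX M p x) := rfl

/-- `W` commutes with the inclusions -/
theorem inclX_WX {L : ℕ} (hML : M ∣ L) (hM : N ∣ M) {w : SN N} (hw : IsW M p w)
    (hw' : IsW L p w) (x : Sym k N (M * p) n) :
    WX (hM.trans hML) hw' (inclX (mul_dvd_mul_right hML p) x) =
      inclX (mul_dvd_mul_right hML p) (WX hM hw x) := rfl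

/-- `S'` commutes with the inclusions -/
theorem inclX_SX {L : ℕ} (hp : p.Prime) (hML : M ∣ L) (hM : N ∣ M) (hM0 : M ≠ 0)
    (hL0 : L ≠ 0) (hpM : ¬ p ∣ M) (hpL : ¬ p ∣ L) (x : Sym k N (M * p) n) :
    SX hp (hM.trans hML) hL0 hpL (inclX (mul_dvd_mul_right hML p) x) =
      inclX (mul_dvd_mul_right hML p) (SX hp hM hM0 hpM x) := by
  apply Subtype.ext
  show ∑ i, act k N n (kap N L p i) x.1 - x.1 = ∑ i, act k N n (kap N M p i) x.1 - x.1
  rw [trace_level hp hML hM hM0 hpL x.2.2]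

end Maps

section Op

variable {k : Type} [CommRing k] {M p n : ℕ}

/-- `ι T_l = T_l ι` -/
theorem iotaX_opN [NeZero M] [NeZero (M * p)] (hp : p.Prime) (hM : N ∣ M) (hMp : N ∣ M * p) (q : Nat.Primes)
    (hq : (q : ℕ) ≠ p) (x : Sym k N M n) :
    iotaX M p (opN k N M n hM q x) = opN k N (M * p) n hMp q (iotaX M p x) := by
  apply Subtype.ext
  show hecke k N M n q x.1 = hecke k N (M * p) n q x.1
  rw [hecke_level M n hp q.2 hq]

/-- `tr T_l = T_l tr` -/
theorem trX_opN [NeZero M] [NeZero (M * p)] (hp : p.Prime) (hM : N ∣ M) (hMp : N ∣ M * p) (hM0 : M ≠ 0) (hpM : ¬ p ∣ M)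
    (q : Nat.Primes) (hq : (q : ℕ) ≠ p) (x : Sym k N (M * p) n) :
    trX hp hM hM0 hpM (opN k N (M * p) n hMp q x) = opN k N M n hM q (trX hp hM hM0 hpM x) := by
  apply Subtype.ext
  exact (hecke_trace hp q.2 hq hM hM0 hpM x.2.2).symm

/-- `W T_l = T_l W` -/
theorem WX_opN [NeZero (M * p)] (hp : p.Prime) (hM : N ∣ M) (hMp : N ∣ M * p) (hM0 : M ≠ 0) {w : SN N}
    (hw : IsW M p w) (q : Nat.Primes) (hq : (q : ℕ) ≠ p) (x : Sym k N (M * p) n) :
    WX hM hw (opN k N (M * p) n hMp q x) = opN k N (M * p) n hMp q (WX hM hw x) := by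
  apply Subtype.ext
  exact (hecke_act_w hp q.2 hq hM hM0 hw x.2.2).symm

/-- `tr W ι = T_p` -/
theorem trX_WX_iotaX_opN [NeZero M] (hp : p.Prime) (hM : N ∣ M) (hM0 : M ≠ 0) (hpM : ¬ p ∣ M) {w : SN N}
    (hw : IsW M p w) (x : Sym k N M n) :
    trX hp hM hM0 hpM (WX hM hw (iotaX M p x)) = opN k N M n hM ⟨p, hp⟩ x :=
  Subtype.ext (trX_WX_iotaX hp hM hM0 hpM hw x)

/-- `S' W = U_p` -/
theorem SX_WX_opN [NeZero (M * p)] (hp : p.Prime) (hM : N ∣ M) (hMp : N ∣ M * p) (hM0 : M ≠ 0) (hpM : ¬ p ∣ M)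
    {w : SN N} (hw : IsW M p w) (x : Sym k N (M * p) n) :
    SX hp hM hM0 hpM (WX hM hw x) = opN k N (M * p) n hMp ⟨p, hp⟩ x :=
  Subtype.ext (SX_WX hp hM hM0 hpM hw x)

end Op

end Gouvea.PX
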