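import Pool.Agent.Work.MP_d3517d_nt.P5.RepP
import Pool.Agent.Work.MP_d3517d_nt.P5.LatBasis
import Pool.Agent.Work.MP_d3517d_nt.Sys.Source

/-!
# Maps between the spaces of symbols of levels `M`, `M p`, `L p` (MP_d3517d_nt, P5)

* `inclX` : inclusion; `trX` : the trace from level `M p` to level `M`;
* `trX_inclX`, `trX_level` (the trace does not depend on the prime to `p` level);
* equivariance for the Hecke ring without `T_p`.
-/

open Polynomial Finset Module

noncomputable section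

namespace Gouvea.P5

open Gouvea.PX Gouvea.Sys

section Incl

variable {k : Type} [CommRing k] {N M L n : ℕ}

lemma isG0_of_dvd (h : M ∣ L) {g : SN N} (hg : IsG0 L g) : IsG0 M g :=
  ⟨hg.1, (Int.natCast_dvd_natCast.2 h).trans hg.2⟩

lemma Sym_le_of_dvd (h : M ∣ L) : Sym k N M n ≤ Sym k N L n :=
  fun _ hφ => ⟨hφ.1, fun g hg => hφ.2 g (isG0_of_dvd h hg)⟩

variable (k N n) in
/-- inclusion of the symbols of level `M` in those of level `L`, `M ∣ L` -/
def inclX (h : M ∣ L) : Sym k N M n →ₗ[k] Sym k N L n := Submodule.inclusion (Sym_le_of_dvd h)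

@[simp] lemma inclX_coe (h : M ∣ L) (φ : Sym k N M n) :
    (inclX k N n h φ : Cusp N → Cusp N → Fin (n + 1) → k) = φ := rfl

lemma inclX_injective (h : M ∣ L) : Function.Injective (inclX k N n h) :=
  fun a b e => Subtype.ext (congrArg (fun z : Sym k N L n => z.1) e)

lemma inclX_sat [IsDomain k] {a : k} (ha : a ≠ 0) (h : M ∣ L) (x : Sym k N L n)
    (hx : a • x ∈ LinearMap.range (inclX k N n h)) : x ∈ LinearMap.range (inclX k N n h) := by
  obtain ⟨y, hy⟩ := hx
  have hy' : (y : Cusp N → Cusp N → Fin (n + 1) → k) = a • x.1 := congrArg Subtype.val hy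
  refine ⟨⟨x.1, x.2.1, fun g hg => ?_⟩, Subtype.ext rfl⟩
  have h1 := y.2.2 g hg
  rw [hy', map_smul] at h1
  funext u v i
  exact mul_left_cancel₀ ha (congrFun (congrFun (congrFun h1 u) v) i)

end Incl

section Trace

variable {k : Type} [CommRing k] {N M L n p : ℕ}

variable (k n) in
/-- the trace from level `M p` to level `M` -/
def trX (hp : p.Prime) (hM : N ∣ M) (hM0 : M ≠ 0) (hpM : ¬ p ∣ M) :
    Sym k N (M * p) n →ₗ[k] Sym k N M n where
  toFun φ := ⟨∑ i, act k N n (kap N M p i) φ.1, trace_mem hp hM hM0 hpM φ.2⟩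
  map_add' φ ψ := by
    apply Subtype.ext
    show ∑ i, act k N n (kap N M p i) (φ.1 + ψ.1) = _ + _
    rw [← Finset.sum_add_distrib]
    exact Finset.sum_congr rfl fun i _ => map_add _ _ _
  map_smul' a φ := by
    apply Subtype.ext
    show ∑ i, act k N n (kap N M p i) (a • φ.1) = a • _
    rw [Finset.smul_sum]
    exact Finset.sum_congr rfl fun i _ => map_smul _ _ _

lemma trX_coe (hp : p.Prime) (hM : N ∣ M) (hM0 : M ≠ 0) (hpM : ¬ p ∣ M)
    (φ : Sym k N (M * p) n) :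
    (trX k n hp hM hM0 hpM φ : Cusp N → Cusp N → Fin (n + 1) → k) =
      ∑ i, act k N n (kap N M p i) φ.1 := rfl

/-- trace of an element of level `M` -/
theorem trX_inclX (hp : p.Prime) (hM : N ∣ M) (hM0 : M ≠ 0) (hpM : ¬ p ∣ M)
    (φ : Sym k N M n) :
    trX k n hp hM hM0 hpM (inclX k N n (Dvd.intro _ rfl) φ) = ((p : k) + 1) • φ := by
  apply Subtype.ext
  rw [trX_coe, inclX_coe]
  have h1 : ∀ i, act k N n (kap N M p i) φ.1 = φ.1 := fun i => φ.2.2 _ (kap_mem hM i)
  rw [Finset.sum_congr rfl fun i _ => h1 i, Finset.sum_const, Finset.card_univ,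
    Fintype.card_option, Fintype.card_fin, ← Nat.cast_smul_eq_nsmul k]
  push_cast
  rfl

/-- the trace does not depend on the level -/
theorem trX_level (hp : p.Prime) (hM : N ∣ M) (hM0 : M ≠ 0) (hML : M ∣ L)
    (hL0 : L ≠ 0) (hpL : ¬ p ∣ L) (φ : Cusp N → Cusp N → Fin (n + 1) → k)
    (hφ : ∀ γ, IsG0 (M * p) γ → act k N n γ φ = φ) :
    ∑ i, act k N n (kap N L p i) φ = ∑ i, act k N n (kap N M p i) φ := by
  have hpM : ¬ p ∣ M := fun h => hpL (h.trans hML)
  have hL : N ∣ L := hM.trans hML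
  choose f hf _ using fun i => kap_rep hp hM hM0 hpM (isG0_of_dvd hML (kap_mem (p := p) hL i))
  choose γ hγ hγk using hf
  have hinj : Function.Injective f := by
    intro i j hij
    obtain ⟨δ, hδ, hδ1, hδ2⟩ := isG0_inv (hM.trans (Dvd.intro _ rfl)) (hγ j)
    have h1 : kap N L p i = (γ i * δ) * kap N L p j := by
      rw [hγk i, hγk j, hij, mul_assoc (γ i), ← mul_assoc δ, hδ1, one_mul]
    have h2 : IsG0 (M * p) (γ i * δ) := isG0_mul (hγ i) hδ
    obtain ⟨ε, hε, hε1, hε2⟩ := isG0_inv hL (kap_mem (p := p) hL j)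
    have h3 : γ i * δ = kap N L p i * ε := by
      rw [h1, mul_assoc, hε2, mul_one]
    have h4 : IsG0 L (γ i * δ) := by
      rw [h3]
      exact isG0_mul (kap_mem hL i) hε
    exact kap_un hp hL hpL i j (γ i * δ) h4 (PL_of_isG0 h2).2 h1
  have hbij : Function.Bijective f := Finite.injective_iff_bijective.1 hinj
  refine Fintype.sum_bijective f hbij _ _ fun i => ?_
  rw [hγk i, ← act_act, hφ (γ i) (hγ i)]

end Trace

section Equivariance

variable {k : Type} [CommRing k] {N M n p : ℕ} [NeZero M]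

omit [NeZero M] in
lemma dvd_mul_prime_iff {l : ℕ} (hp : p.Prime) (hl : l.Prime) (hlp : l ≠ p) :
    l ∣ M * p ↔ l ∣ M := by
  rw [hl.dvd_mul]
  exact ⟨fun h => h.resolve_right fun h' => hlp ((Nat.prime_dvd_prime_iff_eq hl hp).1 h'), Or.inl⟩

instance neZero_mul_prime [hp : Fact p.Prime] : NeZero (M * p) :=
  ⟨mul_ne_zero (NeZero.ne M) hp.out.ne_zero⟩

variable [hp : Fact p.Prime]

/-- the inclusion commutes with the Hecke ring without `T_p` -/
theorem inclX_equivariant (hM : N ∣ M) (hM' : N ∣ M * p) (r : HR0 p) (φ : Sym k N M n) :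
    inclX k N n (Dvd.intro _ rfl) (rhoN k N M n hM (incl p r) φ) =
      rhoN k N (M * p) n hM' (incl p r) (inclX k N n (Dvd.intro _ rfl) φ) := by
  refine equivariant_of_rename (fun l : {l : ℕ // l.Prime ∧ l ≠ p} => (⟨l.1, l.2.1⟩ : Nat.Primes))
    (ρU := rhoN k N M n hM) (ρV := rhoN k N (M * p) n hM')
    (f := (inclX k N n (M := M) (L := M * p) (Dvd.intro _ rfl)).toAddMonoidHom) ?_ r φ
  intro l φ
  apply Subtype.ext
  exact rhoN_congr_level hM hM' (q := ⟨l.1, l.2.1⟩)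
    (dvd_mul_prime_iff hp.out l.2.1 l.2.2).symm φ
    (inclX k N n (Dvd.intro _ rfl) φ) rfl

/-- the trace commutes with the Hecke ring without `T_p` -/
theorem trX_equivariant (hM : N ∣ M) (hM' : N ∣ M * p) (hpM : ¬ p ∣ M) (r : HR0 p)
    (φ : Sym k N (M * p) n) :
    trX k n hp.out hM (NeZero.ne M) hpM (rhoN k N (M * p) n hM' (incl p r) φ) =
      rhoN k N M n hM (incl p r) (trX k n hp.out hM (NeZero.ne M) hpM φ) := by
  refine equivariant_of_rename (fun l : {l : ℕ // l.Prime ∧ l ≠ p} => (⟨l.1, l.2.1⟩ : Nat.Primes))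
    (ρU := rhoN k N (M * p) n hM') (ρV := rhoN k N M n hM)
    (f := (trX k n hp.out hM (NeZero.ne M) hpM).toAddMonoidHom) ?_ r φ
  intro l φ
  apply Subtype.ext
  show ((trX k n hp.out hM (NeZero.ne M) hpM
    (rhoN k N (M * p) n hM' (MvPolynomial.X ⟨l.1, l.2.1⟩) φ) : Sym k N M n) :
    Cusp N → Cusp N → Fin (n + 1) → k) = (rhoN k N M n hM (MvPolynomial.X ⟨l.1, l.2.1⟩)
      (trX k n hp.out hM (NeZero.ne M) hpM φ) : Sym k N M n)
  rw [rhoN_X, rhoN_X, opN_coe, trX_coe, trX_coe, opN_coe]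
  exact (hecke_trace hp.out l.2.1 l.2.2 hM (NeZero.ne M) hpM φ.2.2).symm

end Equivariance

/-! ### Finiteness -/

section Fin

variable {N M : ℕ} [NeZero M]

lemma free_sym {k : Type} [CommRing k] [IsDomain k] [CharZero k] (hNM : N ∣ M) (n : ℕ) :
    Module.Free k (Sym k N M n) :=
  Module.Free.of_basis (bas (NeZero.ne M) hNM n k)

lemma finite_sym {k : Type} [CommRing k] [IsDomain k] [CharZero k] (hNM : N ∣ M) (n : ℕ) :
    Module.Finite k (Sym k N M n) :=
  Module.Finite.of_basis (bas (NeZero.ne M) hNM n k)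

lemma Sym_lcm (k : Type) [CommRing k] (N M n : ℕ) : Sym k N (Nat.lcm N M) n = Sym k N M n := by
  refine le_antisymm (fun φ hφ => ⟨hφ.1, fun g hg => hφ.2 g ⟨hg.1, ?_⟩⟩)
    (Sym_le_of_dvd (Nat.dvd_lcm_right N M))
  exact Int.natCast_dvd.2 (Nat.lcm_dvd (Int.natCast_dvd.1 g.2.2.2) (Int.natCast_dvd.1 hg.2))

instance freeSymInst {k : Type} [CommRing k] [IsDomain k] [CharZero k] [NeZero N] (n : ℕ) :
    Module.Free k (Sym k N M n) := by
  have h0 : NeZero (Nat.lcm N M) := ⟨Nat.lcm_ne_zero (NeZero.ne N) (NeZero.ne M)⟩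
  have h1 := free_sym (k := k) (Nat.dvd_lcm_left N M) n
  rwa [Sym_lcm] at h1

instance finiteSymInst {k : Type} [CommRing k] [IsDomain k] [CharZero k] [NeZero N] (n : ℕ) :
    Module.Finite k (Sym k N M n) := by
  have h0 : NeZero (Nat.lcm N M) := ⟨Nat.lcm_ne_zero (NeZero.ne N) (NeZero.ne M)⟩
  have h1 := finite_sym (k := k) (Nat.dvd_lcm_left N M) n
  rwa [Sym_lcm] at h1

/-- over a field the spaces of symbols are finite dimensional -/
lemma finiteDimensional_sym {k : Type} [Field k] (hNM : N ∣ M) (n : ℕ) :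
    FiniteDimensional k (Sym k N M n) := by
  obtain ⟨m, P, Q, h⟩ := exists_gen (NeZero.ne M) hNM
  let F : Sym k N M n →ₗ[k] (Fin m × Fin (n + 1) → k) :=
    { toFun := fun φ q => φ.1 (P q.1) (Q q.1) q.2
      map_add' := fun φ ψ => rfl
      map_smul' := fun a φ => rfl }
  refine FiniteDimensional.of_injective F fun φ ψ hφψ => ?_
  apply Subtype.ext
  funext x y r
  obtain ⟨a, ha⟩ := h n x y
  rw [ha k φ.1 φ.2 r, ha k ψ.1 ψ.2 r]
  refine Finset.sum_congr rfl fun q _ => ?_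
  have := congrFun hφψ q
  change φ.1 (P q.1) (Q q.1) q.2 = ψ.1 (P q.1) (Q q.1) q.2 at this
  rw [this]

end Fin

end Gouvea.P5
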