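import Pool.Agent.Work.MP_d3517d_nt.P5.Atk
import Pool.Agent.Work.MP_d3517d_nt.P5.LevMap

set_option autoImplicit false
set_option linter.unusedVariables false

/-!
# The Atkin-Lehner operator and the Hecke ring without `T_p` (MP_d3517d_nt, package P5)
-/

open Polynomial Finset Module

noncomputable section

namespace Gouvea.P5

open Gouvea.PX Gouvea.Sys

section Maps

variable {k : Type} [CommRing k] {N M L n p : ℕ} [NeZero M] [hp : Fact p.Prime]

/-- `W` commutes with the Hecke ring without `T_p` -/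
theorem WX_equivariant (hM : N ∣ M) (hM' : N ∣ M * p) {w : SN N} (hw : IsW M p w) (r : HR0 p)
    (φ : Sym k N (M * p) n) :
    WX hM hw (rhoN k N (M * p) n hM' (incl p r) φ) =
      rhoN k N (M * p) n hM' (incl p r) (WX hM hw φ) := by
  refine equivariant_of_rename (ι := Nat.Primes)
    (fun l : {l : ℕ // l.Prime ∧ l ≠ p} => (⟨l.1, l.2.1⟩ : Nat.Primes))
    (ρU := rhoN k N (M * p) n hM') (ρV := rhoN k N (M * p) n hM')
    (f := (WX hM hw : Sym k N (M * p) n →ₗ[k] Sym k N (M * p) n).toAddMonoidHom) ?_ r φ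
  intro l φ
  have e1 := rhoN_X k N (M * p) n hM' (⟨l.1, l.2.1⟩ : Nat.Primes)
  rw [e1]
  exact WX_opN hp.out hM hM' (NeZero.ne M) hw ⟨l.1, l.2.1⟩ l.2.2 φ

/-- `tr W ι = T_p` -/
theorem trX_WX_inclX (hM : N ∣ M) (hpM : ¬ p ∣ M) {w : SN N} (hw : IsW M p w)
    (φ : Sym k N M n) :
    trX k n hp.out hM (NeZero.ne M) hpM (WX hM hw (inclX k N n (Dvd.intro _ rfl) φ)) =
      rhoN k N M n hM (MvPolynomial.X ⟨p, hp.out⟩) φ := by
  rw [rhoN_X]
  exact Subtype.ext (trX_WX_iotaX hp.out hM (NeZero.ne M) hpM hw φ)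

/-- `(ι tr - 1) W = U_p` at level `M p` -/
theorem inclX_trX_sub_WX (hM : N ∣ M) (hM' : N ∣ M * p) (hpM : ¬ p ∣ M) {w : SN N}
    (hw : IsW M p w) (φ : Sym k N (M * p) n) :
    (inclX k N n (M := M) (L := M * p) (Dvd.intro _ rfl) ∘ₗ
        trX k n hp.out hM (NeZero.ne M) hpM - LinearMap.id :
          Sym k N (M * p) n →ₗ[k] Sym k N (M * p) n) (WX hM hw φ) =
      rhoN k N (M * p) n hM' (MvPolynomial.X ⟨p, hp.out⟩) φ := by
  rw [rhoN_X]
  exact Subtype.ext (SX_WX hp.out hM (NeZero.ne M) hpM hw φ)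

omit [NeZero M] hp in
/-- the entries of an Atkin-Lehner matrix -/
theorem isW_entries {w : SN N} (hw : IsW M p w) : ∃ a b c d : ℤ,
    (p : ℤ) * a * d - M * b * c = 1 ∧ w.1 = !![(p : ℤ) * a, b; (M : ℤ) * p * c, p * d] := by
  obtain ⟨a, b, c, d, h1, h2⟩ := hw
  exact ⟨a, b, c, d, h2, h1⟩

end Maps

end Gouvea.P5
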