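import Pool.Agent.Work.MP_d3517d_nt.P5.HodgeAbs
import Pool.Agent.Work.MP_d3517d_nt.IdemA

/-!
# P5: the part of a lattice at an ideal of the Hecke ring, and counting (MP_d3517d_nt)

`A` is a lattice with an action `Φ` of a commutative ring `R`, `M` an `F_p`-space with an action
`Ψ` of `R`, `red : A → M` an equivariant map with kernel `p A`.
* `nilPart Ψ I N` : the elements of `N` killed by powers of all elements of `I`;
* `exists_part` : the direct summand `B` of `A` on which `I` is topologically nilpotent;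
* `HH_bounds` : the Hodge function of `B` is `c x ^ 2 / 2 + O(x)`.
-/

open Polynomial Finset Filter Topology

noncomputable section

namespace Gouvea.P5

open Pool.Agent.Gouv

section NilPart

variable {K M R : Type*} [Field K] [AddCommGroup M] [Module K M] [CommRing R]

/-- The elements of `N` killed by powers of all elements of the ideal `I`. -/
def nilPart (Ψ : R →+* Module.End K M) (I : Ideal R) (N : Submodule K M) : Submodule K M where
  carrier := {x | x ∈ N ∧ ∀ u ∈ I, ∃ k : ℕ, (Ψ u ^ k) x = 0}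
  add_mem' := by
    rintro x y ⟨hx, hx'⟩ ⟨hy, hy'⟩
    refine ⟨N.add_mem hx hy, fun u hu => ?_⟩
    obtain ⟨k, hk⟩ := hx' u hu
    obtain ⟨l, hl⟩ := hy' u hu
    refine ⟨k + l, ?_⟩
    rw [map_add]
    nth_rewrite 1 [add_comm k l]
    rw [pow_add, pow_add, Module.End.mul_apply, Module.End.mul_apply, hk, hl, map_zero, map_zero,
      add_zero]
  zero_mem' := ⟨N.zero_mem, fun u _ => ⟨0, by simp⟩⟩
  smul_mem' := by
    rintro c x ⟨hx, hx'⟩
    refine ⟨N.smul_mem c hx, fun u hu => ?_⟩
    obtain ⟨k, hk⟩ := hx' u hu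
    exact ⟨k, by rw [map_smul, hk, smul_zero]⟩

theorem mem_nilPart {Ψ : R →+* Module.End K M} {I : Ideal R} {N : Submodule K M} {x : M} :
    x ∈ nilPart Ψ I N ↔ x ∈ N ∧ ∀ u ∈ I, ∃ k : ℕ, (Ψ u ^ k) x = 0 := Iff.rfl

theorem nilPart_le (Ψ : R →+* Module.End K M) (I : Ideal R) (N : Submodule K M) :
    nilPart Ψ I N ≤ N := fun _ h => h.1

theorem nilPart_mono (Ψ : R →+* Module.End K M) (I : Ideal R) {N N' : Submodule K M}
    (h : N ≤ N') : nilPart Ψ I N ≤ nilPart Ψ I N' := fun _ hx => ⟨h hx.1, hx.2⟩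

end NilPart

variable {p : ℕ} [hp : Fact p.Prime]
variable {A : Type} [AddCommGroup A] [Module ℤ_[p] A] [Module.Free ℤ_[p] A]
  [Module.Finite ℤ_[p] A]
variable {R : Type} [CommRing R]

/-- The idempotent of an ideal. -/
theorem exists_idem (Φ : R →+* Module.End ℤ_[p] A) (I : Ideal R) :
    ∃ (e : Module.End ℤ_[p] A) (t : R), t ∈ I ∧ e * e = e ∧
      (∀ a, ∃ y, e a - Φ t a = (p : ℤ_[p]) • y) ∧
      (∀ g : Module.End ℤ_[p] A, (∀ u, Φ u * g = g * Φ u) → e * g = g * e) ∧
      (∀ u ∈ I, ∃ k, 0 < k ∧ ∀ a, ∃ y, (Φ u ^ k) (a - Φ t a) = (p : ℤ_[p]) • y) := by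
  classical
  let b := Module.finBasis ℤ_[p] A
  let ι := Fin (Module.finrank ℤ_[p] A)
  let τ : Module.End ℤ_[p] A ≃+* Matrix ι ι ℤ_[p] := (LinearMap.toMatrixAlgEquiv b).toRingEquiv
  let Φm : R →+* Matrix ι ι ℤ_[p] := (τ : Module.End ℤ_[p] A →+* Matrix ι ι ℤ_[p]).comp Φ
  let φ : R →+* Matrix ι ι (ZMod p) := (RingHom.mapMatrix PadicInt.toZMod).comp Φm
  have : Finite (Matrix ι ι (ZMod p)) := inferInstanceAs (Finite (ι → ι → ZMod p))
  obtain ⟨t, ht, htt, hbig⟩ := exists_big φ I
  have h0 : (Φm t * Φm t).map PadicInt.toZMod = (Φm t).map PadicInt.toZMod := by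
    rw [← map_mul]
    change φ (t * t) = φ t
    rw [map_mul, htt]
  obtain ⟨e, hel, hei, hem⟩ := exists_limit Φm t h0
  -- from matrices to endomorphisms
  have hdiv : ∀ G : Module.End ℤ_[p] A, (τ G).map PadicInt.toZMod = 0 →
      ∀ a, ∃ y, G a = (p : ℤ_[p]) • y := by
    intro G hG a
    have h1 : ∀ i j, (p : ℤ_[p]) ∣ (τ G) i j := fun i j =>
      dvd_of_toZMod (congrFun (congrFun hG i) j)
    choose y hy using h1
    refine ⟨(τ.symm (Matrix.of y)) a, ?_⟩
    have h2 : G = (p : ℤ_[p]) • τ.symm (Matrix.of y) := by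
      apply τ.injective
      have h3 : τ ((p : ℤ_[p]) • τ.symm (Matrix.of y)) =
          (p : ℤ_[p]) • τ (τ.symm (Matrix.of y)) := map_smul (LinearMap.toMatrixAlgEquiv b) _ _
      rw [h3, RingEquiv.apply_symm_apply]
      ext i j
      rw [hy]
      rfl
    conv_lhs => rw [h2]
    rfl
  have hmapsub : ∀ A B : Matrix ι ι ℤ_[p], (A - B).map PadicInt.toZMod =
      A.map PadicInt.toZMod - B.map PadicInt.toZMod := fun A B =>
    map_sub (RingHom.mapMatrix (PadicInt.toZMod (p := p))) A B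
  refine ⟨τ.symm e, t, ht, by rw [← map_mul, hei], ?_, ?_, ?_⟩
  · intro a
    have h1 := hdiv (τ.symm e - Φ t) (by
      rw [map_sub, RingEquiv.apply_symm_apply, hmapsub, hem]
      exact sub_self _) a
    exact h1
  · intro g hg
    apply τ.injective
    rw [map_mul, map_mul, RingEquiv.apply_symm_apply]
    have h1 : Tendsto (fun k => Φm (tt t k) * τ g) atTop (𝓝 (e * τ g)) :=
      ((continuous_id.matrix_mul continuous_const).tendsto e).comp hel
    have h2 : Tendsto (fun k => τ g * Φm (tt t k)) atTop (𝓝 (τ g * e)) :=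
      ((continuous_const.matrix_mul continuous_id).tendsto e).comp hel
    have h3 : ∀ k, Φm (tt t k) * τ g = τ g * Φm (tt t k) := by
      intro k
      change τ (Φ (tt t k)) * τ g = τ g * τ (Φ (tt t k))
      rw [← map_mul, ← map_mul, hg]
    simp only [h3] at h1
    exact tendsto_nhds_unique h1 h2
  · intro u hu
    obtain ⟨k, hk, hk'⟩ := hbig u hu
    refine ⟨k, hk, fun a => ?_⟩
    have h1 := hdiv (Φ u ^ k * (1 - Φ t)) (by
      have h2 : φ (u ^ k * (1 - t)) = 0 := by
        rw [map_mul, map_pow, map_sub, map_one, hk']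
      have h3 : τ (Φ u ^ k * (1 - Φ t)) = Φm (u ^ k * (1 - t)) := by
        change _ = τ (Φ (u ^ k * (1 - t)))
        rw [map_mul Φ, map_pow Φ, map_sub Φ, map_one Φ]
      rw [h3]
      exact h2) a
    exact h1

omit [Module.Finite ℤ_[p] A] in
theorem sat_ker (e : Module.End ℤ_[p] A) : Sat (LinearMap.ker e) := by
  intro x hx
  rw [LinearMap.mem_ker, map_smul] at hx
  rw [LinearMap.mem_ker]
  refine pow_inj p 1 ?_
  rw [pow_one, hx, smul_zero]

omit [Module.Free ℤ_[p] A] [Module.Finite ℤ_[p] A] in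
theorem ker_le_comap {e g : Module.End ℤ_[p] A} (h : e * g = g * e) :
    LinearMap.ker e ≤ (LinearMap.ker e).comap g := by
  intro x hx
  rw [Submodule.mem_comap, LinearMap.mem_ker]
  have h1 := congrArg (fun f : Module.End ℤ_[p] A => f x) h
  simp only [Module.End.mul_apply] at h1
  rw [h1, LinearMap.mem_ker.1 hx, map_zero]

/-- `x` is topologically nilpotent under `u`. -/
def TopNil (g : Module.End ℤ_[p] A) (a : A) : Prop :=
  ∀ k : ℕ, ∃ N0 : ℕ, ∀ N ≥ N0, ∃ y, (g ^ N) a = (p : ℤ_[p]) ^ k • y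

/-- The characterisation of the kernel of the idempotent. -/
theorem ker_idem_iff (Φ : R →+* Module.End ℤ_[p] A) (I : Ideal R) {e : Module.End ℤ_[p] A}
    {t : R} (ht : t ∈ I) (he : e * e = e) (het : ∀ a, ∃ y, e a - Φ t a = (p : ℤ_[p]) • y)
    (hcomm : ∀ u, e * Φ u = Φ u * e)
    (hbig : ∀ u ∈ I, ∃ k, 0 < k ∧ ∀ a, ∃ y, (Φ u ^ k) (a - Φ t a) = (p : ℤ_[p]) • y) (a : A) :
    e a = 0 ↔ ∀ u ∈ I, TopNil (Φ u) a := by
  have hpow : ∀ (u : R) (N : ℕ), e * Φ u ^ N = Φ u ^ N * e := by
    intro u N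
    rw [← map_pow]
    exact hcomm _
  constructor
  · intro ha u hu
    obtain ⟨m, hm, hm'⟩ := hbig u hu
    have h1 : ∀ b, e b = 0 → ∃ y, (Φ u ^ m) b = (p : ℤ_[p]) • y ∧ e y = 0 := by
      intro b hb
      obtain ⟨y, hy⟩ := het b
      obtain ⟨z, hz⟩ := hm' b
      rw [hb, zero_sub] at hy
      refine ⟨z - (Φ u ^ m) y, ?_, ?_⟩
      · rw [map_sub, show Φ t b = -((p : ℤ_[p]) • y) by rw [← hy, neg_neg], map_neg, map_smul,
          sub_neg_eq_add] at hz
        rw [smul_sub, ← hz]
        abel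
      · apply pow_inj p 1
        rw [pow_one, smul_zero, ← map_smul, smul_sub, ← hz, ← map_smul, ← map_sub, sub_sub]
        have h2 : Φ t b + (p : ℤ_[p]) • y = 0 := by rw [← hy, add_neg_cancel]
        rw [h2, sub_zero]
        have h3 := congrArg (fun f : Module.End ℤ_[p] A => f b) (hpow u m)
        simp only [Module.End.mul_apply] at h3
        rw [h3, hb, map_zero]
    have h2 : ∀ k : ℕ, ∃ y, (Φ u ^ (m * k)) a = (p : ℤ_[p]) ^ k • y ∧ e y = 0 := by
      intro k
      induction k with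
      | zero => exact ⟨a, by simp, ha⟩
      | succ k ih =>
        obtain ⟨y, hy, hy0⟩ := ih
        obtain ⟨z, hz, hz0⟩ := h1 y hy0
        refine ⟨z, ?_, hz0⟩
        rw [Nat.mul_succ, add_comm, pow_add, Module.End.mul_apply, hy, map_smul, hz, smul_smul,
          ← pow_succ]
    intro k
    refine ⟨m * k, fun N hN => ?_⟩
    obtain ⟨y, hy, -⟩ := h2 k
    refine ⟨(Φ u ^ (N - m * k)) y, ?_⟩
    rw [← map_smul, ← hy, ← Module.End.mul_apply, ← pow_add, Nat.sub_add_cancel hN]
  · intro h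
    by_contra hne
    -- `w = e a`
    have hind : ∀ j : ℕ, ∃ w, e a = (p : ℤ_[p]) ^ j • w := by
      intro j
      induction j with
      | zero => exact ⟨e a, by simp⟩
      | succ j ih =>
        obtain ⟨w, hw⟩ := ih
        have hew : e w = w := by
          apply pow_inj p j
          rw [← map_smul, ← hw]
          exact congrArg (fun f : Module.End ℤ_[p] A => f a) he
        have h1 : ∀ N : ℕ, ∃ y, (Φ t ^ N) w - w = (p : ℤ_[p]) • y := by
          intro N
          induction N with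
          | zero => exact ⟨0, by simp⟩
          | succ N ih =>
            obtain ⟨y, hy⟩ := ih
            obtain ⟨z, hz⟩ := het w
            rw [hew] at hz
            refine ⟨Φ t y - z, ?_⟩
            have h2 : (Φ t ^ N) w = w + (p : ℤ_[p]) • y := by rw [← hy]; abel
            rw [pow_succ', Module.End.mul_apply, h2, map_add, map_smul, smul_sub, ← hz]
            abel
        obtain ⟨N0, hN0⟩ := h t ht (j + 1)
        obtain ⟨y, hy⟩ := hN0 N0 le_rfl
        obtain ⟨z, hz⟩ := h1 N0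
        have h3 : (Φ t ^ N0) (e a) = e ((Φ t ^ N0) a) := by
          have h4 := congrArg (fun f : Module.End ℤ_[p] A => f a) (hpow t N0)
          simp only [Module.End.mul_apply] at h4
          exact h4.symm
        rw [hw, hy, map_smul, map_smul, pow_succ, mul_smul] at h3
        have h5 := pow_inj p j h3
        refine ⟨e y - z, ?_⟩
        rw [hw, pow_succ, mul_smul]
        congr 1
        rw [smul_sub, ← hz, ← h5]
        abel
    obtain ⟨x, hx⟩ : ∃ x : A →ₗ[ℤ_[p]] ℤ_[p], x (e a) ≠ 0 := by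
      by_contra hcon
      push Not at hcon
      apply hne
      have b := Module.finBasis ℤ_[p] A
      apply b.ext_elem
      intro i
      rw [map_zero, Finsupp.zero_apply]
      exact hcon (b.coord i)
    have h1 : ∀ j : ℕ, (p : ℤ_[p]) ^ j ∣ x (e a) := by
      intro j
      obtain ⟨w, hw⟩ := hind j
      exact ⟨x w, by rw [hw, map_smul, smul_eq_mul]⟩
    have h2 := h1 ((x (e a)).valuation + 1)
    rw [← Ideal.mem_span_singleton, ← PadicInt.norm_le_pow_iff_mem_span_pow,
      PadicInt.norm_le_pow_iff_le_valuation _ hx] at h2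
    omega

variable {M : Type} [AddCommGroup M] [Module (ZMod p) M]

/-- the restriction of a reduction to a saturated submodule -/
def Red.sub (red : Red p A M) {B : Submodule ℤ_[p] A} (h : Sat B) : Red p B M where
  f := red.f.comp B.subtype.toAddMonoidHom
  ker a := by
    show red.f a = 0 ↔ _
    rw [red.ker]
    constructor
    · rintro ⟨y, hy⟩
      exact ⟨⟨y, h y (by rw [hy]; exact a.2)⟩, Subtype.ext hy⟩
    · rintro ⟨y, hy⟩
      exact ⟨y, congrArg Subtype.val hy⟩

omit [Module.Free ℤ_[p] A] [Module.Finite ℤ_[p] A] in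
theorem Red.sub_f (red : Red p A M) {B : Submodule ℤ_[p] A} (h : Sat B) (a : B) :
    (red.sub h).f a = red.f a := rfl

omit [Module.Free ℤ_[p] A] in
/-- The ranks of the two summands. -/
theorem rank_ker_range {e : Module.End ℤ_[p] A} (he : e * e = e) :
    Module.finrank ℤ_[p] (LinearMap.ker e) + Module.finrank ℤ_[p] (LinearMap.ker (1 - e)) =
      Module.finrank ℤ_[p] A := by
  have h1 : LinearMap.ker (1 - e) = LinearMap.range e := by
    ext x
    rw [LinearMap.mem_ker, LinearMap.sub_apply, Module.End.one_apply, sub_eq_zero]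
    constructor
    · intro h
      exact ⟨x, h.symm⟩
    · rintro ⟨y, rfl⟩
      exact (congrArg (fun f : Module.End ℤ_[p] A => f y) he).symm
  rw [h1, add_comm]
  have h2 := (LinearMap.quotKerEquivRange e).finrank_eq
  rw [← h2]
  exact Submodule.finrank_quotient_add_finrank (LinearMap.ker e)

/-- The counting argument for one weight. -/
theorem part_bounds {n : ℕ} {W : Module.End ℤ_[p] A} (hW : ∀ x, W (W x) = (p : ℤ_[p]) ^ n • x)
    (Φ : R →+* Module.End ℤ_[p] A) (I : Ideal R) {e : Module.End ℤ_[p] A}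
    {t : R} (ht : t ∈ I) (he : e * e = e) (het : ∀ a, ∃ y, e a - Φ t a = (p : ℤ_[p]) • y)
    (hbig : ∀ u ∈ I, ∃ k, 0 < k ∧ ∀ a, ∃ y, (Φ u ^ k) (a - Φ t a) = (p : ℤ_[p]) • y)
    (Ψ : R →+* Module.End (ZMod p) M) (red : Red p A M)
    (hred : ∀ u a, red.f (Φ u a) = Ψ u (red.f a)) (Mt : ℕ → Submodule (ZMod p) M)
    [∀ i, Module.Finite (ZMod p) (Mt i)]
    (hfil : ∀ s ≤ n, ∀ a ∈ Fs W s, red.f a ∈ Mt (n - s)) {c C δ : ℝ}
    (hc : ∀ i ≤ n, |(Module.finrank (ZMod p) (nilPart Ψ I (Mt i)) : ℝ) - c * i| ≤ C)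
    (hδ : (Module.finrank (ZMod p) (Mt n) : ℝ) ≤ Module.finrank ℤ_[p] A + δ)
    (hB : LinearMap.ker e ≤ (LinearMap.ker e).comap W) :
    |(Module.finrank ℤ_[p] (LinearMap.ker e) : ℝ) - c * n| ≤ C + δ ∧
    ∀ x ≤ n, |HH (W.restrict hB) x - c * x ^ 2 / 2| ≤ (2 * C + δ + 2 * |c|) * x := by
  classical
  set B := LinearMap.ker e with hBdef
  have hsat : Sat B := sat_ker e
  have hfinB : Module.Free ℤ_[p] B := inferInstance
  set redB := red.sub hsat with hredB
  -- powers
  have hredpow : ∀ (u : R) (k : ℕ) (a : A), red.f ((Φ u ^ k) a) = (Ψ u ^ k) (red.f a) := by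
    intro u k a
    rw [← map_pow, hred, map_pow]
  have hred0 : ∀ y : A, red.f ((p : ℤ_[p]) • y) = 0 := fun y => (red.ker _).2 ⟨y, rfl⟩
  -- the reduction of `B`
  have hnil : ∀ a ∈ B, ∀ u ∈ I, ∃ k : ℕ, (Ψ u ^ k) (red.f a) = 0 := by
    intro a ha u hu
    obtain ⟨k, -, hk⟩ := hbig u hu
    obtain ⟨y, hy⟩ := hk a
    obtain ⟨z, hz⟩ := het a
    refine ⟨k, ?_⟩
    have ha0 : e a = 0 := ha
    rw [ha0, zero_sub] at hz
    have h1 : red.f (Φ t a) = 0 := by
      rw [← neg_neg (Φ t a), hz, map_neg, hred0, neg_zero]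
    have h2 := congrArg red.f hy
    rwa [hredpow, map_sub, h1, sub_zero, hred0] at h2
  set f : ℕ → ℕ := fun i => Module.finrank (ZMod p) (nilPart Ψ I (Mt i)) with hf
  -- the upper bound
  have hup : ∀ s ≤ n, Module.finrank (ZMod p) (redB.img (Fs (W.restrict hB) s)) ≤ f (n - s) := by
    intro s hs
    have hfin : Module.Finite (ZMod p) (nilPart Ψ I (Mt (n - s))) :=
      Submodule.finiteDimensional_of_le (nilPart_le _ _ _)
    apply Submodule.finrank_mono
    rintro x ⟨a, ⟨y, hy⟩, rfl⟩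
    refine ⟨hfil s hs a ⟨y, congrArg Subtype.val hy⟩, fun u hu => hnil a a.2 u hu⟩
  have hWB : ∀ x : B, (W.restrict hB) ((W.restrict hB) x) = (p : ℤ_[p]) ^ n • x :=
    fun x => Subtype.ext (hW x)
  -- the rank of `B`
  have htop : Module.finrank (ZMod p) (redB.img ⊤) = Module.finrank ℤ_[p] B := redB.finrank_top
  have hB1 : Module.finrank ℤ_[p] B ≤ f n := by
    have h1 := hup 0 (Nat.zero_le n)
    rwa [Fs_zero, htop, Nat.sub_zero] at h1
  -- the rank of the complement
  have he' : (1 - e) * (1 - e) = 1 - e := by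
    rw [sub_mul, mul_sub, mul_sub, he]
    simp
  have hsat' : Sat (LinearMap.ker (1 - e)) := sat_ker _
  set redB' := red.sub hsat' with hredB'
  have htop' : Module.finrank (ZMod p) (redB'.img ⊤) =
      Module.finrank ℤ_[p] (LinearMap.ker (1 - e)) := redB'.finrank_top
  have hB2 : Module.finrank ℤ_[p] (LinearMap.ker (1 - e)) + f n ≤
      Module.finrank (ZMod p) (Mt n) := by
    have hle : redB'.img ⊤ ≤ Mt n := by
      rintro x ⟨a, -, rfl⟩
      have h1 := hfil 0 (Nat.zero_le n) a (by rw [Fs_zero]; trivial)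
      rwa [Nat.sub_zero] at h1
    have hdisj : Disjoint (redB'.img ⊤) (nilPart Ψ I (Mt n)) := by
      rw [Submodule.disjoint_def]
      rintro x ⟨a, -, rfl⟩ ⟨-, hx⟩
      obtain ⟨k, hk⟩ := hx t ht
      have ha : e a = a := by
        have h1 : (1 - e) (a : A) = 0 := a.2
        rw [LinearMap.sub_apply, Module.End.one_apply, sub_eq_zero] at h1
        exact h1.symm
      have h2 : Ψ t (red.f a) = red.f a := by
        obtain ⟨z, hz⟩ := het a
        rw [ha] at hz
        have h3 := congrArg red.f hz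
        rw [map_sub, hred, hred0, sub_eq_zero] at h3
        exact h3.symm
      have h3 : ∀ k : ℕ, (Ψ t ^ k) (red.f a) = red.f a := by
        intro k
        induction k with
        | zero => simp
        | succ k ih => rw [pow_succ, Module.End.mul_apply, h2, ih]
      exact (h3 k).symm.trans hk
    have hfin1 : Module.Finite (ZMod p) (redB'.img ⊤) := Submodule.finiteDimensional_of_le hle
    have hfin2 : Module.Finite (ZMod p) (nilPart Ψ I (Mt n)) :=
      Submodule.finiteDimensional_of_le (nilPart_le _ _ _)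
    have h1 := Submodule.finrank_sup_add_finrank_inf_eq (redB'.img ⊤) (nilPart Ψ I (Mt n))
    rw [hdisj.eq_bot, finrank_bot, add_zero] at h1
    rw [← htop', hf]
    rw [← h1]
    exact Submodule.finrank_mono (sup_le hle (nilPart_le _ _ _))
  have hB3 := rank_ker_range he
  rw [← hBdef] at hB3
  have hrank : (f n : ℝ) - δ ≤ Module.finrank ℤ_[p] B := by
    have h1 : ((Module.finrank ℤ_[p] (LinearMap.ker (1 - e)) : ℕ) : ℝ) + f n ≤
      Module.finrank (ZMod p) (Mt n) := by exact_mod_cast hB2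
    have h2 : ((Module.finrank ℤ_[p] B : ℕ) : ℝ) +
        Module.finrank ℤ_[p] (LinearMap.ker (1 - e)) = Module.finrank ℤ_[p] A := by
      exact_mod_cast hB3
    linarith
  have hB1' : (Module.finrank ℤ_[p] B : ℝ) ≤ f n := by exact_mod_cast hB1
  have hδ0 : 0 ≤ δ := by linarith
  have hcn := abs_le.1 (hc n le_rfl)
  refine ⟨?_, ?_⟩
  · rw [abs_le]
    constructor <;> linarith [hcn.1, hcn.2]
  intro x hx
  rw [HH_eq hWB redB (by omega)]
  -- termwise
  have hterm : ∀ k ∈ range x, |(Module.finrank (ZMod p)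
      (redB.img (Fs (W.restrict hB) (n - k))) : ℝ) - c * k| ≤ 2 * C + δ + |c| := by
    intro k hk
    rw [Finset.mem_range] at hk
    have hkn : k < n := by omega
    have h1 : (Module.finrank (ZMod p) (redB.img (Fs (W.restrict hB) (n - k))) : ℝ) ≤ f k := by
      have := hup (n - k) (by omega)
      rw [Nat.sub_sub_self hkn.le] at this
      exact_mod_cast this
    have h2 := finrank_add hWB redB hkn
    have h3 : (Module.finrank (ZMod p) (redB.img (Fs (W.restrict hB) (k + 1))) : ℝ) ≤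
        f (n - (k + 1)) := by exact_mod_cast hup (k + 1) hkn
    have h4 : ((Module.finrank (ZMod p) (redB.img (Fs (W.restrict hB) (k + 1))) : ℕ) : ℝ) +
        Module.finrank (ZMod p) (redB.img (Fs (W.restrict hB) (n - k))) =
        Module.finrank ℤ_[p] B := by exact_mod_cast h2
    have h5 := abs_le.1 (hc k hkn.le)
    have h6 := abs_le.1 (hc (n - (k + 1)) (Nat.sub_le _ _))
    have h7 : ((n - (k + 1) : ℕ) : ℝ) = (n : ℝ) - (k + 1) := by
      rw [Nat.cast_sub hkn]
      push_cast
      ring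
    rw [h7] at h6
    have h8 := abs_nonneg c
    have h9 := le_abs_self c
    have h10 := neg_abs_le c
    have hC0 : 0 ≤ C := (abs_nonneg _).trans (hc n le_rfl)
    rw [abs_le]
    constructor
    · nlinarith [h6.1, h6.2, hcn.1, hcn.2]
    · linarith [h5.1, h5.2]
  have hsum : ∑ k ∈ range x, (c * (k : ℝ)) = c * (x * (x - 1) / 2) := by
    rw [← Finset.mul_sum]
    congr 1
    have : ∀ x : ℕ, ∑ k ∈ range x, (k : ℝ) = x * (x - 1) / 2 := by
      intro x
      induction x with
      | zero => simp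
      | succ x ih => rw [Finset.sum_range_succ, ih]; push_cast; ring
    exact this x
  have habs := Finset.abs_sum_le_sum_abs (fun k => (Module.finrank (ZMod p)
      (redB.img (Fs (W.restrict hB) (n - k))) : ℝ) - c * k) (range x)
  have habs2 := Finset.sum_le_sum hterm
  rw [Finset.sum_const, Finset.card_range, nsmul_eq_mul] at habs2
  rw [Finset.sum_sub_distrib, hsum] at habs
  have h1 := abs_le.1 (habs.trans habs2)
  have h8 := abs_nonneg c
  have h9 := mul_le_mul_of_nonneg_right (le_abs_self c) (Nat.cast_nonneg (α := ℝ) x)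
  have h10 := mul_le_mul_of_nonneg_right (neg_abs_le c) (Nat.cast_nonneg (α := ℝ) x)
  have h11 : 0 ≤ |c| * x := by positivity
  rw [abs_le]
  constructor <;> nlinarith [h1.1, h1.2]

end Gouvea.P5
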