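import Mathlib

/-!
# P5: an upper bound for the dimension of a space of partial modular symbols (MP_d3517d_nt)

`G = SL(2, ℤ)`, `Γ ≤ Γ₁ ≤ G` of finite index, `T ∈ Γ₁`, `S ∉ Γ₁`, `V` a finite dimensional
`Γ`-module over a field (`-1` acts trivially). `Sy` is the space of the additive `Γ`-equivariant
functions on pairs of elements of `Γ₁` which vanish on `(g, gT)` and `(g, -g)` (functions on pairs
of cusps in `Γ₁ ∞`). Then

`dim Sy + dim Y ≤ dim ker (1 + S | Y) + dim ker (1 + R + R² | Y)`, `Y = Ind_Γ^G V`.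

Only the fact that `S, T` generate `G` is used.
-/

open Matrix ModularGroup Module

noncomputable section

namespace Gouvea.P5

/-- the modular group -/
abbrev G : Type := Matrix.SpecialLinearGroup (Fin 2) ℤ

/-- the element `(-1 1; -1 0)` of order three, `R S = T` -/
def Re : G := ⟨!![-1, 1; -1, 0], by simp [det_fin_two]⟩

lemma Re_mul_S : Re * S = T := by
  refine Matrix.SpecialLinearGroup.ext _ _ fun i j => ?_
  rw [Matrix.SpecialLinearGroup.coe_mul]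
  have h : ((Re : Matrix (Fin 2) (Fin 2) ℤ) * (S : Matrix (Fin 2) (Fin 2) ℤ)) =
      (T : Matrix (Fin 2) (Fin 2) ℤ) := by
    show (!![-1, 1; -1, 0] * !![0, -1; 1, 0] : Matrix (Fin 2) (Fin 2) ℤ) = !![1, 1; 0, 1]
    rw [Matrix.mul_fin_two]
    norm_num
  rw [h]

lemma Re_cube : Re * Re * Re = 1 := by
  refine Matrix.SpecialLinearGroup.ext _ _ fun i j => ?_
  rw [Matrix.SpecialLinearGroup.coe_mul, Matrix.SpecialLinearGroup.coe_mul,
    Matrix.SpecialLinearGroup.coe_one]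
  have h : ((Re : Matrix (Fin 2) (Fin 2) ℤ) * (Re : Matrix (Fin 2) (Fin 2) ℤ) *
      (Re : Matrix (Fin 2) (Fin 2) ℤ)) = 1 := by
    show (!![-1, 1; -1, 0] * !![-1, 1; -1, 0] * !![-1, 1; -1, 0] : Matrix (Fin 2) (Fin 2) ℤ) = 1
    rw [Matrix.mul_fin_two, Matrix.mul_fin_two, Matrix.one_fin_two]
    norm_num
  rw [h]

lemma S_mul_S : S * S = (-1 : G) := by
  refine Matrix.SpecialLinearGroup.ext _ _ fun i j => ?_
  rw [Matrix.SpecialLinearGroup.coe_mul, Matrix.SpecialLinearGroup.coe_neg,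
    Matrix.SpecialLinearGroup.coe_one]
  have h : ((S : Matrix (Fin 2) (Fin 2) ℤ) * (S : Matrix (Fin 2) (Fin 2) ℤ)) = -1 := by
    show (!![0, -1; 1, 0] * !![0, -1; 1, 0] : Matrix (Fin 2) (Fin 2) ℤ) = -1
    rw [Matrix.mul_fin_two, Matrix.one_fin_two]
    norm_num
  rw [h]

variable {k : Type} [Field k] {V : Type} [AddCommGroup V] [Module k V]

/-- `ρ` is an action of `Γ`, `-1` acts trivially. -/
structure IsAct (Γ : Subgroup G) (ρ : G → V →ₗ[k] V) : Prop where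
  one : ρ 1 = LinearMap.id
  mul : ∀ γ ∈ Γ, ∀ δ ∈ Γ, ∀ v, ρ (γ * δ) v = ρ γ (ρ δ v)
  neg_mem : (-1 : G) ∈ Γ
  neg : ρ (-1) = LinearMap.id

/-- The induced module. -/
def Ind (Γ : Subgroup G) (ρ : G → V →ₗ[k] V) : Submodule k (G → V) where
  carrier := {F | ∀ γ ∈ Γ, ∀ g, F (γ * g) = ρ γ (F g)}
  add_mem' := fun {F F'} h h' γ hγ g => by
    simp only [Pi.add_apply, map_add, h γ hγ, h' γ hγ]
  zero_mem' := fun γ _ g => by simp
  smul_mem' := fun c F h γ hγ g => by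
    simp only [Pi.smul_apply, map_smul, h γ hγ]

/-- right cosets `Γ g` -/
abbrev Qt (Γ : Subgroup G) : Type := Quotient (QuotientGroup.rightRel Γ)

/-- the coset of `g` -/
def qt (Γ : Subgroup G) (g : G) : Qt Γ := Quotient.mk _ g

/-- the `Γ`-part of `g` -/
def kap (Γ : Subgroup G) (g : G) : G := g * (qt Γ g).out⁻¹

lemma kap_mem (Γ : Subgroup G) (g : G) : kap Γ g ∈ Γ := by
  have h : (QuotientGroup.rightRel Γ).r (qt Γ g).out g := Quotient.exact (Quotient.out_eq _)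
  exact QuotientGroup.rightRel_apply.1 h

lemma kap_mul_out (Γ : Subgroup G) (g : G) : kap Γ g * (qt Γ g).out = g := by
  unfold kap
  group

lemma qt_mul {Γ : Subgroup G} {γ : G} (hγ : γ ∈ Γ) (g : G) : qt Γ (γ * g) = qt Γ g := by
  refine Quotient.sound ?_
  show (QuotientGroup.rightRel Γ).r _ _
  rw [QuotientGroup.rightRel_apply]
  have : g * (γ * g)⁻¹ = γ⁻¹ := by group
  rw [this]
  exact Γ.inv_mem hγ

lemma qt_eq {Γ : Subgroup G} {g h : G} : qt Γ g = qt Γ h ↔ h * g⁻¹ ∈ Γ := by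
  constructor
  · intro h1
    exact QuotientGroup.rightRel_apply.1 (Quotient.exact h1)
  · intro h1
    exact Quotient.sound (QuotientGroup.rightRel_apply.2 h1)

lemma qt_out {Γ : Subgroup G} (q : Qt Γ) : qt Γ q.out = q := Quotient.out_eq q

lemma kap_mul {Γ : Subgroup G} {γ : G} (hγ : γ ∈ Γ) (g : G) : kap Γ (γ * g) = γ * kap Γ g := by
  unfold kap
  rw [qt_mul hγ, mul_assoc]

lemma kap_out {Γ : Subgroup G} (q : Qt Γ) : kap Γ q.out = 1 := by
  unfold kap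
  rw [qt_out, mul_inv_cancel]

variable {Γ : Subgroup G} {ρ : G → V →ₗ[k] V}

lemma Ind_apply {F : G → V} (hF : F ∈ Ind Γ ρ) (g : G) :
    F g = ρ (kap Γ g) (F (qt Γ g).out) := by
  have h := hF (kap Γ g) (kap_mem Γ g) (qt Γ g).out
  rw [kap_mul_out] at h
  exact h

/-- `Ind ≃ (cosets → V)` -/
def indEquiv (hρ : IsAct Γ ρ) : Ind Γ ρ ≃ₗ[k] (Qt Γ → V) where
  toFun F q := F.1 q.out
  map_add' F F' := rfl
  map_smul' c F := rfl
  invFun f := ⟨fun g => ρ (kap Γ g) (f (qt Γ g)), fun γ hγ g => by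
    show ρ (kap Γ (γ * g)) (f (qt Γ (γ * g))) = _
    rw [kap_mul hγ, qt_mul hγ, hρ.mul γ hγ _ (kap_mem Γ g)]⟩
  left_inv F := by
    refine Subtype.ext (funext fun g => ?_)
    exact (Ind_apply F.2 g).symm
  right_inv f := by
    funext q
    show ρ (kap Γ q.out) (f (qt Γ q.out)) = f q
    rw [kap_out, qt_out, hρ.one, LinearMap.id_apply]

lemma finrank_Ind [Finite (Qt Γ)] [FiniteDimensional k V] (hρ : IsAct Γ ρ) :
    finrank k (Ind Γ ρ) = Nat.card (Qt Γ) * finrank k V := by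
  have := Fintype.ofFinite (Qt Γ)
  rw [(indEquiv hρ).finrank_eq, Module.finrank_pi_fintype, Finset.sum_const, Finset.card_univ,
    Nat.card_eq_fintype_card, smul_eq_mul]

lemma finiteDimensional_Ind [Finite (Qt Γ)] [FiniteDimensional k V] (hρ : IsAct Γ ρ) :
    FiniteDimensional k (Ind Γ ρ) :=
  haveI := Fintype.ofFinite (Qt Γ)
  (indEquiv hρ).symm.finiteDimensional

/-! ### the two kernels -/

/-- `ker (1 + S)` on the induced module -/
def KS (Γ : Subgroup G) (ρ : G → V →ₗ[k] V) : Submodule k (G → V) where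
  carrier := {F | F ∈ Ind Γ ρ ∧ ∀ g, F g + F (g * S) = 0}
  add_mem' := fun {F F'} h h' => ⟨(Ind Γ ρ).add_mem h.1 h'.1, fun g => by
    have h1 := h.2 g
    have h2 := h'.2 g
    simp only [Pi.add_apply]
    calc F g + F' g + (F (g * S) + F' (g * S)) = (F g + F (g * S)) + (F' g + F' (g * S)) := by abel
      _ = 0 := by rw [h1, h2, add_zero]⟩
  zero_mem' := ⟨(Ind Γ ρ).zero_mem, fun g => by simp⟩
  smul_mem' := fun c F h => ⟨(Ind Γ ρ).smul_mem c h.1, fun g => by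
    simp only [Pi.smul_apply]
    rw [← smul_add, h.2 g, smul_zero]⟩

/-- `ker (1 + R + R²)` on the induced module -/
def KR (Γ : Subgroup G) (ρ : G → V →ₗ[k] V) : Submodule k (G → V) where
  carrier := {F | F ∈ Ind Γ ρ ∧ ∀ g, F g + F (g * Re) + F (g * Re * Re) = 0}
  add_mem' := fun {F F'} h h' => ⟨(Ind Γ ρ).add_mem h.1 h'.1, fun g => by
    have h1 := h.2 g
    have h2 := h'.2 g
    simp only [Pi.add_apply]
    calc F g + F' g + (F (g * Re) + F' (g * Re)) + (F (g * Re * Re) + F' (g * Re * Re)) =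
        (F g + F (g * Re) + F (g * Re * Re)) + (F' g + F' (g * Re) + F' (g * Re * Re)) := by abel
      _ = 0 := by rw [h1, h2, add_zero]⟩
  zero_mem' := ⟨(Ind Γ ρ).zero_mem, fun g => by simp⟩
  smul_mem' := fun c F h => ⟨(Ind Γ ρ).smul_mem c h.1, fun g => by
    simp only [Pi.smul_apply]
    rw [← smul_add, ← smul_add, h.2 g, smul_zero]⟩

lemma KS_le : KS Γ ρ ≤ Ind Γ ρ := fun _ h => h.1

lemma KR_le : KR Γ ρ ≤ Ind Γ ρ := fun _ h => h.1

/-! ### the space of symbols -/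

/-- Additive `Γ`-equivariant functions on pairs of elements of `Γ₁`, vanishing on `(g, gT)` and
`(g, -g)`. -/
def Sy (Γ Γ₁ : Subgroup G) (ρ : G → V →ₗ[k] V) : Submodule k (Γ₁ → Γ₁ → V) where
  carrier := {φ | (∀ x y z, φ x y + φ y z = φ x z) ∧
    (∀ γ : Γ₁, γ.1 ∈ Γ → ∀ x y, φ (γ * x) (γ * y) = ρ γ.1 (φ x y)) ∧
    (∀ x y : Γ₁, y.1 = x.1 * T → φ x y = 0) ∧ (∀ x y : Γ₁, y.1 = x.1 * (-1) → φ x y = 0)}
  add_mem' := by
    rintro φ ψ ⟨h1, h2, h3, h4⟩ ⟨h1', h2', h3', h4'⟩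
    refine ⟨fun x y z => ?_, fun γ hγ x y => ?_, fun x y h => ?_, fun x y h => ?_⟩
    · simp only [Pi.add_apply]
      rw [← h1 x y z, ← h1' x y z]
      abel
    · simp only [Pi.add_apply, map_add, h2 γ hγ, h2' γ hγ]
    · simp only [Pi.add_apply, h3 x y h, h3' x y h, add_zero]
    · simp only [Pi.add_apply, h4 x y h, h4' x y h, add_zero]
  zero_mem' := ⟨fun x y z => by simp, fun γ _ x y => by simp, fun x y _ => by simp,
    fun x y _ => by simp⟩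
  smul_mem' := by
    rintro c φ ⟨h1, h2, h3, h4⟩
    refine ⟨fun x y z => ?_, fun γ hγ x y => ?_, fun x y h => ?_, fun x y h => ?_⟩
    · simp only [Pi.smul_apply]
      rw [← smul_add, h1 x y z]
    · simp only [Pi.smul_apply, map_smul, h2 γ hγ]
    · simp only [Pi.smul_apply, h3 x y h, smul_zero]
    · simp only [Pi.smul_apply, h4 x y h, smul_zero]

section main

variable {Γ₁ : Subgroup G}

open Classical in
/-- the equivariant retraction `G → Γ₁` -/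
def tau (hle : Γ ≤ Γ₁) (g : G) : Γ₁ :=
  if h : g ∈ Γ₁ then ⟨g, h⟩ else ⟨kap Γ g, hle (kap_mem Γ g)⟩

lemma tau_of_mem (hle : Γ ≤ Γ₁) {g : G} (h : g ∈ Γ₁) : tau hle g = ⟨g, h⟩ := by
  unfold tau
  rw [dif_pos h]

lemma tau_mul (hle : Γ ≤ Γ₁) {γ : G} (hγ : γ ∈ Γ) (g : G) :
    tau hle (γ * g) = ⟨γ, hle hγ⟩ * tau hle g := by
  unfold tau
  by_cases h : g ∈ Γ₁
  · rw [dif_pos (Γ₁.mul_mem (hle hγ) h), dif_pos h]
    rfl
  · have h' : ¬ γ * g ∈ Γ₁ := fun h1 => h (by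
      have := Γ₁.mul_mem (Γ₁.inv_mem (hle hγ)) h1
      rwa [inv_mul_cancel_left] at this)
    rw [dif_neg h', dif_neg h]
    refine Subtype.ext ?_
    exact kap_mul hγ g

/-- the extended two point function -/
def Cf (hle : Γ ≤ Γ₁) (φ : Γ₁ → Γ₁ → V) (F : G → V) (g h : G) : V :=
  φ (tau hle g) (tau hle h) + F h - F g

lemma Cf_add_Cf (hle : Γ ≤ Γ₁) {φ : Γ₁ → Γ₁ → V} (hφ : φ ∈ Sy Γ Γ₁ ρ) (F : G → V) (g h l : G) :
    Cf hle φ F g h + Cf hle φ F h l = Cf hle φ F g l := by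
  unfold Cf
  rw [← hφ.1 (tau hle g) (tau hle h) (tau hle l)]
  abel

lemma Cf_mul (hle : Γ ≤ Γ₁) {φ : Γ₁ → Γ₁ → V} (hφ : φ ∈ Sy Γ Γ₁ ρ) {F : G → V}
    (hF : F ∈ Ind Γ ρ) {γ : G} (hγ : γ ∈ Γ) (g h : G) :
    Cf hle φ F (γ * g) (γ * h) = ρ γ (Cf hle φ F g h) := by
  unfold Cf
  rw [tau_mul hle hγ, tau_mul hle hγ, hφ.2.1 ⟨γ, hle hγ⟩ hγ, hF γ hγ, hF γ hγ, map_sub, map_add]

lemma Cf_self (hle : Γ ≤ Γ₁) {φ : Γ₁ → Γ₁ → V} (hφ : φ ∈ Sy Γ Γ₁ ρ) (F : G → V) (g : G) :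
    Cf hle φ F g g = 0 := by
  have h := Cf_add_Cf hle hφ F g g g
  simpa using h

lemma Cf_neg (hρ : IsAct Γ ρ) (hle : Γ ≤ Γ₁) {φ : Γ₁ → Γ₁ → V} (hφ : φ ∈ Sy Γ Γ₁ ρ) {F : G → V}
    (hF : F ∈ Ind Γ ρ) (g : G) : Cf hle φ F g (g * -1) = 0 := by
  have h1 : g * (-1 : G) = -1 * g := by
    ext i j
    simp
  unfold Cf
  rw [h1, hF (-1) hρ.neg_mem, hρ.neg, LinearMap.id_apply, add_sub_cancel_right]
  refine hφ.2.2.2 _ _ ?_
  rw [tau_mul hle hρ.neg_mem]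
  show (-1 : G) * (tau hle g).1 = (tau hle g).1 * -1
  ext i j
  simp

lemma Cf_T (hle : Γ ≤ Γ₁) (hT : T ∈ Γ₁) {φ : Γ₁ → Γ₁ → V} (hφ : φ ∈ Sy Γ Γ₁ ρ) {F : G → V}
    (hF0 : ∀ g ∈ Γ₁, F g = 0) {g : G} (hg : g ∈ Γ₁) : Cf hle φ F g (g * T) = 0 := by
  unfold Cf
  rw [hF0 g hg, hF0 _ (Γ₁.mul_mem hg hT), tau_of_mem hle hg, tau_of_mem hle (Γ₁.mul_mem hg hT),
    hφ.2.2.1 _ _ rfl]
  simp

/-- functions in `Ind` vanishing on `Γ₁` -/
def Y0 (Γ Γ₁ : Subgroup G) (ρ : G → V →ₗ[k] V) : Submodule k (G → V) where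
  carrier := {F | F ∈ Ind Γ ρ ∧ ∀ g ∈ Γ₁, F g = 0}
  add_mem' := fun {F F'} h h' => ⟨(Ind Γ ρ).add_mem h.1 h'.1, fun g hg => by
    simp only [Pi.add_apply, h.2 g hg, h'.2 g hg, add_zero]⟩
  zero_mem' := ⟨(Ind Γ ρ).zero_mem, fun g _ => rfl⟩
  smul_mem' := fun c F h => ⟨(Ind Γ ρ).smul_mem c h.1, fun g hg => by
    simp only [Pi.smul_apply, h.2 g hg, smul_zero]⟩

/-- functions in `Ind` vanishing outside `Γ₁` -/
def Y1 (Γ Γ₁ : Subgroup G) (ρ : G → V →ₗ[k] V) : Submodule k (G → V) where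
  carrier := {F | F ∈ Ind Γ ρ ∧ ∀ g, g ∉ Γ₁ → F g = 0}
  add_mem' := fun {F F'} h h' => ⟨(Ind Γ ρ).add_mem h.1 h'.1, fun g hg => by
    simp only [Pi.add_apply, h.2 g hg, h'.2 g hg, add_zero]⟩
  zero_mem' := ⟨(Ind Γ ρ).zero_mem, fun g _ => rfl⟩
  smul_mem' := fun c F h => ⟨(Ind Γ ρ).smul_mem c h.1, fun g hg => by
    simp only [Pi.smul_apply, h.2 g hg, smul_zero]⟩

open Classical in
/-- restriction to `Γ₁` -/
def res1 (hle : Γ ≤ Γ₁) (ρ : G → V →ₗ[k] V) : Ind Γ ρ →ₗ[k] Y1 Γ Γ₁ ρ where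
  toFun F := ⟨fun g => if g ∈ Γ₁ then F.1 g else 0, fun γ hγ g => by
      have h1 : γ * g ∈ Γ₁ ↔ g ∈ Γ₁ := ⟨fun h => by
        have := Γ₁.mul_mem (Γ₁.inv_mem (hle hγ)) h
        rwa [inv_mul_cancel_left] at this, fun h => Γ₁.mul_mem (hle hγ) h⟩
      show (if γ * g ∈ Γ₁ then F.1 (γ * g) else 0) = ρ γ (if g ∈ Γ₁ then F.1 g else 0)
      by_cases h : g ∈ Γ₁
      · rw [if_pos h, if_pos (h1.2 h), F.2 γ hγ]
      · rw [if_neg h, if_neg (fun h' => h (h1.1 h')), map_zero], fun g hg => if_neg hg⟩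
  map_add' F F' := by
    refine Subtype.ext (funext fun g => ?_)
    show (if g ∈ Γ₁ then F.1 g + F'.1 g else 0) =
      (if g ∈ Γ₁ then F.1 g else 0) + (if g ∈ Γ₁ then F'.1 g else 0)
    split_ifs
    · rfl
    · simp
  map_smul' c F := by
    refine Subtype.ext (funext fun g => ?_)
    show (if g ∈ Γ₁ then c • F.1 g else 0) = c • (if g ∈ Γ₁ then F.1 g else 0)
    split_ifs
    · rfl
    · simp

open Classical in
lemma finrank_Y0_add_Y1 [Finite (Qt Γ)] [FiniteDimensional k V] (hρ : IsAct Γ ρ) (hle : Γ ≤ Γ₁) :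
    finrank k (Y0 Γ Γ₁ ρ) + finrank k (Y1 Γ Γ₁ ρ) = finrank k (Ind Γ ρ) := by
  have := finiteDimensional_Ind hρ
  have h1 := LinearMap.finrank_range_add_finrank_ker (res1 hle ρ)
  have h2 : LinearMap.range (res1 hle ρ) = ⊤ := by
    rw [LinearMap.range_eq_top]
    intro F
    refine ⟨⟨F.1, F.2.1⟩, Subtype.ext (funext fun g => ?_)⟩
    show (if g ∈ Γ₁ then F.1 g else 0) = F.1 g
    by_cases h : g ∈ Γ₁
    · rw [if_pos h]
    · rw [if_neg h, F.2.2 g h]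
  have h3 : finrank k (LinearMap.ker (res1 hle ρ)) = finrank k (Y0 Γ Γ₁ ρ) := by
    refine LinearEquiv.finrank_eq
      { toFun := fun F => ⟨F.1.1, F.1.2, fun g hg => ?_⟩
        map_add' := fun _ _ => rfl
        map_smul' := fun _ _ => rfl
        invFun := fun F => ⟨⟨F.1, F.2.1⟩, ?_⟩
        left_inv := fun _ => rfl
        right_inv := fun _ => rfl }
    · have h4 := congrFun (congrArg Subtype.val (LinearMap.mem_ker.1 F.2)) g
      change (if g ∈ Γ₁ then F.1.1 g else 0) = 0 at h4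
      rwa [if_pos hg] at h4
    · rw [LinearMap.mem_ker]
      refine Subtype.ext (funext fun g => ?_)
      show (if g ∈ Γ₁ then F.1 g else 0) = 0
      split_ifs with h
      · exact F.2.2 g h
      · rfl
  rw [h2, finrank_top] at h1
  omega

/-- the condition at the cusps in `Γ₁ ∞` -/
def Kc (Γ Γ₁ : Subgroup G) (ρ : G → V →ₗ[k] V) : Submodule k ((G → V) × (G → V)) where
  carrier := {p | p.1 ∈ KS Γ ρ ∧ p.2 ∈ KR Γ ρ ∧ ∀ g ∈ Γ₁, p.2 g + p.1 (g * Re) = 0}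
  add_mem' := by
    rintro p p' ⟨h1, h2, h3⟩ ⟨h1', h2', h3'⟩
    refine ⟨(KS Γ ρ).add_mem h1 h1', (KR Γ ρ).add_mem h2 h2', fun g hg => ?_⟩
    have := h3 g hg
    have := h3' g hg
    simp only [Prod.snd_add, Prod.fst_add, Pi.add_apply]
    calc p.2 g + p'.2 g + (p.1 (g * Re) + p'.1 (g * Re)) =
        (p.2 g + p.1 (g * Re)) + (p'.2 g + p'.1 (g * Re)) := by abel
      _ = 0 := by rw [h3 g hg, h3' g hg, add_zero]
  zero_mem' := ⟨(KS Γ ρ).zero_mem, (KR Γ ρ).zero_mem, fun g _ => by simp⟩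
  smul_mem' := by
    rintro c p ⟨h1, h2, h3⟩
    refine ⟨(KS Γ ρ).smul_mem c h1, (KR Γ ρ).smul_mem c h2, fun g hg => ?_⟩
    simp only [Prod.smul_snd, Prod.smul_fst, Pi.smul_apply]
    rw [← smul_add, h3 g hg, smul_zero]

/-- the map `(φ, F) ↦ (C(g, gS), C(g, gR))` -/
def Psi (hρ : IsAct Γ ρ) (hle : Γ ≤ Γ₁) (hT : T ∈ Γ₁) :
    (Sy Γ Γ₁ ρ × Y0 Γ Γ₁ ρ) →ₗ[k] Kc Γ Γ₁ ρ where
  toFun p := ⟨(fun g => Cf hle p.1.1 p.2.1 g (g * S), fun g => Cf hle p.1.1 p.2.1 g (g * Re)), by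
    obtain ⟨⟨φ, hφ⟩, ⟨F, hF, hF0⟩⟩ := p
    refine ⟨⟨fun γ hγ g => ?_, fun g => ?_⟩, ⟨fun γ hγ g => ?_, fun g => ?_⟩, fun g hg => ?_⟩
    · show Cf hle φ F (γ * g) (γ * g * S) = _
      rw [mul_assoc, Cf_mul hle hφ hF hγ]
    · show Cf hle φ F g (g * S) + Cf hle φ F (g * S) (g * S * S) = 0
      rw [Cf_add_Cf hle hφ, mul_assoc, S_mul_S]
      exact Cf_neg hρ hle hφ hF g
    · show Cf hle φ F (γ * g) (γ * g * Re) = _
      rw [mul_assoc, Cf_mul hle hφ hF hγ]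
    · show Cf hle φ F g (g * Re) + Cf hle φ F (g * Re) (g * Re * Re) +
        Cf hle φ F (g * Re * Re) (g * Re * Re * Re) = 0
      rw [Cf_add_Cf hle hφ, Cf_add_Cf hle hφ, mul_assoc g, mul_assoc g, Re_cube, mul_one]
      exact Cf_self hle hφ F g
    · show Cf hle φ F g (g * Re) + Cf hle φ F (g * Re) (g * Re * S) = 0
      rw [Cf_add_Cf hle hφ, mul_assoc, Re_mul_S]
      exact Cf_T hle hT hφ hF0 hg⟩
  map_add' p p' := by
    refine Subtype.ext (Prod.ext (funext fun g => ?_) (funext fun g => ?_))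
    · show Cf hle (p.1.1 + p'.1.1) (p.2.1 + p'.2.1) g (g * S) = _ + _
      unfold Cf
      simp only [Pi.add_apply]
      abel
    · show Cf hle (p.1.1 + p'.1.1) (p.2.1 + p'.2.1) g (g * Re) = _ + _
      unfold Cf
      simp only [Pi.add_apply]
      abel
  map_smul' c p := by
    refine Subtype.ext (Prod.ext (funext fun g => ?_) (funext fun g => ?_))
    · show Cf hle (c • p.1.1) (c • p.2.1) g (g * S) = c • _
      unfold Cf
      simp only [Pi.smul_apply, smul_add, smul_sub]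
    · show Cf hle (c • p.1.1) (c • p.2.1) g (g * Re) = c • _
      unfold Cf
      simp only [Pi.smul_apply, smul_add, smul_sub]

lemma Psi_injective (hρ : IsAct Γ ρ) (hle : Γ ≤ Γ₁) (hT : T ∈ Γ₁) :
    Function.Injective (Psi hρ hle hT) := by
  rw [← LinearMap.ker_eq_bot, LinearMap.ker_eq_bot']
  rintro ⟨⟨φ, hφ⟩, ⟨F, hF, hF0⟩⟩ h
  have h1 : ∀ g, Cf hle φ F g (g * S) = 0 := fun g =>
    congrFun (congrArg (fun p => p.1.1) h) g
  have h2 : ∀ g, Cf hle φ F g (g * Re) = 0 := fun g =>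
    congrFun (congrArg (fun p => p.1.2) h) g
  have hTT : ∀ g, Cf hle φ F g (g * T) = 0 := by
    intro g
    have h3 := Cf_add_Cf hle hφ F g (g * Re) (g * Re * S)
    rw [h2, h1, add_zero, mul_assoc, Re_mul_S] at h3
    exact h3.symm
  have key : ∀ w : G, ∀ g, Cf hle φ F g (g * w) = 0 := by
    intro w
    have hw : w ∈ Subgroup.closure ({S, T} : Set G) := by
      rw [SpecialLinearGroup.SL2Z_generators]
      exact Subgroup.mem_top w
    induction hw using Subgroup.closure_induction with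
    | mem x hx =>
      rcases hx with rfl | hx
      · exact h1
      · rw [Set.mem_singleton_iff] at hx
        subst hx
        exact hTT
    | one => exact fun g => by rw [mul_one]; exact Cf_self hle hφ F g
    | mul x y _ _ hx hy =>
      intro g
      rw [← mul_assoc, ← Cf_add_Cf hle hφ F g (g * x), hx, hy, add_zero]
    | inv x _ hx =>
      intro g
      have h3 := hx (g * x⁻¹)
      rw [inv_mul_cancel_right] at h3
      have h4 := Cf_add_Cf hle hφ F g (g * x⁻¹) g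
      rw [h3, add_zero, Cf_self hle hφ] at h4
      exact h4
  have key' : ∀ g h, Cf hle φ F g h = 0 := fun g h => by
    have := key (g⁻¹ * h) g
    rwa [mul_inv_cancel_left] at this
  have hφ0 : φ = 0 := by
    funext x y
    have := key' x.1 y.1
    unfold Cf at this
    rw [hF0 x.1 x.2, hF0 y.1 y.2, tau_of_mem hle x.2, tau_of_mem hle y.2, add_zero,
      sub_zero] at this
    exact this
  have hFz : F = 0 := by
    funext g
    have := key' 1 g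
    unfold Cf at this
    rw [hφ0, hF0 1 Γ₁.one_mem, sub_zero] at this
    simpa using this
  refine Prod.ext (Subtype.ext hφ0) (Subtype.ext hFz)

/-- The condition map before restriction. -/
def Th0 (Γ : Subgroup G) (ρ : G → V →ₗ[k] V) : (KS Γ ρ × KR Γ ρ) →ₗ[k] Ind Γ ρ where
  toFun p := ⟨fun g => p.2.1 g + p.1.1 (g * Re), fun γ hγ g => by
    show p.2.1 (γ * g) + p.1.1 (γ * g * Re) = ρ γ (p.2.1 g + p.1.1 (g * Re))
    rw [p.2.2.1 γ hγ, mul_assoc, p.1.2.1 γ hγ, map_add]⟩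
  map_add' p p' := by
    refine Subtype.ext (funext fun g => ?_)
    show p.2.1 g + p'.2.1 g + (p.1.1 (g * Re) + p'.1.1 (g * Re)) =
      p.2.1 g + p.1.1 (g * Re) + (p'.2.1 g + p'.1.1 (g * Re))
    abel
  map_smul' c p := by
    refine Subtype.ext (funext fun g => ?_)
    show c • p.2.1 g + c • p.1.1 (g * Re) = c • (p.2.1 g + p.1.1 (g * Re))
    rw [smul_add]

/-- The condition map. -/
def Th (hle : Γ ≤ Γ₁) : (KS Γ ρ × KR Γ ρ) →ₗ[k] Y1 Γ Γ₁ ρ := (res1 hle ρ).comp (Th0 Γ ρ)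

open Classical in
lemma Th_apply (hle : Γ ≤ Γ₁) (p : KS Γ ρ × KR Γ ρ) (g : G) :
    (Th hle p).1 g = if g ∈ Γ₁ then p.2.1 g + p.1.1 (g * Re) else 0 := rfl

open Classical in
lemma Th_surjective (hρ : IsAct Γ ρ) (hle : Γ ≤ Γ₁) (hT : T ∈ Γ₁) (hS : S ∉ Γ₁) :
    Function.Surjective (Th (ρ := ρ) hle) := by
  intro y
  have hneg : (-1 : G) ∈ Γ₁ := hle hρ.neg_mem
  -- `R ∉ Γ₁`
  have hR : Re ∉ Γ₁ := by
    intro h
    apply hS
    have := Γ₁.mul_mem (Γ₁.inv_mem h) hT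
    rw [← Re_mul_S, inv_mul_cancel_left] at this
    exact this
  have hdisj : ∀ h : G, h * Re⁻¹ ∈ Γ₁ → h * S * Re⁻¹ ∈ Γ₁ → False := by
    intro h h1 h2
    have h3 := Γ₁.mul_mem (Γ₁.inv_mem h1) h2
    have h4 : (h * Re⁻¹)⁻¹ * (h * S * Re⁻¹) = T * Re⁻¹ := by
      rw [← Re_mul_S]
      group
    rw [h4] at h3
    apply hR
    have h5 := Γ₁.mul_mem (Γ₁.inv_mem h3) hT
    have h6 : (T * Re⁻¹)⁻¹ * T = Re := by group
    rwa [h6] at h5
  have hact : ∀ γ ∈ Γ, ∀ g, γ * g ∈ Γ₁ ↔ g ∈ Γ₁ := fun γ hγ g => ⟨fun h => by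
    have := Γ₁.mul_mem (Γ₁.inv_mem (hle hγ)) h
    rwa [inv_mul_cancel_left] at this, fun h => Γ₁.mul_mem (hle hγ) h⟩
  have hny : ∀ g, y.1 (g * -1) = y.1 g := by
    intro g
    have h1 : g * (-1 : G) = -1 * g := by
      ext i j
      simp
    rw [h1, y.2.1 (-1) hρ.neg_mem, hρ.neg, LinearMap.id_apply]
  have hnm : ∀ g : G, g * -1 ∈ Γ₁ ↔ g ∈ Γ₁ := fun g => ⟨fun h => by
    have := Γ₁.mul_mem h hneg
    have h2 : g * -1 * -1 = g := by
      ext i j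
      simp
    rwa [h2] at this, fun h => Γ₁.mul_mem h hneg⟩
  let s : G → V := fun h => (if h * Re⁻¹ ∈ Γ₁ then y.1 (h * Re⁻¹) else 0) -
    (if h * S * Re⁻¹ ∈ Γ₁ then y.1 (h * S * Re⁻¹) else 0)
  have hs : s ∈ KS Γ ρ := by
    refine ⟨fun γ hγ g => ?_, fun g => ?_⟩
    · show (if γ * g * Re⁻¹ ∈ Γ₁ then y.1 (γ * g * Re⁻¹) else 0) -
        (if γ * g * S * Re⁻¹ ∈ Γ₁ then y.1 (γ * g * S * Re⁻¹) else 0) =
        ρ γ ((if g * Re⁻¹ ∈ Γ₁ then y.1 (g * Re⁻¹) else 0) -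
        (if g * S * Re⁻¹ ∈ Γ₁ then y.1 (g * S * Re⁻¹) else 0))
      rw [map_sub]
      congr 1
      · rw [mul_assoc]
        by_cases h : g * Re⁻¹ ∈ Γ₁
        · rw [if_pos h, if_pos ((hact γ hγ _).2 h), y.2.1 γ hγ]
        · rw [if_neg h, if_neg (fun h' => h ((hact γ hγ _).1 h')), map_zero]
      · rw [mul_assoc γ g, mul_assoc γ]
        by_cases h : g * S * Re⁻¹ ∈ Γ₁
        · rw [if_pos h, if_pos ((hact γ hγ _).2 h), y.2.1 γ hγ]
        · rw [if_neg h, if_neg (fun h' => h ((hact γ hγ _).1 h')), map_zero]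
    · show (if g * Re⁻¹ ∈ Γ₁ then y.1 (g * Re⁻¹) else 0) -
        (if g * S * Re⁻¹ ∈ Γ₁ then y.1 (g * S * Re⁻¹) else 0) +
        ((if g * S * Re⁻¹ ∈ Γ₁ then y.1 (g * S * Re⁻¹) else 0) -
        (if g * S * S * Re⁻¹ ∈ Γ₁ then y.1 (g * S * S * Re⁻¹) else 0)) = 0
      have h1 : g * S * S * Re⁻¹ = g * Re⁻¹ * -1 := by
        rw [mul_assoc g, S_mul_S]
        ext i j
        simp
      rw [h1, hny, sub_add_sub_cancel]
      by_cases h : g * Re⁻¹ ∈ Γ₁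
      · rw [if_pos h, if_pos ((hnm _).2 h), sub_self]
      · rw [if_neg h, if_neg (fun h' => h ((hnm _).1 h')), sub_self]
  refine ⟨(⟨s, hs⟩, 0), Subtype.ext (funext fun g => ?_)⟩
  rw [Th_apply]
  by_cases h : g ∈ Γ₁
  · rw [if_pos h]
    show (0 : G → V) g + ((if g * Re * Re⁻¹ ∈ Γ₁ then y.1 (g * Re * Re⁻¹) else 0) -
        (if g * Re * S * Re⁻¹ ∈ Γ₁ then y.1 (g * Re * S * Re⁻¹) else 0)) = y.1 g
    have h1 : g * Re * Re⁻¹ = g := by group
    rw [if_neg (fun h' => hdisj (g * Re) (by rw [h1]; exact h) h'), h1, if_pos h]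
    simp
  · rw [if_neg h, y.2.2 g h]

open Classical in
lemma finrank_Kc [Finite (Qt Γ)] [FiniteDimensional k V] (hρ : IsAct Γ ρ) (hle : Γ ≤ Γ₁)
    (hT : T ∈ Γ₁) (hS : S ∉ Γ₁) :
    finrank k (Kc Γ Γ₁ ρ) + finrank k (Y1 Γ Γ₁ ρ) =
      finrank k (KS Γ ρ) + finrank k (KR Γ ρ) ∧ FiniteDimensional k (Kc Γ Γ₁ ρ) := by
  have := finiteDimensional_Ind hρ
  have : FiniteDimensional k (KS Γ ρ) := Submodule.finiteDimensional_of_le KS_le
  have : FiniteDimensional k (KR Γ ρ) := Submodule.finiteDimensional_of_le KR_le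
  have h1 := LinearMap.finrank_range_add_finrank_ker (Th (ρ := ρ) hle)
  rw [LinearMap.range_eq_top.2 (Th_surjective hρ hle hT hS), finrank_top,
    Module.finrank_prod] at h1
  let e : LinearMap.ker (Th (ρ := ρ) hle) ≃ₗ[k] Kc Γ Γ₁ ρ :=
    { toFun := fun p => ⟨(p.1.1.1, p.1.2.1), p.1.1.2, p.1.2.2, fun g hg => by
        have h4 := congrFun (congrArg Subtype.val (LinearMap.mem_ker.1 p.2)) g
        rw [Th_apply, if_pos hg] at h4
        exact h4⟩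
      map_add' := fun _ _ => rfl
      map_smul' := fun _ _ => rfl
      invFun := fun p => ⟨(⟨p.1.1, p.2.1⟩, ⟨p.1.2, p.2.2.1⟩), by
        rw [LinearMap.mem_ker]
        refine Subtype.ext (funext fun g => ?_)
        rw [Th_apply]
        split_ifs with h
        · exact p.2.2.2 g h
        · rfl⟩
      left_inv := fun _ => rfl
      right_inv := fun _ => rfl }
  refine ⟨?_, Module.Finite.equiv e⟩
  rw [← e.finrank_eq]
  omega

/-- **The upper bound.** -/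
theorem finrank_Sy_add_le [Finite (Qt Γ)] [FiniteDimensional k V] (hρ : IsAct Γ ρ)
    (hle : Γ ≤ Γ₁) (hT : T ∈ Γ₁) (hS : S ∉ Γ₁) :
    finrank k (Sy Γ Γ₁ ρ) + finrank k (Ind Γ ρ) ≤ finrank k (KS Γ ρ) + finrank k (KR Γ ρ) ∧
      FiniteDimensional k (Sy Γ Γ₁ ρ) := by
  have := finiteDimensional_Ind hρ
  obtain ⟨h1, h2⟩ := finrank_Kc (Γ₁ := Γ₁) hρ hle hT hS
  have hinj := Psi_injective (Γ₁ := Γ₁) hρ hle hT
  have : FiniteDimensional k (Sy Γ Γ₁ ρ × Y0 Γ Γ₁ ρ) :=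
    FiniteDimensional.of_injective (Psi hρ hle hT) hinj
  have hfin : FiniteDimensional k (Sy Γ Γ₁ ρ) :=
    FiniteDimensional.of_injective (LinearMap.inl k (Sy Γ Γ₁ ρ) (Y0 Γ Γ₁ ρ))
      LinearMap.inl_injective
  have : FiniteDimensional k (Y0 Γ Γ₁ ρ) :=
    FiniteDimensional.of_injective (LinearMap.inr k (Sy Γ Γ₁ ρ) (Y0 Γ Γ₁ ρ))
      LinearMap.inr_injective
  have h3 := LinearMap.finrank_le_finrank_of_injective hinj
  rw [Module.finrank_prod] at h3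
  have h4 := finrank_Y0_add_Y1 (Γ₁ := Γ₁) hρ hle
  exact ⟨by omega, hfin⟩

end main

end Gouvea.P5
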