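import Mathlib

/-!
# Integral linear systems: bases of the solutions over all domains of characteristic zero
(MP_d3517d_nt, package P5)
-/

open Finset Matrix Module

noncomputable section

namespace Gouvea.PX

/-- solutions in `k` of a family of integral linear equations -/
def SolI {J ι : Type} [Fintype ι] (l : J → ι → ℤ) (k : Type) [CommRing k] :
    Submodule k (ι → k) where
  carrier := {v | ∀ j, ∑ i, (l j i : k) * v i = 0}
  add_mem' := by
    intro v w hv hw j
    simp only [Pi.add_apply, mul_add, Finset.sum_add_distrib, hv j, hw j, add_zero]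
  zero_mem' := fun j => by simp
  smul_mem' := by
    intro c v hv j
    simp only [Pi.smul_apply, smul_eq_mul]
    have := hv j
    calc ∑ i, (l j i : k) * (c * v i) = c * ∑ i, (l j i : k) * v i := by
          rw [Finset.mul_sum]
          exact Finset.sum_congr rfl fun i _ => by ring
      _ = 0 := by rw [this, mul_zero]

/-- The solutions over every domain of characteristic zero have the same integral basis. -/
theorem exists_basis_SolI {J ι : Type} [Fintype ι] (l : J → ι → ℤ) :
    ∃ (d : ℕ) (b : Fin d → ι → ℤ), ∀ (k : Type) [CommRing k] [IsDomain k] [CharZero k],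
      ∃ B : Basis (Fin d) k (SolI l k), ∀ i p, (B i).1 p = (b i p : k) := by
  classical
  set W : Submodule ℤ (ι → ℤ) := SolI l ℤ with hW
  obtain ⟨d, snf⟩ := Submodule.smithNormalForm (Pi.basisFun ℤ ι) W
  obtain ⟨bM, bN, f, a, hsnf⟩ := snf
  have ha : ∀ t, a t ≠ 0 := by
    intro t h0
    have h1 := hsnf t
    rw [h0, zero_smul] at h1
    exact bN.ne_zero t (Subtype.ext h1)
  have memW : ∀ x : ι → ℤ, x ∈ W ↔ ∀ j, ∑ p, l j p * x p = 0 := fun x =>
    ⟨fun h j => by simpa using h j, fun h j => by simpa using h j⟩
  have hb : ∀ t, bM (f t) ∈ W := by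
    intro t
    rw [memW]
    intro j
    have h1 := (memW _).1 (bN t).2 j
    rw [hsnf t] at h1
    have h2 : ∑ p, l j p * (a t • bM (f t)) p = a t * ∑ p, l j p * bM (f t) p := by
      rw [Finset.mul_sum]
      refine Finset.sum_congr rfl fun p _ => ?_
      rw [Pi.smul_apply, smul_eq_mul]
      ring
    rw [h2] at h1
    exact (mul_eq_zero.1 h1).resolve_left (ha t)
  -- coordinates of elements of `W`
  have hcoord : ∀ x ∈ W, ∀ i, i ∉ Set.range f → bM.repr x i = 0 := by
    intro x hx i hi
    have h1 : x = ∑ t, (bN.repr ⟨x, hx⟩ t * a t) • bM (f t) := by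
      have h2 := congrArg (Subtype.val : W → _) (bN.sum_repr ⟨x, hx⟩)
      rw [Submodule.coe_sum] at h2
      conv_lhs => rw [show x = ((⟨x, hx⟩ : W) : ι → ℤ) from rfl, ← h2]
      refine Finset.sum_congr rfl fun t _ => ?_
      rw [Submodule.coe_smul, hsnf t, smul_smul]
    rw [h1, map_sum, Finsupp.finsetSum_apply]
    refine Finset.sum_eq_zero fun t _ => ?_
    rw [map_smul, Basis.repr_self, Finsupp.smul_apply, Finsupp.single_apply,
      if_neg (fun h => hi ⟨t, h⟩), smul_zero]
  -- finitely many equations suffice
  obtain ⟨s, hs, hspan⟩ := (Submodule.fg_span_iff_fg_span_finset_subset (R := ℤ)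
    (Set.range l)).1 (IsNoetherian.noetherian _)
  have hmem : ∀ x : ι → ℤ, (∀ c ∈ s, ∑ p, c p * x p = 0) → x ∈ W := by
    intro x hx
    rw [memW]
    intro j
    let φ : (ι → ℤ) →ₗ[ℤ] ℤ :=
      { toFun := fun c => ∑ p, c p * x p
        map_add' := fun c c' => by
          simp only [Pi.add_apply, add_mul, Finset.sum_add_distrib]
        map_smul' := fun r c => by
          simp only [Pi.smul_apply, smul_eq_mul, RingHom.id_apply, Finset.mul_sum, mul_assoc] }
    have h1 : Submodule.span ℤ (s : Set (ι → ℤ)) ≤ LinearMap.ker φ := by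
      rw [Submodule.span_le]
      intro c hc
      exact LinearMap.mem_ker.2 (hx c hc)
    have h2 : l j ∈ Submodule.span ℤ (s : Set (ι → ℤ)) := by
      rw [← hspan]
      exact Submodule.subset_span ⟨j, rfl⟩
    exact LinearMap.mem_ker.1 (h1 h2)
  -- the values of the equations on the remaining basis vectors
  let w : {i // i ∉ Set.range f} → s → ℤ := fun i c => ∑ p, c.1 p * bM i.1 p
  have hw : LinearIndependent ℤ w := by
    rw [Fintype.linearIndependent_iff]
    intro m hm i
    have h1 : ∑ i : {i // i ∉ Set.range f}, m i • bM i.1 ∈ W := by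
      refine hmem _ fun c hc => ?_
      have h2 := congrFun hm ⟨c, hc⟩
      rw [Finset.sum_apply, Pi.zero_apply] at h2
      rw [← h2]
      simp_rw [Finset.sum_apply, Pi.smul_apply, smul_eq_mul, Finset.mul_sum]
      rw [Finset.sum_comm]
      refine Finset.sum_congr rfl fun i _ => ?_
      show _ = m i * ∑ p, c p * bM i.1 p
      rw [Finset.mul_sum]
      exact Finset.sum_congr rfl fun p _ => by ring
    have h3 := hcoord _ h1 i.1 i.2
    rw [map_sum, Finsupp.finsetSum_apply, Finset.sum_eq_single i] at h3
    · rwa [map_smul, Basis.repr_self, Finsupp.smul_apply, Finsupp.single_eq_same, smul_eq_mul,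
        mul_one] at h3
    · intro i' _ hi'
      rw [map_smul, Basis.repr_self, Finsupp.smul_apply, Finsupp.single_apply,
        if_neg (fun h => hi' (Subtype.ext h)), smul_zero]
    · intro h
      exact absurd (Finset.mem_univ _) h
  refine ⟨d, fun t => bM (f t), fun k _ _ _ => ?_⟩
  -- the basis
  have hmemk : ∀ t, (fun p => (bM (f t) p : k)) ∈ SolI l k := by
    intro t j
    have h1 := (memW _).1 (hb t) j
    have h2 := congrArg (Int.cast : ℤ → k) h1
    rw [Int.cast_sum, Int.cast_zero] at h2
    rw [← h2]
    exact Finset.sum_congr rfl fun p _ => by push_cast; rfl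
  have hli : LinearIndependent k (fun t => (⟨fun p => (bM (f t) p : k), hmemk t⟩ : SolI l k)) := by
    have h1 : LinearIndependent ℤ (fun t => bM (f t)) := bM.linearIndependent.comp f f.injective
    have h2 := (linearIndependent_algebraMap_comp_iff (S := k)).2 h1
    exact LinearIndependent.of_comp (SolI l k).subtype h2
  have hsp : ⊤ ≤ Submodule.span k
      (Set.range (fun t => (⟨fun p => (bM (f t) p : k), hmemk t⟩ : SolI l k))) := by
    rintro ⟨v, hv⟩ -
    -- coordinates of `v`
    let β : ι → k := fun i => ∑ q, v q * (bM.repr (Pi.single q 1) i : k)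
    have hv' : ∀ p, v p = ∑ i, β i * (bM i p : k) := by
      intro p
      have h1 : ∀ q, (Pi.single q 1 : ι → ℤ) p = ∑ i, bM.repr (Pi.single q 1) i * bM i p := by
        intro q
        conv_lhs => rw [← bM.sum_repr (Pi.single q 1)]
        rw [Finset.sum_apply]
        rfl
      calc v p = ∑ q, v q * (((Pi.single q 1 : ι → ℤ) p : ℤ) : k) := by
            rw [Finset.sum_eq_single p]
            · simp
            · intro q _ hq
              rw [Pi.single_apply, if_neg (fun h => hq h.symm)]
              simp
            · intro h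
              exact absurd (Finset.mem_univ _) h
        _ = ∑ q, ∑ i, v q * ((bM.repr (Pi.single q 1) i : k) * (bM i p : k)) := by
            refine Finset.sum_congr rfl fun q _ => ?_
            rw [h1 q, Int.cast_sum, Finset.mul_sum]
            exact Finset.sum_congr rfl fun i _ => by push_cast; rfl
        _ = ∑ i, β i * (bM i p : k) := by
            rw [Finset.sum_comm]
            refine Finset.sum_congr rfl fun i _ => ?_
            show _ = (∑ q, v q * (bM.repr (Pi.single q 1) i : k)) * _
            rw [Finset.sum_mul]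
            exact Finset.sum_congr rfl fun q _ => by ring
    have hβ : ∀ i : {i // i ∉ Set.range f}, β i.1 = 0 := by
      have h1 := (linearIndependent_algebraMap_comp_iff (S := k)).2 hw
      rw [Fintype.linearIndependent_iff] at h1
      refine h1 (fun i => β i.1) ?_
      funext c
      obtain ⟨j, hj⟩ := hs c.2
      have h2 := hv j
      rw [hj] at h2
      rw [Finset.sum_apply, Pi.zero_apply, ← h2]
      calc ∑ i : {i // i ∉ Set.range f}, (β i.1 • (algebraMap ℤ k ∘ w i)) c
          = ∑ i : {i // i ∉ Set.range f}, β i.1 * ((∑ p, c.1 p * bM i.1 p : ℤ) : k) := rfl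
        _ = ∑ i : ι, β i * ((∑ p, c.1 p * bM i p : ℤ) : k) := by
            refine Finset.sum_of_injOn Subtype.val Subtype.val_injective.injOn
              (fun _ _ => Finset.mem_univ _) ?_ (fun _ _ => rfl)
            intro i _ hi
            have h5 : ¬ i ∉ Set.range f := fun h => hi ⟨⟨i, h⟩, Finset.mem_coe.2
              (Finset.mem_univ _), rfl⟩
            obtain ⟨t, ht⟩ := not_not.1 h5
            have h3 := (memW _).1 (hb t) j
            rw [ht, hj] at h3
            rw [h3, Int.cast_zero, mul_zero]
        _ = ∑ p, (c.1 p : k) * v p := by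
            have h4 : ∀ p, (c.1 p : k) * v p = ∑ i, β i * ((c.1 p : k) * (bM i p : k)) := by
              intro p
              rw [hv' p, Finset.mul_sum]
              exact Finset.sum_congr rfl fun i _ => by ring
            simp_rw [h4]
            rw [Finset.sum_comm]
            refine Finset.sum_congr rfl fun i _ => ?_
            rw [← Finset.mul_sum]
            congr 1
            push_cast
            rfl
    have hfin : (⟨v, hv⟩ : SolI l k) =
        ∑ t, β (f t) • (⟨fun p => (bM (f t) p : k), hmemk t⟩ : SolI l k) := by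
      refine Subtype.ext (funext fun p => ?_)
      rw [Submodule.coe_sum, Finset.sum_apply]
      show v p = ∑ t, β (f t) * (bM (f t) p : k)
      rw [hv' p]
      symm
      refine Finset.sum_of_injOn f f.injective.injOn (fun _ _ => Finset.mem_univ _) ?_
        (fun _ _ => rfl)
      intro i _ hi
      have h5 : i ∉ Set.range f := by
        intro h
        apply hi
        obtain ⟨t, rfl⟩ := h
        exact ⟨t, Finset.mem_coe.2 (Finset.mem_univ _), rfl⟩
      rw [hβ ⟨i, h5⟩, zero_mul]
    rw [hfin]
    exact Submodule.sum_mem _ fun t _ => Submodule.smul_mem _ _ (Submodule.subset_span ⟨t, rfl⟩)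
  refine ⟨Basis.mk hli hsp, fun t p => ?_⟩
  rw [Basis.mk_apply]

end Gouvea.PX
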