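import Pool.Agent.Work.MP_d3517d_nt.POS.Red
import Pool.Agent.Work.MP_d3517d_nt.PS.HOp
import Pool.Agent.Work.MP_d3517d_nt.PS.HRepGen
import Pool.Agent.Work.MP_d3517d_nt.PS.HRepOf

/-!
# Systems of eigenvalues by degrees (MP_d3517d_nt, P5)

`GrFam p E Q` : commuting matrices `t n a` (`a : Q`, `n` even) of size `E × (n + 1)` over `ℤ_p`,
triangular modulo `p`, whose graded pieces `g n i a` are periodic in the weight and in the degree.

`GrFam.exists_lift` : the systems of eigenvalues of `ℤ[Q]` over the algebraic closure of `ℚ_p`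
reduce to the sum over `i ≤ n` of the multisets `F.S n i` of the systems of the graded pieces;
`GrFam.S_n`, `GrFam.S_i`, `GrFam.S_twist` : periodicity and twist; `GrFam.card_small` : counting.

`GrFam.ofTree` : the operators `φ ↦ Σ_j φ(h_j x, h_j y) | a_j` on the symbols of a tree.
-/

set_option autoImplicit false

open Finset Matrix MvPolynomial Gouvea.Sys Gouvea.Red

noncomputable section

namespace Gouvea

/-- commuting matrices, triangular modulo `p`, with periodic graded pieces -/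
structure GrFam (p : ℕ) [Fact p.Prime] (E Q : Type) [Fintype E] [DecidableEq E] where
  t : ∀ n : ℕ, Q → Matrix (E × Fin (n + 1)) (E × Fin (n + 1)) ℤ_[p]
  g : ℕ → ℕ → Q → Matrix E E (ZMod p)
  comm : ∀ n, Even n → ∀ a b, t n a * t n b = t n b * t n a
  tri : ∀ n a, TriP (t n a)
  gr : ∀ n a (i : Fin (n + 1)), dg (t n a) i = g n i a
  g_n : ∀ n i a, g (n + (p - 1)) i a = g n i a
  g_i : ∀ n i a, g n (i + (p - 1)) a = g n i a

namespace GrFam

variable {p : ℕ} [Fact p.Prime] {E Q : Type} [Fintype E] [DecidableEq E] (F : GrFam p E Q)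

lemma hom_ext {A : Type*} [Ring A] {f g : MvPolynomial Q ℤ →+* A} (h : ∀ a, f (X a) = g (X a)) :
    f = g := by
  refine MvPolynomial.ringHom_ext (fun c => ?_) h
  rw [show (C c : MvPolynomial Q ℤ) = (c : MvPolynomial Q ℤ) from by simp, map_intCast,
    map_intCast]

lemma g_n' (n i k : ℕ) (a : Q) : F.g (n + k * (p - 1)) i a = F.g n i a := by
  induction k with
  | zero => simp
  | succ k ih => rw [Nat.succ_mul, ← add_assoc, F.g_n, ih]

theorem exists_gr {n : ℕ} (hn : Even n) (i : ℕ) :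
    ∃ f : MvPolynomial Q ℤ →+* Matrix E E (ZMod p), ∀ a, f (X a) = F.g n i a := by
  refine exists_ringHom_of_comm (F.g n i) fun a b => ?_
  have hpos : 1 ≤ p - 1 := by
    have := (Fact.out : p.Prime).two_le
    omega
  have hm : Even (n + (2 * i) * (p - 1)) := by
    refine hn.add ?_
    rw [mul_assoc]
    exact even_two_mul _
  have hi : i < n + (2 * i) * (p - 1) + 1 := by
    have : i ≤ 2 * i * (p - 1) := by nlinarith
    omega
  have h1 := congrArg (fun A => dg A (⟨i, hi⟩ : Fin (n + (2 * i) * (p - 1) + 1)))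
    (F.comm (n + (2 * i) * (p - 1)) hm a b)
  beta_reduce at h1
  rw [dg_mul (F.tri _ _) (F.tri _ _), dg_mul (F.tri _ _) (F.tri _ _), F.gr, F.gr] at h1
  simp only [F.g_n'] at h1
  exact h1

open Classical in
/-- the systems of eigenvalues of the graded piece of degree `i` -/
def S (n i : ℕ) : Multiset (MvPolynomial Q ℤ →+* kk p) :=
  if h : ∃ f : MvPolynomial Q ℤ →+* Matrix E E (ZMod p), ∀ a, f (X a) = F.g n i a then
    Sys (matRep ((fK p).mapMatrix.comp h.choose)) else 0

theorem S_of {n i : ℕ} (f : MvPolynomial Q ℤ →+* Matrix E E (ZMod p))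
    (hf : ∀ a, f (X a) = F.g n i a) : F.S n i = Sys (matRep ((fK p).mapMatrix.comp f)) := by
  have h : ∃ f : MvPolynomial Q ℤ →+* Matrix E E (ZMod p), ∀ a, f (X a) = F.g n i a := ⟨f, hf⟩
  rw [S, dif_pos h]
  have h1 : h.choose = f := hom_ext fun a => by rw [h.choose_spec, hf]
  rw [h1]

open Classical in
/-- the graded pieces are periodic in the weight -/
theorem S_n (n i : ℕ) : F.S (n + (p - 1)) i = F.S n i := by
  have h : ∀ G G' : Q → Matrix E E (ZMod p), G = G' →
      (if h : ∃ f : MvPolynomial Q ℤ →+* Matrix E E (ZMod p), ∀ a, f (X a) = G a then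
        Sys (matRep ((fK p).mapMatrix.comp h.choose)) else 0) =
      (if h : ∃ f : MvPolynomial Q ℤ →+* Matrix E E (ZMod p), ∀ a, f (X a) = G' a then
        Sys (matRep ((fK p).mapMatrix.comp h.choose)) else 0) := by
    rintro G _ rfl
    rfl
  exact h _ _ (funext fun a => F.g_n n i a)

open Classical in
/-- the graded pieces are periodic in the degree -/
theorem S_i (n i : ℕ) : F.S n (i + (p - 1)) = F.S n i := by
  have h : ∀ G G' : Q → Matrix E E (ZMod p), G = G' →
      (if h : ∃ f : MvPolynomial Q ℤ →+* Matrix E E (ZMod p), ∀ a, f (X a) = G a then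
        Sys (matRep ((fK p).mapMatrix.comp h.choose)) else 0) =
      (if h : ∃ f : MvPolynomial Q ℤ →+* Matrix E E (ZMod p), ∀ a, f (X a) = G' a then
        Sys (matRep ((fK p).mapMatrix.comp h.choose)) else 0) := by
    rintro G _ rfl
    rfl
  exact h _ _ (funext fun a => F.g_i n i a)

/-- **Twist.** -/
theorem S_twist {n i n' i' : ℕ} (hn : Even n) (τ : MvPolynomial Q ℤ →+* MvPolynomial Q ℤ)
    (u : Q → ℤ) (hτ : ∀ a, τ (X a) = (u a : MvPolynomial Q ℤ) * X a)
    (hg : ∀ a, F.g n' i' a = (u a : ZMod p) • F.g n i a) :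
    F.S n' i' = (F.S n i).map fun ψ => ψ.comp τ := by
  obtain ⟨f, hf⟩ := F.exists_gr hn i
  rw [F.S_of f hf, F.S_of (f.comp τ) fun a => ?_, ← Sys_comp]
  · rfl
  · rw [RingHom.comp_apply, hτ, map_mul, map_intCast, hf, hg]
    ext e e'
    rw [← Matrix.diagonal_intCast, Matrix.diagonal_mul, Matrix.smul_apply, smul_eq_mul]

/-- **Reduction of the systems of eigenvalues, by degrees.** -/
theorem exists_lift {n : ℕ}
    (A : MvPolynomial Q ℤ →+* Matrix (E × Fin (n + 1)) (E × Fin (n + 1)) ℤ_[p])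
    (hA : ∀ a, A (X a) = F.t n a) :
    ∃ X : Multiset (MvPolynomial Q ℤ →+* O p),
      X.map (fun χ => (O p).subtype.comp χ) = Sys (matRep (toK A)) ∧
      X.map (fun χ => (res p).comp χ) = ∑ i ∈ range (n + 1), F.S n i := by
  obtain ⟨X, h1, h2⟩ := exists_lift_zp A
  refine ⟨X, h1, h2.trans ?_⟩
  have htri : ∀ a, TriP (A (MvPolynomial.X a)) := fun a => by
    rw [hA]
    exact F.tri n a
  choose f hf using fun i : Fin (n + 1) => exists_dgh A htri i
  rw [Red.Sys_prod (modP A) (fun i => (fK p).mapMatrix.comp (f i)) ?_ ?_, Finset.sum_range]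
  · refine Finset.sum_congr rfl fun i _ => ?_
    rw [F.S_of (f i) fun a => ?_]
    rw [hf, hA, F.gr]
  · intro r x y i j hij
    rw [modP_apply, toZMod_eq_zero_of_dvd (TriP.of_gens A htri r (x, i) (y, j) hij), map_zero]
  · intro i r x y
    rw [modP_apply, RingHom.comp_apply, RingHom.mapMatrix_apply, Matrix.map_apply, hf]
    rfl

open Classical in
/-- the number of the systems of the graded piece which vanish on `J` -/
def dd (J : Ideal (MvPolynomial Q ℤ)) (n i : ℕ) : ℕ :=
  ((F.S n i).filter fun ψ => ∀ u ∈ J, ψ u = 0).card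

theorem dd_n (J : Ideal (MvPolynomial Q ℤ)) (n i : ℕ) : F.dd J (n + (p - 1)) i = F.dd J n i := by
  rw [dd, S_n]
  rfl

theorem dd_i (J : Ideal (MvPolynomial Q ℤ)) (n i : ℕ) : F.dd J n (i + (p - 1)) = F.dd J n i := by
  rw [dd, S_i]
  rfl

theorem dd_twist {n i n' i' : ℕ} (hn : Even n) (τ : MvPolynomial Q ℤ →+* MvPolynomial Q ℤ)
    (u : Q → ℤ) (hτ : ∀ a, τ (X a) = (u a : MvPolynomial Q ℤ) * X a)
    (hg : ∀ a, F.g n' i' a = (u a : ZMod p) • F.g n i a) (J : Ideal (MvPolynomial Q ℤ)) :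
    F.dd J n' i' = F.dd (J.map τ) n i := by
  classical
  rw [dd, dd, F.S_twist hn τ u hτ hg, Multiset.filter_map, Multiset.card_map]
  congr 1
  refine Multiset.filter_congr fun ψ _ => ?_
  have h1 : (∀ v ∈ J.map τ, ψ v = 0) ↔ J.map τ ≤ RingHom.ker ψ := Iff.rfl
  rw [h1, Ideal.map_le_iff_le_comap]
  rfl

open Classical in
/-- counting with a predicate -/
theorem card_filter {n : ℕ}
    (A : MvPolynomial Q ℤ →+* Matrix (E × Fin (n + 1)) (E × Fin (n + 1)) ℤ_[p])
    (hA : ∀ a, A (X a) = F.t n a) (P : (MvPolynomial Q ℤ →+* PadicAlgCl p) → Prop)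
    (P' : (MvPolynomial Q ℤ →+* kk p) → Prop)
    (hP : ∀ χ : MvPolynomial Q ℤ →+* O p, P ((O p).subtype.comp χ) ↔ P' ((res p).comp χ)) :
    ((Sys (matRep (toK A))).filter P).card =
      ∑ i ∈ range (n + 1), ((F.S n i).filter P').card := by
  obtain ⟨X, h1, h2⟩ := F.exists_lift A hA
  rw [card_filter_of_lift h1 h2 P P' hP]
  simp only [← Multiset.countP_eq_card_filter]
  exact map_sum (Multiset.countPAddMonoidHom P') _ _

open Classical in
/-- **Counting the systems which are small on an ideal.** -/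
theorem card_small {n : ℕ}
    (A : MvPolynomial Q ℤ →+* Matrix (E × Fin (n + 1)) (E × Fin (n + 1)) ℤ_[p])
    (hA : ∀ a, A (X a) = F.t n a) (J : Ideal (MvPolynomial Q ℤ)) :
    ((Sys (matRep (toK A))).filter fun χ => ∀ u ∈ J, ‖χ u‖ < 1).card =
      ∑ i ∈ range (n + 1), F.dd J n i := by
  refine F.card_filter A hA _ _ fun χ => ?_
  refine forall₂_congr fun u _ => ?_
  rw [RingHom.comp_apply, RingHom.comp_apply, res_eq_zero_iff]
  rfl

/-! ### the operators on the symbols of a tree -/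

section Tree

open Gouvea.PS

variable {T C : Type} [Group T] [MulAction T C] {Γ : Subgroup T} (L : Lev Γ E)
  {ζ : T} {o q : C} (hT : IsTree T C ζ o q) {J : Q → Type} [∀ a, Fintype (J a)]
  (c : Γ → Matrix (Fin 2) (Fin 2) ℤ) (a : ∀ x : Q, J x → Matrix (Fin 2) (Fin 2) ℤ)
  (h : ∀ x : Q, J x → C → C)
  (ρ : ∀ n, Γ →* Matrix (Fin (n + 1)) (Fin (n + 1)) ℤ_[p])
  (hρ : ∀ n g, ρ n g = slM n (zp p (c g)))
  (hc : ∀ g, IsUZ p (c g)) (ha : ∀ x j, IsUZ p (a x j))
  (hcomm : ∀ n, Even n → ∀ x y,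
    opM L hT L (ρ n) (fun j => slM n (zp p (a x j))) (h x) *
      opM L hT L (ρ n) (fun j => slM n (zp p (a y j))) (h y) =
    opM L hT L (ρ n) (fun j => slM n (zp p (a y j))) (h y) *
      opM L hT L (ρ n) (fun j => slM n (zp p (a x j))) (h x))

/-- the family of the operators `φ ↦ Σ_j φ(h_j x, h_j y) | a_j` -/
def ofTree : GrFam p E Q where
  t n x := opM L hT L (ρ n) (fun j => slM n (zp p (a x j))) (h x)
  g n i x := opG L L hT (fun g => zp p (c g)) (fun j => zp p (a x j)) (h x) n i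
  comm n hn x y := hcomm n hn x y
  tri n x := by
    intro z w hzw
    refine opM_tri L L hT (fun g => zp p (c g)) (fun j => zp p (a x j)) (h x) (hρ n)
      (fun g j => ?_) z w hzw
    rw [← zp_mul]
    exact ((hc g).mul (ha x j)).dvd10
  gr n x i := by
    ext e e'
    refine opM_gr L L hT (fun g => zp p (c g)) (fun j => zp p (a x j)) (h x) (hρ n)
      (fun g j => ?_) (fun g j => ?_) i e e'
    · rw [← zp_mul]
      exact ((hc g).mul (ha x j)).dvd10
    · rw [← zp_mul]
      exact ((hc g).mul (ha x j)).unit11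
  g_n n i x := by
    refine opG_n L L hT (fun g => zp p (c g)) (fun j => zp p (a x j)) (h x) (fun g j => ?_) n i
    rw [← zp_mul]
    exact ((hc g).mul (ha x j)).unit11
  g_i n i x := by
    refine opG_i L L hT (fun g => zp p (c g)) (fun j => zp p (a x j)) (h x) (fun g j => ?_)
      (fun g j => ?_) n i
    · rw [← zp_mul]
      exact ((hc g).mul (ha x j)).unit00
    · rw [← zp_mul]
      exact ((hc g).mul (ha x j)).unit11

@[simp] lemma ofTree_t (n : ℕ) (x : Q) : (ofTree L hT c a h ρ hρ hc ha hcomm).t n x =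
    opM L hT L (ρ n) (fun j => slM n (zp p (a x j))) (h x) := rfl

include hc ha in
theorem ofTree_twist (d : Q → ℤ) (hcd : ∀ g, (c g).det = 1) (had : ∀ x j, (a x j).det = d x)
    (n i j : ℕ) (x : Q) :
    (ofTree L hT c a h ρ hρ hc ha hcomm).g (n + 2 * j) (i + j) x =
      (((d x) ^ j : ℤ) : ZMod p) • (ofTree L hT c a h ρ hρ hc ha hcomm).g n i x := by
  have h1 := opG_twist L L hT (fun g => zp p (c g)) (fun j => zp p (a x j)) (h x)
    ((d x : ℤ) : ZMod p) (fun g j => by
      rw [← zp_mul]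
      exact ((hc g).mul (ha x j)).dvd10) (fun g j => by
      rw [← zp_mul]
      exact ((hc g).mul (ha x j)).unit11) (fun g j => by
      rw [← zp_mul, det_zp, Matrix.det_mul, hcd, had, one_mul]) n i j
  rw [Int.cast_pow]
  exact h1

end Tree

end GrFam

end Gouvea
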