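import Pool.Agent.Work.MP_d3517d_nt.P5.GrDeg
import Pool.Agent.Work.MP_d3517d_nt.PN.Psi
import Pool.Agent.Work.MP_d3517d_nt.PN.Hecke
import Pool.Agent.Work.MP_d3517d_nt.PN.Rep

/-!
# Systems of eigenvalues by degrees at the levels `9 ∣ M`, `p ∣ M` (MP_d3517d_nt, P5)

`famPN p M` : the family of the operators `T_l`, `l ≠ p` (`U_l` for `l ∣ M`) on the partial
symbols of level `M`, `9 ∣ M`, `p ∣ M` (`p` any prime, also `p = 3`).
-/

set_option autoImplicit false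

open Finset Matrix MvPolynomial Gouvea.PN Gouvea.Sys Gouvea.Red
open Gouvea.PS (IsUZ opM zp Lp)

noncomputable section

namespace Gouvea.GrDegN

/-! ### the integral matrices commute -/

section Comm

variable {M n : ℕ} [NeZero M]

theorem Tm_comm (hM : 9 ∣ M) (hn : Even n) {l q : ℕ} (hl : l.Prime) (hq : q.Prime) :
    Tm M n l * Tm M n q = Tm M n q * Tm M n l := by
  have hid : ∀ A : Matrix (Vx M × Fin (n + 1)) (Vx M × Fin (n + 1)) ℤ,
      A.map (Int.cast : ℤ → ℤ) = A := fun A => by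
    ext i j
    simp
  have hmem : ∀ {r : ℕ}, r.Prime → ∀ φ ∈ Sym ℤ M n, hecke ℤ M n r φ ∈ Sym ℤ M n :=
    fun hr φ hφ => hecke_mem hr hM (NeZero.ne M) hφ
  have key : ∀ v, (Tm M n l * Tm M n q).mulVec v = (Tm M n q * Tm M n l).mulVec v := by
    intro v
    obtain ⟨φ, rfl⟩ := (Psi ℤ M n hn).surjective v
    have h1 := Psi_hecke hn φ (hmem hl _ φ.2)
    have h2 := Psi_hecke hn φ (hmem hq _ φ.2)
    have h3 := Psi_hecke hn ⟨_, hmem hl _ φ.2⟩ (hmem hq _ (hmem hl _ φ.2))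
    have h4 := Psi_hecke hn ⟨_, hmem hq _ φ.2⟩ (hmem hl _ (hmem hq _ φ.2))
    rw [hid] at h1 h2 h3 h4
    rw [← Matrix.mulVec_mulVec, ← Matrix.mulVec_mulVec, ← h1, ← h2, ← h3, ← h4]
    congr 1
    exact Subtype.ext (hecke_comm hl hq hM (NeZero.ne M) (sym_inv φ.2))
  exact Matrix.mulVec_injective (funext key)

end Comm

variable {p : ℕ} [Fact p.Prime] {M : ℕ}

lemma isUZ_of_mem (hpM : p ∣ M) (g : G0 M) : IsUZ p (mt (g : T9)⁻¹) := by
  refine ⟨?_, ?_⟩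
  · rw [det_mt ((G0 M).inv_mem g.2)]
    exact PS.not_dvd_one
  · rw [mt_inv_10 g.2, dvd_neg]
    exact dvd_trans (by exact_mod_cast hpM) g.2.2

lemma isUZ_bet' (hM : 9 ∣ M) {l : ℕ} (hl : l.Prime) (hlp : l ≠ p) (i : Ix M l) :
    IsUZ p (bet M l i).1 := by
  have h := del_bet hl hM i
  refine ⟨?_, ?_⟩
  · rw [h.1]
    intro h1
    have h2 : p ∣ l := by exact_mod_cast h1
    exact hlp ((Nat.prime_dvd_prime_iff_eq Fact.out hl).1 h2).symm
  · rcases i with b | u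
    · rw [bet_inl hl]
      exact dvd_zero _
    · rw [bet_inr hl hM]
      exact dvd_zero _

lemma Tm_eq (n l : ℕ) : (Tm M n l).map (Int.cast : ℤ → ℤ_[p]) =
    opM (lev0 M) isTree (lev0 M) (rho ℤ_[p] M n)
      (fun j : Ix M l => slM n (zp p (bet M l j).1)) (fun j x => bet M l j • x) := by
  rw [Tm_map]
  rfl

lemma Tm_comm_zp [NeZero M] (hM : 9 ∣ M) {n : ℕ} (hn : Even n) {l l' : ℕ} (hl : l.Prime)
    (hl' : l'.Prime) : (Tm M n l).map (Int.cast : ℤ → ℤ_[p]) * (Tm M n l').map Int.cast =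
      (Tm M n l').map Int.cast * (Tm M n l).map Int.cast := by
  have h := Tm_comm (M := M) hM hn hl hl'
  have h1 := congrArg (fun A => (Int.castRingHom ℤ_[p]).mapMatrix A) h
  simp only [map_mul] at h1
  exact h1

variable (p M)

/-- the family of the operators `T_l`, `l ≠ p`, on the partial symbols of level `M` -/
def famPN [NeZero M] (hM : 9 ∣ M) (hpM : p ∣ M) : GrFam p (Vx M) (Lp p) :=
  GrFam.ofTree (lev0 M) isTree (J := fun l : Lp p => Ix M l.1) (fun g => mt (g : T9)⁻¹)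
    (fun l j => (bet M l.1 j).1) (fun l j x => bet M l.1 j • x) (fun n => rho ℤ_[p] M n)
    (fun n g => rho_apply ℤ_[p] M n g) (fun g => isUZ_of_mem hpM g)
    (fun l j => isUZ_bet' hM l.2.1 l.2.2 j) (fun n hn l l' => by
      rw [← Tm_eq, ← Tm_eq]
      exact Tm_comm_zp hM hn l.2.1 l'.2.1)

variable {p M}

lemma famPN_t [NeZero M] (hM : 9 ∣ M) (hpM : p ∣ M) (n : ℕ) (l : Lp p) :
    (famPN p M hM hpM).t n l = (Tm M n l.1).map (Int.cast : ℤ → ℤ_[p]) := by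
  rw [Tm_eq]
  rfl

lemma famPN_twist [NeZero M] (hM : 9 ∣ M) (hpM : p ∣ M) (n i j : ℕ) (l : Lp p) :
    (famPN p M hM hpM).g (n + 2 * j) (i + j) l =
      ((((l.1 : ℕ) : ℤ) ^ j : ℤ) : ZMod p) • (famPN p M hM hpM).g n i l :=
  GrFam.ofTree_twist _ _ _ _ _ _ _ _ _ _ (fun l : Lp p => ((l.1 : ℕ) : ℤ))
    (fun g => det_mt ((G0 M).inv_mem g.2)) (fun l j => (del_bet l.2.1 hM j).1) n i j l

open Classical in
/-- **The systems of eigenvalues at the level `M`, `9 ∣ M`, `p ∣ M`**, `p` any prime. -/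
theorem exists_dd_PN [NeZero M] (hM : 9 ∣ M) (hpM : p ∣ M) :
    ∃ dd : Ideal (MvPolynomial (Lp p) ℤ) → ℕ → ℕ → ℕ,
      (∀ (J : Ideal (MvPolynomial (Lp p) ℤ)) (n : ℕ),
        ∀ A : MvPolynomial (Lp p) ℤ →+* Matrix (Vx M × Fin (n + 1)) (Vx M × Fin (n + 1)) ℤ_[p],
        (∀ l, A (X l) = (Tm M n l.1).map (Int.cast : ℤ → ℤ_[p])) →
        ((Sys (matRep (toK A))).filter fun χ => ∀ u ∈ J, ‖χ u‖ < 1).card =
          ∑ i ∈ range (n + 1), dd J n i) ∧
      (∀ J n i, dd J (n + (p - 1)) i = dd J n i) ∧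
      (∀ J n i, dd J n (i + (p - 1)) = dd J n i) ∧
      (∀ (J : Ideal (MvPolynomial (Lp p) ℤ)) (n : ℕ), Even n → ∀ (i j : ℕ)
        (τ : MvPolynomial (Lp p) ℤ →+* MvPolynomial (Lp p) ℤ),
        (∀ l, τ (X l) = (l.1 : MvPolynomial (Lp p) ℤ) ^ j * X l) →
        dd J (n + 2 * j) (i + j) = dd (J.map τ) n i) := by
  refine ⟨(famPN p M hM hpM).dd, fun J n A hA => ?_, (famPN p M hM hpM).dd_n,
    (famPN p M hM hpM).dd_i, fun J n hn i j τ hτ => ?_⟩
  · exact (famPN p M hM hpM).card_small A (fun l => (hA l).trans (famPN_t hM hpM n l).symm) J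
  · refine (famPN p M hM hpM).dd_twist hn τ (fun l => ((l.1 : ℕ) : ℤ) ^ j) (fun l => ?_)
      (fun l => famPN_twist hM hpM n i j l) J
    rw [hτ]
    push_cast
    rfl

end Gouvea.GrDegN
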