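import Pool.Agent.Work.MP_d3517d_nt.P5.GrDegPS
import Pool.Agent.Work.MP_d3517d_nt.P5.GrDegPN
import Pool.Agent.Work.MP_d3517d_nt.POS.GrE

/-!
# Systems of eigenvalues by degrees for `p = 2, 3` (MP_d3517d_nt, P5)

For `p = 2, 3` all the graded pieces in even weight are twists of the piece of weight `2` and
degree `0`; the number of systems in weight `n + 2` small on `J` is
`Σ_{i ≤ n} (number in weight 2 small on τ_i J)`, for `p = 2` it is `(n + 1)` times the number in
weight `2`.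
-/

set_option autoImplicit false

open Finset Matrix MvPolynomial Gouvea.Sys Gouvea.Red
open Gouvea.PS (Lp)
open Gouvea.POS (HR0' tw tw_X)

noncomputable section

namespace Gouvea.GrFam

variable {p : ℕ} [Fact p.Prime] {E : Type} [Fintype E] [DecidableEq E] (F : GrFam p E (Lp p))

section Period

variable {Q : Type} (F' : GrFam p E Q)

theorem S_n_mul (n i k : ℕ) : F'.S (n + k * (p - 1)) i = F'.S n i := by
  induction k with
  | zero => simp
  | succ k ih => rw [Nat.succ_mul, ← add_assoc, F'.S_n, ih]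

theorem S_i_mul (n i k : ℕ) : F'.S n (i + k * (p - 1)) = F'.S n i := by
  induction k with
  | zero => simp
  | succ k ih => rw [Nat.succ_mul, ← add_assoc, F'.S_i, ih]

/-- weights congruent modulo `p - 1` -/
theorem S_congr {n m : ℕ} (h : n ≡ m [MOD (p - 1)]) (i : ℕ) : F'.S n i = F'.S m i := by
  have key : ∀ {n m : ℕ}, n ≤ m → n ≡ m [MOD (p - 1)] → F'.S n i = F'.S m i := by
    intro n m hnm h
    obtain ⟨k, hk⟩ := (Nat.modEq_iff_dvd' hnm).1 h
    have h1 : m = n + k * (p - 1) := by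
      rw [mul_comm k, ← hk]
      omega
    rw [h1, F'.S_n_mul]
  rcases le_total n m with h1 | h1
  · exact key h1 h
  · exact (key h1 h.symm).symm

end Period

variable (htw : ∀ n i j l, F.g (n + 2 * j) (i + j) l =
  ((((l.1 : ℕ) : ℤ) ^ j : ℤ) : ZMod p) • F.g n i l)
include htw

theorem S_tw {n : ℕ} (hn : Even n) (i j : ℕ) :
    F.S (n + 2 * j) (i + j) = (F.S n i).map fun ψ => ψ.comp (tw p j) :=
  F.S_twist hn (tw p j) (fun l => ((l.1 : ℕ) : ℤ) ^ j)
    (fun l => by
      rw [tw_X]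
      push_cast
      rfl) (fun l => htw n i j l)

theorem dd_tw {n : ℕ} (hn : Even n) (i j : ℕ) (J : Ideal (HR0' p)) :
    F.dd J (n + 2 * j) (i + j) = F.dd (J.map (tw p j)) n i :=
  F.dd_twist hn (tw p j) (fun l => ((l.1 : ℕ) : ℤ) ^ j)
    (fun l => by
      rw [tw_X]
      push_cast
      rfl) (fun l => htw n i j l) J

/-- for `p = 2, 3` all pieces are twists of the piece of weight `2` -/
theorem S_eq (hp : p - 1 ∣ 2) {n : ℕ} (hn : Even n) (i : ℕ) :
    F.S n i = (F.S 0 0).map fun ψ => ψ.comp (tw p i) := by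
  have h1 := F.S_tw htw (n := 0) (by simp) 0 i
  rw [zero_add, zero_add] at h1
  rw [← h1]
  refine F.S_congr ?_ i
  obtain ⟨m, hm⟩ := hn
  have h2 : n ≡ 0 [MOD (p - 1)] := (Nat.modEq_zero_iff_dvd).2 (hp.trans ⟨m, by omega⟩)
  have h3 : 2 * i ≡ 0 [MOD (p - 1)] := (Nat.modEq_zero_iff_dvd).2 (hp.mul_right i)
  exact h2.trans h3.symm

theorem dd_eq (hp : p - 1 ∣ 2) {n : ℕ} (hn : Even n) (i : ℕ) (J : Ideal (HR0' p)) :
    F.dd J n i = F.dd (J.map (tw p i)) 0 0 := by
  have h1 := F.dd_tw htw (n := 0) (by simp) 0 i J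
  rw [zero_add, zero_add] at h1
  rw [← h1]
  have h2 := F.S_eq htw hp hn i
  have h3 := F.S_eq htw hp (n := 2 * i) (even_two_mul i) i
  rw [dd, dd, h2, h3]

open Classical in
/-- **Counting for `p = 2, 3`.** -/
theorem card_small_23 (hp : p - 1 ∣ 2) {n : ℕ} (hn : Even n)
    (A : HR0' p →+* Matrix (E × Fin (n + 1)) (E × Fin (n + 1)) ℤ_[p])
    (hA : ∀ l, A (X l) = F.t n l) (J : Ideal (HR0' p)) :
    ((Sys (matRep (toK A))).filter fun χ => ∀ u ∈ J, ‖χ u‖ < 1).card =
      ∑ i ∈ range (n + 1), F.dd (J.map (tw p i)) 0 0 := by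
  rw [F.card_small A hA J]
  exact Finset.sum_congr rfl fun i _ => F.dd_eq htw hp hn i J

omit htw in
/-- for `p = 2` all the pieces agree -/
theorem S_eq_two (hp : p = 2) (n i : ℕ) : F.S n i = F.S 0 0 := by
  have h1 : p - 1 = 1 := by omega
  have h2 := F.S_n_mul 0 i n
  have h3 := F.S_i_mul 0 0 i
  rw [h1, mul_one, zero_add] at h2 h3
  rw [h2, h3]

omit htw in
open Classical in
/-- **Counting for `p = 2`.** -/
theorem card_small_two (hp : p = 2) {n : ℕ}
    (A : HR0' p →+* Matrix (E × Fin (n + 1)) (E × Fin (n + 1)) ℤ_[p])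
    (hA : ∀ l, A (X l) = F.t n l) (J : Ideal (HR0' p)) :
    ((Sys (matRep (toK A))).filter fun χ => ∀ u ∈ J, ‖χ u‖ < 1).card =
      (n + 1) * F.dd J 0 0 := by
  rw [F.card_small A hA J, Finset.sum_congr rfl fun i _ => (?_ : F.dd J n i = F.dd J 0 0),
    Finset.sum_const, Finset.card_range, smul_eq_mul]
  rw [dd, F.S_eq_two hp n i, dd]

omit htw in
open Classical in
/-- the number in weight `2` -/
theorem card_small_zero
    (A : HR0' p →+* Matrix (E × Fin (0 + 1)) (E × Fin (0 + 1)) ℤ_[p])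
    (hA : ∀ l, A (X l) = F.t 0 l) (J : Ideal (HR0' p)) :
    ((Sys (matRep (toK A))).filter fun χ => ∀ u ∈ J, ‖χ u‖ < 1).card = F.dd J 0 0 := by
  rw [F.card_small A hA J]
  simp

end Gouvea.GrFam
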