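import Pool.Agent.Work.MP_d3517d_nt.P5.Count
import Pool.Agent.Work.MP_d3517d_nt.Sys.Source

/-!
# P5: the part of a lattice at an ideal, and its systems of eigenvalues (MP_d3517d_nt)

* `GE_conj`, `HH_conj`, `GE_proj`, `finrank_ker_idem`: transport and projections;
* `GE_part`: the Newton function and the rank of the part of a lattice at an ideal, in terms of
  the systems of eigenvalues which are small on the ideal.
-/

open Polynomial Finset Filter Topology Module

noncomputable section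

namespace Gouvea.P5

open Pool.Agent.Gouv Gouvea.Sys

variable {p : ℕ} [hp : Fact p.Prime]

section Transport

variable {A B : Type} [AddCommGroup A] [Module ℤ_[p] A] [Module.Free ℤ_[p] A]
  [Module.Finite ℤ_[p] A] [AddCommGroup B] [Module ℤ_[p] B] [Module.Free ℤ_[p] B]
  [Module.Finite ℤ_[p] B]

theorem GE_conj (f : A ≃ₗ[ℤ_[p]] B) (U : A →ₗ[ℤ_[p]] A) (V : B →ₗ[ℤ_[p]] B)
    (h : ∀ a, V (f a) = f (U a)) (x : ℝ) : GE V x = GE U x := by
  have h1 : V = f.conj U := by
    apply LinearMap.ext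
    intro b
    obtain ⟨a, rfl⟩ := f.surjective b
    rw [h, LinearEquiv.conj_apply_apply, LinearEquiv.symm_apply_apply]
  unfold GE specE
  rw [h1, LinearEquiv.charpoly_conj]

omit [Module.Free ℤ_[p] A] [Module.Finite ℤ_[p] A] [Module.Free ℤ_[p] B]
  [Module.Finite ℤ_[p] B] in
theorem HH_conj (f : A ≃ₗ[ℤ_[p]] B) (U : A →ₗ[ℤ_[p]] A) (V : B →ₗ[ℤ_[p]] B)
    (h : ∀ a, V (f a) = f (U a)) (x : ℕ) : HH V x = HH U x := by
  unfold HH
  congr 2
  have h1 : (Fs U x).toAddSubgroup = (Fs V x).toAddSubgroup.comap f.toLinearMap.toAddMonoidHom := by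
    ext a
    constructor
    · rintro ⟨y, hy⟩
      refine ⟨f y, ?_⟩
      change V (f a) = _
      rw [h, hy, map_smul]
    · rintro ⟨y, hy⟩
      obtain ⟨z, rfl⟩ := f.surjective y
      refine ⟨z, f.injective ?_⟩
      rw [map_smul, ← h]
      exact hy
  rw [h1, AddSubgroup.index_comap_of_surjective _ f.surjective]

theorem GE_zero (x : ℝ) : GE (0 : A →ₗ[ℤ_[p]] A) x = 0 := by
  classical
  have b := Module.finBasis ℤ_[p] A
  unfold GE specE
  rw [← LinearMap.charpoly_toMatrix _ b, map_zero, Matrix.charpoly_zero]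
  rw [Polynomial.map_pow, Polynomial.map_X, Polynomial.map_pow, Polynomial.map_X,
    Polynomial.roots_X_pow, Multiset.map_nsmul, Multiset.sum_nsmul, Multiset.map_singleton,
    Multiset.sum_singleton, norm_zero, zero_mul, max_eq_left zero_le_one, Real.logb_one, smul_zero]

/-- The Newton function of the part cut out by an idempotent. -/
theorem GE_proj {e : Module.End ℤ_[p] A} (he : e * e = e) (T : Module.End ℤ_[p] A)
    (hB : LinearMap.ker e ≤ (LinearMap.ker e).comap T) (x : ℝ) :
    GE ((1 - e) * T) x =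
      GE (LinearMap.restrict T (p := LinearMap.ker e) (q := LinearMap.ker e) hB) x := by
  have hsat : Sat (LinearMap.ker e) := sat_ker e
  have := hsat.free
  have hB' : LinearMap.ker e ≤ (LinearMap.ker e).comap ((1 - e) * T) := by
    intro v hv
    have h1 : e (T v) = 0 := hB hv
    change e ((T v) - e (T v)) = 0
    rw [h1, sub_zero, h1]
  rw [GE_add (LinearMap.ker e) ((1 - e) * T) hB' x]
  have h1 : LinearMap.restrict ((1 - e) * T) (p := LinearMap.ker e) (q := LinearMap.ker e) hB' =
      LinearMap.restrict T (p := LinearMap.ker e) (q := LinearMap.ker e) hB := by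
    apply LinearMap.ext
    intro v
    apply Subtype.ext
    have h1 : e (T v) = 0 := hB v.2
    change T v - e (T v) = T v
    rw [h1, sub_zero]
  have h2 : (LinearMap.ker e).mapQ (LinearMap.ker e) ((1 - e) * T) hB' = 0 := by
    apply LinearMap.ext
    intro v
    obtain ⟨v, rfl⟩ := (LinearMap.ker e).mkQ_surjective v
    rw [Submodule.mkQ_apply, Submodule.mapQ_apply, LinearMap.zero_apply,
      Submodule.Quotient.mk_eq_zero, LinearMap.mem_ker]
    have h0 : e (e (T v)) = e (T v) := congrArg (fun f : Module.End ℤ_[p] A => f (T v)) he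
    change e (T v - e (T v)) = 0
    rw [map_sub, h0, sub_self]
  rw [h1, h2, GE_zero, add_zero]

/-- The rank of the kernel of an idempotent. -/
theorem finrank_ker_idem {ι : Type} [Fintype ι] [DecidableEq ι] (b : Module.Basis ι ℤ_[p] A)
    {e : Module.End ℤ_[p] A} (he : e * e = e) : Module.finrank ℤ_[p] (LinearMap.ker e) =
      (toQ (LinearMap.toMatrix b b (1 - e))).rank := by
  have h1 : LinearMap.IsProj (LinearMap.ker e) (1 - e : Module.End ℤ_[p] A) := by
    constructor
    · intro x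
      rw [LinearMap.mem_ker]
      have h0 : e (e x) = e x := congrArg (fun f : Module.End ℤ_[p] A => f x) he
      change e (x - e x) = 0
      rw [map_sub, h0, sub_self]
    · intro x hx
      have h2 : e x = 0 := hx
      change x - e x = x
      rw [h2, sub_zero]
  have h2 := h1.trace
  rw [LinearMap.trace_eq_matrix_trace ℤ_[p] b] at h2
  set M := LinearMap.toMatrix b b (1 - e) with hM
  have h3 : M * M = M := by
    rw [hM, ← LinearMap.toMatrix_mul]
    congr 1
    rw [sub_mul, mul_sub, mul_sub, he]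
    simp
  have h4 : IsIdempotentElem (Matrix.toLin' (toQ M)) := by
    have h5 : toQ M * toQ M = toQ M := by rw [← toQ_mul, h3]
    have h6 := Matrix.toLin'_mul (toQ M) (toQ M)
    rw [h5] at h6
    exact h6.symm
  have h5 := (LinearMap.isProj_range_iff_isIdempotentElem _).2 h4 |>.trace
  rw [Matrix.trace_toLin'_eq] at h5
  have h6 : (toQ M).trace = algebraMap ℤ_[p] ℚ_[p] M.trace := by
    rw [Matrix.trace, Matrix.trace, map_sum]
    rfl
  rw [h6, h2, map_natCast] at h5
  exact_mod_cast h5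

end Transport

section Part

variable {R R' : Type} [CommRing R] [CommRing R'] {A : Type} [AddCommGroup A] [Module ℤ_[p] A]
  [Module.Free ℤ_[p] A] [Module.Finite ℤ_[p] A]

open Classical in
/-- **The part at an ideal, in terms of systems of eigenvalues.** -/
theorem GE_part (j : R →+* R') (Φ : R' →+* Module.End ℤ_[p] A) {ι : Type} [Fintype ι]
    [DecidableEq ι] (b : Module.Basis ι ℤ_[p] A) (Am : R' →+* Matrix ι ι ℤ_[p])
    (hAm : ∀ r, LinearMap.toMatrix b b (Φ r) = Am r) (I : Ideal R)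
    {e : Module.End ℤ_[p] A} {t : R} (ht : t ∈ I) (he : e * e = e)
    (het : ∀ a, ∃ y, e a - Φ (j t) a = (p : ℤ_[p]) • y)
    (hcomm : ∀ u, e * Φ u = Φ u * e)
    (hbig : ∀ u ∈ I, ∃ k, 0 < k ∧ ∀ a, ∃ y, (Φ (j u) ^ k) (a - Φ (j t) a) = (p : ℤ_[p]) • y)
    (τ : R') (hB : LinearMap.ker e ≤ (LinearMap.ker e).comap (Φ τ)) :
    (∀ x, GE ((Φ τ).restrict hB) x =
      GG (p : ℝ) (((Sys (matRep (toK Am))).filter fun χ => ∀ u ∈ I, ‖χ (j u)‖ < 1).map
        fun χ => χ τ) x) ∧
    Module.finrank ℤ_[p] (LinearMap.ker e) =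
      ((Sys (matRep (toK Am))).filter fun χ => ∀ u ∈ I, ‖χ (j u)‖ < 1).card := by
  let τm : Module.End ℤ_[p] A ≃+* Matrix ι ι ℤ_[p] := (LinearMap.toMatrixAlgEquiv b).toRingEquiv
  have hτm : ∀ g, τm g = LinearMap.toMatrix b b g := fun g => rfl
  have hΦ : ∀ r, τm (Φ r) = Am r := fun r => hAm r
  -- divisibility
  have hdiv : ∀ G : Module.End ℤ_[p] A, (∀ a, ∃ y, G a = (p : ℤ_[p]) • y) →
      (τm G).map PadicInt.toZMod = 0 := by
    intro G hG
    ext a c
    obtain ⟨y, hy⟩ := hG (b c)
    rw [hτm, Matrix.map_apply, LinearMap.toMatrix_apply, hy, map_smul, Finsupp.smul_apply,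
      smul_eq_mul, map_mul, map_natCast, CharP.cast_eq_zero, zero_mul, Matrix.zero_apply]
  have hsub : ∀ X Y : Matrix ι ι ℤ_[p], (X - Y).map PadicInt.toZMod =
      X.map PadicInt.toZMod - Y.map PadicInt.toZMod := fun X Y =>
    map_sub (RingHom.mapMatrix (PadicInt.toZMod (p := p))) X Y
  set em : Matrix ι ι ℤ_[p] := τm e with hem
  have hei : em * em = em := by rw [hem, ← map_mul, he]
  have hemt : em.map PadicInt.toZMod = ((Am.comp j) t).map PadicInt.toZMod := by
    have h1 := hdiv (e - Φ (j t)) het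
    rw [map_sub, hΦ, hsub, sub_eq_zero] at h1
    exact h1
  have hcm : ∀ u, em * (Am.comp j) u = (Am.comp j) u * em := by
    intro u
    rw [RingHom.comp_apply, ← hΦ, hem, ← map_mul, ← map_mul, hcomm]
  have hbm : ∀ u ∈ I, ∃ k, 0 < k ∧
      ((Am.comp j) u ^ k * (1 - (Am.comp j) t)).map PadicInt.toZMod = 0 := by
    intro u hu
    obtain ⟨k, hk, hk'⟩ := hbig u hu
    refine ⟨k, hk, ?_⟩
    have h1 := hdiv (Φ (j u) ^ k * (1 - Φ (j t))) hk'
    rw [map_mul, map_pow, map_sub, map_one, hΦ, hΦ] at h1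
    exact h1
  have hei' : (1 - em) * (1 - em) = 1 - em := by
    rw [sub_mul, mul_sub, mul_sub, hei]
    simp
  have hτc : (1 - em) * Am τ = Am τ * (1 - em) := by
    rw [sub_mul, mul_sub, one_mul, mul_one, ← hΦ, hem, ← map_mul, ← map_mul, hcomm]
  obtain ⟨h1, h2⟩ := spec_part j Am I (1 - em) hei' τ hτc
    (fun v => tendsto_iff (Am.comp j) ht hei hemt hcm hbm v)
  -- the Newton function
  have hGE : ∀ x, GE ((Φ τ).restrict hB) x =
      GG (p : ℝ) (((Sys (matRep (toK Am))).filter fun χ => ∀ u ∈ I, ‖χ (j u)‖ < 1).map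
        fun χ => χ τ) x := by
    intro x
    rw [← GE_proj he (Φ τ) hB x, GE_eq_Gf b]
    have h3 : LinearMap.toMatrix b b ((1 - e) * Φ τ) = (1 - em) * Am τ := by
      rw [← hτm, map_mul, map_sub, map_one, hΦ]
    rw [h3]
    unfold Gf
    rw [h2, Multiset.map_add, Multiset.sum_add, Multiset.map_replicate, Multiset.sum_replicate,
      norm_zero, zero_mul, max_eq_left zero_le_one, Real.logb_one, smul_zero, add_zero]
    rfl
  refine ⟨hGE, ?_⟩
  rw [← h1]
  -- the rank
  have h4 : Module.finrank ℤ_[p] (LinearMap.ker e) = (toQ (1 - em)).rank := by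
    rw [finrank_ker_idem b he, ← hτm, map_sub, map_one]
  exact h4

end Part

end Gouvea.P5
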