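import Pool.Agent.Work.MP_d3517d_nt.P5.GEApx
import Pool.Agent.Work.MP_d3517d_nt.P5.Part
import Pool.Agent.Work.MP_d3517d_nt.Fin.Core

/-!
# P5: the counting functions of an ideal from the Newton functions of the weights (MP_d3517d_nt)

`apx_of_weights`: if the Newton functions of the systems which are small on `J`, and of all
systems, are `c x ^ 2 / 2` and `c0 x ^ 2 / 2` up to `C (x + 1)` and a defect `sh n x` which is
`o(n ^ 2)` outside a set of density zero, and the number of all systems is `c0 n / (p + 1) + O(1)`,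
then the counting functions at `J` are approximately linear with density `c`.
-/

open Polynomial Finset Filter Topology Module

noncomputable section

namespace Gouvea.P5

open Pool.Agent.Gouv Gouvea.Sys

variable {p : ℕ} [hp : Fact p.Prime]

theorem GG_add' {K : Type} [NormedField K] (q : ℝ) (s t : Multiset K) (x : ℝ) :
    GG q (s + t) x = GG q s x + GG q t x := by
  unfold GG
  rw [Multiset.map_add, Multiset.sum_add]

theorem GG_nonneg' {K : Type} [NormedField K] {q : ℝ} (hq : 1 < q) (s : Multiset K) (x : ℝ) :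
    0 ≤ GG q s x := by
  unfold GG
  refine Multiset.sum_nonneg fun y hy => ?_
  obtain ⟨l, -, rfl⟩ := Multiset.mem_map.1 hy
  exact Real.logb_nonneg hq (le_max_left _ _)

open Classical in
theorem SJ_bot {ι : Type} [Fintype ι] [DecidableEq ι] (A : HR →+* Matrix ι ι ℤ) :
    SJ (p := p) A ⊥ = Sys (matRep (toK (intP p A))) := by
  unfold SJ
  rw [Multiset.filter_eq_self]
  intro χ _ t ht
  rw [Ideal.mem_bot] at ht
  rw [ht, map_zero, map_zero, norm_zero]
  exact zero_lt_one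

theorem card_SJ_bot {ι : Type} [Fintype ι] [DecidableEq ι] (A : HR →+* Matrix ι ι ℤ) :
    (SJ (p := p) A ⊥).card = Fintype.card ι := by
  rw [SJ_bot, card_Sys, Module.finrank_fintype_fun_eq_card]

open Classical in
/-- **From the weights to the counting functions.** -/
theorem apx_of_weights {ι : ℕ → Type} [∀ n, Fintype (ι n)] [∀ n, DecidableEq (ι n)]
    (A : ∀ n, HR →+* Matrix (ι n) (ι n) ℤ) (sh : ℕ → ℕ → ℝ)
    (hamb : ∀ δ : ℝ, 0 < δ → ∃ E : Set ℕ, D0 E ∧ ∀ n ∉ E, Even n → ∀ x : ℕ,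
      x * (p + 1) ≤ n → sh n x ≤ δ * ((n : ℝ) + 1) ^ 2)
    (J : Ideal (HR0 p)) {c C c0 C0 C1 : ℝ} (hc : 0 ≤ c)
    (hJ : ∀ n, Even n → ∀ x : ℕ, 2 * x ≤ n →
      |GG (p : ℝ) ((SJ (p := p) (A n) J).map fun χ => χ (Xp p)) x - c * (x : ℝ) ^ 2 / 2| ≤
        C * (x + 1) + sh n x)
    (h0 : ∀ n, Even n → ∀ x : ℕ, 2 * x ≤ n →
      |GG (p : ℝ) ((SJ (p := p) (A n) ⊥).map fun χ => χ (Xp p)) x - c0 * (x : ℝ) ^ 2 / 2| ≤
        C0 * (x + 1) + sh n x)
    (hcard : ∀ n, Even n → |(Fintype.card (ι n) : ℝ) - c0 * (n / ((p : ℝ) + 1))| ≤ C1) :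
    c ≤ c0 ∧ Apx ((p : ℝ) + 1)
      (fun n x => if Even n then
        (((SJ (p := p) (A n) J).filter fun χ => (p : ℝ) ^ (-x) ≤ ‖χ (Xp p)‖).card : ℝ) else 0)
      (fun n => if Even n then ((SJ (p := p) (A n) J).card : ℝ) else 0)
      (fun n => if Even n then c else 0) := by
  have hp1 : (1 : ℝ) < p := by exact_mod_cast hp.out.one_lt
  have hp2 : 2 ≤ p + 1 := by have := hp.out.two_le; omega
  set s : ℕ → Multiset (PadicAlgCl p) := fun n => (SJ (p := p) (A n) J).map fun χ => χ (Xp p) with hs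
  set s' : ℕ → Multiset (PadicAlgCl p) := fun n =>
    ((SJ (p := p) (A n) ⊥).filter fun χ => ¬ ∀ t ∈ J, ‖χ (incl p t)‖ < 1).map fun χ => χ (Xp p) with hs'
  have hsum : ∀ n, s n + s' n = (SJ (p := p) (A n) ⊥).map fun χ => χ (Xp p) := by
    intro n
    have h1 : SJ (p := p) (A n) J = (SJ (p := p) (A n) ⊥).filter fun χ => ∀ t ∈ J, ‖χ (incl p t)‖ < 1 := by
      rw [SJ_bot]
      rfl
    change (SJ (p := p) (A n) J).map _ + _ = _
    rw [h1, hs', ← Multiset.map_add, Multiset.filter_add_not]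
  have hGG : ∀ n x, GG (p : ℝ) (s n) x + GG (p : ℝ) (s' n) x =
      GG (p : ℝ) ((SJ (p := p) (A n) ⊥).map fun χ => χ (Xp p)) x := by
    intro n x
    rw [← GG_add', hsum]
  have hle : ∀ n x, GG (p : ℝ) (s n) x ≤ GG (p : ℝ) ((SJ (p := p) (A n) ⊥).map fun χ => χ (Xp p)) x := by
    intro n x
    rw [← hGG]
    have := GG_nonneg' hp1 (s' n) x
    linarith
  have hcards : ∀ n, ((s n).card : ℝ) + (s' n).card = Fintype.card (ι n) := by
    intro n
    rw [← Nat.cast_add, ← Multiset.card_add, hsum, Multiset.card_map, card_SJ_bot]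
  have hx2 : ∀ {n x : ℕ}, x * (p + 1) ≤ n → 2 * x ≤ n := by
    intro n x h
    calc 2 * x ≤ (p + 1) * x := Nat.mul_le_mul_right x hp2
      _ = x * (p + 1) := mul_comm _ _
      _ ≤ n := h
  -- `c ≤ c0`
  have hcc : c ≤ c0 := by
    by_contra hcon
    push Not at hcon
    set d := c - c0 with hd
    have hd0 : 0 < d := by linarith
    set P : ℝ := (p : ℝ) + 1 with hP
    have hP0 : 0 < P := by linarith
    obtain ⟨E, hE, hE'⟩ := hamb (d / (64 * P ^ 2)) (by positivity)
    obtain ⟨K, hK⟩ := exists_nat_gt ((8 * (|C| + |C0|)) / d)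
    obtain ⟨k, hk, hkE⟩ := hE.exists_notMem (P0 := 2) (by norm_num) 0 ((K + 1) * (p + 1))
    rw [zero_add] at hkE
    set n := 2 * k with hn
    have hne : Even n := ⟨k, by omega⟩
    set x := n / (p + 1) with hx
    have hxn : x * (p + 1) ≤ n := Nat.div_mul_le_self n (p + 1)
    have hxn' : n + 1 ≤ (x + 1) * (p + 1) := by
      have := Nat.lt_div_mul_add (a := n) (b := p + 1) (by omega)
      rw [← hx] at this
      have h2 : (x + 1) * (p + 1) = x * (p + 1) + (p + 1) := by ring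
      omega
    have hxK : K + 1 ≤ x := by
      rw [hx, Nat.le_div_iff_mul_le (by omega)]
      omega
    have a1 := hJ n hne x (hx2 hxn)
    have a2 := h0 n hne x (hx2 hxn)
    have a3 := hE' n hkE hne x hxn
    have a4 := hle n x
    have b1 := (abs_le.1 a1).1
    have b2 := (abs_le.1 a2).2
    have hX : (K : ℝ) + 1 ≤ x := by exact_mod_cast hxK
    have hK0 : (0 : ℝ) ≤ K := Nat.cast_nonneg K
    have hnX : (n : ℝ) + 1 ≤ (x + 1) * P := by
      rw [hP]
      exact_mod_cast hxn'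
    generalize hxx : (x : ℝ) = X at *
    generalize hnn : (n : ℝ) = Nn at *
    have hNn0 : 0 ≤ Nn := by rw [← hnn]; positivity
    have c1 : (Nn + 1) ^ 2 ≤ (X + 1) ^ 2 * P ^ 2 := by
      rw [← mul_pow]
      exact pow_le_pow_left₀ (by linarith) hnX 2
    have c2 : d / (64 * P ^ 2) * (Nn + 1) ^ 2 ≤ d * (X + 1) ^ 2 / 64 := by
      calc d / (64 * P ^ 2) * (Nn + 1) ^ 2 ≤ d / (64 * P ^ 2) * ((X + 1) ^ 2 * P ^ 2) := by
            gcongr
        _ = d * (X + 1) ^ 2 / 64 := by field_simp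
    have c3 : (X + 1) ^ 2 ≤ 4 * X ^ 2 := by nlinarith
    have c4 : C * (X + 1) ≤ 2 * |C| * X := by
      have := mul_le_mul_of_nonneg_right (le_abs_self C) (show 0 ≤ X + 1 by linarith)
      have h2 : |C| * (X + 1) ≤ |C| * (2 * X) :=
        mul_le_mul_of_nonneg_left (by linarith) (abs_nonneg _)
      linarith
    have c5 : C0 * (X + 1) ≤ 2 * |C0| * X := by
      have := mul_le_mul_of_nonneg_right (le_abs_self C0) (show 0 ≤ X + 1 by linarith)
      have h2 : |C0| * (X + 1) ≤ |C0| * (2 * X) :=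
        mul_le_mul_of_nonneg_left (by linarith) (abs_nonneg _)
      linarith
    have c6 : d * (X + 1) ^ 2 / 64 ≤ d * X ^ 2 / 16 := by nlinarith
    have c7 : d * X ^ 2 / 2 ≤ 2 * (|C| + |C0|) * X + 2 * (d * X ^ 2 / 16) := by
      have : d * X ^ 2 / 2 = c * X ^ 2 / 2 - c0 * X ^ 2 / 2 := by rw [hd]; ring
      rw [this]
      linarith
    rw [div_lt_iff₀ hd0] at hK
    have c8 : 0 < X := by linarith
    have c9 : d * X ≤ 8 * (|C| + |C0|) := by
      have h3 : d * X ^ 2 * (3 / 8) ≤ 2 * (|C| + |C0|) * X := by linarith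
      have h4 : (d * X * (3 / 8)) * X ≤ (2 * (|C| + |C0|)) * X := by
        have : (d * X * (3 / 8)) * X = d * X ^ 2 * (3 / 8) := by ring
        rw [this]
        exact h3
      have h5 := le_of_mul_le_mul_right h4 c8
      linarith [mul_pos hd0 c8]
    have c10 : (K : ℝ) * d ≤ X * d := mul_le_mul_of_nonneg_right (by linarith) hd0.le
    linarith [mul_comm X d]
  refine ⟨hcc, ?_⟩
  have hthr : ∀ {δ B : ℝ}, 0 < δ → ∃ n0 : ℕ, ∀ n ≥ n0, |B| * ((n : ℝ) + 1) ≤ δ * ((n : ℝ) + 1) ^ 2 := by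
    intro δ B hδ
    obtain ⟨n0, hn0⟩ := exists_nat_gt (|B| / δ)
    refine ⟨n0, fun n hn => ?_⟩
    have h1 : (n0 : ℝ) ≤ n := by exact_mod_cast hn
    rw [div_lt_iff₀ hδ] at hn0
    have h2 : |B| ≤ δ * ((n : ℝ) + 1) := by nlinarith
    have h3 : (0 : ℝ) ≤ (n : ℝ) + 1 := by positivity
    calc |B| * ((n : ℝ) + 1) ≤ (δ * ((n : ℝ) + 1)) * ((n : ℝ) + 1) :=
          mul_le_mul_of_nonneg_right h2 h3
      _ = δ * ((n : ℝ) + 1) ^ 2 := by ring
  have key := apx_of_GG hp1 s s' (fun _ => c) (fun _ => c0 - c) (q := c0) (fun _ => hc)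
    (fun _ => by linarith) (fun _ => hcc) (fun _ => by linarith) ?_ ?_
  · refine key.congr (fun n x => ?_) (fun n => ?_) fun n => rfl
    · by_cases hn : Even n
      · simp only [if_pos hn]
        congr 1
        unfold Pool.Agent.Gouv.cnt
        rw [hs, Multiset.filter_map, Multiset.card_map]
        rfl
      · simp only [if_neg hn]
    · by_cases hn : Even n
      · simp only [if_pos hn]
        rw [hs, Multiset.card_map]
      · simp only [if_neg hn]
  · intro δ hδ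
    obtain ⟨n0, hn0⟩ := exists_nat_gt (C1 / δ)
    refine ⟨{n | n < n0}, D0.of_finite (Set.finite_lt_nat _), fun n hn hne => ?_⟩
    have hn' : n0 ≤ n := not_lt.1 hn
    have h1 : (n0 : ℝ) ≤ n := by exact_mod_cast hn'
    rw [div_lt_iff₀ hδ] at hn0
    rw [hcards, show c + (c0 - c) = c0 by ring]
    refine (hcard n hne).trans ?_
    nlinarith
  · intro δ hδ
    obtain ⟨E, hE, hE'⟩ := hamb (δ / 2) (by linarith)
    obtain ⟨n1, hn1⟩ := hthr (δ := δ / 2) (B := C) (by linarith)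
    obtain ⟨n2, hn2⟩ := hthr (δ := δ / 2) (B := C0) (by linarith)
    refine ⟨E ∪ {n | n < max n1 n2}, hE.union (D0.of_finite (Set.finite_lt_nat _)),
      fun n hn hne x hx => ?_⟩
    rw [Set.mem_union, not_or] at hn
    have hn3 : max n1 n2 ≤ n := not_lt.1 hn.2
    have hx' : x * (p + 1) ≤ n := by exact_mod_cast hx
    have a1 := hE' n hn.1 hne x hx'
    have a2 := hn1 n ((le_max_left _ _).trans hn3)
    have a3 := hn2 n ((le_max_right _ _).trans hn3)
    have hxn : (x : ℝ) ≤ n := by exact_mod_cast (by have := hx2 hx'; omega : x ≤ n)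
    have hbd : ∀ B : ℝ, B * ((x : ℝ) + 1) ≤ |B| * ((n : ℝ) + 1) := fun B => by
      have h1 := mul_le_mul_of_nonneg_right (le_abs_self B) (show 0 ≤ (x : ℝ) + 1 by positivity)
      have h2 := mul_le_mul_of_nonneg_left (show (x : ℝ) + 1 ≤ (n : ℝ) + 1 by linarith)
        (abs_nonneg B)
      linarith
    have b1 := hbd C
    have b2 := hbd C0
    have c1 := hJ n hne x (hx2 hx')
    have c2 := h0 n hne x (hx2 hx')
    refine ⟨c1.trans (by linarith), ?_⟩
    rw [hGG, show c + (c0 - c) = c0 by ring]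
    exact c2.trans (by linarith)

end Gouvea.P5
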