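import Pool.Agent.Work.MP_d3517d_nt.P5.CountUp

/-!
# P5: the kernels of `1 + S` and `1 + R + R²` on an induced module (MP_d3517d_nt)

`2 dim ker (1 + S) ≤ [G : Γ] (dim V + c)` and `3 dim ker (1 + R + R²) ≤ [G : Γ] (2 dim V + c)`
if the corresponding inequalities hold for the elements of `Γ` conjugate to `S`, `R`; hence
`6 dim Sy ≤ [G : Γ] (dim V + 3 c + 2 c')`.
-/

open Matrix ModularGroup Module

noncomputable section

namespace Gouvea.P5

variable {k : Type} [Field k] {V : Type} [AddCommGroup V] [Module k V]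
  {Γ : Subgroup G} {ρ : G → V →ₗ[k] V}

/-- right translation on the cosets -/
def tr (Γ : Subgroup G) (w : G) (q : Qt Γ) : Qt Γ := qt Γ (q.out * w)

lemma tr_qt (w g : G) : tr Γ w (qt Γ g) = qt Γ (g * w) := by
  unfold tr
  rw [qt_eq]
  have h : g * w * ((qt Γ g).out * w)⁻¹ = kap Γ g := by
    unfold kap
    group
  rw [h]
  exact kap_mem Γ g

lemma qt_mul_neg (hρ : IsAct Γ ρ) (g : G) : qt Γ (g * -1) = qt Γ g := by
  have h1 : g * (-1 : G) = -1 * g := by
    ext i j
    simp
  rw [h1, qt_mul hρ.neg_mem]

lemma tr_S_S (hρ : IsAct Γ ρ) (q : Qt Γ) : tr Γ S (tr Γ S q) = q := by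
  conv_lhs => rw [← qt_out q, tr_qt, tr_qt, mul_assoc, S_mul_S, qt_mul_neg hρ, qt_out]

lemma tr_Re_Re_Re (q : Qt Γ) : tr Γ Re (tr Γ Re (tr Γ Re q)) = q := by
  conv_lhs => rw [← qt_out q, tr_qt, tr_qt, tr_qt, mul_assoc, mul_assoc, ← mul_assoc Re Re Re,
    Re_cube, mul_one, qt_out]

lemma fix_mem {w : G} {q : Qt Γ} (h : tr Γ w q = q) : q.out * w * q.out⁻¹ ∈ Γ := by
  have h1 : qt Γ q.out = qt Γ (q.out * w) := by
    rw [qt_out]
    exact h.symm
  exact qt_eq.1 h1

lemma eval_tr {F : G → V} (hF : F ∈ Ind Γ ρ) (w g : G) (h : F (tr Γ w (qt Γ g)).out = 0) :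
    F (g * w) = 0 := by
  rw [Ind_apply hF, ← tr_qt, h, map_zero]

lemma eval_zero {F : G → V} (hF : F ∈ Ind Γ ρ) (h : ∀ q : Qt Γ, F q.out = 0) : F = 0 := by
  funext g
  rw [Ind_apply hF, h, map_zero]
  rfl

/-! ### combinatorics -/

lemma card_invol {Q : Type} [Fintype Q] [DecidableEq Q] (π : Q → Q) (hπ : ∀ q, π (π q) = q)
    (e : Q → ℕ) (he : Function.Injective e) :
    2 * (Finset.univ.filter fun q => e q < e (π q)).card +
      (Finset.univ.filter fun q => π q = q).card = Fintype.card Q := by
  have h1 : (Finset.univ.filter fun q => e q < e (π q)).card =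
      (Finset.univ.filter fun q => e (π q) < e q).card := by
    refine Finset.card_bij (fun q _ => π q) ?_ ?_ ?_
    · intro q hq
      simp only [Finset.mem_filter, Finset.mem_univ, true_and] at hq ⊢
      rwa [hπ]
    · intro a _ b _ h
      rw [← hπ a, h, hπ]
    · intro b hb
      simp only [Finset.mem_filter, Finset.mem_univ, true_and] at hb
      refine ⟨π b, ?_, hπ b⟩
      simp only [Finset.mem_filter, Finset.mem_univ, true_and]
      rwa [hπ]
  have h2 : Fintype.card Q = (Finset.univ.filter fun q => e q < e (π q)).card +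
      (Finset.univ.filter fun q => e (π q) < e q).card +
      (Finset.univ.filter fun q => π q = q).card := by
    rw [← Finset.card_univ, ← Finset.card_union_of_disjoint, ← Finset.card_union_of_disjoint]
    · congr 1
      ext q
      simp only [Finset.mem_univ, Finset.mem_union, Finset.mem_filter, true_and, true_iff]
      rcases lt_trichotomy (e q) (e (π q)) with h | h | h
      · exact Or.inl (Or.inl h)
      · exact Or.inr (he h).symm
      · exact Or.inl (Or.inr h)
    · rw [Finset.disjoint_left]
      intro q hq hq'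
      simp only [Finset.mem_union, Finset.mem_filter, Finset.mem_univ, true_and] at hq hq'
      rw [hq'] at hq
      omega
    · rw [Finset.disjoint_left]
      intro q hq hq'
      simp only [Finset.mem_filter, Finset.mem_univ, true_and] at hq hq'
      omega
  omega

/-- the minimum of its orbit -/
def IsMin {Q : Type} (π : Q → Q) (e : Q → ℕ) (q : Q) : Prop :=
  e q < e (π q) ∧ e q < e (π (π q))

open Classical in
lemma card_three {Q : Type} [Fintype Q] (π : Q → Q) (hπ : ∀ q, π (π (π q)) = q)
    (e : Q → ℕ) (he : Function.Injective e) :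
    3 * (Finset.univ.filter fun q => π q ≠ q ∧ ¬ IsMin π e q).card +
      2 * (Finset.univ.filter fun q => π q = q).card = 2 * Fintype.card Q := by
  have hinj : Function.Injective π := fun a b h => by rw [← hπ a, h, hπ]
  have hnf : ∀ q, π q ≠ q → π (π q) ≠ π q := fun q h h' => h (hinj h')
  have hstep : ∀ P : Q → Prop, (Finset.univ.filter fun q => π q ≠ q ∧ P q).card =
      (Finset.univ.filter fun q => π q ≠ q ∧ P (π q)).card := by
    intro P
    refine Finset.card_bij (fun q _ => π (π q)) ?_ ?_ ?_
    · intro q hq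
      simp only [Finset.mem_filter, Finset.mem_univ, true_and] at hq ⊢
      refine ⟨hnf _ (hnf _ hq.1), ?_⟩
      rw [hπ]
      exact hq.2
    · intro a _ b _ h
      exact hinj (hinj h)
    · intro b hb
      simp only [Finset.mem_filter, Finset.mem_univ, true_and] at hb
      refine ⟨π b, ?_, hπ b⟩
      simp only [Finset.mem_filter, Finset.mem_univ, true_and]
      exact ⟨hnf _ hb.1, hb.2⟩
  have h1 := hstep (IsMin π e)
  have h2 := hstep fun q => IsMin π e (π q)
  -- exactly one of the three is minimal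
  have h3 : ∀ q, π q ≠ q →
      (IsMin π e q ∧ ¬ IsMin π e (π q) ∧ ¬ IsMin π e (π (π q))) ∨
      (¬ IsMin π e q ∧ IsMin π e (π q) ∧ ¬ IsMin π e (π (π q))) ∨
      (¬ IsMin π e q ∧ ¬ IsMin π e (π q) ∧ IsMin π e (π (π q))) := by
    intro q hq
    have a1 : e (π q) ≠ e q := fun h => hq (he h)
    have a2 : e (π (π q)) ≠ e (π q) := fun h => hnf q hq (he h)
    have a3 : e (π (π q)) ≠ e q := fun h => by
      have := he h
      apply hq
      have h5 := congrArg π this
      rw [hπ] at h5
      exact h5.symm
    unfold IsMin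
    rw [hπ]
    omega
  have h4 : (Finset.univ.filter fun q => π q ≠ q).card =
      (Finset.univ.filter fun q => π q ≠ q ∧ IsMin π e q).card +
      (Finset.univ.filter fun q => π q ≠ q ∧ IsMin π e (π q)).card +
      (Finset.univ.filter fun q => π q ≠ q ∧ IsMin π e (π (π q))).card := by
    rw [← Finset.card_union_of_disjoint, ← Finset.card_union_of_disjoint]
    · congr 1
      ext q
      simp only [Finset.mem_univ, Finset.mem_union, Finset.mem_filter, true_and]
      constructor
      · intro hq
        rcases h3 q hq with h | h | h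
        · exact Or.inl (Or.inl ⟨hq, h.1⟩)
        · exact Or.inl (Or.inr ⟨hq, h.2.1⟩)
        · exact Or.inr ⟨hq, h.2.2⟩
      · rintro ((h | h) | h)
        · exact h.1
        · exact h.1
        · exact h.1
    · rw [Finset.disjoint_left]
      intro q hq hq'
      simp only [Finset.mem_union, Finset.mem_filter, Finset.mem_univ, true_and] at hq hq'
      rcases h3 q hq'.1 with h | h | h
      · exact h.2.2 hq'.2
      · exact h.2.2 hq'.2
      · rcases hq with hq | hq
        · exact h.1 hq.2
        · exact h.2.1 hq.2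
    · rw [Finset.disjoint_left]
      intro q hq hq'
      simp only [Finset.mem_filter, Finset.mem_univ, true_and] at hq hq'
      rcases h3 q hq'.1 with h | h | h
      · exact h.2.1 hq'.2
      · exact h.1 hq.2
      · exact h.1 hq.2
  have h5 : (Finset.univ.filter fun q => π q ≠ q).card =
      (Finset.univ.filter fun q => π q ≠ q ∧ IsMin π e q).card +
      (Finset.univ.filter fun q => π q ≠ q ∧ ¬ IsMin π e q).card := by
    rw [← Finset.card_union_of_disjoint]
    · congr 1
      ext q
      simp only [Finset.mem_univ, Finset.mem_union, Finset.mem_filter, true_and]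
      tauto
    · rw [Finset.disjoint_left]
      intro q hq hq'
      simp only [Finset.mem_filter, Finset.mem_univ, true_and] at hq hq'
      exact hq'.2 hq.2
  have h6 : (Finset.univ.filter fun q => π q = q).card +
      (Finset.univ.filter fun q => ¬ π q = q).card = Fintype.card Q := by
    rw [Finset.card_filter_add_card_filter_not, Finset.card_univ]
  simp only [ne_eq] at *
  omega

/-! ### the kernel of `1 + S` -/

theorem finrank_KS_le [Finite (Qt Γ)] [FiniteDimensional k V] (hρ : IsAct Γ ρ) (c : ℕ)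
    (h : ∀ g : G, g * S * g⁻¹ ∈ Γ →
      2 * finrank k (LinearMap.ker (LinearMap.id + ρ (g * S * g⁻¹))) ≤ finrank k V + c) :
    2 * finrank k (KS Γ ρ) ≤ Nat.card (Qt Γ) * (finrank k V + c) := by
  classical
  have := Fintype.ofFinite (Qt Γ)
  obtain ⟨e, he⟩ : ∃ e : Qt Γ → ℕ, Function.Injective e :=
    ⟨fun q => (Fintype.equivFin (Qt Γ) q : ℕ), fun a b hab =>
      (Fintype.equivFin (Qt Γ)).injective (Fin.ext hab)⟩
  let π : Qt Γ → Qt Γ := tr Γ S
  have hπ : ∀ q, π (π q) = q := tr_S_S hρ
  let D : Qt Γ → Submodule k V := fun q =>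
    if e q < e (π q) then ⊤ else
      if π q = q then LinearMap.ker (LinearMap.id + ρ (q.out * S * q.out⁻¹)) else ⊥
  let L : ∀ q : Qt Γ, KS Γ ρ →ₗ[k] V := fun q =>
    if e q < e (π q) ∨ π q = q then
      { toFun := fun F => F.1 q.out, map_add' := fun _ _ => rfl, map_smul' := fun _ _ => rfl }
    else 0
  have hL : ∀ q F, L q F ∈ D q := by
    intro q F
    by_cases h1 : e q < e (π q)
    · simp only [D, if_pos h1]
      exact Submodule.mem_top
    · by_cases h2 : π q = q
      · have hD : D q = LinearMap.ker (LinearMap.id + ρ (q.out * S * q.out⁻¹)) := by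
          simp only [D, if_neg h1, if_pos h2]
        have hLF : L q F = F.1 q.out := by
          simp only [L, if_pos (Or.inr h2 : e q < e (π q) ∨ π q = q)]
          rfl
        rw [hD, hLF, LinearMap.mem_ker, LinearMap.add_apply, LinearMap.id_apply,
          ← F.2.1 _ (fix_mem h2), inv_mul_cancel_right]
        exact F.2.2 q.out
      · have hLF : L q F = 0 := by
          simp only [L, if_neg (by tauto : ¬ (e q < e (π q) ∨ π q = q))]
          rfl
        rw [hLF]
        exact Submodule.zero_mem _
  let Φ : KS Γ ρ →ₗ[k] (∀ q, D q) := LinearMap.pi fun q => (L q).codRestrict (D q) (hL q)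
  have hΦ : Function.Injective Φ := by
    rw [← LinearMap.ker_eq_bot, LinearMap.ker_eq_bot']
    intro F hF
    have h0 : ∀ q, L q F = 0 := fun q => congrArg Subtype.val (congrFun hF q)
    have h1 : ∀ q, (e q < e (π q) ∨ π q = q) → F.1 q.out = 0 := by
      intro q hq
      have h2 := h0 q
      simp only [L, if_pos hq] at h2
      exact h2
    refine Subtype.ext (eval_zero F.2.1 fun q => ?_)
    by_cases hq : e q < e (π q) ∨ π q = q
    · exact h1 q hq
    · have h2 : e (π q) < e (π (π q)) ∨ π (π q) = π q := by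
        left
        rw [hπ]
        rcases lt_trichotomy (e q) (e (π q)) with h3 | h3 | h3
        · exact absurd (Or.inl h3) hq
        · exact absurd (Or.inr (he h3).symm) hq
        · exact h3
      have h3 : F.1 (q.out * S) = 0 := by
        refine eval_tr F.2.1 S q.out ?_
        rw [qt_out]
        exact h1 _ h2
      have h4 := F.2.2 q.out
      rw [h3, add_zero] at h4
      exact h4
  have h1 := LinearMap.finrank_le_finrank_of_injective hΦ
  rw [Module.finrank_pi_fintype] at h1
  have h2 : ∀ q, 2 * finrank k (D q) ≤ (if e q < e (π q) then 2 * finrank k V else 0) +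
      (if π q = q then finrank k V + c else 0) := by
    intro q
    by_cases hq : e q < e (π q)
    · have hD : D q = ⊤ := by simp only [D, if_pos hq]
      rw [hD, finrank_top, if_pos hq]
      omega
    · by_cases hq' : π q = q
      · have hD : D q = LinearMap.ker (LinearMap.id + ρ (q.out * S * q.out⁻¹)) := by
          simp only [D, if_neg hq, if_pos hq']
        rw [hD, if_neg hq, if_pos hq', zero_add]
        exact h _ (fix_mem hq')
      · have hD : D q = ⊥ := by simp only [D, if_neg hq, if_neg hq']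
        rw [hD, finrank_bot]
        omega
  have h3 : ∑ q, 2 * finrank k (D q) ≤
      (Finset.univ.filter fun q => e q < e (π q)).card * (2 * finrank k V) +
      (Finset.univ.filter fun q => π q = q).card * (finrank k V + c) := by
    refine (Finset.sum_le_sum fun q _ => h2 q).trans ?_
    rw [Finset.sum_add_distrib, ← Finset.sum_filter, ← Finset.sum_filter, Finset.sum_const,
      Finset.sum_const, smul_eq_mul, smul_eq_mul]
  rw [← Finset.mul_sum] at h3
  have h4 := card_invol π hπ e he
  rw [Nat.card_eq_fintype_card, ← h4]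
  calc 2 * finrank k (KS Γ ρ) ≤ 2 * ∑ q, finrank k (D q) := Nat.mul_le_mul_left 2 h1
    _ ≤ _ := h3
    _ ≤ _ := by nlinarith [Nat.zero_le ((Finset.univ.filter fun q => e q < e (π q)).card * c)]

/-! ### the kernel of `1 + R + R²` -/

theorem finrank_KR_le [Finite (Qt Γ)] [FiniteDimensional k V] (c : ℕ)
    (h : ∀ g : G, g * Re * g⁻¹ ∈ Γ →
      3 * finrank k (LinearMap.ker (LinearMap.id + ρ (g * Re * g⁻¹) +
        ρ (g * Re * g⁻¹) ∘ₗ ρ (g * Re * g⁻¹))) ≤ 2 * finrank k V + c) :
    3 * finrank k (KR Γ ρ) ≤ Nat.card (Qt Γ) * (2 * finrank k V + c) := by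
  classical
  have := Fintype.ofFinite (Qt Γ)
  obtain ⟨e, he⟩ : ∃ e : Qt Γ → ℕ, Function.Injective e :=
    ⟨fun q => (Fintype.equivFin (Qt Γ) q : ℕ), fun a b hab =>
      (Fintype.equivFin (Qt Γ)).injective (Fin.ext hab)⟩
  let π : Qt Γ → Qt Γ := tr Γ Re
  have hπ : ∀ q, π (π (π q)) = q := tr_Re_Re_Re
  let D : Qt Γ → Submodule k V := fun q =>
    if π q = q then LinearMap.ker (LinearMap.id + ρ (q.out * Re * q.out⁻¹) +
        ρ (q.out * Re * q.out⁻¹) ∘ₗ ρ (q.out * Re * q.out⁻¹)) else
      if IsMin π e q then ⊥ else ⊤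
  let L : ∀ q : Qt Γ, KR Γ ρ →ₗ[k] V := fun q =>
    if π q = q ∨ ¬ IsMin π e q then
      { toFun := fun F => F.1 q.out, map_add' := fun _ _ => rfl, map_smul' := fun _ _ => rfl }
    else 0
  have hL : ∀ q F, L q F ∈ D q := by
    intro q F
    by_cases h2 : π q = q
    · have hD : D q = LinearMap.ker (LinearMap.id + ρ (q.out * Re * q.out⁻¹) +
          ρ (q.out * Re * q.out⁻¹) ∘ₗ ρ (q.out * Re * q.out⁻¹)) := by
        simp only [D, if_pos h2]
      have hLF : L q F = F.1 q.out := by
        simp only [L, if_pos (Or.inl h2 : π q = q ∨ ¬ IsMin π e q)]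
        rfl
      have h3 : q.out * Re * q.out⁻¹ * (q.out * Re) = q.out * Re * Re := by group
      rw [hD, hLF, LinearMap.mem_ker, LinearMap.add_apply, LinearMap.add_apply, LinearMap.id_apply,
        LinearMap.comp_apply, ← F.2.1 _ (fix_mem h2), inv_mul_cancel_right,
        ← F.2.1 _ (fix_mem h2), h3]
      exact F.2.2 q.out
    · by_cases h1 : IsMin π e q
      · have hLF : L q F = 0 := by
          simp only [L, if_neg (by tauto : ¬ (π q = q ∨ ¬ IsMin π e q))]
          rfl
        rw [hLF]
        exact Submodule.zero_mem _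
      · simp only [D, if_neg h2, if_neg h1]
        exact Submodule.mem_top
  let Φ : KR Γ ρ →ₗ[k] (∀ q, D q) := LinearMap.pi fun q => (L q).codRestrict (D q) (hL q)
  have hΦ : Function.Injective Φ := by
    rw [← LinearMap.ker_eq_bot, LinearMap.ker_eq_bot']
    intro F hF
    have h0 : ∀ q, L q F = 0 := fun q => congrArg Subtype.val (congrFun hF q)
    have h1 : ∀ q, (π q = q ∨ ¬ IsMin π e q) → F.1 q.out = 0 := by
      intro q hq
      have h2 := h0 q
      simp only [L, if_pos hq] at h2
      exact h2
    refine Subtype.ext (eval_zero F.2.1 fun q => ?_)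
    by_cases hq : π q = q ∨ ¬ IsMin π e q
    · exact h1 q hq
    · rw [not_or, not_not] at hq
      obtain ⟨h2, h3, h3'⟩ := hq
      have h4 : ¬ IsMin π e (π q) := by
        unfold IsMin
        rw [hπ]
        omega
      have h5 : ¬ IsMin π e (π (π q)) := by
        unfold IsMin
        rw [hπ]
        omega
      have h6 : F.1 (q.out * Re) = 0 := by
        refine eval_tr F.2.1 Re q.out ?_
        rw [qt_out]
        exact h1 _ (Or.inr h4)
      have h7 : F.1 (q.out * Re * Re) = 0 := by
        refine eval_tr F.2.1 Re (q.out * Re) ?_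
        rw [← tr_qt, qt_out]
        exact h1 _ (Or.inr h5)
      have h8 := F.2.2 q.out
      rw [h6, h7, add_zero, add_zero] at h8
      exact h8
  have h1 := LinearMap.finrank_le_finrank_of_injective hΦ
  rw [Module.finrank_pi_fintype] at h1
  have h2 : ∀ q, 3 * finrank k (D q) ≤
      (if π q ≠ q ∧ ¬ IsMin π e q then 3 * finrank k V else 0) +
      (if π q = q then 2 * finrank k V + c else 0) := by
    intro q
    by_cases hq : π q = q
    · have hD : D q = LinearMap.ker (LinearMap.id + ρ (q.out * Re * q.out⁻¹) +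
          ρ (q.out * Re * q.out⁻¹) ∘ₗ ρ (q.out * Re * q.out⁻¹)) := by
        simp only [D, if_pos hq]
      rw [hD, if_pos hq]
      refine (h _ (fix_mem hq)).trans ?_
      omega
    · by_cases hq' : IsMin π e q
      · have hD : D q = ⊥ := by simp only [D, if_neg hq, if_pos hq']
        rw [hD, finrank_bot]
        omega
      · have hD : D q = ⊤ := by simp only [D, if_neg hq, if_neg hq']
        rw [hD, finrank_top, if_pos (And.intro hq hq')]
        omega
  have h3 : ∑ q, 3 * finrank k (D q) ≤
      (Finset.univ.filter fun q => π q ≠ q ∧ ¬ IsMin π e q).card * (3 * finrank k V) +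
      (Finset.univ.filter fun q => π q = q).card * (2 * finrank k V + c) := by
    refine (Finset.sum_le_sum fun q _ => h2 q).trans ?_
    rw [Finset.sum_add_distrib, ← Finset.sum_filter, ← Finset.sum_filter, Finset.sum_const,
      Finset.sum_const, smul_eq_mul, smul_eq_mul]
  rw [← Finset.mul_sum] at h3
  have h4 := card_three π hπ e he
  rw [Nat.card_eq_fintype_card]
  have h5 : (Finset.univ.filter fun q => π q = q).card ≤ Fintype.card (Qt Γ) := by
    rw [← Finset.card_univ]
    exact Finset.card_filter_le _ _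
  have h4' : 3 * (Finset.univ.filter fun q => π q ≠ q ∧ ¬ IsMin π e q).card +
      2 * (Finset.univ.filter fun q => π q = q).card = 2 * Fintype.card (Qt Γ) := by
    convert h4
  generalize (Finset.univ.filter fun q => π q ≠ q ∧ ¬ IsMin π e q).card = A at h3 h4'
  generalize (Finset.univ.filter fun q => π q = q).card = B at h3 h4' h5
  generalize Fintype.card (Qt Γ) = N at h4' h5 ⊢
  have h6 : 3 * A * finrank k V + 2 * B * finrank k V = 2 * N * finrank k V := by
    rw [← add_mul, h4']
  calc 3 * finrank k (KR Γ ρ) ≤ 3 * ∑ q, finrank k (D q) := Nat.mul_le_mul_left 3 h1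
    _ ≤ _ := h3
    _ = (3 * A * finrank k V + 2 * B * finrank k V) + B * c := by ring
    _ = 2 * N * finrank k V + B * c := by rw [h6]
    _ ≤ 2 * N * finrank k V + N * c := Nat.add_le_add_left (Nat.mul_le_mul_right c h5) _
    _ = N * (2 * finrank k V + c) := by ring

/-- **The upper bound for symbol spaces.** -/
theorem six_mul_finrank_Sy_le [Finite (Qt Γ)] [FiniteDimensional k V] (hρ : IsAct Γ ρ)
    {Γ₁ : Subgroup G} (hle : Γ ≤ Γ₁) (hT : T ∈ Γ₁) (hS : S ∉ Γ₁) (c c' : ℕ)
    (h : ∀ g : G, g * S * g⁻¹ ∈ Γ →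
      2 * finrank k (LinearMap.ker (LinearMap.id + ρ (g * S * g⁻¹))) ≤ finrank k V + c)
    (h' : ∀ g : G, g * Re * g⁻¹ ∈ Γ →
      3 * finrank k (LinearMap.ker (LinearMap.id + ρ (g * Re * g⁻¹) +
        ρ (g * Re * g⁻¹) ∘ₗ ρ (g * Re * g⁻¹))) ≤ 2 * finrank k V + c') :
    6 * finrank k (Sy Γ Γ₁ ρ) ≤ Nat.card (Qt Γ) * (finrank k V + 3 * c + 2 * c') ∧
      FiniteDimensional k (Sy Γ Γ₁ ρ) := by
  obtain ⟨h1, h2⟩ := finrank_Sy_add_le (Γ₁ := Γ₁) hρ hle hT hS
  have h3 := finrank_KS_le hρ c h
  have h4 := finrank_KR_le c' h'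
  rw [finrank_Ind hρ] at h1
  refine ⟨?_, h2⟩
  nlinarith

end Gouvea.P5
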