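import Pool.Agent.Work.MP_d3517d_nt.P5.KerBound

/-!
# P5: the kernels of `1 - S` and `1 - R` on an induced module (MP_d3517d_nt)

`2 dim ker (1 - S) ≤ [G : Γ] (dim V + c)` and `3 dim ker (1 - R) ≤ [G : Γ] (dim V + c)` if the
corresponding inequalities hold for the elements of `Γ` conjugate to `S`, `R`.
-/

open Matrix ModularGroup Module

noncomputable section

namespace Gouvea.P5

variable {k : Type} [Field k] {V : Type} [AddCommGroup V] [Module k V]
  {Γ : Subgroup G} {ρ : G → V →ₗ[k] V}

/-- `ker (1 - w)` on the induced module -/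
def KI (Γ : Subgroup G) (ρ : G → V →ₗ[k] V) (w : G) : Submodule k (G → V) where
  carrier := {F | F ∈ Ind Γ ρ ∧ ∀ g, F (g * w) = F g}
  add_mem' := fun {F F'} h h' => ⟨(Ind Γ ρ).add_mem h.1 h'.1, fun g => by
    simp only [Pi.add_apply, h.2 g, h'.2 g]⟩
  zero_mem' := ⟨(Ind Γ ρ).zero_mem, fun g => rfl⟩
  smul_mem' := fun c F h => ⟨(Ind Γ ρ).smul_mem c h.1, fun g => by
    simp only [Pi.smul_apply, h.2 g]⟩

theorem finrank_KI_S_le [Finite (Qt Γ)] [FiniteDimensional k V] (hρ : IsAct Γ ρ) (c : ℕ)
    (h : ∀ g : G, g * S * g⁻¹ ∈ Γ →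
      2 * finrank k (LinearMap.ker (LinearMap.id - ρ (g * S * g⁻¹))) ≤ finrank k V + c) :
    2 * finrank k (KI Γ ρ S) ≤ Nat.card (Qt Γ) * (finrank k V + c) := by
  classical
  have := Fintype.ofFinite (Qt Γ)
  obtain ⟨e, he⟩ : ∃ e : Qt Γ → ℕ, Function.Injective e :=
    ⟨fun q => (Fintype.equivFin (Qt Γ) q : ℕ), fun a b hab =>
      (Fintype.equivFin (Qt Γ)).injective (Fin.ext hab)⟩
  let π : Qt Γ → Qt Γ := tr Γ S
  have hπ : ∀ q, π (π q) = q := tr_S_S hρ
  let D : Qt Γ → Submodule k V := fun q =>
    if e q < e (π q) then ⊤ else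
      if π q = q then LinearMap.ker (LinearMap.id - ρ (q.out * S * q.out⁻¹)) else ⊥
  let L : ∀ q : Qt Γ, KI Γ ρ S →ₗ[k] V := fun q =>
    if e q < e (π q) ∨ π q = q then
      { toFun := fun F => F.1 q.out, map_add' := fun _ _ => rfl, map_smul' := fun _ _ => rfl }
    else 0
  have hL : ∀ q F, L q F ∈ D q := by
    intro q F
    by_cases h1 : e q < e (π q)
    · simp only [D, if_pos h1]
      exact Submodule.mem_top
    · by_cases h2 : π q = q
      · have hD : D q = LinearMap.ker (LinearMap.id - ρ (q.out * S * q.out⁻¹)) := by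
          simp only [D, if_neg h1, if_pos h2]
        have hLF : L q F = F.1 q.out := by
          simp only [L, if_pos (Or.inr h2 : e q < e (π q) ∨ π q = q)]
          rfl
        rw [hD, hLF, LinearMap.mem_ker, LinearMap.sub_apply, LinearMap.id_apply,
          ← F.2.1 _ (fix_mem h2), inv_mul_cancel_right, F.2.2, sub_self]
      · have hLF : L q F = 0 := by
          simp only [L, if_neg (by tauto : ¬ (e q < e (π q) ∨ π q = q))]
          rfl
        rw [hLF]
        exact Submodule.zero_mem _
  let Φ : KI Γ ρ S →ₗ[k] (∀ q, D q) := LinearMap.pi fun q => (L q).codRestrict (D q) (hL q)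
  have hΦ : Function.Injective Φ := by
    rw [← LinearMap.ker_eq_bot, LinearMap.ker_eq_bot']
    intro F hF
    have h0 : ∀ q, L q F = 0 := fun q => congrArg Subtype.val (congrFun hF q)
    have h1 : ∀ q, (e q < e (π q) ∨ π q = q) → F.1 q.out = 0 := by
      intro q hq
      have h2 := h0 q
      simp only [L, if_pos hq] at h2
      exact h2
    refine Subtype.ext (eval_zero F.2.1 fun q => ?_)
    by_cases hq : e q < e (π q) ∨ π q = q
    · exact h1 q hq
    · have h2 : e (π q) < e (π (π q)) ∨ π (π q) = π q := by
        left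
        rw [hπ]
        rcases lt_trichotomy (e q) (e (π q)) with h3 | h3 | h3
        · exact absurd (Or.inl h3) hq
        · exact absurd (Or.inr (he h3).symm) hq
        · exact h3
      have h3 : F.1 (q.out * S) = 0 := by
        refine eval_tr F.2.1 S q.out ?_
        rw [qt_out]
        exact h1 _ h2
      rw [← F.2.2 q.out]
      exact h3
  have h1 := LinearMap.finrank_le_finrank_of_injective hΦ
  rw [Module.finrank_pi_fintype] at h1
  have h2 : ∀ q, 2 * finrank k (D q) ≤ (if e q < e (π q) then 2 * finrank k V else 0) +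
      (if π q = q then finrank k V + c else 0) := by
    intro q
    by_cases hq : e q < e (π q)
    · have hD : D q = ⊤ := by simp only [D, if_pos hq]
      rw [hD, finrank_top, if_pos hq]
      omega
    · by_cases hq' : π q = q
      · have hD : D q = LinearMap.ker (LinearMap.id - ρ (q.out * S * q.out⁻¹)) := by
          simp only [D, if_neg hq, if_pos hq']
        rw [hD, if_neg hq, if_pos hq', zero_add]
        exact h _ (fix_mem hq')
      · have hD : D q = ⊥ := by simp only [D, if_neg hq, if_neg hq']
        rw [hD, finrank_bot]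
        omega
  have h3 : ∑ q, 2 * finrank k (D q) ≤
      (Finset.univ.filter fun q => e q < e (π q)).card * (2 * finrank k V) +
      (Finset.univ.filter fun q => π q = q).card * (finrank k V + c) := by
    refine (Finset.sum_le_sum fun q _ => h2 q).trans ?_
    rw [Finset.sum_add_distrib, ← Finset.sum_filter, ← Finset.sum_filter, Finset.sum_const,
      Finset.sum_const, smul_eq_mul, smul_eq_mul]
  rw [← Finset.mul_sum] at h3
  have h4 := card_invol π hπ e he
  rw [Nat.card_eq_fintype_card, ← h4]
  calc 2 * finrank k (KI Γ ρ S) ≤ 2 * ∑ q, finrank k (D q) := Nat.mul_le_mul_left 2 h1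
    _ ≤ _ := h3
    _ ≤ _ := by nlinarith [Nat.zero_le ((Finset.univ.filter fun q => e q < e (π q)).card * c)]

open Classical in
lemma exists_isMin {Q : Type} {π : Q → Q} (hπ : ∀ q, π (π (π q)) = q) {e : Q → ℕ}
    (he : Function.Injective e) {q : Q} (hq : π q ≠ q) :
    IsMin π e q ∨ IsMin π e (π q) ∨ IsMin π e (π (π q)) := by
  have hinj : Function.Injective π := fun a b h => by rw [← hπ a, h, hπ]
  have a1 : e (π q) ≠ e q := fun h => hq (he h)
  have a2 : e (π (π q)) ≠ e (π q) := fun h => hq (hinj (he h))
  have a3 : e (π (π q)) ≠ e q := fun h => by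
    have := he h
    apply hq
    have h5 := congrArg π this
    rw [hπ] at h5
    exact h5.symm
  unfold IsMin
  rw [hπ]
  omega

open Classical in
lemma card_isMin {Q : Type} [Fintype Q] (π : Q → Q) (hπ : ∀ q, π (π (π q)) = q)
    (e : Q → ℕ) (he : Function.Injective e) :
    3 * (Finset.univ.filter fun q => IsMin π e q).card +
      (Finset.univ.filter fun q => π q = q).card = Fintype.card Q := by
  have h1 := card_three π hπ e he
  have h2 : (Finset.univ.filter fun q => IsMin π e q).card +
      (Finset.univ.filter fun q => ¬ IsMin π e q).card = Fintype.card Q := by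
    rw [Finset.card_filter_add_card_filter_not, Finset.card_univ]
  have h3 : (Finset.univ.filter fun q => ¬ IsMin π e q).card =
      (Finset.univ.filter fun q => π q ≠ q ∧ ¬ IsMin π e q).card +
      (Finset.univ.filter fun q => π q = q).card := by
    rw [← Finset.card_union_of_disjoint]
    · congr 1
      ext q
      simp only [Finset.mem_univ, Finset.mem_union, Finset.mem_filter, true_and]
      constructor
      · intro h
        by_cases hq : π q = q
        · exact Or.inr hq
        · exact Or.inl ⟨hq, h⟩
      · rintro (h | h)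
        · exact h.2
        · rintro ⟨h1, -⟩
          rw [h] at h1
          exact lt_irrefl _ h1
    · rw [Finset.disjoint_left]
      intro q hq hq'
      simp only [Finset.mem_filter, Finset.mem_univ, true_and] at hq hq'
      exact hq.1 hq'
  simp only [ne_eq] at *
  omega

theorem finrank_KI_Re_le [Finite (Qt Γ)] [FiniteDimensional k V] (c : ℕ)
    (h : ∀ g : G, g * Re * g⁻¹ ∈ Γ →
      3 * finrank k (LinearMap.ker (LinearMap.id - ρ (g * Re * g⁻¹))) ≤ finrank k V + c) :
    3 * finrank k (KI Γ ρ Re) ≤ Nat.card (Qt Γ) * (finrank k V + c) := by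
  classical
  have := Fintype.ofFinite (Qt Γ)
  obtain ⟨e, he⟩ : ∃ e : Qt Γ → ℕ, Function.Injective e :=
    ⟨fun q => (Fintype.equivFin (Qt Γ) q : ℕ), fun a b hab =>
      (Fintype.equivFin (Qt Γ)).injective (Fin.ext hab)⟩
  let π : Qt Γ → Qt Γ := tr Γ Re
  have hπ : ∀ q, π (π (π q)) = q := tr_Re_Re_Re
  let D : Qt Γ → Submodule k V := fun q =>
    if IsMin π e q then ⊤ else
      if π q = q then LinearMap.ker (LinearMap.id - ρ (q.out * Re * q.out⁻¹)) else ⊥
  let L : ∀ q : Qt Γ, KI Γ ρ Re →ₗ[k] V := fun q =>
    if IsMin π e q ∨ π q = q then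
      { toFun := fun F => F.1 q.out, map_add' := fun _ _ => rfl, map_smul' := fun _ _ => rfl }
    else 0
  have hL : ∀ q F, L q F ∈ D q := by
    intro q F
    by_cases h1 : IsMin π e q
    · simp only [D, if_pos h1]
      exact Submodule.mem_top
    · by_cases h2 : π q = q
      · have hD : D q = LinearMap.ker (LinearMap.id - ρ (q.out * Re * q.out⁻¹)) := by
          simp only [D, if_neg h1, if_pos h2]
        have hLF : L q F = F.1 q.out := by
          simp only [L, if_pos (Or.inr h2 : IsMin π e q ∨ π q = q)]
          rfl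
        rw [hD, hLF, LinearMap.mem_ker, LinearMap.sub_apply, LinearMap.id_apply,
          ← F.2.1 _ (fix_mem h2), inv_mul_cancel_right, F.2.2, sub_self]
      · have hLF : L q F = 0 := by
          simp only [L, if_neg (by tauto : ¬ (IsMin π e q ∨ π q = q))]
          rfl
        rw [hLF]
        exact Submodule.zero_mem _
  let Φ : KI Γ ρ Re →ₗ[k] (∀ q, D q) := LinearMap.pi fun q => (L q).codRestrict (D q) (hL q)
  have hΦ : Function.Injective Φ := by
    rw [← LinearMap.ker_eq_bot, LinearMap.ker_eq_bot']
    intro F hF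
    have h0 : ∀ q, L q F = 0 := fun q => congrArg Subtype.val (congrFun hF q)
    have h1 : ∀ q, (IsMin π e q ∨ π q = q) → F.1 q.out = 0 := by
      intro q hq
      have h2 := h0 q
      simp only [L, if_pos hq] at h2
      exact h2
    refine Subtype.ext (eval_zero F.2.1 fun q => ?_)
    by_cases hq : IsMin π e q ∨ π q = q
    · exact h1 q hq
    · rw [not_or] at hq
      rcases exists_isMin hπ he hq.2 with h2 | h2 | h2
      · exact absurd h2 hq.1
      · have h3 : F.1 (q.out * Re) = 0 := by
          refine eval_tr F.2.1 Re q.out ?_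
          rw [qt_out]
          exact h1 _ (Or.inl h2)
        rw [← F.2.2 q.out]
        exact h3
      · have h3 : F.1 (q.out * Re * Re) = 0 := by
          refine eval_tr F.2.1 Re (q.out * Re) ?_
          rw [← tr_qt, qt_out]
          exact h1 _ (Or.inl h2)
        rw [← F.2.2 q.out, ← F.2.2 (q.out * Re)]
        exact h3
  have h1 := LinearMap.finrank_le_finrank_of_injective hΦ
  rw [Module.finrank_pi_fintype] at h1
  have h2 : ∀ q, 3 * finrank k (D q) ≤
      (if IsMin π e q then 3 * finrank k V else 0) +
      (if π q = q then finrank k V + c else 0) := by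
    intro q
    by_cases hq : IsMin π e q
    · have hD : D q = ⊤ := by simp only [D, if_pos hq]
      rw [hD, finrank_top, if_pos hq]
      omega
    · by_cases hq' : π q = q
      · have hD : D q = LinearMap.ker (LinearMap.id - ρ (q.out * Re * q.out⁻¹)) := by
          simp only [D, if_neg hq, if_pos hq']
        rw [hD, if_neg hq, if_pos hq', zero_add]
        exact h _ (fix_mem hq')
      · have hD : D q = ⊥ := by simp only [D, if_neg hq, if_neg hq']
        rw [hD, finrank_bot]
        omega
  have h3 : ∑ q, 3 * finrank k (D q) ≤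
      (Finset.univ.filter fun q => IsMin π e q).card * (3 * finrank k V) +
      (Finset.univ.filter fun q => π q = q).card * (finrank k V + c) := by
    refine (Finset.sum_le_sum fun q _ => h2 q).trans ?_
    rw [Finset.sum_add_distrib, ← Finset.sum_filter, ← Finset.sum_filter, Finset.sum_const,
      Finset.sum_const, smul_eq_mul, smul_eq_mul]
  rw [← Finset.mul_sum] at h3
  have h4 : 3 * (Finset.univ.filter fun q => IsMin π e q).card +
      (Finset.univ.filter fun q => π q = q).card = Fintype.card (Qt Γ) := by
    convert card_isMin π hπ e he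
  rw [Nat.card_eq_fintype_card, ← h4]
  calc 3 * finrank k (KI Γ ρ Re) ≤ 3 * ∑ q, finrank k (D q) := Nat.mul_le_mul_left 3 h1
    _ ≤ _ := h3
    _ ≤ _ := by nlinarith [Nat.zero_le ((Finset.univ.filter fun q => IsMin π e q).card * c)]

end Gouvea.P5
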