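import Pool.Agent.Work.MP_d3517d_nt.PS.Tree
import Pool.Agent.Work.MP_d3517d_nt.PN.Tree

/-!
# Weight zero symbols modulo `p` of level `p²`, `p = 2, 3` (MP_d3517d_nt)

`T_l φ = (1 + l) φ` for every `φ` in `PS.Sym k 4 0` (`2 = 0` in `k`, `l` odd) and for every `φ` in
`PN.Sym k 9 0` (`3 = 0` in `k`, `l ≠ 3`): explicitly, such a symbol is `φ(x, y) = b(y) - b(x)` with
`b(u/v) = c v/4`, and with `b(u/v) = c v/9 u + c' ((u²-1)/3)` (lowest terms).
-/

open Polynomial Finset Matrix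

noncomputable section

namespace Gouvea.PS

section P2

variable {k : Type} [CommRing k]

lemma slk_zero (g : Matrix (Fin 2) (Fin 2) k) : slk 0 g = 1 := by
  ext i j
  have hi : i = 0 := Fin.ext (by omega)
  have hj : j = 0 := Fin.ext (by omega)
  subst hi hj
  simp [slk_apply, slR]

lemma act_zero (g : S4) (φ : Cusp → Cusp → Fin (0 + 1) → k) (x y : Cusp) :
    act k 0 g φ x y = φ (g • x) (g • y) := by
  rw [act_apply, slk_zero, Matrix.one_mulVec]

lemma cast_odd (h2 : (2 : k) = 0) {a : ℤ} (ha : Odd a) : (a : k) = 1 := by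
  obtain ⟨m, rfl⟩ := ha
  push_cast
  rw [h2]
  ring

/-- `u/v ↦ v/4` modulo `2` -/
def b4 (h2 : (2 : k) = 0) : Cusp → k :=
  Quotient.lift (fun x : PreCusp => ((x.v / 4 : ℤ) : k)) (by
    intro x y (h : x.u * y.v = y.u * x.v)
    obtain ⟨s, hs⟩ := x.hv
    obtain ⟨t, ht⟩ := y.hv
    show ((x.v / 4 : ℤ) : k) = ((y.v / 4 : ℤ) : k)
    rw [hs, ht, Int.mul_ediv_cancel_left _ (by norm_num), Int.mul_ediv_cancel_left _ (by norm_num)]
    rw [hs, ht] at h
    have h1 : x.u * t = y.u * s := by linarith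
    have h3 := congrArg (Int.cast : ℤ → k) h1
    push_cast at h3
    rw [cast_odd h2 x.hu, cast_odd h2 y.hu, one_mul, one_mul] at h3
    exact h3.symm)

lemma b4_mk (h2 : (2 : k) = 0) {u v s : ℤ} (hu : Odd u) (hv : (4 : ℤ) ∣ v) (hs : v = 4 * s) :
    b4 h2 (Cusp.mk u v hu hv) = (s : k) := by
  show ((v / 4 : ℤ) : k) = s
  rw [hs, Int.mul_ediv_cancel_left _ (by norm_num)]

lemma b4_smul (h2 : (2 : k) = 0) (g : S4) {c : ℤ} (hc : g.1 1 0 = 4 * c) (x : Cusp) :
    b4 h2 (g • x) = (c : k) + ((g.1 1 1 : ℤ) : k) * b4 h2 x := by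
  revert x
  refine Cusp.ind' (P := fun x => b4 h2 (g • x) = (c : k) + ((g.1 1 1 : ℤ) : k) * b4 h2 x)
    fun u v hu hv => ?_
  obtain ⟨s, hs⟩ := hv
  obtain ⟨hu', hv', h⟩ := smul_mk g u v hu ⟨s, hs⟩
  rw [h, b4_mk h2 hu ⟨s, hs⟩ hs, b4_mk h2 (s := c * u + g.1 1 1 * s) hu' hv' (by
    rw [hc, hs]; ring)]
  push_cast
  rw [cast_odd h2 hu]
  ring

lemma b4_inf (h2 : (2 : k) = 0) : b4 h2 inf = 0 := by
  unfold inf
  rw [b4_mk h2 (s := 0) odd_one (by simp) (by norm_num), Int.cast_zero]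

lemma b4_qrt (h2 : (2 : k) = 0) : b4 h2 qrt = 1 := by
  unfold qrt
  rw [b4_mk h2 (s := 1) odd_one (by simp) (by norm_num), Int.cast_one]

lemma odd_det_d {g : S4} (hg : IsG0 4 g) : Odd (g.1 1 1) := by
  have h1 := hg.1
  rw [det_fin_two] at h1
  obtain ⟨t, ht⟩ := g.2.2.2
  by_contra h
  rw [Int.not_odd_iff_even] at h
  obtain ⟨s, hs⟩ := h
  rw [ht, hs] at h1
  have : (2 : ℤ) ∣ 1 := ⟨g.1 0 0 * s - g.1 0 1 * (2 * t), by linear_combination -h1⟩
  omega

/-- the weight zero symbols of level `4` modulo `2` -/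
theorem sym_four (h2 : (2 : k) = 0) {φ : Cusp → Cusp → Fin (0 + 1) → k} (hφ : φ ∈ Sym k 4 0)
    (x y : Cusp) : φ x y = (b4 h2 y - b4 h2 x) • φ inf qrt := by
  have h : φ = fun x y => (b4 h2 y - b4 h2 x) • φ inf qrt := by
    refine isTree.ext hφ.1 (fun x y z => ?_) fun g => ?_
    · rw [← add_smul]
      congr 1
      ring
    · have h1 := congrFun (congrFun (hφ.2 (toS g) (isG0_toS g)) inf) qrt
      rw [act_zero] at h1
      obtain ⟨c, hc⟩ := mt_dvd g
      have h3 : b4 h2 (g • qrt) - b4 h2 (g • inf) = 1 := by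
        rw [g4_smul, g4_smul, b4_smul h2 (toS g) hc, b4_smul h2 (toS g) hc, b4_inf, b4_qrt,
          cast_odd h2 (odd_det_d (isG0_toS g))]
        ring
      show φ (g • inf) (g • qrt) = (b4 h2 (g • qrt) - b4 h2 (g • inf)) • φ inf qrt
      rw [h3, one_smul]
      exact h1
  exact congrFun (congrFun h x) y

/-- **`T_l = 1 + l` on the weight zero symbols of level `4` modulo `2`.** -/
theorem hecke_four (h2 : (2 : k) = 0) {l : ℕ} (hl : l.Prime) (hl2 : l ≠ 2)
    {φ : Cusp → Cusp → Fin (0 + 1) → k} (hφ : φ ∈ Sym k 4 0) :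
    hecke k 4 0 l φ = (1 + (l : k)) • φ := by
  have hodd : Odd l := hl.odd_of_ne_two hl2
  have hl4 : ¬ l ∣ 4 := by
    intro h
    have h1 : l ∣ 2 := hl.dvd_of_dvd_pow (n := 2) (by norm_num; exact h)
    exact hl2 ((Nat.prime_dvd_prime_iff_eq hl Nat.prime_two).1 h1)
  have hlZ : Odd (l : ℤ) := by exact_mod_cast hodd
  have hb : ∀ (a b d : ℤ) (ha : Odd a) (hd : Odd d) (x : Cusp),
      b4 h2 (upS a b d • x) = b4 h2 x := by
    intro a b d ha hd x
    have hd0 : d ≠ 0 := by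
      rintro rfl
      exact absurd hd (by decide)
    rw [b4_smul h2 (upS a b d) (c := 0) (by rw [upS_coe ha hd0]; simp), upS_coe ha hd0]
    simp [cast_odd h2 hd]
  funext x y
  have hsum : ∀ (a b d : ℤ) (ha : Odd a) (hd : Odd d),
      act k 0 (upS a b d) φ x y = φ x y := by
    intro a b d ha hd
    rw [act_zero, sym_four h2 hφ, sym_four h2 hφ x y, hb a b d ha hd, hb a b d ha hd]
  have e : ∑ b ∈ range l, act k 0 (upS 1 b l) φ x y = ∑ _b ∈ range l, φ x y :=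
    Finset.sum_congr rfl fun b _ => hsum 1 b l odd_one hlZ
  unfold hecke
  rw [if_neg hl4, LinearMap.add_apply, LinearMap.sum_apply]
  simp only [Pi.add_apply, Finset.sum_apply]
  rw [e, hsum l 0 1 hlZ odd_one, Finset.sum_const, card_range, ← Nat.cast_smul_eq_nsmul k,
    Pi.smul_apply, Pi.smul_apply, add_smul, one_smul]
  exact add_comm _ _

end P2

end Gouvea.PS

namespace Gouvea.PN

section P3

variable {k : Type} [CommRing k]

lemma slk_zero (g : Matrix (Fin 2) (Fin 2) k) : slk 0 g = 1 := by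
  ext i j
  have hi : i = 0 := Fin.ext (by omega)
  have hj : j = 0 := Fin.ext (by omega)
  subst hi hj
  simp [slk_apply, slR]

lemma act_zero (g : S9) (φ : Cusp → Cusp → Fin (0 + 1) → k) (x y : Cusp) :
    act k 0 g φ x y = φ (g • x) (g • y) := by
  rw [act_apply, slk_zero, Matrix.one_mulVec]

lemma exists_sq {a : ℤ} (ha : N3 a) : ∃ s, a * a = 1 + 3 * s := by
  unfold N3 at ha
  have h : a % 3 = 1 ∨ a % 3 = 2 := by omega
  have h1 := Int.emod_add_mul_ediv a 3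
  obtain ⟨m, hm⟩ : ∃ m, m = a / 3 := ⟨_, rfl⟩
  rw [← hm] at h1
  rcases h with h | h
  · rw [h] at h1
    exact ⟨3 * m * m + 2 * m, by rw [← h1]; ring⟩
  · rw [h] at h1
    exact ⟨3 * m * m + 4 * m + 1, by rw [← h1]; ring⟩

lemma sq_cast (h3 : (3 : k) = 0) {a : ℤ} (ha : N3 a) : (a : k) * a = 1 := by
  obtain ⟨s, hs⟩ := exists_sq ha
  have h := congrArg (Int.cast : ℤ → k) hs
  push_cast at h
  rw [h, h3, zero_mul, add_zero]

variable (k) in
/-- the logarithm `(a² - 1)/3` modulo `3` -/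
def lg (a : ℤ) : k := (((a * a - 1) / 3 : ℤ) : k)

lemma lg_eq {a s : ℤ} (h : a * a = 1 + 3 * s) : lg k a = (s : k) := by
  unfold lg
  rw [h, show (1 + 3 * s - 1 : ℤ) = 3 * s by ring, Int.mul_ediv_cancel_left _ (by norm_num)]

lemma lg_one : lg k 1 = 0 := by
  rw [lg_eq (s := 0) (by norm_num), Int.cast_zero]

lemma lg_neg (a : ℤ) : lg k (-a) = lg k a := by
  unfold lg
  rw [neg_mul_neg]

lemma lg_natAbs (a : ℤ) : lg k (a.natAbs : ℤ) = lg k a := by
  rcases Int.natAbs_eq a with h | h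
  · rw [← h]
  · conv_rhs => rw [h]
    rw [lg_neg]

lemma lg_mul (h3 : (3 : k) = 0) {a b : ℤ} (ha : N3 a) (hb : N3 b) :
    lg k (a * b) = lg k a + lg k b := by
  obtain ⟨s, hs⟩ := exists_sq ha
  obtain ⟨t, ht⟩ := exists_sq hb
  rw [lg_eq hs, lg_eq ht, lg_eq (s := s + t + 3 * (s * t)) (by
    rw [show a * b * (a * b) = (a * a) * (b * b) by ring, hs, ht]; ring)]
  push_cast
  rw [h3]
  ring

lemma lg_add (h3 : (3 : k) = 0) {a b : ℤ} (ha : N3 a) (hb : (9 : ℤ) ∣ b) :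
    lg k (a + b) = lg k a := by
  obtain ⟨s, hs⟩ := exists_sq ha
  obtain ⟨m, rfl⟩ := hb
  rw [lg_eq hs, lg_eq (s := s + 3 * (2 * a * m + 9 * m * m)) (by linear_combination hs)]
  push_cast
  rw [h3]
  ring

/-- `u/v ↦ (v/9) u` modulo `3` -/
def b1 (h3 : (3 : k) = 0) : Cusp → k :=
  Quotient.lift (fun x : PreCusp => ((x.v / 9 * x.u : ℤ) : k)) (by
    intro x y (h : x.u * y.v = y.u * x.v)
    obtain ⟨s, hs⟩ := x.hv
    obtain ⟨t, ht⟩ := y.hv
    show ((x.v / 9 * x.u : ℤ) : k) = ((y.v / 9 * y.u : ℤ) : k)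
    rw [hs, ht, Int.mul_ediv_cancel_left _ (by norm_num), Int.mul_ediv_cancel_left _ (by norm_num)]
    rw [hs, ht] at h
    have h1 : x.u * t = y.u * s := by linarith
    have h4 := congrArg (Int.cast : ℤ → k) h1
    have hx := sq_cast h3 x.hu
    have hy := sq_cast h3 y.hu
    push_cast at h4 ⊢
    linear_combination (-(x.u : k) * y.u) * h4 + (t * y.u : k) * hx - (s * x.u : k) * hy)

lemma b1_mk (h3 : (3 : k) = 0) {u v s : ℤ} (hu : N3 u) (hv : (9 : ℤ) ∣ v) (hs : v = 9 * s) :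
    b1 h3 (Cusp.mk u v hu hv) = (s : k) * u := by
  show ((v / 9 * u : ℤ) : k) = s * u
  rw [hs, Int.mul_ediv_cancel_left _ (by norm_num), Int.cast_mul]

lemma b1_smul (h3 : (3 : k) = 0) (g : S9) {c : ℤ} (hc : g.1 1 0 = 9 * c) (x : Cusp) :
    b1 h3 (g • x) = (c : k) * ((g.1 0 0 : ℤ) : k) +
      ((g.1 0 0 : ℤ) : k) * ((g.1 1 1 : ℤ) : k) * b1 h3 x := by
  revert x
  refine Cusp.ind' (P := fun x => b1 h3 (g • x) = (c : k) * ((g.1 0 0 : ℤ) : k) +
      ((g.1 0 0 : ℤ) : k) * ((g.1 1 1 : ℤ) : k) * b1 h3 x) fun u v hu hv => ?_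
  obtain ⟨s, hs⟩ := hv
  obtain ⟨hu', hv', h⟩ := smul_mk g u v hu ⟨s, hs⟩
  rw [h, b1_mk h3 hu ⟨s, hs⟩ hs, b1_mk h3 (s := c * u + g.1 1 1 * s) hu' hv' (by
    rw [hc, hs]; ring), hs]
  have hu2 := sq_cast h3 hu
  have h9 : (9 : k) = 0 := by
    rw [show (9 : k) = 3 * 3 by norm_num, h3, zero_mul]
  push_cast
  linear_combination (c * ((g.1 0 0 : ℤ) : k)) * hu2 +
    (c * u + ((g.1 1 1 : ℤ) : k) * s) * (((g.1 0 1 : ℤ) : k) * s) * h9

lemma n3_gcd {u v : ℤ} (hu : N3 u) : N3 (Int.gcd u v : ℤ) := fun h =>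
  hu (h.trans (Int.gcd_dvd_left u v))

/-- `u/v ↦ log u` (lowest terms) -/
def b2 (h3 : (3 : k) = 0) : Cusp → k :=
  Quotient.lift (fun x : PreCusp => lg k x.u - lg k (Int.gcd x.u x.v : ℤ)) (by
    intro x y (h : x.u * y.v = y.u * x.v)
    show lg k x.u - lg k (Int.gcd x.u x.v : ℤ) = lg k y.u - lg k (Int.gcd y.u y.v : ℤ)
    have h1 : x.u.natAbs * Int.gcd y.u y.v = y.u.natAbs * Int.gcd x.u x.v := by
      rw [← Int.gcd_mul_left, ← Int.gcd_mul_left, h, mul_comm x.u y.u]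
    have h2 : ((x.u.natAbs : ℤ)) * (Int.gcd y.u y.v : ℤ) =
        (y.u.natAbs : ℤ) * (Int.gcd x.u x.v : ℤ) := by exact_mod_cast h1
    have hA : ∀ {a : ℤ}, N3 a → N3 (a.natAbs : ℤ) := by
      intro a ha hc
      exact ha (Int.dvd_natAbs.1 hc)
    have h4 := congrArg (lg k) h2
    rw [lg_mul h3 (hA x.hu) (n3_gcd y.hu), lg_mul h3 (hA y.hu) (n3_gcd x.hu), lg_natAbs,
      lg_natAbs] at h4
    linear_combination h4)

lemma b2_mk (h3 : (3 : k) = 0) {u v : ℤ} (hu : N3 u) (hv : (9 : ℤ) ∣ v) (h : IsCoprime u v) :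
    b2 h3 (Cusp.mk u v hu hv) = lg k u := by
  show lg k u - lg k (Int.gcd u v : ℤ) = lg k u
  rw [Int.isCoprime_iff_gcd_eq_one.1 h, Nat.cast_one, lg_one, sub_zero]

lemma exists_red (x : Cusp) : ∃ u v hu hv, IsCoprime u v ∧ x = Cusp.mk u v hu hv := by
  revert x
  refine Cusp.ind' fun u v hu hv => ?_
  have h0 : u ≠ 0 ∨ v ≠ 0 := Or.inl hu.ne_zero
  obtain ⟨u', hu'⟩ := Int.gcd_dvd_left u v
  obtain ⟨v', hv'⟩ := Int.gcd_dvd_right u v
  have hg : (0 : ℕ) < Int.gcd u v := Int.gcd_pos_iff.2 h0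
  set g : ℤ := (Int.gcd u v : ℤ) with hgd
  have hg0 : g ≠ 0 := by
    rw [hgd]
    exact_mod_cast hg.ne'
  have hcop : IsCoprime u' v' := by
    have h1 := Int.gcd_eq_gcd_ab u v
    rw [← hgd] at h1
    refine ⟨Int.gcdA u v, Int.gcdB u v, ?_⟩
    apply mul_left_cancel₀ hg0
    linear_combination (-1 : ℤ) * h1 - (Int.gcdA u v) * hu' - (Int.gcdB u v) * hv'
  have hu3 : N3 u' := by
    rw [hu'] at hu
    exact hu.of_mul_right
  have hg3 : N3 g := by
    rw [hu'] at hu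
    exact hu.of_mul_left
  have hv9 : (9 : ℤ) ∣ v' := by
    have hc : IsCoprime (9 : ℤ) g := by
      rw [show (9 : ℤ) = 3 ^ 2 by norm_num]
      exact (Int.isCoprime_iff_gcd_eq_one.2 (by
        have := (Int.prime_three.coprime_iff_not_dvd).2 hg3
        exact Int.isCoprime_iff_gcd_eq_one.1 this)).pow_left
    rw [hv'] at hv
    exact hc.dvd_of_dvd_mul_left hv
  refine ⟨u', v', hu3, hv9, hcop, ?_⟩
  rw [Cusp.mk_eq]
  linear_combination v' * hu' - u' * hv'

lemma mk_coprime {a b c d u v : ℤ} (hg : a * d - b * c = 1 ∨ a * d - b * c = -1)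
    (h : IsCoprime u v) : IsCoprime (a * u + b * v) (c * u + d * v) := by
  obtain ⟨p, q, hpq⟩ := h
  rcases hg with hg | hg
  · refine ⟨d * p - c * q, a * q - b * p, ?_⟩
    linear_combination hpq + (p * u + q * v) * hg
  · refine ⟨c * q - d * p, b * p - a * q, ?_⟩
    linear_combination hpq - (p * u + q * v) * hg

lemma b1_inf (h3 : (3 : k) = 0) : b1 h3 inf = 0 := by
  unfold inf
  rw [b1_mk h3 (s := 0) n3_one (by simp) (by norm_num), Int.cast_zero, zero_mul]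

lemma b1_qrt (h3 : (3 : k) = 0) : b1 h3 qrt = 2 := by
  unfold qrt
  rw [b1_mk h3 (s := 1) n3_two (by simp) (by norm_num)]
  norm_num

lemma b2_inf (h3 : (3 : k) = 0) : b2 h3 inf = 0 := by
  unfold inf
  rw [b2_mk h3 n3_one (by simp) isCoprime_one_left, lg_one]

lemma b2_qrt (h3 : (3 : k) = 0) : b2 h3 qrt = 1 := by
  unfold qrt
  rw [b2_mk h3 n3_two (by simp) ⟨-4, 1, by norm_num⟩, lg_eq (s := 1) (by norm_num), Int.cast_one]

lemma b2_smul (h3 : (3 : k) = 0) (g : T9) (x : Cusp) :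
    b2 h3 (g • x) = lg k (mt g 0 0) + b2 h3 x := by
  obtain ⟨u, v, hu, hv, hc, rfl⟩ := exists_red x
  obtain ⟨hu', hv', h⟩ := smul_mk (toS g) u v hu hv
  rw [g9_smul, h, b2_mk h3 hu hv hc, b2_mk h3 hu' hv' (by
    simp only [toS_coe]
    exact mk_coprime (mt_det g) hc)]
  simp only [toS_coe]
  rw [lg_add h3 ((mt_n3 g).mul hu) (hv.mul_left _), lg_mul h3 (mt_n3 g) hu]

lemma nine_zero (h3 : (3 : k) = 0) : (9 : k) = 0 := by
  rw [show (9 : k) = 3 * 3 by norm_num, h3, zero_mul]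

/-- `b1` along the edge of `g` -/
lemma b1_edge (h3 : (3 : k) = 0) (g : T9) :
    b1 h3 (g • qrt) - b1 h3 (g • inf) = (((mt g).det : ℤ) : k) * 2 := by
  obtain ⟨c, hc⟩ := mt_dvd g
  have hc' : (toS g).1 1 0 = 9 * c := hc
  rw [g9_smul, g9_smul, b1_smul h3 (toS g) hc', b1_smul h3 (toS g) hc', b1_inf, b1_qrt]
  simp only [toS_coe]
  rw [det_fin_two, hc]
  have h9 := nine_zero h3
  push_cast
  linear_combination (2 * ((mt g 0 1 : ℤ) : k) * c) * h9

/-- `b2` along the edge of `g` -/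
lemma b2_edge (h3 : (3 : k) = 0) (g : T9) :
    b2 h3 (g • qrt) - b2 h3 (g • inf) = 1 := by
  rw [b2_smul, b2_smul, b2_inf, b2_qrt]
  ring

/-- the weight zero symbols of level `9` modulo `3` -/
theorem sym_nine (h3 : (3 : k) = 0) {φ : Cusp → Cusp → Fin (0 + 1) → k} (hφ : φ ∈ Sym k 9 0) :
    ∃ w1 w2 : Fin (0 + 1) → k, ∀ x y : Cusp,
      φ x y = (b1 h3 y - b1 h3 x) • w1 + (b2 h3 y - b2 h3 x) • w2 := by
  obtain ⟨e, he⟩ := g9_mk 1 0 0 (-1) (Or.inr (by norm_num)) (by simp)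
  have hdet : (mt e).det = -1 := by
    rw [he, det_fin_two_of]
    norm_num
  refine ⟨φ inf qrt - φ (e • inf) (e • qrt), -(φ inf qrt + φ (e • inf) (e • qrt)), ?_⟩
  have h : φ = fun x y => (b1 h3 y - b1 h3 x) • (φ inf qrt - φ (e • inf) (e • qrt)) +
      (b2 h3 y - b2 h3 x) • (-(φ inf qrt + φ (e • inf) (e • qrt))) := by
    refine isTree.ext hφ.1 (fun x y z => ?_) fun g => ?_
    · module
    · show φ (g • inf) (g • qrt) =
        (b1 h3 (g • qrt) - b1 h3 (g • inf)) • (φ inf qrt - φ (e • inf) (e • qrt)) +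
        (b2 h3 (g • qrt) - b2 h3 (g • inf)) • (-(φ inf qrt + φ (e • inf) (e • qrt)))
      rw [b1_edge, b2_edge]
      rcases mt_det' g with hg | hg
      · have h1 := congrFun (congrFun (hφ.2 (toS g) (isG0_toS hg)) inf) qrt
        rw [act_zero, ← g9_smul, ← g9_smul] at h1
        rw [h1, hg]
        funext i
        simp only [Pi.add_apply, Pi.smul_apply, Pi.neg_apply, Pi.sub_apply, smul_eq_mul]
        push_cast
        linear_combination (φ (e • inf) (e • qrt) i) * h3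
      · have hge : (mt (g * e⁻¹)).det = 1 := by
          have h2 : (mt (g * e⁻¹ * e)).det = (mt (g * e⁻¹)).det * (mt e).det := by
            rw [mt_mul, det_mul]
          rw [inv_mul_cancel_right, hg, hdet] at h2
          linarith
        have h1 := congrFun (congrFun (hφ.2 (toS (g * e⁻¹)) (isG0_toS hge)) (e • inf)) (e • qrt)
        rw [act_zero, ← g9_smul, ← g9_smul, ← mul_smul, ← mul_smul, inv_mul_cancel_right] at h1
        rw [h1, hg]
        funext i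
        simp only [Pi.add_apply, Pi.smul_apply, Pi.neg_apply, Pi.sub_apply, smul_eq_mul]
        push_cast
        linear_combination (φ inf qrt i) * h3
  exact fun x y => congrFun (congrFun h x) y

lemma gcd_sum {l : ℕ} (hl : l.Prime) {u v : ℤ} (h : IsCoprime u v) (f : ℕ → k) (f1 : f 1 = 0) :
    ∑ b ∈ range l, f (Int.gcd (u + b * v) (l * v)) + f (Int.gcd (l * u) v) = f l := by
  have hlp : Prime (l : ℤ) := Nat.prime_iff_prime_int.1 hl
  have hcop : ∀ b : ℤ, IsCoprime (u + b * v) v := fun b => (IsCoprime.add_mul_right_left_iff).2 h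
  have hA : ∀ b : ℤ, Int.gcd (u + b * v) (l * v) = Int.gcd (u + b * v) l := fun b => by
    rw [mul_comm (l : ℤ) v]
    exact Int.gcd_mul_right_right_of_gcd_eq_one (Int.isCoprime_iff_gcd_eq_one.1 (hcop b))
  have hB : Int.gcd (l * u) v = Int.gcd l v := by
    rw [mul_comm]
    exact Int.gcd_mul_right_left_of_gcd_eq_one (Int.isCoprime_iff_gcd_eq_one.1 h)
  rw [hB, Finset.sum_congr rfl fun b _ => by rw [hA]]
  by_cases hv : (l : ℤ) ∣ v
  · have h1 : ∀ b ∈ range l, f (Int.gcd (u + b * v) l) = 0 := by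
      intro b _
      have : Int.gcd (u + b * v) l = 1 := by
        rw [← Int.isCoprime_iff_gcd_eq_one]
        refine ((hlp.coprime_iff_not_dvd).2 fun hd => ?_).symm
        have h2 : (l : ℤ) ∣ u := (dvd_add_left (hv.mul_left _)).1 hd
        exact hlp.not_isUnit (h.isUnit_of_dvd' h2 hv)
      rw [this, f1]
    have h4 : Int.gcd (l : ℤ) v = l := by
      exact_mod_cast (Int.gcd_eq_left_iff_dvd (Int.natCast_nonneg l)).2 hv
    rw [Finset.sum_eq_zero h1, zero_add, h4]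
  · have h1 : Int.gcd (l : ℤ) v = 1 :=
      Int.isCoprime_iff_gcd_eq_one.1 ((hlp.coprime_iff_not_dvd).2 hv)
    rw [h1, f1, add_zero]
    obtain ⟨p, q, hpq⟩ := (hlp.coprime_iff_not_dvd).2 hv
    have hl0 : (0 : ℤ) < l := by exact_mod_cast hl.pos
    set b0 : ℤ := (-(q * u)) % l with hb0
    have hb1 : 0 ≤ b0 := Int.emod_nonneg _ hl0.ne'
    have hb2 : b0 < l := Int.emod_lt_of_pos _ hl0
    have hb3 : (l : ℤ) ∣ b0 + q * u := by
      have := Int.emod_add_mul_ediv (-(q * u)) l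
      exact ⟨-(-(q * u) / l), by rw [← hb0] at this; linear_combination this⟩
    have hroot : (l : ℤ) ∣ u + b0 * v := by
      obtain ⟨t, ht⟩ := hb3
      exact ⟨t * v + u * p, by linear_combination v * ht - u * hpq⟩
    have hnat : ((b0.toNat : ℕ) : ℤ) = b0 := Int.toNat_of_nonneg hb1
    rw [Finset.sum_eq_single b0.toNat]
    · have h4 : Int.gcd (u + b0 * v) l = l := by
        exact_mod_cast (Int.gcd_eq_right_iff_dvd (Int.natCast_nonneg l)).2 hroot
      rw [hnat, h4]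
    · intro b hb hne
      have : Int.gcd (u + b * v) l = 1 := by
        rw [← Int.isCoprime_iff_gcd_eq_one]
        refine ((hlp.coprime_iff_not_dvd).2 fun hd => ?_).symm
        have h2 : (l : ℤ) ∣ ((b : ℤ) - b0) * v := by
          have := dvd_sub hd hroot
          rwa [show u + (b : ℤ) * v - (u + b0 * v) = ((b : ℤ) - b0) * v by ring] at this
        rcases hlp.dvd_or_dvd h2 with h4 | h4
        · have h5 : (b : ℤ) - b0 = 0 := by
            apply Int.eq_zero_of_abs_lt_dvd h4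
            have hbl : (b : ℤ) < l := by exact_mod_cast Finset.mem_range.1 hb
            rw [abs_lt]
            constructor <;> omega
          exact hne (by omega)
        · exact hv h4
      rw [this, f1]
    · intro hb
      exfalso
      apply hb
      rw [Finset.mem_range]
      omega

lemma hecke_b2 (h3 : (3 : k) = 0) {l : ℕ} (hl : l.Prime) (hl3 : l ≠ 3) (x : Cusp) :
    ∑ b ∈ range l, b2 h3 (upS 1 b l • x) + b2 h3 (upS l 0 1 • x) = (1 + (l : k)) * b2 h3 x := by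
  have hlN : N3 (l : ℤ) := by
    intro h
    have h1 : 3 ∣ l := by exact_mod_cast h
    exact hl3 ((Nat.prime_dvd_prime_iff_eq Nat.prime_three hl).1 h1).symm
  have hl0 : (l : ℤ) ≠ 0 := by exact_mod_cast hl.ne_zero
  obtain ⟨u, v, hu, hv, hc, rfl⟩ := exists_red x
  have e1 : ∀ b ∈ range l, b2 h3 (upS 1 b l • Cusp.mk u v hu hv) =
      lg k u - lg k (Int.gcd (u + b * v) (l * v) : ℤ) := by
    intro b _
    obtain ⟨hu', hv', h⟩ := smul_mk (upS 1 b l) u v hu hv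
    have h' : upS 1 b l • Cusp.mk u v hu hv = Cusp.mk (u + b * v) (l * v)
        (hu.add_dvd (three_dvd_mul hv)) (hv.mul_left _) := by
      rw [h, Cusp.mk_eq, upS_coe n3_one hl0]
      simp
    rw [h']
    show lg k (u + b * v) - lg k (Int.gcd (u + b * v) (l * v) : ℤ) = _
    rw [lg_add h3 hu (hv.mul_left _)]
  have e2 : b2 h3 (upS l 0 1 • Cusp.mk u v hu hv) =
      lg k l + lg k u - lg k (Int.gcd (l * u) v : ℤ) := by
    obtain ⟨hu', hv', h⟩ := smul_mk (upS l 0 1) u v hu hv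
    have h' : upS l 0 1 • Cusp.mk u v hu hv = Cusp.mk (l * u) v (hlN.mul hu) hv := by
      rw [h, Cusp.mk_eq, upS_coe hlN one_ne_zero]
      simp
    rw [h']
    show lg k (l * u) - lg k (Int.gcd (l * u) v : ℤ) = _
    rw [lg_mul h3 hlN hu]
  have e3 := gcd_sum hl hc (fun m : ℕ => lg k (m : ℤ)) (by simpa using (lg_one (k := k)))
  rw [Finset.sum_congr rfl e1, e2, b2_mk h3 hu hv hc, Finset.sum_sub_distrib, Finset.sum_const,
    card_range, nsmul_eq_mul]
  linear_combination (-1 : k) * e3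

lemma hecke_b1 (h3 : (3 : k) = 0) {l : ℕ} (hl : l.Prime) (hl3 : l ≠ 3) (x : Cusp) :
    ∑ b ∈ range l, b1 h3 (upS 1 b l • x) + b1 h3 (upS l 0 1 • x) = (1 + (l : k)) * b1 h3 x := by
  have hlN : N3 (l : ℤ) := by
    intro h
    have h1 : 3 ∣ l := by exact_mod_cast h
    exact hl3 ((Nat.prime_dvd_prime_iff_eq Nat.prime_three hl).1 h1).symm
  have hl0 : (l : ℤ) ≠ 0 := by exact_mod_cast hl.ne_zero
  have e1 : ∀ b ∈ range l, b1 h3 (upS 1 b l • x) = (l : k) * b1 h3 x := by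
    intro b _
    rw [b1_smul h3 (upS 1 b l) (c := 0) (by rw [upS_coe n3_one hl0]; simp), upS_coe n3_one hl0]
    simp
  have e2 : b1 h3 (upS l 0 1 • x) = (l : k) * b1 h3 x := by
    rw [b1_smul h3 (upS l 0 1) (c := 0) (by rw [upS_coe hlN one_ne_zero]; simp),
      upS_coe hlN one_ne_zero]
    simp
  have e3 := sq_cast h3 hlN
  rw [Finset.sum_congr rfl e1, e2, Finset.sum_const, card_range, nsmul_eq_mul]
  push_cast at e3
  linear_combination (b1 h3 x) * e3

/-- **`T_l = 1 + l` on the weight zero symbols of level `9` modulo `3`.** -/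
theorem hecke_nine (h3 : (3 : k) = 0) {l : ℕ} (hl : l.Prime) (hl3 : l ≠ 3)
    {φ : Cusp → Cusp → Fin (0 + 1) → k} (hφ : φ ∈ Sym k 9 0) :
    hecke k 9 0 l φ = (1 + (l : k)) • φ := by
  have hl9 : ¬ l ∣ 9 := by
    intro h
    have h1 : l ∣ 3 := hl.dvd_of_dvd_pow (n := 2) (by norm_num; exact h)
    exact hl3 ((Nat.prime_dvd_prime_iff_eq hl Nat.prime_three).1 h1)
  obtain ⟨w1, w2, hw⟩ := sym_nine h3 hφ
  funext x y
  unfold hecke
  rw [if_neg hl9, LinearMap.add_apply, LinearMap.sum_apply]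
  simp only [Pi.add_apply, Finset.sum_apply, act_zero, hw, Pi.smul_apply]
  have hx1 := hecke_b1 h3 hl hl3 x
  have hy1 := hecke_b1 h3 hl hl3 y
  have hx2 := hecke_b2 h3 hl hl3 x
  have hy2 := hecke_b2 h3 hl hl3 y
  funext i
  simp only [Pi.add_apply, Finset.sum_apply, Pi.smul_apply, smul_eq_mul]
  rw [Finset.sum_add_distrib, ← Finset.sum_mul, ← Finset.sum_mul, Finset.sum_sub_distrib,
    Finset.sum_sub_distrib]
  linear_combination (w1 i) * hy1 - (w1 i) * hx1 + (w2 i) * hy2 - (w2 i) * hx2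

end P3

end Gouvea.PN
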