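import Pool.Agent.Work.MP_d3517d_nt.P5.Defs
import Pool.Agent.Work.MP_d3517d_nt.P5.HodgeAbs

/-!
# P5: reduction modulo `p` of partial modular symbols (MP_d3517d_nt)

* `mapF f φ`: entrywise image of a function on pairs of cusps under a ring homomorphism `f`;
  it commutes with `act` and with `hecke`, and maps `Sym k N M n` into `Sym k' N M n`;
* `redX N M n : Red p (Sym ℤ_[p] N M n) (Sym (ZMod p) N M n)`;
* `redX_img_Fs_le`: for `W = act w`, `w = (p a, b; M p c, p d)`, `p a d - M b c = 1`,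
  the image of `{φ | W φ ∈ p ^ s}` consists of symbols with values in polynomials of
  degree `≤ n - s`.
-/

open Polynomial Finset Matrix

noncomputable section

namespace Gouvea.P5

open Gouvea.PS (slk slk_apply slk_one slk_mul slk_smul slk_neg slk_map map_cast_mul)
open Gouvea.PX

variable {k k' : Type} [CommRing k] [CommRing k'] {N : ℕ}

/-! ### Change of coefficients -/

/-- entrywise image under a ring homomorphism -/
def mapF (f : k →+* k') (N n : ℕ) :
    (Cusp N → Cusp N → Fin (n + 1) → k) →+ (Cusp N → Cusp N → Fin (n + 1) → k') where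
  toFun φ x y i := f (φ x y i)
  map_zero' := by funext x y i; simp
  map_add' φ ψ := by funext x y i; simp

@[simp] theorem mapF_apply (f : k →+* k') (n : ℕ) (φ : Cusp N → Cusp N → Fin (n + 1) → k)
    (x y : Cusp N) (i : Fin (n + 1)) : mapF f N n φ x y i = f (φ x y i) := rfl

theorem mapF_smul (f : k →+* k') (n : ℕ) (c : k) (φ : Cusp N → Cusp N → Fin (n + 1) → k) :
    mapF f N n (c • φ) = f c • mapF f N n φ := by
  funext x y i
  simp

theorem mapF_act (f : k →+* k') (n : ℕ) (g : SN N) (φ : Cusp N → Cusp N → Fin (n + 1) → k) :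
    mapF f N n (act k N n g φ) = act k' N n g (mapF f N n φ) := by
  funext x y i
  rw [mapF_apply, act_apply, act_apply]
  have h : (g.1.map (Int.cast : ℤ → k')) = (g.1.map (Int.cast : ℤ → k)).map f := by
    ext u v
    simp
  rw [h, slk_map, Matrix.mulVec, Matrix.mulVec, dotProduct, dotProduct, map_sum]
  exact Finset.sum_congr rfl fun j _ => by rw [map_mul]; rfl

theorem mapF_mem (f : k →+* k') {M n : ℕ} {φ : Cusp N → Cusp N → Fin (n + 1) → k}
    (h : φ ∈ Sym k N M n) : mapF f N n φ ∈ Sym k' N M n := by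
  refine ⟨fun x y z => ?_, fun g hg => ?_⟩
  · funext i
    have := congrFun (h.1 x y z) i
    simp only [Pi.add_apply, mapF_apply] at this ⊢
    rw [← map_add, this]
  · rw [← mapF_act, h.2 g hg]

theorem mapF_memLe (f : k →+* k') {M n t : ℕ} {φ : Cusp N → Cusp N → Fin (n + 1) → k}
    (h : φ ∈ SymLe k N M n t) : mapF f N n φ ∈ SymLe k' N M n t :=
  ⟨mapF_mem f h.1, fun x y i hi => by rw [mapF_apply, h.2 x y i hi, map_zero]⟩

theorem mapF_hecke (f : k →+* k') (M n l : ℕ) (φ : Cusp N → Cusp N → Fin (n + 1) → k) :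
    mapF f N n (hecke k N M n l φ) = hecke k' N M n l (mapF f N n φ) := by
  unfold hecke
  rw [LinearMap.add_apply, LinearMap.add_apply, map_add, LinearMap.sum_apply, map_sum,
    LinearMap.sum_apply]
  congr 1
  · exact Finset.sum_congr rfl fun b _ => mapF_act f n _ φ
  · split_ifs
    · simp
    · exact mapF_act f n _ φ

theorem mapF_injective {f : k →+* k'} (hf : Function.Injective f) (N n : ℕ) :
    Function.Injective (mapF f N n) := by
  intro φ ψ h
  funext x y i
  exact hf (congrFun (congrFun (congrFun h x) y) i)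

/-! ### Reduction modulo `p` -/

variable {p : ℕ} [hp : Fact p.Prime]

theorem exists_smul_of_toZMod {n M : ℕ} {φ : Cusp N → Cusp N → Fin (n + 1) → ℤ_[p]}
    (h : φ ∈ Sym ℤ_[p] N M n) (h0 : mapF (PadicInt.toZMod (p := p)) N n φ = 0) :
    ∃ ψ ∈ Sym ℤ_[p] N M n, (p : ℤ_[p]) • ψ = φ := by
  have h1 : ∀ x y i, ∃ c, φ x y i = (p : ℤ_[p]) * c := fun x y i =>
    dvd_of_toZMod (congrFun (congrFun (congrFun h0 x) y) i)
  choose ψ hψ using h1
  have h2 : (p : ℤ_[p]) • ψ = φ := by
    funext x y i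
    rw [hψ x y i]
    rfl
  refine ⟨ψ, ⟨fun x y z => ?_, fun g hg => ?_⟩, h2⟩
  · funext i
    refine mul_left_cancel₀ (p_ne_zero (p := p)) ?_
    have := congrFun (h.1 x y z) i
    rw [← h2] at this
    simpa [mul_add] using this
  · have h3 := h.2 g hg
    rw [← h2, map_smul] at h3
    funext x y i
    refine mul_left_cancel₀ (p_ne_zero (p := p)) ?_
    exact congrFun (congrFun (congrFun h3 x) y) i

variable (p) in
/-- The reduction of partial modular symbols modulo `p`. -/
def redX (N M n : ℕ) : Red p (Sym ℤ_[p] N M n) (Sym (ZMod p) N M n) where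
  f :=
    { toFun := fun φ => ⟨mapF (PadicInt.toZMod (p := p)) N n φ.1, mapF_mem _ φ.2⟩
      map_zero' := Subtype.ext (map_zero _)
      map_add' := fun φ ψ => Subtype.ext (map_add _ _ _) }
  ker φ := by
    constructor
    · intro h
      obtain ⟨ψ, hψ, h1⟩ := exists_smul_of_toZMod φ.2 (congrArg Subtype.val h)
      exact ⟨⟨ψ, hψ⟩, Subtype.ext h1⟩
    · rintro ⟨ψ, rfl⟩
      refine Subtype.ext ?_
      show mapF (PadicInt.toZMod (p := p)) N n ((p : ℤ_[p]) • ψ.1) = 0
      rw [mapF_smul, map_natCast, CharP.cast_eq_zero, zero_smul]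

@[simp] theorem redX_f_coe (N M n : ℕ) (φ : Sym ℤ_[p] N M n) :
    ((redX p N M n).f φ : Cusp N → Cusp N → Fin (n + 1) → ZMod p) =
      mapF (PadicInt.toZMod (p := p)) N n φ.1 := rfl

theorem redX_f_apply (N M n : ℕ) (φ : Sym ℤ_[p] N M n) (x y : Cusp N) (i : Fin (n + 1)) :
    ((redX p N M n).f φ : Cusp N → Cusp N → Fin (n + 1) → ZMod p) x y i =
      PadicInt.toZMod (φ.1 x y i) := rfl

/-- the reduction commutes with the Hecke operators (as functions on pairs of cusps) -/
theorem redX_hecke (N M n l : ℕ) (φ : Sym ℤ_[p] N M n) :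
    hecke (ZMod p) N M n l
      ((redX p N M n).f φ : Cusp N → Cusp N → Fin (n + 1) → ZMod p) =
      mapF (PadicInt.toZMod (p := p)) N n (hecke ℤ_[p] N M n l φ.1) := by
  rw [redX_f_coe, mapF_hecke]

/-- the reduction commutes with operators on the symbols which are given by the same formula
over every ring -/
theorem redX_comm (N M M' n : ℕ) (F : Sym ℤ_[p] N M n → Sym ℤ_[p] N M' n)
    (F' : Sym (ZMod p) N M n → Sym (ZMod p) N M' n)
    (φ : Sym ℤ_[p] N M n)
    (h : (F' ((redX p N M n).f φ)).1 = mapF (PadicInt.toZMod (p := p)) N n (F φ).1) :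
    (redX p N M' n).f (F φ) = F' ((redX p N M n).f φ) := Subtype.ext h.symm

/-! ### The Hodge filtration -/

/-- entries of `slk` for an upper triangular matrix: `X^j ↦ (α X)^j` for `(α 0; 0 1)` -/
theorem slk_diag (n : ℕ) (α : k) (i j : Fin (n + 1)) :
    slk n !![α, 0; 0, 1] i j = if i = j then α ^ (i : ℕ) else 0 := by
  rw [slk_apply, slR]
  have h : ((C ((!![α, 0; 0, 1] : Matrix (Fin 2) (Fin 2) k) 0 0) * X +
      C ((!![α, 0; 0, 1] : Matrix (Fin 2) (Fin 2) k) 0 1)) ^ (j : ℕ) *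
      (C ((!![α, 0; 0, 1] : Matrix (Fin 2) (Fin 2) k) 1 0) * X +
      C ((!![α, 0; 0, 1] : Matrix (Fin 2) (Fin 2) k) 1 1)) ^ (n - (j : ℕ)) : k[X]) =
      C (α ^ (j : ℕ)) * X ^ (j : ℕ) := by
    simp [mul_pow]
  rw [h, coeff_C_mul_X_pow]
  by_cases hij : i = j
  · rw [if_pos hij, if_pos (by rw [hij]), hij]
  · rw [if_neg hij, if_neg (fun h => hij (Fin.ext h))]

/-- entries of `slk` for a matrix with upper left entry `0`: the degree of
`β ^ j (γ X + δ) ^ (n - j)` is at most `n - j` -/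
theorem slk_antitriangular (n : ℕ) (β γ δ : k) (i j : Fin (n + 1)) (h : n < (i : ℕ) + j) :
    slk n !![0, β; γ, δ] i j = 0 := by
  rw [slk_apply, slR]
  have h1 : ((C ((!![0, β; γ, δ] : Matrix (Fin 2) (Fin 2) k) 0 0) * X +
      C ((!![0, β; γ, δ] : Matrix (Fin 2) (Fin 2) k) 0 1)) ^ (j : ℕ) *
      (C ((!![0, β; γ, δ] : Matrix (Fin 2) (Fin 2) k) 1 0) * X +
      C ((!![0, β; γ, δ] : Matrix (Fin 2) (Fin 2) k) 1 1)) ^ (n - (j : ℕ)) : k[X]) =
      C (β ^ (j : ℕ)) * (C γ * X + C δ) ^ (n - (j : ℕ)) := by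
    simp
  rw [h1]
  refine coeff_eq_zero_of_natDegree_lt ?_
  refine lt_of_le_of_lt ((natDegree_C_mul_le _ _).trans (natDegree_pow_le.trans
    (Nat.mul_le_mul_left _ natDegree_linear_le))) ?_
  omega

/-- entries of `slk` for an upper triangular matrix -/
theorem slk_upper (n : ℕ) (g : Matrix (Fin 2) (Fin 2) k) (hg : g 1 0 = 0) (i j : Fin (n + 1))
    (h : (j : ℕ) < i) : slk n g i j = 0 := by
  rw [slk_apply, slR, hg]
  have h1 : ((C (g 0 0) * X + C (g 0 1)) ^ (j : ℕ) *
      (C (0 : k) * X + C (g 1 1)) ^ (n - (j : ℕ)) : k[X]) =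
      C (g 1 1 ^ (n - (j : ℕ))) * (C (g 0 0) * X + C (g 0 1)) ^ (j : ℕ) := by
    rw [map_zero, zero_mul, zero_add, mul_comm, C_pow]
  rw [h1]
  refine coeff_eq_zero_of_natDegree_lt ?_
  refine lt_of_le_of_lt ((natDegree_C_mul_le _ _).trans (natDegree_pow_le.trans
    (Nat.mul_le_mul_left _ natDegree_linear_le))) ?_
  omega

/-- the action of matrices which are upper triangular over `k` preserves the functions with
values in polynomials of degree `≤ t` -/
theorem act_le (n t : ℕ) (g : SN N) (hg : ((g.1 1 0 : ℤ) : k) = 0)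
    {φ : Cusp N → Cusp N → Fin (n + 1) → k}
    (h : ∀ x y (i : Fin (n + 1)), t < (i : ℕ) → φ x y i = 0) (x y : Cusp N) (i : Fin (n + 1))
    (hi : t < (i : ℕ)) : act k N n g φ x y i = 0 := by
  rw [act_apply, Matrix.mulVec, dotProduct]
  refine Finset.sum_eq_zero fun j _ => ?_
  by_cases hj : t < (j : ℕ)
  · rw [h _ _ j hj, mul_zero]
  · rw [slk_upper n _ (by simpa using hg) i j (by omega), zero_mul]

/-- the Hecke operators preserve the functions with values in polynomials of degree `≤ t` -/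
theorem hecke_le (M n t l : ℕ) {φ : Cusp N → Cusp N → Fin (n + 1) → k}
    (h : ∀ x y (i : Fin (n + 1)), t < (i : ℕ) → φ x y i = 0) (x y : Cusp N) (i : Fin (n + 1))
    (hi : t < (i : ℕ)) : hecke k N M n l φ x y i = 0 := by
  have hup : ∀ a b d : ℤ, (((upS N a b d).1 1 0 : ℤ) : k) = 0 := by
    intro a b d
    unfold upS
    split_ifs
    · simp
    · simp
  unfold hecke
  rw [LinearMap.add_apply, LinearMap.sum_apply, Pi.add_apply, Pi.add_apply, Pi.add_apply,
    Finset.sum_apply, Finset.sum_apply, Finset.sum_apply]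
  have h1 : ∑ b ∈ range l, act k N n (upS N 1 b l) φ x y i = 0 :=
    Finset.sum_eq_zero fun b _ => act_le n t _ (hup _ _ _) h x y i hi
  rw [h1, zero_add]
  split_ifs
  · simp
  · exact act_le n t _ (hup _ _ _) h x y i hi

/-- scalar matrices act trivially on the cusps -/
theorem scalar_smul (g : SN N) (c : ℤ) (hg : g.1 = !![c, 0; 0, c]) (x : Cusp N) : g • x = x := by
  induction x using Cusp.ind' with
  | h u v hu hv hne =>
    obtain ⟨hu', hv', hne', h⟩ := smul_mk g u v hu hv hne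
    rw [h, Cusp.mk_eq, hg]
    simp
    ring

/-- The element `w = (p a, b; M p c, p d)`, `p a d - M b c = 1`, permutes the cusps. -/
theorem atk_surjective {M : ℕ} {a b c d : ℤ} (hNM : (N : ℤ) ∣ M)
    (hdet : (p : ℤ) * a * d - M * b * c = 1) (w : SN N)
    (hw : w.1 = !![(p : ℤ) * a, b; M * p * c, p * d]) :
    Function.Surjective (fun x : Cusp N => w • x) := by
  have hpN : IsCoprime ((p : ℤ) * a) (N : ℤ) := by
    have := w.2.2.1
    rw [hw] at this
    simpa using this
  have hdN : IsCoprime d (N : ℤ) := by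
    obtain ⟨t, ht⟩ := hNM
    refine ⟨p * a, -(t * b * c), ?_⟩
    rw [ht] at hdet
    linear_combination hdet
  have hp0 : (p : ℤ) ≠ 0 := by exact_mod_cast hp.out.ne_zero
  let w' : SN N := ⟨!![(p : ℤ) * d, -b; -(M * p * c), p * a], by
    refine ⟨?_, ?_, ?_⟩
    · rw [det_fin_two_of]
      have : (p : ℤ) * d * (p * a) - -b * -(M * p * c) = p := by
        linear_combination (p : ℤ) * hdet
      rw [this]
      exact hp0
    · simpa using (hpN.of_mul_left_left).mul_left hdN
    · simpa using ((hNM.mul_right _).mul_right _)⟩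
  intro x
  refine ⟨w' • x, ?_⟩
  show w • w' • x = x
  rw [← mul_smul]
  refine scalar_smul _ p ?_ x
  rw [Submonoid.coe_mul, hw]
  show !![(p : ℤ) * a, b; M * p * c, p * d] * !![(p : ℤ) * d, -b; -(M * p * c), p * a] = _
  rw [Matrix.mul_fin_two]
  ext i j
  fin_cases i <;> fin_cases j <;> simp
  · linear_combination (p : ℤ) * hdet
  · ring
  · ring
  · linear_combination (p : ℤ) * hdet

/-- Key computation: if `f | w ∈ p ^ s`, then `f` has degree `≤ n - s` modulo `p`. -/
theorem toZMod_eq_zero_of_atk {M n s : ℕ} {a b c d : ℤ}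
    (hdet : (p : ℤ) * a * d - M * b * c = 1) (f g : Fin (n + 1) → ℤ_[p])
    (hf : (slk n ((!![(p : ℤ) * a, b; M * p * c, p * d] : Matrix (Fin 2) (Fin 2) ℤ).map
      (Int.cast : ℤ → ℤ_[p]))).mulVec f = (p : ℤ_[p]) ^ s • g) (i : Fin (n + 1))
    (hi : n < (i : ℕ) + s) : PadicInt.toZMod (f i) = 0 := by
  set κ : Matrix (Fin 2) (Fin 2) ℤ_[p] := !![(a : ℤ_[p]), b; M * c, p * d] with hκ
  set κ' : Matrix (Fin 2) (Fin 2) ℤ_[p] := !![(p : ℤ_[p]) * d, -b; -(M * c), a] with hκ'
  have hdet' : (p : ℤ_[p]) * a * d - M * b * c = 1 := by exact_mod_cast congrArg (Int.cast : ℤ → ℤ_[p]) hdet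
  have hw : (!![(p : ℤ) * a, b; M * p * c, p * d] : Matrix (Fin 2) (Fin 2) ℤ).map
      (Int.cast : ℤ → ℤ_[p]) = κ * !![(p : ℤ_[p]), 0; 0, 1] := by
    rw [hκ, Matrix.mul_fin_two]
    ext u v
    fin_cases u <;> fin_cases v <;> simp <;> ring
  have hinv : κ * κ' = 1 := by
    rw [hκ, hκ', Matrix.mul_fin_two]
    ext u v
    fin_cases u <;> fin_cases v <;> simp
    · linear_combination hdet'
    · ring
    · ring
    · linear_combination hdet'
  set h := (slk n κ).mulVec f with hh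
  have hfh : (slk n κ').mulVec h = f := by
    rw [hh, Matrix.mulVec_mulVec, ← slk_mul, hinv, slk_one, Matrix.one_mulVec]
  -- the low coefficients of `h` are divisible by `p`
  have hlow : ∀ j : Fin (n + 1), (j : ℕ) < s → PadicInt.toZMod (h j) = 0 := by
    intro j hj
    have h1 := congrFun hf j
    rw [hw, slk_mul, ← Matrix.mulVec_mulVec, ← hh] at h1
    have h2 : (slk n (!![(p : ℤ_[p]), 0; 0, 1] : Matrix (Fin 2) (Fin 2) ℤ_[p])).mulVec h j =
        (p : ℤ_[p]) ^ (j : ℕ) * h j := by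
      rw [Matrix.mulVec, dotProduct, Finset.sum_eq_single j]
      · rw [slk_diag, if_pos rfl]
      · intro b _ hb
        rw [slk_diag, if_neg (Ne.symm hb), zero_mul]
      · intro hb
        exact absurd (Finset.mem_univ _) hb
    rw [h2, Pi.smul_apply, smul_eq_mul, show s = (j : ℕ) + (s - j - 1 + 1) by omega, pow_add,
      mul_assoc] at h1
    have h3 := mul_left_cancel₀ (pow_ne_zero _ (p_ne_zero (p := p))) h1
    rw [h3, pow_succ, map_mul, map_mul, map_natCast, CharP.cast_eq_zero (R := ZMod p) p,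
      mul_zero, zero_mul]
  rw [← hfh, Matrix.mulVec, dotProduct, map_sum]
  refine Finset.sum_eq_zero fun j _ => ?_
  rw [map_mul]
  by_cases hj : (j : ℕ) < s
  · rw [hlow j hj, mul_zero]
  · have h4 : PadicInt.toZMod (slk n κ' i j) = slk n (κ'.map (PadicInt.toZMod (p := p))) i j := by
      rw [slk_map]
      rfl
    have h5 : κ'.map (PadicInt.toZMod (p := p)) =
        !![0, ((-b : ℤ) : ZMod p); ((-(M * c) : ℤ) : ZMod p), ((a : ℤ) : ZMod p)] := by
      rw [hκ']
      ext u v
      fin_cases u <;> fin_cases v <;> simp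
    rw [h4, h5, slk_antitriangular n _ _ _ i j (by omega), zero_mul]

variable (k) in
/-- the symbols with values in polynomials of degree `≤ t`, as a submodule of `Sym` -/
def symLe (N M n t : ℕ) : Submodule k (Sym k N M n) :=
  (SymLe k N M n t).comap (Sym k N M n).subtype

theorem mem_symLe {M n t : ℕ} {φ : Sym k N M n} :
    φ ∈ symLe k N M n t ↔ ∀ x y (i : Fin (n + 1)), t < (i : ℕ) → φ.1 x y i = 0 :=
  ⟨fun h => h.2, fun h => ⟨φ.2, h⟩⟩

variable (k) in
/-- `symLe` is isomorphic to `SymLe`. -/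
def symLeEquiv (N M n t : ℕ) : symLe k N M n t ≃ₗ[k] SymLe k N M n t :=
  Submodule.comapSubtypeEquivOfLe (SymLe_le k N M n t)

theorem finrank_symLe (N M n t : ℕ) :
    Module.finrank k (symLe k N M n t) = Module.finrank k (SymLe k N M n t) :=
  (symLeEquiv k N M n t).finrank_eq

/-- **The Hodge filtration**: `W φ ∈ p ^ s` implies that the reduction of `φ` has values in
polynomials of degree `≤ n - s`. -/
theorem redX_img_Fs_le {M L n : ℕ} {a b c d : ℤ} (hNM : (N : ℤ) ∣ M)
    (hdet : (p : ℤ) * a * d - M * b * c = 1) (w : SN N)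
    (hw : w.1 = !![(p : ℤ) * a, b; M * p * c, p * d])
    (W : Sym ℤ_[p] N L n →ₗ[ℤ_[p]] Sym ℤ_[p] N L n)
    (hW : ∀ φ : Sym ℤ_[p] N L n, (W φ).1 = act ℤ_[p] N n w φ.1) {s : ℕ} (hs : s ≤ n) :
    (redX p N L n).img (Fs W s) ≤ symLe (ZMod p) N L n (n - s) := by
  rintro ψ ⟨φ, ⟨y, hy⟩, rfl⟩
  rw [mem_symLe]
  intro x x' i hi
  rw [redX_f_apply]
  obtain ⟨z, rfl⟩ := atk_surjective hNM hdet w hw x
  obtain ⟨z', rfl⟩ := atk_surjective hNM hdet w hw x'
  have h1 : (W φ).1 z z' = ((p : ℤ_[p]) ^ s • y.1) z z' := by rw [hy]; rfl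
  rw [hW, act_apply, hw] at h1
  exact toZMod_eq_zero_of_atk hdet _ (y.1 z z') h1 i (by omega)

end Gouvea.P5
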