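import Pool.Agent.Work.MP_d3517d_nt.P5.RankPart
import Pool.Agent.Work.MP_d3517d_nt.P5.Part
import Pool.Agent.Work.MP_d3517d_nt.P5.RedX
import Pool.Agent.Work.MP_d3517d_nt.P5.LatBasis
import Pool.Agent.Work.MP_d3517d_nt.P5.MainX
import Pool.Agent.Work.MP_d3517d_nt.P5.SymCount
import Pool.Agent.Work.MP_d3517d_nt.Fin.Defs
import Pool.Agent.Work.MP_d3517d_nt.Sys.Src

/-!
# P5: the number of systems in one class at level `L`, `p ∣ L`, and the nilpotent part of the
symbols modulo `p` (MP_d3517d_nt)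

`lin_two`: `p = 2, 3`, `2 ≤ N ∣ L`, `p ∣ L`, `(A, c)` a class with a finite residue field of degree
`f`: `2 f tot(L, n + 2) = dim nilPart (Sym (ZMod p) N L n) + O(1)` for even `n`.
-/

open Module

noncomputable section

namespace Gouvea.P5

open Gouvea.Sys Gouvea.ES Gouvea.PX

variable {p : ℕ} [hp : Fact p.Prime]

section

variable {N L : ℕ} [NeZero L] (hN : N ∣ L) (n : ℕ)

/-- the action of the Hecke ring without `p` on the symbols -/
def rho0 (p : ℕ) (k : Type) [CommRing k] {N L : ℕ} [NeZero L] (hN : N ∣ L) (n : ℕ) :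
    HR0 p →+* Module.End k (Sym k N L n) := (rhoN k N L n hN).comp (incl p)

theorem rho0_X (p : ℕ) [Fact p.Prime] (k : Type) [CommRing k] {N L : ℕ} [NeZero L] (hN : N ∣ L) (n : ℕ)
    (l : {l : ℕ // l.Prime ∧ l ≠ p}) (φ : Sym k N L n) :
    (rho0 p k hN n (MvPolynomial.X l) φ : PX.Cusp N → PX.Cusp N → Fin (n + 1) → k) =
      hecke k N L n l φ := by
  rw [rho0, RingHom.comp_apply, incl_X, rhoN_X]
  rfl

/-- the systems of the integral matrices -/
theorem Sys_AZ_lin (K : Type) [Field K] [CharZero K] [IsAlgClosed K]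
    [FiniteDimensional K (Sym K N L n)] :
    Sys (matRep (intRep K (AZ (NeZero.ne L) hN n))) = Sys (rhoN K N L n hN) := by
  symm
  refine Sys_congr (ρU := rhoN K N L n hN) (ρV := matRep (intRep K (AZ (NeZero.ne L) hN n)))
    (bas (NeZero.ne L) hN n K).equivFun fun r u => ?_
  have h1 := LinearMap.toMatrix_mulVec_repr (bas (NeZero.ne L) hN n K)
    (bas (NeZero.ne L) hN n K) (rhoN K N L n hN r) u
  rw [toMatrix_rhoN] at h1
  exact h1.symm

/-- the number of systems which are small on an ideal -/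
theorem card_SJ (hN2 : 2 ≤ N) (hn : Even n) (hn2 : 2 ≤ n) (hLp : (p : ℕ) ∣ L) (hp23 : p = 2 ∨ p = 3)
    (I : Ideal (HR0 p)) :
    (SJ (AZ (NeZero.ne L) hN n) I).card ≤
        Module.finrank (ZMod p) (nilPart (rho0 p (ZMod p) hN n) I ⊤) ∧
      6 * Module.finrank (ZMod p) (nilPart (rho0 p (ZMod p) hN n) I ⊤) ≤
        6 * (SJ (AZ (NeZero.ne L) hN n) I).card +
          (4 * (CongruenceSubgroup.Gamma0 L).index +
            12 * ((CongruenceSubgroup.Gamma0 L).index ^ 2 +
              (CongruenceSubgroup.Gamma0 L).index)) := by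
  classical
  have hL := NeZero.ne L
  have : Module.Free ℤ_[p] (Sym ℤ_[p] N L n) := Module.Free.of_basis (bas hL hN n ℤ_[p])
  have : Module.Finite ℤ_[p] (Sym ℤ_[p] N L n) := Module.Finite.of_basis (bas hL hN n ℤ_[p])
  have hfin : FiniteDimensional (ZMod p) (Sym (ZMod p) N L n) :=
    (finrank_Sym_le_add (ZMod p) hN2 hN hn).2
  have hred : ∀ u a, (redX p N L n).f ((((rhoN ℤ_[p] N L n hN).comp (incl p)) u) a) =
      rho0 p (ZMod p) hN n u ((redX p N L n).f a) := fun u a =>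
    (baseS_rhoN (PadicInt.toZMod (p := p)) hN (incl p u) a).symm
  obtain ⟨e, t, ht, he, het, hcomm, hbig⟩ := exists_idem ((rhoN ℤ_[p] N L n hN).comp (incl p)) I
  have hc : ∀ u, e * rhoN ℤ_[p] N L n hN u = rhoN ℤ_[p] N L n hN u * e := fun u =>
    hcomm (rhoN ℤ_[p] N L n hN u) fun v => by
      rw [RingHom.comp_apply, ← map_mul, ← map_mul, mul_comm]
  have hfT : Module.Finite (ZMod p) (⊤ : Submodule (ZMod p) (Sym (ZMod p) N L n)) :=
    Submodule.finiteDimensional_of_le le_top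
  obtain ⟨h1, h2⟩ := rank_part ((rhoN ℤ_[p] N L n hN).comp (incl p)) I ht he het hbig
    (rho0 p (ZMod p) hN n) (redX p N L n) hred ⊤ (fun a => Submodule.mem_top)
  have h3 := (GE_part (incl p) (rhoN ℤ_[p] N L n hN) (bas hL hN n ℤ_[p])
    (intP p (AZ hL hN n)) (fun r => toMatrix_rhoN hL hN n r) I ht he het hc hbig (incl p t)
    (ker_le_comap (hc _))).2
  have h4 : Module.finrank ℤ_[p] (LinearMap.ker e) = (SJ (AZ hL hN n) I).card := h3
  rw [h4] at h1 h2
  refine ⟨h1, ?_⟩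
  -- the total rank
  have h5 : Module.finrank ℤ_[p] (Sym ℤ_[p] N L n) = rk hL hN n := finrank_sym hL hN n
  have h6 : Module.finrank ℂ (Sym ℂ N L n) = rk hL hN n := finrank_sym hL hN n
  have : NeZero N := ⟨by omega⟩
  have := finiteDimensional_SymX ℂ hN2 hN hn
  have h7 := LinearMap.finrank_le_finrank_of_injective (ESX_injective (N := N) (M := L) hn2)
  rw [Module.finrank_prod, h6, ← h5] at h7
  have h8 := Pool.Agent.Gouv.ESDim.finrank_cuspForm_ge L (n + 2) (hn.add even_two)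
  have h9 : Module.finrank ℂ (CuspForm ((CongruenceSubgroup.Gamma0 L : Subgroup _) :
      Subgroup (GL (Fin 2) ℝ)) ((n + 2 : ℕ) : ℤ)) =
      Module.finrank ℂ (Gouvea.Cusp L (n + 2)) := rfl
  rw [h9] at h8
  have h10 := (finrank_SymLe_le_add_four (k := ZMod p) hp23 hN2 hN hLp hn le_rfl).1
  rw [SymLe_self, card_Qt] at h10
  rw [finrank_top] at h2
  generalize (CongruenceSubgroup.Gamma0 L).index ^ 2 = s at *
  generalize (CongruenceSubgroup.Gamma0 L).index = d at *
  have e1 : d * (n + 2) = d * n + 2 * d := by ring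
  have e2 : d * (n + 1 + 4) = d * n + 5 * d := by ring
  rw [e1] at h8
  rw [e2] at h10
  generalize d * n = u at *
  omega

open Classical in
/-- twice the number of systems on the cusp forms in the class, up to a constant -/
theorem card_class_two (j : algebraicClosure ℚ ℂ →+* PadicAlgCl p) (hN2 : 2 ≤ N) (hn : Even n)
    (hn2 : 2 ≤ n) {A : Set Nat.Primes} {c : Nat.Primes → PadicAlgCl p} (hG : Good A c)
    (hA : ∀ q ∈ A, (q : ℕ) ≠ p) :
    2 * (fdeg A c * Fin.tot j L (n + 2) A c) ≤ (SJ (AZ (NeZero.ne L) hN n) (Jc A c)).card ∧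
      (SJ (AZ (NeZero.ne L) hN n) (Jc A c)).card ≤
        2 * (fdeg A c * Fin.tot j L (n + 2) A c) + fdeg A c * esBoundX L := by
  have := finiteDimensional_SymX ℂ hN2 hN hn
  obtain ⟨r, hr, hrS⟩ := Sys_SymX hN2 hN hn hn2
  rw [← Sys_AZ_lin] at hrS
  have h1 := count_class hG hA (AZ (NeZero.ne L) hN n) (fun _ => True) (fun σ χ => Iff.rfl)
  have h2 : ∀ (T : Multiset (HR →+* PadicAlgCl p))
      (dp : DecidablePred fun _ : HR →+* PadicAlgCl p => True),
      @Multiset.filter _ (fun _ => True) dp T = T :=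
    fun T dp => (@Multiset.filter_eq_self _ (fun _ => True) dp T).mpr fun _ _ => trivial
  rw [h2] at h1
  simp only [and_true] at h1
  have h3 := card_emb (AZ (NeZero.ne L) hN n) j (fun g => InP A c g)
  have h4 : ((Sys (matRep (intRep ℂ (AZ (NeZero.ne L) hN n)))).filter
      fun χ => InP A c (fun r => emb p j (χ r))).card =
      2 * Fin.tot j L (n + 2) A c + (r.filter fun χ => InP A c (fun r => emb p j (χ r))).card := by
    rw [hrS, Multiset.filter_add, Multiset.filter_add, Multiset.card_add, Multiset.card_add]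
    have h5 : ((Sys (rhoC L (n + 2))).filter fun χ => InP A c (fun r => emb p j (χ r))).card =
        Fin.tot j L (n + 2) A c := rfl
    rw [h5]
    ring
  have h6 : (r.filter fun χ => InP A c (fun r => emb p j (χ r))).card ≤ esBoundX L :=
    (Multiset.card_le_card (Multiset.filter_le _ _)).trans hr
  rw [h4] at h3
  have h7 : ((Sys (matRep (intRep (PadicAlgCl p) (AZ (NeZero.ne L) hN n)))).filter
      fun χ : HR →+* PadicAlgCl p => InP A c χ).card =
      2 * Fin.tot j L (n + 2) A c + (r.filter fun χ => InP A c (fun r => emb p j (χ r))).card :=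
    h3.symm
  rw [h7] at h1
  rw [h1, mul_add]
  constructor
  · have : 2 * (fdeg A c * Fin.tot j L (n + 2) A c) = fdeg A c * (2 * Fin.tot j L (n + 2) A c) := by
      ring
    rw [this]
    exact Nat.le_add_right _ _
  · have : 2 * (fdeg A c * Fin.tot j L (n + 2) A c) = fdeg A c * (2 * Fin.tot j L (n + 2) A c) := by
      ring
    rw [this]
    exact Nat.add_le_add_left (Nat.mul_le_mul_left _ h6) _

end

/-- **The number of systems in one class and the nilpotent part modulo `p`.** -/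
theorem lin_two (j : algebraicClosure ℚ ℂ →+* PadicAlgCl p) (hp23 : p = 2 ∨ p = 3) {N L : ℕ}
    [NeZero L] (hN2 : 2 ≤ N) (hN : N ∣ L) (hpL : p ∣ L) {A : Set Nat.Primes}
    {c : Nat.Primes → PadicAlgCl p} (hG : Good A c) (hA : ∀ q ∈ A, (q : ℕ) ≠ p) :
    ∃ C : ℝ, ∀ n : ℕ, Even n →
      |2 * (fdeg A c : ℝ) * (Fin.tot j L (n + 2) A c : ℝ) -
        Module.finrank (ZMod p) (nilPart (rho0 p (ZMod p) hN n) (Jc A c) ⊤)| ≤ C := by
  set C1 : ℝ := fdeg A c * esBoundX L + (4 * (CongruenceSubgroup.Gamma0 L).index +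
    12 * ((CongruenceSubgroup.Gamma0 L).index ^ 2 + (CongruenceSubgroup.Gamma0 L).index)) with hC1
  have h0 : 0 ≤ C1 := by positivity
  refine ⟨C1 + |2 * (fdeg A c : ℝ) * (Fin.tot j L (0 + 2) A c : ℝ) -
        Module.finrank (ZMod p) (nilPart (rho0 p (ZMod p) hN 0) (Jc A c) ⊤)|, fun n hn => ?_⟩
  by_cases hn2 : 2 ≤ n
  · obtain ⟨h1, h2⟩ := card_SJ (p := p) hN n hN2 hn hn2 hpL hp23 (Jc A c)
    obtain ⟨h3, h4⟩ := card_class_two hN n j hN2 hn hn2 hG hA
    have h1' : ((SJ (AZ (NeZero.ne L) hN n) (Jc A c)).card : ℝ) ≤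
      Module.finrank (ZMod p) (nilPart (rho0 p (ZMod p) hN n) (Jc A c) ⊤) := by exact_mod_cast h1
    have h2' : 6 * (Module.finrank (ZMod p) (nilPart (rho0 p (ZMod p) hN n) (Jc A c) ⊤) : ℝ) ≤
        6 * ((SJ (AZ (NeZero.ne L) hN n) (Jc A c)).card : ℝ) +
          (4 * (CongruenceSubgroup.Gamma0 L).index +
            12 * ((CongruenceSubgroup.Gamma0 L).index ^ 2 +
              (CongruenceSubgroup.Gamma0 L).index)) := by exact_mod_cast h2
    have h3' : 2 * ((fdeg A c : ℝ) * (Fin.tot j L (n + 2) A c : ℝ)) ≤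
        ((SJ (AZ (NeZero.ne L) hN n) (Jc A c)).card : ℝ) := by exact_mod_cast h3
    have h4' : ((SJ (AZ (NeZero.ne L) hN n) (Jc A c)).card : ℝ) ≤
        2 * ((fdeg A c : ℝ) * (Fin.tot j L (n + 2) A c : ℝ)) + fdeg A c * esBoundX L := by
      exact_mod_cast h4
    have h5 : (0 : ℝ) ≤ 4 * (CongruenceSubgroup.Gamma0 L).index +
      12 * ((CongruenceSubgroup.Gamma0 L).index ^ 2 + (CongruenceSubgroup.Gamma0 L).index) := by
      positivity
    refine le_trans ?_ (le_add_of_nonneg_right (abs_nonneg _))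
    rw [abs_le, hC1]
    constructor <;> nlinarith
  · have : n = 0 := by
      obtain ⟨m, hm⟩ := hn
      omega
    subst this
    exact le_add_of_nonneg_left h0

open Classical in
/-- A class without a finite residue field contains no system. -/
theorem tot_eq_zero (j : algebraicClosure ℚ ℂ →+* PadicAlgCl p) {N L : ℕ} [NeZero L]
    (hN2 : 2 ≤ N) (hN : N ∣ L) {A : Set Nat.Primes} {c : Nat.Primes → PadicAlgCl p}
    (hc : ∀ q ∈ A, ‖c q‖ ≤ 1) (hA : ∀ q ∈ A, (q : ℕ) ≠ p) (hG : ¬ Good A c) {n : ℕ}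
    (hn : Even n) (hn2 : 2 ≤ n) : Fin.tot j L (n + 2) A c = 0 := by
  have := finiteDimensional_SymX ℂ hN2 hN hn
  obtain ⟨r, hr, hrS⟩ := Sys_SymX hN2 hN hn hn2
  rw [← Sys_AZ_lin] at hrS
  have h3 := card_emb (AZ (NeZero.ne L) hN n) j (fun g => InP A c g)
  have h7 : ((Sys (matRep (intRep (PadicAlgCl p) (AZ (NeZero.ne L) hN n)))).filter
      fun χ : HR →+* PadicAlgCl p => InP A c fun r => χ r).card = 0 := by
    rw [Multiset.card_eq_zero, Multiset.filter_eq_nil]
    intro χ hχ hI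
    exact hG (good_of_mem hc hA (AZ (NeZero.ne L) hN n) χ hχ hI)
  rw [h7, hrS, Multiset.filter_add, Multiset.filter_add, Multiset.card_add,
    Multiset.card_add] at h3
  have h5 : ((Sys (rhoC L (n + 2))).filter fun χ => InP A c (fun r => emb p j (χ r))).card =
      Fin.tot j L (n + 2) A c := rfl
  rw [h5] at h3
  omega

theorem symLe_top (k : Type) [CommRing k] (N M n : ℕ) : symLe k N M n n = ⊤ := by
  rw [eq_top_iff]
  intro φ _
  exact mem_symLe.2 fun x y i hi => absurd i.2 (by omega)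

/-- the same with `symLe` -/
theorem lin_two_le (j : algebraicClosure ℚ ℂ →+* PadicAlgCl p) (hp23 : p = 2 ∨ p = 3) {N L : ℕ}
    [NeZero L] (hN2 : 2 ≤ N) (hN : N ∣ L) (hpL : p ∣ L) {A : Set Nat.Primes}
    {c : Nat.Primes → PadicAlgCl p} (hG : Good A c) (hA : ∀ q ∈ A, (q : ℕ) ≠ p) :
    ∃ C : ℝ, ∀ n : ℕ, Even n →
      |2 * (fdeg A c : ℝ) * (Fin.tot j L (n + 2) A c : ℝ) -
        Module.finrank (ZMod p) (nilPart (rho0 p (ZMod p) hN n) (Jc A c)
          (symLe (ZMod p) N L n n))| ≤ C := by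
  obtain ⟨C, hC⟩ := lin_two j hp23 hN2 hN hpL hG hA
  exact ⟨C, fun n hn => by rw [symLe_top]; exact hC n hn⟩

end Gouvea.P5
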