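import Pool.Agent.Work.MP_d3517d_nt.PS.Defs

/-!
# P5: the invariant polynomial `(X^p - X)^(p-1)` and polynomials modulo `p` (MP_d3517d_nt)

The matrices `g = (a b; 0 d)` over `F_p` with `a`, `d` units act on polynomials of degree `≤ n` by
`f ↦ d^n f((aX+b)/d)`.  The polynomial `dl = (X^p - X)^(p-1)` of degree `p (p-1)` is invariant, so
multiplication by `dl` and the division with remainder by `dl` are equivariant.
-/

open Polynomial Finset

noncomputable section

namespace Gouvea.P5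

open Gouvea Gouvea.PS

/-! ### Vectors and polynomials -/

section Vec

variable {k : Type} [Field k]

/-- the polynomial with the given coefficients -/
def polU (n : ℕ) : (Fin (n + 1) → k) →ₗ[k] k[X] where
  toFun v := ∑ i : Fin (n + 1), monomial (i : ℕ) (v i)
  map_add' v w := by simp [Finset.sum_add_distrib]
  map_smul' a v := by simp [Finset.smul_sum, smul_monomial]

/-- the first coefficients of a polynomial -/
def vec (n : ℕ) : k[X] →ₗ[k] (Fin (n + 1) → k) where
  toFun f i := f.coeff i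
  map_add' f g := by ext i; simp
  map_smul' a f := by ext i; simp

@[simp] lemma vec_apply (n : ℕ) (f : k[X]) (i : Fin (n + 1)) : vec n f i = f.coeff i := rfl

lemma pol_apply (n : ℕ) (v : Fin (n + 1) → k) :
    polU n v = ∑ i : Fin (n + 1), monomial (i : ℕ) (v i) := rfl

lemma coeff_polU {n : ℕ} (v : Fin (n + 1) → k) (i : Fin (n + 1)) : (polU n v).coeff i = v i := by
  rw [pol_apply, finsetSum_coeff, Finset.sum_eq_single i]
  · simp
  · intro j _ hj
    rw [coeff_monomial, if_neg]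
    intro h
    exact hj (Fin.ext h)
  · intro h
    exact absurd (mem_univ _) h

lemma coeff_pol_of_lt {n : ℕ} (v : Fin (n + 1) → k) {i : ℕ} (hi : n < i) :
    (polU n v).coeff i = 0 := by
  rw [pol_apply, finsetSum_coeff]
  refine Finset.sum_eq_zero fun j _ => ?_
  rw [coeff_monomial, if_neg]
  have := j.2
  omega

lemma natDegree_pol_le {n : ℕ} (v : Fin (n + 1) → k) : (polU n v).natDegree ≤ n :=
  natDegree_le_iff_coeff_eq_zero.2 fun _ hi => coeff_pol_of_lt v hi

@[simp] lemma vec_pol {n : ℕ} (v : Fin (n + 1) → k) : vec n (polU n v) = v :=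
  funext fun i => coeff_polU v i

lemma pol_vec {n : ℕ} {f : k[X]} (hf : f.natDegree ≤ n) : polU n (vec n f) = f := by
  ext i
  by_cases hi : i < n + 1
  · exact coeff_polU (vec n f) ⟨i, hi⟩
  · rw [coeff_pol_of_lt _ (by omega), coeff_eq_zero_of_natDegree_lt (by omega)]

lemma mulVec_vec (n : ℕ) (g : Matrix (Fin 2) (Fin 2) k) (f : k[X]) :
    (slk n g).mulVec (vec n f) = vec n (slashM n g f) := by
  ext i
  rw [vec_apply, coeff_slashM_eq]
  rfl

/-- vectors supported in degrees `≤ t` -/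
def LE (k : Type) [Field k] (n t : ℕ) : Submodule k (Fin (n + 1) → k) where
  carrier := {v | ∀ i : Fin (n + 1), t < (i : ℕ) → v i = 0}
  add_mem' := by
    intro v w hv hw i hi
    rw [Pi.add_apply, hv i hi, hw i hi, add_zero]
  zero_mem' := fun _ _ => rfl
  smul_mem' := by
    intro a v hv i hi
    rw [Pi.smul_apply, hv i hi, smul_zero]

lemma mem_LE {n t : ℕ} {v : Fin (n + 1) → k} :
    v ∈ LE k n t ↔ ∀ i : Fin (n + 1), t < (i : ℕ) → v i = 0 := Iff.rfl

lemma mem_LE_iff {n t : ℕ} {v : Fin (n + 1) → k} :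
    v ∈ LE k n t ↔ (polU n v).natDegree ≤ t := by
  rw [mem_LE, natDegree_le_iff_coeff_eq_zero]
  constructor
  · intro h i hi
    by_cases hn : i < n + 1
    · have := h ⟨i, hn⟩ hi
      rw [← coeff_polU v ⟨i, hn⟩] at this
      exact this
    · exact coeff_pol_of_lt v (by omega)
  · intro h i hi
    rw [← coeff_polU v i]
    exact h _ hi

lemma vec_mem_LE {n t : ℕ} {f : k[X]} (hf : f.natDegree ≤ t) : vec n f ∈ LE k n t :=
  fun i hi => coeff_eq_zero_of_natDegree_lt (by omega)

lemma LE_mono {n s t : ℕ} (h : s ≤ t) : LE k n s ≤ LE k n t :=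
  fun _ hv i hi => hv i (by omega)

lemma LE_top {n t : ℕ} (h : n ≤ t) : LE k n t = ⊤ :=
  eq_top_iff.2 fun _ _ i hi => absurd i.2 (by omega)

end Vec

/-! ### Triangular matrices -/

section Borel

variable {k : Type} [Field k]

/-- an upper triangular matrix with units on the diagonal -/
def Bor (g : Matrix (Fin 2) (Fin 2) k) : Prop := g 1 0 = 0 ∧ g 0 0 ≠ 0 ∧ g 1 1 ≠ 0

/-- the affine substitution of a triangular matrix -/
def aff (g : Matrix (Fin 2) (Fin 2) k) : k[X] := C (g 0 0 / g 1 1) * X + C (g 0 1 / g 1 1)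

lemma slashM_bor {g : Matrix (Fin 2) (Fin 2) k} (hg : Bor g) {n : ℕ} {f : k[X]}
    (hf : f.natDegree ≤ n) : slashM n g f = C (g 1 1 ^ n) * f.comp (aff g) := by
  obtain ⟨h1, -, h3⟩ := hg
  rw [slashM_apply, comp, eval₂_eq_sum_range' C (Nat.lt_succ_of_le hf), Finset.mul_sum]
  refine Finset.sum_congr rfl fun j hj => ?_
  have hj' : j ≤ n := Nat.lt_succ_iff.1 (mem_range.1 hj)
  have e1 : (C (g 0 0) * X + C (g 0 1) : k[X]) = C (g 1 1) * aff g := by
    rw [aff, mul_add, ← mul_assoc, ← C_mul, ← C_mul, mul_div_cancel₀ _ h3, mul_div_cancel₀ _ h3]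
  have e2 : (C (g 1 0) * X + C (g 1 1) : k[X]) = C (g 1 1) := by
    rw [h1, C_0, zero_mul, zero_add]
  have e3 : (C (g 1 1 ^ n) : k[X]) = C (g 1 1) ^ j * C (g 1 1) ^ (n - j) := by
    rw [← pow_add, Nat.add_sub_cancel' hj', C_pow]
  rw [e1, e2, e3, mul_pow]
  ring

lemma natDegree_aff_le (g : Matrix (Fin 2) (Fin 2) k) : (aff g).natDegree ≤ 1 :=
  natDegree_linear_le

lemma natDegree_comp_aff_le (g : Matrix (Fin 2) (Fin 2) k) (f : k[X]) :
    (f.comp (aff g)).natDegree ≤ f.natDegree := by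
  refine natDegree_comp_le.trans ?_
  calc f.natDegree * (aff g).natDegree ≤ f.natDegree * 1 :=
        Nat.mul_le_mul_left _ (natDegree_aff_le g)
    _ = f.natDegree := mul_one _

lemma natDegree_slashM_bor {g : Matrix (Fin 2) (Fin 2) k} (hg : Bor g) {n : ℕ} {f : k[X]}
    (hf : f.natDegree ≤ n) : (slashM n g f).natDegree ≤ f.natDegree := by
  rw [slashM_bor hg hf]
  exact (natDegree_C_mul_le _ _).trans (natDegree_comp_aff_le g f)

lemma slk_mem_LE {g : Matrix (Fin 2) (Fin 2) k} (hg : Bor g) {n t : ℕ} {v : Fin (n + 1) → k}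
    (hv : v ∈ LE k n t) : (slk n g).mulVec v ∈ LE k n t := by
  rw [← vec_pol v, mulVec_vec]
  exact vec_mem_LE ((natDegree_slashM_bor hg (natDegree_pol_le v)).trans (mem_LE_iff.1 hv))

end Borel

/-! ### The invariant polynomial -/

variable {p : ℕ} [hp : Fact p.Prime]

/-- `(X^p - X)^(p-1)` -/
def dl (p : ℕ) : (ZMod p)[X] := (X ^ p - X) ^ (p - 1)

lemma two_le_p : 2 ≤ p := hp.out.two_le

lemma monic_sub : ((X : (ZMod p)[X]) ^ p - X).Monic := by
  refine monic_X_pow_sub ?_
  rw [degree_X]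
  exact_mod_cast hp.out.one_lt

lemma natDegree_sub : ((X : (ZMod p)[X]) ^ p - X).natDegree = p := by
  rw [natDegree_sub_eq_left_of_natDegree_lt, natDegree_X_pow]
  rw [natDegree_X, natDegree_X_pow]
  exact hp.out.one_lt

lemma dl_monic : (dl p).Monic := monic_sub.pow _

lemma natDegree_dl : (dl p).natDegree = p * (p - 1) := by
  rw [dl, natDegree_pow, natDegree_sub, mul_comm]

lemma per_pos : 0 < p * (p - 1) :=
  Nat.mul_pos hp.out.pos (Nat.sub_pos_of_lt hp.out.one_lt)

lemma dl_ne_one : dl p ≠ 1 := by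
  intro h
  have h1 := congrArg natDegree h
  rw [natDegree_dl, natDegree_one] at h1
  have := per_pos (p := p)
  omega

lemma dl_comp {g : Matrix (Fin 2) (Fin 2) (ZMod p)} (hg : Bor g) : (dl p).comp (aff g) = dl p := by
  have hu : g 0 0 / g 1 1 ≠ 0 := div_ne_zero hg.2.1 hg.2.2
  have h1 : ((X : (ZMod p)[X]) ^ p - X).comp (aff g) = C (g 0 0 / g 1 1) * (X ^ p - X) := by
    rw [sub_comp, pow_comp, X_comp, aff, add_pow_char, mul_pow, ← C_pow, ← C_pow, ZMod.pow_card,
      ZMod.pow_card]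
    ring
  rw [dl, pow_comp, h1, mul_pow, ← C_pow, ZMod.pow_card_sub_one_eq_one hu, C_1, one_mul]

lemma slashM_dl_mul {g : Matrix (Fin 2) (Fin 2) (ZMod p)} (hg : Bor g) {n : ℕ}
    {f : (ZMod p)[X]} (hf : f.natDegree + p * (p - 1) ≤ n) :
    slashM n g (dl p * f) = dl p * slashM n g f := by
  have h1 : (dl p * f).natDegree ≤ n := by
    refine natDegree_mul_le.trans ?_
    rw [natDegree_dl]
    omega
  rw [slashM_bor hg h1, slashM_bor hg (by omega : f.natDegree ≤ n), mul_comp, dl_comp hg]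
  ring

/-- division with remainder is equivariant -/
lemma slashM_div {g : Matrix (Fin 2) (Fin 2) (ZMod p)} (hg : Bor g) {n : ℕ}
    {f : (ZMod p)[X]} (hf : f.natDegree ≤ n) :
    slashM n g f /ₘ dl p = slashM n g (f /ₘ dl p) ∧
      slashM n g f %ₘ dl p = slashM n g (f %ₘ dl p) := by
  have hr : (f %ₘ dl p).natDegree < p * (p - 1) := by
    rw [← natDegree_dl]
    exact natDegree_modByMonic_lt f dl_monic dl_ne_one
  have hrn : (f %ₘ dl p).natDegree ≤ n :=
    (natDegree_modByMonic_le_left (p := f) (q := dl p)).trans hf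
  have hq : (f /ₘ dl p).natDegree = f.natDegree - p * (p - 1) := by
    rw [natDegree_divByMonic f dl_monic, natDegree_dl]
  have hqn : (f /ₘ dl p).natDegree ≤ n := by omega
  have e0 : f %ₘ dl p + dl p * (f /ₘ dl p) = f := modByMonic_add_div f _
  have e1 : slashM n g (f %ₘ dl p) + dl p * slashM n g (f /ₘ dl p) = slashM n g f := by
    rw [slashM_bor hg hrn, slashM_bor hg hqn, slashM_bor hg hf]
    conv_rhs => rw [← e0]
    rw [add_comp, mul_comp, dl_comp hg]
    ring
  have h2 : degree (slashM n g (f %ₘ dl p)) < degree (dl p) := by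
    refine degree_lt_degree ?_
    rw [natDegree_dl]
    exact (natDegree_slashM_bor hg hrn).trans_lt hr
  exact div_modByMonic_unique _ _ dl_monic ⟨e1, h2⟩

/-! ### The maps on vectors -/

/-- multiplication by `dl` -/
def mulV (p n : ℕ) [Fact p.Prime] : (Fin (n + 1) → ZMod p) →ₗ[ZMod p] (Fin (n + 1) → ZMod p) where
  toFun v := vec n (dl p * polU n v)
  map_add' v w := by rw [map_add, mul_add, map_add]
  map_smul' a v := by rw [map_smul, mul_smul_comm, map_smul]; rfl

/-- the quotient by `dl` -/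
def quoV (p n : ℕ) [Fact p.Prime] : (Fin (n + 1) → ZMod p) →ₗ[ZMod p] (Fin (n + 1) → ZMod p) where
  toFun v := vec n (polU n v /ₘ dl p)
  map_add' v w := by
    rw [map_add, ← map_add (vec n)]
    congr 1
    exact (div_modByMonic_unique (polU n v /ₘ dl p + polU n w /ₘ dl p)
      (polU n v %ₘ dl p + polU n w %ₘ dl p) dl_monic ⟨by
        rw [mul_add, add_add_add_comm, modByMonic_add_div, modByMonic_add_div], by
        refine (degree_add_le _ _).trans_lt (max_lt ?_ ?_) <;>
        exact degree_modByMonic_lt _ dl_monic⟩).1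
  map_smul' a v := by
    rw [map_smul, RingHom.id_apply, ← map_smul (vec n)]
    congr 1
    exact (div_modByMonic_unique (a • (polU n v /ₘ dl p)) (a • (polU n v %ₘ dl p)) dl_monic ⟨by
        rw [mul_smul_comm, ← smul_add, modByMonic_add_div], by
        exact (degree_smul_le _ _).trans_lt (degree_modByMonic_lt _ dl_monic)⟩).1

/-- the remainder modulo `dl` -/
def remV (p n : ℕ) [Fact p.Prime] : (Fin (n + 1) → ZMod p) →ₗ[ZMod p] (Fin (n + 1) → ZMod p) where
  toFun v := vec n (polU n v %ₘ dl p)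
  map_add' v w := by
    rw [map_add, add_modByMonic, map_add]
  map_smul' a v := by
    rw [map_smul, smul_modByMonic, map_smul]
    rfl

/-- change of the weight -/
def extV (k : Type) [Field k] (n m : ℕ) : (Fin (n + 1) → k) →ₗ[k] (Fin (m + 1) → k) :=
  (vec m).comp (polU n)

lemma mulV_apply (n : ℕ) (v : Fin (n + 1) → ZMod p) : mulV p n v = vec n (dl p * polU n v) := rfl

lemma quoV_apply (n : ℕ) (v : Fin (n + 1) → ZMod p) : quoV p n v = vec n (polU n v /ₘ dl p) := rfl

lemma remV_apply (n : ℕ) (v : Fin (n + 1) → ZMod p) : remV p n v = vec n (polU n v %ₘ dl p) := rfl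

lemma extV_apply {k : Type} [Field k] (n m : ℕ) (v : Fin (n + 1) → k) :
    extV k n m v = vec m (polU n v) := rfl

lemma pol_mulV {n t : ℕ} {v : Fin (n + 1) → ZMod p} (hv : v ∈ LE (ZMod p) n t)
    (ht : t + p * (p - 1) ≤ n) : polU n (mulV p n v) = dl p * polU n v := by
  rw [mulV_apply, pol_vec]
  refine natDegree_mul_le.trans ?_
  rw [natDegree_dl]
  have := mem_LE_iff.1 hv
  omega

lemma natDegree_quo_le (n : ℕ) (v : Fin (n + 1) → ZMod p) :
    (polU n v /ₘ dl p).natDegree ≤ n := by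
  rw [natDegree_divByMonic _ dl_monic]
  have := natDegree_pol_le v
  omega

lemma natDegree_rem_le (n : ℕ) (v : Fin (n + 1) → ZMod p) :
    (polU n v %ₘ dl p).natDegree ≤ n :=
  (natDegree_modByMonic_le_left (p := polU n v) (q := dl p)).trans (natDegree_pol_le v)

lemma pol_quoV (n : ℕ) (v : Fin (n + 1) → ZMod p) : polU n (quoV p n v) = polU n v /ₘ dl p := by
  rw [quoV_apply, pol_vec (natDegree_quo_le n v)]

lemma pol_remV (n : ℕ) (v : Fin (n + 1) → ZMod p) : polU n (remV p n v) = polU n v %ₘ dl p := by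
  rw [remV_apply, pol_vec (natDegree_rem_le n v)]

lemma pol_extV {k : Type} [Field k] {n m t : ℕ} {v : Fin (n + 1) → k} (hv : v ∈ LE k n t)
    (ht : t ≤ m) : polU m (extV k n m v) = polU n v := by
  rw [extV_apply, pol_vec ((mem_LE_iff.1 hv).trans ht)]

lemma mulV_mem {n t : ℕ} {v : Fin (n + 1) → ZMod p} (hv : v ∈ LE (ZMod p) n t)
    (ht : t + p * (p - 1) ≤ n) : mulV p n v ∈ LE (ZMod p) n (t + p * (p - 1)) := by
  rw [mem_LE_iff, pol_mulV hv ht]
  refine natDegree_mul_le.trans ?_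
  rw [natDegree_dl]
  have := mem_LE_iff.1 hv
  omega

lemma quoV_mem {n t : ℕ} {v : Fin (n + 1) → ZMod p}
    (hv : v ∈ LE (ZMod p) n (t + p * (p - 1))) : quoV p n v ∈ LE (ZMod p) n t := by
  rw [mem_LE_iff, pol_quoV, natDegree_divByMonic _ dl_monic, natDegree_dl]
  have := mem_LE_iff.1 hv
  omega

lemma remV_mem {n : ℕ} (v : Fin (n + 1) → ZMod p) :
    remV p n v ∈ LE (ZMod p) n (p * (p - 1) - 1) := by
  rw [mem_LE_iff, pol_remV]
  have := natDegree_modByMonic_lt (polU n v) dl_monic dl_ne_one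
  rw [natDegree_dl] at this
  omega

lemma extV_mem {k : Type} [Field k] {n m t : ℕ} {v : Fin (n + 1) → k} (hv : v ∈ LE k n t) :
    extV k n m v ∈ LE k m t :=
  vec_mem_LE (mem_LE_iff.1 hv)

lemma pol_injective {k : Type} [Field k] (n : ℕ) : Function.Injective (polU (k := k) n) := by
  intro v w h
  rw [← vec_pol v, h, vec_pol]

lemma extV_extV {k : Type} [Field k] {n m t : ℕ} {v : Fin (n + 1) → k} (hv : v ∈ LE k n t)
    (ht : t ≤ m) : extV k m n (extV k n m v) = v := by
  rw [extV_apply, pol_extV hv ht, vec_pol]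

lemma mulV_quoV_add {n t : ℕ} {v : Fin (n + 1) → ZMod p}
    (hv : v ∈ LE (ZMod p) n (t + p * (p - 1))) (ht : t + p * (p - 1) ≤ n) :
    mulV p n (quoV p n v) + remV p n v = v := by
  apply pol_injective
  rw [map_add, pol_mulV (quoV_mem hv) ht, pol_quoV, pol_remV, add_comm, modByMonic_add_div]

lemma quo_rem_of {n t : ℕ} {v w : Fin (n + 1) → ZMod p} (hv : v ∈ LE (ZMod p) n t)
    (ht : t + p * (p - 1) ≤ n) (hw : w ∈ LE (ZMod p) n (p * (p - 1) - 1)) :
    quoV p n (mulV p n v + w) = v ∧ remV p n (mulV p n v + w) = w := by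
  have h1 : polU n (mulV p n v + w) = polU n w + dl p * polU n v := by
    rw [map_add, pol_mulV hv ht, add_comm]
  have h2 : degree (polU n w) < degree (dl p) := by
    refine degree_lt_degree ?_
    rw [natDegree_dl]
    have := mem_LE_iff.1 hw
    have := per_pos (p := p)
    omega
  obtain ⟨h3, h4⟩ := div_modByMonic_unique _ _ dl_monic ⟨h1.symm, h2⟩
  constructor
  · rw [quoV_apply, h3, vec_pol]
  · rw [remV_apply, h4, vec_pol]

/-! ### Equivariance -/

lemma slk_mulV {g : Matrix (Fin 2) (Fin 2) (ZMod p)} (hg : Bor g) {n t : ℕ}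
    {v : Fin (n + 1) → ZMod p} (hv : v ∈ LE (ZMod p) n t) (ht : t + p * (p - 1) ≤ n) :
    (slk n g).mulVec (mulV p n v) = mulV p n ((slk n g).mulVec v) := by
  have h1 : (polU n v).natDegree + p * (p - 1) ≤ n := by
    have := mem_LE_iff.1 hv
    omega
  have h2 : polU n ((slk n g).mulVec v) = slashM n g (polU n v) := by
    conv_lhs => rw [← vec_pol v]
    rw [mulVec_vec, pol_vec]
    exact (natDegree_slashM_bor hg (natDegree_pol_le v)).trans (natDegree_pol_le v)
  rw [mulV_apply, mulV_apply, mulVec_vec, slashM_dl_mul hg h1, h2]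

lemma pol_slk {k : Type} [Field k] {g : Matrix (Fin 2) (Fin 2) k} (hg : Bor g) {n : ℕ}
    (v : Fin (n + 1) → k) : polU n ((slk n g).mulVec v) = slashM n g (polU n v) := by
  conv_lhs => rw [← vec_pol v]
  rw [mulVec_vec, pol_vec]
  exact (natDegree_slashM_bor hg (natDegree_pol_le v)).trans (natDegree_pol_le v)

lemma slk_quoV {g : Matrix (Fin 2) (Fin 2) (ZMod p)} (hg : Bor g) {n : ℕ}
    (v : Fin (n + 1) → ZMod p) :
    (slk n g).mulVec (quoV p n v) = quoV p n ((slk n g).mulVec v) := by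
  rw [quoV_apply, quoV_apply, mulVec_vec, pol_slk hg, (slashM_div hg (natDegree_pol_le v)).1]

lemma slk_remV {g : Matrix (Fin 2) (Fin 2) (ZMod p)} (hg : Bor g) {n : ℕ}
    (v : Fin (n + 1) → ZMod p) :
    (slk n g).mulVec (remV p n v) = remV p n ((slk n g).mulVec v) := by
  rw [remV_apply, remV_apply, mulVec_vec, pol_slk hg, (slashM_div hg (natDegree_pol_le v)).2]

lemma slk_extV {g : Matrix (Fin 2) (Fin 2) (ZMod p)} (hg : Bor g) {n m t : ℕ}
    (hnm : n ≡ m [MOD (p - 1)]) {v : Fin (n + 1) → ZMod p} (hv : v ∈ LE (ZMod p) n t)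
    (ht : t ≤ m) :
    (slk m g).mulVec (extV (ZMod p) n m v) = extV (ZMod p) n m ((slk n g).mulVec v) := by
  have hpow : g 1 1 ^ n = g 1 1 ^ m := by
    have h1 : g 1 1 ^ (p - 1) = 1 := ZMod.pow_card_sub_one_eq_one hg.2.2
    rw [← Nat.div_add_mod n (p - 1), ← Nat.div_add_mod m (p - 1), pow_add, pow_add, pow_mul,
      pow_mul, h1, one_pow, one_pow, hnm]
  rw [extV_apply, extV_apply, mulVec_vec, pol_slk hg, slashM_bor hg (natDegree_pol_le v),
    slashM_bor hg ((mem_LE_iff.1 hv).trans ht), hpow]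

end Gouvea.P5
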