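import Pool.Agent.Work.MP_d3517d_nt.P5.Defs
import Pool.Agent.Work.MP_d3517d_nt.P5.UnifPol
import Pool.Agent.Work.MP_d3517d_nt.P5.RedX
import Pool.Agent.Work.MP_d3517d_nt.P5.Count

/-!
# P5: linear growth of the residual multiplicities (MP_d3517d_nt, L5)

`Mt n t` is the space of the symbols modulo `p` (level `M`, `p ∣ M`, weight `n + 2`) with values of
degree `≤ t`.  It depends only on `n` modulo `p - 1` and `Mt n (t + p (p-1))` is the product of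
`Mt n t` and `Mt n (p (p-1) - 1)`, compatibly with the Hecke operators `T_l`, `l ≠ p`.
-/

open Polynomial Finset

noncomputable section

namespace Gouvea.P5

open Gouvea Gouvea.PX
open Gouvea.PS (slk)

/-! ### Nilpotent parts -/

section Nil

variable {k : Type} [Field k] {R : Type} [CommRing R]
  {V : Type} [AddCommGroup V] [Module k V] {V' : Type} [AddCommGroup V'] [Module k V']
  {V'' : Type} [AddCommGroup V''] [Module k V'']

/-- the part of `N` killed by powers of the elements of the ideal -/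
def nilP (Ψ : R →+* Module.End k V) (I : Ideal R) (N : Submodule k V) : Submodule k V where
  carrier := {x | x ∈ N ∧ ∀ u ∈ I, ∃ m, (Ψ u ^ m) x = 0}
  add_mem' := by
    rintro x y ⟨hx, hx'⟩ ⟨hy, hy'⟩
    refine ⟨N.add_mem hx hy, fun u hu => ?_⟩
    obtain ⟨a, ha⟩ := hx' u hu
    obtain ⟨b, hb⟩ := hy' u hu
    refine ⟨a + b, ?_⟩
    rw [map_add]
    nth_rewrite 1 [add_comm a b]
    rw [pow_add, pow_add, Module.End.mul_apply, Module.End.mul_apply, ha, hb, map_zero, map_zero,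
      add_zero]
  zero_mem' := ⟨N.zero_mem, fun _ _ => ⟨0, map_zero _⟩⟩
  smul_mem' := by
    rintro a x ⟨hx, hx'⟩
    refine ⟨N.smul_mem a hx, fun u hu => ?_⟩
    obtain ⟨b, hb⟩ := hx' u hu
    exact ⟨b, by rw [map_smul, hb, smul_zero]⟩

lemma mem_nilP {Ψ : R →+* Module.End k V} {I : Ideal R} {N : Submodule k V} {x : V} :
    x ∈ nilP Ψ I N ↔ x ∈ N ∧ ∀ u ∈ I, ∃ m, (Ψ u ^ m) x = 0 := Iff.rfl

lemma nilP_mono {Ψ : R →+* Module.End k V} {I : Ideal R} {N N' : Submodule k V} (h : N ≤ N') :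
    nilP Ψ I N ≤ nilP Ψ I N' := fun _ hx => ⟨h hx.1, hx.2⟩

lemma nilP_map {Ψ : R →+* Module.End k V} {Ψ' : R →+* Module.End k V'} {I : Ideal R}
    {N : Submodule k V} {N' : Submodule k V'} (F : N →ₗ[k] V') (hF : ∀ x, F x ∈ N')
    (hN : ∀ r, ∀ x ∈ N, Ψ r x ∈ N) (hΨ : ∀ r x, F ⟨Ψ r x.1, hN r x.1 x.2⟩ = Ψ' r (F x))
    {x : V} (hx : x ∈ nilP Ψ I N) : F ⟨x, hx.1⟩ ∈ nilP Ψ' I N' := by
  refine ⟨hF _, fun u hu => ?_⟩
  obtain ⟨m, hm⟩ := hx.2 u hu
  refine ⟨m, ?_⟩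
  rw [← map_pow, ← hΨ (u ^ m) ⟨x, hx.1⟩]
  have h0 : Ψ (u ^ m) x = 0 := by
    rw [map_pow]
    exact hm
  have : (⟨Ψ (u ^ m) x, hN (u ^ m) x hx.1⟩ : N) = 0 := Subtype.ext h0
  rw [this, map_zero]

/-- isomorphic spaces have nilpotent parts of the same dimension -/
theorem finrank_nilP_eq {Ψ : R →+* Module.End k V} {Ψ' : R →+* Module.End k V'} {I : Ideal R}
    {N : Submodule k V} {N' : Submodule k V'} (F : N →ₗ[k] V') (G : N' →ₗ[k] V)
    (hF : ∀ x, F x ∈ N') (hG : ∀ x, G x ∈ N) (hGF : ∀ x, G ⟨F x, hF x⟩ = x)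
    (hFG : ∀ x, F ⟨G x, hG x⟩ = x)
    (hN : ∀ r, ∀ x ∈ N, Ψ r x ∈ N) (hN' : ∀ r, ∀ x ∈ N', Ψ' r x ∈ N')
    (hΨ : ∀ r x, F ⟨Ψ r x.1, hN r x.1 x.2⟩ = Ψ' r (F x)) :
    Module.finrank k (nilP Ψ I N) = Module.finrank k (nilP Ψ' I N') := by
  have hΨ' : ∀ r x, G ⟨Ψ' r x.1, hN' r x.1 x.2⟩ = Ψ r (G x) := by
    intro r x
    have h1 := hΨ r ⟨G x, hG x⟩
    have h2 : F ⟨G x, hG x⟩ = x.1 := hFG x
    rw [h2] at h1
    have h3 : (⟨Ψ' r x.1, hN' r x.1 x.2⟩ : N') = ⟨F ⟨Ψ r (G x), hN r _ (hG x)⟩, hF _⟩ :=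
      Subtype.ext h1.symm
    rw [h3]
    exact hGF ⟨Ψ r (G x), hN r _ (hG x)⟩
  refine LinearEquiv.finrank_eq ?_
  exact
    { toFun := fun x => ⟨F ⟨x.1, x.2.1⟩, nilP_map F hF hN hΨ x.2⟩
      invFun := fun x => ⟨G ⟨x.1, x.2.1⟩, nilP_map G hG hN' hΨ' x.2⟩
      map_add' := fun x y => Subtype.ext (F.map_add ⟨x.1, x.2.1⟩ ⟨y.1, y.2.1⟩)
      map_smul' := fun a x => Subtype.ext (F.map_smul a ⟨x.1, x.2.1⟩)
      left_inv := fun x => Subtype.ext (hGF ⟨x.1, x.2.1⟩)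
      right_inv := fun x => Subtype.ext (hFG ⟨x.1, x.2.1⟩) }

/-- a direct product decomposition -/
theorem finrank_nilP_add {Ψ : R →+* Module.End k V} {I : Ideal R} {N N₁ N₂ : Submodule k V}
    [FiniteDimensional k N₁] [FiniteDimensional k N₂]
    (F₁ F₂ : V →ₗ[k] V) (G : N₁ →ₗ[k] V)
    (h1 : ∀ x ∈ N, F₁ x ∈ N₁) (h2 : ∀ x ∈ N, F₂ x ∈ N₂)
    (hG : ∀ (x : N₁) (y : N₂), G x + y.1 ∈ N)
    (hGF : ∀ x (hx : x ∈ N), G ⟨F₁ x, h1 x hx⟩ + F₂ x = x)
    (hFG : ∀ (x : N₁) (y : N₂), F₁ (G x + y.1) = x ∧ F₂ (G x + y.1) = y)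
    (hN : ∀ r, ∀ x ∈ N₁, Ψ r x ∈ N₁)
    (hΨ₁ : ∀ r x, F₁ (Ψ r x) = Ψ r (F₁ x)) (hΨ₂ : ∀ r x, F₂ (Ψ r x) = Ψ r (F₂ x))
    (hΨG : ∀ r (x : N₁), G ⟨Ψ r x.1, hN r x.1 x.2⟩ = Ψ r (G x)) :
    Module.finrank k (nilP Ψ I N) =
      Module.finrank k (nilP Ψ I N₁) + Module.finrank k (nilP Ψ I N₂) := by
  have hnil : ∀ (F : V →ₗ[k] V), (∀ r x, F (Ψ r x) = Ψ r (F x)) → ∀ x,
      (∀ u ∈ I, ∃ m, (Ψ u ^ m) x = 0) → ∀ u ∈ I, ∃ m, (Ψ u ^ m) (F x) = 0 := by
    intro F hF x hx u hu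
    obtain ⟨m, hm⟩ := hx u hu
    refine ⟨m, ?_⟩
    rw [← map_pow, ← hF, map_pow, hm, map_zero]
  have hf1 : FiniteDimensional k (nilP Ψ I N₁) :=
    FiniteDimensional.of_injective (Submodule.inclusion (fun x hx => hx.1 : nilP Ψ I N₁ ≤ N₁))
      (Submodule.inclusion_injective _)
  have hf2 : FiniteDimensional k (nilP Ψ I N₂) :=
    FiniteDimensional.of_injective (Submodule.inclusion (fun x hx => hx.1 : nilP Ψ I N₂ ≤ N₂))
      (Submodule.inclusion_injective _)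
  have hmem : ∀ (x : nilP Ψ I N₁) (y : nilP Ψ I N₂), G ⟨x.1, x.2.1⟩ + y.1 ∈ nilP Ψ I N := by
    intro x y
    have hx : G ⟨x.1, x.2.1⟩ ∈ nilP Ψ I (⊤ : Submodule k V) :=
      nilP_map G (fun _ => Submodule.mem_top) hN hΨG x.2
    have hy : y.1 ∈ nilP Ψ I (⊤ : Submodule k V) := ⟨Submodule.mem_top, y.2.2⟩
    exact ⟨hG ⟨x.1, x.2.1⟩ ⟨y.1, y.2.1⟩, ((nilP Ψ I (⊤ : Submodule k V)).add_mem hx hy).2⟩
  rw [← Module.finrank_prod]
  refine LinearEquiv.finrank_eq ?_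
  exact
    { toFun := fun x => (⟨F₁ x.1, h1 _ x.2.1, hnil F₁ hΨ₁ _ x.2.2⟩,
        ⟨F₂ x.1, h2 _ x.2.1, hnil F₂ hΨ₂ _ x.2.2⟩)
      invFun := fun x => ⟨G ⟨x.1.1, x.1.2.1⟩ + x.2.1, hmem x.1 x.2⟩
      map_add' := fun x y => Prod.ext (Subtype.ext (F₁.map_add _ _)) (Subtype.ext (F₂.map_add _ _))
      map_smul' := fun a x => Prod.ext (Subtype.ext (F₁.map_smul _ _))
        (Subtype.ext (F₂.map_smul _ _))
      left_inv := fun x => Subtype.ext (hGF x.1 x.2.1)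
      right_inv := fun x => Prod.ext
        (Subtype.ext (hFG ⟨x.1.1, x.1.2.1⟩ ⟨x.2.1, x.2.2.1⟩).1)
        (Subtype.ext (hFG ⟨x.1.1, x.1.2.1⟩ ⟨x.2.1, x.2.2.1⟩).2) }

end Nil

/-! ### Symbols modulo `p` -/

variable {p : ℕ} [hp : Fact p.Prime] {N M : ℕ}

/-- the matrix modulo `p` -/
abbrev redZ (p : ℕ) [Fact p.Prime] (g : SN N) : Matrix (Fin 2) (Fin 2) (ZMod p) :=
  g.1.map (Int.cast : ℤ → ZMod p)

lemma bor_of_G0 (hM : p ∣ M) {g : SN N} (hg : IsG0 M g) : Bor (redZ p g) := by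
  obtain ⟨h1, h2⟩ := hg
  have h3 : ((g.1 1 0 : ℤ) : ZMod p) = 0 := by
    rw [ZMod.intCast_zmod_eq_zero_iff_dvd]
    exact (Int.natCast_dvd_natCast.2 hM).trans h2
  have h4 : ((g.1 0 0 : ℤ) : ZMod p) * ((g.1 1 1 : ℤ) : ZMod p) = 1 := by
    have h5 : (((g.1.det : ℤ)) : ZMod p) = 1 := by rw [h1]; simp
    rw [Matrix.det_fin_two, Int.cast_sub, Int.cast_mul, Int.cast_mul, h3, mul_zero,
      sub_zero] at h5
    exact h5
  refine ⟨h3, ?_, ?_⟩
  · exact left_ne_zero_of_mul_eq_one h4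
  · exact right_ne_zero_of_mul_eq_one h4

/-- the matrices in the Hecke operator `T_l`, `l ≠ p`, are triangular with units modulo `p` -/
lemma bor_upS {a b d : ℤ} (ha : IsCoprime a (N : ℤ)) (hap : ¬ (p : ℤ) ∣ a)
    (hdp : ¬ (p : ℤ) ∣ d) : Bor (redZ p (upS N a b d)) := by
  have had : a * d ≠ 0 := by
    refine mul_ne_zero ?_ ?_
    · rintro rfl
      exact hap (dvd_zero _)
    · rintro rfl
      exact hdp (dvd_zero _)
  have h1 : redZ p (upS N a b d) = (!![a, b; 0, d] : Matrix (Fin 2) (Fin 2) ℤ).map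
      (Int.cast : ℤ → ZMod p) := by
    rw [redZ, upS_coe ha had]
  rw [h1]
  refine ⟨by simp, ?_, ?_⟩
  · simp only [Matrix.map_apply]
    intro h
    exact hap ((ZMod.intCast_zmod_eq_zero_iff_dvd _ _).1 h)
  · simp only [Matrix.map_apply]
    intro h
    exact hdp ((ZMod.intCast_zmod_eq_zero_iff_dvd _ _).1 h)

/-- postcomposition -/
def post (N : ℕ) {n m : ℕ} (F : (Fin (n + 1) → ZMod p) →ₗ[ZMod p] (Fin (m + 1) → ZMod p)) :
    (Cusp N → Cusp N → Fin (n + 1) → ZMod p) →ₗ[ZMod p]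
      (Cusp N → Cusp N → Fin (m + 1) → ZMod p) where
  toFun φ x y := F (φ x y)
  map_add' φ ψ := by
    funext x y
    simp
  map_smul' a φ := by
    funext x y
    simp

lemma post_apply {n m : ℕ} (F : (Fin (n + 1) → ZMod p) →ₗ[ZMod p] (Fin (m + 1) → ZMod p))
    (φ : Cusp N → Cusp N → Fin (n + 1) → ZMod p) (x y : Cusp N) : post N F φ x y = F (φ x y) :=
  rfl

/-- `F` commutes with the triangular matrices on vectors of degree `≤ t` -/
def Eqv {n m : ℕ} (t : ℕ) (F : (Fin (n + 1) → ZMod p) →ₗ[ZMod p] (Fin (m + 1) → ZMod p)) : Prop :=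
  ∀ g : Matrix (Fin 2) (Fin 2) (ZMod p), Bor g → ∀ v ∈ LE (ZMod p) n t,
    (slk m g).mulVec (F v) = F ((slk n g).mulVec v)

lemma post_act {n m t : ℕ} {F : (Fin (n + 1) → ZMod p) →ₗ[ZMod p] (Fin (m + 1) → ZMod p)}
    (hF : Eqv t F) {g : SN N} (hg : Bor (redZ p g))
    {φ : Cusp N → Cusp N → Fin (n + 1) → ZMod p} (hφ : ∀ x y, φ x y ∈ LE (ZMod p) n t) :
    post N F (act (ZMod p) N n g φ) = act (ZMod p) N m g (post N F φ) := by
  funext x y
  rw [post_apply, act_apply, act_apply, post_apply]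
  exact (hF _ hg _ (hφ _ _)).symm

lemma mem_SymLe {n t : ℕ} {φ : Cusp N → Cusp N → Fin (n + 1) → ZMod p} :
    φ ∈ SymLe (ZMod p) N M n t ↔ φ ∈ Sym (ZMod p) N M n ∧ ∀ x y, φ x y ∈ LE (ZMod p) n t :=
  Iff.rfl

lemma post_mem (hM : p ∣ M) {n m t t' : ℕ}
    {F : (Fin (n + 1) → ZMod p) →ₗ[ZMod p] (Fin (m + 1) → ZMod p)} (hF : Eqv t F)
    (hLE : ∀ v ∈ LE (ZMod p) n t, F v ∈ LE (ZMod p) m t')
    {φ : Cusp N → Cusp N → Fin (n + 1) → ZMod p} (hφ : φ ∈ SymLe (ZMod p) N M n t) :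
    post N F φ ∈ SymLe (ZMod p) N M m t' := by
  obtain ⟨⟨h1, h2⟩, h3⟩ := mem_SymLe.1 hφ
  refine mem_SymLe.2 ⟨⟨fun x y z => ?_, fun g hg => ?_⟩, fun x y => hLE _ (h3 x y)⟩
  · rw [post_apply, post_apply, post_apply, ← map_add, h1]
  · rw [← post_act hF (bor_of_G0 hM hg) h3, h2 g hg]

lemma hecke_apply (n l : ℕ) (φ : Cusp N → Cusp N → Fin (n + 1) → ZMod p) :
    hecke (ZMod p) N M n l φ = (∑ b ∈ range l, act (ZMod p) N n (upS N 1 b l) φ) +
      (if l ∣ M then 0 else act (ZMod p) N n (upS N l 0 1)) φ := by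
  rw [hecke, LinearMap.add_apply, LinearMap.sum_apply]

lemma post_hecke (hNM : N ∣ M) {n m t l : ℕ}
    {F : (Fin (n + 1) → ZMod p) →ₗ[ZMod p] (Fin (m + 1) → ZMod p)} (hF : Eqv t F)
    (hl : l.Prime) (hlp : l ≠ p) {φ : Cusp N → Cusp N → Fin (n + 1) → ZMod p}
    (hφ : ∀ x y, φ x y ∈ LE (ZMod p) n t) :
    post N F (hecke (ZMod p) N M n l φ) = hecke (ZMod p) N M m l (post N F φ) := by
  have hpl : ¬ (p : ℤ) ∣ (l : ℤ) := by
    rw [Int.natCast_dvd_natCast]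
    intro h
    exact hlp ((Nat.prime_dvd_prime_iff_eq hp.out hl).1 h).symm
  have hp1 : ¬ (p : ℤ) ∣ 1 := by
    have := hp.out.one_lt
    intro h
    have := Int.le_of_dvd one_pos h
    omega
  rw [hecke_apply, hecke_apply, map_add, map_sum]
  congr 1
  · exact Finset.sum_congr rfl fun b _ =>
      post_act hF (bor_upS isCoprime_one_left hp1 hpl) hφ
  · by_cases h : l ∣ M
    · rw [if_pos h, if_pos h]
      simp
    · rw [if_neg h, if_neg h]
      refine post_act hF (bor_upS ?_ hpl hp1) hφ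
      rw [Nat.isCoprime_iff_coprime]
      exact (Nat.Prime.coprime_iff_not_dvd hl).2 fun h' => h (h'.trans hNM)

/-- the symbols of degree `≤ t` inside the space of the symbols of weight `n + 2` -/
def Mt (p : ℕ) [Fact p.Prime] (N M n t : ℕ) : Submodule (ZMod p) (Sym (ZMod p) N M n) :=
  (SymLe (ZMod p) N M n t).comap (Sym (ZMod p) N M n).subtype

lemma mem_Mt {n t : ℕ} {φ : Sym (ZMod p) N M n} :
    φ ∈ Mt p N M n t ↔ φ.1 ∈ SymLe (ZMod p) N M n t := Iff.rfl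

lemma Mt_mono {n s t : ℕ} (h : s ≤ t) : Mt p N M n s ≤ Mt p N M n t :=
  fun φ hφ => ⟨φ.2, fun x y => LE_mono h (hφ.2 x y)⟩

lemma Mt_top {n t : ℕ} (h : n ≤ t) : Mt p N M n t = ⊤ :=
  eq_top_iff.2 fun φ _ => ⟨φ.2, fun _ _ i hi => absurd i.2 (by omega)⟩

/-- the map between spaces of symbols induced by `F` -/
def lft (hM : p ∣ M) {n m t t' : ℕ}
    {F : (Fin (n + 1) → ZMod p) →ₗ[ZMod p] (Fin (m + 1) → ZMod p)} (hF : Eqv t F)
    (hLE : ∀ v ∈ LE (ZMod p) n t, F v ∈ LE (ZMod p) m t') :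
    Mt p N M n t →ₗ[ZMod p] Sym (ZMod p) N M m where
  toFun φ := ⟨post N F φ.1.1, (post_mem hM hF hLE φ.2).1⟩
  map_add' φ ψ := Subtype.ext (map_add (post N F) _ _)
  map_smul' a φ := Subtype.ext (map_smul (post N F) _ _)

lemma lft_coe (hM : p ∣ M) {n m t t' : ℕ}
    {F : (Fin (n + 1) → ZMod p) →ₗ[ZMod p] (Fin (m + 1) → ZMod p)} (hF : Eqv t F)
    (hLE : ∀ v ∈ LE (ZMod p) n t, F v ∈ LE (ZMod p) m t') (φ : Mt p N M n t) :
    ((lft hM hF hLE φ : Sym (ZMod p) N M m) : Cusp N → Cusp N → Fin (m + 1) → ZMod p) =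
      post N F φ.1.1 := rfl

lemma lft_mem (hM : p ∣ M) {n m t t' : ℕ}
    {F : (Fin (n + 1) → ZMod p) →ₗ[ZMod p] (Fin (m + 1) → ZMod p)} (hF : Eqv t F)
    (hLE : ∀ v ∈ LE (ZMod p) n t, F v ∈ LE (ZMod p) m t') (φ : Mt p N M n t) :
    lft hM hF hLE φ ∈ Mt p N M m t' := post_mem hM hF hLE φ.2

/-! ### The Hecke rings -/

section Ring

variable {Q : Type} {lq : Q → ℕ}

/-- the ring homomorphisms `Ψ n` send the variable `q` to the operator `T_l`, `l = lq q` -/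
def IsRep (lq : Q → ℕ)
    (Ψ : ∀ n, MvPolynomial Q ℤ →+* Module.End (ZMod p) (Sym (ZMod p) N M n)) : Prop :=
  ∀ n q (φ : Sym (ZMod p) N M n), ((Ψ n (MvPolynomial.X q) φ : Sym (ZMod p) N M n) :
    Cusp N → Cusp N → Fin (n + 1) → ZMod p) = hecke (ZMod p) N M n (lq q) φ.1

variable {Ψ : ∀ n, MvPolynomial Q ℤ →+* Module.End (ZMod p) (Sym (ZMod p) N M n)}

lemma eqv_id (n t : ℕ) : Eqv (p := p) t (LinearMap.id : (Fin (n + 1) → ZMod p) →ₗ[ZMod p] _) :=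
  fun _ _ _ _ => rfl

lemma hecke_LE (hNM : N ∣ M) {n t l : ℕ} (hl : l.Prime) (hlp : l ≠ p)
    {φ : Cusp N → Cusp N → Fin (n + 1) → ZMod p} (hφ : ∀ x y, φ x y ∈ LE (ZMod p) n t)
    (x y : Cusp N) : hecke (ZMod p) N M n l φ x y ∈ LE (ZMod p) n t := by
  have hpl : ¬ (p : ℤ) ∣ (l : ℤ) := by
    rw [Int.natCast_dvd_natCast]
    intro h
    exact hlp ((Nat.prime_dvd_prime_iff_eq hp.out hl).1 h).symm
  have hp1 : ¬ (p : ℤ) ∣ 1 := by
    have := hp.out.one_lt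
    intro h
    have := Int.le_of_dvd one_pos h
    omega
  have hact : ∀ g : SN N, Bor (redZ p g) → act (ZMod p) N n g φ x y ∈ LE (ZMod p) n t := by
    intro g hg
    rw [act_apply]
    exact slk_mem_LE hg (hφ _ _)
  rw [hecke_apply, Pi.add_apply, Pi.add_apply, Finset.sum_apply, Finset.sum_apply]
  refine Submodule.add_mem _ (Submodule.sum_mem _ fun b _ =>
    hact _ (bor_upS isCoprime_one_left hp1 hpl)) ?_
  by_cases h : l ∣ M
  · rw [if_pos h]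
    exact Submodule.zero_mem _
  · rw [if_neg h]
    refine hact _ (bor_upS ?_ hpl hp1)
    rw [Nat.isCoprime_iff_coprime]
    exact (Nat.Prime.coprime_iff_not_dvd hl).2 fun h' => h (h'.trans hNM)

variable (hNM : N ∣ M) (hM : p ∣ M) (hq : ∀ q, (lq q).Prime ∧ lq q ≠ p) (hΨ : IsRep lq Ψ)

include hNM hq hΨ in
lemma Mt_stable {n t : ℕ} (r : MvPolynomial Q ℤ) : ∀ φ ∈ Mt p N M n t, Ψ n r φ ∈ Mt p N M n t := by
  induction r using MvPolynomial.induction_on with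
  | C a =>
    intro φ hφ
    have h1 : Ψ n (MvPolynomial.C a) = (a : Module.End (ZMod p) (Sym (ZMod p) N M n)) := by
      rw [show (MvPolynomial.C a : MvPolynomial Q ℤ) = ((a : ℤ) : MvPolynomial Q ℤ) by simp,
        map_intCast]
    rw [h1, Module.End.intCast_apply]
    exact zsmul_mem hφ a
  | add r s hr hs =>
    intro φ hφ
    rw [map_add, LinearMap.add_apply]
    exact Submodule.add_mem _ (hr φ hφ) (hs φ hφ)
  | mul_X r q hr =>
    intro φ hφ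
    rw [map_mul, Module.End.mul_apply]
    refine hr _ ?_
    refine ⟨(Ψ n (MvPolynomial.X q) φ).2, fun x y => ?_⟩
    change ((Ψ n (MvPolynomial.X q) φ : Sym (ZMod p) N M n) :
      Cusp N → Cusp N → Fin (n + 1) → ZMod p) x y ∈ LE (ZMod p) n t
    rw [hΨ]
    exact hecke_LE hNM (hq q).1 (hq q).2 hφ.2 x y

include hNM hq hΨ in
lemma lft_equivariant {n m t t' : ℕ}
    {F : (Fin (n + 1) → ZMod p) →ₗ[ZMod p] (Fin (m + 1) → ZMod p)} (hF : Eqv t F)
    (hLE : ∀ v ∈ LE (ZMod p) n t, F v ∈ LE (ZMod p) m t') (r : MvPolynomial Q ℤ) :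
    ∀ φ : Mt p N M n t, lft hM hF hLE ⟨Ψ n r φ.1, Mt_stable hNM hq hΨ r φ.1 φ.2⟩ =
      Ψ m r (lft hM hF hLE φ) := by
  induction r using MvPolynomial.induction_on with
  | C a =>
    intro φ
    have h1 : ∀ n, Ψ n (MvPolynomial.C a) = (a : Module.End (ZMod p) (Sym (ZMod p) N M n)) := by
      intro n
      rw [show (MvPolynomial.C a : MvPolynomial Q ℤ) = ((a : ℤ) : MvPolynomial Q ℤ) by simp,
        map_intCast]
    rw [h1 m, Module.End.intCast_apply, ← map_zsmul]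
    congr 1
    apply Subtype.ext
    show Ψ n (MvPolynomial.C a) φ.1 = _
    rw [h1 n, Module.End.intCast_apply]
    rfl
  | add r s hr hs =>
    intro φ
    have h1 : (⟨Ψ n (r + s) φ.1, Mt_stable hNM hq hΨ _ φ.1 φ.2⟩ : Mt p N M n t) =
        ⟨Ψ n r φ.1, Mt_stable hNM hq hΨ r φ.1 φ.2⟩ +
          ⟨Ψ n s φ.1, Mt_stable hNM hq hΨ s φ.1 φ.2⟩ := by
      apply Subtype.ext
      show Ψ n (r + s) φ.1 = Ψ n r φ.1 + Ψ n s φ.1
      rw [map_add, LinearMap.add_apply]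
    rw [h1, map_add, hr, hs, map_add (Ψ m), LinearMap.add_apply]
  | mul_X r q hr =>
    intro φ
    have h1 : (⟨Ψ n (r * MvPolynomial.X q) φ.1, Mt_stable hNM hq hΨ _ φ.1 φ.2⟩ : Mt p N M n t) =
        ⟨Ψ n r (Ψ n (MvPolynomial.X q) φ.1), Mt_stable hNM hq hΨ r _
          (Mt_stable hNM hq hΨ _ φ.1 φ.2)⟩ := by
      apply Subtype.ext
      show Ψ n (r * MvPolynomial.X q) φ.1 = _
      rw [map_mul, Module.End.mul_apply]
    rw [h1, map_mul, Module.End.mul_apply]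
    have h2 := hr ⟨Ψ n (MvPolynomial.X q) φ.1, Mt_stable hNM hq hΨ _ φ.1 φ.2⟩
    rw [h2]
    congr 1
    apply Subtype.ext
    rw [hΨ, lft_coe, lft_coe]
    show post N F ((Ψ n (MvPolynomial.X q) φ.1 : Sym (ZMod p) N M n) :
      Cusp N → Cusp N → Fin (n + 1) → ZMod p) = _
    rw [hΨ]
    exact post_hecke hNM hF (hq q).1 (hq q).2 φ.2.2

include hNM hM hq hΨ in
/-- independence of the weight -/
theorem finrank_ext (I : Ideal (MvPolynomial Q ℤ)) {n m t : ℕ} (hnm : n ≡ m [MOD (p - 1)])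
    (hn : t ≤ n) (hm : t ≤ m) :
    Module.finrank (ZMod p) (nilP (Ψ n) I (Mt p N M n t)) =
      Module.finrank (ZMod p) (nilP (Ψ m) I (Mt p N M m t)) := by
  have h1 : Eqv t (extV (ZMod p) n m) := fun g hg v hv => slk_extV hg hnm hv hm
  have h2 : Eqv t (extV (ZMod p) m n) := fun g hg v hv => slk_extV hg hnm.symm hv hn
  refine finrank_nilP_eq (lft hM h1 fun v hv => extV_mem hv) (lft hM h2 fun v hv => extV_mem hv)
    (fun x => lft_mem hM h1 _ x) (fun x => lft_mem hM h2 _ x) (fun x => ?_) (fun x => ?_)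
    (fun r => Mt_stable hNM hq hΨ r) (fun r => Mt_stable hNM hq hΨ r)
    (fun r => lft_equivariant hNM hM hq hΨ h1 _ r)
  · apply Subtype.ext
    funext a b
    exact extV_extV (x.2.2 a b) hm
  · apply Subtype.ext
    funext a b
    exact extV_extV (x.2.2 a b) hn

lemma eqv_quoV (n t : ℕ) : Eqv (p := p) t (quoV p n) := fun _ hg v _ => slk_quoV hg v

lemma eqv_remV (n t : ℕ) : Eqv (p := p) t (remV p n) := fun _ hg v _ => slk_remV hg v

lemma eqv_mulV {n t : ℕ} (ht : t + p * (p - 1) ≤ n) : Eqv (p := p) t (mulV p n) :=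
  fun _ hg _ hv => slk_mulV hg hv ht

/-- the endomorphism of the space of symbols induced by `F` -/
def lftT (hM : p ∣ M) {n : ℕ} {F : (Fin (n + 1) → ZMod p) →ₗ[ZMod p] (Fin (n + 1) → ZMod p)}
    (hF : Eqv n F) : Sym (ZMod p) N M n →ₗ[ZMod p] Sym (ZMod p) N M n where
  toFun φ := ⟨post N F φ.1, (post_mem (t' := n) hM hF (fun v _ => by rw [LE_top le_rfl]; trivial)
    ⟨φ.2, fun _ _ i hi => absurd i.2 (by omega)⟩).1⟩
  map_add' φ ψ := Subtype.ext (map_add (post N F) _ _)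
  map_smul' a φ := Subtype.ext (map_smul (post N F) _ _)

include hNM hq hΨ in
lemma lftT_equivariant {n : ℕ} {F : (Fin (n + 1) → ZMod p) →ₗ[ZMod p] (Fin (n + 1) → ZMod p)}
    (hF : Eqv n F) (r : MvPolynomial Q ℤ) (φ : Sym (ZMod p) N M n) :
    lftT hM hF (Ψ n r φ) = Ψ n r (lftT hM hF φ) :=
  lft_equivariant (t' := n) hNM hM hq hΨ hF (fun v _ => by rw [LE_top le_rfl]; trivial) r
    ⟨φ, ⟨φ.2, fun _ _ i hi => absurd i.2 (by omega)⟩⟩

include hNM hM hq hΨ in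
/-- the period `p (p - 1)` -/
theorem finrank_per (I : Ideal (MvPolynomial Q ℤ)) {n t : ℕ} (ht : t + p * (p - 1) ≤ n)
    [FiniteDimensional (ZMod p) (Sym (ZMod p) N M n)] :
    Module.finrank (ZMod p) (nilP (Ψ n) I (Mt p N M n (t + p * (p - 1)))) =
      Module.finrank (ZMod p) (nilP (Ψ n) I (Mt p N M n t)) +
        Module.finrank (ZMod p) (nilP (Ψ n) I (Mt p N M n (p * (p - 1) - 1))) := by
  have hmul : Eqv (p := p) t (mulV p n) := eqv_mulV ht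
  refine finrank_nilP_add (lftT hM (eqv_quoV n n)) (lftT hM (eqv_remV n n))
    (lft hM hmul fun v hv => mulV_mem hv ht) (fun x hx => ?_) (fun x hx => ?_) (fun x y => ?_)
    (fun x hx => ?_) (fun x y => ?_) (fun r => Mt_stable hNM hq hΨ r)
    (fun r x => lftT_equivariant hNM hM hq hΨ _ r x)
    (fun r x => lftT_equivariant hNM hM hq hΨ _ r x)
    (fun r x => lft_equivariant hNM hM hq hΨ hmul _ r x)
  · exact ⟨(lftT hM (eqv_quoV n n) x).2, fun a b => quoV_mem (hx.2 a b)⟩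
  · exact ⟨(lftT hM (eqv_remV n n) x).2, fun a b => remV_mem _⟩
  · refine Submodule.add_mem _ (lft_mem hM hmul _ x) (Mt_mono ?_ y.2)
    omega
  · apply Subtype.ext
    funext a b
    exact mulV_quoV_add (hx.2 a b) ht
  · constructor
    · apply Subtype.ext
      funext a b
      exact (quo_rem_of (x.2.2 a b) ht (y.2.2 a b)).1
    · apply Subtype.ext
      funext a b
      exact (quo_rem_of (x.2.2 a b) ht (y.2.2 a b)).2

include hNM hM hq hΨ in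
/-- linear growth -/
theorem nil_linear (I : Ideal (MvPolynomial Q ℤ)) (e : ℕ)
    (hfin : ∀ n, FiniteDimensional (ZMod p) (Sym (ZMod p) N M n)) :
    ∃ c C : ℝ, 0 ≤ c ∧ 0 ≤ C ∧ ∀ n, n ≡ e [MOD (p - 1)] → ∀ t ≤ n,
      |(Module.finrank (ZMod p) (nilP (Ψ n) I (Mt p N M n t)) : ℝ) - c * t| ≤ C := by
  have hper := per_pos (p := p)
  -- a large weight in the class for every degree
  have hex : ∀ t : ℕ, ∃ n, t ≤ n ∧ n ≡ e [MOD (p - 1)] := by
    intro t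
    refine ⟨e + (p - 1) * t, ?_, ?_⟩
    · have h1 : 1 ≤ p - 1 := Nat.sub_pos_of_lt hp.out.one_lt
      calc t = 1 * t := (one_mul t).symm
        _ ≤ (p - 1) * t := Nat.mul_le_mul_right _ h1
        _ ≤ e + (p - 1) * t := Nat.le_add_left _ _
    · exact (Nat.modEq_iff_dvd' (Nat.le_add_right _ _)).2 (by simp) |>.symm
  choose w hw1 hw2 using hex
  set f : ℕ → ℕ := fun t => Module.finrank (ZMod p) (nilP (Ψ (w t)) I (Mt p N M (w t) t)) with hf
  have hfn : ∀ n, n ≡ e [MOD (p - 1)] → ∀ t ≤ n,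
      Module.finrank (ZMod p) (nilP (Ψ n) I (Mt p N M n t)) = f t := by
    intro n hn t ht
    exact finrank_ext hNM hM hq hΨ I (hn.trans (hw2 t).symm) ht (hw1 t)
  have hadd : ∀ t, f (t + p * (p - 1)) = f t + f (p * (p - 1) - 1) := by
    intro t
    have h1 := hw1 (t + p * (p - 1))
    have h2 := hw2 (t + p * (p - 1))
    have := hfin (w (t + p * (p - 1)))
    have h3 := finrank_per hNM hM hq hΨ I (n := w (t + p * (p - 1))) (t := t) h1
    rw [hfn _ h2 _ h1, hfn _ h2 _ (by omega), hfn _ h2 _ (by omega)] at h3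
    exact h3
  have hmono : ∀ s t, s ≤ t → f s ≤ f t := by
    intro s t hst
    have := hfin (w t)
    rw [← hfn _ (hw2 t) s (hst.trans (hw1 t))]
    exact Submodule.finrank_mono (nilP_mono (Mt_mono hst))
  set P := p * (p - 1) with hP
  set E := f (P - 1) with hE
  refine ⟨E / P, E, by positivity, by positivity, fun n hn t ht => ?_⟩
  rw [hfn n hn t ht]
  have hstep : ∀ r s, f (s + P * r) = f s + r * E := by
    intro r s
    induction r with
    | zero => simp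
    | succ r ih =>
      rw [Nat.mul_succ, ← add_assoc, hadd, ih]
      ring
  have h1 := Nat.div_add_mod t P
  have h2 := Nat.mod_lt t hper
  set r := t / P
  set s := t % P
  have h3 : f t = f s + r * E := by
    rw [← hstep r s, add_comm s, h1]
  have h4 : f s ≤ E := hmono _ _ (by omega)
  have hP0 : (0 : ℝ) < P := by exact_mod_cast hper
  have e1 : (f t : ℝ) - E / P * t = f s - E * (s / P) := by
    rw [h3]
    have h5 : (t : ℝ) = P * r + s := by exact_mod_cast h1.symm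
    rw [h5]
    push_cast
    field_simp
    ring
  have h5 : (f s : ℝ) ≤ E := by exact_mod_cast h4
  have h6 : (0 : ℝ) ≤ f s := by positivity
  have h7 : (s : ℝ) / P ≤ 1 := by
    rw [div_le_one hP0]
    exact_mod_cast h2.le
  have h8 : (0 : ℝ) ≤ s / P := by positivity
  have h9 : (0 : ℝ) ≤ E := by positivity
  rw [e1, abs_le]
  constructor
  · nlinarith
  · nlinarith

include hNM hM hq hΨ in
/-- linear growth, in the form used by `part_bounds` -/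
theorem nilPart_linear (I : Ideal (MvPolynomial Q ℤ)) (e : ℕ)
    (hfin : ∀ n, FiniteDimensional (ZMod p) (Sym (ZMod p) N M n)) :
    ∃ c C : ℝ, 0 ≤ c ∧ 0 ≤ C ∧ ∀ n, n ≡ e [MOD (p - 1)] → ∀ t ≤ n,
      |(Module.finrank (ZMod p) (nilPart (Ψ n) I (symLe (ZMod p) N M n t)) : ℝ) - c * t| ≤ C :=
  nil_linear hNM hM hq hΨ I e hfin

end Ring

end Gouvea.P5
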