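import Pool.Agent.Work.MP_d3517d_nt.P5.IndexP
import Pool.Agent.Work.MP_d3517d_nt.P5.MainX
import Pool.Agent.Work.MP_d3517d_nt.P5.LatBasis
import Pool.Agent.Work.MP_d3517d_nt.ES.Lattice

/-!
# P5: the ranks of the spaces of symbols on the cusps `Γ₀(N) ∞`, `N ≥ 2` (MP_d3517d_nt)

* `rk_bound` : the rank of `Sym ℤ_p N M n` is `[SL₂(ℤ) : Γ₀(M)] n / 6 + O(1)`;
* `Sys_AZ` : the systems of the integral matrices are those of the space of symbols;
* `Sys_AZ_cusp` : the systems of the integral matrices over `ℂ` and the cusp forms.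
-/

open CongruenceSubgroup Gouvea.PX Gouvea.Sys Gouvea.ES Polynomial
open scoped MatrixGroups

noncomputable section

namespace Gouvea.P5

open Pool.Agent.Gouv.ES

/-- the lower bound -/
theorem rk_ge {N M : ℕ} [NeZero M] (hN2 : 2 ≤ N) (hN : N ∣ M) {n : ℕ} (hn : Even n) :
    (Gamma0 M).index * (n + 2) ≤ 6 * rk (NeZero.ne M) hN n +
      12 * ((Gamma0 M).index ^ 2 + (Gamma0 M).index) := by
  have : NeZero N := ⟨by omega⟩
  have hfd := finiteDimensional_SymX ℂ hN2 hN hn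
  have h1 := Pool.Agent.Gouv.ESDim.finrank_cuspForm_ge M (n + 2) (hn.add even_two)
  have h5 : Module.finrank ℂ (CuspForm ((Gamma0 M : Subgroup SL(2, ℤ)) :
      Subgroup (GL (Fin 2) ℝ)) ((n + 2 : ℕ) : ℤ)) = Module.finrank ℂ (Gouvea.Cusp M (n + 2)) := rfl
  rw [h5] at h1
  rcases Nat.lt_or_ge n 2 with h2 | h2
  · have h0 : n = 0 := by
      obtain ⟨m, rfl⟩ := hn
      omega
    subst h0
    nlinarith [Nat.zero_le (rk (NeZero.ne M) hN 0), Nat.zero_le ((Gamma0 M).index ^ 2),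
      Nat.zero_le ((Gamma0 M).index)]
  · have h3 := LinearMap.finrank_le_finrank_of_injective (ESX_injective (N := N) (M := M) h2)
    rw [Module.finrank_prod, finrank_sym (k := ℂ) (NeZero.ne M) hN n] at h3
    omega

/-- the upper bound -/
theorem rk_le {N M : ℕ} [NeZero M] (hN2 : 2 ≤ N) (hN : N ∣ M) {n : ℕ} (hn : Even n) :
    6 * rk (NeZero.ne M) hN n ≤ (Gamma0 M).index * (n + 12) := by
  have h2 := (P5.finrank_Sym_le_add ℂ hN2 hN hn).1
  rw [P5.card_Qt, finrank_sym (k := ℂ) (NeZero.ne M) hN n] at h2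
  exact h2

/-- **The rank.** -/
theorem rk_bound {N M : ℕ} [NeZero M] (hN2 : 2 ≤ N) (hN : N ∣ M) :
    ∃ C : ℝ, 0 ≤ C ∧ ∀ n, Even n →
      |(rk (NeZero.ne M) hN n : ℝ) - ((Gamma0 M).index : ℝ) / 6 * n| ≤ C := by
  refine ⟨2 * ((Gamma0 M).index : ℝ) ^ 2 + 2 * ((Gamma0 M).index : ℝ), by positivity,
    fun n hn => ?_⟩
  have h1 : (((Gamma0 M).index * (n + 2) : ℕ) : ℝ) ≤ ((6 * rk (NeZero.ne M) hN n +
      12 * ((Gamma0 M).index ^ 2 + (Gamma0 M).index) : ℕ) : ℝ) := by exact_mod_cast rk_ge hN2 hN hn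
  have h2 : ((6 * rk (NeZero.ne M) hN n : ℕ) : ℝ) ≤ (((Gamma0 M).index * (n + 12) : ℕ) : ℝ) := by
    exact_mod_cast rk_le hN2 hN hn
  push_cast at h1 h2
  generalize ((Gamma0 M).index : ℝ) = d at *
  have h3 : 0 ≤ d ^ 2 := sq_nonneg d
  rw [abs_le]
  constructor <;> nlinarith

/-- the systems of the integral matrices -/
theorem Sys_AZ {N M : ℕ} [NeZero M] (hN : N ∣ M) (n : ℕ) (K : Type) [Field K] [CharZero K]
    [FiniteDimensional K (Sym K N M n)] :
    Sys (matRep (intRep K (AZ (NeZero.ne M) hN n))) = Sys (rhoN K N M n hN) := by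
  refine Sys_congr (bas (NeZero.ne M) hN n K).equivFun.symm fun r v => ?_
  apply (bas (NeZero.ne M) hN n K).equivFun.injective
  rw [LinearEquiv.apply_symm_apply]
  have h1 := LinearMap.toMatrix_mulVec_repr (bas (NeZero.ne M) hN n K)
    (bas (NeZero.ne M) hN n K) (rhoN K N M n hN r)
    ((bas (NeZero.ne M) hN n K).equivFun.symm v)
  rw [toMatrix_rhoN] at h1
  have h2 : ⇑((bas (NeZero.ne M) hN n K).repr
      ((bas (NeZero.ne M) hN n K).equivFun.symm v)) = v := by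
    have := (bas (NeZero.ne M) hN n K).equivFun.apply_symm_apply v
    rw [Module.Basis.equivFun_apply] at this
    exact this
  rw [h2] at h1
  rw [Module.Basis.equivFun_apply, ← h1]
  rfl

/-- **The systems of the integral matrices over `ℂ`, and the cusp forms.** -/
theorem Sys_AZ_cusp {N M : ℕ} [NeZero M] (hN2 : 2 ≤ N) (hN : N ∣ M) {n : ℕ} (hn : Even n)
    (hn2 : 2 ≤ n) : ∃ r : Multiset (MvPolynomial Nat.Primes ℤ →+* ℂ), r.card ≤ esBoundX M ∧
      Sys (matRep (intRep ℂ (AZ (NeZero.ne M) hN n))) =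
        Sys (rhoC M (n + 2)) + Sys (rhoC M (n + 2)) + r := by
  have := finiteDimensional_SymX ℂ hN2 hN hn
  rw [Sys_AZ hN n ℂ]
  exact Sys_SymX hN2 hN hn hn2

end Gouvea.P5
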