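import Pool.Agent.Work.MP_d3517d_nt.P5.WeightX
import Pool.Agent.Work.MP_d3517d_nt.P5.Amb
import Pool.Agent.Work.MP_d3517d_nt.P5.Atk
import Pool.Agent.Work.MP_d3517d_nt.P5.JApx
import Pool.Agent.Work.MP_d3517d_nt.P5.RankX
import Pool.Agent.Work.MP_d3517d_nt.Fin.GenApx

/-!
# P5: the counting functions at the primes `2` and `3`, levels `N ≥ 2` (MP_d3517d_nt)

* `apx_J` : the systems of the symbols of level `N` which are small on an ideal `J` of the Hecke
  ring without `T_p` have approximately linear counting functions;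
* `apx_two_le` : the same for the cusp forms of level `N` in a residual class.
-/

open CongruenceSubgroup Gouvea.PX Gouvea.Sys Gouvea.ES Polynomial Finset Module
open scoped MatrixGroups

noncomputable section

namespace Gouvea.P5

open Pool.Agent.Gouv

variable {p : ℕ} [hp : Fact p.Prime]

/-- the ranks from below -/
theorem rankLower {N M : ℕ} [NeZero M] (hN2 : 2 ≤ N) (hN : N ∣ M) : RankLower p N M := by
  have : NeZero (M * p) := ⟨mul_ne_zero (NeZero.ne M) hp.out.ne_zero⟩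
  have hNMp : N ∣ M * p := hN.mul_right p
  refine ⟨12 * (((Gamma0 (M * p)).index : ℝ) ^ 2 + (Gamma0 (M * p)).index), fun n hn => ?_⟩
  have h1 := rk_ge hN2 hNMp hn
  rw [← finrank_sym (k := ℤ_[p]) (NeZero.ne (M * p)) hNMp n] at h1
  have h2 : (((Gamma0 (M * p)).index * (n + 2) : ℕ) : ℝ) ≤
      ((6 * Module.finrank ℤ_[p] (Sym ℤ_[p] N (M * p) n) +
      12 * ((Gamma0 (M * p)).index ^ 2 + (Gamma0 (M * p)).index) : ℕ) : ℝ) := by exact_mod_cast h1
  push_cast at h2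
  have h3 : (0 : ℝ) ≤ ((Gamma0 (M * p)).index : ℝ) := Nat.cast_nonneg _
  linarith

/-- `T_p = tr ∘ W ∘ ι` -/
theorem trX_W_inclX {N L : ℕ} [NeZero L] (hNL : N ∣ L) (hpL : ¬ p ∣ L) {w : SN N}
    (hw : IsW L p w) {n : ℕ} (x : Sym ℤ_[p] N L n) :
    P5.trX ℤ_[p] n hp.out hNL (NeZero.ne L) hpL (WX hNL hw (P5.inclX ℤ_[p] N n
      (Dvd.intro _ rfl) x)) = rhoN ℤ_[p] N L n hNL (Xp p) x := by
  have h1 := PX.trX_WX_iotaX hp.out hNL (NeZero.ne L) hpL hw x
  have h2 := rhoN_X ℤ_[p] N L n hNL (⟨p, hp.out⟩ : Nat.Primes)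
  exact Subtype.ext (h1.trans
    (congrArg (fun f : Module.End ℤ_[p] (Sym ℤ_[p] N L n) => (f x).1) h2).symm)

/-- `W` commutes with the Hecke ring without `T_p` -/
theorem WX_comm {N M : ℕ} [NeZero M] (hNM : N ∣ M) (hNMp : N ∣ M * p) {w : SN N}
    (hw : IsW M p w) {n : ℕ} (r : HR0 p) (x : Sym ℤ_[p] N (M * p) n) :
    WX hNM hw (rhoN ℤ_[p] N (M * p) n hNMp (incl p r) x) =
      rhoN ℤ_[p] N (M * p) n hNMp (incl p r) (WX hNM hw x) := by
  refine equivariant_of_rename (fun l : {l : ℕ // l.Prime ∧ l ≠ p} => (⟨l.1, l.2.1⟩ : Nat.Primes))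
    (ρU := rhoN ℤ_[p] N (M * p) n hNMp) (ρV := rhoN ℤ_[p] N (M * p) n hNMp)
    (f := (WX hNM hw : Sym ℤ_[p] N (M * p) n →ₗ[ℤ_[p]] _).toAddMonoidHom) ?_ r x
  intro l φ
  have e := rhoN_X ℤ_[p] N (M * p) n hNMp (⟨l.1, l.2.1⟩ : Nat.Primes)
  exact Subtype.ext
    ((congrArg (fun f : Module.End ℤ_[p] (Sym ℤ_[p] N (M * p) n) => (WX hNM hw (f φ)).1) e).trans
    ((hecke_act_w hp.out l.2.1 l.2.2 hNM (NeZero.ne M) hw φ.2.2).symm.trans
    (congrArg (fun f : Module.End ℤ_[p] (Sym ℤ_[p] N (M * p) n) => (f (WX hNM hw φ)).1) e).symm))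

open Classical in
/-- **The counting functions at an ideal.** `N ∣ L`, `4 ∣ L` or `9 ∣ L`, `p ∤ L`. -/
theorem apx_J (hp23 : p = 2 ∨ p = 3) (j : algebraicClosure ℚ ℂ →+* PadicAlgCl p) {N L : ℕ}
    [NeZero N] [NeZero L] (hN : 2 ≤ N) (hNL : N ∣ L) (h49 : 4 ∣ L ∨ 9 ∣ L) (hpL : ¬ p ∣ L)
    {βL : ℕ → ℝ} (cL : Nat.Primes → PadicAlgCl p)
    (hA : Apx ((p : ℝ) + 1) (fun n x => (Fin.cnt j L (n + 2) ∅ cL x : ℝ))
      (fun n => (Fin.tot j L (n + 2) ∅ cL : ℝ)) βL) (J : Ideal (HR0 p)) :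
    ∃ c C : ℝ, 0 ≤ c ∧ Apx ((p : ℝ) + 1)
      (fun n x => if Even n then (((SJ (p := p) (AZ (NeZero.ne N) (dvd_refl N) n) J).filter
        fun χ => (p : ℝ) ^ (-x) ≤ ‖χ (Xp p)‖).card : ℝ) else 0)
      (fun n => if Even n then ((SJ (p := p) (AZ (NeZero.ne N) (dvd_refl N) n) J).card : ℝ) else 0)
      (fun n => if Even n then c else 0) ∧
      ∀ n, Even n → |((SJ (p := p) (AZ (NeZero.ne (N * p)) (Dvd.intro p rfl) n) J).card : ℝ) -
        c * n| ≤ C := by
  have hpN : ¬ p ∣ N := fun h => hpL (h.trans hNL)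
  obtain ⟨w, hw⟩ := exists_isW hp.out hNL hpL
  have hwN : IsW N p w := hw.mono hNL
  set sh : ℕ → ℕ → ℝ := fun n x => HH (WX hNL hw : Module.End ℤ_[p] (Sym ℤ_[p] N (L * p) n)) x -
    GE ((WX hNL hw : Module.End ℤ_[p] (Sym ℤ_[p] N (L * p) n)) ∘ₗ
      (P5.inclX ℤ_[p] N n (Dvd.intro _ rfl) ∘ₗ
        P5.trX ℤ_[p] n hp.out hNL (NeZero.ne L) hpL - LinearMap.id)) x with hsh
  have hamb : ∀ δ : ℝ, 0 < δ → ∃ E : Set ℕ, D0 E ∧ ∀ n ∉ E, Even n → ∀ x : ℕ,
      x * (p + 1) ≤ n → sh n x ≤ δ * ((n : ℝ) + 1) ^ 2 := by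
    intro δ hδ
    obtain ⟨E, hE, h⟩ := amb j hN hNL h49 hpL cL hA hδ
    refine ⟨E, hE, fun n hn hne x hx => ?_⟩
    obtain ⟨a, b, c, d, h1, h2⟩ := hw
    exact h n hn hne (P5.inclX ℤ_[p] N n (Dvd.intro _ rfl))
      (P5.trX ℤ_[p] n hp.out hNL (NeZero.ne L) hpL) (WX hNL ⟨a, b, c, d, h1, h2⟩) L a b c d w
      (castN hNL) h2 h1 (fun φ => rfl) (fun φ => WX_WX hNL _ φ)
      (fun φ => P5.trX_inclX hp.out hNL (NeZero.ne L) hpL φ)
      (fun φ => trX_W_inclX hNL hpL _ φ) x (by exact_mod_cast hx)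
  have hweight : ∀ J : Ideal (HR0 p), ∃ c C : ℝ, 0 ≤ c ∧ 0 ≤ C ∧
      (J = ⊥ → c = ((Gamma0 (N * p)).index : ℝ) / 6) ∧
      (∀ n, Even n → |((SJ (p := p) (AZ (NeZero.ne (N * p)) (Dvd.intro p rfl) n) J).card : ℝ) -
        c * n| ≤ C) ∧ ∀ n, Even n → ∀ x : ℕ, 2 * x ≤ n →
      |GG (p : ℝ) ((SJ (p := p) (AZ (NeZero.ne N) (dvd_refl N) n) J).map fun χ => χ (Xp p)) x -
        c * (x : ℝ) ^ 2 / 2| ≤ C * ((x : ℝ) + 1) + sh n x := by
    intro J
    obtain ⟨c, C, hc, hC, hbot, hrk, h⟩ := weightX_core hp23 hN (dvd_refl N) hNL hpL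
      (rankLower hN (dvd_refl N)) J
    refine ⟨c, C, hc, hC, hbot, hrk, fun n hn x hx => ?_⟩
    obtain ⟨a, b, c', d, h1, h2⟩ := hwN
    refine h n hn (WX (dvd_refl N) ⟨a, b, c', d, h1, h2⟩) (WX hNL hw) a b c' d h2 w h1
      (fun φ => rfl) (fun φ => rfl) (fun φ => WX_WX (dvd_refl N) _ φ)
      (fun φ => trX_W_inclX (dvd_refl N) hpN _ φ) (fun r φ => WX_comm (dvd_refl N) _ _ r φ) x hx
      (sh n x) le_rfl
  obtain ⟨c, C, hc, hC, -, hrkJ, hJ⟩ := hweight J
  obtain ⟨c0, C0, -, -, hbot, -, h0⟩ := hweight ⊥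
  have hc0 := hbot rfl
  obtain ⟨C1, hC1, hrk⟩ := rk_bound hN (dvd_refl N)
  refine ⟨c, C, hc, (apx_of_weights (fun n => AZ (NeZero.ne N) (dvd_refl N) n) sh hamb J
    (C1 := C1) hc hJ h0 (fun n hn => ?_)).2, hrkJ⟩
  rw [Fintype.card_fin]
  have hp1 : (0 : ℝ) < (p : ℝ) + 1 := by positivity
  have e : c0 * ((n : ℝ) / ((p : ℝ) + 1)) = ((Gamma0 N).index : ℝ) / 6 * n := by
    rw [hc0, index_mul_prime hp.out hpN]
    push_cast
    field_simp
  rw [e]
  exact hrk n hn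

open Classical in
/-- The number of the cusp forms in a class, in terms of an ideal. -/
theorem tot_bound (j : algebraicClosure ℚ ℂ →+* PadicAlgCl p) {ι : Type} [Fintype ι]
    [DecidableEq ι] (B : HR →+* Matrix ι ι ℤ) (M k : ℕ) [NeZero M] {C : ℕ}
    (hES : ∃ r : Multiset (MvPolynomial Nat.Primes ℤ →+* ℂ), r.card ≤ C ∧
      Sys (matRep (intRep ℂ B)) = Sys (rhoC M k) + Sys (rhoC M k) + r) {A : Set Nat.Primes}
    {c : Nat.Primes → PadicAlgCl p} (hA : ∀ q ∈ A, (q : ℕ) ≠ p) (hc : ∀ q ∈ A, ‖c q‖ ≤ 1) :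
    |(Fin.tot j M k A c : ℝ) - (if Good A c then ((SJ (p := p) B (Jc A c)).card : ℝ) /
      (2 * fdeg A c) else 0)| ≤ C := by
  obtain ⟨r, hr, hrS⟩ := hES
  have h1 := card_emb B j (fun g => InP A c g)
  rw [hrS, Multiset.filter_add, Multiset.filter_add, Multiset.card_add, Multiset.card_add] at h1
  have h2 : ((Sys (rhoC M k)).filter fun χ => InP A c fun r => emb p j (χ r)).card =
      Fin.tot j M k A c := rfl
  rw [h2] at h1
  have h3 : (r.filter fun χ => InP A c fun r => emb p j (χ r)).card ≤ C :=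
    (Multiset.card_le_card (Multiset.filter_le _ _)).trans hr
  have h4 : (if Good A c then ((SJ (p := p) B (Jc A c)).card : ℝ) / (2 * fdeg A c) else 0) =
      (((Sys (matRep (intRep (PadicAlgCl p) B))).filter
        fun χ : HR →+* PadicAlgCl p => InP A c χ).card : ℝ) / 2 := by
    by_cases hG : Good A c
    · rw [if_pos hG]
      have hf : (fdeg A c : ℝ) ≠ 0 := by exact_mod_cast (fdeg_pos A c).ne'
      have h5 := count_class hG hA B (fun _ => True) (fun σ χ => Iff.rfl)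
      have h6 : ∀ (T : Multiset (HR →+* PadicAlgCl p))
          (dp : DecidablePred fun _ : HR →+* PadicAlgCl p => True),
          @Multiset.filter _ (fun _ => True) dp T = T :=
        fun T dp => (@Multiset.filter_eq_self _ (fun _ => True) dp T).mpr fun _ _ => trivial
      rw [h6] at h5
      simp only [and_true] at h5
      rw [h5]
      push_cast
      field_simp
    · rw [if_neg hG]
      have h5 : ((Sys (matRep (intRep (PadicAlgCl p) B))).filter
          fun χ : HR →+* PadicAlgCl p => InP A c χ) = 0 := by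
        rw [Multiset.filter_eq_nil]
        intro χ hχ hI
        exact hG (good_of_mem hc hA B χ hχ hI)
      rw [h5]
      simp
  rw [h4]
  have h7 : ((Fin.tot j M k A c : ℕ) : ℝ) + Fin.tot j M k A c +
      ((r.filter fun χ => InP A c fun r => emb p j (χ r)).card : ℝ) =
      (((Sys (matRep (intRep (PadicAlgCl p) B))).filter
        fun χ : HR →+* PadicAlgCl p => InP A c χ).card : ℝ) := by
    exact_mod_cast h1
  have h8 : ((r.filter fun χ => InP A c fun r => emb p j (χ r)).card : ℝ) ≤ C := by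
    exact_mod_cast h3
  have h9 : (0 : ℝ) ≤ ((r.filter fun χ => InP A c fun r => emb p j (χ r)).card : ℝ) :=
    Nat.cast_nonneg _
  rw [abs_le]
  constructor <;> linarith

open Classical in
/-- **The cusp forms of level `N ≥ 2`, `p ∈ {2, 3}`.** The counting functions at level `N`, and the
number of the cusp forms of level `N p` in the class. -/
theorem apx_two_le (hp23 : p = 2 ∨ p = 3) (j : algebraicClosure ℚ ℂ →+* PadicAlgCl p) {N L : ℕ}
    [NeZero N] [NeZero L] (hN : 2 ≤ N) (hNL : N ∣ L) (h49 : 4 ∣ L ∨ 9 ∣ L) (hpL : ¬ p ∣ L)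
    {βL : ℕ → ℝ} (cL : Nat.Primes → PadicAlgCl p)
    (hA : Apx ((p : ℝ) + 1) (fun n x => (Fin.cnt j L (n + 2) ∅ cL x : ℝ))
      (fun n => (Fin.tot j L (n + 2) ∅ cL : ℝ)) βL) {A : Set Nat.Primes}
    {c : Nat.Primes → PadicAlgCl p} (hAp : ∀ q ∈ A, (q : ℕ) ≠ p) (hc : ∀ q ∈ A, ‖c q‖ ≤ 1) :
    ∃ b C : ℝ, 0 ≤ b ∧ Apx ((p : ℝ) + 1) (fun n x => (Fin.cnt j N (n + 2) A c x : ℝ))
      (fun n => (Fin.tot j N (n + 2) A c : ℝ)) (fun n => if Even n then b else 0) ∧
      ∀ n, Even n → |(Fin.tot j (N * p) (n + 2) A c : ℝ) - b * n| ≤ C := by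
  obtain ⟨b, C, hb, h, hrk⟩ := apx_J hp23 j hN hNL h49 hpL cL hA (Jc A c)
  have key := Fin.apx_gen (A := A) (c := c) j
    (fun n (_ : Even n) => AZ (NeZero.ne N) (dvd_refl N) n) N
    (esBoundX N) 2 (fun n hn hn2 => Sys_AZ_cusp hN (dvd_refl N) hn hn2) hAp hc
    (P := (p : ℝ) + 1) (β := fun n => if Even n then b else 0) (h.congr (fun n x => by
      by_cases hn : Even n
      · simp only [dif_pos hn, if_pos hn]
      · simp only [dif_neg hn, if_neg hn]) (fun n => by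
      by_cases hn : Even n
      · simp only [dif_pos hn, if_pos hn]
      · simp only [dif_neg hn, if_neg hn]) (fun n => rfl))
  set b' : ℝ := if Good A c then b / (2 * fdeg A c) else 0 with hb'
  have hf : 0 < (fdeg A c : ℝ) := by exact_mod_cast fdeg_pos A c
  have hb0 : 0 ≤ b' := by
    rw [hb']
    split_ifs
    · positivity
    · exact le_rfl
  -- the level `N p`
  have htot : ∀ n, Even n → |(Fin.tot j (N * p) (n + 2) A c : ℝ) - b' * n| ≤
      (esBoundX (N * p) : ℝ) + |C| + (Fin.tot j (N * p) 2 A c : ℝ) := by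
    intro n hn
    have ht0 : (0 : ℝ) ≤ (Fin.tot j (N * p) 2 A c : ℝ) := Nat.cast_nonneg _
    have hE0 : (0 : ℝ) ≤ (esBoundX (N * p) : ℝ) := Nat.cast_nonneg _
    have hC0 : 0 ≤ |C| := abs_nonneg C
    rcases Nat.lt_or_ge n 2 with h2 | h2
    · have h0 : n = 0 := by
        obtain ⟨m, rfl⟩ := hn
        omega
      subst h0
      rw [Nat.cast_zero, mul_zero, sub_zero, abs_of_nonneg (Nat.cast_nonneg _)]
      have e : (0 + 2 : ℕ) = 2 := rfl
      rw [e]
      linarith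
    · have h3 := tot_bound j (AZ (NeZero.ne (N * p)) (Dvd.intro p rfl) n) (N * p) (n + 2)
        (Sys_AZ_cusp (M := N * p) hN (Dvd.intro p rfl) hn h2) hAp hc
      have h4 := hrk n hn
      rw [hb']
      by_cases hG : Good A c
      · rw [if_pos hG] at h3 ⊢
        have h5 : |((SJ (p := p) (AZ (NeZero.ne (N * p)) (Dvd.intro p rfl) n) (Jc A c)).card : ℝ) /
            (2 * fdeg A c) - b / (2 * fdeg A c) * n| ≤ |C| := by
          have e1 : ((SJ (p := p) (AZ (NeZero.ne (N * p)) (Dvd.intro p rfl) n)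
              (Jc A c)).card : ℝ) / (2 * fdeg A c) - b / (2 * fdeg A c) * n =
              (((SJ (p := p) (AZ (NeZero.ne (N * p)) (Dvd.intro p rfl) n)
              (Jc A c)).card : ℝ) - b * n) / (2 * fdeg A c) := by ring
          rw [e1, abs_div, abs_of_pos (show (0 : ℝ) < 2 * fdeg A c by positivity)]
          have hf1 : (1 : ℝ) ≤ 2 * fdeg A c := by
            have : (1 : ℝ) ≤ fdeg A c := by exact_mod_cast fdeg_pos A c
            linarith
          refine (div_le_self (abs_nonneg _) hf1).trans (h4.trans (le_abs_self C))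
        have h6 := abs_le.1 h3
        have h7 := abs_le.1 h5
        rw [abs_le]
        constructor <;> linarith [h6.1, h6.2, h7.1, h7.2]
      · rw [if_neg hG] at h3 ⊢
        rw [zero_mul]
        linarith
  refine ⟨b', _, hb0, key.congr (fun n x => rfl) (fun n => rfl) fun n => ?_, htot⟩
  rw [hb']
  by_cases hG : Good A c
  · rw [if_pos hG, if_pos hG]
    by_cases hn : Even n
    · rw [if_pos hn, if_pos hn]
    · rw [if_neg hn, if_neg hn, zero_div]
  · rw [if_neg hG, if_neg hG, ite_self]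

end Gouvea.P5
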