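import Pool.Agent.Work.MP_d3517d_nt.P5.SymCountE

/-!
# P5: dimension of the symbols on all cusps, `N = 1` (MP_d3517d_nt)

`6 dim Sym k 1 M n ≤ [SL_2(ℤ) : Γ₀(M)] (n + 12) + 6` for every field `k` of characteristic `0`,
every `M ≥ 1`, `n` even (also `M = 1`). The symbols on all cusps are the functions in
`ker (1 + S) ∩ ker (1 + R + R²)` on the induced module, and `ker (1 + S) + ker (1 + R + R²)` has
codimension at most the dimension of `V / (T - 1) V`.
-/

open Matrix ModularGroup Module CongruenceSubgroup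

noncomputable section

namespace Gouvea.P5

open Gouvea.PX (SN Cusp inf act IsG0 Sym SymLe)

section abstract_part

variable {k : Type} [Field k] {V : Type} [AddCommGroup V] [Module k V]
  {Γ Γ₁ : Subgroup G} {ρ : G → V →ₗ[k] V}

/-- right translation of functions -/
lemma shift_mem {F : G → V} (hF : F ∈ Ind Γ ρ) (w : G) : (fun g => F (g * w)) ∈ Ind Γ ρ := by
  intro γ hγ g
  show F (γ * g * w) = ρ γ (F (g * w))
  rw [mul_assoc, hF γ hγ]

open Classical in
/-- the function supported on `Γ` with value `v` at `1` -/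
def base (Γ : Subgroup G) (ρ : G → V →ₗ[k] V) (v : V) : G → V :=
  fun g => if g ∈ Γ then ρ g v else 0

lemma base_mem (hρ : IsAct Γ ρ) (v : V) : base Γ ρ v ∈ Ind Γ ρ := by
  classical
  intro γ hγ g
  unfold base
  by_cases h : g ∈ Γ
  · rw [if_pos h, if_pos (Γ.mul_mem hγ h), hρ.mul γ hγ g h]
  · rw [if_neg h, if_neg fun h' => h (by
      have := Γ.mul_mem (Γ.inv_mem hγ) h'
      rwa [inv_mul_cancel_left] at this), map_zero]

lemma base_add (v w : V) : base Γ ρ (v + w) = base Γ ρ v + base Γ ρ w := by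
  classical
  funext g
  simp only [base, Pi.add_apply]
  split_ifs
  · rw [map_add]
  · rw [add_zero]

lemma base_smul (c : k) (v : V) : base Γ ρ (c • v) = c • base Γ ρ v := by
  classical
  funext g
  simp only [base, Pi.smul_apply]
  split_ifs
  · rw [map_smul]
  · rw [smul_zero]

/-- a subspace of functions which contains all `F (· w) - F` -/
structure Coinv (Γ : Subgroup G) (ρ : G → V →ₗ[k] V) (W : Submodule k (G → V)) : Prop where
  mem : ∀ F ∈ Ind Γ ρ, ∀ w : G, (fun g => F (g * w)) - F ∈ W

lemma Coinv.of_generators (W : Submodule k (G → V))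
    (h1 : ∀ F ∈ Ind Γ ρ, (fun g => F (g * Re)) - F ∈ W)
    (h2 : ∀ F ∈ Ind Γ ρ, (fun g => F (g * T)) - F ∈ W) : Coinv Γ ρ W := by
  let H : Subgroup G :=
    { carrier := {w | ∀ F ∈ Ind Γ ρ, (fun g => F (g * w)) - F ∈ W}
      one_mem' := fun F _ => by
        have : (fun g => F (g * 1)) - F = 0 := by
          funext g
          simp
        rw [this]
        exact W.zero_mem
      mul_mem' := fun {w w'} hw hw' F hF => by
        have h3 := hw (fun g => F (g * w')) (shift_mem hF w')
        have h4 := W.add_mem h3 (hw' F hF)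
        have h5 : (fun g => F (g * (w * w'))) - F =
            ((fun g => F (g * w * w')) - fun g => F (g * w')) + ((fun g => F (g * w')) - F) := by
          funext g
          simp only [Pi.add_apply, Pi.sub_apply, mul_assoc]
          abel
        rw [h5]
        exact h4
      inv_mem' := fun {w} hw F hF => by
        have h3 := W.neg_mem (hw (fun g => F (g * w⁻¹)) (shift_mem hF w⁻¹))
        have h5 : (fun g => F (g * w⁻¹)) - F =
            -((fun g => F (g * w * w⁻¹)) - fun g => F (g * w⁻¹)) := by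
          funext g
          simp only [Pi.neg_apply, Pi.sub_apply, mul_inv_cancel_right]
          abel
        rw [h5]
        exact h3 }
  have hR : Re ∈ H := h1
  have hT : T ∈ H := h2
  have hS : S ∈ H := by
    have h3 := H.mul_mem (H.inv_mem hR) hT
    rwa [← Re_mul_S, inv_mul_cancel_left] at h3
  have hH : H = ⊤ := by
    rw [eq_top_iff, ← SpecialLinearGroup.SL2Z_generators, Subgroup.closure_le]
    rintro x (rfl | hx)
    · exact hS
    · rw [Set.mem_singleton_iff] at hx
      subst hx
      exact hT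
  refine ⟨fun F hF w => ?_⟩
  have : w ∈ H := by
    rw [hH]
    exact Subgroup.mem_top w
  exact this F hF

/-- modulo `W` every function is supported on `Γ` -/
lemma Coinv.exists_base [Finite (Qt Γ)] (hρ : IsAct Γ ρ) {W : Submodule k (G → V)}
    (hW : Coinv Γ ρ W) {F : G → V} (hF : F ∈ Ind Γ ρ) : ∃ v : V, F - base Γ ρ v ∈ W := by
  classical
  have := Fintype.ofFinite (Qt Γ)
  refine ⟨∑ q : Qt Γ, F q.out, ?_⟩
  have hb : base Γ ρ (∑ q : Qt Γ, F q.out) = ∑ q : Qt Γ, base Γ ρ (F q.out) := by
    let L : V →ₗ[k] (G → V) :=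
      { toFun := base Γ ρ, map_add' := base_add, map_smul' := base_smul }
    exact map_sum L _ _
  have hFs : F = ∑ q : Qt Γ, (fun g => base Γ ρ (F q.out) (g * q.out⁻¹)) := by
    funext g
    rw [Finset.sum_apply, Finset.sum_eq_single (qt Γ g)]
    · have h1 : g * (qt Γ g).out⁻¹ ∈ Γ := kap_mem Γ g
      simp only [base]
      rw [if_pos h1]
      exact Ind_apply hF g
    · intro q _ hq
      simp only [base]
      rw [if_neg]
      intro h
      apply hq
      rw [← qt_out q, qt_eq]
      exact h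
    · intro h
      exact absurd (Finset.mem_univ _) h
  have hd : F - base Γ ρ (∑ q : Qt Γ, F q.out) =
      ∑ q : Qt Γ, ((fun g => base Γ ρ (F q.out) (g * q.out⁻¹)) - base Γ ρ (F q.out)) := by
    rw [hb, Finset.sum_sub_distrib, ← hFs]
  rw [hd]
  refine Submodule.sum_mem _ fun q _ => ?_
  exact hW.mem _ (base_mem hρ _) q.out⁻¹

lemma Coinv.base_T (hρ : IsAct Γ ρ) (hT : T ∈ Γ) {W : Submodule k (G → V)}
    (hW : Coinv Γ ρ W) (v : V) : base Γ ρ (ρ T v - v) ∈ W := by
  classical
  have h1 := hW.mem _ (base_mem hρ v) T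
  have h2 : base Γ ρ (ρ T v - v) = (fun g => base Γ ρ v (g * T)) - base Γ ρ v := by
    funext g
    simp only [base, Pi.sub_apply]
    by_cases h : g ∈ Γ
    · rw [if_pos h, if_pos (Γ.mul_mem h hT), if_pos h, map_sub, hρ.mul g h T hT]
    · rw [if_neg h, if_neg h, if_neg fun h' => h (by
        have := Γ.mul_mem h' (Γ.inv_mem hT)
        rwa [mul_inv_cancel_right] at this), sub_zero]
  rw [h2]
  exact h1

/-- **The codimension is at most `dim ker (T - 1)`.** -/
lemma Coinv.finrank_le [Finite (Qt Γ)] [FiniteDimensional k V] (hρ : IsAct Γ ρ) (hT : T ∈ Γ)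
    {W : Submodule k (G → V)} (hW : Coinv Γ ρ W) (hle : W ≤ Ind Γ ρ) :
    finrank k (Ind Γ ρ) ≤ finrank k W + finrank k (LinearMap.ker (ρ T - LinearMap.id)) := by
  have := finiteDimensional_Ind hρ
  have : FiniteDimensional k W := Submodule.finiteDimensional_of_le hle
  obtain ⟨C, hC⟩ := Submodule.exists_isCompl (LinearMap.range (ρ T - LinearMap.id))
  let A : (W × C) →ₗ[k] Ind Γ ρ :=
    { toFun := fun p => ⟨p.1.1 + base Γ ρ p.2.1,
        (Ind Γ ρ).add_mem (hle p.1.2) (base_mem hρ _)⟩
      map_add' := fun p p' => by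
        refine Subtype.ext ?_
        show p.1.1 + p'.1.1 + base Γ ρ (p.2.1 + p'.2.1) =
          (p.1.1 + base Γ ρ p.2.1) + (p'.1.1 + base Γ ρ p'.2.1)
        rw [base_add]
        abel
      map_smul' := fun c p => by
        refine Subtype.ext ?_
        show c • p.1.1 + base Γ ρ (c • p.2.1) = c • (p.1.1 + base Γ ρ p.2.1)
        rw [base_smul, smul_add] }
  have hA : Function.Surjective A := by
    rintro ⟨F, hF⟩
    obtain ⟨v, hv⟩ := hW.exists_base hρ hF
    have hv' : v ∈ LinearMap.range (ρ T - LinearMap.id) ⊔ C := by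
      rw [hC.sup_eq_top]
      exact Submodule.mem_top
    obtain ⟨a, ⟨u, rfl⟩, b, hb, hab⟩ := Submodule.mem_sup.1 hv'
    refine ⟨(⟨F - base Γ ρ v + base Γ ρ (ρ T u - u),
      W.add_mem hv (hW.base_T hρ hT u)⟩, ⟨b, hb⟩), Subtype.ext ?_⟩
    show F - base Γ ρ v + base Γ ρ (ρ T u - u) + base Γ ρ b = F
    have h1 : base Γ ρ v = base Γ ρ (ρ T u - u) + base Γ ρ b := by
      rw [← base_add]
      congr 1
      exact hab.symm
    rw [h1]
    abel
  have h1 := LinearMap.finrank_le_finrank_of_surjective hA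
  rw [Module.finrank_prod] at h1
  have h2 := LinearMap.finrank_range_add_finrank_ker (ρ T - LinearMap.id)
  have h3 := Submodule.finrank_add_eq_of_isCompl hC
  omega

/-- the condition map on all of `G`: the image is big -/
lemma coinv_range_Th0 (hρ : IsAct Γ ρ) :
    Coinv Γ ρ ((LinearMap.range (Th0 Γ ρ)).map (Ind Γ ρ).subtype) := by
  have hneg : ∀ F ∈ Ind Γ ρ, ∀ g, F (g * -1) = F g := by
    intro F hF g
    have h1 : g * (-1 : G) = -1 * g := by
      ext i j
      simp
    rw [h1, hF (-1) hρ.neg_mem, hρ.neg, LinearMap.id_apply]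
  have hRe : ∀ F ∈ Ind Γ ρ, (fun g => F (g * Re)) - F ∈
      (LinearMap.range (Th0 Γ ρ)).map (Ind Γ ρ).subtype := by
    intro F hF
    have hq : (fun g => F (g * Re)) - F ∈ KR Γ ρ := by
      refine ⟨(Ind Γ ρ).sub_mem (shift_mem hF Re) hF, fun g => ?_⟩
      simp only [Pi.sub_apply]
      rw [mul_assoc (g * Re) Re Re, mul_assoc g Re (Re * Re), ← mul_assoc Re Re Re, Re_cube,
        mul_one]
      abel
    refine ⟨Th0 Γ ρ (0, ⟨_, hq⟩), ⟨_, rfl⟩, ?_⟩
    funext g
    show ((fun g => F (g * Re)) - F) g + (0 : G → V) (g * Re) = _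
    simp
  refine Coinv.of_generators _ hRe fun F hF => ?_
  have hp : (fun g => F (g * S)) - F ∈ KS Γ ρ := by
    refine ⟨(Ind Γ ρ).sub_mem (shift_mem hF S) hF, fun g => ?_⟩
    simp only [Pi.sub_apply]
    rw [mul_assoc g S S, S_mul_S, hneg F hF]
    abel
  have h2 : (fun g => F (g * T)) - (fun g => F (g * Re)) ∈
      (LinearMap.range (Th0 Γ ρ)).map (Ind Γ ρ).subtype := by
    refine ⟨Th0 Γ ρ (⟨_, hp⟩, 0), ⟨_, rfl⟩, ?_⟩
    funext g
    show (0 : G → V) g + ((fun g => F (g * S)) - F) (g * Re) = _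
    simp only [Pi.sub_apply, Pi.zero_apply, zero_add]
    rw [mul_assoc, Re_mul_S]
  have h3 := Submodule.add_mem _ h2 (hRe F hF)
  have h4 : (fun g => F (g * T)) - F =
      ((fun g => F (g * T)) - (fun g => F (g * Re))) + ((fun g => F (g * Re)) - F) := by
    abel
  rw [h4]
  exact h3

open Classical in
/-- **Upper bound for the symbols on all cusps.** -/
theorem finrank_Sy_top_le [Finite (Qt Γ)] [FiniteDimensional k V] (hρ : IsAct Γ ρ)
    (hle : Γ ≤ Γ₁) (htop : ∀ g, g ∈ Γ₁) (hT : T ∈ Γ) :
    finrank k (Sy Γ Γ₁ ρ) + finrank k (Ind Γ ρ) ≤ finrank k (KS Γ ρ) + finrank k (KR Γ ρ) +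
      finrank k (LinearMap.ker (ρ T - LinearMap.id)) ∧ FiniteDimensional k (Sy Γ Γ₁ ρ) := by
  have := finiteDimensional_Ind hρ
  have : FiniteDimensional k (KS Γ ρ) := Submodule.finiteDimensional_of_le KS_le
  have : FiniteDimensional k (KR Γ ρ) := Submodule.finiteDimensional_of_le KR_le
  have h1 := LinearMap.finrank_range_add_finrank_ker (Th0 Γ ρ)
  rw [Module.finrank_prod] at h1
  -- the image
  have h2 := (coinv_range_Th0 hρ).finrank_le hρ hT (by
    rintro _ ⟨F, _, rfl⟩
    exact F.2)
  rw [Submodule.finrank_map_subtype_eq] at h2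
  -- the symbols map into the kernel
  let Φ : Sy Γ Γ₁ ρ →ₗ[k] LinearMap.ker (Th0 Γ ρ) :=
    { toFun := fun φ => ⟨(⟨(Psi hρ hle (htop T) (φ, 0)).1.1, (Psi hρ hle (htop T) (φ, 0)).2.1⟩,
        ⟨(Psi hρ hle (htop T) (φ, 0)).1.2, (Psi hρ hle (htop T) (φ, 0)).2.2.1⟩), by
          rw [LinearMap.mem_ker]
          refine Subtype.ext (funext fun g => ?_)
          exact (Psi hρ hle (htop T) (φ, 0)).2.2.2 g (htop g)⟩
      map_add' := fun φ ψ => by
        have h3 : (Psi hρ hle (htop T) (φ + ψ, 0)) =
            Psi hρ hle (htop T) (φ, 0) + Psi hρ hle (htop T) (ψ, 0) := by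
          rw [← map_add]
          congr 1
          refine Prod.ext rfl ?_
          simp
        refine Subtype.ext (Prod.ext (Subtype.ext ?_) (Subtype.ext ?_))
        · exact congrArg (fun p => p.1.1) h3
        · exact congrArg (fun p => p.1.2) h3
      map_smul' := fun c φ => by
        have h3 : (Psi hρ hle (htop T) (c • φ, 0)) = c • Psi hρ hle (htop T) (φ, 0) := by
          rw [← map_smul]
          congr 1
          refine Prod.ext rfl ?_
          simp
        refine Subtype.ext (Prod.ext (Subtype.ext ?_) (Subtype.ext ?_))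
        · exact congrArg (fun p => p.1.1) h3
        · exact congrArg (fun p => p.1.2) h3 }
  have hΦ : Function.Injective Φ := by
    intro φ ψ h
    have h3 : Psi hρ hle (htop T) (φ, 0) = Psi hρ hle (htop T) (ψ, 0) := by
      refine Subtype.ext (Prod.ext ?_ ?_)
      · exact congrArg (fun p => p.1.1.1) h
      · exact congrArg (fun p => p.1.2.1) h
    exact congrArg Prod.fst (Psi_injective hρ hle (htop T) h3)
  have h4 := LinearMap.finrank_le_finrank_of_injective hΦ
  exact ⟨by omega, Module.Finite.of_injective Φ hΦ⟩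

end abstract_part

/-! ### the kernel of `T - 1` -/

variable {k : Type} [Field k]

lemma red_T : red k T = !![1, -1; 0, 1] := by
  unfold red
  ext a b
  fin_cases a <;> fin_cases b <;> simp [T, Matrix.SpecialLinearGroup.coe_inv,
    Matrix.adjugate_fin_two]

lemma finrank_ker_T_le [CharZero k] (n : ℕ) :
    finrank k (LinearMap.ker (rhoF k n T - LinearMap.id)) ≤ 1 := by
  have hker : ∀ v : Fin (n + 1) → k, rhoF k n T v = v → ∀ j : Fin (n + 1), (j : ℕ) ≠ 0 →
      v j = 0 := by
    intro v hv
    by_contra hcon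
    obtain ⟨j0, hcon1⟩ := not_forall.1 hcon
    obtain ⟨hj0, hvj0⟩ := Classical.not_imp.1 hcon1
    classical
    let s : Finset (Fin (n + 1)) := Finset.univ.filter fun j => v j ≠ 0
    have hs : s.Nonempty := ⟨j0, by simp [s, hvj0]⟩
    let j := s.max' hs
    have hj : v j ≠ 0 := by
      have := s.max'_mem hs
      simp only [s, Finset.mem_filter, Finset.mem_univ, true_and] at this
      exact this
    have hmax : ∀ l : Fin (n + 1), j < l → v l = 0 := by
      intro l hl
      by_contra hne
      have h1 : l ∈ s := by simp [s, hne]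
      exact absurd (s.le_max' l h1) (not_le.2 hl)
    have hj1 : (j : ℕ) ≠ 0 := by
      have h1 : j0 ∈ s := by simp [s, hvj0]
      have h2 := s.le_max' j0 h1
      have h3 : (j0 : ℕ) ≤ (j : ℕ) := h2
      omega
    -- the equation at `j - 1`
    let i : Fin (n + 1) := ⟨(j : ℕ) - 1, by omega⟩
    have h4 := congrFun hv i
    rw [rhoF_apply] at h4
    change ∑ l : Fin (n + 1), slR n (red k T) i l * v l = v i at h4
    have h5 : ∀ l : Fin (n + 1), slR n (red k T) i l =
        (-1) ^ ((l : ℕ) - (i : ℕ)) * (((l : ℕ).choose (i : ℕ) : ℕ) : k) := by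
      intro l
      rw [red_T, slR_unip (by simp) (by simp) (by simp)]
      simp
    have hij : i ≠ j := by
      intro h
      have : (i : ℕ) = (j : ℕ) := congrArg Fin.val h
      simp only [i] at this
      omega
    have h6 : ∑ l : Fin (n + 1), slR n (red k T) i l * v l =
        slR n (red k T) i i * v i + slR n (red k T) i j * v j := by
      rw [← Finset.sum_subset (Finset.subset_univ ({i, j} : Finset (Fin (n + 1))))]
      · rw [Finset.sum_pair hij]
      · intro l _ hl
        simp only [Finset.mem_insert, Finset.mem_singleton, not_or] at hl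
        rcases lt_trichotomy l i with h | h | h
        · rw [h5, Nat.choose_eq_zero_of_lt h]
          simp
        · exact absurd h hl.1
        · rcases lt_trichotomy l j with h' | h' | h'
          · exfalso
            have h7 : (i : ℕ) < (l : ℕ) := h
            have h8 : (l : ℕ) < (j : ℕ) := h'
            simp only [i] at h7
            omega
          · exact absurd h' hl.2
          · rw [hmax l h', mul_zero]
    rw [h6, h5, h5] at h4
    have h7 : (j : ℕ) - (i : ℕ) = 1 := by
      simp only [i]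
      omega
    have h8 : (j : ℕ).choose (i : ℕ) = (j : ℕ) := by
      have : (i : ℕ) = (j : ℕ) - 1 := rfl
      rw [this]
      obtain ⟨m, hm⟩ : ∃ m, (j : ℕ) = m + 1 := ⟨(j : ℕ) - 1, by omega⟩
      rw [hm, Nat.add_sub_cancel, Nat.choose_succ_self_right]
    rw [h7, h8, Nat.sub_self, Nat.choose_self, pow_zero, pow_one, Nat.cast_one, one_mul,
      one_mul] at h4
    have h9 : ((j : ℕ) : k) * v j = 0 := by
      linear_combination -h4
    rcases mul_eq_zero.1 h9 with h | h
    · exact hj1 (by exact_mod_cast h)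
    · exact hj h
  let Φ : LinearMap.ker (rhoF k n T - LinearMap.id) →ₗ[k] k :=
    { toFun := fun v => v.1 0
      map_add' := fun _ _ => rfl
      map_smul' := fun _ _ => rfl }
  have hΦ : Function.Injective Φ := by
    rw [← LinearMap.ker_eq_bot, LinearMap.ker_eq_bot']
    intro v hv
    refine Subtype.ext (funext fun j => ?_)
    by_cases hj : (j : ℕ) = 0
    · have : j = 0 := Fin.ext hj
      rw [this]
      exact hv
    · have h1 : rhoF k n T v.1 - v.1 = 0 := v.2
      exact hker v.1 (sub_eq_zero.1 h1) j hj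
  have h5 := LinearMap.finrank_le_finrank_of_injective hΦ
  rwa [Module.finrank_self] at h5

/-- **All cusps, every level**: `6 dim ≤ [SL_2(ℤ) : Γ₀(M)] (n + 12) + 6`. -/
theorem finrank_Sym_one_le (k : Type) [Field k] [CharZero k] {M n : ℕ} [NeZero M]
    (hn : Even n) :
    6 * finrank k (Sym k 1 M n) ≤ Nat.card (Qt (Gamma0 M)) * (n + 12) + 6 ∧
      FiniteDimensional k (Sym k 1 M n) := by
  have hV : finrank k (Fin (n + 1) → k) = n + 1 := by
    rw [Module.finrank_fintype_fun_eq_card, Fintype.card_fin]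
  have hρ := isAct_rhoF k hn (neg_one_mem M)
  have htop : ∀ g : G, g ∈ Gamma0 1 := fun g => mem_of_dvd (by simp)
  obtain ⟨h1, h2⟩ := finrank_Sy_top_le hρ (Gamma0_le (one_dvd M)) htop (T_mem M)
  have h3 := finrank_KS_le hρ 1 (fun g _ => by
    rw [hV]
    exact bound_fourF (k := k) n hn g)
  have h4 := finrank_KR_le (Γ := Gamma0 M) (ρ := rhoF k n) 4 (fun g _ => by
    rw [hV]
    exact bound_threeF (k := k) n g)
  rw [finrank_Ind hρ] at h1
  rw [hV] at h1 h3 h4
  have h5 := finrank_ker_T_le (k := k) n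
  let Φ : Sym k 1 M n →ₗ[k] Sy (Gamma0 M) (Gamma0 1) (rhoF k n) :=
    (toSyF k 1 M n).codRestrict _ (toSyF_mem (one_dvd M))
  have hΦ : Function.Injective Φ := fun φ ψ hφψ =>
    toSyF_injective 1 M n (congrArg Subtype.val hφψ)
  have h6 := LinearMap.finrank_le_finrank_of_injective hΦ
  refine ⟨?_, FiniteDimensional.of_injective Φ hΦ⟩
  nlinarith

end Gouvea.P5
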