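import Pool.Agent.Work.MP_d3517d_nt.P5.MainX
import Pool.Agent.Work.MP_d3517d_nt.P5.SymCountOne

/-!
# Eichler–Shimura for the modular symbols on all cusps, `N = 1` (MP_d3517d_nt, P5)

* `Sys_SymOne`: `N = 1`, every level `M ≥ 1`;
* `Sys_SymA`: every `N ≥ 1`, every `M` with `N ∣ M`, one formula.
-/

open UpperHalfPlane CongruenceSubgroup Polynomial Gouvea.Desc Gouvea.Sys
open scoped MatrixGroups ModularForm

noncomputable section

namespace Gouvea.PX

open Gouvea.ES Pool.Agent.Gouv.ES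

variable {N M : ℕ} [NeZero M] {n : ℕ}

theorem finiteDimensional_SymOne (k : Type) [Field k] [CharZero k] (hn : Even n) :
    FiniteDimensional k (Sym k 1 M n) :=
  (P5.finrank_Sym_one_le k hn).2

theorem finrank_SymOne_le (hn : Even n) :
    Module.finrank ℂ (Sym ℂ 1 M n) ≤
      2 * Module.finrank ℂ (Gouvea.Cusp M (n + 2)) + (esBoundX M + 1) := by
  have h1 := Pool.Agent.Gouv.ESDim.finrank_cuspForm_ge M (n + 2) (hn.add even_two)
  have h2 := (P5.finrank_Sym_one_le ℂ (M := M) hn).1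
  rw [P5.card_Qt] at h2
  have h5 : Module.finrank ℂ (CuspForm ((Gamma0 M : Subgroup SL(2, ℤ)) :
      Subgroup (GL (Fin 2) ℝ)) ((n + 2 : ℕ) : ℤ)) = Module.finrank ℂ (Gouvea.Cusp M (n + 2)) := rfl
  rw [h5] at h1
  rw [esBoundX]
  have h6 : (Gamma0 M).index * (n + 12) = (Gamma0 M).index * (n + 2) + 10 * (Gamma0 M).index := by
    ring
  rw [h6] at h2
  generalize (Gamma0 M).index ^ 2 = s at *
  generalize (Gamma0 M).index * (n + 2) = t at *
  omega

/-- **Eichler–Shimura for the symbols on all cusps**, every level `M ≥ 1`. -/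
theorem Sys_SymOne (hn : Even n) (hn2 : 2 ≤ n) :
    haveI := finiteDimensional_SymOne (M := M) ℂ hn
    ∃ r : Multiset (MvPolynomial Nat.Primes ℤ →+* ℂ), r.card ≤ esBoundX M + 1 ∧
      Sys (rhoN ℂ 1 M n (one_dvd M)) = Sys (rhoC M (n + 2)) + Sys (rhoC M (n + 2)) + r := by
  have := finiteDimensional_SymOne (M := M) ℂ hn
  exact Sys_SymX_of_finrank (one_dvd M) hn2 (finrank_SymOne_le hn)

/-- every `N`, characteristic `0` -/
theorem finiteDimensional_SymA (k : Type) [Field k] [CharZero k] (hN : N ∣ M) (hn : Even n) :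
    FiniteDimensional k (Sym k N M n) := by
  have hN0 : N ≠ 0 := fun h => NeZero.ne M (by
    rw [h] at hN
    exact Nat.eq_zero_of_zero_dvd hN)
  rcases (show N = 1 ∨ 2 ≤ N by omega) with rfl | h
  · exact finiteDimensional_SymOne k hn
  · exact finiteDimensional_SymX k h hN hn

theorem finrank_SymA_le (hN : N ∣ M) (hn : Even n) :
    Module.finrank ℂ (Sym ℂ N M n) ≤
      2 * Module.finrank ℂ (Gouvea.Cusp M (n + 2)) + (esBoundX M + 1) := by
  have hN0 : N ≠ 0 := fun h => NeZero.ne M (by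
    rw [h] at hN
    exact Nat.eq_zero_of_zero_dvd hN)
  rcases (show N = 1 ∨ 2 ≤ N by omega) with rfl | h
  · exact finrank_SymOne_le hn
  · exact (finrank_SymX_le h hN hn).trans (by omega)

/-- **Eichler–Shimura for the symbols on the cusps `Γ₀(N) ∞`**, every `N ≥ 1`, every `M` with
`N ∣ M`. -/
theorem Sys_SymA (hN : N ∣ M) (hn : Even n) (hn2 : 2 ≤ n) :
    haveI := finiteDimensional_SymA ℂ hN hn
    ∃ r : Multiset (MvPolynomial Nat.Primes ℤ →+* ℂ), r.card ≤ esBoundX M + 1 ∧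
      Sys (rhoN ℂ N M n hN) = Sys (rhoC M (n + 2)) + Sys (rhoC M (n + 2)) + r := by
  have : NeZero N := ⟨fun h => NeZero.ne M (by
    rw [h] at hN
    exact Nat.eq_zero_of_zero_dvd hN)⟩
  have := finiteDimensional_SymA ℂ hN hn
  exact Sys_SymX_of_finrank hN hn2 (finrank_SymA_le hN hn)

end Gouvea.PX
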