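import Pool.Agent.Work.MP_d3517d_nt.P5.Count

/-!
# P5, T-level: nilpotent parts in a filtered module (MP_d3517d_nt)

`V = N_0 ≥ N_1 ≥ … ≥ N_L = 0` stable under a commutative ring `R`, `E_r : N_r → K` with kernel
`N_{r+1}`, equivariant for an action `Θ_r` of `R` on `K`. Then the dimension of the part of `V` at
an ideal is the sum of those of `(K, Θ_r)` up to `L dim K - dim V`.
-/

open Finset Module

noncomputable section

namespace Gouvea.P5

open Pool.Agent.Gouv

variable {p : ℕ} [hp : Fact p.Prime] {R : Type} [CommRing R]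
  {V K : Type} [AddCommGroup V] [Module (ZMod p) V] [AddCommGroup K] [Module (ZMod p) K]

/-- an element of the ideal which acts as the idempotent with kernel the nilpotent part -/
theorem exists_elt [FiniteDimensional (ZMod p) V] [FiniteDimensional (ZMod p) K]
    (Ψ : R →+* Module.End (ZMod p) V) (Θ : R →+* Module.End (ZMod p) K) (I : Ideal R) :
    ∃ t : R, Ψ t * Ψ t = Ψ t ∧ Θ t * Θ t = Θ t ∧
      (∀ (N : Submodule (ZMod p) V) x, x ∈ nilPart Ψ I N ↔ x ∈ N ∧ Ψ t x = 0) ∧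
      (∀ (N : Submodule (ZMod p) K) x, x ∈ nilPart Θ I N ↔ x ∈ N ∧ Θ t x = 0) := by
  have hV : Finite V := Module.finite_of_finite (ZMod p)
  have hK : Finite K := Module.finite_of_finite (ZMod p)
  have : Finite (Module.End (ZMod p) V) := DFunLike.finite _
  have : Finite (Module.End (ZMod p) K) := DFunLike.finite _
  obtain ⟨t, ht, htt, hbig⟩ := exists_big (Ψ.prod Θ) I
  have h1 : Ψ t * Ψ t = Ψ t := congrArg Prod.fst htt
  have h2 : Θ t * Θ t = Θ t := congrArg Prod.snd htt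
  have hpow : ∀ {U : Type} [AddCommGroup U] [Module (ZMod p) U] (e : Module.End (ZMod p) U),
      e * e = e → ∀ (m : ℕ) (x : U), (e ^ m) x = 0 → e x = 0 := by
    intro U _ _ e he m x hx
    rcases Nat.eq_zero_or_pos m with h | h
    · rw [h, pow_zero, Module.End.one_apply] at hx
      rw [hx, map_zero]
    · have h3 : e ^ m = e := IsIdempotentElem.pow_eq he (by omega) 
      rwa [h3] at hx
  refine ⟨t, h1, h2, fun N x => ⟨fun hx => ⟨hx.1, ?_⟩, fun hx => ⟨hx.1, fun u hu => ?_⟩⟩,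
    fun N x => ⟨fun hx => ⟨hx.1, ?_⟩, fun hx => ⟨hx.1, fun u hu => ?_⟩⟩⟩
  · obtain ⟨m, hm⟩ := hx.2 t ht
    exact hpow _ h1 m x hm
  · obtain ⟨k, -, hk⟩ := hbig u hu
    have h3 : Ψ u ^ k * (1 - Ψ t) = 0 := congrArg Prod.fst hk
    refine ⟨k, ?_⟩
    have h4 := LinearMap.congr_fun h3 x
    rw [Module.End.mul_apply, LinearMap.sub_apply, hx.2, sub_zero] at h4
    exact h4
  · obtain ⟨m, hm⟩ := hx.2 t ht
    exact hpow _ h2 m x hm
  · obtain ⟨k, -, hk⟩ := hbig u hu
    have h3 : Θ u ^ k * (1 - Θ t) = 0 := congrArg Prod.snd hk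
    refine ⟨k, ?_⟩
    have h4 := LinearMap.congr_fun h3 x
    rw [Module.End.mul_apply, LinearMap.sub_apply, hx.2, sub_zero] at h4
    exact h4

/-- one step -/
theorem nil_step [FiniteDimensional (ZMod p) V] [FiniteDimensional (ZMod p) K]
    (Ψ : R →+* Module.End (ZMod p) V) (Θ : R →+* Module.End (ZMod p) K) (I : Ideal R)
    (N N' : Submodule (ZMod p) V) (hle : N' ≤ N) (hst : ∀ u, ∀ x ∈ N, Ψ u x ∈ N)
    (E : N →ₗ[ZMod p] K) (hE : ∀ x : N, E x = 0 ↔ (x : V) ∈ N')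
    (hEq : ∀ u (x : N), E ⟨Ψ u x, hst u x x.2⟩ = Θ u (E x)) :
    finrank (ZMod p) N ≤ finrank (ZMod p) N' + finrank (ZMod p) K ∧
    finrank (ZMod p) (nilPart Ψ I N) ≤
      finrank (ZMod p) (nilPart Ψ I N') + finrank (ZMod p) (nilPart Θ I ⊤) ∧
    finrank (ZMod p) (nilPart Θ I ⊤) + finrank (ZMod p) (nilPart Ψ I N') +
      finrank (ZMod p) N ≤
      finrank (ZMod p) (nilPart Ψ I N) + finrank (ZMod p) N' + finrank (ZMod p) K := by
  obtain ⟨t, h1, h2, hV, hK⟩ := exists_elt Ψ Θ I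
  -- dimensions of `E`
  have e1 : finrank (ZMod p) (LinearMap.range E) + finrank (ZMod p) N' = finrank (ZMod p) N := by
    have h3 := LinearMap.finrank_range_add_finrank_ker E
    have h4 : finrank (ZMod p) (LinearMap.ker E) = finrank (ZMod p) N' := by
      refine LinearEquiv.finrank_eq
        { toFun := fun x => ⟨x.1.1, (hE x.1).1 x.2⟩
          invFun := fun x => ⟨⟨x.1, hle x.2⟩, (hE _).2 x.2⟩
          map_add' := fun _ _ => rfl
          map_smul' := fun _ _ => rfl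
          left_inv := fun _ => rfl
          right_inv := fun _ => rfl }
    rw [h4] at h3
    exact h3
  -- the restriction to the nilpotent part
  let F : nilPart Ψ I N →ₗ[ZMod p] K :=
    { toFun := fun x => E ⟨x.1, x.2.1⟩
      map_add' := fun x y => E.map_add ⟨x.1, x.2.1⟩ ⟨y.1, y.2.1⟩
      map_smul' := fun a x => E.map_smul a ⟨x.1, x.2.1⟩ }
  have e2 : finrank (ZMod p) (LinearMap.range F) + finrank (ZMod p) (nilPart Ψ I N') =
      finrank (ZMod p) (nilPart Ψ I N) := by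
    have h3 := LinearMap.finrank_range_add_finrank_ker F
    have h4 : finrank (ZMod p) (LinearMap.ker F) = finrank (ZMod p) (nilPart Ψ I N') := by
      refine LinearEquiv.finrank_eq
        { toFun := fun x => ⟨x.1.1, (hE _).1 x.2, x.1.2.2⟩
          invFun := fun x => ⟨⟨x.1, hle x.2.1, x.2.2⟩, (hE _).2 x.2.1⟩
          map_add' := fun _ _ => rfl
          map_smul' := fun _ _ => rfl
          left_inv := fun _ => rfl
          right_inv := fun _ => rfl }
    rw [h4] at h3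
    exact h3
  have e3 : LinearMap.range F = LinearMap.range E ⊓ nilPart Θ I ⊤ := by
    ext y
    constructor
    · rintro ⟨x, rfl⟩
      refine ⟨⟨⟨x.1, x.2.1⟩, rfl⟩, (hK ⊤ _).2 ⟨Submodule.mem_top, ?_⟩⟩
      show Θ t (E ⟨x.1, x.2.1⟩) = 0
      rw [← hEq]
      have h5 : Ψ t x.1 = 0 := ((hV N x.1).1 x.2).2
      have h6 : (⟨Ψ t x.1, hst t x.1 x.2.1⟩ : N) = 0 := Subtype.ext h5
      rw [h6, map_zero]
    · rintro ⟨⟨x, rfl⟩, hy⟩
      have h5 : Θ t (E x) = 0 := ((hK ⊤ _).1 hy).2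
      have h6 : Ψ t (x.1 - Ψ t x.1) = 0 := by
        have h7 := LinearMap.congr_fun h1 x.1
        rw [Module.End.mul_apply] at h7
        rw [map_sub, h7, sub_self]
      refine ⟨⟨x.1 - Ψ t x.1, (hV N _).2 ⟨N.sub_mem x.2 (hst t x.1 x.2), h6⟩⟩, ?_⟩
      show E ⟨x.1 - Ψ t x.1, _⟩ = E x
      have h7 : (⟨x.1 - Ψ t x.1, N.sub_mem x.2 (hst t x.1 x.2)⟩ : N) =
          x - ⟨Ψ t x.1, hst t x.1 x.2⟩ := rfl
      rw [h7, map_sub, hEq, h5, sub_zero]
  have e4 := Submodule.finrank_sup_add_finrank_inf_eq (LinearMap.range E)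
    (nilPart Θ I (⊤ : Submodule (ZMod p) K))
  have e5 : finrank (ZMod p) (LinearMap.range E ⊔ nilPart Θ I ⊤ : Submodule (ZMod p) K) ≤
      finrank (ZMod p) K := Submodule.finrank_le _
  have e6 : finrank (ZMod p) (LinearMap.range E ⊓ nilPart Θ I ⊤ : Submodule (ZMod p) K) ≤
      finrank (ZMod p) (nilPart Θ I (⊤ : Submodule (ZMod p) K)) :=
    Submodule.finrank_mono inf_le_right
  have e7 : finrank (ZMod p) (LinearMap.range E) ≤ finrank (ZMod p) K := Submodule.finrank_le _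
  rw [e3] at e2
  refine ⟨by omega, by omega, by omega⟩

/-- **the chain** -/
theorem nil_chain [FiniteDimensional (ZMod p) V] [FiniteDimensional (ZMod p) K]
    (Ψ : R →+* Module.End (ZMod p) V) (Θ : ℕ → R →+* Module.End (ZMod p) K) (I : Ideal R)
    (L : ℕ) (N : ℕ → Submodule (ZMod p) V) (h0 : N 0 = ⊤) (hL : N L = ⊥)
    (hle : ∀ r < L, N (r + 1) ≤ N r) (hst : ∀ r u, ∀ x ∈ N r, Ψ u x ∈ N r)
    (E : ∀ r, N r →ₗ[ZMod p] K) (hE : ∀ r < L, ∀ x : N r, E r x = 0 ↔ (x : V) ∈ N (r + 1))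
    (hEq : ∀ r < L, ∀ u (x : N r), E r ⟨Ψ u x, hst r u x x.2⟩ = Θ r u (E r x)) :
    finrank (ZMod p) V ≤ L * finrank (ZMod p) K ∧
    finrank (ZMod p) (nilPart Ψ I ⊤) ≤ ∑ r ∈ range L, finrank (ZMod p) (nilPart (Θ r) I ⊤) ∧
    ∑ r ∈ range L, finrank (ZMod p) (nilPart (Θ r) I ⊤) + finrank (ZMod p) V ≤
      finrank (ZMod p) (nilPart Ψ I ⊤) + L * finrank (ZMod p) K := by
  have key : ∀ r ≤ L, finrank (ZMod p) V ≤ finrank (ZMod p) (N r) + r * finrank (ZMod p) K ∧
      finrank (ZMod p) (nilPart Ψ I ⊤) ≤ finrank (ZMod p) (nilPart Ψ I (N r)) +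
        ∑ s ∈ range r, finrank (ZMod p) (nilPart (Θ s) I ⊤) ∧
      ∑ s ∈ range r, finrank (ZMod p) (nilPart (Θ s) I ⊤) +
        finrank (ZMod p) (nilPart Ψ I (N r)) + finrank (ZMod p) V ≤
      finrank (ZMod p) (nilPart Ψ I ⊤) + finrank (ZMod p) (N r) + r * finrank (ZMod p) K := by
    intro r
    induction r with
    | zero =>
      intro _
      rw [h0, finrank_top, range_zero, sum_empty]
      omega
    | succ r ih =>
      intro hr
      obtain ⟨a1, a2, a3⟩ := ih (by omega)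
      obtain ⟨b1, b2, b3⟩ := nil_step Ψ (Θ r) I (N r) (N (r + 1)) (hle r (by omega)) (hst r)
        (E r) (hE r (by omega)) (hEq r (by omega))
      rw [sum_range_succ, Nat.succ_mul]
      omega
  obtain ⟨a1, a2, a3⟩ := key L le_rfl
  have h1 : finrank (ZMod p) (nilPart Ψ I (N L)) = 0 := by
    have h2 := Submodule.finrank_mono (nilPart_le Ψ I (N L))
    rw [hL, finrank_bot] at h2
    rw [hL]
    omega
  rw [hL, finrank_bot] at a1 a3
  rw [hL] at h1
  rw [hL, h1] at a2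
  rw [h1] at a3
  omega

end Gouvea.P5
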