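import Pool.Agent.Work.MP_d3517d_nt.P5.KerInv
import Pool.Agent.Work.MP_d3517d_nt.PS.Defs

/-!
# P5, level one: the group `Γ⁰(p)` acting on polynomials of degree `≤ j` over `𝔽_p` (MP_d3517d_nt)

* `Gu p` : the matrices of `SL₂(ℤ)` with upper right entry divisible by `p`;
* `rho p n j` : the action of `Gu p` on the polynomials of degree `≤ j` over `𝔽_p`, through
  `b ↦ δ⁻¹ b⁻¹ δ mod p`, `δ = diag(p, 1)`;
* for `p = 2, 3` the elliptic elements of order `p` of `Gu p` act as translations by units.
-/

open Matrix ModularGroup Module Polynomial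

noncomputable section

namespace Gouvea.P5.One

open Gouvea.PS (slk slk_apply slk_one slk_mul slk_smul slk_neg slk_map map_cast_mul)

/-! ### linear algebra -/

section LinAlg

variable {k : Type} [Field k]

lemma finrank_ker_le {d s : ℕ} (A : (Fin d → k) →ₗ[k] (Fin d → k)) (a : Fin d → Fin d → k)
    (hA : ∀ v i, A v i = ∑ m, a i m * v m) (P : ℕ → Prop) [DecidablePred P]
    (h0 : ∀ i m : Fin d, (m : ℕ) < i + s → a i m = 0)
    (h1 : ∀ m : Fin d, P m → s ≤ m ∧ ∀ i : Fin d, (i : ℕ) + s = m → a i m ≠ 0) :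
    finrank k (LinearMap.ker A) ≤ ((Finset.range d).filter fun m => ¬ P m).card := by
  classical
  let L : LinearMap.ker A →ₗ[k] ({m : Fin d // ¬ P m} → k) :=
    { toFun := fun v m => v.1 m.1, map_add' := fun _ _ => rfl, map_smul' := fun _ _ => rfl }
  have hL : Function.Injective L := by
    rw [← LinearMap.ker_eq_bot, LinearMap.ker_eq_bot']
    rintro ⟨v, hv⟩ h
    have hz : ∀ m : Fin d, ¬ P m → v m = 0 := fun m hm => congrFun h ⟨m, hm⟩
    have key : ∀ t : ℕ, ∀ m : Fin d, d - t ≤ m → v m = 0 := by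
      intro t
      induction t with
      | zero => intro m hm; exact absurd m.2 (by omega)
      | succ t ih =>
        intro m hm
        by_cases hm' : d - t ≤ m
        · exact ih m hm'
        · by_cases hP : P m
          · obtain ⟨h2, h3⟩ := h1 m hP
            have h4 : A v ⟨m - s, by omega⟩ = 0 := by
              rw [LinearMap.mem_ker.1 hv]
              rfl
            rw [hA, Finset.sum_eq_single m] at h4
            · exact (mul_eq_zero.1 h4).resolve_left (h3 _ (by simp only; omega))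
            · intro l _ hl
              rcases lt_or_gt_of_ne (fun h5 => hl (Fin.ext h5) : (l : ℕ) ≠ m) with h5 | h5
              · rw [h0 _ l (by simp only; omega), zero_mul]
              · rw [ih l (by omega), mul_zero]
            · intro h5
              exact absurd (Finset.mem_univ _) h5
          · exact hz m hP
    refine Subtype.ext (funext fun m => ?_)
    exact key d m (by omega)
  have h2 := LinearMap.finrank_le_finrank_of_injective hL
  rw [Module.finrank_fintype_fun_eq_card] at h2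
  refine h2.trans (le_of_eq ?_)
  rw [Fintype.card_subtype]
  refine Finset.card_bij (fun m _ => (m : ℕ)) ?_ ?_ ?_
  · intro m hm
    simp only [Finset.mem_filter, Finset.mem_univ, true_and] at hm
    simp only [Finset.mem_filter, Finset.mem_range]
    exact ⟨m.2, hm⟩
  · intro a _ b _ hab
    exact Fin.ext hab
  · intro b hb
    simp only [Finset.mem_filter, Finset.mem_range] at hb
    exact ⟨⟨b, hb.1⟩, by simpa using hb.2, rfl⟩

lemma card_two (d : ℕ) : 2 * ((Finset.range d).filter fun m => ¬ (m % 2 = 1)).card ≤ d + 1 := by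
  have h : ∀ d, ((Finset.range d).filter fun m => ¬ (m % 2 = 1)).card = d - d / 2 := by
    intro d
    induction d with
    | zero => rfl
    | succ d ih =>
      rw [Finset.range_add_one, Finset.filter_insert]
      by_cases h1 : d % 2 = 1
      · rw [if_neg (by simpa using h1), ih]
        omega
      · rw [if_pos h1, Finset.card_insert_of_notMem (by simp), ih]
        omega
  rw [h]
  omega

lemma card_three_a (d : ℕ) :
    3 * ((Finset.range d).filter fun m => ¬ (m % 3 = 2)).card ≤ 2 * d + 2 := by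
  have h : ∀ d, ((Finset.range d).filter fun m => ¬ (m % 3 = 2)).card = d - d / 3 := by
    intro d
    induction d with
    | zero => rfl
    | succ d ih =>
      rw [Finset.range_add_one, Finset.filter_insert]
      by_cases h1 : d % 3 = 2
      · rw [if_neg (by simpa using h1), ih]
        omega
      · rw [if_pos h1, Finset.card_insert_of_notMem (by simp), ih]
        omega
  rw [h]
  omega

lemma card_three_b (d : ℕ) :
    3 * ((Finset.range d).filter fun m => ¬ (m % 3 ≠ 0)).card ≤ d + 2 := by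
  have h : ∀ d, ((Finset.range d).filter fun m => ¬ (m % 3 ≠ 0)).card = (d + 2) / 3 := by
    intro d
    induction d with
    | zero => rfl
    | succ d ih =>
      rw [Finset.range_add_one, Finset.filter_insert]
      by_cases h1 : d % 3 = 0
      · rw [if_pos (by simpa using h1), Finset.card_insert_of_notMem (by simp), ih]
        omega
      · rw [if_neg (by simpa using h1), ih]
        omega
  rw [h]
  omega

end LinAlg

/-! ### upper triangular matrices -/

section Tri

variable {R : Type} [CommRing R]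

lemma slR_tri (n : ℕ) {M : Matrix (Fin 2) (Fin 2) R} (hM : M 1 0 = 0) {i j : ℕ} (h : j < i) :
    slR n M i j = 0 := by
  unfold slR
  rw [hM, C_0, zero_mul, zero_add, ← C_pow, coeff_mul_C]
  rw [coeff_eq_zero_of_natDegree_lt, zero_mul]
  refine (natDegree_pow_le_of_le j (natDegree_linear_le)).trans_lt ?_
  omega

lemma slR_shift (n : ℕ) (β : R) (i j : ℕ) :
    slR n !![1, β; 0, 1] i j = β ^ (j - i) * (j.choose i : R) := by
  unfold slR
  simp [coeff_X_add_C_pow]

end Tri

variable (p : ℕ)

/-- `Γ⁰(p)` -/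
def Gu : Subgroup G where
  carrier := {g | (p : ℤ) ∣ g.1 0 1}
  mul_mem' := by
    intro a b ha hb
    show (p : ℤ) ∣ (a.1 * b.1) 0 1
    rw [Matrix.mul_apply, Fin.sum_univ_two]
    exact dvd_add (Dvd.dvd.mul_left hb _) (Dvd.dvd.mul_right ha _)
  one_mem' := by
    show (p : ℤ) ∣ (1 : Matrix (Fin 2) (Fin 2) ℤ) 0 1
    simp
  inv_mem' := by
    intro a ha
    show (p : ℤ) ∣ (a⁻¹ : G).1 0 1
    rw [SpecialLinearGroup.SL2_inv_expl]
    simpa using ha

variable {p}

lemma mem_Gu {g : G} : g ∈ Gu p ↔ (p : ℤ) ∣ g.1 0 1 := Iff.rfl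

variable (p) in
/-- the matrix `δ⁻¹ b⁻¹ δ` over `ℤ`, for `b ∈ Γ⁰(p)` -/
def bt (b : G) : Matrix (Fin 2) (Fin 2) ℤ := !![b.1 1 1, -(b.1 0 1 / p); -(p * b.1 1 0), b.1 0 0]

variable (p) in
/-- its reduction -/
def btm (b : G) : Matrix (Fin 2) (Fin 2) (ZMod p) := (bt p b).map (Int.cast : ℤ → ZMod p)

lemma btm_tri (b : G) : btm p b 1 0 = 0 := by
  simp [btm, bt]

lemma bt_one : bt p 1 = 1 := by
  ext i j
  fin_cases i <;> fin_cases j <;> simp [bt]

lemma bt_mul [NeZero p] {b b' : G} (hb : b ∈ Gu p) (hb' : b' ∈ Gu p) :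
    bt p (b * b') = bt p b' * bt p b := by
  have hp : (p : ℤ) ≠ 0 := by exact_mod_cast NeZero.ne p
  obtain ⟨t, ht⟩ := hb
  obtain ⟨t', ht'⟩ := hb'
  have e : ∀ i j, (b * b').1 i j = b.1 i 0 * b'.1 0 j + b.1 i 1 * b'.1 1 j := fun i j => by
    show (b.1 * b'.1) i j = _
    rw [Matrix.mul_apply, Fin.sum_univ_two]
  unfold bt
  rw [Matrix.mul_fin_two, e, e, e, e, ht, ht', Int.mul_ediv_cancel_left _ hp,
    Int.mul_ediv_cancel_left _ hp]
  have h2 : b.1 0 0 * (p * t') + p * t * b'.1 1 1 = p * (b.1 0 0 * t' + t * b'.1 1 1) := by ring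
  rw [h2, Int.mul_ediv_cancel_left _ hp]
  ext i j
  fin_cases i <;> fin_cases j
  · show b.1 1 0 * (p * t') + b.1 1 1 * b'.1 1 1 = b'.1 1 1 * b.1 1 1 + -t' * -(p * b.1 1 0)
    ring
  · show -(b.1 0 0 * t' + t * b'.1 1 1) = b'.1 1 1 * -t + -t' * b.1 0 0
    ring
  · show -(p * (b.1 1 0 * b'.1 0 0 + b.1 1 1 * b'.1 1 0)) =
      -(p * b'.1 1 0) * b.1 1 1 + b'.1 0 0 * -(p * b.1 1 0)
    ring
  · show b.1 0 0 * b'.1 0 0 + p * t * b'.1 1 0 = -(p * b'.1 1 0) * -t + b'.1 0 0 * b.1 0 0
    ring

lemma btm_mul [NeZero p] {b b' : G} (hb : b ∈ Gu p) (hb' : b' ∈ Gu p) :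
    btm p (b * b') = btm p b' * btm p b := by
  unfold btm
  rw [bt_mul hb hb', map_cast_mul]

lemma btm_one : btm p 1 = 1 := by
  unfold btm
  rw [bt_one]
  ext i j
  fin_cases i <;> fin_cases j <;> simp

lemma bt_neg_one : bt p (-1) = -1 := by
  ext i j
  fin_cases i <;> fin_cases j <;> simp [bt]

lemma btm_neg_one : btm p (-1) = -1 := by
  unfold btm
  rw [bt_neg_one]
  ext i j
  fin_cases i <;> fin_cases j <;> simp

variable [Fact p.Prime]

variable (p) in
/-- the action of `Γ⁰(p)` on polynomials of degree `≤ j` over `𝔽_p` -/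
def rho (n j : ℕ) (b : G) : (Fin (j + 1) → ZMod p) →ₗ[ZMod p] (Fin (j + 1) → ZMod p) :=
  (Matrix.of fun i m : Fin (j + 1) => slR n (btm p b) i m).mulVecLin

lemma rho_apply (n j : ℕ) (b : G) (v : Fin (j + 1) → ZMod p) (i : Fin (j + 1)) :
    rho p n j b v i = ∑ m : Fin (j + 1), slR n (btm p b) i m * v m := rfl

lemma isAct_rho {n j : ℕ} (hn : Even n) (hj : j ≤ n) : IsAct (Gu p) (rho p n j) where
  one := by
    refine LinearMap.ext fun v => funext fun i => ?_
    rw [rho_apply, btm_one, LinearMap.id_apply, Finset.sum_eq_single i]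
    · rw [slR_one n i i ((Nat.lt_succ_iff.1 i.2).trans hj), if_pos rfl, one_mul]
    · intro m _ hm
      rw [slR_one n i m ((Nat.lt_succ_iff.1 m.2).trans hj), if_neg (fun h => hm (Fin.ext h.symm)),
        zero_mul]
    · intro h
      exact absurd (Finset.mem_univ _) h
  mul := by
    intro b hb b' hb' v
    funext i
    simp only [rho_apply]
    rw [btm_mul hb hb']
    have h1 : ∀ m : Fin (j + 1), slR n (btm p b' * btm p b) i m =
        ∑ l : Fin (j + 1), slR n (btm p b) i l * slR n (btm p b') l m := by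
      intro m
      rw [slR_mul n _ _ _ _ ((Nat.lt_succ_iff.1 m.2).trans hj),
        Fin.sum_univ_eq_sum_range (fun l => slR n (btm p b) i l * slR n (btm p b') l m) (j + 1)]
      symm
      refine Finset.sum_subset (Finset.range_subset_range.2 (by omega)) fun l _ hl => ?_
      rw [slR_tri n (btm_tri b') (by
        rw [Finset.mem_range, not_lt] at hl
        omega : (m : ℕ) < l), mul_zero]
    simp only [h1, Finset.sum_mul, Finset.mul_sum]
    rw [Finset.sum_comm]
    refine Finset.sum_congr rfl fun l _ => Finset.sum_congr rfl fun m _ => by ring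
  neg_mem := by
    show (p : ℤ) ∣ ((-1 : G) : Matrix (Fin 2) (Fin 2) ℤ) 0 1
    simp
  neg := by
    have h1 : ∀ i m : Fin (j + 1), slR n (-1 : Matrix (Fin 2) (Fin 2) (ZMod p)) i m =
        if (i : ℕ) = m then 1 else 0 := fun i m => by
      rw [show (-1 : Matrix (Fin 2) (Fin 2) (ZMod p)) = (-1 : ZMod p) • 1 by simp,
        slR_smul n _ _ i m ((Nat.lt_succ_iff.1 m.2).trans hj), hn.neg_one_pow, one_mul,
        slR_one n i m ((Nat.lt_succ_iff.1 m.2).trans hj)]
    refine LinearMap.ext fun v => funext fun i => ?_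
    rw [rho_apply, btm_neg_one, LinearMap.id_apply, Finset.sum_eq_single i]
    · rw [h1, if_pos rfl, one_mul]
    · intro m _ hm
      rw [h1, if_neg (fun h => hm (Fin.ext h.symm)), zero_mul]
    · intro h
      exact absurd (Finset.mem_univ _) h

end Gouvea.P5.One
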