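import Pool.Agent.Work.MP_d3517d_nt.P5.NxElem

/-!
# P5, level one: dimension bounds for the kernels on the induced module (MP_d3517d_nt)
-/

open Matrix ModularGroup Module Polynomial

noncomputable section

namespace Gouvea.P5.One

lemma trace_conj (g w : G) : (g * w * g⁻¹).1 0 0 + (g * w * g⁻¹).1 1 1 = w.1 0 0 + w.1 1 1 := by
  have h : Matrix.trace (g.1 * w.1 * (g⁻¹ : G).1) = Matrix.trace w.1 := by
    rw [Matrix.trace_mul_comm, ← Matrix.mul_assoc]
    have h1 : (g⁻¹ : G).1 * g.1 = 1 := congrArg Subtype.val (inv_mul_cancel g)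
    rw [h1, Matrix.one_mul]
  rw [Matrix.trace_fin_two, Matrix.trace_fin_two] at h
  exact h

lemma det_eq (b : G) : b.1 0 0 * b.1 1 1 - b.1 0 1 * b.1 1 0 = 1 := by
  have := b.2
  rwa [Matrix.det_fin_two] at this

lemma ell_S {p : ℕ} (hp : p = 2 ∨ p = 3) {b : G} (hb : b ∈ Gu p)
    (ht : b.1 0 0 + b.1 1 1 = 0) :
    p = 2 ∧ ∃ β : ZMod p, β ≠ 0 ∧ btm p b = !![1, β; 0, 1] := by
  have hd := det_eq b
  obtain ⟨t, h01⟩ := hb
  have h11 : b.1 1 1 = -b.1 0 0 := by linarith
  set a := b.1 0 0 with ha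
  set c := b.1 1 0 with hc
  rw [h11, h01] at hd
  rcases hp with rfl | rfl
  · refine ⟨rfl, 1, one_ne_zero, ?_⟩
    have hodd : (∃ u, a = 2 * u + 1) ∧ ∃ s, t = 2 * s + 1 := by
      rcases Int.even_or_odd' a with ⟨u, hu | hu⟩
      · exfalso
        rw [hu] at hd
        have h1 : 2 * (-2 * (u * u) - t * c) = 1 := by
          push_cast at hd
          linarith
        omega
      · refine ⟨⟨u, hu⟩, ?_⟩
        rcases Int.even_or_odd' t with ⟨s, hs | hs⟩
        · exfalso
          rw [hu, hs] at hd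
          have h1 : 4 * (-(u * u) - u - s * c) = 2 := by
            push_cast at hd
            linarith
          omega
        · exact ⟨s, hs⟩
    obtain ⟨⟨u, hu⟩, s, hs⟩ := hodd
    have e : bt 2 b = !![-a, -t; -(2 * c), a] := by
      unfold bt
      rw [h11, h01]
      congr 1
      push_cast
      rw [Int.mul_ediv_cancel_left _ (by norm_num)]
    unfold btm
    rw [e, hu, hs]
    have h2 : (2 : ZMod 2) = 0 := rfl
    ext i j
    fin_cases i <;> fin_cases j <;> simp [h2]
  · exfalso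
    have h1 : (((a * -a - (3 : ℕ) * t * c : ℤ)) : ZMod 3) = 1 := by
      rw [hd]
      simp
    push_cast at h1
    have h3 : (3 : ZMod 3) = 0 := rfl
    rw [h3, zero_mul, zero_mul, sub_zero] at h1
    exact absurd h1 ((by decide : ∀ x : ZMod 3, x * -x ≠ 1) _)

lemma ell_Re {p : ℕ} (hp : p = 2 ∨ p = 3) {b : G} (hb : b ∈ Gu p)
    (ht : b.1 0 0 + b.1 1 1 = -1) :
    p = 3 ∧ ∃ β : ZMod p, β ≠ 0 ∧ btm p b = !![1, β; 0, 1] := by
  have hd := det_eq b
  obtain ⟨t, h01⟩ := hb
  have h11 : b.1 1 1 = -1 - b.1 0 0 := by linarith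
  set a := b.1 0 0 with ha
  set c := b.1 1 0 with hc
  rw [h11, h01] at hd
  rcases hp with rfl | rfl
  · exfalso
    obtain ⟨r, hr⟩ := (Int.even_mul_succ_self a)
    have h1 : a * (-1 - a) = -(r + r) := by rw [← hr]; ring
    rw [h1] at hd
    have h2 : 2 * (-r - t * c) = 1 := by
      push_cast at hd
      linarith
    omega
  · refine ⟨rfl, -(t : ZMod 3), ?_, ?_⟩
    · have h1 : (((a * (-1 - a) - (3 : ℕ) * t * c : ℤ)) : ZMod 9) = 1 := by
        rw [hd]
        simp
      push_cast at h1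
      intro h2
      rw [neg_eq_zero] at h2
      have h3 : (3 : ℤ) ∣ t := (ZMod.intCast_zmod_eq_zero_iff_dvd t 3).1 h2
      obtain ⟨s, hs⟩ := h3
      have h4 : ((t : ℤ) : ZMod 9) * 3 = 0 := by
        rw [hs]
        push_cast
        have : (3 : ZMod 9) * 3 = 0 := rfl
        linear_combination (s : ZMod 9) * this
      have h5 : (a : ZMod 9) * (-1 - a) = 1 := by
        linear_combination h1 + c * h4
      exact absurd h5 ((by decide : ∀ x : ZMod 9, x * (-1 - x) ≠ 1) _)
    · have h1 : (((a * (-1 - a) - (3 : ℕ) * t * c : ℤ)) : ZMod 3) = 1 := by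
        rw [hd]
        simp
      push_cast at h1
      have h3 : (3 : ZMod 3) = 0 := rfl
      rw [h3, zero_mul, zero_mul, sub_zero] at h1
      have h4 : (a : ZMod 3) = 1 :=
        (by decide : ∀ x : ZMod 3, x * (-1 - x) = 1 → x = 1) _ h1
      have e : bt 3 b = !![-1 - a, -t; -(3 * c), a] := by
        unfold bt
        rw [h11, h01]
        congr 1
        push_cast
        rw [Int.mul_ediv_cancel_left _ (by norm_num)]
      unfold btm
      rw [e]
      ext i j
      fin_cases i <;> fin_cases j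
      · show (((-1 - a : ℤ)) : ZMod 3) = 1
        push_cast
        rw [h4]
        decide
      · show (((-t : ℤ)) : ZMod 3) = -(t : ZMod 3)
        push_cast
        rfl
      · show (((-(3 * c) : ℤ)) : ZMod 3) = 0
        push_cast
        rw [h3, zero_mul, neg_zero]
      · exact h4

/-! ### kernels of translations -/

section Ker

variable {p : ℕ} [Fact p.Prime]

lemma rho_shift {n j : ℕ} {b : G} {β : ZMod p} (hb : btm p b = !![1, β; 0, 1])
    (v : Fin (j + 1) → ZMod p) (i : Fin (j + 1)) :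
    rho p n j b v i = ∑ m : Fin (j + 1), (β ^ ((m : ℕ) - i) * ((m : ℕ).choose i : ZMod p)) * v m := by
  rw [rho_apply, hb]
  exact Finset.sum_congr rfl fun m _ => by rw [slR_shift]

lemma id_sum {d : ℕ} {k : Type} [Field k] (v : Fin d → k) (i : Fin d) :
    v i = ∑ m, (if m = i then 1 else 0) * v m := by
  rw [Finset.sum_eq_single i]
  · simp
  · intro m _ hm
    rw [if_neg hm, zero_mul]
  · intro h
    exact absurd (Finset.mem_univ _) h

lemma natCast_ne_zero {m : ℕ} (h : ¬ p ∣ m) : (m : ZMod p) ≠ 0 := fun h' =>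
  h ((ZMod.natCast_eq_zero_iff m p).1 h')

lemma ker_sub {n j : ℕ} {b : G} {β : ZMod p} (hβ : β ≠ 0) (hb : btm p b = !![1, β; 0, 1]) :
    finrank (ZMod p) (LinearMap.ker (LinearMap.id - rho p n j b)) ≤
      ((Finset.range (j + 1)).filter fun m => ¬ (m % p ≠ 0)).card := by
  refine finrank_ker_le (s := 1) _ (fun i m => (if m = i then 1 else 0) -
    (β ^ ((m : ℕ) - i) * ((m : ℕ).choose i : ZMod p))) ?_ _ ?_ ?_
  · intro v i
    simp only [sub_mul, Finset.sum_sub_distrib]
    rw [← id_sum, ← rho_shift (n := n) hb]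
    rfl
  · intro i m hm
    rcases Nat.lt_or_ge m i with h | h
    · rw [if_neg (fun h' => by rw [h'] at h; exact lt_irrefl _ h), Nat.choose_eq_zero_of_lt h]
      simp
    · have h' : m = i := Fin.ext (by omega)
      rw [h']
      simp
  · intro m hm
    have hm0 : (m : ℕ) ≠ 0 := fun h => hm (by rw [h, Nat.zero_mod])
    refine ⟨by omega, fun i hi => ?_⟩
    have h1 : ¬ m = i := fun h => by rw [h] at hi; omega
    have h2 : (m : ℕ) - i = 1 := by omega
    have h3 : (m : ℕ).choose i = m := by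
      rw [← hi]
      exact Nat.choose_succ_self_right i
    rw [if_neg h1, h2, h3, zero_sub, pow_one]
    exact neg_ne_zero.2 (mul_ne_zero hβ (natCast_ne_zero fun h =>
      hm (Nat.mod_eq_zero_of_dvd h)))

lemma ker_add_two {n j : ℕ} {b : G} {β : ZMod 2} (hβ : β ≠ 0)
    (hb : btm 2 b = !![1, β; 0, 1]) :
    finrank (ZMod 2) (LinearMap.ker (LinearMap.id + rho 2 n j b)) ≤
      ((Finset.range (j + 1)).filter fun m => ¬ (m % 2 = 1)).card := by
  have h1 : (LinearMap.id + rho 2 n j b) = LinearMap.id - rho 2 n j b := by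
    have h2 : ∀ x : ZMod 2, -x = x := by decide
    refine LinearMap.ext fun v => funext fun i => ?_
    show v i + rho 2 n j b v i = v i - rho 2 n j b v i
    rw [sub_eq_add_neg, h2]
  rw [h1]
  refine (ker_sub hβ hb).trans (le_of_eq ?_)
  congr 1
  refine Finset.filter_congr fun m _ => ?_
  omega

lemma ker_three {n j : ℕ} (hn : Even n) (hj : j ≤ n) {b : G} (hbG : b ∈ Gu 3) {β : ZMod 3}
    (hβ : β ≠ 0) (hb : btm 3 b = !![1, β; 0, 1]) :
    finrank (ZMod 3) (LinearMap.ker (LinearMap.id + rho 3 n j b + rho 3 n j b ∘ₗ rho 3 n j b)) ≤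
      ((Finset.range (j + 1)).filter fun m => ¬ (m % 3 = 2)).card := by
  have hb2 : btm 3 (b * b) = !![1, 2 * β; 0, 1] := by
    rw [btm_mul hbG hbG, hb, Matrix.mul_fin_two]
    congr 1
    simp [two_mul]
  refine finrank_ker_le (s := 2) _ (fun i m => (if m = i then 1 else 0) +
    (β ^ ((m : ℕ) - i) * ((m : ℕ).choose i : ZMod 3)) +
    ((2 * β) ^ ((m : ℕ) - i) * ((m : ℕ).choose i : ZMod 3))) ?_ _ ?_ ?_
  · intro v i
    simp only [add_mul, Finset.sum_add_distrib]
    rw [← id_sum, ← rho_shift (n := n) hb, ← rho_shift (n := n) hb2,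
      (isAct_rho hn hj).mul b hbG b hbG]
    rfl
  · intro i m hm
    rcases Nat.lt_or_ge m i with h | h
    · rw [if_neg (fun h' => by rw [h'] at h; exact lt_irrefl _ h), Nat.choose_eq_zero_of_lt h]
      simp
    · rcases Nat.eq_or_lt_of_le h with h | h
      · have h' : m = i := Fin.ext h.symm
        rw [h', if_pos rfl, Nat.sub_self, pow_zero, pow_zero, Nat.choose_self]
        decide
      · have h1 : ¬ m = i := fun h' => by rw [h'] at h; exact lt_irrefl _ h
        have h2 : (m : ℕ) - i = 1 := by omega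
        rw [if_neg h1, h2, pow_one, pow_one]
        have h3 : (3 : ZMod 3) = 0 := rfl
        linear_combination β * ((m : ℕ).choose i : ZMod 3) * h3
  · intro m hm
    refine ⟨by omega, fun i hi => ?_⟩
    have h1 : ¬ m = i := fun h => by rw [h] at hi; omega
    have h2 : (m : ℕ) - i = 2 := by omega
    have h3 : (m : ℕ).choose i = (m : ℕ).choose 2 := Nat.choose_symm_of_eq_add (by omega)
    have h4 : 2 * ((m : ℕ).choose 2) = m * (m - 1) := by
      rw [Nat.choose_two_right]
      exact Nat.mul_div_cancel' (Nat.even_mul_pred_self m).two_dvd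
    have h5 : (2 : ZMod 3) * ((m : ℕ).choose 2 : ℕ) = 2 := by
      have h6 : ((2 * ((m : ℕ).choose 2) : ℕ) : ZMod 3) = ((m * (m - 1) : ℕ) : ZMod 3) := by
        rw [h4]
      obtain ⟨q, hq⟩ : ∃ q, (m : ℕ) = 3 * q + 2 := ⟨(m : ℕ) / 3, by omega⟩
      have h7 : (m : ℕ) - 1 = 3 * q + 1 := by omega
      rw [h7, hq] at h6
      push_cast at h6
      rw [hq]
      have h3' : (3 : ZMod 3) = 0 := rfl
      rw [h3', zero_mul, zero_add, zero_add, mul_one] at h6
      exact h6
    rw [if_neg h1, h2, h3, zero_add]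
    have h6 : β ^ 2 = 1 := (by decide : ∀ x : ZMod 3, x ≠ 0 → x ^ 2 = 1) β hβ
    rw [mul_pow, h6]
    have h8 : ((m : ℕ).choose 2 : ZMod 3) = 1 := by
      have h9 : (4 : ZMod 3) = 1 := rfl
      linear_combination 2 * h5 - (((m : ℕ).choose 2 : ℕ) : ZMod 3) * h9 + h9
    rw [h8]
    decide

end Ker

/-! ### the index -/

section Index

variable {p : ℕ} [Fact p.Prime]

open Classical in
lemma card_Gu : Finite (Qt (Gu p)) ∧ Nat.card (Qt (Gu p)) ≤ p + 1 := by
  let f : Qt (Gu p) → Option (ZMod p) := fun q =>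
    if ((q.out.1 0 0 : ℤ) : ZMod p) = 0 then none else
      some (((q.out.1 0 1 : ℤ) : ZMod p) / ((q.out.1 0 0 : ℤ) : ZMod p))
  have hf : Function.Injective f := by
    intro q q' h
    rw [← qt_out q, ← qt_out q', qt_eq]
    show (p : ℤ) ∣ (q'.out.1 * (q.out⁻¹ : G).1) 0 1
    rw [SpecialLinearGroup.SL2_inv_expl]
    rw [Matrix.mul_apply, Fin.sum_univ_two]
    show (p : ℤ) ∣ q'.out.1 0 0 * (-q.out.1 0 1) + q'.out.1 0 1 * q.out.1 0 0
    rw [← ZMod.intCast_zmod_eq_zero_iff_dvd]
    push_cast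
    by_cases h1 : ((q.out.1 0 0 : ℤ) : ZMod p) = 0
    · by_cases h2 : ((q'.out.1 0 0 : ℤ) : ZMod p) = 0
      · rw [h1, h2]
        ring
      · simp only [f, if_pos h1, if_neg h2] at h
        exact absurd h (by simp)
    · by_cases h2 : ((q'.out.1 0 0 : ℤ) : ZMod p) = 0
      · simp only [f, if_neg h1, if_pos h2] at h
        exact absurd h (by simp)
      · simp only [f, if_neg h1, if_neg h2] at h
        have h3 := Option.some.inj h
        rw [div_eq_div_iff h1 h2] at h3
        linear_combination -h3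
  have : Finite (Option (ZMod p)) := inferInstance
  refine ⟨Finite.of_injective f hf, (Nat.card_le_card_of_injective f hf).trans ?_⟩
  rw [Nat.card_eq_fintype_card, Fintype.card_option, ZMod.card]

end Index

/-! ### the bounds -/

section Bounds

variable {p : ℕ} [Fact p.Prime] (hp : p = 2 ∨ p = 3) {n j : ℕ} (hn : Even n) (hj : j ≤ n)

lemma trace_S : (S : G).1 0 0 + (S : G).1 1 1 = 0 := by
  simp [ModularGroup.S]

lemma trace_Re : Re.1 0 0 + Re.1 1 1 = -1 := by
  simp [Re]

include hp hn hj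

theorem finrank_KS_bound :
    2 * finrank (ZMod p) (KS (Gu p) (rho p n j)) ≤ (p + 1) * (j + 2) := by
  have hG := card_Gu (p := p)
  have := hG.1
  refine (finrank_KS_le (isAct_rho hn hj) 1 fun g hg => ?_).trans ?_
  · obtain ⟨hp2, β, hβ, hb⟩ := ell_S hp hg (by rw [trace_conj, trace_S])
    subst hp2
    rw [Module.finrank_fin_fun]
    exact (Nat.mul_le_mul_left 2 (ker_add_two hβ hb)).trans (card_two (j + 1))
  · rw [Module.finrank_fin_fun]
    exact Nat.mul_le_mul_right _ hG.2

theorem finrank_KI_S_bound :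
    2 * finrank (ZMod p) (KI (Gu p) (rho p n j) S) ≤ (p + 1) * (j + 2) := by
  have hG := card_Gu (p := p)
  have := hG.1
  refine (finrank_KI_S_le (isAct_rho hn hj) 1 fun g hg => ?_).trans ?_
  · obtain ⟨hp2, β, hβ, hb⟩ := ell_S hp hg (by rw [trace_conj, trace_S])
    subst hp2
    rw [Module.finrank_fin_fun]
    refine (Nat.mul_le_mul_left 2 (ker_sub hβ hb)).trans ?_
    refine le_trans (le_of_eq ?_) (card_two (j + 1))
    congr 2
    refine Finset.filter_congr fun m _ => ?_
    omega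
  · rw [Module.finrank_fin_fun]
    exact Nat.mul_le_mul_right _ hG.2

theorem finrank_KR_bound :
    3 * finrank (ZMod p) (KR (Gu p) (rho p n j)) ≤ (p + 1) * (2 * j + 4) := by
  have hG := card_Gu (p := p)
  have := hG.1
  refine (finrank_KR_le 2 fun g hg => ?_).trans ?_
  · obtain ⟨hp2, β, hβ, hb⟩ := ell_Re hp hg (by rw [trace_conj, trace_Re])
    subst hp2
    rw [Module.finrank_fin_fun]
    exact (Nat.mul_le_mul_left 3 (ker_three hn hj hg hβ hb)).trans (card_three_a (j + 1))
  · rw [Module.finrank_fin_fun]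
    refine (Nat.mul_le_mul_right _ hG.2).trans (le_of_eq ?_)
    ring

omit hn hj in
theorem finrank_KI_Re_bound :
    3 * finrank (ZMod p) (KI (Gu p) (rho p n j) Re) ≤ (p + 1) * (j + 3) := by
  have hG := card_Gu (p := p)
  have := hG.1
  refine (finrank_KI_Re_le 2 fun g hg => ?_).trans ?_
  · obtain ⟨hp2, β, hβ, hb⟩ := ell_Re hp hg (by rw [trace_conj, trace_Re])
    subst hp2
    rw [Module.finrank_fin_fun]
    exact (Nat.mul_le_mul_left 3 (ker_sub hβ hb)).trans (card_three_b (j + 1))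
  · rw [Module.finrank_fin_fun]
    exact Nat.mul_le_mul_right _ hG.2

end Bounds

end Gouvea.P5.One
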