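import Pool.Agent.Work.MP_d3517d_nt.P5.OneIdx

/-!
# P5, level one: a lower bound for the index of `N_x` (MP_d3517d_nt)

`index_Nx_ge` : `p^((p + 1) x (x + 1) / 2) ≤ [V : N_x]` if `x (p + 1) ≤ n`.
-/

open Matrix ModularGroup Module Polynomial

noncomputable section

namespace Gouvea.P5.One

variable {p : ℕ} [Fact p.Prime] {n : ℕ}

/-! ### the reduction -/

/-- the reduction modulo `p` as a polynomial -/
def rp (v : Vn p n) : (ZMod p)[X] :=
  ∑ i : Fin (n + 1), C (PadicInt.toZMod (v i)) * X ^ (i : ℕ)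

lemma coeff_rp (v : Vn p n) (i : Fin (n + 1)) : (rp v).coeff i = PadicInt.toZMod (v i) := by
  unfold rp
  rw [finsetSum_coeff]
  simp only [coeff_C_mul, coeff_X_pow, mul_ite, mul_one, mul_zero]
  rw [Finset.sum_eq_single i]
  · simp
  · intro b _ hb
    rw [if_neg]
    intro h
    exact hb (Fin.ext h.symm)
  · intro h'
    exact absurd (Finset.mem_univ _) h'

lemma coeff_rp_zero (v : Vn p n) {i : ℕ} (hi : n < i) : (rp v).coeff i = 0 := by
  unfold rp
  rw [finsetSum_coeff]
  refine Finset.sum_eq_zero fun b _ => ?_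
  rw [coeff_C_mul, coeff_X_pow, if_neg, mul_zero]
  have := b.2
  omega

lemma natDegree_rp_le (v : Vn p n) : (rp v).natDegree ≤ n :=
  natDegree_le_iff_coeff_eq_zero.2 fun _ hi => coeff_rp_zero v hi

/-- the reduction as an additive map -/
def rpH (p : ℕ) [Fact p.Prime] (n : ℕ) : Vn p n →+ (ZMod p)[X] where
  toFun := rp
  map_zero' := by
    unfold rp
    simp
  map_add' v w := by
    unfold rp
    rw [← Finset.sum_add_distrib]
    refine Finset.sum_congr rfl fun i _ => ?_
    rw [Pi.add_apply, map_add, map_add, add_mul]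

lemma rp_eq_zero_iff (v : Vn p n) : rp v = 0 ↔ ∀ i, (p : ℤ_[p]) ∣ v i := by
  constructor
  · intro h i
    rw [← toZMod_eq_zero_iff, ← coeff_rp, h, coeff_zero]
  · intro h
    ext i
    rw [coeff_zero]
    rcases Nat.lt_or_ge n i with hi | hi
    · exact coeff_rp_zero v hi
    · have := coeff_rp v ⟨i, by omega⟩
      rw [(toZMod_eq_zero_iff _).2 (h _)] at this
      exact this

/-- the reduction is equivariant -/
lemma rp_sla (v : Vn p n) (g : Matrix (Fin 2) (Fin 2) ℤ) :
    rp (sla p n g v) = slashM n (g.map (Int.cast : ℤ → ZMod p)) (rp v) := by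
  ext i
  rcases Nat.lt_or_ge n i with hi | hi
  · rw [coeff_rp_zero _ hi]
    exact (coeff_eq_zero_of_natDegree_lt ((natDegree_slashM_le n _ _).trans_lt hi)).symm
  · have h1 := coeff_rp (sla p n g v) ⟨i, by omega⟩
    have h2 := Gouvea.PS.coeff_slashM_eq n (g.map (Int.cast : ℤ → ZMod p)) (rp v) ⟨i, by omega⟩
    rw [show i = ((⟨i, by omega⟩ : Fin (n + 1)) : ℕ) from rfl, h1, h2, sla_apply]
    simp only [Matrix.mulVec, dotProduct, map_sum, map_mul, coeff_rp]
    refine Finset.sum_congr rfl fun j _ => ?_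
    congr 1
    have h3 : Gouvea.PS.slk n (g.map (Int.cast : ℤ → ZMod p)) =
        (Gouvea.PS.slk n (g.map (Int.cast : ℤ → ℤ_[p]))).map PadicInt.toZMod := by
      rw [← Gouvea.PS.slk_map]
      congr 1
      rw [Matrix.map_map]
      congr 1
      funext x
      simp
    rw [h3]
    rfl

/-- the coefficients of low degree of the translates of an element of `N_x` -/
lemma coeff_rp_sla {x : ℕ} {v : Vn p n} (hv : v ∈ Nx p n x) (g : G) {i : ℕ} (hi : i < x) :
    (rp (sla p n g.1 v)).coeff i = 0 := by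
  rcases Nat.lt_or_ge n i with hin | hin
  · exact coeff_rp_zero _ hin
  · have h1 := coeff_rp (sla p n g.1 v) ⟨i, by omega⟩
    rw [show i = ((⟨i, by omega⟩ : Fin (n + 1)) : ℕ) from rfl, h1, toZMod_eq_zero_iff]
    have h2 := (mem_Nx'.1 hv) g ⟨i, by omega⟩
    have h3 : (p : ℤ_[p]) ^ x = (p : ℤ_[p]) ^ i * (p : ℤ_[p]) ^ (x - i) := by
      rw [← pow_add]
      congr 1
      omega
    rw [h3] at h2
    have h4 : (p : ℤ_[p]) ^ (x - i) ∣ sla p n g.1 v ⟨i, by omega⟩ :=
      (mul_dvd_mul_iff_left (pp_ne i)).1 h2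
    exact (dvd_pow_self _ (by omega)).trans h4

/-- the translation as an element of `G` -/
def Tz (a : ℤ) : G := ⟨!![1, a; 0, 1], by simp [Matrix.det_fin_two]⟩

lemma slashM_Tz (a : ℤ) {f : (ZMod p)[X]} (hf : f.natDegree ≤ n) :
    slashM n ((Tz a).1.map (Int.cast : ℤ → ZMod p)) f = f.comp (X + C (a : ZMod p)) := by
  rw [slashM_apply]
  have h0 : ((Tz a).1.map (Int.cast : ℤ → ZMod p)) = !![1, (a : ZMod p); 0, 1] := by
    ext i j
    fin_cases i <;> fin_cases j <;> simp [Tz]
  rw [h0]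
  simp only [Matrix.of_apply, Matrix.cons_val', Matrix.cons_val_zero, Matrix.cons_val_one,
    Matrix.cons_val_fin_one, map_one, map_zero, one_mul, zero_mul, zero_add, one_pow, mul_one]
  rw [Polynomial.comp, eval₂_eq_sum_range' C (Nat.lt_succ_of_le hf)]

lemma pow_dvd_rp {x : ℕ} {v : Vn p n} (hv : v ∈ Nx p n x) (a : ZMod p) :
    (X - C a) ^ x ∣ rp v := by
  obtain ⟨b, hb⟩ : ∃ b : ℤ, (b : ZMod p) = a := ⟨a.val, by simp⟩
  rw [X_sub_C_pow_dvd_iff, X_pow_dvd_iff]
  intro d hd
  have h1 := coeff_rp_sla hv (Tz b) hd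
  rw [rp_sla, slashM_Tz b (natDegree_rp_le v), hb] at h1
  exact h1

lemma natDegree_rp_le_sub {x : ℕ} {v : Vn p n} (hv : v ∈ Nx p n x) (hx : x ≤ n) :
    (rp v).natDegree ≤ n - x := by
  rw [natDegree_le_iff_coeff_eq_zero]
  intro k hk
  rcases Nat.lt_or_ge n k with hkn | hkn
  · exact coeff_rp_zero v hkn
  · have h1 := coeff_rp_sla hv S (i := n - k) (by omega)
    rw [rp_sla, coeff_slashM, Finset.sum_eq_single k] at h1
    · have h2 : slR n ((S : G).1.map (Int.cast : ℤ → ZMod p)) (n - k) k = (-1) ^ k := by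
        unfold slR
        have h0 : ((S : G).1.map (Int.cast : ℤ → ZMod p)) = !![0, -1; 1, 0] := by
          ext i j
          fin_cases i <;> fin_cases j <;> simp [S]
        rw [h0]
        simp only [Matrix.of_apply, Matrix.cons_val', Matrix.cons_val_zero, Matrix.cons_val_one,
          Matrix.cons_val_fin_one, map_one, map_zero, one_mul, zero_mul, zero_add, add_zero]
        rw [← C_pow, coeff_C_mul, coeff_X_pow, if_pos rfl, mul_one]
      rw [h2] at h1
      exact (mul_eq_zero.1 h1).resolve_left (pow_ne_zero _ (neg_ne_zero.2 one_ne_zero))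
    · intro j hj hjk
      have hj' : j ≤ n := Nat.lt_succ_iff.1 (Finset.mem_range.1 hj)
      have h2 : slR n ((S : G).1.map (Int.cast : ℤ → ZMod p)) (n - k) j = 0 := by
        unfold slR
        have h0 : ((S : G).1.map (Int.cast : ℤ → ZMod p)) = !![0, -1; 1, 0] := by
          ext i j
          fin_cases i <;> fin_cases j <;> simp [S]
        rw [h0]
        simp only [Matrix.of_apply, Matrix.cons_val', Matrix.cons_val_zero, Matrix.cons_val_one,
          Matrix.cons_val_fin_one, map_one, map_zero, one_mul, zero_mul, zero_add, add_zero]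
        rw [← C_pow, coeff_C_mul, coeff_X_pow, if_neg (by omega), mul_zero]
      rw [h2, zero_mul]
    · intro h
      exact absurd (Finset.mem_range.2 (Nat.lt_succ_of_le hkn)) h

/-! ### the count -/

/-- `∏_a (X - a)^x` -/
def DD (p : ℕ) [Fact p.Prime] (x : ℕ) : (ZMod p)[X] := ∏ a : ZMod p, (X - C a) ^ x

lemma monic_DD (x : ℕ) : (DD p x).Monic :=
  monic_prod_of_monic _ _ fun a _ => (monic_X_sub_C a).pow x

lemma natDegree_DD (x : ℕ) : (DD p x).natDegree = p * x := by
  unfold DD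
  rw [natDegree_prod_of_monic _ _ fun a _ => (monic_X_sub_C a).pow x]
  simp [natDegree_pow, ZMod.card]

lemma DD_dvd_rp {x : ℕ} {v : Vn p n} (hv : v ∈ Nx p n x) : DD p x ∣ rp v := by
  refine Finset.prod_dvd_of_coprime ?_ fun a _ => pow_dvd_rp hv a
  intro a _ b _ hab
  exact (pairwise_coprime_X_sub_C (s := (id : ZMod p → ZMod p)) Function.injective_id hab).pow

/-- the multiples of `DD` of small degree -/
def CD (p : ℕ) [Fact p.Prime] (x m : ℕ) : AddSubgroup (ZMod p)[X] :=
  (degreeLT (ZMod p) m).toAddSubgroup.map (AddMonoidHom.mulLeft (DD p x))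

lemma card_CD (x m : ℕ) : Finite (CD p x m) ∧ Nat.card (CD p x m) ≤ p ^ m := by
  have e : Nat.card (degreeLT (ZMod p) m) = p ^ m := by
    rw [Nat.card_congr (degreeLTEquiv (ZMod p) m).toEquiv, Nat.card_fun, Nat.card_zmod,
      Nat.card_eq_fintype_card, Fintype.card_fin]
  have hf : Finite (degreeLT (ZMod p) m) := Finite.of_equiv _ (degreeLTEquiv (ZMod p) m).symm.toEquiv
  have hs : Function.Surjective (fun w : degreeLT (ZMod p) m =>
      (⟨DD p x * w.1, ⟨w.1, w.2, rfl⟩⟩ : CD p x m)) := by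
    rintro ⟨_, ⟨w, hw, rfl⟩⟩
    exact ⟨⟨w, hw⟩, rfl⟩
  exact ⟨Finite.of_surjective _ hs, (Nat.card_le_card_of_surjective _ hs).trans e.le⟩

lemma rp_mem_CD {x : ℕ} {v : Vn p n} (hv : v ∈ Nx p n x) (hx : x * (p + 1) ≤ n) :
    rp v ∈ CD p x (n + 1 - x * (p + 1)) := by
  obtain ⟨w, hw⟩ := DD_dvd_rp hv
  refine ⟨w, ?_, hw.symm⟩
  show w ∈ degreeLT (ZMod p) _
  rw [mem_degreeLT]
  by_cases h0 : w = 0
  · rw [h0, degree_zero]
    exact WithBot.bot_lt_coe _
  · rw [degree_eq_natDegree h0]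
    have hxn : x ≤ n := le_trans (Nat.le_mul_of_pos_right x (Nat.succ_pos p)) hx
    have h1 := natDegree_rp_le_sub hv hxn
    rw [hw, (monic_DD x).natDegree_mul' h0, natDegree_DD] at h1
    have h2 : x * (p + 1) = p * x + x := by ring
    have h3 : w.natDegree < n + 1 - x * (p + 1) := by omega
    exact_mod_cast h3

/-! ### the chain -/

/-- multiplication by `p^k` -/
def mp (p : ℕ) [Fact p.Prime] (n k : ℕ) : Vn p n →+ Vn p n where
  toFun v := (p : ℤ_[p]) ^ k • v
  map_zero' := smul_zero _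
  map_add' := smul_add _

lemma mp_apply (k : ℕ) (v : Vn p n) : mp p n k v = (p : ℤ_[p]) ^ k • v := rfl

lemma mp_injective (k : ℕ) : Function.Injective (mp p n k) := by
  intro v w h
  funext i
  have h1 := congrFun h i
  rw [mp_apply, mp_apply, Pi.smul_apply, Pi.smul_apply, smul_eq_mul, smul_eq_mul] at h1
  exact mul_left_cancel₀ (pp_ne k) h1

/-- `p^x V` -/
def pV (p : ℕ) [Fact p.Prime] (n x : ℕ) : AddSubgroup (Vn p n) := (mp p n x).range

lemma pV_le (x : ℕ) : pV p n x ≤ Nx p n x := by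
  rintro _ ⟨v, rfl⟩
  exact pow_smul_mem_Nx n x v

lemma map_pV (x : ℕ) : (pV p n x).map (mp p n 1) = pV p n (x + 1) := by
  ext v
  constructor
  · rintro ⟨_, ⟨w, rfl⟩, rfl⟩
    refine ⟨w, ?_⟩
    rw [mp_apply, mp_apply, mp_apply, smul_smul, pow_one, pow_succ']
  · rintro ⟨w, rfl⟩
    refine ⟨_, ⟨w, rfl⟩, ?_⟩
    rw [mp_apply, mp_apply, mp_apply, smul_smul, pow_one, pow_succ']

lemma map_Nx_le (x : ℕ) : (Nx p n x).map (mp p n 1) ≤ Nx p n (x + 1) := by
  rintro _ ⟨v, hv, rfl⟩ g i
  rw [mp_apply, map_smul, Pi.smul_apply, smul_eq_mul, pow_one, pow_succ']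
  exact mul_dvd_mul_left _ (hv g i)

lemma mem_map_Nx {x : ℕ} {v : Vn p n} (hv : v ∈ Nx p n (x + 1)) (h : ∀ i, (p : ℤ_[p]) ∣ v i) :
    v ∈ (Nx p n x).map (mp p n 1) := by
  choose w hw using h
  have hvw : v = mp p n 1 w := by
    funext i
    rw [mp_apply, Pi.smul_apply, pow_one, smul_eq_mul, hw]
  refine ⟨w, fun g i => ?_, hvw.symm⟩
  have h1 := hv g i
  rw [hvw, mp_apply, map_smul, Pi.smul_apply, smul_eq_mul, pow_one, pow_succ'] at h1
  exact (mul_dvd_mul_iff_left (by simpa using pp_ne (p := p) 1)).1 h1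

lemma relIndex_step {x : ℕ} (hx : (x + 1) * (p + 1) ≤ n) :
    ((Nx p n x).map (mp p n 1)).relIndex (Nx p n (x + 1)) ≤
      p ^ (n + 1 - (x + 1) * (p + 1)) := by
  obtain ⟨hf, hc⟩ := card_CD (p := p) (x + 1) (n + 1 - (x + 1) * (p + 1))
  have h1 := relIndex_le_card (H := (Nx p n x).map (mp p n 1)) (M := Nx p n (x + 1))
    (P := ⊤) ((rpH p n).comp (Nx p n (x + 1)).subtype) (fun v => by
      constructor
      · intro h
        exact mem_map_Nx v.2 ((rp_eq_zero_iff _).1 h)
      · rintro ⟨w, _, hw⟩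
        refine (rp_eq_zero_iff _).2 fun i => ?_
        have h2 : (v : Vn p n) i = (p : ℤ_[p]) * w i := by
          rw [← hw, mp_apply, pow_one]
          rfl
        show (p : ℤ_[p]) ∣ (v : Vn p n) i
        rw [h2]
        exact Dvd.intro _ rfl) (CD p (x + 1) (n + 1 - (x + 1) * (p + 1)))
    (fun v _ => rp_mem_CD v.2 hx)
  rw [inf_top_eq] at h1
  exact h1.trans hc

lemma relIndex_pV (x : ℕ) (hx : x * (p + 1) ≤ n) :
    (pV p n x).relIndex (Nx p n x) ≤
      p ^ (∑ j ∈ Finset.range x, (n + 1 - (j + 1) * (p + 1))) := by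
  induction x with
  | zero =>
    have h0 : pV p n 0 = ⊤ := by
      rw [eq_top_iff]
      intro v _
      exact ⟨v, by rw [mp_apply, pow_zero, one_smul]⟩
    rw [h0, AddSubgroup.relIndex_top_left]
    simp
  | succ x ih =>
    have hx' : x * (p + 1) ≤ n := le_trans (Nat.mul_le_mul_right _ (Nat.le_succ x)) hx
    have h1 : (pV p n (x + 1)).relIndex ((Nx p n x).map (mp p n 1)) *
        ((Nx p n x).map (mp p n 1)).relIndex (Nx p n (x + 1)) =
        (pV p n (x + 1)).relIndex (Nx p n (x + 1)) := by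
      refine AddSubgroup.relIndex_mul_relIndex _ _ _ ?_ (map_Nx_le x)
      rw [← map_pV]
      exact AddSubgroup.map_mono (pV_le x)
    rw [← h1, ← map_pV, AddSubgroup.relIndex_map_map_of_injective _ _ (mp_injective 1),
      Finset.sum_range_succ, pow_add]
    exact Nat.mul_le_mul (ih hx') (relIndex_step hx)

lemma index_pV (x : ℕ) : (pV p n x).index = p ^ (x * (n + 1)) := by
  let f : Vn p n →+ (Fin (n + 1) → ZMod (p ^ x)) :=
    { toFun := fun v i => PadicInt.toZModPow x (v i)
      map_zero' := by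
        funext i
        simp
      map_add' := fun v w => by
        funext i
        simp }
  have hk : pV p n x = f.ker := by
    ext v
    constructor
    · rintro ⟨w, rfl⟩
      funext i
      show PadicInt.toZModPow x ((p : ℤ_[p]) ^ x • w i) = 0
      rw [← RingHom.mem_ker, PadicInt.ker_toZModPow, Ideal.mem_span_singleton]
      exact Dvd.intro _ rfl
    · intro h
      have h1 : ∀ i, (p : ℤ_[p]) ^ x ∣ v i := by
        intro i
        have h2 := congrFun h i
        change PadicInt.toZModPow x (v i) = 0 at h2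
        rwa [← RingHom.mem_ker, PadicInt.ker_toZModPow, Ideal.mem_span_singleton] at h2
      choose w hw using h1
      refine ⟨w, ?_⟩
      funext i
      rw [mp_apply, Pi.smul_apply, smul_eq_mul, hw]
  have hs : Function.Surjective f := by
    intro w
    choose u hu using fun i => ZMod.ringHom_surjective (PadicInt.toZModPow (p := p) x) (w i)
    exact ⟨u, funext hu⟩
  rw [hk, AddSubgroup.index_ker, AddMonoidHom.range_eq_top.2 hs,
    Nat.card_congr AddSubgroup.topEquiv.toEquiv, Nat.card_fun, Nat.card_zmod,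
    Nat.card_eq_fintype_card, Fintype.card_fin, pow_mul]

/-- **The lower bound.** -/
theorem index_Nx_ge {x : ℕ} (hx : x * (p + 1) ≤ n) :
    p ^ ((p + 1) * (x * (x + 1) / 2)) ≤ (Nx p n x).index := by
  have hp : 0 < p := (Fact.out : p.Prime).pos
  have h1 : (pV p n x).relIndex (Nx p n x) * (Nx p n x).index = (pV p n x).index :=
    AddSubgroup.relIndex_mul_index (pV_le x)
  have h2 := relIndex_pV (p := p) (n := n) x hx
  rw [index_pV] at h1
  set E := ∑ j ∈ Finset.range x, (n + 1 - (j + 1) * (p + 1)) with hE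
  have h3 : E + (p + 1) * (x * (x + 1) / 2) = x * (n + 1) := by
    have h4 : ∀ y : ℕ, y * (p + 1) ≤ n →
        2 * (∑ j ∈ Finset.range y, (n + 1 - (j + 1) * (p + 1))) + (p + 1) * (y * (y + 1)) =
          2 * (y * (n + 1)) := by
      intro y
      induction y with
      | zero => simp
      | succ y ih =>
        intro hy
        have hy' : y * (p + 1) ≤ n := le_trans (Nat.mul_le_mul_right _ (Nat.le_succ y)) hy
        have h5 := ih hy'
        rw [Finset.sum_range_succ]
        obtain ⟨m, hm⟩ := Nat.exists_eq_add_of_le (hy.trans (Nat.le_succ n))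
        have h6 : n + 1 - (y + 1) * (p + 1) = m := by omega
        rw [h6]
        have h7 : (p + 1) * ((y + 1) * (y + 1 + 1)) = (p + 1) * (y * (y + 1)) +
          2 * ((y + 1) * (p + 1)) := by ring
        have h8 : 2 * ((y + 1) * (n + 1)) = 2 * (y * (n + 1)) + 2 * (n + 1) := by ring
        have h9 : n + 1 = (y + 1) * (p + 1) + m := hm
        rw [h7, h8]
        omega
    have h5 := h4 x hx
    have h6 : 2 * ((p + 1) * (x * (x + 1) / 2)) = (p + 1) * (x * (x + 1)) := by
      have : 2 * (x * (x + 1) / 2) = x * (x + 1) :=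
        Nat.mul_div_cancel' (Nat.even_mul_succ_self x).two_dvd
      calc 2 * ((p + 1) * (x * (x + 1) / 2)) = (p + 1) * (2 * (x * (x + 1) / 2)) := by ring
        _ = _ := by rw [this]
    omega
  have h4 : p ^ E * p ^ ((p + 1) * (x * (x + 1) / 2)) ≤ p ^ E * (Nx p n x).index := by
    rw [← pow_add, h3, ← h1]
    exact Nat.mul_le_mul_right _ h2
  exact Nat.le_of_mul_le_mul_left h4 (pow_pos hp E)

end Gouvea.P5.One
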