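import Pool.Agent.Work.MP_d3517d_nt.P5.OneGE
import Pool.Agent.Work.MP_d3517d_nt.P5.OneCD
import Pool.Agent.Work.MP_d3517d_nt.P5.OneAmb
import Pool.Agent.Work.MP_d3517d_nt.Fin.Source
import Pool.Agent.Work.MP_d3517d_nt.Fin.Source9

/-!
# P5, level one, `p = 2, 3`: the Newton function of `T_p` (MP_d3517d_nt)
-/

open Polynomial Finset Filter Topology Module

noncomputable section

namespace Gouvea.P5

open Pool.Agent Pool.Agent.Gouv Gouvea.Sys Gouvea.PX Gouvea.P5.One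

variable {p : ℕ} [hp : Fact p.Prime]

/-- The index of the symbols of level one with values in `N_x`. -/
theorem hCD_one (hp23 : p = 2 ∨ p = 3) :
    ∃ C : ℝ, ∀ n : ℕ, Even n → ∀ x : ℕ, (x : ℝ) * (p + 1) ≤ n →
      |Real.logb p ((AXx p 1 1 n x).toAddSubgroup.index) - ((p : ℝ) + 1) * (x : ℝ) ^ 2 / 12| ≤
        C * ((n : ℝ) + 1) := by
  refine ⟨4, fun n hn x hx => ?_⟩
  have h1 : x * (p + 1) ≤ n := by exact_mod_cast hx
  have := abs_logb_AXx_one hp23 hn h1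
  linarith

/-- **The Newton function of `T_p` on the symbols of level one**, `p = 2, 3`. -/
theorem ge_one_23 (hp23 : p = 2 ∨ p = 3) (j : algebraicClosure ℚ ℂ →+* PadicAlgCl p) :
    ∀ η : ℝ, 0 < η → ∃ E : Set ℕ, D0 E ∧ ∀ n ∉ E, Even n →
      ∀ [Module.Finite ℤ_[p] (Sym ℤ_[p] 1 1 n)] [Module.Free ℤ_[p] (Sym ℤ_[p] 1 1 n)],
      ∀ x : ℕ, (x : ℝ) * (p + 1) ≤ n →
        |GE (rhoN ℤ_[p] 1 1 n (one_dvd 1) (Xp p)) x - ((p : ℝ) + 1) * (x : ℝ) ^ 2 / 12| ≤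
          η * ((n : ℝ) + 1) ^ 2 := by
  have hA0 : ∀ q ∈ (∅ : Set Nat.Primes), (q : ℕ) ≠ p := fun q hq => absurd hq (by simp)
  have hc0 : ∀ q ∈ (∅ : Set Nat.Primes), ‖(fun _ => 0 : Nat.Primes → PadicAlgCl p) q‖ ≤ 1 :=
    fun q hq => absurd hq (by simp)
  rcases hp23 with h | h
  · have : NeZero 9 := ⟨by norm_num⟩
    have hp9 : ¬ p ∣ 9 := by
      rw [h]
      norm_num
    exact ge_one hp9 (fun η hη => ambK j (by norm_num) (dvd_refl 9) (Or.inr (dvd_refl 9))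
      (fun _ => 0) (Fin.apx_bet9 j 9 (dvd_refl 9) hp9 hA0 hc0) hη) (hCD_one (Or.inl h))
  · have : NeZero 4 := ⟨by norm_num⟩
    have hp4 : ¬ p ∣ 4 := by
      rw [h]
      norm_num
    have hp2 : p ≠ 2 := by omega
    exact ge_one hp4 (fun η hη => ambK j (by norm_num) (dvd_refl 4) (Or.inl (dvd_refl 4))
      (fun _ => 0) (Fin.apx_bet j hp2 4 (dvd_refl 4) hp4 hA0 hc0) hη) (hCD_one (Or.inr h))

end Gouvea.P5
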