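import Pool.Agent.Work.MP_d3517d_nt.P5.Defs

/-!
# Level one, `p = 2, 3`: only one residual class (MP_d3517d_nt, package P5)

`eig_one`: for `p ∈ {2, 3}`, `n` even and a field `k` of characteristic `p`, every common
eigenvector of the `T_l`, `l ≠ p`, in `Sym k 1 1 n` has `T_l = 1 + l`.

Proof. `φ(x, y)` is a polynomial of degree `≤ n`; `ψ(x, y)` = its coefficient at `X^n`. If `ψ ≠ 0`,
then `ψ` is invariant under `Γ₀(p)`, which is generated by parabolic elements (`p ≤ 3`), hence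
`ψ(x, y) = f(y) - f(x)` where `f(u/v)` only depends on `p ∣ v`, and `T_l ψ = (l + 1) ψ`. If `ψ = 0`,
then all values vanish on the prime field, `φ = (X^p - X) φ'` with `φ'` of weight `n - p - 1`
and `T_l φ = l (X^p - X) T_l φ'`; induction.
-/

open Polynomial Finset Matrix

noncomputable section

namespace Gouvea.P5.OneC

open Gouvea.PX
open Gouvea.PS (slk slk_apply slk_one slk_mul slk_smul slk_neg slk_map map_cast_mul)

/-! ### Polynomials -/

section Poly

variable {k : Type} [CommRing k]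

lemma slashM_mul_poly {m n : ℕ} (M : Matrix (Fin 2) (Fin 2) k) {f g : k[X]}
    (hf : f.natDegree ≤ m) (hg : g.natDegree ≤ n) :
    slashM (m + n) M (f * g) = slashM m M f * slashM n M g := by
  rw [slashM_eq, slashM_eq, slashM_eq, homogenize_mul f g hf hg, map_mul]

/-- the coefficient of `X^n` in `f | M` -/
lemma coeff_slashM_top (n : ℕ) (M : Matrix (Fin 2) (Fin 2) k) (f : k[X]) :
    (slashM n M f).coeff n =
      ∑ j ∈ range (n + 1), f.coeff j * (M 0 0 ^ j * M 1 0 ^ (n - j)) := by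
  rw [slashM_apply, finsetSum_coeff]
  refine Finset.sum_congr rfl fun j hj => ?_
  have hj' : j ≤ n := Nat.lt_succ_iff.1 (mem_range.1 hj)
  rw [coeff_C_mul]
  congr 1
  have h1 : ∀ a b : k, (C a * X + C b).natDegree ≤ 1 := fun a b => natDegree_linear_le
  have h2 : ∀ a b : k, (C a * X + C b).coeff 1 = a := fun a b => by simp
  have e1 : ((C (M 0 0) * X + C (M 0 1)) ^ j).natDegree ≤ j := by
    simpa using natDegree_pow_le_of_le j (h1 (M 0 0) (M 0 1))
  have e2 : ((C (M 1 0) * X + C (M 1 1)) ^ (n - j)).natDegree ≤ n - j := by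
    simpa using natDegree_pow_le_of_le (n - j) (h1 (M 1 0) (M 1 1))
  have e3 := coeff_mul_add_eq_of_natDegree_le e1 e2
  rw [Nat.add_sub_cancel' hj'] at e3
  rw [e3]
  have e4 := coeff_pow_of_natDegree_le (m := j) (h1 (M 0 0) (M 0 1))
  have e5 := coeff_pow_of_natDegree_le (m := n - j) (h1 (M 1 0) (M 1 1))
  rw [mul_one, h2] at e4 e5
  rw [e4, e5]

lemma coeff_slashM_zero (n : ℕ) {M : Matrix (Fin 2) (Fin 2) k} (hM : M 1 0 = 0) (f : k[X]) :
    (slashM n M f).coeff n = M 0 0 ^ n * f.coeff n := by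
  rw [coeff_slashM_top, Finset.sum_eq_single n]
  · rw [Nat.sub_self, pow_zero, mul_one, mul_comm]
  · intro j hj hjn
    have : n - j ≠ 0 := by
      have := mem_range.1 hj
      omega
    rw [hM, zero_pow this, mul_zero, mul_zero]
  · intro h
    exact absurd (self_mem_range_succ n) h

lemma coeff_slashM_eval (n : ℕ) {M : Matrix (Fin 2) (Fin 2) k} (hM : M 1 0 = 1) {f : k[X]}
    (hf : f.natDegree ≤ n) : (slashM n M f).coeff n = f.eval (M 0 0) := by
  rw [coeff_slashM_top, eval_eq_sum_range' (Nat.lt_succ_of_le hf)]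
  refine Finset.sum_congr rfl fun j _ => ?_
  rw [hM, one_pow, mul_one]

/-- the polynomial with given coefficients -/
def pl {n : ℕ} (f : Fin (n + 1) → k) : k[X] := ∑ i : Fin (n + 1), C (f i) * X ^ (i : ℕ)

lemma pl_coeff {n : ℕ} (f : Fin (n + 1) → k) (i : Fin (n + 1)) : (pl f).coeff i = f i := by
  rw [pl, finsetSum_coeff, Finset.sum_eq_single i]
  · simp
  · intro j _ hj
    rw [coeff_C_mul, coeff_X_pow, if_neg (fun h => hj (Fin.ext h.symm)), mul_zero]
  · intro h
    exact absurd (mem_univ _) h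

lemma pl_natDegree {n : ℕ} (f : Fin (n + 1) → k) : (pl f).natDegree ≤ n := by
  refine natDegree_sum_le_of_forall_le _ _ fun i _ => ?_
  exact (natDegree_C_mul_X_pow_le _ _).trans (Nat.lt_succ_iff.1 i.2)

lemma poly_ext {n : ℕ} {f g : k[X]} (hf : f.natDegree ≤ n) (hg : g.natDegree ≤ n)
    (h : ∀ i : Fin (n + 1), f.coeff i = g.coeff i) : f = g := by
  ext i
  by_cases hi : i < n + 1
  · exact h ⟨i, hi⟩
  · rw [coeff_eq_zero_of_natDegree_lt (lt_of_le_of_lt hf (by omega)),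
      coeff_eq_zero_of_natDegree_lt (lt_of_le_of_lt hg (by omega))]

lemma pl_mulVec {n : ℕ} (M : Matrix (Fin 2) (Fin 2) k) (f : Fin (n + 1) → k) :
    pl ((slk n M).mulVec f) = slashM n M (pl f) := by
  refine poly_ext (pl_natDegree _) (natDegree_slashM_le n M _) fun i => ?_
  rw [pl_coeff, Gouvea.PS.coeff_slashM_eq]
  congr 1
  congr 1
  funext j
  exact (pl_coeff f j).symm

lemma pl_add {n : ℕ} (f g : Fin (n + 1) → k) : pl (f + g) = pl f + pl g := by
  simp [pl, add_mul, Finset.sum_add_distrib]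

lemma pl_zero {n : ℕ} : pl (0 : Fin (n + 1) → k) = 0 := by simp [pl]

lemma pl_smul {n : ℕ} (a : k) (f : Fin (n + 1) → k) : pl (a • f) = C a * pl f := by
  simp [pl, Finset.mul_sum, mul_assoc]

lemma pl_inj {n : ℕ} {f g : Fin (n + 1) → k} (h : pl f = pl g) : f = g := by
  funext i
  rw [← pl_coeff f i, h, pl_coeff]

end Poly

/-! ### Cusps -/

section Cusps

/-- the cusp `u/v` of level one -/
def mk1 (u v : ℤ) (h : u ≠ 0 ∨ v ≠ 0) : Cusp 1 :=
  Cusp.mk u v (by rw [Nat.cast_one]; exact isCoprime_one_right) (by rw [Nat.cast_one]; exact one_dvd v) h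

lemma mk1_eq {u v u' v' : ℤ} {h : u ≠ 0 ∨ v ≠ 0} {h' : u' ≠ 0 ∨ v' ≠ 0} :
    mk1 u v h = mk1 u' v' h' ↔ u * v' = u' * v := Cusp.mk_eq

lemma mk1_inf (h : (1 : ℤ) ≠ 0 ∨ (0 : ℤ) ≠ 0) : mk1 1 0 h = PX.inf 1 := rfl

lemma smul_mk1 (g : SN 1) (u v : ℤ) (h : u ≠ 0 ∨ v ≠ 0) :
    g • mk1 u v h = mk1 (g.1 0 0 * u + g.1 0 1 * v) (g.1 1 0 * u + g.1 1 1 * v)
      (smul_ne g.2.1 h) := rfl

/-- every cusp is `u/v` with coprime `u, v` -/
lemma exists_mk1 (x : Cusp 1) : ∃ (u v : ℤ) (h : u ≠ 0 ∨ v ≠ 0), IsCoprime u v ∧ x = mk1 u v h := by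
  revert x
  refine Cusp.ind' fun u v hu hv hne => ?_
  have hg : (Int.gcd u v : ℤ) ≠ 0 := by
    intro h0
    rw [Int.natCast_eq_zero, Int.gcd_eq_zero_iff] at h0
    rcases hne with h | h
    · exact h h0.1
    · exact h h0.2
  obtain ⟨a, ha⟩ : (Int.gcd u v : ℤ) ∣ u := Int.gcd_dvd_left u v
  obtain ⟨b, hb⟩ : (Int.gcd u v : ℤ) ∣ v := Int.gcd_dvd_right u v
  have hco : IsCoprime a b := by
    have e := Int.gcd_eq_gcd_ab u v
    refine ⟨Int.gcdA u v, Int.gcdB u v, mul_left_cancel₀ hg ?_⟩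
    linear_combination (-e) + Int.gcdA u v * (ha.symm) + Int.gcdB u v * (hb.symm)
  have hab : a ≠ 0 ∨ b ≠ 0 := by
    by_contra hc
    rw [not_or, not_not, not_not] at hc
    rw [hc.1, hc.2] at hco
    obtain ⟨r, s, hrs⟩ := hco
    simp at hrs
  refine ⟨a, b, hab, hco, ?_⟩
  show mk1 u v hne = mk1 a b hab
  rw [mk1_eq]
  linear_combination (b : ℤ) * ha - a * hb

lemma bal (u v : ℤ) (hv : v ≠ 0) : ∃ t : ℤ, 2 * |u + t * v| ≤ |v| := by
  have h1 := Int.emod_nonneg u (abs_ne_zero.2 hv)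
  have h2 := Int.emod_lt_of_pos u (abs_pos.2 hv)
  have h3 := Int.emod_add_mul_ediv u |v|
  obtain ⟨s, hs⟩ : ∃ s : ℤ, |v| = s * v := by
    rcases abs_choice v with h | h
    · exact ⟨1, by rw [h, one_mul]⟩
    · exact ⟨-1, by rw [h]; ring⟩
  by_cases h : 2 * (u % |v|) ≤ |v|
  · refine ⟨-(u / |v|) * s, ?_⟩
    have : u + -(u / |v|) * s * v = u % |v| := by
      have e : |v| * (u / |v|) = (u / |v|) * s * v := by rw [mul_assoc, ← hs]; ring
      linear_combination e - h3
    rw [this, abs_of_nonneg h1]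
    exact h
  · refine ⟨-(u / |v|) * s - s, ?_⟩
    have : u + (-(u / |v|) * s - s) * v = u % |v| - |v| := by
      have e : |v| * (u / |v|) = (u / |v|) * s * v := by rw [mul_assoc, ← hs]; ring
      linear_combination e - h3 + hs
    rw [this, abs_of_nonpos (by linarith)]
    linarith

/-- `(1 t; 0 1)` and `(1 0; s 1)` -/
def Tm (t : ℤ) : SN 1 := ⟨!![1, t; 0, 1], by
  refine ⟨by rw [det_fin_two_of]; norm_num, ?_, ?_⟩
  · show IsCoprime (1 : ℤ) ((1 : ℕ) : ℤ)
    exact isCoprime_one_left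
  · rw [Nat.cast_one]; exact one_dvd _⟩

def Lm (s : ℤ) : SN 1 := ⟨!![1, 0; s, 1], by
  refine ⟨by rw [det_fin_two_of]; norm_num, ?_, ?_⟩
  · show IsCoprime (1 : ℤ) ((1 : ℕ) : ℤ)
    exact isCoprime_one_left
  · rw [Nat.cast_one]; exact one_dvd _⟩

variable {A : Type} [AddCommGroup A]

/-- An additive function on pairs of cusps, invariant under the matrices `(1 t; 0 1)`,
`(1 0; p s 1)`, `p ≤ 3`, is a boundary symbol. -/
theorem boundary {p : ℕ} (hp : p.Prime) (hp3 : p ≤ 3) (ψ : Cusp 1 → Cusp 1 → A)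
    (hadd : ∀ x y z, ψ x y + ψ y z = ψ x z)
    (hT : ∀ t x y, ψ (Tm t • x) (Tm t • y) = ψ x y)
    (hL : ∀ s x y, ψ (Lm (p * s) • x) (Lm (p * s) • y) = ψ x y) :
    ∃ c : A, ∀ (u v : ℤ) (h : u ≠ 0 ∨ v ≠ 0), ¬ ((p : ℤ) ∣ u ∧ (p : ℤ) ∣ v) →
      ψ (PX.inf 1) (mk1 u v h) = if (p : ℤ) ∣ v then 0 else c := by
  have hz : ∀ x, ψ x x = 0 := fun x => by
    have := hadd x x x
    simpa using this
  have hanti : ∀ x y, ψ x y = - ψ y x := fun x y => by
    rw [eq_neg_iff_add_eq_zero, hadd, hz]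
  set f : Cusp 1 → A := fun x => ψ (PX.inf 1) x with hf
  have hTi : ∀ t, Tm t • PX.inf 1 = PX.inf 1 := fun t => by
    show Tm t • mk1 1 0 (Or.inl one_ne_zero) = mk1 1 0 (Or.inl one_ne_zero)
    rw [smul_mk1, mk1_eq]
    simp [Tm]
  have hL0 : ∀ s, Lm s • mk1 0 1 (Or.inr one_ne_zero) = mk1 0 1 (Or.inr one_ne_zero) := fun s => by
    rw [smul_mk1, mk1_eq]
    simp [Lm]
  have f1 : ∀ t x, f (Tm t • x) = f x := fun t x => by
    show ψ (PX.inf 1) (Tm t • x) = ψ (PX.inf 1) x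
    conv_lhs => rw [← hTi t]
    exact hT t _ _
  have f2 : ∀ s x, f (Lm (p * s) • x) = f x := fun s x => by
    show ψ (PX.inf 1) (Lm (p * s) • x) = ψ (PX.inf 1) x
    rw [← hadd (PX.inf 1) (Lm (p * s) • PX.inf 1) (Lm (p * s) • x), hL,
      ← hadd (PX.inf 1) (mk1 0 1 (Or.inr one_ne_zero)) (Lm (p * s) • PX.inf 1)]
    conv_lhs => rw [← hL0 (p * s)]
    rw [hL, hL0, hadd, hz, zero_add]
  have g1 : ∀ (t u v : ℤ) (h : u ≠ 0 ∨ v ≠ 0) (h' : u + t * v ≠ 0 ∨ v ≠ 0),
      f (mk1 (u + t * v) v h') = f (mk1 u v h) := fun t u v h h' => by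
    rw [← f1 t (mk1 u v h), smul_mk1]
    congr 1
    rw [mk1_eq]
    simp [Tm]
  have g2 : ∀ (s u v : ℤ) (h : u ≠ 0 ∨ v ≠ 0) (h' : u ≠ 0 ∨ v + s * (p * u) ≠ 0),
      f (mk1 u (v + s * (p * u)) h') = f (mk1 u v h) := fun s u v h h' => by
    rw [← f2 s (mk1 u v h), smul_mk1]
    congr 1
    rw [mk1_eq]
    show u * ((p * s : ℤ) * u + 1 * v) = (1 * u + 0 * v) * (v + s * (p * u))
    ring
  -- coprime pairs
  have main : ∀ (N : ℕ) (u v : ℤ) (h : u ≠ 0 ∨ v ≠ 0), v.natAbs ≤ N → IsCoprime u v →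
      f (mk1 u v h) = if (p : ℤ) ∣ v then 0 else f (mk1 0 1 (Or.inr one_ne_zero)) := by
    have hp1 : ¬ ((p : ℤ) ∣ 1) := by
      intro h
      have := Int.natAbs_dvd_natAbs.2 h
      simp at this
      exact hp.one_lt.ne' this
    intro N
    induction N with
    | zero =>
      intro u v h hv hco
      have hv0 : v = 0 := by simpa using hv
      subst hv0
      rw [if_pos (dvd_zero _)]
      have hu : u ≠ 0 := by simpa using h
      have : mk1 u 0 h = PX.inf 1 := by
        rw [← mk1_inf (Or.inl one_ne_zero), mk1_eq]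
        simp
      rw [this]
      exact hz _
    | succ N ih =>
      intro u v h hv hco
      by_cases hv0 : v = 0
      · exact ih u v h (by rw [hv0]; simp) hco
      obtain ⟨t, ht⟩ := bal u v hv0
      have hco' : IsCoprime (u + t * v) v := hco.add_mul_right_left t
      have e1 := g1 t u v h (Or.inr hv0)
      rw [← e1]
      by_cases hu' : u + t * v = 0
      · rw [hu'] at hco'
        have hun : IsUnit v := isCoprime_zero_left.1 hco'
        have hnd : ¬ ((p : ℤ) ∣ v) := fun hd => hp1 ((hd.trans hun.dvd))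
        rw [if_neg hnd]
        congr 1
        rw [mk1_eq, hu']
        simp
      · obtain ⟨s, hs⟩ := bal v (p * (u + t * v)) (mul_ne_zero (by exact_mod_cast hp.ne_zero) hu')
        have e2 := g2 s (u + t * v) v (Or.inr hv0) (Or.inl hu')
        rw [← e2]
        have hlt : (v + s * (p * (u + t * v))).natAbs ≤ N := by
          have h1 : |v + s * (p * (u + t * v))| < |v| := by
            have h2 : |(p : ℤ) * (u + t * v)| = p * |u + t * v| := by
              rw [abs_mul, Nat.abs_cast]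
            rw [h2] at hs
            have h3 : (p : ℤ) ≤ 3 := by exact_mod_cast hp3
            have h4 : (p : ℤ) * |u + t * v| ≤ 3 * |u + t * v| :=
              mul_le_mul_of_nonneg_right h3 (abs_nonneg _)
            have h5 := abs_pos.2 hv0
            linarith
          have h6 : ((v + s * (p * (u + t * v))).natAbs : ℤ) < (v.natAbs : ℤ) := by
            rw [Int.natCast_natAbs, Int.natCast_natAbs]
            exact h1
          omega
        have hco2 : IsCoprime (u + t * v) (v + s * (p * (u + t * v))) := by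
          rw [← mul_assoc]
          exact hco'.add_mul_right_right (s * p)
        rw [ih _ _ _ hlt hco2]
        have hiff : ((p : ℤ) ∣ v + s * (p * (u + t * v))) ↔ (p : ℤ) ∣ v :=
          dvd_add_left ((dvd_mul_right _ _).mul_left _)
        simp only [hiff]
  refine ⟨f (mk1 0 1 (Or.inr one_ne_zero)), fun u v h hd => ?_⟩
  obtain ⟨a, b, hab, hco, hx⟩ := exists_mk1 (mk1 u v h)
  show f (mk1 u v h) = _
  rw [hx, main b.natAbs a b hab le_rfl hco]
  have hiff : ((p : ℤ) ∣ b) ↔ (p : ℤ) ∣ v := by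
    rw [mk1_eq] at hx
    have hp' : Prime (p : ℤ) := Nat.prime_iff_prime_int.1 hp
    constructor
    · intro hb
      have h1 : (p : ℤ) ∣ a * v := by rw [← hx]; exact hb.mul_left _
      rcases hp'.dvd_or_dvd h1 with h2 | h2
      · exact absurd (hco.isUnit_of_dvd' h2 hb) hp'.not_isUnit
      · exact h2
    · intro hv
      have h1 : (p : ℤ) ∣ u * b := by rw [hx]; exact hv.mul_left _
      rcases hp'.dvd_or_dvd h1 with h2 | h2
      · exact absurd ⟨h2, hv⟩ hd
      · exact h2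
  simp only [hiff]

end Cusps

/-! ### The induction -/

section Main

variable {k : Type} [Field k] {p : ℕ} [Fact p.Prime] [CharP k p]

/-- polynomial valued symbols of level one -/
structure IsSymP (n : ℕ) (Φ : Cusp 1 → Cusp 1 → k[X]) : Prop where
  deg : ∀ x y, (Φ x y).natDegree ≤ n
  add : ∀ x y z, Φ x y + Φ y z = Φ x z
  inv : ∀ g : SN 1, g.1.det = 1 → ∀ x y,
    slashM n (g.1.map (Int.cast : ℤ → k)) (Φ (g • x) (g • y)) = Φ x y

/-- `T_l` on polynomial valued symbols -/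
def heckeP (n l : ℕ) (Φ : Cusp 1 → Cusp 1 → k[X]) (x y : Cusp 1) : k[X] :=
  (∑ b ∈ range l, slashM n ((upS 1 1 b l).1.map (Int.cast : ℤ → k))
    (Φ (upS 1 1 b l • x) (upS 1 1 b l • y))) +
  slashM n ((upS 1 l 0 1).1.map (Int.cast : ℤ → k)) (Φ (upS 1 l 0 1 • x) (upS 1 l 0 1 • y))

lemma upS_val {a b d : ℤ} (had : a * d ≠ 0) : (upS 1 a b d).1 = !![a, b; 0, d] :=
  upS_coe (by rw [Nat.cast_one]; exact isCoprime_one_right) had

variable (k) in
lemma sq_one (hp : p = 2 ∨ p = 3) {l : ℕ} (hl : ¬ p ∣ l) : (l : k) ^ 2 = 1 := by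
  rcases hp with rfl | rfl
  · obtain ⟨m, rfl⟩ : ∃ m, l = 2 * m + 1 := ⟨l / 2, by omega⟩
    have h2 : ((2 : ℕ) : k) = 0 := CharP.cast_eq_zero k 2
    push_cast at h2 ⊢
    linear_combination (2 * (m : k) ^ 2 + 2 * m) * h2
  · have h3 : ((3 : ℕ) : k) = 0 := CharP.cast_eq_zero k 3
    push_cast at h3
    obtain ⟨m, hm⟩ : ∃ m, l = 3 * m + 1 ∨ l = 3 * m + 2 := ⟨l / 3, by omega⟩
    rcases hm with rfl | rfl
    · push_cast
      linear_combination (3 * (m : k) ^ 2 + 2 * m) * h3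
    · push_cast
      linear_combination (3 * (m : k) ^ 2 + 4 * m + 1) * h3

variable (k) in
lemma pow_eq_one (hp : p = 2 ∨ p = 3) {n : ℕ} (hn : p = 2 ∨ Even n) {l : ℕ} (hl : ¬ p ∣ l) :
    (l : k) ^ n = 1 := by
  rcases hn with rfl | ⟨m, rfl⟩
  · obtain ⟨m, rfl⟩ : ∃ m, l = 2 * m + 1 := ⟨l / 2, by omega⟩
    have h2 : ((2 : ℕ) : k) = 0 := CharP.cast_eq_zero k 2
    have : ((2 * m + 1 : ℕ) : k) = 1 := by
      push_cast at h2 ⊢
      linear_combination (m : k) * h2
    rw [this, one_pow]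
  · rw [← two_mul, pow_mul, sq_one k hp hl, one_pow]

/-- the case of a nonzero leading coefficient -/
lemma eig_top (hp : p = 2 ∨ p = 3) {n : ℕ} (hn : p = 2 ∨ Even n)
    {Φ : Cusp 1 → Cusp 1 → k[X]} (hΦ : IsSymP n Φ) {x₀ y₀ : Cusp 1}
    (hne : (Φ x₀ y₀).coeff n ≠ 0) {l : ℕ} (hl : l.Prime) (hlp : l ≠ p) {a : k}
    (ha : ∀ x y, heckeP n l Φ x y = C a * Φ x y) : a = 1 + l := by
  have hpp : p.Prime := Fact.out
  have hp3 : p ≤ 3 := by rcases hp with rfl | rfl <;> norm_num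
  have hpl : ¬ p ∣ l := fun h => hlp ((Nat.prime_dvd_prime_iff_eq hpp hl).1 h).symm
  have hpI : Prime (p : ℤ) := Nat.prime_iff_prime_int.1 hpp
  set ψ : Cusp 1 → Cusp 1 → k := fun x y => (Φ x y).coeff n with hψ
  have hadd : ∀ x y z, ψ x y + ψ y z = ψ x z := fun x y z => by
    show (Φ x y).coeff n + (Φ y z).coeff n = (Φ x z).coeff n
    rw [← coeff_add, hΦ.add]
  have key : ∀ g : SN 1, g.1.det = 1 → ((g.1 1 0 : ℤ) : k) = 0 → g.1 0 0 = 1 → ∀ x y,
      ψ (g • x) (g • y) = ψ x y := by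
    intro g hg h10 h00 x y
    show (Φ (g • x) (g • y)).coeff n = (Φ x y).coeff n
    rw [← hΦ.inv g hg x y, coeff_slashM_zero n (M := g.1.map (Int.cast : ℤ → k)) h10,
      Matrix.map_apply, h00, Int.cast_one, one_pow, one_mul]
  have hT : ∀ t x y, ψ (Tm t • x) (Tm t • y) = ψ x y := fun t =>
    key (Tm t) (by simp [Tm]) (by simp [Tm]) (by simp [Tm])
  have hL : ∀ s x y, ψ (Lm (p * s) • x) (Lm (p * s) • y) = ψ x y := fun s =>
    key (Lm (p * s)) (by simp [Lm]) (by simp [Lm]) (by simp [Lm])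
  obtain ⟨c, hc⟩ := boundary hpp hp3 ψ hadd hT hL
  -- upper triangular matrices
  have hup : ∀ a b d : ℤ, ¬ ((p : ℤ) ∣ a) → ¬ ((p : ℤ) ∣ d) → a * d ≠ 0 → ∀ x,
      ψ (PX.inf 1) (upS 1 a b d • x) = ψ (PX.inf 1) x := by
    intro a b d h1 h2 had x
    obtain ⟨u, v, huv, hco, rfl⟩ := exists_mk1 x
    have e0 := upS_val (b := b) had
    rw [smul_mk1]
    have e1 : (upS 1 a b d).1 0 0 * u + (upS 1 a b d).1 0 1 * v = a * u + b * v := by
      rw [e0]; simp
    have e2 : (upS 1 a b d).1 1 0 * u + (upS 1 a b d).1 1 1 * v = d * v := by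
      rw [e0]; simp
    have hv : (p : ℤ) ∣ d * v → (p : ℤ) ∣ v := fun h => (hpI.dvd_or_dvd h).resolve_left h2
    rw [hc, hc]
    · rw [e2]
      have : ((p : ℤ) ∣ d * v) ↔ (p : ℤ) ∣ v := ⟨hv, fun h => h.mul_left _⟩
      simp only [this]
    · rintro ⟨h3, h4⟩
      exact hpI.not_isUnit (hco.isUnit_of_dvd' h3 h4)
    · rw [e1, e2]
      rintro ⟨h3, h4⟩
      have h5 := hv h4
      have h6 : (p : ℤ) ∣ a * u := (dvd_add_left (h5.mul_left _)).1 h3
      exact hpI.not_isUnit (hco.isUnit_of_dvd' ((hpI.dvd_or_dvd h6).resolve_left h1) h5)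
  have hup2 : ∀ a b d : ℤ, ¬ ((p : ℤ) ∣ a) → ¬ ((p : ℤ) ∣ d) → a * d ≠ 0 → ∀ x y,
      ψ (upS 1 a b d • x) (upS 1 a b d • y) = ψ x y := by
    intro a b d h1 h2 had x y
    have e1 := hadd (PX.inf 1) (upS 1 a b d • x) (upS 1 a b d • y)
    have e2 := hadd (PX.inf 1) x y
    rw [hup a b d h1 h2 had, hup a b d h1 h2 had] at e1
    exact add_left_cancel (e1.trans e2.symm)
  have h1p : ¬ ((p : ℤ) ∣ 1) := fun h => hpI.not_isUnit (isUnit_of_dvd_one h)
  have hlpI : ¬ ((p : ℤ) ∣ (l : ℤ)) := fun h => hpl (Int.natCast_dvd_natCast.1 h)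
  have hl0 : (l : ℤ) ≠ 0 := by exact_mod_cast hl.ne_zero
  have e := congrArg (fun f : k[X] => f.coeff n) (ha x₀ y₀)
  simp only [heckeP, coeff_add, finsetSum_coeff, coeff_C_mul] at e
  have s1 : ∀ b ∈ range l, (slashM n ((upS 1 1 b l).1.map (Int.cast : ℤ → k))
      (Φ (upS 1 1 b l • x₀) (upS 1 1 b l • y₀))).coeff n = ψ x₀ y₀ := by
    intro b _
    have h0 : (1 : ℤ) * l ≠ 0 := by rwa [one_mul]
    rw [coeff_slashM_zero n (by rw [Matrix.map_apply, upS_val h0]; simp), Matrix.map_apply,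
      upS_val h0]
    simp only [of_apply, cons_val', cons_val_zero, cons_val_fin_one, Int.cast_one, one_pow, one_mul]
    exact hup2 1 b l h1p hlpI h0 x₀ y₀
  have s2 : (slashM n ((upS 1 l 0 1).1.map (Int.cast : ℤ → k))
      (Φ (upS 1 l 0 1 • x₀) (upS 1 l 0 1 • y₀))).coeff n = ψ x₀ y₀ := by
    have h0 : (l : ℤ) * 1 ≠ 0 := by rwa [mul_one]
    rw [coeff_slashM_zero n (by rw [Matrix.map_apply, upS_val h0]; simp), Matrix.map_apply,
      upS_val h0]
    simp only [of_apply, cons_val', cons_val_zero, cons_val_fin_one, Int.cast_natCast]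
    rw [pow_eq_one k hp hn hpl, one_mul]
    exact hup2 l 0 1 hlpI h1p h0 x₀ y₀
  rw [Finset.sum_congr rfl s1, s2, Finset.sum_const, card_range, nsmul_eq_mul] at e
  have e' : ((l : k) + 1 - a) * ψ x₀ y₀ = 0 := by
    have : (Φ x₀ y₀).coeff n = ψ x₀ y₀ := rfl
    rw [this] at e
    linear_combination e
  rcases mul_eq_zero.1 e' with h | h
  · linear_combination -h
  · exact absurd h hne

variable (k) in
/-- `X^p - X` -/
def Tp (p : ℕ) : k[X] := X ^ p - X

lemma Tp_natDegree : (Tp k p).natDegree = p :=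
  FiniteField.X_pow_card_sub_X_natDegree_eq k (Fact.out : p.Prime).one_lt

lemma Tp_monic : (Tp k p).Monic :=
  monic_X_pow_sub (by rw [degree_X]; exact_mod_cast (Fact.out : p.Prime).one_lt)

lemma Tp_ne_zero : Tp k p ≠ 0 := Tp_monic.ne_zero

lemma intCast_pow (z : ℤ) : ((z : ℤ) : k) ^ p = z := by
  rw [← frobenius_def, map_intCast]

lemma slashM_Tp (g : Matrix (Fin 2) (Fin 2) ℤ) :
    slashM (p + 1) (g.map (Int.cast : ℤ → k)) (Tp k p) = C ((g.det : ℤ) : k) * Tp k p := by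
  have hp0 : 1 ≤ p + 1 := by omega
  have e1 := slashM_X_pow (p + 1) (g.map (Int.cast : ℤ → k)) p (by omega)
  have e2 := slashM_X_pow (p + 1) (g.map (Int.cast : ℤ → k)) 1 hp0
  rw [pow_one] at e2
  rw [Tp, map_sub, e1, e2, Nat.add_sub_cancel_left, Nat.add_sub_cancel, pow_one, pow_one]
  simp only [Matrix.map_apply]
  rw [add_pow_char, add_pow_char, mul_pow, mul_pow, ← C_pow, ← C_pow, ← C_pow, ← C_pow,
    intCast_pow, intCast_pow, intCast_pow, intCast_pow, det_fin_two]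
  push_cast
  simp only [map_sub, map_mul]
  ring

lemma eval_Tp (z : ℤ) : (Tp k p).eval (z : k) = 0 := by
  rw [Tp, eval_sub, eval_pow, eval_X, intCast_pow, sub_self]

lemma div_Tp {n : ℕ} {F : k[X]} (hF : F.natDegree ≤ n) (hc : F.coeff n = 0)
    (he : ∀ z : ℤ, F.eval (z : k) = 0) :
    F = Tp k p * (F /ₘ Tp k p) ∧ (F ≠ 0 → (F /ₘ Tp k p).natDegree + (p + 1) ≤ n) := by
  have hmod : F %ₘ Tp k p = 0 := by
    have h1 : (F %ₘ Tp k p).natDegree < p := by
      have := natDegree_modByMonic_lt F (Tp_monic (k := k) (p := p)) (by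
        intro h
        have h2 := Tp_natDegree (k := k) (p := p)
        rw [h, natDegree_one] at h2
        exact (Fact.out : p.Prime).ne_zero h2.symm)
      rwa [Tp_natDegree] at this
    refine eq_zero_of_natDegree_lt_card_of_eval_eq_zero (F %ₘ Tp k p)
      (f := fun i : Fin p => ((i : ℕ) : k)) ?_ (fun i => ?_) (by simpa using h1)
    · intro i j hij
      have h2 : ((i : ℕ) : k) = ((j : ℕ) : k) := hij
      have h3 := (CharP.natCast_eq_natCast k p).1 h2
      exact Fin.ext (Nat.ModEq.eq_of_lt_of_lt h3 i.2 j.2)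
    · have h2 := modByMonic_add_div F (Tp k p)
      have h3 := congrArg (fun q : k[X] => q.eval ((i : ℕ) : k)) h2
      simp only [eval_add, eval_mul] at h3
      have h4 := eval_Tp (k := k) (p := p) (i : ℕ)
      have h5 := he (i : ℕ)
      rw [Int.cast_natCast] at h4 h5
      rw [h4, h5, zero_mul, add_zero] at h3
      exact h3
  have hdiv : F = Tp k p * (F /ₘ Tp k p) := by
    conv_lhs => rw [← modByMonic_add_div F (Tp k p), hmod, zero_add]
  refine ⟨hdiv, fun hF0 => ?_⟩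
  have hQ0 : F /ₘ Tp k p ≠ 0 := fun h => hF0 (by rw [hdiv, h, mul_zero])
  have h1 : F.natDegree = p + (F /ₘ Tp k p).natDegree := by
    conv_lhs => rw [hdiv]
    rw [natDegree_mul Tp_ne_zero hQ0, Tp_natDegree]
  have h2 : F.natDegree ≠ n := by
    intro h
    rw [← h] at hc
    exact hF0 (leadingCoeff_eq_zero.1 hc)
  omega

/-- **Level one, characteristic `2` or `3`.** -/
theorem eigP (hp : p = 2 ∨ p = 3) {l : ℕ} (hl : l.Prime) (hlp : l ≠ p) :
    ∀ (n : ℕ) (_ : p = 2 ∨ Even n) (Φ : Cusp 1 → Cusp 1 → k[X]) (_ : IsSymP n Φ)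
      (_ : ∃ x y, Φ x y ≠ 0) (a : k) (_ : ∀ x y, heckeP n l Φ x y = C a * Φ x y), a = 1 + l := by
  have hpp : p.Prime := Fact.out
  have hpl : ¬ p ∣ l := fun h => hlp ((Nat.prime_dvd_prime_iff_eq hpp hl).1 h).symm
  intro n
  induction n using Nat.strong_induction_on with
  | _ n ih =>
    intro hn Φ hΦ hne a ha
    by_cases htop : ∃ x y, (Φ x y).coeff n ≠ 0
    · obtain ⟨x₀, y₀, h0⟩ := htop
      exact eig_top hp hn hΦ h0 hl hlp ha
    push Not at htop
    have heval : ∀ x y (z : ℤ), (Φ x y).eval (z : k) = 0 := by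
      intro x y z
      let g : SN 1 := ⟨!![z, -1; 1, 0], by
        refine ⟨by rw [det_fin_two_of]; norm_num, ?_, ?_⟩
        · rw [Nat.cast_one]; exact isCoprime_one_right
        · rw [Nat.cast_one]; exact one_dvd _⟩
      let g' : SN 1 := ⟨!![0, 1; -1, z], by
        refine ⟨by rw [det_fin_two_of]; norm_num, ?_, ?_⟩
        · rw [Nat.cast_one]; exact isCoprime_one_right
        · rw [Nat.cast_one]; exact one_dvd _⟩
      have hgg : g * g' = 1 := by
        apply Subtype.ext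
        ext i j
        fin_cases i <;> fin_cases j <;> simp [g, g', Matrix.mul_apply, Fin.sum_univ_two]
      have e := hΦ.inv g (by simp [g]) (g' • x) (g' • y)
      rw [← mul_smul, ← mul_smul, hgg, one_smul, one_smul] at e
      have e2 := congrArg (fun f : k[X] => f.coeff n) e
      simp only [htop] at e2
      rw [coeff_slashM_eval n (by simp [g]) (hΦ.deg x y)] at e2
      simpa [g] using e2
    have hdiv := fun x y => div_Tp (p := p) (hΦ.deg x y) (htop x y) (heval x y)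
    obtain ⟨x₀, y₀, hne0⟩ := hne
    obtain ⟨m, hm⟩ : ∃ m, n = (p + 1) + m := ⟨n - (p + 1), by
      have := (hdiv x₀ y₀).2 hne0
      omega⟩
    have hmn : p = 2 ∨ Even m := by
      rcases hn with h | h
      · exact Or.inl h
      · rcases hp with h2 | h3
        · exact Or.inl h2
        · right
          rw [hm, h3] at h
          exact (Nat.even_add.1 h).1 (by decide)
    set Φ' : Cusp 1 → Cusp 1 → k[X] := fun x y => Φ x y /ₘ Tp k p with hΦ'
    have hmul : ∀ x y, Φ x y = Tp k p * Φ' x y := fun x y => (hdiv x y).1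
    have hdeg : ∀ x y, (Φ' x y).natDegree ≤ m := by
      intro x y
      by_cases h0 : Φ x y = 0
      · show (Φ x y /ₘ Tp k p).natDegree ≤ m
        rw [h0, zero_divByMonic, natDegree_zero]
        exact Nat.zero_le _
      · have := (hdiv x y).2 h0
        show (Φ x y /ₘ Tp k p).natDegree ≤ m
        omega
    have hsl : ∀ (g : Matrix (Fin 2) (Fin 2) ℤ) x y,
        slashM n (g.map (Int.cast : ℤ → k)) (Φ x y) =
          Tp k p * (C ((g.det : ℤ) : k) * slashM m (g.map (Int.cast : ℤ → k)) (Φ' x y)) := by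
      intro g x y
      rw [hmul, hm, slashM_mul_poly _ (Tp_natDegree.le.trans (Nat.le_succ p)) (hdeg x y),
        slashM_Tp]
      ring
    have hΦ2 : IsSymP m Φ' := by
      refine ⟨hdeg, fun x y z => ?_, fun g hg x y => ?_⟩
      · apply mul_left_cancel₀ (Tp_ne_zero (k := k) (p := p))
        rw [mul_add, ← hmul, ← hmul, ← hmul, hΦ.add]
      · apply mul_left_cancel₀ (Tp_ne_zero (k := k) (p := p))
        have e := hΦ.inv g hg x y
        rw [hsl, hg, Int.cast_one, map_one, one_mul, hmul x y] at e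
        exact e
    have hlk : (l : k) ≠ 0 := by
      intro h
      exact hpl ((CharP.cast_eq_zero_iff k p l).1 h)
    have hl0 : (l : ℤ) ≠ 0 := by exact_mod_cast hl.ne_zero
    have hh : ∀ x y, heckeP n l Φ x y = Tp k p * (C (l : k) * heckeP m l Φ' x y) := by
      intro x y
      have d1 : ∀ b : ℕ, (upS 1 1 b l).1.det = l := fun b => by
        rw [upS_val (by rwa [one_mul]), det_fin_two_of]; ring
      have d2 : (upS 1 l 0 1).1.det = l := by
        rw [upS_val (by rwa [mul_one]), det_fin_two_of]; ring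
      rw [heckeP, heckeP]
      simp only [hsl, d1, d2, Int.cast_natCast]
      rw [← Finset.mul_sum, ← Finset.mul_sum]
      ring
    have h3 : ∀ x y, heckeP m l Φ' x y = C (a / l) * Φ' x y := by
      intro x y
      have e := ha x y
      rw [hh, hmul x y] at e
      have e2 : C (l : k) * heckeP m l Φ' x y = C a * Φ' x y := by
        apply mul_left_cancel₀ (Tp_ne_zero (k := k) (p := p))
        rw [e]
        ring
      have e3 : C ((l : k)⁻¹) * (C (l : k) * heckeP m l Φ' x y) = C ((l : k)⁻¹) * (C a * Φ' x y) := by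
        rw [e2]
      rw [← mul_assoc, ← C_mul, inv_mul_cancel₀ hlk, C_1, one_mul, ← mul_assoc, ← C_mul] at e3
      rw [e3, div_eq_inv_mul]
    have hlt : m < n := by omega
    have h4 := ih m hlt hmn Φ' hΦ2 ⟨x₀, y₀, fun h => hne0 (by rw [hmul, h, mul_zero])⟩ (a / l) h3
    rw [div_eq_iff hlk] at h4
    have h5 := sq_one k hp hpl
    rw [h4]
    linear_combination h5

/-- **`N = 1`, `p = 2, 3`: every eigenvalue of `T_l`, `l ≠ p`, in characteristic `p` is `1 + l`.** -/
theorem eig_one (hp : p = 2 ∨ p = 3) {n : ℕ} (hn : Even n) {φ : Cusp 1 → Cusp 1 → Fin (n + 1) → k}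
    (hφ : φ ∈ Sym k 1 1 n) (h0 : φ ≠ 0) {l : ℕ} (hl : l.Prime) (hlp : l ≠ p) {a : k}
    (ha : hecke k 1 1 n l φ = a • φ) : a = 1 + l := by
  refine eigP hp hl hlp n (Or.inr hn) (fun x y => pl (φ x y)) ⟨fun x y => pl_natDegree _,
    fun x y z => ?_, fun g hg x y => ?_⟩ ?_ a fun x y => ?_
  · rw [← pl_add, hφ.1]
  · rw [← pl_mulVec, ← act_apply, hφ.2 g ⟨hg, by rw [Nat.cast_one]; exact one_dvd _⟩]
  · by_contra hc
    push Not at hc
    apply h0
    funext x y
    exact pl_inj ((hc x y).trans pl_zero.symm)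
  · have e := congrFun (congrFun ha x) y
    have hl1 : ¬ l ∣ 1 := fun h => hl.one_lt.ne' (Nat.dvd_one.1 h)
    rw [hecke, if_neg hl1] at e
    simp only [LinearMap.add_apply, LinearMap.sum_apply, Finset.sum_apply, Pi.add_apply,
      Pi.smul_apply, act_apply] at e
    have e2 := congrArg pl e
    rw [pl_add, pl_smul, pl_mulVec] at e2
    rw [← e2, heckeP]
    congr 1
    have : ∀ (s : Finset ℕ) (f : ℕ → Fin (n + 1) → k), pl (∑ b ∈ s, f b) = ∑ b ∈ s, pl (f b) := by
      intro s f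
      induction s using Finset.induction_on with
      | empty => simp [pl_zero]
      | insert i s hi ih => rw [Finset.sum_insert hi, Finset.sum_insert hi, pl_add, ih]
    rw [this]
    exact Finset.sum_congr rfl fun b _ => (pl_mulVec _ _).symm

end Main

end Gouvea.P5.OneC
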