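import Pool.Agent.Work.MP_d3517d_nt.P5.OneClass
import Pool.Agent.Work.MP_d3517d_nt.P5.LatBasis
import Pool.Agent.Work.MP_d3517d_nt.P5.MainX
import Pool.Agent.Work.MP_d3517d_nt.Sys.Class

/-!
# Level one, `p = 2, 3`: all systems are congruent to `T_l = 1 + l` (MP_d3517d_nt, package P5)

* `norm_sub_lt`: an eigenvalue `a` of `T_l` (`l ≠ p`) on `Sym \bar ℚ_p 1 1 n` satisfies
  `‖a - (1 + l)‖ < 1`;
* `sys_AZ`: the same for the systems of the integral matrices `AZ` of `Sym ℤ 1 1 n`;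
* `sys_rhoN`: for the systems of `Sym \bar ℚ_p 1 1 n`;
* `sys_rhoC`: for the systems of `S_{n+2}(SL₂(ℤ))`, read in `\bar ℚ_p`;
* `chi1`: the system `T_l ↦ 1 + l`, and the same statements for all elements of `ℤ[T_l : l ≠ p]`.
-/

open Polynomial Finset Matrix Gouvea.Sys Gouvea.Desc UpperHalfPlane CongruenceSubgroup
open scoped MatrixGroups ModularForm

noncomputable section

namespace Gouvea.P5.OneC

open Gouvea.PX Gouvea.ES

section Residue

variable (p : ℕ) [Fact p.Prime]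

/-- the integers of `\bar ℚ_p` -/
def OK : Subring (PadicAlgCl p) where
  carrier := {x | ‖x‖ ≤ 1}
  mul_mem' := by
    intro a b ha hb
    have : ‖a * b‖ ≤ 1 := by
      rw [norm_mul]
      exact mul_le_one₀ ha (norm_nonneg _) hb
    exact this
  one_mem' := by
    have : ‖(1 : PadicAlgCl p)‖ ≤ 1 := by rw [norm_one]
    exact this
  add_mem' := by
    intro a b ha hb
    exact (IsUltrametricDist.norm_add_le_max a b).trans (max_le ha hb)
  zero_mem' := by
    have : ‖(0 : PadicAlgCl p)‖ ≤ 1 := by rw [norm_zero]; exact zero_le_one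
    exact this
  neg_mem' := by
    intro a ha
    have : ‖-a‖ ≤ 1 := by rw [norm_neg]; exact ha
    exact this

variable {p} in
lemma mem_OK {x : PadicAlgCl p} : x ∈ OK p ↔ ‖x‖ ≤ 1 := Iff.rfl

/-- the maximal ideal -/
def mI : Ideal (OK p) where
  carrier := {x | ‖(x : PadicAlgCl p)‖ < 1}
  add_mem' := by
    intro a b ha hb
    exact lt_of_le_of_lt (IsUltrametricDist.norm_add_le_max (a : PadicAlgCl p) b) (max_lt ha hb)
  zero_mem' := by
    have : ‖((0 : OK p) : PadicAlgCl p)‖ < 1 := by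
      rw [ZeroMemClass.coe_zero, norm_zero]; exact zero_lt_one
    exact this
  smul_mem' := by
    intro c x hx
    have h1 : ‖((c • x : OK p) : PadicAlgCl p)‖ < 1 := by
      rw [smul_eq_mul, Subring.coe_mul, norm_mul]
      calc ‖(c : PadicAlgCl p)‖ * ‖(x : PadicAlgCl p)‖ ≤ 1 * ‖(x : PadicAlgCl p)‖ :=
            mul_le_mul_of_nonneg_right c.2 (norm_nonneg _)
        _ = ‖(x : PadicAlgCl p)‖ := one_mul _
        _ < 1 := hx
    exact h1

variable {p} in
lemma mem_mI {x : OK p} : x ∈ mI p ↔ ‖(x : PadicAlgCl p)‖ < 1 := Iff.rfl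

instance : (mI p).IsMaximal := by
  rw [Ideal.isMaximal_iff]
  constructor
  · intro h
    have : ‖((1 : OK p) : PadicAlgCl p)‖ < 1 := h
    rw [OneMemClass.coe_one, norm_one] at this
    exact lt_irrefl _ this
  · intro J x hJ hx hxJ
    have h1 : ‖(x : PadicAlgCl p)‖ = 1 := le_antisymm x.2 (not_lt.1 hx)
    have hx0 : (x : PadicAlgCl p) ≠ 0 := by
      intro h
      rw [h, norm_zero] at h1
      exact zero_ne_one h1
    have h2 : ‖(x : PadicAlgCl p)⁻¹‖ ≤ 1 := by rw [norm_inv, h1, inv_one]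
    have h3 : (⟨(x : PadicAlgCl p)⁻¹, h2⟩ : OK p) * x = 1 := by
      apply Subtype.ext
      show (x : PadicAlgCl p)⁻¹ * x = 1
      exact inv_mul_cancel₀ hx0
    rw [← h3]
    exact J.mul_mem_left _ hxJ

/-- the residue field -/
abbrev kk : Type := OK p ⧸ mI p

instance : Field (kk p) := Ideal.Quotient.field (mI p)

lemma norm_p_lt : ‖(p : PadicAlgCl p)‖ < 1 := by
  have h1 : ((p : ℚ_[p]) : PadicAlgCl p) = (p : PadicAlgCl p) := by
    have := map_natCast (algebraMap ℚ_[p] (PadicAlgCl p)) p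
    exact this
  have h2 : ‖((p : ℚ_[p]) : PadicAlgCl p)‖ = ‖(p : ℚ_[p])‖ := PadicAlgCl.norm_extends p _
  rw [← h1, h2]
  exact Padic.norm_p_lt_one

instance : CharP (kk p) p := by
  rw [CharP.charP_iff_prime_eq_zero (Fact.out : p.Prime)]
  have h1 : ((p : ℕ) : kk p) = Ideal.Quotient.mk (mI p) ((p : ℕ) : OK p) := by
    rw [map_natCast]
  rw [h1, Ideal.Quotient.eq_zero_iff_mem, mem_mI]
  have h2 : (((p : ℕ) : OK p) : PadicAlgCl p) = (p : PadicAlgCl p) := by simp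
  rw [h2]
  exact norm_p_lt p

end Residue

section Eig

variable {p : ℕ} [Fact p.Prime] {N M n : ℕ}

lemma mem_of_baseF {k k' : Type} [CommRing k] [CommRing k'] {f : k →+* k'}
    (hf : Function.Injective f) {φ : PX.Cusp N → PX.Cusp N → Fin (n + 1) → k}
    (h : baseF f φ ∈ Sym k' N M n) : φ ∈ Sym k N M n := by
  refine ⟨fun x y z => ?_, fun g hg => ?_⟩
  · funext i
    apply hf
    rw [Pi.add_apply, map_add]
    have := congrFun (h.1 x y z) i
    exact this
  · apply baseF_injective f hf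
    rw [← act_baseF, h.2 g hg]

lemma norm_intCast_le (z : ℤ) : ‖(z : PadicAlgCl p)‖ ≤ 1 := by
  have h1 : ((z : ℚ_[p]) : PadicAlgCl p) = (z : PadicAlgCl p) := by
    have := map_intCast (algebraMap ℚ_[p] (PadicAlgCl p)) z
    exact this
  have h2 : ‖((z : ℚ_[p]) : PadicAlgCl p)‖ = ‖(z : ℚ_[p])‖ := PadicAlgCl.norm_extends p _
  rw [← h1, h2]
  exact Padic.norm_int_le_one z

/-- **Level one, `p = 2, 3`**: an eigenvalue of `T_l` is congruent to `1 + l`. -/
theorem norm_sub_lt (hp : p = 2 ∨ p = 3) (hn : Even n)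
    {φ : PX.Cusp 1 → PX.Cusp 1 → Fin (n + 1) → PadicAlgCl p} (hφ : φ ∈ Sym (PadicAlgCl p) 1 1 n)
    (h0 : φ ≠ 0) {l : ℕ} (hl : l.Prime) (hlp : l ≠ p) {a : PadicAlgCl p}
    (ha : hecke (PadicAlgCl p) 1 1 n l φ = a • φ) : ‖a - (1 + l)‖ < 1 := by
  obtain ⟨m, P, Q, hg⟩ := exists_gen (N := 1) (M := 1) one_ne_zero (dvd_refl 1)
  set v : Fin m × Fin (n + 1) → PadicAlgCl p := fun q => φ (P q.1) (Q q.1) q.2 with hv
  have hv0 : v ≠ 0 := by
    intro h
    apply h0
    funext x y r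
    obtain ⟨c, hc⟩ := hg n x y
    rw [hc _ φ hφ r]
    refine Finset.sum_eq_zero fun q _ => ?_
    have : φ (P q.1) (Q q.1) q.2 = 0 := congrFun h q
    rw [this, mul_zero]
  obtain ⟨i, hi0, hi⟩ := exists_max_coord hv0
  have hs0 : v i ≠ 0 := norm_pos_iff.1 hi0
  have hle : ∀ x y r, ‖(v i)⁻¹ * φ x y r‖ ≤ 1 := by
    intro x y r
    rw [norm_mul, norm_inv, inv_mul_le_iff₀ hi0, mul_one]
    obtain ⟨c, hc⟩ := hg n x y
    rw [hc _ φ hφ r]
    apply IsUltrametricDist.norm_sum_le_of_forall_le_of_nonneg hi0.le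
    intro q _
    rw [norm_mul]
    calc ‖((c r q : ℤ) : PadicAlgCl p)‖ * ‖φ (P q.1) (Q q.1) q.2‖
        ≤ 1 * ‖φ (P q.1) (Q q.1) q.2‖ :=
          mul_le_mul_of_nonneg_right (norm_intCast_le _) (norm_nonneg _)
      _ = ‖v q‖ := one_mul _
      _ ≤ ‖v i‖ := hi q
  -- the symbol over the integers
  let φO : PX.Cusp 1 → PX.Cusp 1 → Fin (n + 1) → OK p := fun x y r => ⟨(v i)⁻¹ * φ x y r, hle x y r⟩
  have hsub : Function.Injective (OK p).subtype := Subtype.val_injective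
  have hbase : baseF (OK p).subtype φO = (v i)⁻¹ • φ := by
    funext x y r
    rfl
  have hmem : φO ∈ Sym (OK p) 1 1 n := by
    apply mem_of_baseF hsub
    rw [hbase]
    exact (Sym (PadicAlgCl p) 1 1 n).smul_mem _ hφ
  have hone : φO (P i.1) (Q i.1) i.2 = 1 := by
    apply Subtype.ext
    show (v i)⁻¹ * v i = 1
    exact inv_mul_cancel₀ hs0
  have hH : hecke (PadicAlgCl p) 1 1 n l (baseF (OK p).subtype φO) =
      a • baseF (OK p).subtype φO := by
    rw [hbase, map_smul, ha, smul_comm]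
  have haO : ‖a‖ ≤ 1 := by
    rw [hecke_baseF] at hH
    have e := congrFun (congrFun (congrFun hH (P i.1)) (Q i.1)) i.2
    rw [baseF_apply] at e
    have e2 : (a • baseF (OK p).subtype φO) (P i.1) (Q i.1) i.2 =
        a * ((φO (P i.1) (Q i.1) i.2 : OK p) : PadicAlgCl p) := rfl
    rw [e2, hone, OneMemClass.coe_one, mul_one] at e
    rw [← e]
    exact (hecke (OK p) 1 1 n l φO (P i.1) (Q i.1) i.2).2
  have hHO : hecke (OK p) 1 1 n l φO = (⟨a, haO⟩ : OK p) • φO := by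
    apply baseF_injective _ hsub
    rw [← hecke_baseF, hH, baseF_smul]
    rfl
  -- the residue field
  set φk := baseF (Ideal.Quotient.mk (mI p)) φO with hφk
  have hmk : φk ∈ Sym (kk p) 1 1 n := baseF_mem _ hmem
  have hk0 : φk ≠ 0 := by
    intro h
    have e := congrFun (congrFun (congrFun h (P i.1)) (Q i.1)) i.2
    rw [hφk, baseF_apply, hone, map_one] at e
    exact one_ne_zero e
  have hHk : hecke (kk p) 1 1 n l φk = (Ideal.Quotient.mk (mI p) ⟨a, haO⟩) • φk := by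
    rw [hφk, hecke_baseF, hHO, baseF_smul]
  have hfin := eig_one hp hn hmk hk0 hl hlp hHk
  have h3 : Ideal.Quotient.mk (mI p) ((⟨a, haO⟩ : OK p) - (1 + (l : OK p))) = 0 := by
    rw [map_sub, hfin, map_add, map_one, map_natCast, sub_self]
  rw [Ideal.Quotient.eq_zero_iff_mem, mem_mI] at h3
  have h4 : (((⟨a, haO⟩ : OK p) - (1 + (l : OK p)) : OK p) : PadicAlgCl p) = a - (1 + l) := by
    push_cast
    rfl
  rwa [h4] at h3

end Eig

section Systems

variable {N M : ℕ} [NeZero M]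

/-- the systems of the integral matrices of the symbols, by eigenvectors -/
theorem mem_Sys_AZ (hM : M ≠ 0) (hNM : N ∣ M) (n : ℕ) (K : Type) [Field K] [CharZero K]
    (χ : HR →+* K) :
    χ ∈ Sys (matRep (intRep K (PX.AZ hM hNM n))) ↔
      ∃ φ : Sym K N M n, φ ≠ 0 ∧ ∀ r, rhoN K N M n hNM r φ = χ r • φ := by
  rw [mem_Sys_iff_exists]
  have key : ∀ (r : HR) (φ : Sym K N M n), (bas hM hNM n K).equivFun (rhoN K N M n hNM r φ) =
      matRep (intRep K (PX.AZ hM hNM n)) r ((bas hM hNM n K).equivFun φ) := by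
    intro r φ
    rw [matRep_apply]
    have h1 : intRep K (PX.AZ hM hNM n) r = (PX.AZ hM hNM n r).map (Int.cast : ℤ → K) := rfl
    rw [h1, ← toMatrix_rhoN]
    exact (LinearMap.toMatrix_mulVec_repr (bas hM hNM n K) (bas hM hNM n K)
      (rhoN K N M n hNM r) φ).symm
  constructor
  · rintro ⟨v, hv, h⟩
    refine ⟨(bas hM hNM n K).equivFun.symm v, fun h0 => hv ?_, fun r => ?_⟩
    · rw [← (bas hM hNM n K).equivFun.apply_symm_apply v, h0, map_zero]
    · apply (bas hM hNM n K).equivFun.injective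
      rw [key, LinearEquiv.apply_symm_apply, h, map_smul, LinearEquiv.apply_symm_apply]
  · rintro ⟨φ, hφ, h⟩
    refine ⟨(bas hM hNM n K).equivFun φ, fun h0 => hφ ?_, fun r => ?_⟩
    · exact (bas hM hNM n K).equivFun.map_eq_zero_iff.1 h0
    · rw [← key, h, map_smul]

variable {p : ℕ} [Fact p.Prime]

/-- the system `T_l ↦ 1 + l` -/
def chi1 (p : ℕ) [Fact p.Prime] : HR0 p →+* PadicAlgCl p :=
  MvPolynomial.eval₂Hom (Int.castRingHom _) fun l => (1 + (l.1 : PadicAlgCl p))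

@[simp] lemma chi1_X (l : {l : ℕ // l.Prime ∧ l ≠ p}) :
    chi1 p (MvPolynomial.X l) = 1 + (l.1 : PadicAlgCl p) := by
  rw [chi1, MvPolynomial.coe_eval₂Hom, MvPolynomial.eval₂_X]

lemma norm_chi1_le (r : HR0 p) : ‖chi1 p r‖ ≤ 1 := by
  have h : chi1 p = (Int.castRingHom (PadicAlgCl p)).comp
      (MvPolynomial.eval₂Hom (Int.castRingHom ℤ)
        fun l : {l : ℕ // l.Prime ∧ l ≠ p} => (1 + (l.1 : ℤ))) := by
    apply MvPolynomial.ringHom_ext
    · intro z
      simp [chi1]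
    · intro l
      simp [chi1]
  rw [h, RingHom.comp_apply]
  exact norm_intCast_le _

/-- a system close to `chi1` on the generators is close to `chi1` -/
lemma close_of_X {χ : HR0 p →+* PadicAlgCl p}
    (h : ∀ l : {l : ℕ // l.Prime ∧ l ≠ p}, ‖χ (MvPolynomial.X l) - (1 + (l.1 : PadicAlgCl p))‖ < 1)
    (r : HR0 p) : ‖χ r - chi1 p r‖ < 1 := by
  induction r using MvPolynomial.induction_on with
  | C z =>
    have e : (MvPolynomial.C z : HR0 p) = ((z : ℤ) : HR0 p) := by simp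
    rw [e, map_intCast, map_intCast, sub_self, norm_zero]
    exact zero_lt_one
  | add a b ha hb =>
    rw [map_add, map_add, add_sub_add_comm]
    exact lt_of_le_of_lt (IsUltrametricDist.norm_add_le_max _ _) (max_lt ha hb)
  | mul_X a l ha =>
    have e : χ (a * MvPolynomial.X l) - chi1 p (a * MvPolynomial.X l) =
        (χ a - chi1 p a) * χ (MvPolynomial.X l) +
          chi1 p a * (χ (MvPolynomial.X l) - chi1 p (MvPolynomial.X l)) := by
      rw [map_mul, map_mul]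
      ring
    rw [e]
    have h2 := h l
    rw [← chi1_X] at h2
    have h3 : ‖χ (MvPolynomial.X l)‖ ≤ 1 := by
      have e3 : χ (MvPolynomial.X l) = (χ (MvPolynomial.X l) - chi1 p (MvPolynomial.X l)) +
          chi1 p (MvPolynomial.X l) := by ring
      rw [e3]
      exact (IsUltrametricDist.norm_add_le_max _ _).trans (max_le h2.le (norm_chi1_le _))
    refine lt_of_le_of_lt (IsUltrametricDist.norm_add_le_max _ _) (max_lt ?_ ?_)
    · rw [norm_mul]
      exact lt_of_le_of_lt (mul_le_of_le_one_right (norm_nonneg _) h3) ha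
    · rw [norm_mul]
      exact lt_of_le_of_lt (mul_le_of_le_one_left (norm_nonneg _) (norm_chi1_le _)) h2

/-- eigenvectors of the whole Hecke ring -/
theorem close_of_eig (hp : p = 2 ∨ p = 3) {n : ℕ} (hn : Even n) {χ : HR →+* PadicAlgCl p}
    {φ : Sym (PadicAlgCl p) 1 1 n} (h0 : φ ≠ 0)
    (h : ∀ r, rhoN (PadicAlgCl p) 1 1 n (dvd_refl 1) r φ = χ r • φ) (r : HR0 p) :
    ‖χ (incl p r) - chi1 p r‖ < 1 := by
  refine close_of_X (χ := χ.comp (incl p)) (fun l => ?_) r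
  rw [RingHom.comp_apply, incl_X]
  have h1 := h (MvPolynomial.X ⟨l.1, l.2.1⟩)
  have h2 : rhoN (PadicAlgCl p) 1 1 n (dvd_refl 1) (MvPolynomial.X ⟨l.1, l.2.1⟩) =
      opN (PadicAlgCl p) 1 1 n (dvd_refl 1) ⟨l.1, l.2.1⟩ := rhoN_X _ _ _ _ _ _
  rw [h2] at h1
  exact norm_sub_lt hp hn φ.2 (fun h2 => h0 (Subtype.ext h2)) l.2.1 l.2.2
    (congrArg Subtype.val h1)

/-- **The systems of the integral matrices of `Sym ℤ 1 1 n`**, `p = 2, 3`: one class. -/
theorem sys_AZ (hp : p = 2 ∨ p = 3) {n : ℕ} (hn : Even n) {χ : HR →+* PadicAlgCl p}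
    (hχ : χ ∈ Sys (matRep (intRep (PadicAlgCl p) (PX.AZ (N := 1) (M := 1) one_ne_zero
      (dvd_refl 1) n)))) (r : HR0 p) : ‖χ (incl p r) - chi1 p r‖ < 1 := by
  rw [mem_Sys_AZ] at hχ
  obtain ⟨φ, h0, h⟩ := hχ
  exact close_of_eig hp hn h0 h r

/-- **The systems of `Sym \bar ℚ_p 1 1 n`**, `p = 2, 3`: one class. -/
theorem sys_rhoN (hp : p = 2 ∨ p = 3) {n : ℕ} (hn : Even n)
    [FiniteDimensional (PadicAlgCl p) (Sym (PadicAlgCl p) 1 1 n)] {χ : HR →+* PadicAlgCl p}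
    (hχ : χ ∈ Sys (rhoN (PadicAlgCl p) 1 1 n (dvd_refl 1))) (r : HR0 p) :
    ‖χ (incl p r) - chi1 p r‖ < 1 := by
  rw [mem_Sys_iff_exists] at hχ
  obtain ⟨φ, h0, h⟩ := hχ
  exact close_of_eig hp hn h0 h r

/-- **The systems of `S_{n+2}(SL₂(ℤ))`, read in `\bar ℚ_p`**, `p = 2, 3`: one class. -/
theorem sys_rhoC (hp : p = 2 ∨ p = 3) {n : ℕ} (hn : Even n) (hn2 : 2 ≤ n)
    (j : algebraicClosure ℚ ℂ →+* PadicAlgCl p) {χ : HR →+* ℂ} (hχ : χ ∈ Sys (rhoC 1 (n + 2)))
    (r : HR0 p) : ‖emb p j (χ (incl p r)) - chi1 p r‖ < 1 := by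
  rw [mem_Sys_iff_exists] at hχ
  obtain ⟨f, hf0, hf⟩ := hχ
  have h1 : χ ∈ Sys (matRep (intRep ℂ (PX.AZ (N := 1) (M := 1) one_ne_zero (dvd_refl 1) n))) := by
    rw [mem_Sys_AZ]
    refine ⟨ESX 1 1 n (f, f), fun h0 => hf0 ?_, fun r => ?_⟩
    · have := ESX_injective (N := 1) (M := 1) hn2 (h0.trans (map_zero _).symm)
      exact congrArg Prod.fst this
    · have h2 := ESX_equivariant (N := 1) (M := 1) (dvd_refl 1) r (f, f)
      rw [← h2]
      have h3 : prodRep (rhoC 1 (n + 2)) (rhoC 1 (n + 2)) r (f, f) = χ r • (f, f) := by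
        show (rhoC 1 (n + 2) r f, rhoC 1 (n + 2) r f) = (χ r • f, χ r • f)
        rw [hf]
      rw [h3, map_smul]
  have h2 := Multiset.mem_map_of_mem (fun χ : HR →+* ℂ => fun r => emb p j (χ r)) h1
  rw [map_emb, Multiset.mem_map] at h2
  obtain ⟨χ', h3, h4⟩ := h2
  have h5 : χ' (incl p r) = emb p j (χ (incl p r)) := congrFun h4 (incl p r)
  rw [← h5]
  exact sys_AZ hp hn h3 r

/-- there are no cusp forms of weight two and level one -/
lemma cusp_one_two (f : Gouvea.Cusp 1 2) : f = 0 := by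
  have key : ∀ (Γ : Subgroup (GL (Fin 2) ℝ)) (_ : Γ = 𝒮ℒ) (f : CuspForm Γ 2), ⇑f = 0 := by
    rintro Γ rfl f
    have h := CuspForm.rank_eq_zero_of_weight_lt_twelve (k := 2) (by norm_num)
    have := rank_zero_iff_forall_zero.1 h f
    rw [this]
    rfl
  have hG : ((Gamma0 1 : Subgroup SL(2, ℤ)) : Subgroup (GL (Fin 2) ℝ)) = 𝒮ℒ := by
    have h1 : Gamma0 1 = ⊤ := by
      rw [eq_top_iff]
      intro g _
      rw [Gamma0_mem]
      exact Subsingleton.elim _ _
    rw [h1]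
    exact (MonoidHom.range_eq_map _).symm
  apply DFunLike.coe_injective
  exact key _ hG f

/-- **Level one, `p = 2, 3`**: every system of `S_{n+2}(SL₂(ℤ))` is congruent to `T_q ↦ 1 + q`. -/
theorem sys_one (hp : p = 2 ∨ p = 3) (j : algebraicClosure ℚ ℂ →+* PadicAlgCl p) :
    ∀ n, Even n → ∀ χ ∈ Sys (rhoC 1 (n + 2)), ∀ q : Nat.Primes, (q : ℕ) ≠ p →
      ‖emb p j (χ (MvPolynomial.X q)) - (1 + ((q : ℕ) : PadicAlgCl p))‖ < 1 := by
  intro n hn χ hχ q hq
  rcases Nat.lt_or_ge n 2 with h | h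
  · have h0 : n = 0 := by
      obtain ⟨r, hr⟩ := hn
      omega
    subst h0
    rw [mem_Sys_iff_exists] at hχ
    obtain ⟨f, hf0, -⟩ := hχ
    exact absurd (cusp_one_two f) hf0
  · have h1 := sys_rhoC hp hn h j hχ (MvPolynomial.X ⟨q.1, q.2, hq⟩)
    rw [incl_X, chi1_X] at h1
    exact h1

end Systems

end Gouvea.P5.OneC
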