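import Pool.Agent.Work.MP_d3517d_nt.P5.Nx
import Pool.Agent.Work.MP_d3517d_nt.P5.Coinv

/-!
# P5, level one: the index of `N_x ∩ ker (1 + S) ∩ ker (1 + R + R²)` (MP_d3517d_nt)

`V = V_n(ℤ_p)`, `n` even, `p = 2` or `3`, `B = ker (1 + S) ∩ ker (1 + R + R²)` (period polynomials).

* `upper` : `[B : B ∩ N_x] [V : N_x] ≤ p^(Σ_{j < x} (fr KS_j + fr KR_j) + n)`;
* `lower` : `[V : N_x] ≤ [B : B ∩ N_x] p^(Σ_{j < x} (fr KI_j S + fr KI_j R) + n + 2 x)`.
-/

open Matrix ModularGroup Module Polynomial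

noncomputable section

namespace Gouvea.P5.One

variable {p : ℕ} [Fact p.Prime] {n : ℕ}

/-! ### the action as additive maps -/

variable (p) in
/-- `v ↦ v | w - v` -/
def sd (n : ℕ) (w : G) : Vn p n →+ Vn p n := (sla p n w.1).toAddMonoidHom - AddMonoidHom.id _

lemma sd_apply (w : G) (v : Vn p n) : sd p n w v = sla p n w.1 v - v := rfl

lemma sla_mul (g h : G) (v : Vn p n) : sla p n (g * h).1 v = sla p n h.1 (sla p n g.1 v) := by
  rw [sla_sla]
  rfl

lemma sla_neg (hn : Even n) (g : G) (v : Vn p n) : sla p n (-g).1 v = sla p n g.1 v := by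
  rw [sla_apply, sla_apply]
  have h : ((-g).1.map (Int.cast : ℤ → ℤ_[p])) = -(g.1.map (Int.cast : ℤ → ℤ_[p])) := by
    ext i j
    show (((-g).1 i j : ℤ) : ℤ_[p]) = -((g.1 i j : ℤ) : ℤ_[p])
    have : (-g).1 i j = -(g.1 i j) := by
      rw [show (-g).1 = -g.1 from Matrix.SpecialLinearGroup.coe_neg g]
      rfl
    rw [this, Int.cast_neg]
  rw [h, Gouvea.PS.slk_neg n hn]

lemma sla_S_S (hn : Even n) (v : Vn p n) :
    sla p n (S : G).1 (sla p n (S : G).1 v) = v := by
  rw [← sla_mul, S_mul_S, sla_neg hn]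
  exact sla_one p n v

lemma sla_Re_three (v : Vn p n) :
    sla p n Re.1 (sla p n Re.1 (sla p n Re.1 v)) = v := by
  rw [← sla_mul, ← sla_mul, ← mul_assoc, Re_cube]
  exact sla_one p n v

variable (p n) in
/-- `ker (1 + S)` modulo a subgroup `H` -/
def PS' (H : AddSubgroup (Vn p n)) : AddSubgroup (Vn p n) where
  carrier := {v | v + sla p n (S : G).1 v ∈ H}
  add_mem' := fun {a b} ha hb => by
    have := H.add_mem ha hb
    show a + b + sla p n (S : G).1 (a + b) ∈ H
    rw [map_add]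
    convert this using 1
    abel
  zero_mem' := by
    show (0 : Vn p n) + sla p n (S : G).1 0 ∈ H
    rw [map_zero, add_zero]
    exact H.zero_mem
  neg_mem' := fun {a} ha => by
    have := H.neg_mem ha
    show -a + sla p n (S : G).1 (-a) ∈ H
    rw [map_neg]
    convert this using 1
    abel

variable (p n) in
/-- `ker (1 + R + R²)` modulo a subgroup `H` -/
def PR' (H : AddSubgroup (Vn p n)) : AddSubgroup (Vn p n) where
  carrier := {v | v + sla p n Re.1 v + sla p n Re.1 (sla p n Re.1 v) ∈ H}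
  add_mem' := fun {a b} ha hb => by
    have := H.add_mem ha hb
    show a + b + sla p n Re.1 (a + b) + sla p n Re.1 (sla p n Re.1 (a + b)) ∈ H
    rw [map_add, map_add]
    convert this using 1
    abel
  zero_mem' := by
    show (0 : Vn p n) + sla p n Re.1 0 + sla p n Re.1 (sla p n Re.1 0) ∈ H
    rw [map_zero, map_zero, add_zero, add_zero]
    exact H.zero_mem
  neg_mem' := fun {a} ha => by
    have := H.neg_mem ha
    show -a + sla p n Re.1 (-a) + sla p n Re.1 (sla p n Re.1 (-a)) ∈ H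
    rw [map_neg, map_neg]
    convert this using 1
    abel

lemma mem_PS' {H : AddSubgroup (Vn p n)} {v : Vn p n} :
    v ∈ PS' p n H ↔ v + sla p n (S : G).1 v ∈ H := Iff.rfl

lemma mem_PR' {H : AddSubgroup (Vn p n)} {v : Vn p n} :
    v ∈ PR' p n H ↔ v + sla p n Re.1 v + sla p n Re.1 (sla p n Re.1 v) ∈ H := Iff.rfl

lemma PS'_mono {H H' : AddSubgroup (Vn p n)} (h : H ≤ H') : PS' p n H ≤ PS' p n H' :=
  fun _ hv => h hv

lemma PR'_mono {H H' : AddSubgroup (Vn p n)} (h : H ≤ H') : PR' p n H ≤ PR' p n H' :=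
  fun _ hv => h hv

variable (p n) in
/-- the period polynomials -/
def BB : AddSubgroup (Vn p n) := PS' p n ⊥ ⊓ PR' p n ⊥

lemma sd_S_mem (hn : Even n) (v : Vn p n) : sd p n S v ∈ PS' p n ⊥ := by
  rw [mem_PS', sd_apply, map_sub, sla_S_S hn, AddSubgroup.mem_bot]
  abel

lemma sd_Re_mem (v : Vn p n) : sd p n Re v ∈ PR' p n ⊥ := by
  rw [mem_PR', sd_apply, map_sub, map_sub, sla_Re_three, AddSubgroup.mem_bot]
  abel

/-- generation by `S` and `R` -/
lemma sd_mem_all (N X : AddSubgroup (Vn p n)) (hN : ∀ (g : G), ∀ v ∈ N, sla p n g.1 v ∈ N)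
    (hS : ∀ v ∈ N, sd p n S v ∈ X) (hR : ∀ v ∈ N, sd p n Re v ∈ X) (g : G) :
    ∀ v ∈ N, sd p n g v ∈ X := by
  have hmul : ∀ g h : G, (∀ v ∈ N, sd p n g v ∈ X) → (∀ v ∈ N, sd p n h v ∈ X) →
      ∀ v ∈ N, sd p n (g * h) v ∈ X := by
    intro g h h1 h2 v hv
    have e : sd p n (g * h) v = sd p n h (sla p n g.1 v) + sd p n g v := by
      rw [sd_apply, sd_apply, sd_apply, sla_mul]
      abel
    rw [e]
    exact X.add_mem (h2 _ (hN g v hv)) (h1 v hv)
  have hmem : g ∈ Subgroup.closure {S, T} := by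
    rw [SpecialLinearGroup.SL2Z_generators]
    exact Subgroup.mem_top g
  induction hmem using Subgroup.closure_induction with
  | mem x hx =>
    rcases hx with rfl | hx
    · exact hS
    · rw [Set.mem_singleton_iff.1 hx, ← Re_mul_S]
      exact hmul _ _ hR hS
  | one =>
    intro v _
    have : sd p n 1 v = 0 := by
      rw [sd_apply]
      have h := sla_one p n v
      rw [show ((1 : G).1) = (1 : Matrix (Fin 2) (Fin 2) ℤ) from rfl, h, sub_self]
    rw [this]
    exact X.zero_mem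
  | mul x y _ _ ihx ihy => exact hmul x y ihx ihy
  | inv x _ ihx =>
    intro v hv
    have e : sd p n x⁻¹ v = -sd p n x (sla p n (x⁻¹ : G).1 v) := by
      rw [sd_apply, sd_apply, ← sla_mul, inv_mul_cancel]
      have h := sla_one p n v
      rw [show ((1 : G).1) = (1 : Matrix (Fin 2) (Fin 2) ℤ) from rfl, h]
      abel
    rw [e]
    exact X.neg_mem (ihx _ (hN _ v hv))

/-! ### coinvariants -/

/-- `(1 0; 1 1)` -/
def Tlow : G := ⟨!![1, 0; 1, 1], by simp [Matrix.det_fin_two]⟩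

lemma sd_T (v : Vn p n) : sd p n T v = dl p n (Tb 1) v := by
  rw [sd_apply, dl_apply, sla_apply]
  congr 3
  ext i j
  fin_cases i <;> fin_cases j <;> simp [Tb, T]

lemma sd_Tlow (v : Vn p n) : sd p n Tlow v = dl p n (Tl1 p) v := by
  rw [sd_apply, dl_apply, sla_apply]
  congr 3
  ext i j
  fin_cases i <;> fin_cases j <;> simp [Tl1, Tlow]

/-- a subgroup containing the images of `1 - S`, `1 - R` on a stable lattice -/
lemma relIndex_le_of_sd (hn1 : 1 ≤ n) (N : Submodule ℤ_[p] (Vn p n)) (x : ℕ)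
    (hx : ∀ v, (p : ℤ_[p]) ^ x • v ∈ N) (X : AddSubgroup (Vn p n))
    (hN : ∀ (g : G), ∀ v ∈ N, sla p n g.1 v ∈ N)
    (hS : ∀ v ∈ N, sd p n S v ∈ X) (hR : ∀ v ∈ N, sd p n Re v ∈ X) :
    X.relIndex N.toAddSubgroup ≤ p ^ (n + 2 * x) ∧ X.relIndex N.toAddSubgroup ≠ 0 := by
  have hall := sd_mem_all N.toAddSubgroup X hN hS hR
  obtain ⟨h1, h2⟩ := coinv_le hn1 N x hx (fun v hv => by
    rw [← sd_T, sd_apply]
    exact N.sub_mem (hN T v hv) hv) (fun v hv => by
    rw [← sd_Tlow, sd_apply]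
    exact N.sub_mem (hN Tlow v hv) hv)
  have hle : (N.map (dl p n (Tb 1))).toAddSubgroup ⊔ (N.map (dl p n (Tl1 p))).toAddSubgroup ≤
      X := by
    refine sup_le ?_ ?_
    · rintro _ ⟨v, hv, rfl⟩
      rw [← sd_T]
      exact hall T v hv
    · rintro _ ⟨v, hv, rfl⟩
      rw [← sd_Tlow]
      exact hall Tlow v hv
  have h3 := AddSubgroup.relIndex_dvd_of_le_left N.toAddSubgroup hle
  refine ⟨(AddSubgroup.relIndex_le_of_le_left hle h2).trans h1, fun h0 => h2 ?_⟩
  rw [h0] at h3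
  exact Nat.eq_zero_of_zero_dvd h3

/-! ### cardinalities -/

/-- a subspace of `Ind` as a subgroup of `Ind` -/
def sub (j : ℕ) (K : Submodule (ZMod p) (G → Fin (j + 1) → ZMod p)) :
    AddSubgroup (Ind (Gu p) (rho p n j)) where
  carrier := {F | F.1 ∈ K}
  add_mem' := fun ha hb => K.add_mem ha hb
  zero_mem' := K.zero_mem
  neg_mem' := fun ha => K.neg_mem ha

lemma card_sub (j : ℕ) (K : Submodule (ZMod p) (G → Fin (j + 1) → ZMod p))
    (hK : K ≤ Ind (Gu p) (rho p n j)) : Nat.card (sub (n := n) j K) = p ^ finrank (ZMod p) K := by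
  have e : sub (n := n) j K ≃ K :=
    { toFun := fun F => ⟨F.1.1, F.2⟩
      invFun := fun F => ⟨⟨F.1, hK F.2⟩, F.2⟩
      left_inv := fun F => rfl
      right_inv := fun F => rfl }
  have hf : Finite K := Finite.of_equiv _ e
  rw [Nat.card_congr e, Module.natCard_eq_pow_finrank (K := ZMod p), Nat.card_zmod]

/-! ### the upper bound -/

lemma index_Nx_ne_zero (x : ℕ) : (Nx p n x).index ≠ 0 := by
  have h := index_ne_zero (p := p) (m := n + 1)
    { (Nx p n x) with smul_mem' := fun c _ hv => smul_mem_Nx hv c } x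
    (fun v => pow_smul_mem_Nx n x v)
  exact h

/-- `N_x` as a submodule -/
def NxM (p : ℕ) [Fact p.Prime] (n x : ℕ) : Submodule ℤ_[p] (Vn p n) :=
  { (Nx p n x) with smul_mem' := fun c _ hv => smul_mem_Nx hv c }

lemma NxM_toAddSubgroup (x : ℕ) : (NxM p n x).toAddSubgroup = Nx p n x := rfl

lemma mem_NxM {x : ℕ} {v : Vn p n} : v ∈ NxM p n x ↔ v ∈ Nx p n x := Iff.rfl

theorem upper (hn : Even n) (hn1 : 1 ≤ n) {x : ℕ} (hx : x ≤ n) :
    (Nx p n x).relIndex (BB p n) * (Nx p n x).index ≤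
      p ^ (∑ j ∈ Finset.range x, (finrank (ZMod p) (KS (Gu p) (rho p n j)) +
        finrank (ZMod p) (KR (Gu p) (rho p n j))) + n) := by
  set N := Nx p n x with hN
  set P := PS' p n N with hP
  set Q := PR' p n N with hQ
  have hNP : N ≤ P := fun v hv => N.add_mem hv (sla_mem_Nx hv S)
  have hNQ : N ≤ Q := fun v hv =>
    N.add_mem (N.add_mem hv (sla_mem_Nx hv Re)) (sla_mem_Nx (sla_mem_Nx hv Re) Re)
  have h1 := relIndex_inf_mul hNP hNQ
  have hidx : N.index ≠ 0 := index_Nx_ne_zero x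
  have hb : N.relIndex (BB p n) ≤ N.relIndex (P ⊓ Q) := by
    refine AddSubgroup.relIndex_le_of_le_right (inf_le_inf (PS'_mono bot_le) (PR'_mono bot_le)) ?_
    exact fun h0 => hidx (Nat.eq_zero_of_zero_dvd (h0 ▸
      AddSubgroup.relIndex_dvd_index_of_normal N (P ⊓ Q)))
  have h2 : N.relIndex P ≤ ∏ j ∈ Finset.range x,
      p ^ finrank (ZMod p) (KS (Gu p) (rho p n j)) := by
    refine chain_upper (Nx p n) (Nx_zero n) (Nx_succ_le n) P _ x fun j hj => ?_
    have hjn : j ≤ n := by omega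
    have hle : N ≤ Nx p n (j + 1) := Nx_anti n hj
    rw [← card_sub (n := n) j _ KS_le]
    have : Finite (sub (n := n) j (KS (Gu p) (rho p n j))) := inferInstance
    refine relIndex_le_card (theta hjn) (theta_eq_zero_iff hjn) _ fun v hv => ?_
    exact theta_mem_KS hn hjn v (hle hv)
  have h3 : N.relIndex Q ≤ ∏ j ∈ Finset.range x,
      p ^ finrank (ZMod p) (KR (Gu p) (rho p n j)) := by
    refine chain_upper (Nx p n) (Nx_zero n) (Nx_succ_le n) Q _ x fun j hj => ?_
    have hjn : j ≤ n := by omega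
    have hle : N ≤ Nx p n (j + 1) := Nx_anti n hj
    rw [← card_sub (n := n) j _ KR_le]
    have : Finite (sub (n := n) j (KR (Gu p) (rho p n j))) := inferInstance
    refine relIndex_le_card (theta hjn) (theta_eq_zero_iff hjn) _ fun v hv => ?_
    exact theta_mem_KR hjn v (hle hv)
  have h4 : (P ⊔ Q).index ≤ p ^ n := by
    have h5 := (relIndex_le_of_sd hn1 (⊤ : Submodule ℤ_[p] (Vn p n)) 0 (fun _ => trivial)
      (P ⊔ Q) (fun _ _ _ => trivial)
      (fun v _ => (le_sup_left : P ≤ P ⊔ Q) (PS'_mono bot_le (sd_S_mem hn v)))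
      (fun v _ => (le_sup_right : Q ≤ P ⊔ Q) (PR'_mono bot_le (sd_Re_mem v)))).1
    have h6 : (⊤ : Submodule ℤ_[p] (Vn p n)).toAddSubgroup = ⊤ := rfl
    rwa [h6, AddSubgroup.relIndex_top_right, mul_zero, add_zero] at h5
  calc N.relIndex (BB p n) * N.index ≤ N.relIndex (P ⊓ Q) * N.index := Nat.mul_le_mul_right _ hb
    _ = N.relIndex P * N.relIndex Q * (P ⊔ Q).index := h1
    _ ≤ _ := Nat.mul_le_mul (Nat.mul_le_mul h2 h3) h4
    _ = _ := by
      rw [← Finset.prod_mul_distrib, pow_add, ← Finset.prod_pow_eq_pow_sum]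
      simp only [pow_add]

/-! ### the lower bound -/

theorem lower (hn : Even n) (hn1 : 1 ≤ n) {x : ℕ} (hx : x ≤ n) :
    (Nx p n x).index ≤ (Nx p n x).relIndex (BB p n) *
      p ^ (∑ j ∈ Finset.range x, (finrank (ZMod p) (KI (Gu p) (rho p n j) S) +
        finrank (ZMod p) (KI (Gu p) (rho p n j) Re)) + (n + 2 * x)) := by
  set N := Nx p n x with hN
  set A := PS' p n ⊥ with hA
  set B := PR' p n ⊥ with hB
  have hstep : ∀ (w : G) (K : AddSubgroup (Vn p n)), (∀ v, sd p n w v ∈ K) →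
      (N ⊔ K).index ≤ ∏ j ∈ Finset.range x,
        p ^ finrank (ZMod p) (KI (Gu p) (rho p n j) w) := by
    intro w K hK
    refine chain_lower (Nx p n) (Nx_zero n) (Nx_succ_le n) K
      (fun j => (Nx p n j).map (sd p n w)) ?_ _ x fun j hj => ?_
    · rintro j _ ⟨v, _, rfl⟩
      exact hK v
    · have hjn : j ≤ n := by omega
      have hf : ∀ v ∈ Nx p n j, sd p n w v ∈ Nx p n j := fun v hv =>
        (Nx p n j).sub_mem (sla_mem_Nx hv w) hv
      have h1 := relIndex_coinv_le (theta hjn) (theta_eq_zero_iff hjn) (Nx_succ_le n j)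
        (sd p n w) hf (dif w) (fun v => theta_dif hjn v w)
      have hKI : KI (Gu p) (rho p n j) w ≤ Ind (Gu p) (rho p n j) := fun _ h => h.1
      have h2 : (dif w : Ind (Gu p) (rho p n j) →+ Ind (Gu p) (rho p n j)).ker =
          sub (n := n) j (KI (Gu p) (rho p n j) w) := by
        ext F
        exact mem_ker_dif w F
      rw [h2, card_sub (n := n) j _ hKI] at h1
      exact h1
  have hd := relIndex_le_of_sd hn1 (NxM p n x) x (fun v => pow_smul_mem_Nx n x v)
    (A ⊓ N ⊔ B ⊓ N) (fun g v hv => sla_mem_Nx hv g)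
    (fun v hv => (le_sup_left : A ⊓ N ≤ _) ⟨sd_S_mem hn v, N.sub_mem (sla_mem_Nx hv S) hv⟩)
    (fun v hv => (le_sup_right : B ⊓ N ≤ _) ⟨sd_Re_mem v, N.sub_mem (sla_mem_Nx hv Re) hv⟩)
  rw [NxM_toAddSubgroup, ← hN] at hd
  have h1 := index_le_mul (N := N) (A := A) (B := B) hd.2
  have h2 := hstep S A fun v => sd_S_mem hn v
  have h3 := hstep Re B fun v => sd_Re_mem v
  calc N.index ≤ N.relIndex (A ⊓ B) * (N ⊔ A).index * (N ⊔ B).index *
        (A ⊓ N ⊔ B ⊓ N).relIndex N := h1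
    _ ≤ N.relIndex (A ⊓ B) * (∏ j ∈ Finset.range x,
        p ^ finrank (ZMod p) (KI (Gu p) (rho p n j) S)) * (∏ j ∈ Finset.range x,
        p ^ finrank (ZMod p) (KI (Gu p) (rho p n j) Re)) * p ^ (n + 2 * x) :=
      Nat.mul_le_mul (Nat.mul_le_mul (Nat.mul_le_mul_left _ h2) h3) hd.1
    _ = _ := by
      rw [mul_assoc (N.relIndex (A ⊓ B)), ← Finset.prod_mul_distrib, mul_assoc,
        pow_add p _ (n + 2 * x), ← Finset.prod_pow_eq_pow_sum]
      simp only [pow_add]
      rfl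

end Gouvea.P5.One
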