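import Pool.Agent.Work.MP_d3517d_nt.P5.Amb
import Pool.Agent.Work.MP_d3517d_nt.P5.MainOne

/-!
# P5: level one, the final statement (MP_d3517d_nt)

`apx_one`: if the Newton function of `T_p` on the lattice of symbols of level one is
`(p + 1) x ^ 2 / 12 + o(n ^ 2)` for `x (p + 1) ≤ n`, outside a set of weights of density zero, and
all systems of eigenvalues of level one are congruent to `1 + q`, then the counting functions of
every class at level one have a density: `(p + 1) / 12` on even `n` if the class is the one of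
`1 + q`, and `0` otherwise.
-/

open Polynomial Finset Filter Topology Module CongruenceSubgroup
open scoped MatrixGroups

noncomputable section

namespace Gouvea.P5

open Pool.Agent Pool.Agent.Gouv Gouvea.Sys Gouvea.PX Gouvea.ES Gouvea.Fin

variable {p : ℕ} [hp : Fact p.Prime]

/-- the eigenvalues of `T_p` on the symbols of level one and weight `n + 2` -/
def oneS (p : ℕ) [Fact p.Prime] (n : ℕ) : Multiset (PadicAlgCl p) :=
  (Sys (matRep (intRep (PadicAlgCl p) (AZ (N := 1) (M := 1) one_ne_zero (one_dvd 1) n)))).map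
    fun χ => χ (Xp p)

/-- the number of systems of level one -/
theorem card_one {n : ℕ} (hn : Even n) (hn2 : 2 ≤ n) (K : Type) [Field K] [IsAlgClosed K]
    [CharZero K] :
    n ≤ 6 * (Sys (matRep (intRep K (AZ (N := 1) (M := 1) one_ne_zero (one_dvd 1) n)))).card + 22 ∧
      6 * (Sys (matRep (intRep K (AZ (N := 1) (M := 1) one_ne_zero (one_dvd 1) n)))).card ≤
        n + 18 := by
  have hfin := finiteDimensional_SymOne (M := 1) ℂ hn
  have h0 : (Sys (matRep (intRep K (AZ (N := 1) (M := 1) one_ne_zero (one_dvd 1) n)))).card =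
      Module.finrank ℂ (Sym ℂ 1 1 n) := by
    rw [← card_Sys (rhoN ℂ 1 1 n (one_dvd 1)), Sys_rhoN_eq one_ne_zero, card_Sys, card_Sys,
      Module.finrank_fintype_fun_eq_card, Module.finrank_fintype_fun_eq_card]
  have h1 := (finrank_Sym_one_le ℂ (M := 1) hn).1
  rw [card_Qt] at h1
  have h2 : (Gamma0 1).index = 1 := by
    have : Gamma0 1 = ⊤ := by
      rw [eq_top_iff]
      intro g _
      rw [Gamma0_mem]
      exact Subsingleton.elim _ _
    rw [this, Subgroup.index_top]
  rw [h2] at h1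
  have h3 := Pool.Agent.Gouv.ESDim.finrank_cuspForm_ge 1 (n + 2) (hn.add even_two)
  rw [h2] at h3
  have h4 : Module.finrank ℂ (CuspForm ((Gamma0 1 : Subgroup SL(2, ℤ)) :
      Subgroup (GL (Fin 2) ℝ)) ((n + 2 : ℕ) : ℤ)) = Module.finrank ℂ (Gouvea.Cusp 1 (n + 2)) := rfl
  rw [h4] at h3
  have h5 := LinearMap.finrank_le_finrank_of_injective (ESX_injective (N := 1) (M := 1) hn2)
  rw [Module.finrank_prod] at h5
  rw [h0]
  constructor <;> omega

/-- **The systems on the symbols of level one.** -/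
theorem apx_oneS (hGE : ∀ η : ℝ, 0 < η → ∃ E : Set ℕ, D0 E ∧ ∀ n ∉ E, Even n →
      ∀ [Module.Finite ℤ_[p] (Sym ℤ_[p] 1 1 n)] [Module.Free ℤ_[p] (Sym ℤ_[p] 1 1 n)],
      ∀ x : ℕ, (x : ℝ) * (p + 1) ≤ n →
        |GE (rhoN ℤ_[p] 1 1 n (one_dvd 1) (Xp p)) x - ((p : ℝ) + 1) * (x : ℝ) ^ 2 / 12| ≤
          η * ((n : ℝ) + 1) ^ 2) :
    Apx ((p : ℝ) + 1) (fun n x => if Even n then (Gouv.cnt (p : ℝ) (oneS p n) x : ℝ) else 0)
      (fun n => if Even n then ((oneS p n).card : ℝ) else 0)
      (fun n => if Even n then ((p : ℝ) + 1) / 6 else 0) := by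
  have hp1 : (1 : ℝ) < p := one_lt_pF
  have hp0 : (0 : ℝ) < (p : ℝ) + 1 := by linarith
  refine apx_of_GG hp1 (oneS p) (fun _ => 0) (fun _ => ((p : ℝ) + 1) / 6) (fun _ => 0)
    (q := ((p : ℝ) + 1) / 6) (fun _ => by positivity) (fun _ => le_rfl) (fun _ => le_rfl)
    (fun _ => by positivity) ?_ ?_
  · intro δ hδ
    obtain ⟨n0, hn0⟩ := exists_nat_gt (4 / δ)
    refine ⟨{n | n < n0 + 2}, D0.of_finite (Set.finite_lt_nat _), fun n hn hev => ?_⟩
    rw [Set.mem_ofPred_eq, not_lt] at hn
    have h1 : (n0 : ℝ) ≤ n := by exact_mod_cast (by omega : n0 ≤ n)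
    have h2 : 4 ≤ δ * ((n : ℝ) + 1) := by
      have h3 : 4 / δ ≤ (n : ℝ) + 1 := by linarith
      rw [div_le_iff₀ hδ] at h3
      linarith
    obtain ⟨h4, h5⟩ := card_one hev (by omega : 2 ≤ n) (PadicAlgCl p)
    have h6 : (oneS p n).card = (Sys (matRep (intRep (PadicAlgCl p)
        (AZ (N := 1) (M := 1) one_ne_zero (one_dvd 1) n)))).card := by
      rw [oneS, Multiset.card_map]
    rw [← h6] at h4 h5
    have h7 : ((p : ℝ) + 1) / 6 * (n / ((p : ℝ) + 1)) = n / 6 := by
      field_simp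
    have h8 : (n : ℝ) ≤ 6 * (oneS p n).card + 22 := by exact_mod_cast h4
    have h9 : 6 * ((oneS p n).card : ℝ) ≤ n + 18 := by exact_mod_cast h5
    rw [Multiset.card_zero, Nat.cast_zero, add_zero, add_zero, h7]
    refine le_trans ?_ h2
    rw [abs_le]
    constructor <;> linarith
  · intro δ hδ
    obtain ⟨E, hE, h⟩ := hGE δ hδ
    refine ⟨E, hE, fun n hn hev x hx => ?_⟩
    have i1 : Module.Finite ℤ_[p] (Sym ℤ_[p] 1 1 n) :=
      Module.Finite.of_basis (bas (N := 1) (M := 1) one_ne_zero (one_dvd 1) n ℤ_[p])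
    have i2 : Module.Free ℤ_[p] (Sym ℤ_[p] 1 1 n) :=
      Module.Free.of_basis (bas (N := 1) (M := 1) one_ne_zero (one_dvd 1) n ℤ_[p])
    have h1 := h n hn hev x hx
    rw [GE_rhoN one_ne_zero] at h1
    have h2 : ((p : ℝ) + 1) / 6 * (x : ℝ) ^ 2 / 2 = ((p : ℝ) + 1) * (x : ℝ) ^ 2 / 12 := by ring
    have h3 : GG (p : ℝ) (0 : Multiset (PadicAlgCl p)) (x : ℝ) = 0 := by
      unfold GG
      simp
    rw [h3, add_zero, add_zero, h2]
    exact ⟨h1, h1⟩

open Classical in
/-- the density of a class at level one -/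
def bOne (p : ℕ) [Fact p.Prime] (A : Set Nat.Primes) (c : Nat.Primes → PadicAlgCl p) (n : ℕ) : ℝ :=
  if Even n ∧ ∀ q ∈ A, ‖1 + ((q : ℕ) : PadicAlgCl p) - c q‖ < 1 then ((p : ℝ) + 1) / 12 else 0

open Classical in
/-- **Level one.** -/
theorem apx_one (j : algebraicClosure ℚ ℂ →+* PadicAlgCl p)
    (hone : ∀ n, Even n → ∀ χ ∈ Sys (rhoC 1 (n + 2)), ∀ q : Nat.Primes, (q : ℕ) ≠ p →
      ‖emb p j (χ (MvPolynomial.X q)) - (1 + ((q : ℕ) : PadicAlgCl p))‖ < 1)
    (hGE : ∀ η : ℝ, 0 < η → ∃ E : Set ℕ, D0 E ∧ ∀ n ∉ E, Even n →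
      ∀ [Module.Finite ℤ_[p] (Sym ℤ_[p] 1 1 n)] [Module.Free ℤ_[p] (Sym ℤ_[p] 1 1 n)],
      ∀ x : ℕ, (x : ℝ) * (p + 1) ≤ n →
        |GE (rhoN ℤ_[p] 1 1 n (one_dvd 1) (Xp p)) x - ((p : ℝ) + 1) * (x : ℝ) ^ 2 / 12| ≤
          η * ((n : ℝ) + 1) ^ 2)
    {A : Set Nat.Primes} (hA : ∀ q ∈ A, (q : ℕ) ≠ p) (c : Nat.Primes → PadicAlgCl p) :
    Apx ((p : ℝ) + 1) (fun n x => (Fin.cnt j 1 (n + 2) A c x : ℝ))
      (fun n => (Fin.tot j 1 (n + 2) A c : ℝ)) (bOne p A c) := by
  have hodd : ∀ n, ¬ Even n → Sys (rhoC 1 (n + 2)) = 0 := by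
    intro n hn
    exact Sys_odd (by rw [Nat.not_even_iff_odd] at hn; exact hn.add_even even_two)
  by_cases hcl : ∀ q ∈ A, ‖1 + ((q : ℕ) : PadicAlgCl p) - c q‖ < 1
  · have hin : ∀ n, Even n → ∀ χ ∈ Sys (rhoC 1 (n + 2)), InC j A c χ := by
      intro n hn χ hχ q hq
      have h1 := hone n hn χ hχ q (hA q hq)
      have h2 := hcl q hq
      have h3 : emb p j (χ (MvPolynomial.X q)) - c q =
          (emb p j (χ (MvPolynomial.X q)) - (1 + ((q : ℕ) : PadicAlgCl p))) +
            (1 + ((q : ℕ) : PadicAlgCl p) - c q) := by ring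
      rw [h3]
      exact lt_of_le_of_lt (IsUltrametricDist.norm_add_le_max _ _) (max_lt h1 h2)
    have key : ∀ n, Even n → 2 ≤ n → ∀ P : (HR → PadicAlgCl p) → Prop,
        |((((Sys (rhoC 1 (n + 2))).filter fun χ => P fun r => emb p j (χ r)).card : ℕ) : ℝ) -
          (1 / 2) * ((((Sys (matRep (intRep (PadicAlgCl p)
            (AZ (N := 1) (M := 1) one_ne_zero (one_dvd 1) n)))).filter
              fun χ => P fun r => χ r).card : ℕ) : ℝ)| ≤ (esBoundX 1 + 1 : ℕ) := by
      intro n hn hn2 P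
      have hfin := finiteDimensional_SymOne (M := 1) ℂ hn
      obtain ⟨r, hr, hrS⟩ := Sys_SymOne (M := 1) hn hn2
      rw [Sys_rhoN_eq one_ne_zero] at hrS
      rw [← card_emb (AZ (N := 1) (M := 1) one_ne_zero (one_dvd 1) n) j P, hrS,
        Multiset.filter_add, Multiset.filter_add, Multiset.card_add, Multiset.card_add]
      have h1 : ((r.filter fun χ => P fun r => emb p j (χ r)).card : ℝ) ≤
          (esBoundX 1 + 1 : ℕ) := by
        exact_mod_cast (Multiset.card_le_card (Multiset.filter_le _ _)).trans hr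
      have h2 : (0 : ℝ) ≤ ((r.filter fun χ => P fun r => emb p j (χ r)).card : ℝ) :=
        Nat.cast_nonneg _
      push_cast at h1 ⊢
      rw [abs_le]
      constructor <;> linarith
    have hb : ∀ n, bOne p A c n = 1 / 2 * (if Even n then ((p : ℝ) + 1) / 6 else 0) := by
      intro n
      unfold bOne
      by_cases hn : Even n
      · rw [if_pos ⟨hn, hcl⟩, if_pos hn]
        ring
      · rw [if_neg (fun h => hn h.1), if_neg hn, mul_zero]
    have hbeq : bOne p A c = fun n => 1 / 2 * (if Even n then ((p : ℝ) + 1) / 6 else 0) :=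
      funext hb
    rw [hbeq]
    refine ((apx_oneS hGE).smul (1 / 2)).perturb (esBoundX 1 + 1 : ℕ) 2 ?_ ?_
    · intro n hn0 x hx _
      by_cases hn : Even n
      · have h1 := key n hn hn0 fun g => (p : ℝ) ^ (-x) ≤ ‖g (Xp p)‖
        have h2 : Fin.cnt j 1 (n + 2) A c x = ((Sys (rhoC 1 (n + 2))).filter fun χ =>
            (p : ℝ) ^ (-x) ≤ ‖emb p j (χ (Xp p))‖).card := by
          unfold Fin.cnt
          congr 1
          apply Multiset.filter_congr
          intro χ hχ
          rw [slp, vp_le_iff hx]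
          exact ⟨fun h => h.2, fun h => ⟨hin n hn χ hχ, h⟩⟩
        have h3 : Gouv.cnt (p : ℝ) (oneS p n) x = ((Sys (matRep (intRep (PadicAlgCl p)
            (AZ (N := 1) (M := 1) one_ne_zero (one_dvd 1) n)))).filter
              fun χ => (p : ℝ) ^ (-x) ≤ ‖χ (Xp p)‖).card := by
          unfold Gouv.cnt oneS
          rw [Multiset.filter_map, Multiset.card_map]
          rfl
        rw [if_pos hn, h2, h3]
        exact h1
      · rw [if_neg hn]
        have h2 : Fin.cnt j 1 (n + 2) A c x = 0 := by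
          unfold Fin.cnt
          rw [hodd n hn]
          rfl
        rw [h2]
        simp
        positivity
    · intro n hn0
      by_cases hn : Even n
      · have h1 := key n hn hn0 fun _ => True
        have h2 : Fin.tot j 1 (n + 2) A c = ((Sys (rhoC 1 (n + 2))).filter fun _ => True).card := by
          unfold Fin.tot
          congr 1
          apply Multiset.filter_congr
          intro χ hχ
          exact ⟨fun _ => trivial, fun _ => hin n hn χ hχ⟩
        have h3 : (oneS p n).card = ((Sys (matRep (intRep (PadicAlgCl p)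
            (AZ (N := 1) (M := 1) one_ne_zero (one_dvd 1) n)))).filter fun _ => True).card := by
          rw [oneS, Multiset.card_map, Multiset.filter_true]
        rw [if_pos hn, h2, h3]
        convert h1
      · rw [if_neg hn]
        have h2 : Fin.tot j 1 (n + 2) A c = 0 := by
          unfold Fin.tot
          rw [hodd n hn]
          rfl
        rw [h2]
        simp
        positivity
  · have hempty : ∀ n, ∀ χ ∈ Sys (rhoC 1 (n + 2)), ¬ InC j A c χ := by
      intro n χ hχ hI
      by_cases hn : Even n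
      · apply hcl
        intro q hq
        have h1 := hone n hn χ hχ q (hA q hq)
        have h2 := hI q hq
        have h3 : 1 + ((q : ℕ) : PadicAlgCl p) - c q =
            (emb p j (χ (MvPolynomial.X q)) - c q) +
              (-(emb p j (χ (MvPolynomial.X q)) - (1 + ((q : ℕ) : PadicAlgCl p)))) := by ring
        rw [h3]
        refine lt_of_le_of_lt (IsUltrametricDist.norm_add_le_max _ _) (max_lt h2 ?_)
        rw [norm_neg]
        exact h1
      · rw [hodd n hn] at hχ
        exact absurd hχ (Multiset.notMem_zero χ)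
    have hb : bOne p A c = fun _ => 0 := by
      funext n
      unfold bOne
      rw [if_neg fun h => hcl h.2]
    rw [hb]
    refine Apx.zero.congr ?_ ?_ (fun _ => rfl)
    · intro n x
      have h2 : Fin.cnt j 1 (n + 2) A c x = 0 := by
        unfold Fin.cnt
        rw [Multiset.card_eq_zero, Multiset.filter_eq_nil]
        exact fun χ hχ h => hempty n χ hχ h.1
      rw [h2]
      simp
    · intro n
      have h2 : Fin.tot j 1 (n + 2) A c = 0 := by
        unfold Fin.tot
        rw [Multiset.card_eq_zero, Multiset.filter_eq_nil]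
        exact fun χ hχ h => hempty n χ hχ h
      rw [h2]
      simp

end Gouvea.P5
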