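import Pool.Agent.Work.MP_d3517d_nt.P5.Man
import Pool.Agent.Work.MP_d3517d_nt.P5.SymCountE

/-!
# P5, level one: modular symbols and the relations of Manin (MP_d3517d_nt)

* `KSR k n`: the vectors with `v + v|S = 0`, `v + v|R + v|R² = 0`;
* `evL`: for even `n`, `φ ↦ φ(∞, 0)` is an isomorphism of the symbols of level one with `KSR k n`;
* `forall_mem_iff`: a submodule stable under `SL₂(ℤ)` contains all values of `φ` if it contains
  `φ(∞, 0)`.
-/

open Matrix ModularGroup CongruenceSubgroup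

noncomputable section

namespace Gouvea.P5.OneM

open Gouvea.PX Gouvea.P5 Gouvea.P5.One
open Gouvea.PS (slk slk_apply slk_one slk_mul slk_smul slk_neg slk_map map_cast_mul)

variable (k : Type) [CommRing k] (n : ℕ)

/-- the action of an element of `SL₂(ℤ)` on the vectors, `v ↦ v|γ` -/
def sl (γ : G) : (Fin (n + 1) → k) →ₗ[k] (Fin (n + 1) → k) :=
  (slk n (γ.1.map (Int.cast : ℤ → k))).mulVecLin

theorem sl_apply (γ : G) (v : Fin (n + 1) → k) :
    sl k n γ v = (slk n (γ.1.map (Int.cast : ℤ → k))).mulVec v := rfl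

theorem sl_one (v : Fin (n + 1) → k) : sl k n 1 v = v := by
  rw [sl_apply]
  have h : ((1 : G).1).map (Int.cast : ℤ → k) = 1 := by
    rw [Matrix.SpecialLinearGroup.coe_one]
    simp [Matrix.map_one]
  rw [h, slk_one, Matrix.one_mulVec]

theorem sl_mul (γ δ : G) (v : Fin (n + 1) → k) : sl k n (γ * δ) v = sl k n δ (sl k n γ v) := by
  rw [sl_apply, sl_apply, sl_apply, Matrix.SpecialLinearGroup.coe_mul, map_cast_mul, slk_mul,
    Matrix.mulVec_mulVec]

theorem sl_neg (hn : Even n) (γ : G) (v : Fin (n + 1) → k) : sl k n (-γ) v = sl k n γ v := by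
  rw [sl_apply, sl_apply, Matrix.SpecialLinearGroup.coe_neg]
  have h : (-γ.1).map (Int.cast : ℤ → k) = -(γ.1.map (Int.cast : ℤ → k)) := by
    ext i j
    simp
  rw [h, slk_neg n hn]

/-- the left action of `SL₂(ℤ)` on the vectors -/
def rhoM : G →* AddMonoid.End (Fin (n + 1) → k) where
  toFun γ := (sl k n γ⁻¹).toAddMonoidHom
  map_one' := by
    refine AddMonoidHom.ext fun v => ?_
    change sl k n (1 : G)⁻¹ v = v
    rw [inv_one, sl_one]
  map_mul' γ δ := by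
    refine AddMonoidHom.ext fun v => ?_
    change sl k n (γ * δ)⁻¹ v = sl k n γ⁻¹ (sl k n δ⁻¹ v)
    rw [_root_.mul_inv_rev, sl_mul]

theorem rhoM_apply (γ : G) (v : Fin (n + 1) → k) : rhoM k n γ v = sl k n γ⁻¹ v := rfl

/-- **the vectors with the relations of Manin** -/
def KSR : Submodule k (Fin (n + 1) → k) :=
  LinearMap.ker (LinearMap.id + sl k n S) ⊓
    LinearMap.ker (LinearMap.id + sl k n Re + sl k n Re ∘ₗ sl k n Re)

theorem mem_KSR {v : Fin (n + 1) → k} : v ∈ KSR k n ↔ v + sl k n S v = 0 ∧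
    v + sl k n Re v + sl k n Re (sl k n Re v) = 0 := Iff.rfl

variable {k n}

theorem Re_inv : (Re : G)⁻¹ = Re * Re := Re_Re.symm

theorem S_inv : (S : G)⁻¹ = -S := by
  rw [inv_eq_iff_mul_eq_one, mul_neg, S_mul_S, neg_neg]

theorem rhoM_neg (hn : Even n) : rhoM k n (-1) = 1 := by
  refine AddMonoidHom.ext fun v => ?_
  change sl k n (-1 : G)⁻¹ v = v
  have h : ((-1 : G))⁻¹ = -1 := by
    rw [inv_eq_iff_mul_eq_one]
    simp
  rw [h, sl_neg k n hn, sl_one]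

theorem rhoM_S (hn : Even n) {v : Fin (n + 1) → k} (hv : v ∈ KSR k n) : v + rhoM k n S v = 0 := by
  rw [rhoM_apply, S_inv, sl_neg k n hn]
  exact hv.1

theorem rhoM_R {v : Fin (n + 1) → k} (hv : v ∈ KSR k n) :
    v + rhoM k n Re v + rhoM k n Re (rhoM k n Re v) = 0 := by
  have h1 : ∀ w, rhoM k n Re w = sl k n Re (sl k n Re w) := fun w => by
    rw [rhoM_apply, Re_inv, sl_mul]
  have h2 : sl k n Re (sl k n Re (sl k n Re (sl k n Re v))) = sl k n Re v := by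
    have e : Re * (Re * (Re * Re)) = (Re : G) := by rw [Re_Re, mul_inv_cancel, mul_one]
    rw [← sl_mul, ← sl_mul, ← sl_mul, e]
  rw [h1, h1, h2, ← hv.2]
  change v + _ + _ = v + _ + _
  rw [add_right_comm]
  rfl

/-! ### The symbols as cocycles -/

/-- an element of `SL₂(ℤ)` in the monoid of level one -/
def g1 (γ : G) : SN 1 := toSN γ (mem_of_dvd (one_dvd _))

theorem isG0_g1 (γ : G) : IsG0 1 (g1 γ) := isG0_toSN _ _ (mem_of_dvd (one_dvd _))

theorem g1_mul (γ δ : G) : g1 (γ * δ) = g1 γ * g1 δ := rfl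

theorem g1_one : g1 1 = 1 := Subtype.ext rfl

/-- the cusp `γ ∞` -/
def c1 (γ : G) : Cusp 1 := g1 γ • inf 1

theorem c1_mul (γ δ : G) : c1 (γ * δ) = g1 γ • c1 δ := by
  rw [c1, c1, g1_mul, mul_smul]

theorem c1_one : c1 1 = inf 1 := by
  rw [c1, g1_one, one_smul]

theorem c1_surjective : Function.Surjective c1 := by
  intro x
  obtain ⟨g, hg⟩ := cu_surjective x
  exact ⟨g.1, hg⟩

theorem c1_eq_inf {γ : G} (h : γ 1 0 = 0) : c1 γ = inf 1 := toSN_smul_inf γ _ h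

theorem c1_of_inf {γ : G} (h : c1 γ = inf 1) : γ 1 0 = 0 := by
  obtain ⟨hu, hv, hne, e⟩ := PX.smul_mk (g1 γ) 1 0 isCoprime_one_left (dvd_zero _)
    (Or.inl one_ne_zero)
  have h1 : c1 γ = _ := e
  rw [h, inf, Cusp.mk_eq] at h1
  have h2 : (1 : ℤ) * (γ 1 0 * 1 + γ 1 1 * 0) = (γ 0 0 * 1 + γ 0 1 * 0) * 0 := h1
  linarith

/-- the cusp `0` -/
def zero1 : Cusp 1 := c1 S

variable {φ : Cusp 1 → Cusp 1 → Fin (n + 1) → k}

theorem phi_g1 (hφ : φ ∈ Sym k 1 1 n) (γ : G) (x y : Cusp 1) :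
    φ (g1 γ • x) (g1 γ • y) = sl k n γ⁻¹ (φ x y) := by
  have h1 := congrFun (congrFun (hφ.2 (g1 γ) (isG0_g1 γ)) x) y
  rw [PX.act_apply] at h1
  rw [← h1]
  change _ = sl k n γ⁻¹ (sl k n γ (φ (g1 γ • x) (g1 γ • y)))
  rw [← sl_mul, mul_inv_cancel, sl_one]

theorem phi_self (hφ : φ ∈ Sym k 1 1 n) (x : Cusp 1) : φ x x = 0 := by
  have := hφ.1 x x x
  simpa using this

/-- the cocycle of a symbol -/
theorem phi_mul (hφ : φ ∈ Sym k 1 1 n) (γ δ : G) : φ (inf 1) (c1 (γ * δ)) =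
    φ (inf 1) (c1 γ) + sl k n γ⁻¹ (φ (inf 1) (c1 δ)) := by
  rw [← hφ.1 (inf 1) (c1 γ) (c1 (γ * δ)), c1_mul, ← phi_g1 hφ γ]
  rfl

/-- a stable submodule contains all values if it contains `φ(∞, 0)`. -/
theorem phi_mem (hφ : φ ∈ Sym k 1 1 n) {N : AddSubgroup (Fin (n + 1) → k)}
    (hN : ∀ γ : G, ∀ v ∈ N, sl k n γ v ∈ N) (h : φ (inf 1) zero1 ∈ N) (x y : Cusp 1) :
    φ x y ∈ N := by
  have key : ∀ γ : G, φ (inf 1) (c1 γ) ∈ N := by
    intro γ
    have hmem : γ ∈ Subgroup.closure {S, T} := by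
      rw [SpecialLinearGroup.SL2Z_generators]
      exact Subgroup.mem_top γ
    induction hmem using Subgroup.closure_induction with
    | mem x hx =>
      rcases hx with rfl | hx
      · exact h
      · rw [Set.mem_singleton_iff.1 hx, c1_eq_inf T10, phi_self hφ]
        exact N.zero_mem
    | one =>
      rw [c1_one, phi_self hφ]
      exact N.zero_mem
    | mul x y _ _ hx hy =>
      rw [phi_mul hφ]
      exact N.add_mem hx (hN _ _ hy)
    | inv x _ hx =>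
      have e := phi_mul hφ x⁻¹ x
      rw [inv_mul_cancel, c1_one, phi_self hφ] at e
      rw [eq_neg_of_add_eq_zero_left e.symm]
      exact N.neg_mem (hN _ _ hx)
  obtain ⟨γ, rfl⟩ := c1_surjective x
  obtain ⟨δ, rfl⟩ := c1_surjective y
  have e := hφ.1 (inf 1) (c1 γ) (c1 δ)
  rw [eq_sub_of_add_eq' e]
  exact N.sub_mem (key δ) (key γ)

/-- the values of a symbol satisfy the relations of Manin -/
theorem phi_KSR (hφ : φ ∈ Sym k 1 1 n) : φ (inf 1) zero1 ∈ KSR k n := by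
  rw [mem_KSR]
  have hc : ∀ γ : G, ∀ x y, sl k n γ (φ (g1 γ • x) (g1 γ • y)) = φ x y := by
    intro γ x y
    rw [phi_g1 hφ, ← sl_mul, inv_mul_cancel, sl_one]
  have hSi : g1 S • inf 1 = zero1 := rfl
  have hS0 : g1 S • zero1 = inf 1 := by
    rw [zero1, ← c1_mul]
    exact c1_eq_inf (by rw [mul_ij, S10, S00, S11]; ring)
  have hR0 : g1 Re • zero1 = inf 1 := by
    rw [zero1, ← c1_mul, Re_mul_S]
    exact c1_eq_inf T10
  have hRR : g1 Re • g1 Re • inf 1 = zero1 := by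
    have h1 : g1 Re • g1 Re • g1 Re • zero1 = zero1 := by
      rw [← mul_smul, ← mul_smul, ← g1_mul, ← g1_mul, mul_assoc, Re_Re, mul_inv_cancel, g1_one,
        one_smul]
    rwa [hR0] at h1
  constructor
  · have h1 := hc S (inf 1) zero1
    rw [hSi, hS0] at h1
    have h2 : φ zero1 (inf 1) = -φ (inf 1) zero1 := by
      have := hφ.1 (inf 1) zero1 (inf 1)
      rw [phi_self hφ] at this
      exact eq_neg_of_add_eq_zero_right this
    rw [h2, map_neg] at h1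
    nth_rewrite 1 [← h1]
    exact neg_add_cancel _
  · have h1 := hc Re zero1 (g1 Re • inf 1)
    have h2 := hc Re (g1 Re • inf 1) (inf 1)
    rw [hR0, hRR] at h1
    rw [hRR] at h2
    rw [h1, h2, hφ.1, hφ.1, phi_self hφ]

/-! ### The isomorphism -/

/-- the function on the cusps attached to a vector -/
def Fc (v : Fin (n + 1) → k) (x : Cusp 1) : Fin (n + 1) → k :=
  Cc (rhoM k n) v (Function.surjInv c1_surjective x)

theorem Cc_of_inf (v : Fin (n + 1) → k) {γ : G} (h : γ 1 0 = 0) :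
    Cc (rhoM k n) v γ = 0 := by
  have h1 : Cc (rhoM k n) v 1 = 0 := by
    unfold Cc
    rw [Matrix.SpecialLinearGroup.coe_one]
    simp [Phi_zero]
  have hd := det1 γ
  rw [h, mul_zero, sub_zero] at hd
  rcases Int.isUnit_iff.1 (IsUnit.of_mul_eq_one _ hd) with h2 | h2
  · rw [← h1]
    refine Cc_congr _ _ ?_ ?_
    · rw [h2]
      rfl
    · rw [h]
      rfl
  · rw [← Cc_neg, ← h1]
    refine Cc_congr _ _ ?_ ?_
    · rw [neg_ij, h2]
      rfl
    · rw [neg_ij, h]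
      rfl

theorem Cc_mul (hn : Even n) {v : Fin (n + 1) → k} (hv : v ∈ KSR k n) (γ δ : G) :
    Cc (rhoM k n) v (γ * δ) = Cc (rhoM k n) v γ + sl k n γ⁻¹ (Cc (rhoM k n) v δ) :=
  (manin (rhoM_neg hn) (rhoM_S hn hv) (rhoM_R hv)).1 γ δ

theorem Fc_c1 (hn : Even n) {v : Fin (n + 1) → k} (hv : v ∈ KSR k n) (γ : G) :
    Fc v (c1 γ) = Cc (rhoM k n) v γ := by
  set δ := Function.surjInv c1_surjective (c1 γ) with hδ
  have h1 : c1 δ = c1 γ := Function.surjInv_eq c1_surjective (c1 γ)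
  have h2 : c1 (γ⁻¹ * δ) = inf 1 := by
    rw [c1_mul, h1, ← c1_mul, inv_mul_cancel, c1_one]
  have h3 := Cc_mul hn hv γ (γ⁻¹ * δ)
  rw [mul_inv_cancel_left, Cc_of_inf v (c1_of_inf h2), map_zero, add_zero] at h3
  exact h3

/-- the symbol attached to a vector -/
def symV (v : Fin (n + 1) → k) : Cusp 1 → Cusp 1 → Fin (n + 1) → k := fun x y => Fc v y - Fc v x

theorem symV_mem (hn : Even n) {v : Fin (n + 1) → k} (hv : v ∈ KSR k n) :
    symV v ∈ Sym k 1 1 n := by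
  refine ⟨fun x y z => ?_, fun g hg => ?_⟩
  · change (Fc v y - Fc v x) + (Fc v z - Fc v y) = Fc v z - Fc v x
    abel
  · obtain ⟨γ, rfl⟩ : ∃ γ : G, g1 γ = g := ⟨⟨g.1, hg.1⟩, Subtype.ext rfl⟩
    funext x y
    obtain ⟨a, rfl⟩ := c1_surjective x
    obtain ⟨b, rfl⟩ := c1_surjective y
    rw [PX.act_apply]
    change sl k n γ (Fc v (g1 γ • c1 b) - Fc v (g1 γ • c1 a)) = Fc v (c1 b) - Fc v (c1 a)
    rw [← c1_mul, ← c1_mul, Fc_c1 hn hv, Fc_c1 hn hv, Fc_c1 hn hv, Fc_c1 hn hv, Cc_mul hn hv,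
      Cc_mul hn hv, add_sub_add_left_eq_sub, ← map_sub, ← sl_mul, inv_mul_cancel, sl_one]

theorem symV_eval (hn : Even n) {v : Fin (n + 1) → k} (hv : v ∈ KSR k n) :
    symV v (inf 1) zero1 = v := by
  change Fc v zero1 - Fc v (inf 1) = v
  rw [← c1_one, zero1, Fc_c1 hn hv, Fc_c1 hn hv,
    (manin (rhoM_neg hn) (rhoM_S hn hv) (rhoM_R hv)).2.1,
    (manin (rhoM_neg hn) (rhoM_S hn hv) (rhoM_R hv)).2.2, sub_zero]

variable (k) in
/-- **The symbols of level one are the vectors with the relations of Manin.** -/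
def evL (hn : Even n) : Sym k 1 1 n ≃ₗ[k] KSR k n where
  toFun φ := ⟨φ.1 (inf 1) zero1, phi_KSR φ.2⟩
  map_add' φ ψ := rfl
  map_smul' a φ := rfl
  invFun v := ⟨symV v.1, symV_mem hn v.2⟩
  left_inv φ := by
    refine Subtype.ext ?_
    have hψ : symV (φ.1 (inf 1) zero1) - φ.1 ∈ Sym k 1 1 n :=
      (Sym k 1 1 n).sub_mem (symV_mem hn (phi_KSR φ.2)) φ.2
    have h0 : ∀ x y, (symV (φ.1 (inf 1) zero1) - φ.1) x y ∈ (⊥ : AddSubgroup (Fin (n + 1) → k)) := by
      refine phi_mem hψ (fun γ v hv => ?_) ?_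
      · rw [AddSubgroup.mem_bot] at hv ⊢
        rw [hv, map_zero]
      · rw [AddSubgroup.mem_bot]
        change symV (φ.1 (inf 1) zero1) (inf 1) zero1 - φ.1 (inf 1) zero1 = 0
        rw [symV_eval hn (phi_KSR φ.2), sub_self]
    funext x y
    exact sub_eq_zero.1 ((AddSubgroup.mem_bot).1 (h0 x y))
  right_inv v := Subtype.ext (symV_eval hn v.2)

@[simp] theorem evL_apply (hn : Even n) (φ : Sym k 1 1 n) :
    (evL k hn φ : Fin (n + 1) → k) = φ.1 (inf 1) zero1 := rfl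

theorem evL_symm_apply (hn : Even n) (v : KSR k n) :
    ((evL k hn).symm v : Cusp 1 → Cusp 1 → Fin (n + 1) → k) = symV v.1 := rfl

/-- **the values of a symbol in a stable subgroup** -/
theorem forall_mem_iff (φ : Sym k 1 1 n) {N : AddSubgroup (Fin (n + 1) → k)}
    (hN : ∀ γ : G, ∀ v ∈ N, sl k n γ v ∈ N) :
    (∀ x y, φ.1 x y ∈ N) ↔ φ.1 (inf 1) zero1 ∈ N :=
  ⟨fun h => h _ _, fun h x y => phi_mem φ.2 hN h x y⟩

/-- the same for submodules -/
theorem forall_mem_iff' (φ : Sym k 1 1 n) {N : Submodule k (Fin (n + 1) → k)}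
    (hN : ∀ γ : G, ∀ v ∈ N, sl k n γ v ∈ N) :
    (∀ x y, φ.1 x y ∈ N) ↔ φ.1 (inf 1) zero1 ∈ N :=
  forall_mem_iff φ (N := N.toAddSubgroup) hN

/-- the cusp `0` as a fraction -/
theorem zero1_eq : zero1 = Cusp.mk 0 1 (by rw [Nat.cast_one]; exact isCoprime_one_right)
    (one_dvd _) (Or.inr one_ne_zero) := by
  obtain ⟨hu, hv, hne, e⟩ := PX.smul_mk (g1 S) 1 0 isCoprime_one_left (dvd_zero _)
    (Or.inl one_ne_zero)
  refine e.trans (Cusp.mk_eq.2 ?_)
  change (S 0 0 * 1 + S 0 1 * 0) * 1 = 0 * (S 1 0 * 1 + S 1 1 * 0)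
  rw [S00]
  ring

end Gouvea.P5.OneM
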