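import Pool.Agent.Work.MP_d3517d_nt.P5.NxLow

/-!
# P5, level one: the index of `N_x` in the period polynomials, numerically (MP_d3517d_nt)
-/

open Matrix ModularGroup Module Polynomial

noncomputable section

namespace Gouvea.P5.One

variable {p : ℕ} [Fact p.Prime] {n : ℕ}

lemma sum_KS_KR (hp : p = 2 ∨ p = 3) (hn : Even n) (x : ℕ) (hx : x ≤ n) :
    12 * ∑ j ∈ Finset.range x, (finrank (ZMod p) (KS (Gu p) (rho p n j)) +
        finrank (ZMod p) (KR (Gu p) (rho p n j))) ≤ 7 * ((p + 1) * (x * (x + 3))) := by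
  induction x with
  | zero => simp
  | succ x ih =>
    have h1 := ih (by omega)
    have h2 := finrank_KS_bound (p := p) (n := n) (j := x) hp hn (by omega)
    have h3 := finrank_KR_bound (p := p) (n := n) (j := x) hp hn (by omega)
    rw [Finset.sum_range_succ]
    have h4 : 7 * ((p + 1) * ((x + 1) * (x + 1 + 3))) = 7 * ((p + 1) * (x * (x + 3))) +
        (6 * ((p + 1) * (x + 2)) + 4 * ((p + 1) * (2 * x + 4))) := by ring
    rw [h4]
    omega

lemma sum_KI (hp : p = 2 ∨ p = 3) (hn : Even n) (x : ℕ) (hx : x ≤ n) :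
    12 * ∑ j ∈ Finset.range x, (finrank (ZMod p) (KI (Gu p) (rho p n j) S) +
        finrank (ZMod p) (KI (Gu p) (rho p n j) Re)) ≤ (p + 1) * (x * (5 * x + 19)) := by
  induction x with
  | zero => simp
  | succ x ih =>
    have h1 := ih (by omega)
    have h2 := finrank_KI_S_bound (p := p) (n := n) (j := x) hp hn (by omega)
    have h3 := finrank_KI_Re_bound (p := p) (n := n) (j := x) hp
    rw [Finset.sum_range_succ]
    have h4 : (p + 1) * ((x + 1) * (5 * (x + 1) + 19)) = (p + 1) * (x * (5 * x + 19)) +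
        (6 * ((p + 1) * (x + 2)) + 4 * ((p + 1) * (x + 3))) := by ring
    rw [h4]
    omega

lemma logb_pow_nat (m : ℕ) : Real.logb p (((p ^ m : ℕ) : ℝ)) = m := by
  have hp1 : (1 : ℝ) < p := by exact_mod_cast (Fact.out : p.Prime).one_lt
  rw [Nat.cast_pow, Real.logb_pow, Real.logb_self_eq_one hp1, mul_one]

lemma tri_nat (x : ℕ) : ((x * (x + 1) / 2 : ℕ) : ℝ) = x * (x + 1) / 2 := by
  have h : 2 ∣ x * (x + 1) := (Nat.even_mul_succ_self x).two_dvd
  rw [Nat.cast_div h (by norm_num)]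
  push_cast
  ring

/-- the upper bound -/
theorem upper_log (hp : p = 2 ∨ p = 3) (hn : Even n) (hn1 : 1 ≤ n) {x : ℕ}
    (hx : x * (p + 1) ≤ n)
    (hlow : p ^ ((p + 1) * (x * (x + 1) / 2)) ≤ (Nx p n x).index) :
    Real.logb p ((Nx p n x).relIndex (BB p n)) ≤ ((p : ℝ) + 1) * x ^ 2 / 12 + 3 * n := by
  have hp1 : (1 : ℝ) < p := by exact_mod_cast (Fact.out : p.Prime).one_lt
  have hxn : x ≤ n := le_trans (Nat.le_mul_of_pos_right x (Nat.succ_pos p)) hx
  have hidx : (Nx p n x).index ≠ 0 := index_Nx_ne_zero x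
  have hr : (Nx p n x).relIndex (BB p n) ≠ 0 := fun h0 => hidx (Nat.eq_zero_of_zero_dvd (h0 ▸
      AddSubgroup.relIndex_dvd_index_of_normal (Nx p n x) (BB p n)))
  have hu := upper (p := p) hn hn1 hxn
  have h1 : Real.logb p ((Nx p n x).relIndex (BB p n)) + Real.logb p ((Nx p n x).index) ≤
      ((∑ j ∈ Finset.range x, (finrank (ZMod p) (KS (Gu p) (rho p n j)) +
        finrank (ZMod p) (KR (Gu p) (rho p n j))) + n : ℕ) : ℝ) := by
    rw [← Real.logb_mul (by exact_mod_cast hr) (by exact_mod_cast hidx)]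
    have hpos : 0 < (Nx p n x).relIndex (BB p n) * (Nx p n x).index :=
      Nat.mul_pos (Nat.pos_of_ne_zero hr) (Nat.pos_of_ne_zero hidx)
    have hpos' : (0 : ℝ) < ((Nx p n x).relIndex (BB p n) : ℝ) * ((Nx p n x).index : ℝ) := by
      exact_mod_cast hpos
    refine le_trans (Real.logb_le_logb_of_le hp1 hpos' ?_) (logb_pow_nat (p := p) _).le
    exact_mod_cast hu
  have h2 : (((p + 1) * (x * (x + 1) / 2) : ℕ) : ℝ) ≤ Real.logb p ((Nx p n x).index) := by
    rw [← logb_pow_nat (p := p) ((p + 1) * (x * (x + 1) / 2))]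
    have hpos : (0 : ℝ) < ((p ^ ((p + 1) * (x * (x + 1) / 2)) : ℕ) : ℝ) := by
      exact_mod_cast (pow_pos (Fact.out : p.Prime).pos _)
    exact Real.logb_le_logb_of_le hp1 hpos (by exact_mod_cast hlow)
  rw [Nat.cast_mul, tri_nat] at h2
  have h3 : (12 : ℝ) * ((∑ j ∈ Finset.range x, (finrank (ZMod p) (KS (Gu p) (rho p n j)) +
        finrank (ZMod p) (KR (Gu p) (rho p n j))) : ℕ) : ℝ) ≤
        7 * (((p : ℝ) + 1) * (x * (x + 3))) := by
    exact_mod_cast sum_KS_KR hp hn x hxn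
  have h4 : (x : ℝ) * (p + 1) ≤ n := by exact_mod_cast hx
  rw [Nat.cast_add] at h1
  push_cast at h1 h2 h3
  nlinarith

/-- the lower bound -/
theorem lower_log (hp : p = 2 ∨ p = 3) (hn : Even n) (hn1 : 1 ≤ n) {x : ℕ}
    (hx : x * (p + 1) ≤ n)
    (hlow : p ^ ((p + 1) * (x * (x + 1) / 2)) ≤ (Nx p n x).index) :
    ((p : ℝ) + 1) * x ^ 2 / 12 - 4 * n ≤ Real.logb p ((Nx p n x).relIndex (BB p n)) := by
  have hp1 : (1 : ℝ) < p := by exact_mod_cast (Fact.out : p.Prime).one_lt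
  have hxn : x ≤ n := le_trans (Nat.le_mul_of_pos_right x (Nat.succ_pos p)) hx
  have hidx : (Nx p n x).index ≠ 0 := index_Nx_ne_zero x
  have hr : (Nx p n x).relIndex (BB p n) ≠ 0 := fun h0 => hidx (Nat.eq_zero_of_zero_dvd (h0 ▸
      AddSubgroup.relIndex_dvd_index_of_normal (Nx p n x) (BB p n)))
  have hu := lower (p := p) hn hn1 hxn
  have h1 : Real.logb p ((Nx p n x).index) ≤ Real.logb p ((Nx p n x).relIndex (BB p n)) +
      ((∑ j ∈ Finset.range x, (finrank (ZMod p) (KI (Gu p) (rho p n j) S) +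
        finrank (ZMod p) (KI (Gu p) (rho p n j) Re)) + (n + 2 * x) : ℕ) : ℝ) := by
    rw [← logb_pow_nat (p := p) (_ + _), ← Real.logb_mul (by exact_mod_cast hr)
      (by exact_mod_cast (pow_pos (Fact.out : p.Prime).pos _).ne')]
    have hpos : (0 : ℝ) < ((Nx p n x).index : ℝ) := by
      exact_mod_cast Nat.pos_of_ne_zero hidx
    exact Real.logb_le_logb_of_le hp1 hpos (by exact_mod_cast hu)
  have h2 : (((p + 1) * (x * (x + 1) / 2) : ℕ) : ℝ) ≤ Real.logb p ((Nx p n x).index) := by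
    rw [← logb_pow_nat (p := p) ((p + 1) * (x * (x + 1) / 2))]
    have hpos : (0 : ℝ) < ((p ^ ((p + 1) * (x * (x + 1) / 2)) : ℕ) : ℝ) := by
      exact_mod_cast (pow_pos (Fact.out : p.Prime).pos _)
    exact Real.logb_le_logb_of_le hp1 hpos (by exact_mod_cast hlow)
  rw [Nat.cast_mul, tri_nat] at h2
  have h3 : (12 : ℝ) * ((∑ j ∈ Finset.range x, (finrank (ZMod p) (KI (Gu p) (rho p n j) S) +
        finrank (ZMod p) (KI (Gu p) (rho p n j) Re)) : ℕ) : ℝ) ≤
        ((p : ℝ) + 1) * (x * (5 * x + 19)) := by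
    exact_mod_cast sum_KI hp hn x hxn
  have h4 : (x : ℝ) * (p + 1) ≤ n := by exact_mod_cast hx
  rw [Nat.cast_add] at h1
  push_cast at h1 h2 h3
  have h5 : (0 : ℝ) ≤ x := Nat.cast_nonneg x
  nlinarith

lemma relIndex_BB_ne_zero (x : ℕ) : (Nx p n x).relIndex (BB p n) ≠ 0 := fun h0 =>
  index_Nx_ne_zero (p := p) (n := n) x (Nat.eq_zero_of_zero_dvd (h0 ▸
    AddSubgroup.relIndex_dvd_index_of_normal (Nx p n x) (BB p n)))

/-- **The index of `N_x` in the period polynomials.** -/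
theorem abs_log (hp : p = 2 ∨ p = 3) (hn : Even n) {x : ℕ} (hx : x * (p + 1) ≤ n) :
    |Real.logb p ((Nx p n x).relIndex (BB p n)) - ((p : ℝ) + 1) * (x : ℝ) ^ 2 / 12| ≤
      (4 : ℝ) * n := by
  rcases Nat.eq_zero_or_pos n with hn0 | hn1
  · subst hn0
    have hx0 : x = 0 := by
      rcases Nat.eq_zero_or_pos x with h | h
      · exact h
      · have h1 := Nat.mul_pos h (show 0 < p + 1 by omega)
        omega
    subst hx0
    rw [Nx_zero, AddSubgroup.relIndex_top_left]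
    simp
  · rw [abs_le]
    have h1 := upper_log hp hn hn1 hx (index_Nx_ge hx)
    have h2 := lower_log hp hn hn1 hx (index_Nx_ge hx)
    have h3 : (0 : ℝ) ≤ n := Nat.cast_nonneg n
    constructor <;> linarith

end Gouvea.P5.One
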