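import Pool.Agent.Work.MP_d3517d_nt.Fin.Main
import Pool.Agent.Work.MP_d3517d_nt.POS.EisBeta
import Pool.Agent.Work.MP_d3517d_nt.NF.Partial
import Pool.Agent.Work.MP_d3517d_nt.NF.Integral

/-!
# Common lemmas for the positivity at `p = 2, 3` (MP_d3517d_nt, P5)

* `SB N F = Σ_{d e = N} (μ * μ)(d) F(e)`, its value on constants, boundedness;
* `newform_weight` : the weight of a newform is even and at least `2`;
* `SB_cS_ge`, `SB_cS_nonneg` : the cusp forms at the levels `c M`;
* `eq_zero_of_bdd` : a bounded linear function is constant.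
-/

set_option autoImplicit false

open Finset MvPolynomial Gouvea.Sys Gouvea.ES Gouvea.Fin Gouvea.NF Gouvea.POS

noncomputable section

namespace Gouvea.Pos23

/-- the sum over the divisors with the coefficients `μ * μ` -/
def SB (N : ℕ) (F : ℕ → ℝ) : ℝ :=
  ∑ x ∈ N.divisorsAntidiagonal,
    (((ArithmeticFunction.moebius * ArithmeticFunction.moebius) x.1 : ℤ) : ℝ) * F x.2

variable {N : ℕ}

lemma SB_add (F G : ℕ → ℝ) : SB N (fun M => F M + G M) = SB N F + SB N G := by
  unfold SB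
  rw [← Finset.sum_add_distrib]
  exact Finset.sum_congr rfl fun x _ => by ring

lemma SB_sub (F G : ℕ → ℝ) : SB N (fun M => F M - G M) = SB N F - SB N G := by
  unfold SB
  rw [← Finset.sum_sub_distrib]
  exact Finset.sum_congr rfl fun x _ => by ring

lemma SB_mul (a : ℝ) (F : ℕ → ℝ) : SB N (fun M => a * F M) = a * SB N F := by
  unfold SB
  rw [Finset.mul_sum]
  exact Finset.sum_congr rfl fun x _ => by ring

lemma SB_congr {F G : ℕ → ℝ} (h : ∀ M, M ∣ N → F M = G M) : SB N F = SB N G := by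
  unfold SB
  refine Finset.sum_congr rfl fun x hx => ?_
  rw [h x.2 ⟨x.1, by rw [← (Nat.mem_divisorsAntidiagonal.1 hx).1, mul_comm]⟩]

lemma ne_zero_of_dvd (hN : 0 < N) {M : ℕ} (h : M ∣ N) : M ≠ 0 := by
  rintro rfl
  exact hN.ne' (Nat.eq_zero_of_zero_dvd h)

/-- the value on constants is `μ(N)` -/
lemma SB_one (hN : 0 < N) : SB N (fun _ => 1) = ((ArithmeticFunction.moebius N : ℤ) : ℝ) := by
  have h1 : (ArithmeticFunction.moebius * ArithmeticFunction.moebius) *
      (ArithmeticFunction.zeta : ArithmeticFunction ℤ) = ArithmeticFunction.moebius := by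
    rw [mul_assoc, ArithmeticFunction.moebius_mul_coe_zeta, mul_one]
  have h2 := congrArg (fun f : ArithmeticFunction ℤ => ((f N : ℤ) : ℝ)) h1
  beta_reduce at h2
  rw [← h2, ArithmeticFunction.mul_apply, SB, Int.cast_sum]
  refine Finset.sum_congr rfl fun x hx => ?_
  have h3 : x.2 ≠ 0 := by
    intro h0
    have := (Nat.mem_divisorsAntidiagonal.1 hx).1
    rw [h0, mul_zero] at this
    omega
  rw [Int.cast_mul, ArithmeticFunction.natCoe_apply, ArithmeticFunction.zeta_apply_ne h3]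
  simp

lemma SB_one_le (hN : 0 < N) : SB N (fun _ => 1) ≤ 1 := by
  rw [SB_one hN]
  have h1 : ArithmeticFunction.moebius N ≤ 1 :=
    (le_abs_self _).trans ArithmeticFunction.abs_moebius_le_one
  exact_mod_cast h1

/-- boundedness in even weight -/
def Bdd (f : ℕ → ℝ) : Prop := ∃ C : ℝ, ∀ n, Even n → |f n| ≤ C

lemma Bdd.add {f g : ℕ → ℝ} (hf : Bdd f) (hg : Bdd g) : Bdd fun n => f n + g n := by
  obtain ⟨C, hC⟩ := hf
  obtain ⟨D, hD⟩ := hg
  exact ⟨C + D, fun n hn => (abs_add_le _ _).trans (add_le_add (hC n hn) (hD n hn))⟩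

lemma Bdd.mul (a : ℝ) {f : ℕ → ℝ} (hf : Bdd f) : Bdd fun n => a * f n := by
  obtain ⟨C, hC⟩ := hf
  refine ⟨|a| * C, fun n hn => ?_⟩
  rw [abs_mul]
  exact mul_le_mul_of_nonneg_left (hC n hn) (abs_nonneg a)

lemma Bdd.congr {f g : ℕ → ℝ} (hf : Bdd f) (h : ∀ n, Even n → f n = g n) : Bdd g := by
  obtain ⟨C, hC⟩ := hf
  exact ⟨C, fun n hn => by rw [← h n hn]; exact hC n hn⟩

lemma Bdd.const (a : ℝ) : Bdd fun _ => a := ⟨|a|, fun _ _ => le_rfl⟩

/-- `SB` of bounded functions is bounded -/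
lemma SB_bdd {F : ℕ → ℕ → ℝ} (h : ∀ M, M ∣ N → Bdd fun n => F n M) : Bdd fun n => SB N (F n) := by
  have h1 : ∀ S : Finset (ℕ × ℕ), S ⊆ N.divisorsAntidiagonal → Bdd fun n => ∑ x ∈ S,
      (((ArithmeticFunction.moebius * ArithmeticFunction.moebius) x.1 : ℤ) : ℝ) * F n x.2 := by
    intro S
    induction S using Finset.induction_on with
    | empty =>
      intro _
      exact (Bdd.const 0).congr fun n _ => by simp
    | insert a S ha ih =>
      intro hS
      have h2 := ih fun x hx => hS (Finset.mem_insert_of_mem hx)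
      have h3 := Nat.mem_divisorsAntidiagonal.1 (hS (Finset.mem_insert_self a S))
      have h4 := (h a.2 ⟨a.1, by rw [← h3.1, mul_comm]⟩).mul
        ((((ArithmeticFunction.moebius * ArithmeticFunction.moebius) a.1 : ℤ) : ℝ))
      exact (h4.add h2).congr fun n _ => by rw [Finset.sum_insert ha]
  exact h1 _ (Finset.Subset.refl _)

/-- a linear function which is bounded in even weight is constant -/
lemma eq_zero_of_bdd {a b : ℝ} (h : Bdd fun n => a * n + b) : a = 0 := by
  obtain ⟨C, hC⟩ := h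
  by_contra ha
  have ha' : 0 < |a| := abs_pos.2 ha
  obtain ⟨m, hm⟩ := exists_nat_gt ((C + |b|) / |a|)
  have h1 := hC (2 * m) (even_two_mul m)
  have h2 : |a * ((2 * m : ℕ) : ℝ)| ≤ C + |b| := by
    have e : a * ((2 * m : ℕ) : ℝ) = (a * ((2 * m : ℕ) : ℝ) + b) - b := by ring
    rw [e]
    exact (abs_sub _ _).trans (add_le_add h1 le_rfl)
  rw [abs_mul, Nat.abs_cast] at h2
  rw [div_lt_iff₀ ha'] at hm
  have h3 : (m : ℝ) ≤ ((2 * m : ℕ) : ℝ) := by
    push_cast
    have : (0 : ℝ) ≤ m := Nat.cast_nonneg m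
    linarith
  nlinarith

/-! ### newforms -/

theorem ne_zero_of_isNewform (hN : 0 < N) {k : ℕ} {f : Gouvea.Cusp N k} (hf : IsNewform N k f) :
    f ≠ 0 := by
  rintro rfl
  have h1 := hf.norm
  rw [show coef (⇑(0 : Gouvea.Cusp N k)) 1 = 0 from ?_] at h1
  · exact zero_ne_one h1
  · have h2 := NF.coef_smul (N := N) (k := k) hN (NF.coe_mem_Sp (0 : Gouvea.Cusp N k))
      (c := 0) (n := 1)
    simpa using h2

/-- **The weight of a newform is even and at least `2`.** -/
theorem newform_weight (hN : 0 < N) {k : ℕ} {f : Gouvea.Cusp N k} (hf : IsNewform N k f) :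
    Even k ∧ 2 ≤ k := by
  have h0 := ne_zero_of_isNewform hN hf
  have h1 : k ≠ 0 := fun h => h0 (NF.coef_one_eq_zero hN (Or.inl h) f)
  have h2 : Even k := by
    rw [← Nat.not_odd_iff_even]
    exact fun h => h0 (NF.coef_one_eq_zero hN (Or.inr h) f)
  obtain ⟨m, hm⟩ := h2
  exact ⟨⟨m, hm⟩, by omega⟩

variable {p : ℕ} [Fact p.Prime] {j : algebraicClosure ℚ ℂ →+* PadicAlgCl p}

/-- the class of a newform contains a newform -/
theorem one_le_cN (hN : 0 < N) {k : ℕ} {f : Gouvea.Cusp N k} (hf : IsNewform N k f) :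
    1 ≤ cN N k (InC j (AN p N) (clc j f)) := by
  rw [cN, Nat.succ_le_iff,
    Set.ncard_pos ((finite_setOf_isNewform N k hN).subset fun F hF => hF.1)]
  refine ⟨f, hf, fun q _ => ?_⟩
  rw [chiNF_X, clc, sub_self, norm_zero]
  exact one_pos

/-! ### the cusp forms at the levels `c M` -/

section

variable {A : Set Nat.Primes} {c : Nat.Primes → PadicAlgCl p} {e : ℕ}

theorem primeTo_of (hA : ∀ q ∈ A, ¬ (q : ℕ) ∣ N) : PrimeTo N (InC j A c) := by
  intro χ χ' h h1 q hq
  rw [← h q (hA q hq)]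
  exact h1 q hq

/-- the newforms of level `N` among the cusp forms of the levels `e M`, `M ∣ N` -/
theorem SB_cS_ge (hN : 0 < N) (he : 0 < e) (hNe : N.Coprime e) (hA : ∀ q ∈ A, ¬ (q : ℕ) ∣ N * e)
    (k : ℕ) : (e.divisors.card : ℝ) * (cN N k (InC j A c) : ℝ) ≤
      SB N fun M => (cS (e * M) k (InC j A c) : ℝ) := by
  have h1 := sigma_mul_cN_le k hN he hNe (primeTo_of (j := j) (c := c) hA)
  have h2 : ((((e.divisors.card : ℤ) * (cN N k (InC j A c) : ℤ)) : ℤ) : ℝ) ≤
      ((∑ x ∈ N.divisorsAntidiagonal,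
        (ArithmeticFunction.moebius * ArithmeticFunction.moebius) x.1 *
          (cS (x.2 * e) k (InC j A c) : ℤ) : ℤ) : ℝ) := Int.cast_le.2 h1
  push_cast at h2
  refine h2.trans (le_of_eq ?_)
  unfold SB
  refine Finset.sum_congr rfl fun x _ => ?_
  rw [mul_comm x.2 e]

theorem SB_cS_nonneg (hN : 0 < N) (he : 0 < e) (hNe : N.Coprime e)
    (hA : ∀ q ∈ A, ¬ (q : ℕ) ∣ N * e) (k : ℕ) :
    0 ≤ SB N fun M => (cS (e * M) k (InC j A c) : ℝ) :=
  le_trans (by positivity) (SB_cS_ge (j := j) (c := c) hN he hNe hA k)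

/-- the number of systems of level `e M` in terms of `tot` -/
theorem cS_tot' (e M k : ℕ) [NeZero (e * M)] :
    (cS (e * M) k (InC j A c) : ℝ) = tot j (e * M) k A c := by
  rw [cS_tot]

end

/-! ### the Eisenstein lines -/

open Classical in
theorem card_eisLg_filter_le (e n L : ℕ) (P : (MvPolynomial Nat.Primes ℤ →+* ℂ) → Prop) :
    ((eisLg e n L).filter P).card ≤ (eisLg e 0 L).card := by
  refine (Multiset.card_le_card (Multiset.filter_le _ _)).trans (le_of_eq ?_)
  simp only [eisLg, Multiset.card_bind, Multiset.card_map, Function.comp_def]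

open Classical in
theorem bdd_eis (e L : ℕ) (P : (MvPolynomial Nat.Primes ℤ →+* ℂ) → Prop) :
    Bdd fun n => (((eisLg e n L).filter P).card : ℝ) :=
  ⟨(eisLg e 0 L).card, fun n _ => by
    rw [Nat.abs_cast]
    exact_mod_cast card_eisLg_filter_le e n L P⟩

/-! ### the missing lines -/

open Classical in
/-- the indicator of the class `1 + q` -/
def tau (j : algebraicClosure ℚ ℂ →+* PadicAlgCl p) (A : Set Nat.Primes)
    (c : Nat.Primes → PadicAlgCl p) : ℝ :=
  if InC j A c (sysOf (trivV 1)) then 1 else 0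

lemma tau_nonneg (A : Set Nat.Primes) (c : Nat.Primes → PadicAlgCl p) : 0 ≤ tau j A c := by
  unfold tau
  split_ifs <;> norm_num

lemma tau_le (A : Set Nat.Primes) (c : Nat.Primes → PadicAlgCl p) : tau j A c ≤ 1 := by
  unfold tau
  split_ifs <;> norm_num

lemma InC_triv {A : Set Nat.Primes} {c : Nat.Primes → PadicAlgCl p} {L : ℕ}
    (hA : ∀ q ∈ A, ¬ (q : ℕ) ∣ L) :
    InC j A c (sysOf (trivV L)) ↔ InC j A c (sysOf (trivV 1)) := by
  refine forall₂_congr fun q hq => ?_
  have h1 : ¬ (q : ℕ) ∣ 1 := fun h => q.2.one_lt.ne' (Nat.dvd_one.1 h)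
  rw [sysOf_X, sysOf_X, trivV, trivV, if_neg (hA q hq), if_neg h1]

end Gouvea.Pos23
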