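import Pool.Agent.Work.MP_d3517d_nt.P5.Weight
import Pool.Agent.Work.MP_d3517d_nt.P5.LevMap
import Pool.Agent.Work.MP_d3517d_nt.P5.Atk
import Pool.Agent.Work.MP_d3517d_nt.P5.LinPol
import Pool.Agent.Work.MP_d3517d_nt.P5.SymCountF

/-!
# P5: one weight, for the symbols of levels `M`, `M p`, `L p` (MP_d3517d_nt)
-/

open Polynomial Finset Module

noncomputable section

namespace Gouvea.P5

open Gouvea.PX Gouvea.Sys Pool.Agent.Gouv
open CongruenceSubgroup (Gamma0)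

variable {p : ℕ} [hp : Fact p.Prime] {N M L : ℕ} [NeZero N] [NeZero M] [NeZero L]

/-! ### The residual representations -/

/-- the Hecke ring without `T_p` on the symbols of level `M` modulo `p` -/
abbrev PsiX (p : ℕ) [Fact p.Prime] {N M : ℕ} [NeZero M] (hNM : N ∣ M) (n : ℕ) :
    HR0 p →+* Module.End (ZMod p) (Sym (ZMod p) N M n) :=
  (rhoN (ZMod p) N M n hNM).comp (incl p)

lemma isRep_PsiX (hNM : N ∣ M) :
    IsRep (p := p) (fun l : {l : ℕ // l.Prime ∧ l ≠ p} => (l : ℕ)) (PsiX p hNM) := by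
  intro n q φ
  rw [RingHom.comp_apply, incl_X, rhoN_X]
  rfl

/-- the growth of the residual multiplicities -/
theorem nil_X (hNM : N ∣ M) (hpM : p ∣ M) (J : Ideal (HR0 p)) (e : ℕ) :
    ∃ c C : ℝ, 0 ≤ c ∧ 0 ≤ C ∧ ∀ n, n ≡ e [MOD (p - 1)] → ∀ t ≤ n,
      |(finrank (ZMod p) (nilPart (PsiX p hNM n) J (symLe (ZMod p) N M n t)) : ℝ) - c * t| ≤ C :=
  nilPart_linear hNM hpM (fun q => q.2) (isRep_PsiX hNM) J e
    fun n => finiteDimensional_sym hNM n

lemma nilPart_bot {R V : Type} [CommRing R] [AddCommGroup V] [Module (ZMod p) V]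
    (Ψ : R →+* Module.End (ZMod p) V) (X : Submodule (ZMod p) V) : nilPart Ψ ⊥ X = X := by
  refine le_antisymm (nilPart_le _ _ _) fun x hx => ⟨hx, fun u hu => ⟨1, ?_⟩⟩
  rw [Submodule.mem_bot] at hu
  rw [hu, map_zero, pow_one, LinearMap.zero_apply]

lemma redX_equivariant (hNM : N ∣ M) (n : ℕ) (u : HR0 p) (a : Sym ℤ_[p] N M n) :
    (redX p N M n).f (rhoN ℤ_[p] N M n hNM (incl p u) a) =
      PsiX p hNM n u ((redX p N M n).f a) := by
  refine equivariant_of_rename (ι := Nat.Primes)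
    (fun l : {l : ℕ // l.Prime ∧ l ≠ p} => (⟨l.1, l.2.1⟩ : Nat.Primes))
    (ρU := rhoN ℤ_[p] N M n hNM) (ρV := rhoN (ZMod p) N M n hNM) (f := (redX p N M n).f) ?_ u a
  intro l φ
  have e1 := rhoN_X ℤ_[p] N M n hNM (⟨l.1, l.2.1⟩ : Nat.Primes)
  have e2 := rhoN_X (ZMod p) N M n hNM (⟨l.1, l.2.1⟩ : Nat.Primes)
  rw [e1, e2]
  exact Subtype.ext (redX_hecke N M n l φ).symm

/-! ### The rank of the part of level `M p` -/

open Classical in
/-- the rank of the `J`-part at level `M p` in one weight -/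
theorem rank_weight (hNM : N ∣ M) (hpM : ¬ p ∣ M) (J : Ideal (HR0 p)) {n : ℕ} {c C δ : ℝ}
    (hc : ∀ i ≤ n, |(finrank (ZMod p) (nilPart (PsiX p (hNM.trans (Dvd.intro p rfl)) n) J
      (symLe (ZMod p) N (M * p) n i)) : ℝ) - c * i| ≤ C)
    (hδ : (finrank (ZMod p) (symLe (ZMod p) N (M * p) n n) : ℝ) ≤
      finrank ℤ_[p] (Sym ℤ_[p] N (M * p) n) + δ) :
    |((SJ (AZ (NeZero.ne (M * p)) (hNM.trans (Dvd.intro p rfl)) n) J).card : ℝ) - c * n| ≤
      C + δ := by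
  have hNMp : N ∣ M * p := hNM.trans (Dvd.intro p rfl)
  obtain ⟨w, hw⟩ := exists_isW (N := N) hp.out hNM hpM
  have i7 := finiteDimensional_sym (k := ZMod p) hNMp n
  let Φ := rhoN ℤ_[p] N (M * p) n hNMp
  let W : Module.End ℤ_[p] (Sym ℤ_[p] N (M * p) n) := WX hNM hw
  obtain ⟨e, t, ht, he, het, hcom, hbig⟩ := exists_idem (Φ.comp (incl p)) J
  have hc' : ∀ u, e * Φ u = Φ u * e := fun u => hcom (Φ u) fun u' => by
    show Φ (incl p u') * Φ u = Φ u * Φ (incl p u')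
    rw [← map_mul, ← map_mul, mul_comm u]
  have hWc : ∀ (r : HR0 p) φ, W (Φ (incl p r) φ) = Φ (incl p r) (W φ) := by
    intro r φ
    refine equivariant_of_rename (ι := Nat.Primes)
      (fun l : {l : ℕ // l.Prime ∧ l ≠ p} => (⟨l.1, l.2.1⟩ : Nat.Primes))
      (ρU := Φ) (ρV := Φ) (f := W.toAddMonoidHom) ?_ r φ
    intro l φ
    have e1 := rhoN_X ℤ_[p] N (M * p) n hNMp (⟨l.1, l.2.1⟩ : Nat.Primes)
    show W (rhoN ℤ_[p] N (M * p) n hNMp (MvPolynomial.X (⟨l.1, l.2.1⟩ : Nat.Primes)) φ) =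
      rhoN ℤ_[p] N (M * p) n hNMp (MvPolynomial.X (⟨l.1, l.2.1⟩ : Nat.Primes)) (W φ)
    rw [e1]
    exact WX_opN hp.out hNM hNMp (NeZero.ne M) hw ⟨l.1, l.2.1⟩ l.2.2 φ
  have hB : LinearMap.ker e ≤ (LinearMap.ker e).comap W := by
    apply ker_le_comap
    apply hcom
    intro u
    apply LinearMap.ext
    intro x
    exact (hWc u x).symm
  obtain ⟨a, b, c', d, hw1, hdet⟩ := id hw
  have h1 := (part_bounds (n := n) (W := W) (fun x => WX_WX hNM hw x) (Φ.comp (incl p)) J ht he het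
    hbig (PsiX p hNMp n) (redX p N (M * p) n) (redX_equivariant hNMp n)
    (symLe (ZMod p) N (M * p) n) (fun s hs y hy =>
      redX_img_Fs_le (Int.natCast_dvd_natCast.2 hNM) hdet w hw1 W (fun _ => rfl) hs ⟨y, hy, rfl⟩)
    hc hδ hB).1
  have h2 := (GE_part (incl p) Φ (bas (NeZero.ne (M * p)) hNMp n ℤ_[p])
    (intP p (AZ (NeZero.ne (M * p)) hNMp n)) (fun r => toMatrix_rhoN (NeZero.ne (M * p)) hNMp n r)
    J ht he het hc' hbig 1 (ker_le_comap (hc' 1))).2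
  rw [h2] at h1
  exact h1

/-! ### One weight -/

/-- The lower bound for the ranks of level `M p` (from the dimension of the space of cusp forms). -/
def RankLower (p N M : ℕ) [Fact p.Prime] : Prop :=
  ∃ C0 : ℝ, ∀ n : ℕ, Even n → ((Gamma0 (M * p)).index : ℝ) * ((n : ℝ) + 1) ≤
    6 * (finrank ℤ_[p] (Sym ℤ_[p] N (M * p) n) : ℝ) + C0

/-- **One weight**, for the symbols. -/
theorem weightX_core (hp23 : p = 2 ∨ p = 3) (hN : 2 ≤ N) (hNM : N ∣ M) (hML : M ∣ L)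
    (hpL : ¬ p ∣ L) (hrank : RankLower p N M) (J : Ideal (HR0 p)) :
    ∃ c C : ℝ, 0 ≤ c ∧ 0 ≤ C ∧ (J = ⊥ → c = ((Gamma0 (M * p)).index : ℝ) / 6) ∧
      (∀ n : ℕ, Even n →
        |((SJ (AZ (NeZero.ne (M * p)) (hNM.trans (Dvd.intro p rfl)) n) J).card : ℝ) - c * n| ≤ C) ∧
      ∀ n : ℕ, Even n → ∀ (W : Module.End ℤ_[p] (Sym ℤ_[p] N (M * p) n))
        (WL : Module.End ℤ_[p] (Sym ℤ_[p] N (L * p) n)) (a b c' d : ℤ)
        (_ : (p : ℤ) * a * d - M * b * c' = 1) (w : SN N)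
        (_ : w.1 = !![(p : ℤ) * a, b; M * p * c', p * d])
        (_ : ∀ φ, (W φ).1 = act ℤ_[p] N n w φ.1) (_ : ∀ φ, (WL φ).1 = act ℤ_[p] N n w φ.1)
        (_ : ∀ φ, W (W φ) = (p : ℤ_[p]) ^ n • φ)
        (_ : ∀ φ, trX ℤ_[p] n hp.out hNM (NeZero.ne M) (fun h => hpL (h.trans hML))
          (W (inclX ℤ_[p] N n (Dvd.intro _ rfl) φ)) = rhoN ℤ_[p] N M n hNM (Xp p) φ)
        (_ : ∀ (r : HR0 p) φ, W (rhoN ℤ_[p] N (M * p) n (hNM.trans (Dvd.intro _ rfl)) (incl p r) φ) =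
          rhoN ℤ_[p] N (M * p) n (hNM.trans (Dvd.intro _ rfl)) (incl p r) (W φ))
        (x : ℕ), 2 * x ≤ n → ∀ η : ℝ,
        HH WL x - GE (WL ∘ₗ (inclX ℤ_[p] N n (Dvd.intro _ rfl) ∘ₗ
          trX ℤ_[p] n hp.out (hNM.trans hML) (NeZero.ne L) hpL - LinearMap.id)) x ≤ η →
        |GG (p : ℝ) ((SJ (AZ (NeZero.ne M) hNM n) J).map fun χ => χ (Xp p)) x -
          c * (x : ℝ) ^ 2 / 2| ≤ C * ((x : ℝ) + 1) + η := by
  have hpM : ¬ p ∣ M := fun h => hpL (h.trans hML)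
  have hNMp : N ∣ M * p := hNM.trans (Dvd.intro _ rfl)
  have hNL : N ∣ L := hNM.trans hML
  have hNLp : N ∣ L * p := hNL.trans (Dvd.intro _ rfl)
  have hpMp : p ∣ M * p := Dvd.intro_left _ rfl
  -- even weights are in the class `0` modulo `p - 1`
  have hcl : ∀ n, Even n → n ≡ 0 [MOD (p - 1)] := by
    intro n hn
    rcases hp23 with h | h
    · subst h
      exact Nat.modEq_one
    · subst h
      exact (Nat.modEq_zero_iff_dvd).2 hn.two_dvd
  obtain ⟨c, C, hc0, hC0, hcC⟩ := nil_X (p := p) hNMp hpMp J 0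
  obtain ⟨C0, hC0'⟩ := hrank
  -- upper bound for the dimension modulo `p`
  set I : ℕ := (Gamma0 (M * p)).index with hI
  have hup : ∀ n, Even n → ∀ t ≤ n, 6 * finrank (ZMod p) (symLe (ZMod p) N (M * p) n t) ≤
      I * (t + 1 + 4) := by
    intro n hn t ht
    have h1 := (finrank_SymLe_le_add_four (k := ZMod p) hp23 hN hNMp hpMp hn ht).1
    rw [card_Qt (Gamma0 (M * p))] at h1
    rw [finrank_symLe]
    exact h1
  set δ : ℝ := (4 * I + |C0|) / 6 with hδ
  have hδ0 : 0 ≤ δ := by positivity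
  have hδn : ∀ n, Even n → (finrank (ZMod p) (symLe (ZMod p) N (M * p) n n) : ℝ) ≤
      finrank ℤ_[p] (Sym ℤ_[p] N (M * p) n) + δ := by
    intro n hn
    have h1 : (6 : ℝ) * (finrank (ZMod p) (symLe (ZMod p) N (M * p) n n) : ℝ) ≤
        I * ((n : ℝ) + 1 + 4) := by exact_mod_cast hup n hn n le_rfl
    have h2 := hC0' n hn
    have h3 := le_abs_self C0
    rw [hδ]
    linarith
  refine ⟨c, 2 * C + δ + 2 * |c|, hc0, by positivity, ?_, fun n hn => ?_, ?_⟩
  · -- the total growth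
    rintro rfl
    have h1 : ∀ n : ℕ, Even n → |(finrank (ZMod p) (symLe (ZMod p) N (M * p) n n) : ℝ) - c * n| ≤ C := by
      intro n hn
      have := hcC n (hcl n hn) n le_rfl
      rwa [nilPart_bot] at this
    have h2 : ∀ n : ℕ, Even n → |c * n - I / 6 * n| ≤ C + (5 * I + |C0|) / 6 := by
      intro n hn
      have e1 := abs_le.1 (h1 n hn)
      have e2 : (6 : ℝ) * (finrank (ZMod p) (symLe (ZMod p) N (M * p) n n) : ℝ) ≤
        I * ((n : ℝ) + 1 + 4) := by exact_mod_cast hup n hn n le_rfl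
      have e3 := hC0' n hn
      have e4 := le_abs_self C0
      have e5 : (finrank ℤ_[p] (Sym ℤ_[p] N (M * p) n) : ℝ) ≤
          finrank (ZMod p) (symLe (ZMod p) N (M * p) n n) := by
        have i7 := finiteDimensional_sym (k := ZMod p) hNMp n
        have e6 := (redX p N (M * p) n).finrank_top
        rw [← e6]
        exact_mod_cast Submodule.finrank_mono fun y _ =>
          mem_symLe.2 fun _ _ i hi => absurd i.2 (by omega)
      have e6 : (0 : ℝ) ≤ I := by positivity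
      have e7 := abs_nonneg C0
      rw [abs_le]
      constructor <;> linarith [e1.1, e1.2]
    by_contra hne
    have h3 : 0 < |c - I / 6| := abs_pos.2 (sub_ne_zero.2 hne)
    obtain ⟨m, hm⟩ := exists_nat_gt ((C + (5 * I + |C0|) / 6) / |c - I / 6|)
    have h4 := h2 (2 * m) (even_two_mul m)
    rw [← sub_mul, abs_mul, abs_of_nonneg (by positivity : (0 : ℝ) ≤ ((2 * m : ℕ) : ℝ))] at h4
    rw [div_lt_iff₀ h3] at hm
    push_cast at h4
    have h5 : (m : ℝ) * |c - I / 6| ≤ |c - I / 6| * (2 * m) := by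
      have : (0 : ℝ) ≤ m := by positivity
      nlinarith
    linarith
  · -- the rank
    refine (rank_weight hNM hpM J (fun i hi => hcC n (hcl n hn) i hi) (hδn n hn)).trans ?_
    have := abs_nonneg c
    linarith
  · intro n hn W WL a b c' d hdet w hw hW hWL hWW hT hWc x hx η hη
    have i7 := finiteDimensional_sym (k := ZMod p) hNMp n
    have hMLp : M * p ∣ L * p := Nat.mul_dvd_mul_right hML p
    have hf : ∀ y, WL (inclX ℤ_[p] N n hMLp y) = inclX ℤ_[p] N n hMLp (W y) := by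
      intro y
      apply Subtype.ext
      rw [hWL, inclX_coe, inclX_coe, hW]
    have hS : ∀ y, (inclX ℤ_[p] N n (Dvd.intro _ rfl) ∘ₗ
          trX ℤ_[p] n hp.out (hNM.trans hML) (NeZero.ne L) hpL - LinearMap.id :
          Module.End ℤ_[p] (Sym ℤ_[p] N (L * p) n)) (inclX ℤ_[p] N n hMLp y) =
        inclX ℤ_[p] N n hMLp (inclX ℤ_[p] N n (Dvd.intro _ rfl)
          (trX ℤ_[p] n hp.out hNM (NeZero.ne M) hpM y) - y) := by
      intro y
      apply Subtype.ext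
      rw [LinearMap.sub_apply, LinearMap.comp_apply, LinearMap.id_apply, map_sub]
      show ((trX ℤ_[p] n hp.out (hNM.trans hML) (NeZero.ne L) hpL (inclX ℤ_[p] N n hMLp y) :
        Sym ℤ_[p] N L n) : Cusp N → Cusp N → Fin (n + 1) → ℤ_[p]) - y.1 =
        ((trX ℤ_[p] n hp.out hNM (NeZero.ne M) hpM y : Sym ℤ_[p] N M n) :
          Cusp N → Cusp N → Fin (n + 1) → ℤ_[p]) - y.1
      rw [trX_coe, trX_coe, inclX_coe]
      rw [trX_level hp.out hNM (NeZero.ne M) hML (NeZero.ne L) hpL y.1 y.2.2]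
    have key := one_weight (incl p) (rhoN ℤ_[p] N M n hNM)
      ((rhoN ℤ_[p] N (M * p) n hNMp).comp (incl p)) (inclX ℤ_[p] N n (Dvd.intro _ rfl))
      (trX ℤ_[p] n hp.out hNM (NeZero.ne M) hpM) W (Xp p) hWW
      (fun y => trX_inclX hp.out hNM (NeZero.ne M) hpM y) hT
      (fun r y => inclX_equivariant hNM hNMp r y)
      (fun r y => trX_equivariant hNM hNMp hpM r y) hWc
      (inclX ℤ_[p] N n hMLp) (inclX_injective hMLp)
      (fun y hy => inclX_sat p_ne_zero hMLp y hy) WL _ hf hS hη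
      (PsiX p hNMp n) (redX p N (M * p) n) (redX_equivariant hNMp n)
      (symLe (ZMod p) N (M * p) n) (fun s hs y hy =>
        redX_img_Fs_le (Int.natCast_dvd_natCast.2 hNM) hdet w hw W hW hs ⟨y, hy, rfl⟩)
      J (fun i hi => hcC n (hcl n hn) i hi) (hδn n hn) (bas (NeZero.ne M) hNM n ℤ_[p])
      (intP p (AZ (NeZero.ne M) hNM n)) (fun r => toMatrix_rhoN (NeZero.ne M) hNM n r) hx
    refine key.trans ?_
    have : 0 ≤ 2 * C + δ + 2 * |c| := by positivity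
    nlinarith

end Gouvea.P5
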