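import Pool.Agent.Work.MP_d3517d_nt.P5.RankX
import Pool.Agent.Work.MP_d3517d_nt.P5.WeightX

/-!
# P5: the dimension of the symbols modulo `p`, and the residual representations (MP_d3517d_nt)

* `index_le_finrank` : `[SL₂(ℤ) : Γ₀(M)] (n + 1) ≤ 6 dim Sym (ZMod p) N M n + C` for even `n`,
  `2 ≤ N ∣ M` (any prime `p`);
* `isRep_PsiX'` : the natural action of the Hecke ring without `p` is a representation, with the
  primes `Q = {l // l prime, l ≠ p}` (`M` arbitrary).
-/

open CongruenceSubgroup (Gamma0)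
open Module

noncomputable section

namespace Gouvea.P5

open Gouvea.PX Gouvea.Sys

variable {p : ℕ} [hp : Fact p.Prime]

/-- the rank over `ℤ` is at most the dimension modulo `p` -/
theorem rk_le_finrank_mod {N M : ℕ} [NeZero N] [NeZero M] (hN : N ∣ M) (n : ℕ) :
    rk (NeZero.ne M) hN n ≤ finrank (ZMod p) (Sym (ZMod p) N M n) := by
  have i7 := finiteDimensional_sym (k := ZMod p) hN n
  rw [← finrank_sym (k := ℤ_[p]) (NeZero.ne M) hN n]
  have e6 := (redX p N M n).finrank_top
  rw [← e6]
  exact Submodule.finrank_le _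

/-- **The lower bound for the dimension of the symbols modulo `p`**, the constant. -/
theorem index_le_finrank_mod {N M : ℕ} [NeZero M] (hN2 : 2 ≤ N) (hN : N ∣ M) {n : ℕ}
    (hn : Even n) :
    (Gamma0 M).index * (n + 1) ≤ 6 * finrank (ZMod p) (Sym (ZMod p) N M n) +
      12 * ((Gamma0 M).index ^ 2 + (Gamma0 M).index) := by
  have : NeZero N := ⟨by omega⟩
  have h1 := rk_ge hN2 hN hn
  have h2 := rk_le_finrank_mod (p := p) hN n
  have h3 : (Gamma0 M).index * (n + 1) ≤ (Gamma0 M).index * (n + 2) :=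
    Nat.mul_le_mul_left _ (by omega)
  omega

/-- **The lower bound for the dimension of the symbols modulo `p`.** -/
theorem exists_index_le_finrank_mod {N M : ℕ} [NeZero M] (hN2 : 2 ≤ N) (hN : N ∣ M) :
    ∃ C : ℕ, ∀ n, Even n →
      (Gamma0 M).index * (n + 1) ≤ 6 * finrank (ZMod p) (Sym (ZMod p) N M n) + C :=
  ⟨_, fun _ hn => index_le_finrank_mod hN2 hN hn⟩

/-- the natural action is a representation (`M` arbitrary) -/
theorem isRep_PsiX' {N M : ℕ} [NeZero M] (hN : N ∣ M) :
    IsRep (p := p) (fun l : {l : ℕ // l.Prime ∧ l ≠ p} => (l : ℕ)) (PsiX p hN) := by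
  intro n q φ
  rw [RingHom.comp_apply, incl_X, rhoN_X]
  rfl

end Gouvea.P5
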