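import Pool.Agent.Work.MP_d3517d_nt.P5.MainX
import Pool.Agent.Work.MP_d3517d_nt.P5.WeightX

/-!
# P5: lower bound for the ranks of the lattices of symbols (MP_d3517d_nt)
-/

open CongruenceSubgroup Module
open scoped MatrixGroups

noncomputable section

namespace Gouvea.P5

open Gouvea.PX

variable {p : ℕ} [hp : Fact p.Prime] {N M : ℕ} [NeZero N] [NeZero M]

/-- two copies of the cusp forms inside the symbols -/
theorem two_mul_finrank_cusp_le (hNM : N ∣ M) {n : ℕ} (hn : 2 ≤ n) (k : Type) [CommRing k]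
    [IsDomain k] [CharZero k] :
    2 * finrank ℂ (Gouvea.Cusp M (n + 2)) ≤ finrank k (Sym k N M n) := by
  have h0 := finiteDimensional_sym (k := ℂ) hNM n
  have h1 := LinearMap.finrank_le_finrank_of_injective (ESX_injective (N := N) (M := M) hn)
  rw [finrank_prod] at h1
  rw [finrank_sym (NeZero.ne M) hNM] at h1 ⊢
  omega

/-- `[SL_2(ℤ) : Γ₀(M)] (n + 1) ≤ 6 rank + C` -/
theorem rank_lower (hNM : N ∣ M) (k : Type) [CommRing k] [IsDomain k] [CharZero k] :
    ∃ C0 : ℕ, ∀ n : ℕ, Even n →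
      (Gamma0 M).index * (n + 1) ≤ 6 * finrank k (Sym k N M n) + C0 := by
  refine ⟨12 * ((Gamma0 M).index ^ 2 + (Gamma0 M).index), fun n hn => ?_⟩
  rcases Nat.lt_or_ge n 2 with h | h
  · have h0 : n = 0 := by
      obtain ⟨r, hr⟩ := hn
      omega
    subst h0
    omega
  · have h1 := Pool.Agent.Gouv.ESDim.finrank_cuspForm_ge M (n + 2) (hn.add even_two)
    have h5 : Module.finrank ℂ (CuspForm ((Gamma0 M : Subgroup SL(2, ℤ)) :
        Subgroup (GL (Fin 2) ℝ)) ((n + 2 : ℕ) : ℤ)) = Module.finrank ℂ (Gouvea.Cusp M (n + 2)) := rfl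
    rw [h5] at h1
    have h2 := two_mul_finrank_cusp_le hNM h k
    have h3 : (Gamma0 M).index * (n + 1) ≤ (Gamma0 M).index * (n + 2) :=
      Nat.mul_le_mul_left _ (by omega)
    omega

theorem rankLower_of_cusp (hNM : N ∣ M) : RankLower p N M := by
  obtain ⟨C0, h⟩ := rank_lower (M := M * p) (hNM.trans (Dvd.intro _ rfl)) ℤ_[p]
  refine ⟨C0, fun n hn => ?_⟩
  exact_mod_cast h n hn

end Gouvea.P5
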