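import Pool.Agent.Work.MP_d3517d_nt.P5.Count

/-!
# P5: the rank of the part of a lattice at an ideal (MP_d3517d_nt)

`rank_part`: no operator `W`, no filtration: only the reduction `A → M` with values in a finite
dimensional subspace `N`.  The rank of the part of `A` at the ideal `I` is at most the dimension
of the nilpotent part of `N`, and at least this dimension minus `dim N - rank A`.
-/

open Polynomial Finset Filter Topology

noncomputable section

namespace Gouvea.P5

open Pool.Agent.Gouv

variable {p : ℕ} [hp : Fact p.Prime]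
variable {A : Type} [AddCommGroup A] [Module ℤ_[p] A] [Module.Free ℤ_[p] A]
  [Module.Finite ℤ_[p] A]
variable {R : Type} [CommRing R]
variable {M : Type} [AddCommGroup M] [Module (ZMod p) M]

/-- Rank of the part at an ideal: both bounds. -/
theorem rank_part (Φ : R →+* Module.End ℤ_[p] A) (I : Ideal R) {e : Module.End ℤ_[p] A}
    {t : R} (ht : t ∈ I) (he : e * e = e) (het : ∀ a, ∃ y, e a - Φ t a = (p : ℤ_[p]) • y)
    (hbig : ∀ u ∈ I, ∃ k, 0 < k ∧ ∀ a, ∃ y, (Φ u ^ k) (a - Φ t a) = (p : ℤ_[p]) • y)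
    (Ψ : R →+* Module.End (ZMod p) M) (red : Red p A M)
    (hred : ∀ u a, red.f (Φ u a) = Ψ u (red.f a)) (N : Submodule (ZMod p) M)
    [Module.Finite (ZMod p) N] (hfil : ∀ a, red.f a ∈ N) :
    Module.finrank ℤ_[p] (LinearMap.ker e) ≤ Module.finrank (ZMod p) (nilPart Ψ I N) ∧
    Module.finrank ℤ_[p] A + Module.finrank (ZMod p) (nilPart Ψ I N) ≤
      Module.finrank (ZMod p) N + Module.finrank ℤ_[p] (LinearMap.ker e) := by
  classical
  set B := LinearMap.ker e with hBdef
  have hsat : Sat B := sat_ker e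
  set redB := red.sub hsat with hredB
  have hredpow : ∀ (u : R) (k : ℕ) (a : A), red.f ((Φ u ^ k) a) = (Ψ u ^ k) (red.f a) := by
    intro u k a
    rw [← map_pow, hred, map_pow]
  have hred0 : ∀ y : A, red.f ((p : ℤ_[p]) • y) = 0 := fun y => (red.ker _).2 ⟨y, rfl⟩
  have hnil : ∀ a ∈ B, ∀ u ∈ I, ∃ k : ℕ, (Ψ u ^ k) (red.f a) = 0 := by
    intro a ha u hu
    obtain ⟨k, -, hk⟩ := hbig u hu
    obtain ⟨y, hy⟩ := hk a
    obtain ⟨z, hz⟩ := het a
    refine ⟨k, ?_⟩
    have ha0 : e a = 0 := ha
    rw [ha0, zero_sub] at hz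
    have h1 : red.f (Φ t a) = 0 := by
      rw [← neg_neg (Φ t a), hz, map_neg, hred0, neg_zero]
    have h2 := congrArg red.f hy
    rwa [hredpow, map_sub, h1, sub_zero, hred0] at h2
  have hfinN : Module.Finite (ZMod p) (nilPart Ψ I N) :=
    Submodule.finiteDimensional_of_le (nilPart_le _ _ _)
  have htop : Module.finrank (ZMod p) (redB.img ⊤) = Module.finrank ℤ_[p] B := redB.finrank_top
  have hB1 : Module.finrank ℤ_[p] B ≤ Module.finrank (ZMod p) (nilPart Ψ I N) := by
    rw [← htop]
    apply Submodule.finrank_mono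
    rintro x ⟨a, -, rfl⟩
    exact ⟨hfil a, fun u hu => hnil a a.2 u hu⟩
  have hsat' : Sat (LinearMap.ker (1 - e)) := sat_ker _
  set redB' := red.sub hsat' with hredB'
  have htop' : Module.finrank (ZMod p) (redB'.img ⊤) =
      Module.finrank ℤ_[p] (LinearMap.ker (1 - e)) := redB'.finrank_top
  have hB2 : Module.finrank ℤ_[p] (LinearMap.ker (1 - e)) +
      Module.finrank (ZMod p) (nilPart Ψ I N) ≤ Module.finrank (ZMod p) N := by
    have hle : redB'.img ⊤ ≤ N := by
      rintro x ⟨a, -, rfl⟩
      exact hfil a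
    have hdisj : Disjoint (redB'.img ⊤) (nilPart Ψ I N) := by
      rw [Submodule.disjoint_def]
      rintro x ⟨a, -, rfl⟩ ⟨-, hx⟩
      obtain ⟨k, hk⟩ := hx t ht
      have ha : e a = a := by
        have h1 : (1 - e) (a : A) = 0 := a.2
        rw [LinearMap.sub_apply, Module.End.one_apply, sub_eq_zero] at h1
        exact h1.symm
      have h2 : Ψ t (red.f a) = red.f a := by
        obtain ⟨z, hz⟩ := het a
        rw [ha] at hz
        have h3 := congrArg red.f hz
        rw [map_sub, hred, hred0, sub_eq_zero] at h3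
        exact h3.symm
      have h3 : ∀ k : ℕ, (Ψ t ^ k) (red.f a) = red.f a := by
        intro k
        induction k with
        | zero => simp
        | succ k ih => rw [pow_succ, Module.End.mul_apply, h2, ih]
      exact (h3 k).symm.trans hk
    have hfin1 : Module.Finite (ZMod p) (redB'.img ⊤) := Submodule.finiteDimensional_of_le hle
    have h1 := Submodule.finrank_sup_add_finrank_inf_eq (redB'.img ⊤) (nilPart Ψ I N)
    rw [hdisj.eq_bot, finrank_bot, add_zero] at h1
    rw [← htop', ← h1]
    exact Submodule.finrank_mono (sup_le hle (nilPart_le _ _ _))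
  have hB3 := rank_ker_range he
  rw [← hBdef] at hB3
  exact ⟨hB1, by omega⟩

/-- The same with the idempotent chosen: there is a saturated summand `B`, stable under everything
that commutes with `R`, consisting of the elements on which `I` is topologically nilpotent. -/
theorem exists_rank_part (Φ : R →+* Module.End ℤ_[p] A) (I : Ideal R)
    (Ψ : R →+* Module.End (ZMod p) M) (red : Red p A M)
    (hred : ∀ u a, red.f (Φ u a) = Ψ u (red.f a)) (N : Submodule (ZMod p) M)
    [Module.Finite (ZMod p) N] (hfil : ∀ a, red.f a ∈ N) :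
    ∃ B : Submodule ℤ_[p] A, Sat B ∧ (∀ a, a ∈ B ↔ ∀ u ∈ I, TopNil (Φ u) a) ∧
      (∀ g : Module.End ℤ_[p] A, (∀ u, Φ u * g = g * Φ u) → B ≤ B.comap g) ∧
      Module.finrank ℤ_[p] B ≤ Module.finrank (ZMod p) (nilPart Ψ I N) ∧
      Module.finrank ℤ_[p] A + Module.finrank (ZMod p) (nilPart Ψ I N) ≤
        Module.finrank (ZMod p) N + Module.finrank ℤ_[p] B := by
  obtain ⟨e, t, ht, he, het, hcomm, hbig⟩ := exists_idem Φ I
  have hc : ∀ u, e * Φ u = Φ u * e := fun u =>
    hcomm (Φ u) fun v => by rw [← map_mul, ← map_mul, mul_comm]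
  refine ⟨LinearMap.ker e, sat_ker e, fun a => ?_, fun g hg => ker_le_comap (hcomm g hg), ?_⟩
  · rw [LinearMap.mem_ker]
    exact ker_idem_iff Φ I ht he het hc hbig a
  · exact rank_part Φ I ht he het hbig Ψ red hred N hfil

end Gouvea.P5
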