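import Pool.Agent.Work.MP_d3517d_nt.P5.Rep

set_option autoImplicit false
set_option linter.unusedVariables false

/-!
# Transversals at `p` and double cosets (source package)
-/

open Polynomial Finset Matrix

noncomputable section

namespace Gouvea.PX

open Gouvea.PS.RepA CongruenceSubgroup
open scoped MatrixGroups

variable {N : ℕ}

/-- lower left entry divisible by `p` -/
def PL (p : ℕ) (g : SN N) : Prop := (p : ℤ) ∣ g.1 1 0

/-- upper right entry divisible by `p` -/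
def PUr (p : ℕ) (g : SN N) : Prop := (p : ℤ) ∣ g.1 0 1

theorem PL_one (p : ℕ) : PL p (1 : SN N) := by simp [PL]

theorem PUr_one (p : ℕ) : PUr p (1 : SN N) := by simp [PUr]

theorem PL_mul {p : ℕ} {g h : SN N} (hg : PL p g) (hh : PL p h) : PL p (g * h) := by
  unfold PL at *
  rw [Submonoid.coe_mul, Matrix.mul_apply, Fin.sum_univ_two]
  exact dvd_add (hg.mul_right _) (hh.mul_left _)

theorem PUr_mul {p : ℕ} {g h : SN N} (hg : PUr p g) (hh : PUr p h) : PUr p (g * h) := by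
  unfold PUr at *
  rw [Submonoid.coe_mul, Matrix.mul_apply, Fin.sum_univ_two]
  exact dvd_add (hh.mul_left _) (hg.mul_right _)

/-- cancellation on the right -/
theorem S9_mul_right_cancel {g h b : SN N} (h1 : g * b = h * b) : g = h := by
  apply Subtype.ext
  have h2 : g.1 * b.1 = h.1 * b.1 := congrArg Subtype.val h1
  have h3 := congrArg (fun t => t * b.1.adjugate) h2
  simp only [Matrix.mul_assoc, Matrix.mul_adjugate] at h3
  have hb : b.1.det ≠ 0 := b.2.1
  ext i j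
  have h4 := congrFun (congrFun h3 i) j
  simp only [Matrix.mul_smul, Matrix.mul_one, Matrix.smul_apply, smul_eq_mul] at h4
  exact mul_left_cancel₀ hb h4

theorem S9_mul_left_cancel {g h b : SN N} (h1 : b * g = b * h) : g = h := by
  apply Subtype.ext
  have h2 : b.1 * g.1 = b.1 * h.1 := congrArg Subtype.val h1
  have h3 := congrArg (fun t => b.1.adjugate * t) h2
  simp only [← Matrix.mul_assoc, Matrix.adjugate_mul] at h3
  have hb : b.1.det ≠ 0 := b.2.1
  ext i j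
  have h4 := congrFun (congrFun h3 i) j
  simp only [Matrix.smul_mul, Matrix.one_mul, Matrix.smul_apply, smul_eq_mul] at h4
  exact mul_left_cancel₀ hb h4

/-- inverse in `Γ₀(M)` with the entries -/
theorem isG0_inv' {M : ℕ} (hM : N ∣ M) {g : SN N} (hg : IsG0 M g) :
    ∃ h : SN N, IsG0 M h ∧ h * g = 1 ∧ g * h = 1 ∧ h.1 0 1 = - g.1 0 1 ∧ h.1 1 0 = - g.1 1 0 ∧
      h.1 0 0 = g.1 1 1 ∧ h.1 1 1 = g.1 0 0 := by
  obtain ⟨e1, e2, e3, e4⟩ := inv_entries (toSL M g hg)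
  refine ⟨ofG0 hM (toSL M g hg)⁻¹ (Subgroup.inv_mem _ (toSL_mem M g hg)),
    isG0_ofG0 hM _ _, ?_, ?_, e2, e3, e1, e4⟩
  · apply Subtype.ext
    have : (((toSL M g hg)⁻¹ * toSL M g hg : SL(2, ℤ)) : Matrix (Fin 2) (Fin 2) ℤ) = 1 := by
      rw [inv_mul_cancel]; rfl
    rw [Matrix.SpecialLinearGroup.coe_mul] at this
    exact this
  · apply Subtype.ext
    have : ((toSL M g hg * (toSL M g hg)⁻¹ : SL(2, ℤ)) : Matrix (Fin 2) (Fin 2) ℤ) = 1 := by
      rw [mul_inv_cancel]; rfl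
    rw [Matrix.SpecialLinearGroup.coe_mul] at this
    exact this

/-- a condition `P` cutting out a finite index subgroup of `Γ₀(M)`, with a transversal `t` and
representatives `bb` of the double coset intersected with `P` -/
structure Trans (M p l : ℕ) (P : SN N → Prop) (t : Option (Fin p) → SN N) (bb : Ix M l → SN N) :
    Prop where
  one : P 1
  mul : ∀ g h, P g → P h → P (g * h)
  inv : ∀ g h, IsG0 M g → IsG0 M h → g * h = 1 → P g → P h
  mem : ∀ i, IsG0 M (t i)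
  ex : ∀ B : SN N, ¬ (p : ℤ) ∣ B.1.det → ∃ i, ∃ C : SN N, B = C * t i ∧ P C
  un : ∀ i j, ∀ C : SN N, IsG0 M C → P C → t i = C * t j → i = j
  bb : ∀ C : SN N, Del M l C → P C → ∃ a, ∃ γ : SN N, IsG0 M γ ∧ P γ ∧ C = γ * bb a

/-- products of representatives in the two orders -/
theorem Trans.equiv {M p l : ℕ} {P : SN N → Prop} {t : Option (Fin p) → SN N} {bb : Ix M l → SN N}
    (T : Trans M p l P t bb) (hp : p.Prime) (hl : l.Prime) (hlp : l ≠ p) (hM : N ∣ M)
    (hM0 : M ≠ 0) :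
    ∃ e : Option (Fin p) × Ix M l ≃ Ix M l × Option (Fin p), ∀ x,
      ∃ γ : SN N, IsG0 M γ ∧ P γ ∧ t x.1 * bet N M l x.2 = γ * (bb (e x).1 * t (e x).2) := by
  classical
  have hpi : Prime (p : ℤ) := Nat.prime_iff_prime_int.1 hp
  have key : ∀ x : Option (Fin p) × Ix M l, ∃ y : Ix M l × Option (Fin p),
      ∃ γ : SN N, IsG0 M γ ∧ P γ ∧ t x.1 * bet N M l x.2 = γ * (bb y.1 * t y.2) := by
    intro x
    have hB : Del M l (t x.1 * bet N M l x.2) := mul_del (del_bet hl hM x.2) (T.mem x.1)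
    have hdet : ¬ (p : ℤ) ∣ (t x.1 * bet N M l x.2).1.det := by
      rw [hB.1]
      intro h
      have h1 : p ∣ l := by exact_mod_cast h
      exact hlp ((Nat.prime_dvd_prime_iff_eq hp hl).1 h1).symm
    obtain ⟨i, C, hC, hPC⟩ := T.ex _ hdet
    obtain ⟨ti, hti, hti1, hti2⟩ := isG0_inv hM (T.mem i)
    have hCe : C = (t x.1 * bet N M l x.2) * ti := by
      rw [hC, mul_assoc, hti2, mul_one]
    have hCD : Del M l C := hCe ▸ del_mul hB hti
    obtain ⟨a, γ, hγ, hPγ, h⟩ := T.bb C hCD hPC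
    exact ⟨(a, i), γ, hγ, hPγ, by rw [hC, h, mul_assoc]⟩
  choose F γ hγ hPγ hF using key
  have hinj : Function.Injective F := by
    intro x y hxy
    obtain ⟨δ, hδ, hδ1, hδ2⟩ := isG0_inv hM (hγ y)
    have hPδ : P δ := T.inv _ _ (hγ y) hδ hδ2 (hPγ y)
    have h1 : t x.1 * bet N M l x.2 = (γ x * δ) * (t y.1 * bet N M l y.2) := by
      rw [hF x, hF y, hxy, mul_assoc (γ x), ← mul_assoc δ, hδ1, one_mul]
    obtain ⟨tx, htx, htx1, htx2⟩ := isG0_inv hM (T.mem x.1)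
    have h2 : bet N M l x.2 = (tx * (γ x * δ) * t y.1) * bet N M l y.2 := by
      have h3 := congrArg (fun s => tx * s) h1
      simp only [← mul_assoc] at h3
      rw [htx1, one_mul] at h3
      rw [h3]
      simp only [mul_assoc]
    have h4 : x.2 = y.2 := rep_unique hl hM hM0
      (isG0_mul (isG0_mul htx (isG0_mul (hγ x) hδ)) (T.mem y.1)) h2
    rw [h4, ← mul_assoc] at h1
    have h5 := S9_mul_right_cancel h1
    have h6 : x.1 = y.1 := T.un x.1 y.1 (γ x * δ) (isG0_mul (hγ x) hδ)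
      (T.mul _ _ (hPγ x) hPδ) h5
    exact Prod.ext h6 h4
  have hbij : Function.Bijective F := by
    refine (Fintype.bijective_iff_injective_and_card F).2 ⟨hinj, ?_⟩
    rw [Fintype.card_prod, Fintype.card_prod, mul_comm]
  exact ⟨Equiv.ofBijective F hbij, fun x => ⟨γ x, hγ x, hPγ x, hF x⟩⟩

/-- representatives of `Γ₀(Mp) \ Γ₀(M)` -/
def kap (N M p : ℕ) : Option (Fin p) → SN N := open Classical in
  fun i => match i with
  | none => 1
  | some j => if h : (N : ℤ) ∣ M then ⟨!![1, (j : ℕ); (M : ℤ), M * (j : ℕ) + 1], by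
      refine ⟨?_, by simp [isCoprime_one_left], by simpa using h⟩
      rw [det_fin_two_of, show (1 : ℤ) * (M * (j : ℕ) + 1) - (j : ℕ) * M = 1 by ring]
      exact one_ne_zero⟩ else 1

/-- representatives of `(Γ₀(M) ∩ Γ⁰(p)) \ Γ₀(M)` -/
def kau (N M p : ℕ) : Option (Fin p) → SN N := open Classical in
  fun i => match i with
  | none => 1
  | some j => if h : (N : ℤ) ∣ M then ⟨!![1 + M * (j : ℕ), 1; (M : ℤ) * (j : ℕ), 1], by
      refine ⟨?_, ?_, ?_⟩
      · rw [det_fin_two_of, show ((1 : ℤ) + M * (j : ℕ)) * 1 - 1 * (M * (j : ℕ)) = 1 by ring]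
        exact one_ne_zero
      · obtain ⟨c, hc⟩ := h
        refine ⟨1, -(c * (j : ℕ)), ?_⟩
        simp [hc]
        ring
      · simpa using h.mul_right _⟩ else 1

/-- `Γ₀(M) ∩ Γ⁰(p)` -/
def IsGu (M p : ℕ) (g : SN N) : Prop := IsG0 M g ∧ (p : ℤ) ∣ g.1 0 1

theorem castN {M : ℕ} (hM : N ∣ M) : (N : ℤ) ∣ (M : ℤ) := by exact_mod_cast hM

theorem kap_some {M p : ℕ} (hM : N ∣ M) (j : Fin p) :
    (kap N M p (some j)).1 = !![1, ((j : ℕ) : ℤ); (M : ℤ), M * (j : ℕ) + 1] := by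
  simp only [kap]
  rw [dif_pos (castN hM)]

theorem kau_some {M p : ℕ} (hM : N ∣ M) (j : Fin p) :
    (kau N M p (some j)).1 = !![1 + M * ((j : ℕ) : ℤ), 1; (M : ℤ) * (j : ℕ), 1] := by
  simp only [kau]
  rw [dif_pos (castN hM)]

theorem kap_none (N M p : ℕ) : kap N M p none = 1 := rfl

theorem kau_none (N M p : ℕ) : kau N M p none = 1 := rfl

theorem kap_mem {M p : ℕ} (hM : N ∣ M) (i : Option (Fin p)) : IsG0 M (kap N M p i) := by
  rcases i with _ | j
  · exact isG0_one M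
  · refine ⟨?_, ?_⟩
    · rw [kap_some hM, det_fin_two_of]; ring
    · rw [kap_some hM]; simp

theorem kau_mem {M p : ℕ} (hM : N ∣ M) (i : Option (Fin p)) : IsG0 M (kau N M p i) := by
  rcases i with _ | j
  · exact isG0_one M
  · refine ⟨?_, ?_⟩
    · rw [kau_some hM, det_fin_two_of]; ring
    · rw [kau_some hM]; simp

/-- a matrix of determinant prime to `p` is a `p`-lower multiple of some `kap` -/
theorem kap_ex {M p : ℕ} (hp : p.Prime) (hM : N ∣ M) (hpM : ¬ p ∣ M) (B : SN N)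
    (hB : ¬ (p : ℤ) ∣ B.1.det) : ∃ i, ∃ C : SN N, B = C * kap N M p i ∧ PL p C := by
  have hpi : Prime (p : ℤ) := Nat.prime_iff_prime_int.1 hp
  rw [Matrix.det_fin_two] at hB
  by_cases hc : (p : ℤ) ∣ B.1 1 0
  · exact ⟨none, B, by rw [kap_none, mul_one], hc⟩
  · have hMB : ¬ (p : ℤ) ∣ M * B.1 1 0 := fun h =>
      (hpi.dvd_or_dvd h).elim (fun h => hpM (by exact_mod_cast h)) hc
    obtain ⟨u, v, huv⟩ := ((Prime.coprime_iff_not_dvd hpi).2 hMB).symm
    obtain ⟨j, t, hj⟩ := exists_fin hp.pos (u * (M * B.1 1 1 - B.1 1 0))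
    obtain ⟨h, hh, hh1, hh2, e01, e10, e00, e11⟩ := isG0_inv' hM (kap_mem (p := p) hM (some j))
    refine ⟨some j, B * h, by rw [mul_assoc, hh1, mul_one], ?_⟩
    unfold PL
    rw [Submonoid.coe_mul, Matrix.mul_apply, Fin.sum_univ_two, e00, e10, kap_some hM]
    simp
    refine ⟨v * (M * B.1 1 1 - B.1 1 0) * (-1) - M * B.1 1 0 * t, ?_⟩
    linear_combination (M * B.1 1 1 - B.1 1 0) * huv - M * B.1 1 0 * hj

theorem kau_ex {M p : ℕ} (hp : p.Prime) (hM : N ∣ M) (hpM : ¬ p ∣ M) (B : SN N)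
    (hB : ¬ (p : ℤ) ∣ B.1.det) : ∃ i, ∃ C : SN N, B = C * kau N M p i ∧ PUr p C := by
  have hpi : Prime (p : ℤ) := Nat.prime_iff_prime_int.1 hp
  rw [Matrix.det_fin_two] at hB
  by_cases hc : (p : ℤ) ∣ B.1 0 1
  · exact ⟨none, B, by rw [kau_none, mul_one], hc⟩
  · have hMB : ¬ (p : ℤ) ∣ M * B.1 0 1 := fun h =>
      (hpi.dvd_or_dvd h).elim (fun h => hpM (by exact_mod_cast h)) hc
    obtain ⟨u, v, huv⟩ := ((Prime.coprime_iff_not_dvd hpi).2 hMB).symm
    obtain ⟨j, t, hj⟩ := exists_fin hp.pos (u * (B.1 0 0 - B.1 0 1))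
    obtain ⟨h, hh, hh1, hh2, e01, e10, e00, e11⟩ := isG0_inv' hM (kau_mem (p := p) hM (some j))
    refine ⟨some j, B * h, by rw [mul_assoc, hh1, mul_one], ?_⟩
    unfold PUr
    rw [Submonoid.coe_mul, Matrix.mul_apply, Fin.sum_univ_two, e01, e11, kau_some hM]
    simp
    refine ⟨-(v * (B.1 0 0 - B.1 0 1)) - M * B.1 0 1 * t, ?_⟩
    linear_combination (B.1 0 0 - B.1 0 1) * huv - M * B.1 0 1 * hj

theorem kap_un {M p : ℕ} (hp : p.Prime) (hM : N ∣ M) (hpM : ¬ p ∣ M) (i j : Option (Fin p))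
    (C : SN N) (hC : IsG0 M C) (hP : PL p C) (h : kap N M p i = C * kap N M p j) : i = j := by
  have hpi : Prime (p : ℤ) := Nat.prime_iff_prime_int.1 hp
  have hM' : ¬ (p : ℤ) ∣ (M : ℤ) := by exact_mod_cast hpM
  obtain ⟨h', hh, hh1, hh2, e01, e10, e00, e11⟩ := isG0_inv' hM (kap_mem (p := p) hM j)
  have hCe : C = kap N M p i * h' := by rw [h, mul_assoc, hh2, mul_one]
  unfold PL at hP
  rw [hCe, Submonoid.coe_mul, Matrix.mul_apply, Fin.sum_univ_two, e00, e10] at hP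
  rcases i with _ | i <;> rcases j with _ | j
  · rfl
  · exfalso
    rw [kap_none, kap_some hM] at hP
    simp at hP
    exact hM' hP
  · exfalso
    rw [kap_none, kap_some hM] at hP
    simp at hP
    exact hM' hP
  · congr 1
    rw [kap_some hM, kap_some hM] at hP
    simp at hP
    have h1 : (p : ℤ) ∣ M * (M * (((j : ℕ) : ℤ) - ((i : ℕ) : ℤ))) := by
      have h2 : (M : ℤ) * (M * (((j : ℕ) : ℤ) - ((i : ℕ) : ℤ))) =
        M * (M * (j : ℕ) + 1) + -((M * (i : ℕ) + 1) * M) := by ring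
      rw [h2]; exact hP
    have h3 := (hpi.dvd_or_dvd ((hpi.dvd_or_dvd h1).resolve_left hM')).resolve_left hM'
    exact (fin_unique h3).symm

theorem kau_un {M p : ℕ} (hp : p.Prime) (hM : N ∣ M) (hpM : ¬ p ∣ M) (i j : Option (Fin p))
    (C : SN N) (hC : IsG0 M C) (hP : PUr p C) (h : kau N M p i = C * kau N M p j) : i = j := by
  have hpi : Prime (p : ℤ) := Nat.prime_iff_prime_int.1 hp
  have hM' : ¬ (p : ℤ) ∣ (M : ℤ) := by exact_mod_cast hpM
  have hp1 : ¬ (p : ℤ) ∣ 1 := fun h => hpi.not_isUnit (isUnit_of_dvd_one h)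
  obtain ⟨h', hh, hh1, hh2, e01, e10, e00, e11⟩ := isG0_inv' hM (kau_mem (p := p) hM j)
  have hCe : C = kau N M p i * h' := by rw [h, mul_assoc, hh2, mul_one]
  unfold PUr at hP
  rw [hCe, Submonoid.coe_mul, Matrix.mul_apply, Fin.sum_univ_two, e01, e11] at hP
  rcases i with _ | i <;> rcases j with _ | j
  · rfl
  · exfalso
    rw [kau_none, kau_some hM] at hP
    simp at hP
    exact hp1 hP
  · exfalso
    rw [kau_none, kau_some hM] at hP
    simp at hP
    exact hp1 hP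
  · congr 1
    rw [kau_some hM, kau_some hM] at hP
    simp at hP
    have h1 : (p : ℤ) ∣ (M * (((j : ℕ) : ℤ) - ((i : ℕ) : ℤ))) := by
      have h2 : (M : ℤ) * (((j : ℕ) : ℤ) - ((i : ℕ) : ℤ)) =
        -(1 + M * ((i : ℕ) : ℤ)) + (1 + M * ((j : ℕ) : ℤ)) := by ring
      rw [h2]
      convert hP using 1
      ring
    have h3 := (hpi.dvd_or_dvd h1).resolve_left hM'
    exact (fin_unique h3).symm

theorem PL_inv {M p : ℕ} (hM : N ∣ M) {g h : SN N} (hg : IsG0 M g) (h1 : g * h = 1)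
    (hP : PL p g) : PL p h := by
  obtain ⟨h', hh, hh1, hh2, e01, e10, e00, e11⟩ := isG0_inv' hM hg
  have : h = h' := S9_mul_left_cancel (h1.trans hh2.symm)
  rw [this]
  unfold PL at *
  rw [e10]
  exact (dvd_neg).2 hP

theorem PUr_inv {M p : ℕ} (hM : N ∣ M) {g h : SN N} (hg : IsG0 M g) (h1 : g * h = 1)
    (hP : PUr p g) : PUr p h := by
  obtain ⟨h', hh, hh1, hh2, e01, e10, e00, e11⟩ := isG0_inv' hM hg
  have : h = h' := S9_mul_left_cancel (h1.trans hh2.symm)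
  rw [this]
  unfold PUr at *
  rw [e01]
  exact (dvd_neg).2 hP

/-- the shifted triangular matrices -/
def beu (N M p l : ℕ) : Ix M l → SN N :=
  Sum.elim (fun b => upS N 1 (p * (b : ℕ)) l) (fun _ => upS N l 0 1)

theorem prime_not_dvd {p l : ℕ} (hp : p.Prime) (hl : l.Prime) (hlp : l ≠ p) :
    ¬ (p : ℤ) ∣ (l : ℤ) := by
  intro h
  have h1 : p ∣ l := by exact_mod_cast h
  exact hlp ((Nat.prime_dvd_prime_iff_eq hp hl).1 h1).symm

theorem trans_kap {M p l : ℕ} (hp : p.Prime) (hl : l.Prime) (hlp : l ≠ p) (hM : N ∣ M)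
    (hM0 : M ≠ 0) (hpM : ¬ p ∣ M) : Trans M p l (PL p) (kap N M p) (bet N M l) where
  one := PL_one p
  mul _ _ hg hh := PL_mul hg hh
  inv _ _ hg _ h1 hP := PL_inv hM hg h1 hP
  mem := kap_mem hM
  ex := kap_ex hp hM hpM
  un := kap_un hp hM hpM
  bb C hC hP := by
    have hpi : Prime (p : ℤ) := Nat.prime_iff_prime_int.1 hp
    have hp1 : ¬ (p : ℤ) ∣ 1 := fun h => hpi.not_isUnit (isUnit_of_dvd_one h)
    obtain ⟨a, ⟨γ, hγ, h⟩, -⟩ := rep hl hM hM0 hC
    refine ⟨a, γ, hγ, ?_, h⟩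
    unfold PL at *
    rw [h, Submonoid.coe_mul, Matrix.mul_apply, Fin.sum_univ_two] at hP
    rcases a with b | u
    · rw [bet_inl hl] at hP
      simpa [up] using hP
    · rw [bet_inr hl hM] at hP
      have h1 : (p : ℤ) ∣ γ.1 1 0 * l := by simpa [dn] using hP
      exact (hpi.dvd_or_dvd h1).resolve_right (prime_not_dvd hp hl hlp)

theorem beu_inl {M p l : ℕ} (hl : l.Prime) (b : Fin l) :
    (beu N M p l (Sum.inl b)).1 = up l (p * (b : ℕ)) := by
  have hl0 : (1 : ℤ) * l ≠ 0 := by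
    rw [one_mul]; exact_mod_cast hl.ne_zero
  exact upS_coe isCoprime_one_left hl0

theorem beu_inr {M p l : ℕ} (hl : l.Prime) (hM : N ∣ M) (u : {_u : Unit // ¬ l ∣ M}) :
    (beu N M p l (Sum.inr u)).1 = dn l :=
  upS_coe (cop_prime_rep hl hM u.2) (by rw [mul_one]; exact_mod_cast hl.ne_zero)

theorem upS_one_mem (M : ℕ) (q : ℤ) : IsG0 M (upS N 1 q 1) := by
  have h : (upS N 1 q 1).1 = !![1, q; 0, 1] := upS_coe isCoprime_one_left (by norm_num)
  refine ⟨by rw [h, det_fin_two_of]; ring, by rw [h]; simp⟩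

theorem trans_kau {M p l : ℕ} (hp : p.Prime) (hl : l.Prime) (hlp : l ≠ p) (hM : N ∣ M)
    (hM0 : M ≠ 0) (hpM : ¬ p ∣ M) : Trans M p l (PUr p) (kau N M p) (beu N M p l) where
  one := PUr_one p
  mul _ _ hg hh := PUr_mul hg hh
  inv _ _ hg _ h1 hP := PUr_inv hM hg h1 hP
  mem := kau_mem hM
  ex := kau_ex hp hM hpM
  un := kau_un hp hM hpM
  bb C hC hP := by
    have hpi : Prime (p : ℤ) := Nat.prime_iff_prime_int.1 hp
    have hpl := prime_not_dvd hp hl hlp
    obtain ⟨a, ⟨γ, hγ, h⟩, -⟩ := rep hl hM hM0 hC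
    rcases a with b | u
    · obtain ⟨s, t, hst⟩ := ((Prime.coprime_iff_not_dvd hpi).2 hpl)
      obtain ⟨b', q, hb'⟩ := exists_fin hl.pos (s * (b : ℕ))
      have hq : ((b : ℕ) : ℤ) = p * (b' : ℕ) + (t * (b : ℕ) + p * q) * l := by
        linear_combination (-((b : ℕ) : ℤ)) * hst + (p : ℤ) * hb'
      have e1 : γ * bet N M l (Sum.inl b) =
          (γ * upS N 1 (t * (b : ℕ) + p * q) 1) * beu N M p l (Sum.inl b') := by
        apply Subtype.ext
        have h3 : (upS N 1 (t * (b : ℕ) + p * q) 1).1 = !![1, t * (b : ℕ) + p * q; 0, 1] :=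
          upS_coe isCoprime_one_left (by norm_num)
        rw [Submonoid.coe_mul, Submonoid.coe_mul, Submonoid.coe_mul, bet_inl hl, beu_inl hl,
          Matrix.mul_assoc]
        congr 1
        have h4 := tq_mul_up (t * (b : ℕ) + p * q) l (p * (b' : ℕ))
        have h5 : (tq (t * (b : ℕ) + p * q) : Mat) = (upS N 1 (t * (b : ℕ) + p * q) 1).1 := h3.symm
        rw [← h5, h4, ← hq]
      refine ⟨Sum.inl b', γ * upS N 1 (t * (b : ℕ) + p * q) 1,
        isG0_mul hγ (upS_one_mem M _), ?_, h.trans e1⟩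
      rw [h, e1] at hP
      unfold PUr at *
      rw [Submonoid.coe_mul, Matrix.mul_apply, Fin.sum_univ_two, beu_inl hl] at hP
      have h1 : (p : ℤ) ∣ (γ * upS N 1 (t * (b : ℕ) + p * q) 1).1 0 1 * l := by
        have h2 : (γ * upS N 1 (t * (b : ℕ) + p * q) 1).1 0 1 * (l : ℤ) =
            ((γ * upS N 1 (t * (b : ℕ) + p * q) 1).1 0 0 * (up l (p * (b' : ℕ))) 0 1 +
              (γ * upS N 1 (t * (b : ℕ) + p * q) 1).1 0 1 * (up l (p * (b' : ℕ))) 1 1) -
            p * ((γ * upS N 1 (t * (b : ℕ) + p * q) 1).1 0 0 * (b' : ℕ)) := by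
          simp [up]
          ring
        rw [h2]
        exact dvd_sub hP (dvd_mul_right _ _)
      exact (hpi.dvd_or_dvd h1).resolve_right hpl
    · have e1 : (bet N M l (Sum.inr u)) = beu N M p l (Sum.inr u) := rfl
      refine ⟨Sum.inr u, γ, hγ, ?_, h.trans (by rw [e1])⟩
      unfold PUr at *
      rw [h, Submonoid.coe_mul, Matrix.mul_apply, Fin.sum_univ_two, bet_inr hl hM] at hP
      simpa [dn] using hP

end Gouvea.PX
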