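import Pool.Agent.Work.MP_d3517d_nt.P5.Count
import Pool.Agent.Work.MP_d3517d_nt.P5.LatBasis
import Pool.Agent.Work.MP_d3517d_nt.Sys.Class

/-!
# P5: the spectra of lattices and of their parts at an ideal (MP_d3517d_nt)

* `matOf b Φ` : the matrices of a commuting family;
* `specE_eq_Sys` : the eigenvalues of `Φ r` on a lattice in terms of the systems of eigenvalues;
* `specE_ker`, `specE_range`, `finrank_ker` : the summands cut out by the idempotent of an ideal.
-/

open Polynomial Finset Filter Topology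

noncomputable section

namespace Gouvea.P5

open Pool.Agent.Gouv Gouvea.Sys

/-! ### Matrices -/

section MatOf

variable {R : Type} [CommRing R] {k : Type} [CommRing k] {L : Type} [AddCommGroup L] [Module k L]
  {ι : Type} [Fintype ι] [DecidableEq ι]

/-- the matrices of a commuting family of endomorphisms -/
def matOf (b : Module.Basis ι k L) (Φ : R →+* Module.End k L) : R →+* Matrix ι ι k :=
  ((LinearMap.toMatrixAlgEquiv b : Module.End k L ≃ₐ[k] Matrix ι ι k) :
    Module.End k L →+* Matrix ι ι k).comp Φ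

theorem matOf_apply (b : Module.Basis ι k L) (Φ : R →+* Module.End k L) (r : R) :
    matOf b Φ r = LinearMap.toMatrix b b (Φ r) := rfl

end MatOf

/-- the systems of eigenvalues from matrices -/
theorem Sys_matOf {R : Type} [CommRing R] {K : Type} [Field K] {V : Type} [AddCommGroup V]
    [Module K V] [FiniteDimensional K V] {ι : Type} [Fintype ι] [DecidableEq ι]
    (b : Module.Basis ι K V) (Φ : R →+* Module.End K V) : Sys (matRep (matOf b Φ)) = Sys Φ := by
  symm
  refine Sys_congr b.equivFun fun r v => ?_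
  rw [matRep_apply, matOf_apply]
  exact (LinearMap.toMatrix_mulVec_repr b b (Φ r) v).symm

variable {p : ℕ} [hp : Fact p.Prime]
variable {A : Type} [AddCommGroup A] [Module ℤ_[p] A] [Module.Free ℤ_[p] A]
  [Module.Finite ℤ_[p] A]
variable {R R' : Type} [CommRing R] [CommRing R']

/-- the eigenvalues on a lattice -/
theorem specE_eq_Sys {ι : Type} [Fintype ι] [DecidableEq ι] (b : Module.Basis ι ℤ_[p] A)
    (Φ : R →+* Module.End ℤ_[p] A) (r : R) :
    specE (Φ r) = (Sys (matRep (toK (matOf b Φ)))).map fun χ => χ r := by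
  rw [specE_eq b, ← specM_toQ, matOf_apply]

/-! ### Idempotents -/

omit [Module.Free ℤ_[p] A] [Module.Finite ℤ_[p] A] in
theorem isCompl_idem {e : Module.End ℤ_[p] A} (he : e * e = e) :
    IsCompl (LinearMap.ker e) (LinearMap.ker (1 - e)) := by
  constructor
  · rw [Submodule.disjoint_def]
    intro x hx hx'
    rw [LinearMap.mem_ker] at hx
    rw [LinearMap.mem_ker, LinearMap.sub_apply, Module.End.one_apply, hx, sub_zero] at hx'
    exact hx'
  · rw [codisjoint_iff, eq_top_iff]
    intro x _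
    have hex : e (e x) = e x := congrArg (fun f : Module.End ℤ_[p] A => f x) he
    refine Submodule.mem_sup.2 ⟨x - e x, ?_, e x, ?_, sub_add_cancel _ _⟩
    · rw [LinearMap.mem_ker, map_sub, hex, sub_self]
    · rw [LinearMap.mem_ker, LinearMap.sub_apply, Module.End.one_apply, hex, sub_self]

/-- the eigenvalues on the two summands -/
theorem specE_split {e : Module.End ℤ_[p] A} (he : e * e = e) {U : Module.End ℤ_[p] A}
    (h1 : LinearMap.ker e ≤ (LinearMap.ker e).comap U)
    (h2 : LinearMap.ker (1 - e) ≤ (LinearMap.ker (1 - e)).comap U) :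
    specE U = specE (U.restrict h1) + specE (U.restrict h2) := by
  have hc := isCompl_idem he
  set E := Submodule.prodEquivOfIsCompl _ _ hc with hE
  have h3 : E.conj ((U.restrict h1).prodMap (U.restrict h2)) = U := by
    apply LinearMap.ext
    intro x
    rw [LinearEquiv.conj_apply_apply]
    obtain ⟨y, rfl⟩ := E.surjective x
    rw [LinearEquiv.symm_apply_apply, hE, Submodule.coe_prodEquivOfIsCompl',
      Submodule.coe_prodEquivOfIsCompl', map_add]
    rfl
  have h4 : U.charpoly = (U.restrict h1).charpoly * (U.restrict h2).charpoly := by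
    rw [← LinearMap.charpoly_prodMap, ← LinearEquiv.charpoly_conj E, h3]
  unfold specE
  rw [h4, Polynomial.map_mul, Polynomial.map_mul, Polynomial.roots_mul]
  refine mul_ne_zero ?_ ?_
  · exact (((LinearMap.charpoly_monic _).map _).map _).ne_zero
  · exact (((LinearMap.charpoly_monic _).map _).map _).ne_zero

theorem specE_zero : specE (0 : Module.End ℤ_[p] A) =
    Multiset.replicate (Module.finrank ℤ_[p] A) 0 := by
  unfold specE
  rw [LinearMap.charpoly_zero, Polynomial.map_pow, Polynomial.map_pow, Polynomial.map_X,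
    Polynomial.map_X, Polynomial.roots_X_pow, Multiset.nsmul_singleton]

theorem specE_one : specE (1 : Module.End ℤ_[p] A) =
    Multiset.replicate (Module.finrank ℤ_[p] A) 1 := by
  unfold specE
  rw [LinearMap.charpoly_one, Polynomial.map_pow, Polynomial.map_pow, Polynomial.map_sub,
    Polynomial.map_sub, Polynomial.map_X, Polynomial.map_X, Polynomial.map_one,
    Polynomial.map_one, Polynomial.roots_pow, ← Polynomial.C_1, Polynomial.roots_X_sub_C,
    Multiset.nsmul_singleton]

/-! ### The parts at an ideal -/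

section Part

omit [Module.Free ℤ_[p] A] [Module.Finite ℤ_[p] A] in
theorem toMatrix_map_eq_zero {ι : Type} [Fintype ι] [DecidableEq ι] (b : Module.Basis ι ℤ_[p] A)
    {G : Module.End ℤ_[p] A} (h : ∀ a, ∃ y, G a = (p : ℤ_[p]) • y) :
    (LinearMap.toMatrix b b G).map PadicInt.toZMod = 0 := by
  ext i j
  obtain ⟨y, hy⟩ := h (b j)
  rw [Matrix.map_apply, LinearMap.toMatrix_apply, hy, map_smul, Finsupp.smul_apply, smul_eq_mul,
    map_mul, map_natCast, ZMod.natCast_self, zero_mul, Matrix.zero_apply]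

variable {ι : Type} [Fintype ι] [DecidableEq ι] (b : Module.Basis ι ℤ_[p] A)
  (Φ : R' →+* Module.End ℤ_[p] A) (j : R →+* R') (I : Ideal R) {e : Module.End ℤ_[p] A} {t : R}
  (ht : t ∈ I) (he : e * e = e)
  (het : ∀ a, ∃ y, e a - Φ (j t) a = (p : ℤ_[p]) • y)
  (hcomm : ∀ r, e * Φ r = Φ r * e)
  (hbig : ∀ u ∈ I, ∃ k, 0 < k ∧ ∀ a, ∃ y, (Φ (j u) ^ k) (a - Φ (j t) a) = (p : ℤ_[p]) • y)

open Classical in
/-- the systems in the part at `I` -/
def SysI : Multiset (R' →+* PadicAlgCl p) :=
  (Sys (matRep (toK (matOf b Φ)))).filter fun χ => ∀ u ∈ I, ‖χ (j u)‖ < 1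

open Classical in
/-- the other systems -/
def SysI' : Multiset (R' →+* PadicAlgCl p) :=
  (Sys (matRep (toK (matOf b Φ)))).filter fun χ => ¬ ∀ u ∈ I, ‖χ (j u)‖ < 1

omit [Module.Free ℤ_[p] A] [Module.Finite ℤ_[p] A] in
theorem SysI_add : SysI b Φ j I + SysI' b Φ j I = Sys (matRep (toK (matOf b Φ))) := by
  classical
  unfold SysI SysI'
  exact Multiset.filter_add_not _ _

include ht he het hcomm hbig

theorem spec_part_aux (τ : R') : ∃ m : ℕ,
    specE ((Φ τ).restrict (ker_le_comap (hcomm τ))) +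
      Multiset.replicate (Module.finrank ℤ_[p] (LinearMap.ker (1 - e))) 0 =
    (SysI b Φ j I).map (fun χ => χ τ) + Multiset.replicate m 0 := by
  classical
  set T : Module.End ℤ_[p] A →+* Matrix ι ι ℤ_[p] :=
    ((LinearMap.toMatrixAlgEquiv b : Module.End ℤ_[p] A ≃ₐ[ℤ_[p]] Matrix ι ι ℤ_[p]) :
      Module.End ℤ_[p] A →+* Matrix ι ι ℤ_[p]) with hT
  have hTa : ∀ U, T U = LinearMap.toMatrix b b U := fun _ => rfl
  have hTM : ∀ r, T (Φ r) = matOf b Φ r := fun _ => rfl
  have he' : T (1 - e) * T (1 - e) = T (1 - e) := by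
    rw [← map_mul]
    congr 1
    rw [sub_mul, mul_sub, mul_sub, he]
    simp
  have hcT : T (1 - e) * matOf b Φ τ = matOf b Φ τ * T (1 - e) := by
    rw [← hTM, ← map_mul, ← map_mul]
    congr 1
    rw [sub_mul, mul_sub, hcomm, one_mul, mul_one]
  have hmapsub : ∀ X Y : Matrix ι ι ℤ_[p], (X - Y).map PadicInt.toZMod =
      X.map PadicInt.toZMod - Y.map PadicInt.toZMod := fun X Y =>
    map_sub (RingHom.mapMatrix (PadicInt.toZMod (p := p))) X Y
  have him := tendsto_iff ((matOf b Φ).comp j) ht (e := T e) (by rw [← map_mul, he]) (by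
      have h1 := toMatrix_map_eq_zero b (G := e - Φ (j t)) het
      rw [← hTa, map_sub, hmapsub, sub_eq_zero] at h1
      exact h1) (fun u => by
      change T e * T (Φ (j u)) = T (Φ (j u)) * T e
      rw [← map_mul, ← map_mul, hcomm]) (fun u hu => by
      obtain ⟨k, hk, hk'⟩ := hbig u hu
      refine ⟨k, hk, ?_⟩
      have h1 := toMatrix_map_eq_zero b (G := Φ (j u) ^ k * (1 - Φ (j t))) (fun a => hk' a)
      rw [← hTa, map_mul, map_pow, map_sub, map_one] at h1
      exact h1)
  have hsub : (1 : Matrix ι ι ℤ_[p]) - T e = T (1 - e) := by rw [map_sub, map_one]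
  rw [hsub] at him
  obtain ⟨-, h2⟩ := spec_part j (matOf b Φ) I (T (1 - e)) he' τ hcT him
  refine ⟨_, Eq.trans ?_ h2⟩
  -- the left side is the spectrum of `(1 - e) Φ τ`
  have hU1 : LinearMap.ker e ≤ (LinearMap.ker e).comap ((1 - e) * Φ τ) := by
    intro x hx
    rw [LinearMap.mem_ker] at hx
    rw [Submodule.mem_comap, LinearMap.mem_ker, ← Module.End.mul_apply, ← mul_assoc, mul_sub,
      mul_one, he, sub_self, zero_mul, LinearMap.zero_apply]
  have hU2 : LinearMap.ker (1 - e) ≤ (LinearMap.ker (1 - e)).comap ((1 - e) * Φ τ) := by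
    refine ker_le_comap ?_
    have h0 : (1 - e) * Φ τ = Φ τ * (1 - e) := by
      rw [sub_mul, mul_sub, hcomm, one_mul, mul_one]
    rw [← mul_assoc, mul_assoc (1 - e) (Φ τ) (1 - e), ← h0, ← mul_assoc]
  have h3 := specE_split he hU1 hU2
  have hτ : ∀ x ∈ LinearMap.ker e, Φ τ x ∈ LinearMap.ker e := ker_le_comap (hcomm τ)
  have h4 : ((1 - e) * Φ τ).restrict hU1 = (Φ τ).restrict hτ := by
    apply LinearMap.ext
    intro x
    apply Subtype.ext
    have hx : e x = 0 := x.2
    have h5 : e (Φ τ x) = Φ τ (e x) := congrArg (fun f : Module.End ℤ_[p] A => f x) (hcomm τ)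
    rw [LinearMap.coe_restrict_apply, LinearMap.coe_restrict_apply, Module.End.mul_apply,
      LinearMap.sub_apply, Module.End.one_apply, h5, hx, map_zero, sub_zero]
  have hU3 : ∀ x ∈ LinearMap.ker (1 - e), ((1 - e) * Φ τ) x ∈ LinearMap.ker (1 - e) := hU2
  have h6 : ((1 - e) * Φ τ).restrict hU3 = 0 := by
    apply LinearMap.ext
    intro x
    apply Subtype.ext
    have hx : (1 - e) (x : A) = 0 := x.2
    rw [LinearMap.sub_apply, Module.End.one_apply, sub_eq_zero] at hx
    have h5 : e (Φ τ x) = Φ τ (e x) := congrArg (fun f : Module.End ℤ_[p] A => f x) (hcomm τ)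
    rw [LinearMap.coe_restrict_apply, Module.End.mul_apply, LinearMap.sub_apply,
      Module.End.one_apply, h5, ← hx, sub_self]
    rfl
  rw [h4, h6, specE_zero] at h3
  rw [← h3, specE_eq b, ← hTM, ← map_mul]
  rfl

/-- **The rank of the part at `I`.** -/
theorem finrank_ker : Module.finrank ℤ_[p] (LinearMap.ker e) = (SysI b Φ j I).card := by
  classical
  obtain ⟨m, hm⟩ := spec_part_aux b Φ j I ht he het hcomm hbig 1
  have hτ : ∀ x ∈ LinearMap.ker e, Φ 1 x ∈ LinearMap.ker e := ker_le_comap (hcomm 1)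
  have h1 : (Φ 1).restrict hτ = 1 := by
    apply LinearMap.ext
    intro x
    apply Subtype.ext
    rw [LinearMap.coe_restrict_apply, map_one]
    rfl
  have h2 : (SysI b Φ j I).map (fun χ => χ 1) = Multiset.replicate (SysI b Φ j I).card 1 := by
    simp only [map_one, Multiset.map_const']
  rw [h1, specE_one, h2] at hm
  have h3 := congrArg (fun S => Multiset.count 1 S) hm
  simpa [Multiset.count_add, Multiset.count_replicate] using h3

theorem finrank_ker' : Module.finrank ℤ_[p] (LinearMap.ker (1 - e)) = (SysI' b Φ j I).card := by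
  have h1 := finrank_ker b Φ j I ht he het hcomm hbig
  have h2 := rank_ker_range he
  have h3 := congrArg Multiset.card (SysI_add b Φ j I)
  rw [Multiset.card_add, card_Sys, Module.finrank_fintype_fun_eq_card,
    ← Module.finrank_eq_card_basis b] at h3
  omega

/-- **The eigenvalues on the part at `I`.** -/
theorem specE_ker (τ : R') (h1 : LinearMap.ker e ≤ (LinearMap.ker e).comap (Φ τ)) :
    specE ((Φ τ).restrict h1) = (SysI b Φ j I).map (fun χ => χ τ) := by
  classical
  obtain ⟨m, hm⟩ := spec_part_aux b Φ j I ht he het hcomm hbig τ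
  have hcard : (specE ((Φ τ).restrict (ker_le_comap (hcomm τ)))).card =
      Module.finrank ℤ_[p] (LinearMap.ker e) := by
    unfold specE
    rw [Polynomial.splits_iff_card_roots.1 (IsAlgClosed.splits _),
      ((LinearMap.charpoly_monic _).map _).natDegree_map, (LinearMap.charpoly_monic _).natDegree_map,
      LinearMap.charpoly_natDegree]
  have h2 := congrArg Multiset.card hm
  rw [Multiset.card_add, Multiset.card_add, Multiset.card_map, Multiset.card_replicate,
    Multiset.card_replicate, hcard, finrank_ker b Φ j I ht he het hcomm hbig] at h2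
  have h3 : Module.finrank ℤ_[p] (LinearMap.ker (1 - e)) = m := by omega
  rw [h3] at hm
  exact (add_left_inj _).1 hm

/-- **The eigenvalues on the complement.** -/
theorem specE_ker' (τ : R') (h1 : LinearMap.ker (1 - e) ≤ (LinearMap.ker (1 - e)).comap (Φ τ)) :
    specE ((Φ τ).restrict h1) = (SysI' b Φ j I).map (fun χ => χ τ) := by
  have h2 := specE_split he (ker_le_comap (hcomm τ)) h1
  rw [specE_eq_Sys b Φ τ, specE_ker b Φ j I ht he het hcomm hbig, ← SysI_add b Φ j I,
    Multiset.map_add] at h2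
  exact ((add_right_inj _).1 h2).symm

end Part

/-! ### The symbols -/

section Symbols

open Gouvea.PX

variable {N M : ℕ} [NeZero M] (hN : N ∣ M) (n : ℕ)

/-- the integral matrices of the Hecke ring on the symbols -/
abbrev AZn : MvPolynomial Nat.Primes ℤ →+*
    Matrix (Fin (rk (NeZero.ne M) hN n)) (Fin (rk (NeZero.ne M) hN n)) ℤ :=
  AZ (NeZero.ne M) hN n

theorem matOf_bas {k : Type} [CommRing k] [IsDomain k] [CharZero k]
    (r : MvPolynomial Nat.Primes ℤ) :
    matOf (bas (NeZero.ne M) hN n k) (rhoN k N M n hN) r = (AZn hN n r).map (Int.cast : ℤ → k) :=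
  toMatrix_rhoN (NeZero.ne M) hN n r

include hN in
theorem fin_symX (k : Type) [CommRing k] [IsDomain k] [CharZero k] :
    Module.Finite k (Sym k N M n) := Module.Finite.of_basis (bas (NeZero.ne M) hN n k)

include hN in
theorem free_symX (k : Type) [CommRing k] [IsDomain k] [CharZero k] :
    Module.Free k (Sym k N M n) := Module.Free.of_basis (bas (NeZero.ne M) hN n k)

/-- the systems of eigenvalues of the symbols over a field of characteristic zero -/
theorem Sys_rhoN {K : Type} [Field K] [CharZero K] [FiniteDimensional K (Sym K N M n)] :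
    Sys (rhoN K N M n hN) = Sys (matRep (intRep K (AZn hN n))) := by
  have h1 : matOf (bas (NeZero.ne M) hN n K) (rhoN K N M n hN) = intRep K (AZn hN n) := by
    apply RingHom.ext
    intro r
    rw [matOf_bas]
    rfl
  rw [← Sys_matOf (bas (NeZero.ne M) hN n K), h1]

theorem toK_matOf_bas : toK (matOf (bas (NeZero.ne M) hN n ℤ_[p]) (rhoN ℤ_[p] N M n hN)) =
    intRep (PadicAlgCl p) (AZn hN n) := by
  apply RingHom.ext
  intro r
  rw [RingHom.comp_apply, matOf_bas]
  ext a c
  change zK p (((AZn hN n r a c : ℤ) : ℤ_[p])) = ((AZn hN n r a c : ℤ) : PadicAlgCl p)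
  rw [map_intCast]

/-- **The eigenvalues on the lattice of symbols.** -/
theorem specE_rhoN [Module.Free ℤ_[p] (Sym ℤ_[p] N M n)] [Module.Finite ℤ_[p] (Sym ℤ_[p] N M n)]
    [FiniteDimensional (PadicAlgCl p) (Sym (PadicAlgCl p) N M n)]
    (t : MvPolynomial Nat.Primes ℤ) : specE (rhoN ℤ_[p] N M n hN t) =
      (Sys (rhoN (PadicAlgCl p) N M n hN)).map fun χ => χ t := by
  rw [specE_eq_Sys (bas (NeZero.ne M) hN n ℤ_[p]) (rhoN ℤ_[p] N M n hN), toK_matOf_bas,
    ← Sys_rhoN]

open Classical in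
theorem SysI_rhoN [FiniteDimensional (PadicAlgCl p) (Sym (PadicAlgCl p) N M n)]
    (j : R →+* MvPolynomial Nat.Primes ℤ) (I : Ideal R) :
    SysI (bas (NeZero.ne M) hN n ℤ_[p]) (rhoN ℤ_[p] N M n hN) j I =
      (Sys (rhoN (PadicAlgCl p) N M n hN)).filter fun χ => ∀ u ∈ I, ‖χ (j u)‖ < 1 := by
  unfold SysI
  rw [toK_matOf_bas, ← Sys_rhoN]

open Classical in
theorem SysI'_rhoN [FiniteDimensional (PadicAlgCl p) (Sym (PadicAlgCl p) N M n)]
    (j : R →+* MvPolynomial Nat.Primes ℤ) (I : Ideal R) :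
    SysI' (bas (NeZero.ne M) hN n ℤ_[p]) (rhoN ℤ_[p] N M n hN) j I =
      (Sys (rhoN (PadicAlgCl p) N M n hN)).filter fun χ => ¬ ∀ u ∈ I, ‖χ (j u)‖ < 1 := by
  unfold SysI'
  rw [toK_matOf_bas, ← Sys_rhoN]

open Classical in
/-- **The idempotent of an ideal of `ℤ[T_l : l ≠ p]` on the symbols**, and the ranks of the two
summands; for the eigenvalues see `specE_ker`, `specE_ker'` and `SysI_rhoN`, `SysI'_rhoN`. -/
theorem exists_partX [Module.Free ℤ_[p] (Sym ℤ_[p] N M n)]
    [Module.Finite ℤ_[p] (Sym ℤ_[p] N M n)]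
    [FiniteDimensional (PadicAlgCl p) (Sym (PadicAlgCl p) N M n)]
    (j : R →+* MvPolynomial Nat.Primes ℤ) (I : Ideal R) :
    ∃ (e : Module.End ℤ_[p] (Sym ℤ_[p] N M n)) (t : R), t ∈ I ∧ e * e = e ∧
      (∀ a, ∃ y, e a - rhoN ℤ_[p] N M n hN (j t) a = (p : ℤ_[p]) • y) ∧
      (∀ g : Module.End ℤ_[p] (Sym ℤ_[p] N M n),
        (∀ u, rhoN ℤ_[p] N M n hN (j u) * g = g * rhoN ℤ_[p] N M n hN (j u)) → e * g = g * e) ∧
      (∀ r, e * rhoN ℤ_[p] N M n hN r = rhoN ℤ_[p] N M n hN r * e) ∧
      (∀ u ∈ I, ∃ k, 0 < k ∧ ∀ a, ∃ y, (rhoN ℤ_[p] N M n hN (j u) ^ k)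
        (a - rhoN ℤ_[p] N M n hN (j t) a) = (p : ℤ_[p]) • y) ∧
      Module.finrank ℤ_[p] (LinearMap.ker e) =
        ((Sys (rhoN (PadicAlgCl p) N M n hN)).filter fun χ => ∀ u ∈ I, ‖χ (j u)‖ < 1).card ∧
      Module.finrank ℤ_[p] (LinearMap.ker (1 - e)) =
        ((Sys (rhoN (PadicAlgCl p) N M n hN)).filter fun χ => ¬ ∀ u ∈ I, ‖χ (j u)‖ < 1).card := by
  obtain ⟨e, t, ht, he, het, hg, hbig⟩ := exists_idem ((rhoN ℤ_[p] N M n hN).comp j) I
  have hcomm : ∀ r, e * rhoN ℤ_[p] N M n hN r = rhoN ℤ_[p] N M n hN r * e := by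
    intro r
    refine hg _ fun u => ?_
    rw [RingHom.comp_apply, ← map_mul, ← map_mul, mul_comm]
  refine ⟨e, t, ht, he, het, hg, hcomm, hbig, ?_, ?_⟩
  · rw [finrank_ker (bas (NeZero.ne M) hN n ℤ_[p]) (rhoN ℤ_[p] N M n hN) j I ht he het hcomm hbig,
      SysI_rhoN]
  · rw [finrank_ker' (bas (NeZero.ne M) hN n ℤ_[p]) (rhoN ℤ_[p] N M n hN) j I ht he het hcomm hbig,
      SysI'_rhoN]

/-- **The systems over `ℂ` and over `\bar ℚ_p`.** -/
theorem map_emb_rhoN (j : algebraicClosure ℚ ℂ →+* PadicAlgCl p)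
    [FiniteDimensional ℂ (Sym ℂ N M n)]
    [FiniteDimensional (PadicAlgCl p) (Sym (PadicAlgCl p) N M n)] :
    (Sys (rhoN ℂ N M n hN)).map (fun χ => fun r => emb p j (χ r)) =
      (Sys (rhoN (PadicAlgCl p) N M n hN)).map (fun χ => fun r => χ r) := by
  rw [Sys_rhoN, Sys_rhoN, map_emb]

theorem card_emb_rhoN (j : algebraicClosure ℚ ℂ →+* PadicAlgCl p)
    [FiniteDimensional ℂ (Sym ℂ N M n)]
    [FiniteDimensional (PadicAlgCl p) (Sym (PadicAlgCl p) N M n)]
    (P : (MvPolynomial Nat.Primes ℤ → PadicAlgCl p) → Prop) [DecidablePred P] :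
    ((Sys (rhoN ℂ N M n hN)).filter fun χ => P fun r => emb p j (χ r)).card =
      ((Sys (rhoN (PadicAlgCl p) N M n hN)).filter fun χ => P fun r => χ r).card := by
  have h := congrArg (fun S => (Multiset.filter P S).card) (map_emb_rhoN hN n j)
  simp only [Multiset.filter_map, Multiset.card_map] at h
  exact h

end Symbols

end Gouvea.P5
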