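import Pool.Agent.Work.MP_d3517d_nt.P5.NilChain
import Pool.Agent.Work.MP_d3517d_nt.P5.LinPol
import Pool.Agent.Work.MP_d3517d_nt.P5.RepP
import Pool.Agent.Work.MP_d3517d_nt.P5.SymCount

/-!
# P5, T-level (`p = 2, 3`): the two filtrations (MP_d3517d_nt)

Symbols modulo `p` of weight `n + 2` (`n` even), `p ∈ {2, 3}`.
* level `M`, `p ∣ M`: the filtration by the degree; the leading coefficient is a symbol of
  weight `2`, level `M`; `T_l` is multiplied by `l ^ t`;
* level `M`, `p ∣ M`: the filtration by the divisibility by `(X ^ p - X) ^ r`; the coefficient of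
  `X ^ r` at `(δ x, δ y)`, `δ = diag(p, 1)`, is a symbol of weight `2` and level `M p`.
-/

open Polynomial Finset Matrix

noncomputable section

namespace Gouvea.P5

open Gouvea Gouvea.PX
open Gouvea.PS (slk slk_apply)

/-! ### units of `ZMod p` -/

lemma unit_sq_two : ∀ x : ZMod 2, x ≠ 0 → x * x = 1 := by decide

lemma unit_sq_three : ∀ x : ZMod 3, x ≠ 0 → x * x = 1 := by decide

variable {p : ℕ} [hp : Fact p.Prime] {N M : ℕ}

lemma unit_sq (h23 : p = 2 ∨ p = 3) {x : ZMod p} (hx : x ≠ 0) : x * x = 1 := by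
  rcases h23 with rfl | rfl
  · exact unit_sq_two x hx
  · exact unit_sq_three x hx

lemma pow_par (h23 : p = 2 ∨ p = 3) {x : ZMod p} (hx : x ≠ 0) {a b : ℕ} (h : a % 2 = b % 2) :
    x ^ a = x ^ b := by
  have h1 : ∀ a : ℕ, x ^ a = x ^ (a % 2) := by
    intro a
    conv_lhs => rw [← Nat.div_add_mod a 2]
    rw [pow_add, pow_mul, pow_two, unit_sq h23 hx, one_pow, one_mul]
  rw [h1 a, h1 b, h]

/-! ### coefficients -/

/-- weight two: the action on the values is trivial -/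
lemma act_zero_apply {k : Type} [CommRing k] (g : SN N)
    (ψ : Cusp N → Cusp N → Fin (0 + 1) → k) (x y : Cusp N) :
    act k N 0 g ψ x y = ψ (g • x) (g • y) := by
  funext i
  have h1 : ∀ i : Fin (0 + 1), i = 0 := fun i => Fin.ext (by have := i.2; omega)
  rw [act_apply, Matrix.mulVec, dotProduct, h1 i, Fin.sum_univ_succ, Fin.sum_univ_zero, add_zero,
    slk_apply]
  unfold slR
  simp

/-- the leading coefficient -/
lemma slR_lead {k : Type} [Field k] {g : Matrix (Fin 2) (Fin 2) k} (hg : g 1 0 = 0) (n t : ℕ) :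
    slR n g t t = g 0 0 ^ t * g 1 1 ^ (n - t) := by
  unfold slR
  rw [hg, C_0, zero_mul, zero_add, ← C_pow, coeff_mul_C]
  congr 1
  have h1 := coeff_pow_of_natDegree_le (m := t) (natDegree_linear_le (a := g 0 0) (b := g 0 1))
  rw [mul_one] at h1
  rw [h1]
  simp

lemma det_redZ {g : SN N} (hg : Bor (redZ p g)) :
    ((g.1.det : ℤ) : ZMod p) = redZ p g 0 0 * redZ p g 1 1 := by
  have h1 : ((g.1 1 0 : ℤ) : ZMod p) = 0 := hg.1
  rw [Matrix.det_fin_two]
  push_cast
  rw [h1, mul_zero, sub_zero]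
  rfl

lemma lead_unit (h23 : p = 2 ∨ p = 3) {n t : ℕ} (hn : Even n) (ht : t ≤ n) {g : SN N}
    (hg : Bor (redZ p g)) :
    redZ p g 0 0 ^ t * redZ p g 1 1 ^ (n - t) = ((g.1.det : ℤ) : ZMod p) ^ t := by
  rw [det_redZ hg, mul_pow]
  congr 1
  refine pow_par h23 hg.2.2 ?_
  obtain ⟨m, hm⟩ := hn
  omega

/-- the leading coefficient of `φ | g` -/
lemma coef_act (h23 : p = 2 ∨ p = 3) {n t : ℕ} (hn : Even n) (ht : t < n + 1) {g : SN N}
    (hg : Bor (redZ p g)) {f : Cusp N → Cusp N → Fin (n + 1) → ZMod p}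
    (hf : ∀ x y (i : Fin (n + 1)), t < (i : ℕ) → f x y i = 0) (x y : Cusp N) :
    act (ZMod p) N n g f x y ⟨t, ht⟩ =
      ((g.1.det : ℤ) : ZMod p) ^ t * f (g • x) (g • y) ⟨t, ht⟩ := by
  rw [act_apply, Matrix.mulVec, dotProduct, Finset.sum_eq_single ⟨t, ht⟩]
  · rw [slk_apply, slR_lead hg.1, lead_unit h23 hn (by omega) hg]
  · intro i _ hi
    rcases lt_or_gt_of_ne (fun h => hi (Fin.ext h) : (i : ℕ) ≠ t) with h | h
    · rw [slk_upper n _ hg.1 _ _ (by simpa using h), zero_mul]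
    · rw [hf _ _ i h, mul_zero]
  · intro h
    exact absurd (Finset.mem_univ _) h

/-- the coefficients of `φ | g`, `g` diagonal modulo `p` -/
lemma coef_diag (h23 : p = 2 ∨ p = 3) {n r : ℕ} (hn : Even n) (hr : r < n + 1) {g : SN N}
    (hg : Bor (redZ p g)) (h01 : redZ p g 0 1 = 0)
    (f : Cusp N → Cusp N → Fin (n + 1) → ZMod p) (x y : Cusp N) :
    act (ZMod p) N n g f x y ⟨r, hr⟩ =
      ((g.1.det : ℤ) : ZMod p) ^ r * f (g • x) (g • y) ⟨r, hr⟩ := by
  rw [act_apply, Matrix.mulVec, dotProduct, Finset.sum_eq_single ⟨r, hr⟩]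
  · rw [slk_apply, slR_lead hg.1, lead_unit h23 hn (by omega) hg]
  · intro i _ hi
    have h1 : slk n (redZ p g) ⟨r, hr⟩ i = 0 := by
      rw [slk_apply]
      unfold slR
      rw [hg.1, h01, C_0, zero_mul, zero_add, add_zero, mul_pow, ← C_pow, ← C_pow, coeff_mul_C,
        coeff_C_mul, coeff_X_pow, if_neg (fun h => hi (Fin.ext h.symm)), mul_zero, zero_mul]
    rw [h1, zero_mul]
  · intro h
    exact absurd (Finset.mem_univ _) h

/-! ### twists of the Hecke ring -/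

section Twist

variable {Q : Type}

/-- `X_q ↦ l_q ^ s X_q` -/
def twr (lq : Q → ℕ) (s : ℕ) : MvPolynomial Q ℤ →+* MvPolynomial Q ℤ :=
  MvPolynomial.eval₂Hom MvPolynomial.C
    fun q => MvPolynomial.C ((lq q : ℤ) ^ s) * MvPolynomial.X q

lemma twr_X (lq : Q → ℕ) (s : ℕ) (q : Q) :
    twr lq s (MvPolynomial.X q) = MvPolynomial.C ((lq q : ℤ) ^ s) * MvPolynomial.X q := by
  rw [twr, MvPolynomial.eval₂Hom_X']

lemma twr_act {K : Type} [AddCommGroup K] [Module (ZMod p) K]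
    (Θ : MvPolynomial Q ℤ →+* Module.End (ZMod p) K) (lq : Q → ℕ) (s : ℕ) (q : Q) (x : K) :
    Θ (twr lq s (MvPolynomial.X q)) x = ((lq q : ZMod p) ^ s) • Θ (MvPolynomial.X q) x := by
  rw [twr_X, map_mul, Module.End.mul_apply]
  have h1 : Θ (MvPolynomial.C ((lq q : ℤ) ^ s)) =
      (((lq q : ℤ) ^ s : ℤ) : Module.End (ZMod p) K) := by
    rw [show (MvPolynomial.C ((lq q : ℤ) ^ s) : MvPolynomial Q ℤ) =
      (((lq q : ℤ) ^ s : ℤ) : MvPolynomial Q ℤ) by simp, map_intCast]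
  rw [h1, Module.End.intCast_apply]
  have h2 : ((lq q : ZMod p) ^ s) = ((((lq q : ℤ) ^ s : ℤ)) : ZMod p) := by push_cast; rfl
  rw [h2, ← Int.cast_smul_eq_zsmul (ZMod p)]

/-- two actions agreeing on the variables -/
lemma hom_eq_of_X {K : Type} [AddCommGroup K] [Module (ZMod p) K]
    {Θ Θ' : MvPolynomial Q ℤ →+* Module.End (ZMod p) K}
    (h : ∀ q, Θ (MvPolynomial.X q) = Θ' (MvPolynomial.X q)) : Θ = Θ' :=
  MvPolynomial.ringHom_ext (fun a => by
    rw [show (MvPolynomial.C a : MvPolynomial Q ℤ) = ((a : ℤ) : MvPolynomial Q ℤ) by simp,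
      map_intCast, map_intCast]) h

lemma twr_per (h23 : p = 2 ∨ p = 3) {K : Type} [AddCommGroup K] [Module (ZMod p) K]
    (Θ : MvPolynomial Q ℤ →+* Module.End (ZMod p) K) {lq : Q → ℕ}
    (hq : ∀ q, (lq q).Prime ∧ lq q ≠ p) (s : ℕ) :
    Θ.comp (twr lq (s + 2)) = Θ.comp (twr lq s) := by
  refine hom_eq_of_X fun q => LinearMap.ext fun x => ?_
  rw [RingHom.comp_apply, RingHom.comp_apply, twr_act, twr_act]
  have h1 : (lq q : ZMod p) ≠ 0 := by
    intro h
    rw [ZMod.natCast_eq_zero_iff] at h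
    exact (hq q).2 ((Nat.prime_dvd_prime_iff_eq hp.out (hq q).1).1 h).symm
  rw [pow_par h23 h1 (by omega : (s + 2) % 2 = s % 2)]

/-- equivariance on a stable submodule from the variables -/
theorem eqv_sub {V K : Type} [AddCommGroup V] [Module (ZMod p) V] [AddCommGroup K]
    [Module (ZMod p) K] {Ψ : MvPolynomial Q ℤ →+* Module.End (ZMod p) V}
    {Θ : MvPolynomial Q ℤ →+* Module.End (ZMod p) K} {W : Submodule (ZMod p) V}
    (hst : ∀ r, ∀ x ∈ W, Ψ r x ∈ W) (E : W →ₗ[ZMod p] K)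
    (h : ∀ q (x : W), E ⟨Ψ (MvPolynomial.X q) x, hst _ x x.2⟩ = Θ (MvPolynomial.X q) (E x))
    (r : MvPolynomial Q ℤ) (x : W) : E ⟨Ψ r x, hst r x x.2⟩ = Θ r (E x) := by
  induction r using MvPolynomial.induction_on generalizing x with
  | C a =>
    have e : (MvPolynomial.C a : MvPolynomial Q ℤ) = ((a : ℤ) : MvPolynomial Q ℤ) := by simp
    have e1 : (⟨Ψ (MvPolynomial.C a) x, hst _ x x.2⟩ : W) = a • x := by
      apply Subtype.ext
      show Ψ (MvPolynomial.C a) x.1 = _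
      rw [e, map_intCast, Module.End.intCast_apply]
      rfl
    rw [e1, map_zsmul, e, map_intCast, Module.End.intCast_apply]
  | add r s hr hs =>
    have e1 : (⟨Ψ (r + s) x, hst _ x x.2⟩ : W) = ⟨Ψ r x, hst r x x.2⟩ + ⟨Ψ s x, hst s x x.2⟩ := by
      apply Subtype.ext
      show Ψ (r + s) x.1 = Ψ r x.1 + Ψ s x.1
      rw [map_add, LinearMap.add_apply]
    rw [e1, map_add, hr, hs, map_add, LinearMap.add_apply]
  | mul_X r q hr =>
    have e1 : (⟨Ψ (r * MvPolynomial.X q) x, hst _ x x.2⟩ : W) =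
        ⟨Ψ r (Ψ (MvPolynomial.X q) x), hst r _ (hst _ x x.2)⟩ := by
      apply Subtype.ext
      show Ψ (r * MvPolynomial.X q) x.1 = _
      rw [map_mul, Module.End.mul_apply]
    rw [e1, map_mul, Module.End.mul_apply, ← h]
    exact hr ⟨Ψ (MvPolynomial.X q) x, hst _ x x.2⟩

theorem stable_of_X {V : Type} [AddCommGroup V] [Module (ZMod p) V]
    {Ψ : MvPolynomial Q ℤ →+* Module.End (ZMod p) V} {W : Submodule (ZMod p) V}
    (h : ∀ q, ∀ x ∈ W, Ψ (MvPolynomial.X q) x ∈ W) (r : MvPolynomial Q ℤ) :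
    ∀ x ∈ W, Ψ r x ∈ W := by
  induction r using MvPolynomial.induction_on with
  | C a =>
    intro x hx
    have e : (MvPolynomial.C a : MvPolynomial Q ℤ) = ((a : ℤ) : MvPolynomial Q ℤ) := by simp
    rw [e, map_intCast, Module.End.intCast_apply]
    exact zsmul_mem hx a
  | add r s hr hs =>
    intro x hx
    rw [map_add, LinearMap.add_apply]
    exact W.add_mem (hr x hx) (hs x hx)
  | mul_X r q hr =>
    intro x hx
    rw [map_mul, Module.End.mul_apply]
    exact hr _ (h q x hx)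

end Twist

end Gouvea.P5
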