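import Pool.Agent.Work.MP_d3517d_nt.P5.TLevW
import Pool.Agent.Work.MP_d3517d_nt.P5.IndexPP
import Pool.Agent.Work.MP_d3517d_nt.P5.RankF

/-!
# P5, T-level (`p = 2, 3`): the nilpotent parts at the levels `M` and `M p` (MP_d3517d_nt)
-/

open Polynomial Finset Matrix

noncomputable section

namespace Gouvea.P5

open Gouvea Gouvea.PX Module CongruenceSubgroup

/-- sums of a sequence of period two -/
lemma sum_per_two {a : ℕ → ℕ} {κ : ℕ} (hper : ∀ r, a (r + 2) = a r) (hκ : ∀ r, a r ≤ κ) (m : ℕ) :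
    2 * ∑ r ∈ range m, a r ≤ m * (a 0 + a 1) + κ ∧
      m * (a 0 + a 1) ≤ 2 * ∑ r ∈ range m, a r + κ := by
  have h1 : ∀ k, a (2 * k) = a 0 ∧ a (2 * k + 1) = a 1 := by
    intro k
    induction k with
    | zero => exact ⟨rfl, rfl⟩
    | succ k ih =>
      constructor
      · rw [show 2 * (k + 1) = 2 * k + 2 by ring, hper, ih.1]
      · rw [show 2 * (k + 1) + 1 = (2 * k + 1) + 2 by ring, hper, ih.2]
  have h2 : ∀ k, ∑ r ∈ range (2 * k), a r = k * (a 0 + a 1) := by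
    intro k
    induction k with
    | zero => simp
    | succ k ih =>
      rw [show 2 * (k + 1) = 2 * k + 1 + 1 by ring, sum_range_succ, sum_range_succ, ih, (h1 k).1,
        (h1 k).2]
      ring
  have h3 := hκ 0
  have h4 := hκ 1
  rcases Nat.even_or_odd' m with ⟨k, rfl | rfl⟩
  · rw [h2 k]
    have h5 : 2 * (k * (a 0 + a 1)) = 2 * k * (a 0 + a 1) := by ring
    omega
  · rw [sum_range_succ, h2 k, (h1 k).1]
    have h5 : 2 * (k * (a 0 + a 1) + a 0) = 2 * k * (a 0 + a 1) + 2 * a 0 := by ring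
    have h6 : (2 * k + 1) * (a 0 + a 1) = 2 * k * (a 0 + a 1) + (a 0 + a 1) := by ring
    omega

/-- the arithmetic of the comparison -/
lemma arith_nil {p n d κ F F' C C' x x' s S1 S2 : ℕ} (hp : 0 < p)
    (hκ : 6 * κ ≤ p * d) (hs : s ≤ 2 * κ)
    (hF : d * (n + 1) ≤ 6 * F + C) (hF' : p * d * (n + 1) ≤ 6 * F' + C')
    (a1 : x' ≤ S1) (a2 : S1 + F' ≤ x' + (n + 1) * κ)
    (b1 : x ≤ S2) (b2 : S2 + F ≤ x + (n / p + 1) * κ)
    (c1 : 2 * S1 ≤ (n + 1) * s + κ) (c2 : (n + 1) * s ≤ 2 * S1 + κ)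
    (d1 : 2 * S2 ≤ (n / p + 1) * s + κ) (d2 : (n / p + 1) * s ≤ 2 * S2 + κ) :
    |(x' : ℤ) - p * x| ≤ ((3 * (p + 1) * κ + p * (C + p * d) + C' : ℕ) : ℤ) := by
  set m := n / p + 1 with hm
  have h1 := Nat.div_add_mod n p
  have h2 := Nat.mod_lt n hp
  have hpm : p * m = p * (n / p) + p := by rw [hm]; ring
  have g1 : n + 1 ≤ p * m := by omega
  have g2 : p * m ≤ n + p := by omega
  -- `6 m κ ≤ 6 F + C + p d`
  have e1 : 6 * (m * κ) ≤ 6 * F + C + p * d := by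
    calc 6 * (m * κ) = m * (6 * κ) := by ring
      _ ≤ m * (p * d) := Nat.mul_le_mul_left _ hκ
      _ = p * m * d := by ring
      _ ≤ (n + p) * d := Nat.mul_le_mul_right _ g2
      _ = d * n + p * d := by ring
      _ ≤ d * (n + 1) + p * d := by nlinarith
      _ ≤ 6 * F + C + p * d := by omega
  have e2 : 6 * ((n + 1) * κ) ≤ 6 * F' + C' := by
    calc 6 * ((n + 1) * κ) = (n + 1) * (6 * κ) := by ring
      _ ≤ (n + 1) * (p * d) := Nat.mul_le_mul_left _ hκ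
      _ = p * d * (n + 1) := by ring
      _ ≤ _ := hF'
  -- lower bounds
  have f1 : 6 * S2 ≤ 6 * x + C + p * d := by omega
  have f2 : 6 * S1 ≤ 6 * x' + C' := by omega
  have g3 : (n + 1) * s ≤ p * (m * s) := by
    rw [← mul_assoc]
    exact Nat.mul_le_mul_right _ g1
  have g4 : p * (m * s) ≤ (n + 1) * s + p * s := by
    rw [← mul_assoc, ← add_mul]
    exact Nat.mul_le_mul_right _ (by omega)
  have g5 : p * s ≤ p * (2 * κ) := Nat.mul_le_mul_left _ hs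
  have k1 : p * (6 * S2) ≤ p * (6 * x + C + p * d) := Nat.mul_le_mul_left _ f1
  have k2 : p * x ≤ p * S2 := Nat.mul_le_mul_left _ b1
  have k3 : p * (2 * S2) ≤ p * (m * s + κ) := Nat.mul_le_mul_left _ d1
  have k4 : p * (m * s) ≤ p * (2 * S2 + κ) := Nat.mul_le_mul_left _ d2
  rw [abs_le]
  push_cast
  zify at *
  constructor <;> nlinarith

variable {p : ℕ} [hp : Fact p.Prime] {N M : ℕ}

/-- **The nilpotent parts at the levels `M` and `M p`.** -/
theorem tlevel_nil (h23 : p = 2 ∨ p = 3) (hN : 2 ≤ N) (hpN : ¬ p ∣ N) (hNM : N ∣ M)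
    (hpM : p ∣ M) [NeZero M] {Q : Type} {lq : Q → ℕ} (hq : ∀ q, (lq q).Prime ∧ lq q ≠ p)
    {Ψ : ∀ n, MvPolynomial Q ℤ →+* Module.End (ZMod p) (Sym (ZMod p) N M n)} (hΨ : IsRep lq Ψ)
    {Ψ' : ∀ n, MvPolynomial Q ℤ →+* Module.End (ZMod p) (Sym (ZMod p) N (M * p) n)}
    (hΨ' : IsRep lq Ψ') (I : Ideal (MvPolynomial Q ℤ))
    (hR : ∃ C : ℕ, ∀ n, Even n →
      (Gamma0 M).index * (n + 1) ≤ 6 * finrank (ZMod p) (Sym (ZMod p) N M n) + C)
    (hR' : ∃ C : ℕ, ∀ n, Even n →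
      (Gamma0 (M * p)).index * (n + 1) ≤ 6 * finrank (ZMod p) (Sym (ZMod p) N (M * p) n) + C) :
    ∃ D : ℕ, ∀ n, Even n →
      |(finrank (ZMod p) (nilPart (Ψ' n) I ⊤) : ℤ) - p * finrank (ZMod p) (nilPart (Ψ n) I ⊤)| ≤
        D := by
  obtain ⟨C, hC⟩ := hR
  obtain ⟨C', hC'⟩ := hR'
  have hM0 := NeZero.ne M
  have : NeZero (M * p) := ⟨mul_ne_zero hM0 hp.out.ne_zero⟩
  have hpN' : IsCoprime (p : ℤ) (N : ℤ) := by
    rw [Nat.isCoprime_iff_coprime]
    exact (Nat.Prime.coprime_iff_not_dvd hp.out).2 hpN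
  have hNM' : N ∣ M * p := hNM.mul_right p
  have hpM' : p ∣ M * p := dvd_mul_left p M
  have hfree : 4 ∣ M * p ∨ 9 ∣ M * p := by
    rcases h23 with rfl | rfl
    · exact Or.inl (by
        have := Nat.mul_dvd_mul_right hpM 2
        norm_num at this
        exact this)
    · exact Or.inr (by
        have := Nat.mul_dvd_mul_right hpM 3
        norm_num at this
        exact this)
  have hch : ((M * p : ℕ) : ZMod p) = 0 := by
    rw [Nat.cast_mul, ZMod.natCast_self, mul_zero]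
  have hfd : ∀ n, Even n → FiniteDimensional (ZMod p) (Sym (ZMod p) N M n) := fun n hn =>
    (finrank_Sym_le_add (ZMod p) hN hNM hn).2
  have hfd' : ∀ n, Even n → FiniteDimensional (ZMod p) (Sym (ZMod p) N (M * p) n) := fun n hn =>
    (finrank_Sym_le_add (ZMod p) hN hNM' hn).2
  have hfd0 := hfd' 0 (by simp)
  set κ := finrank (ZMod p) (Sym (ZMod p) N (M * p) 0) with hκ
  have hκ6 : 6 * κ ≤ p * (Gamma0 M).index := by
    have h1 := (finrank_SymLe_le_of_free (k := ZMod p) (n := 0) (t := 0) hN hNM' hch hfree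
      (by simp) le_rfl).1
    rw [SymLe_self, card_Qt, index_mul_of_dvd hp.out hM0 hpM] at h1
    exact h1.trans_eq (mul_one _)
  set a : ℕ → ℕ := fun r => finrank (ZMod p) (nilPart ((Ψ' 0).comp (twr lq r)) I ⊤) with ha
  have hper : ∀ r, a (r + 2) = a r := fun r => by
    simp only [ha]
    rw [twr_per h23 (Ψ' 0) hq r]
  have haκ : ∀ r, a r ≤ κ := fun r => Submodule.finrank_le _
  refine ⟨3 * (p + 1) * κ + p * (C + p * (Gamma0 M).index) + C', fun n hn => ?_⟩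
  have := hfd n hn
  have := hfd' n hn
  obtain ⟨a1, a2⟩ := chain_deg h23 hNM' hpM' hq hΨ' I hn
  obtain ⟨b1, b2⟩ := chain_w h23 hpN' hNM hpM hq hΨ hΨ' I hn
  obtain ⟨c1, c2⟩ := sum_per_two hper haκ (n + 1)
  obtain ⟨d1, d2⟩ := sum_per_two hper haκ (n / p + 1)
  have h5 := hC' n hn
  rw [index_mul_of_dvd hp.out hM0 hpM] at h5
  exact arith_nil hp.out.pos hκ6 (by have := haκ 0; have := haκ 1; omega) (hC n hn) h5 a1 a2 b1 b2
    c1 c2 d1 d2

end Gouvea.P5
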