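import Pool.Agent.Work.MP_d3517d_nt.P5.TLevA

/-!
# P5, T-level (`p = 2, 3`): the filtration by the degree (MP_d3517d_nt)
-/

open Polynomial Finset Matrix

noncomputable section

namespace Gouvea.P5

open Gouvea Gouvea.PX Module
open Gouvea.PS (slk slk_apply)

variable {p : ℕ} [hp : Fact p.Prime] {N M : ℕ}

lemma not_dvd_one : ¬ (p : ℤ) ∣ 1 := by
  have := hp.out.one_lt
  intro h
  have := Int.le_of_dvd one_pos h
  omega

lemma not_dvd_l {l : ℕ} (hl : l.Prime) (hlp : l ≠ p) : ¬ (p : ℤ) ∣ (l : ℤ) := by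
  rw [Int.natCast_dvd_natCast]
  intro h
  exact hlp ((Nat.prime_dvd_prime_iff_eq hp.out hl).1 h).symm

lemma cop_l (hNM : N ∣ M) {l : ℕ} (hl : l.Prime) (h : ¬ l ∣ M) : IsCoprime (l : ℤ) (N : ℤ) := by
  rw [Nat.isCoprime_iff_coprime]
  exact (Nat.Prime.coprime_iff_not_dvd hl).2 fun h' => h (h'.trans hNM)

lemma det_upS {a b d : ℤ} (ha : IsCoprime a (N : ℤ)) (had : a * d ≠ 0) :
    (upS N a b d).1.det = a * d := by
  rw [upS_coe ha had, det_fin_two_of, mul_zero, sub_zero]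

/-- the operator `T_l` on the leading coefficient -/
lemma coef_hecke (h23 : p = 2 ∨ p = 3) (hNM : N ∣ M) {n t : ℕ} (hn : Even n) (ht : t < n + 1)
    {l : ℕ} (hl : l.Prime) (hlp : l ≠ p) {f : Cusp N → Cusp N → Fin (n + 1) → ZMod p}
    (hf : ∀ x y (i : Fin (n + 1)), t < (i : ℕ) → f x y i = 0) (x y : Cusp N) (i : Fin (0 + 1)) :
    hecke (ZMod p) N M n l f x y ⟨t, ht⟩ =
      (l : ZMod p) ^ t * hecke (ZMod p) N M 0 l (fun x y _ => f x y ⟨t, ht⟩) x y i := by
  have hl0 : (l : ℤ) ≠ 0 := by exact_mod_cast hl.ne_zero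
  have e1 : ∀ g : SN N, Bor (redZ p g) → g.1.det = l →
      act (ZMod p) N n g f x y ⟨t, ht⟩ = (l : ZMod p) ^ t *
        act (ZMod p) N 0 g (fun x y _ => f x y ⟨t, ht⟩) x y i := by
    intro g hg hd
    rw [coef_act h23 hn ht hg hf, act_zero_apply, hd, Int.cast_natCast]
  rw [hecke_apply, hecke_apply]
  simp only [Pi.add_apply, Finset.sum_apply]
  rw [mul_add, Finset.mul_sum]
  congr 1
  · exact Finset.sum_congr rfl fun b _ =>
      e1 _ (bor_upS isCoprime_one_left not_dvd_one (not_dvd_l hl hlp))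
        (by rw [det_upS isCoprime_one_left (by rwa [one_mul]), one_mul])
  · by_cases h : l ∣ M
    · rw [if_pos h, if_pos h]
      simp
    · rw [if_neg h, if_neg h]
      exact e1 _ (bor_upS (cop_l hNM hl h) (not_dvd_l hl hlp) not_dvd_one)
        (by rw [det_upS (cop_l hNM hl h) (by rwa [mul_one]), mul_one])

/-- the symbols of degree `≤ n - r` -/
def NfD (p N M n : ℕ) [Fact p.Prime] (r : ℕ) : Submodule (ZMod p) (Sym (ZMod p) N M n) where
  carrier := {φ | ∀ x y (i : Fin (n + 1)), n < (i : ℕ) + r → φ.1 x y i = 0}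
  add_mem' := by
    intro φ ψ h1 h2 x y i hi
    show φ.1 x y i + ψ.1 x y i = 0
    rw [h1 x y i hi, h2 x y i hi, add_zero]
  zero_mem' := fun _ _ _ _ => rfl
  smul_mem' := by
    intro a φ h1 x y i hi
    show a • φ.1 x y i = 0
    rw [h1 x y i hi, smul_zero]

lemma mem_NfD {n r : ℕ} {φ : Sym (ZMod p) N M n} : φ ∈ NfD p N M n r ↔
    ∀ x y (i : Fin (n + 1)), n < (i : ℕ) + r → φ.1 x y i = 0 := Iff.rfl

lemma tlt (n r : ℕ) : n - r < n + 1 := by omega

lemma top_of_mem {n r : ℕ} {φ : Sym (ZMod p) N M n} (h : φ ∈ NfD p N M n r) (x y : Cusp N)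
    (i : Fin (n + 1)) (hi : n - r < (i : ℕ)) : φ.1 x y i = 0 := h x y i (by omega)

/-- the leading coefficient -/
def ED (h23 : p = 2 ∨ p = 3) (hpM : p ∣ M) {n : ℕ} (hn : Even n) (r : ℕ) :
    NfD p N M n r →ₗ[ZMod p] Sym (ZMod p) N M 0 where
  toFun φ := ⟨fun x y _ => φ.1.1 x y ⟨n - r, tlt n r⟩, by
    obtain ⟨⟨φ, h1, h2⟩, h3⟩ := φ
    refine ⟨fun x y z => ?_, fun g hg => ?_⟩
    · funext i
      exact congrFun (h1 x y z) _
    · funext x y i
      rw [act_zero_apply]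
      have h4 := coef_act h23 hn (tlt n r) (bor_of_G0 hpM hg) (f := φ)
        (fun x y i hi => top_of_mem h3 x y i hi) x y
      rw [h2 g hg, hg.1, Int.cast_one, one_pow, one_mul] at h4
      exact h4.symm⟩
  map_add' φ ψ := rfl
  map_smul' a φ := rfl

lemma ED_apply (h23 : p = 2 ∨ p = 3) (hpM : p ∣ M) {n : ℕ} (hn : Even n) (r : ℕ)
    (φ : NfD p N M n r) (x y : Cusp N) (i : Fin (0 + 1)) :
    (ED h23 hpM hn r φ).1 x y i = φ.1.1 x y ⟨n - r, tlt n r⟩ := rfl

variable {Q : Type} {lq : Q → ℕ}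
  {Ψ : ∀ n, MvPolynomial Q ℤ →+* Module.End (ZMod p) (Sym (ZMod p) N M n)}

lemma NfD_stable (hNM : N ∣ M) (hq : ∀ q, (lq q).Prime ∧ lq q ≠ p) (hΨ : IsRep lq Ψ) (n r : ℕ)
    (u : MvPolynomial Q ℤ) : ∀ φ ∈ NfD p N M n r, Ψ n u φ ∈ NfD p N M n r := by
  refine stable_of_X (fun q φ hφ => ?_) u
  rcases Nat.lt_or_ge n r with h | h
  · have h0 : φ = 0 := by
      apply Subtype.ext
      funext x y i
      exact hφ x y i (by omega)
    rw [h0, map_zero]
    exact Submodule.zero_mem _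
  · intro x y i hi
    rw [hΨ]
    refine hecke_LE hNM (hq q).1 (hq q).2 (t := n - r) (fun x y i hi => hφ x y i (by omega)) x y
      i (by omega)

/-- **The filtration by the degree.** -/
theorem chain_deg (h23 : p = 2 ∨ p = 3) (hNM : N ∣ M) (hpM : p ∣ M)
    (hq : ∀ q, (lq q).Prime ∧ lq q ≠ p) (hΨ : IsRep lq Ψ) (I : Ideal (MvPolynomial Q ℤ))
    {n : ℕ} (hn : Even n) [FiniteDimensional (ZMod p) (Sym (ZMod p) N M n)]
    [FiniteDimensional (ZMod p) (Sym (ZMod p) N M 0)] :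
    finrank (ZMod p) (nilPart (Ψ n) I ⊤) ≤
      ∑ r ∈ range (n + 1), finrank (ZMod p) (nilPart ((Ψ 0).comp (twr lq r)) I ⊤) ∧
    ∑ r ∈ range (n + 1), finrank (ZMod p) (nilPart ((Ψ 0).comp (twr lq r)) I ⊤) +
      finrank (ZMod p) (Sym (ZMod p) N M n) ≤
      finrank (ZMod p) (nilPart (Ψ n) I ⊤) +
        (n + 1) * finrank (ZMod p) (Sym (ZMod p) N M 0) := by
  have h1 := nil_chain (Ψ n) (fun r => (Ψ 0).comp (twr lq (n - r))) I (n + 1)
    (NfD p N M n)
    (eq_top_iff.2 fun φ _ x y i hi => absurd i.2 (by omega))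
    (eq_bot_iff.2 fun φ hφ => (Submodule.mem_bot _).2 (Subtype.ext (by
      funext x y i
      exact hφ x y i (by omega))))
    (fun r _ φ hφ x y i hi => hφ x y i (by omega))
    (fun r u => NfD_stable hNM hq hΨ n r u)
    (ED h23 hpM hn)
    (fun r hr φ => by
      constructor
      · intro h x y i hi
        rcases Nat.lt_or_ge n (i + r) with h2 | h2
        · exact φ.2 x y i h2
        · have h3 := congrArg (fun ψ : Sym (ZMod p) N M 0 => ψ.1 x y 0) h
          have h4 : i = ⟨n - r, tlt n r⟩ := Fin.ext (by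
            show (i : ℕ) = n - r
            omega)
          rw [h4]
          exact h3
      · intro h
        apply Subtype.ext
        funext x y i
        rw [ED_apply]
        exact h x y _ (by
          show n < (n - r) + (r + 1)
          omega))
    (fun r hr u φ => by
      refine eqv_sub (fun u => NfD_stable hNM hq hΨ n r u) (ED h23 hpM hn r) (fun q φ => ?_) u φ
      rw [RingHom.comp_apply, twr_act]
      apply Subtype.ext
      funext x y i
      rw [ED_apply]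
      show (Ψ n (MvPolynomial.X q) φ.1).1 x y _ = (lq q : ZMod p) ^ (n - r) *
        (Ψ 0 (MvPolynomial.X q) (ED h23 hpM hn r φ)).1 x y i
      rw [hΨ, hΨ]
      exact coef_hecke h23 hNM hn (tlt n r) (hq q).1 (hq q).2
        (fun x y i hi => top_of_mem φ.2 x y i hi) x y i)
  have h2 : ∑ r ∈ range (n + 1),
      finrank (ZMod p) (nilPart ((Ψ 0).comp (twr lq (n - r))) I
        (⊤ : Submodule (ZMod p) (Sym (ZMod p) N M 0))) =
      ∑ r ∈ range (n + 1), finrank (ZMod p) (nilPart ((Ψ 0).comp (twr lq r)) I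
        (⊤ : Submodule (ZMod p) (Sym (ZMod p) N M 0))) := by
    rw [← Finset.sum_range_reflect]
    refine Finset.sum_congr rfl fun r hr => ?_
    have hr' := mem_range.1 hr
    rw [show n - (n + 1 - 1 - r) = r by omega]
  rw [h2] at h1
  exact h1.2

end Gouvea.P5
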