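import Pool.Agent.Work.MP_d3517d_nt.P5.LevP2
import Pool.Agent.Work.MP_d3517d_nt.PS.ToX
import Pool.Agent.Work.MP_d3517d_nt.PN.ToX
import Pool.Agent.Work.MP_d3517d_nt.P5.RedX
import Pool.Agent.Work.MP_d3517d_nt.P5.SpecX

/-!
# Level `p²`, `p = 2, 3`: one residual class (MP_d3517d_nt, P5)

`(p, N) = (2, 4)` or `(3, 9)`, `n` even, `l ≠ p` a prime:

* `nil_pow`: `(T_l - (1 + l)) ^ (n + 1) = 0` on `PX.Sym k N N n` if `p = 0` in `k`
  (filtration by the degree, the graded pieces have weight zero: `P5/LevP2`);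
* `norm_sub_lt`: every system of eigenvalues `χ` on `PX.Sym (\bar ℚ_p) N N n` satisfies
  `‖χ(T_l) - (1 + l)‖ < 1`.
-/

open Polynomial Finset Matrix

noncomputable section

namespace Gouvea.P5

open Gouvea.PX
open Gouvea.PS (slk slk_apply)

/-- `(p, N) = (2, 4)` or `(3, 9)` -/
def IsPN (p N : ℕ) : Prop := (p = 2 ∧ N = 4) ∨ (p = 3 ∧ N = 9)

section

variable {k : Type} [CommRing k] {p N l n : ℕ}

lemma IsPN.not_dvd (h : IsPN p N) (hl : l.Prime) (hlp : l ≠ p) : ¬ l ∣ N := by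
  intro hd
  rcases h with ⟨rfl, rfl⟩ | ⟨rfl, rfl⟩
  · have h1 : l ∣ 2 := hl.dvd_of_dvd_pow (n := 2) (by norm_num; exact hd)
    exact hlp ((Nat.prime_dvd_prime_iff_eq hl Nat.prime_two).1 h1)
  · have h1 : l ∣ 3 := hl.dvd_of_dvd_pow (n := 2) (by norm_num; exact hd)
    exact hlp ((Nat.prime_dvd_prime_iff_eq hl Nat.prime_three).1 h1)

lemma IsPN.coprime (h : IsPN p N) (hl : l.Prime) (hlp : l ≠ p) :
    IsCoprime (l : ℤ) (N : ℤ) := by
  rw [Nat.isCoprime_iff_coprime]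
  exact (hl.coprime_iff_not_dvd).2 (h.not_dvd hl hlp)

lemma IsPN.cast_eq_zero (h : IsPN p N) (hp : (p : k) = 0) : (N : k) = 0 := by
  rcases h with ⟨rfl, rfl⟩ | ⟨rfl, rfl⟩
  · have h2 : (2 : k) = 0 := by exact_mod_cast hp
    push_cast
    rw [show (4 : k) = 2 * 2 by norm_num, h2, zero_mul]
  · have h3 : (3 : k) = 0 := by exact_mod_cast hp
    push_cast
    rw [show (9 : k) = 3 * 3 by norm_num, h3, zero_mul]

lemma IsPN.sq (h : IsPN p N) (hp : (p : k) = 0) {a : ℤ} (ha : IsCoprime a (N : ℤ)) :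
    (a : k) * a = 1 := by
  rcases h with ⟨rfl, rfl⟩ | ⟨rfl, rfl⟩
  · have h2 : (2 : k) = 0 := by exact_mod_cast hp
    rw [PS.cast_odd h2 (PS.odd_iff.2 ha), one_mul]
  · have h3 : (3 : k) = 0 := by exact_mod_cast hp
    exact PN.sq_cast h3 (PN.n3_iff.2 ha)

/-- `P5/LevP2` in terms of `PX.Sym` -/
theorem hecke_wt0 (h : IsPN p N) (hp : (p : k) = 0) (hl : l.Prime) (hlp : l ≠ p)
    {φ : PX.Cusp N → PX.Cusp N → Fin (0 + 1) → k} (hφ : φ ∈ Sym k N N 0) :
    hecke k N N 0 l φ = (1 + (l : k)) • φ := by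
  rcases h with ⟨rfl, rfl⟩ | ⟨rfl, rfl⟩
  · have h2 : (2 : k) = 0 := by exact_mod_cast hp
    have h3 := PS.hecke_four h2 hl hlp ((PS.pull_mem φ).2 hφ)
    rw [PS.hecke_pull, ← map_smul] at h3
    exact (PS.pull k 0).injective h3
  · have h2 : (3 : k) = 0 := by exact_mod_cast hp
    have h3 := PN.hecke_nine h2 hl hlp ((PN.pull_mem φ).2 hφ)
    rw [PN.hecke_pull, ← map_smul] at h3
    exact (PN.pull k 0).injective h3

lemma slk_top {g : Matrix (Fin 2) (Fin 2) k} (hg : g 1 0 = 0) (i : Fin (n + 1)) :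
    slk n g i i = g 0 0 ^ (i : ℕ) * g 1 1 ^ (n - (i : ℕ)) := by
  rw [slk_apply, slR, hg]
  have h1 : ((C (g 0 0) * X + C (g 0 1)) ^ (i : ℕ) *
      (C (0 : k) * X + C (g 1 1)) ^ (n - (i : ℕ)) : k[X]) =
      C (g 1 1 ^ (n - (i : ℕ))) * (C (g 0 0) * X + C (g 0 1)) ^ (i : ℕ) := by
    rw [map_zero, zero_mul, zero_add, mul_comm, C_pow]
  have e4 := coeff_pow_of_natDegree_le (m := (i : ℕ))
    (natDegree_linear_le (a := g 0 0) (b := g 0 1))
  rw [mul_one] at e4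
  rw [h1, coeff_C_mul, e4, mul_comm]
  simp

/-- the action on the top coefficient -/
lemma act_top {t : ℕ} (ht : t < n + 1) {g : SN N} (hg : ((g.1 1 0 : ℤ) : k) = 0)
    {φ : PX.Cusp N → PX.Cusp N → Fin (n + 1) → k}
    (h : ∀ x y (i : Fin (n + 1)), t < (i : ℕ) → φ x y i = 0) (x y : PX.Cusp N) :
    act k N n g φ x y ⟨t, ht⟩ =
      ((g.1 0 0 : ℤ) : k) ^ t * ((g.1 1 1 : ℤ) : k) ^ (n - t) * φ (g • x) (g • y) ⟨t, ht⟩ := by
  rw [act_apply, Matrix.mulVec, dotProduct, Finset.sum_eq_single ⟨t, ht⟩]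
  · rw [slk_top (by simpa using hg)]
    rfl
  · intro j _ hj
    rcases Nat.lt_or_ge t (j : ℕ) with h1 | h1
    · rw [h _ _ j h1, mul_zero]
    · have h2 : (j : ℕ) < t := lt_of_le_of_ne h1 fun e => hj (Fin.ext e)
      rw [slk_upper n _ (by simpa using hg) ⟨t, ht⟩ j h2, zero_mul]
  · intro h1
    exact absurd (Finset.mem_univ _) h1

/-- the coefficient of index `t` -/
def topc {t : ℕ} (ht : t < n + 1) (φ : PX.Cusp N → PX.Cusp N → Fin (n + 1) → k) :
    PX.Cusp N → PX.Cusp N → Fin (0 + 1) → k := fun x y _ => φ x y ⟨t, ht⟩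

lemma slk_zero (g : Matrix (Fin 2) (Fin 2) k) : slk 0 g = 1 := PS.slk_zero g

lemma act_zero (g : SN N) (φ : PX.Cusp N → PX.Cusp N → Fin (0 + 1) → k) (x y : PX.Cusp N) :
    act k N 0 g φ x y = φ (g • x) (g • y) := by
  rw [act_apply, slk_zero, Matrix.one_mulVec]

lemma c_zero (h : IsPN p N) (hp : (p : k) = 0) (g : SN N) : ((g.1 1 0 : ℤ) : k) = 0 := by
  obtain ⟨c, hc⟩ := g.2.2.2
  rw [hc]
  push_cast
  rw [h.cast_eq_zero hp, zero_mul]

lemma pow_cast (h : IsPN p N) (hp : (p : k) = 0) (hn : Even n) {t : ℕ} (ht : t ≤ n) {a : ℤ}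
    (ha : IsCoprime a (N : ℤ)) : (a : k) ^ (n - t) = (a : k) ^ t := by
  have h1 := h.sq hp ha
  have h2 : ∀ m, ((a : k) ^ m) * (a : k) ^ m = 1 := fun m => by rw [← mul_pow, h1, one_pow]
  obtain ⟨m, hm⟩ := hn
  calc (a : k) ^ (n - t) = (a : k) ^ (n - t) * ((a : k) ^ t * (a : k) ^ t) := by rw [h2, mul_one]
    _ = (a : k) ^ (n - t + t) * (a : k) ^ t := by rw [pow_add]; ring
    _ = (a : k) ^ t := by rw [Nat.sub_add_cancel ht, hm, pow_add, h2, one_mul]

lemma topc_mem (h : IsPN p N) (hp : (p : k) = 0) (hn : Even n) {t : ℕ} (ht : t < n + 1)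
    {φ : PX.Cusp N → PX.Cusp N → Fin (n + 1) → k} (hφ : φ ∈ SymLe k N N n t) :
    topc ht φ ∈ Sym k N N 0 := by
  refine ⟨fun x y z => ?_, fun g hg => ?_⟩
  · funext i
    exact congrFun (hφ.1.1 x y z) ⟨t, ht⟩
  · funext x y i
    rw [act_zero]
    have h1 := congrFun (congrFun (congrFun (hφ.1.2 g hg) x) y) ⟨t, ht⟩
    have hc := c_zero h hp g
    rw [act_top ht hc hφ.2] at h1
    have hdet : ((g.1 0 0 : ℤ) : k) * ((g.1 1 1 : ℤ) : k) = 1 := by
      have h2 := hg.1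
      rw [Matrix.det_fin_two] at h2
      have h3 := congrArg (Int.cast : ℤ → k) h2
      push_cast at h3
      rw [hc, mul_zero, sub_zero] at h3
      exact h3
    have hsq := h.sq hp g.2.2.1
    have hd : ((g.1 1 1 : ℤ) : k) = ((g.1 0 0 : ℤ) : k) := by
      calc ((g.1 1 1 : ℤ) : k) = (((g.1 0 0 : ℤ) : k) * ((g.1 0 0 : ℤ) : k)) *
            ((g.1 1 1 : ℤ) : k) := by rw [hsq, one_mul]
        _ = ((g.1 0 0 : ℤ) : k) * (((g.1 0 0 : ℤ) : k) * ((g.1 1 1 : ℤ) : k)) := by ring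
        _ = ((g.1 0 0 : ℤ) : k) := by rw [hdet, mul_one]
    rw [hd, pow_cast h hp hn (Nat.lt_succ_iff.1 ht) g.2.2.1, ← mul_pow, hsq, one_pow,
      one_mul] at h1
    exact h1

/-- the Hecke operator on the top coefficient -/
lemma hecke_top (h : IsPN p N) (hp : (p : k) = 0) (hl : l.Prime) (hlp : l ≠ p) (hn : Even n)
    {t : ℕ} (ht : t < n + 1) {φ : PX.Cusp N → PX.Cusp N → Fin (n + 1) → k}
    (hφ : φ ∈ SymLe k N N n t) (x y : PX.Cusp N) :
    hecke k N N n l φ x y ⟨t, ht⟩ = (1 + (l : k)) * φ x y ⟨t, ht⟩ := by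
  have hlN := h.not_dvd hl hlp
  have hcop := h.coprime hl hlp
  have hl0 : (l : ℤ) ≠ 0 := by exact_mod_cast hl.ne_zero
  have hψ := topc_mem h hp hn ht hφ
  have h0 := congrFun (congrFun (congrFun (hecke_wt0 h hp hl hlp hψ) x) y) 0
  unfold hecke at h0 ⊢
  rw [if_neg hlN, LinearMap.add_apply, LinearMap.sum_apply] at h0 ⊢
  simp only [Pi.add_apply, Finset.sum_apply, act_zero, Pi.smul_apply, smul_eq_mul] at h0 ⊢
  have e1 : ∀ b ∈ range l, act k N n (upS N 1 b l) φ x y ⟨t, ht⟩ =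
      (l : k) ^ t * topc ht φ (upS N 1 b l • x) (upS N 1 b l • y) 0 := by
    intro b _
    rw [act_top ht (c_zero h hp _) hφ.2, upS_coe isCoprime_one_left (by simpa using hl0)]
    have e := pow_cast h hp hn (Nat.lt_succ_iff.1 ht) hcop
    rw [Int.cast_natCast] at e
    simp only [Matrix.of_apply, Matrix.cons_val', Matrix.cons_val_zero, Matrix.cons_val_one,
      Matrix.cons_val_fin_one, Int.cast_one, one_pow, one_mul, Int.cast_natCast]
    rw [e]
    rfl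
  have e2 : act k N n (upS N l 0 1) φ x y ⟨t, ht⟩ =
      (l : k) ^ t * topc ht φ (upS N l 0 1 • x) (upS N l 0 1 • y) 0 := by
    rw [act_top ht (c_zero h hp _) hφ.2, upS_coe hcop (by simpa using hl0)]
    simp only [Matrix.of_apply, Matrix.cons_val', Matrix.cons_val_zero, Matrix.cons_val_one,
      Matrix.cons_val_fin_one, Int.cast_one, one_pow, mul_one, Int.cast_natCast]
    rfl
  rw [Finset.sum_congr rfl e1, e2, ← Finset.mul_sum, ← mul_add, h0]
  have hsq := h.sq hp hcop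
  rw [Int.cast_natCast] at hsq
  have e3 : ∀ m : ℕ, (l : k) ^ m * (1 + (l : k)) = 1 + (l : k) := by
    intro m
    induction m with
    | zero => rw [pow_zero, one_mul]
    | succ m ih =>
      rw [pow_succ, mul_right_comm, ih]
      linear_combination hsq
  rw [← mul_assoc, e3]
  rfl

variable [NeZero N]

/-- **Level `p²`, characteristic `p`: `T_l - (1 + l)` is nilpotent.** -/
theorem nil_pow_aux (h : IsPN p N) (hp : (p : k) = 0) (q : Nat.Primes) (hqp : (q : ℕ) ≠ p)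
    (hn : Even n) : ∀ (t : ℕ) (_ : t ≤ n + 1) (φ : Sym k N N n)
      (_ : ∀ x y (i : Fin (n + 1)), t ≤ (i : ℕ) → φ.1 x y i = 0),
      ((opN k N N n dvd_rfl q - (1 + ((q : ℕ) : Module.End k (Sym k N N n)))) ^ t) φ = 0 := by
  intro t
  induction t with
  | zero =>
    intro _ φ hφ
    rw [pow_zero, Module.End.one_apply]
    exact Subtype.ext (funext fun x => funext fun y => funext fun i => hφ x y i (Nat.zero_le _))
  | succ t ih =>
    intro ht φ hφ
    rw [pow_succ, Module.End.mul_apply]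
    refine ih (by omega) _ fun x y i hi => ?_
    have hmem : φ.1 ∈ SymLe k N N n t := ⟨φ.2, fun x y i hi => hφ x y i hi⟩
    have e : ((opN k N N n dvd_rfl q - (1 + ((q : ℕ) : Module.End k (Sym k N N n)))) φ).1 x y i =
        hecke k N N n q φ.1 x y i - (1 + ((q : ℕ) : k)) * φ.1 x y i := by
      rw [LinearMap.sub_apply, LinearMap.add_apply, Module.End.one_apply,
        Module.End.natCast_apply, ← Nat.cast_smul_eq_nsmul k]
      show hecke k N N n q φ.1 x y i - (φ.1 x y i + ((q : ℕ) : k) * φ.1 x y i) = _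
      ring
    rw [e]
    rcases Nat.lt_or_ge t (i : ℕ) with h1 | h1
    · rw [hecke_le N n t q (fun x y i hi => hφ x y i hi) x y i h1, hφ x y i h1]
      ring
    · have h2 : (i : ℕ) = t := le_antisymm h1 hi
      have h3 : i = ⟨t, by omega⟩ := Fin.ext h2
      rw [h3, hecke_top h hp q.2 hqp hn (by omega) hmem]
      ring

theorem nil_pow (h : IsPN p N) (hp : (p : k) = 0) (q : Nat.Primes) (hqp : (q : ℕ) ≠ p)
    (hn : Even n) :
    rhoN k N N n dvd_rfl ((MvPolynomial.X q - (1 + ((q : ℕ) : MvPolynomial Nat.Primes ℤ))) ^ (n + 1)) =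
      0 := by
  refine LinearMap.ext fun φ => ?_
  rw [map_pow, map_sub, map_add, map_one, map_natCast, rhoN_X]
  exact nil_pow_aux h hp q hqp hn (n + 1) le_rfl φ fun x y i hi => absurd i.2 (by omega)

end

/-! ### Characteristic zero -/

section Char0

open Gouvea.Sys

variable {p N n : ℕ} [hp : Fact p.Prime] [NeZero N]

/-- **Level `p²`: the systems of eigenvalues are congruent to `1 + q`.** -/
theorem norm_sub_lt (h : IsPN p N) (hn : Even n)
    [FiniteDimensional (PadicAlgCl p) (Sym (PadicAlgCl p) N N n)]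
    {χ : MvPolynomial Nat.Primes ℤ →+* PadicAlgCl p}
    (hχ : χ ∈ Sys (rhoN (PadicAlgCl p) N N n dvd_rfl)) (q : Nat.Primes) (hqp : (q : ℕ) ≠ p) :
    ‖χ (MvPolynomial.X q) - (1 + ((q : ℕ) : PadicAlgCl p))‖ < 1 := by
  set r : MvPolynomial Nat.Primes ℤ :=
    (MvPolynomial.X q - (1 + ((q : ℕ) : MvPolynomial Nat.Primes ℤ))) ^ (n + 1) with hr
  have h1 : ∀ a : Sym ℤ_[p] N N n, ∃ y, rhoN ℤ_[p] N N n dvd_rfl r a = (p : ℤ_[p]) • y := by
    intro a
    obtain ⟨y, hy⟩ := ((redX p N N n).ker (rhoN ℤ_[p] N N n dvd_rfl r a)).1 (by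
      have h2 := baseS_rhoN (PadicInt.toZMod (p := p)) (N := N) (M := N) (n := n) dvd_rfl r a
      rw [nil_pow h (CharP.cast_eq_zero _ _) q hqp hn, LinearMap.zero_apply] at h2
      exact h2.symm)
    exact ⟨y, hy.symm⟩
  have h2 := toMatrix_map_eq_zero (bas (NeZero.ne N) (dvd_refl N) n ℤ_[p]) h1
  rw [Sys_rhoN, ← toK_matOf_bas, mem_Sys_iff_exists] at hχ
  obtain ⟨v, hv, hv'⟩ := hχ
  have h3 := hv' r
  rw [matRep_apply] at h3
  have h4 : ‖χ r‖ ≤ (p : ℝ)⁻¹ := by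
    refine norm_eig_le (by positivity) (fun i j => ?_) hv h3
    exact norm_zK_lt (congrFun (congrFun h2 i) j)
  have h5 : χ r = (χ (MvPolynomial.X q) - (1 + ((q : ℕ) : PadicAlgCl p))) ^ (n + 1) := by
    rw [hr, map_pow, map_sub, map_add, map_one, map_natCast]
  rw [h5, norm_pow] at h4
  have h6 : (p : ℝ)⁻¹ < 1 := inv_lt_one_of_one_lt₀ (by exact_mod_cast hp.out.one_lt)
  exact (pow_lt_one_iff_of_nonneg (norm_nonneg _) (Nat.succ_ne_zero n)).1 (lt_of_le_of_lt h4 h6)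

end Char0

end Gouvea.P5
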