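import Pool.Agent.Work.MP_d3517d_nt.P5.TLevDeg

/-!
# P5, T-level (`p = 2, 3`): the filtration by the divisibility by `X ^ p - X` (MP_d3517d_nt)
-/

open Polynomial Finset Matrix

noncomputable section

namespace Gouvea.P5

open Gouvea Gouvea.PX Module
open Gouvea.PS (slk slk_apply)

variable {p : ℕ} [hp : Fact p.Prime] {N M : ℕ}

/-! ### polynomials -/

/-- `X ^ p - X` -/
def wp (p : ℕ) : (ZMod p)[X] := X ^ p - X

lemma wp_comp {g : Matrix (Fin 2) (Fin 2) (ZMod p)} :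
    (wp p).comp (aff g) = C (g 0 0 / g 1 1) * wp p := by
  rw [wp, sub_comp, pow_comp, X_comp, aff, add_pow_char, mul_pow, ← C_pow, ← C_pow, ZMod.pow_card,
    ZMod.pow_card]
  ring

lemma wp_comp_add (a : ZMod p) : (wp p).comp (X + C a) = wp p := by
  rw [wp, sub_comp, pow_comp, X_comp, add_pow_char, ← C_pow, ZMod.pow_card]
  ring

lemma wp_eq : wp p = X * (X ^ (p - 1) - 1) := by
  obtain ⟨k, hk⟩ : ∃ k, p = k + 1 := ⟨p - 1, by have := hp.out.pos; omega⟩
  rw [wp, mul_sub, mul_one]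
  congr 1
  rw [hk, Nat.add_sub_cancel, pow_succ, mul_comm]

/-- the coefficient of `X ^ r` in `w ^ r h` -/
lemma coeff_wp_mul (r : ℕ) (h : (ZMod p)[X]) :
    (wp p ^ r * h).coeff r = (-1) ^ r * h.eval 0 := by
  have h1 : p - 1 ≠ 0 := by
    have := hp.out.one_lt
    omega
  rw [wp_eq, mul_pow, mul_assoc]
  have h2 : (X ^ r * ((X ^ (p - 1) - 1) ^ r * h) : (ZMod p)[X]).coeff r =
      ((X ^ (p - 1) - 1) ^ r * h : (ZMod p)[X]).coeff 0 := by
    rw [mul_comm, coeff_mul_X_pow', if_pos le_rfl, Nat.sub_self]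
  rw [h2, coeff_zero_eq_eval_zero, eval_mul, eval_pow, eval_sub, eval_pow, eval_X, eval_one,
    zero_pow h1, zero_sub]

lemma wp_monic : (wp p).Monic := monic_sub

lemma natDegree_wp : (wp p).natDegree = p := natDegree_sub

/-- a polynomial which vanishes on `F_p` is divisible by `w` -/
lemma wp_dvd_of_eval {h : (ZMod p)[X]} (h0 : ∀ a : ZMod p, h.eval a = 0) : wp p ∣ h := by
  have e0 : h %ₘ wp p + wp p * (h /ₘ wp p) = h := modByMonic_add_div h _
  have h1 : ∀ a : ZMod p, (h %ₘ wp p).eval a = 0 := by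
    intro a
    have h2 := congrArg (Polynomial.eval a) e0
    rw [eval_add, eval_mul, h0 a] at h2
    have h3 : (wp p).eval a = 0 := by
      rw [wp, eval_sub, eval_pow, eval_X, ZMod.pow_card, sub_self]
    rw [h3, zero_mul, add_zero] at h2
    exact h2
  have h2 : (h %ₘ wp p).natDegree < p := by
    have h3 := natDegree_modByMonic_lt h wp_monic (fun h => by
      have h4 := congrArg natDegree h
      rw [natDegree_wp, natDegree_one] at h4
      exact hp.out.ne_zero h4)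
    rwa [natDegree_wp] at h3
  have h3 : h %ₘ wp p = 0 := by
    refine eq_zero_of_natDegree_lt_card_of_eval_eq_zero _ (f := fun a : ZMod p => a)
      Function.injective_id h1 ?_
    rw [ZMod.card]
    exact h2
  rw [h3, zero_add] at e0
  exact ⟨_, e0.symm⟩

lemma wp_dvd_slashM {g : Matrix (Fin 2) (Fin 2) (ZMod p)} (hg : Bor g) {n r : ℕ}
    {f : (ZMod p)[X]} (hf : f.natDegree ≤ n) (h : wp p ^ r ∣ f) : wp p ^ r ∣ slashM n g f := by
  rw [slashM_bor hg hf]
  obtain ⟨q, rfl⟩ := h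
  rw [mul_comp, pow_comp, wp_comp, mul_pow]
  exact Dvd.dvd.mul_left (Dvd.dvd.mul_right (Dvd.intro_left _ rfl) _) _

/-! ### the filtration -/

/-- the symbols with values divisible by `w ^ r` -/
def NfW (p N M n : ℕ) [Fact p.Prime] (r : ℕ) : Submodule (ZMod p) (Sym (ZMod p) N M n) where
  carrier := {φ | ∀ x y, wp p ^ r ∣ polU n (φ.1 x y)}
  add_mem' := by
    intro φ ψ h1 h2 x y
    show wp p ^ r ∣ polU n (φ.1 x y + ψ.1 x y)
    rw [map_add]
    exact dvd_add (h1 x y) (h2 x y)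
  zero_mem' := fun x y => by
    show wp p ^ r ∣ polU n (0 : Fin (n + 1) → ZMod p)
    rw [map_zero]
    exact dvd_zero _
  smul_mem' := by
    intro a φ h1 x y
    show wp p ^ r ∣ polU n (a • φ.1 x y)
    rw [map_smul, smul_eq_C_mul]
    exact (h1 x y).mul_left _

lemma mem_NfW {n r : ℕ} {φ : Sym (ZMod p) N M n} : φ ∈ NfW p N M n r ↔
    ∀ x y, wp p ^ r ∣ polU n (φ.1 x y) := Iff.rfl

lemma wp_dvd_hecke (hNM : N ∣ M) {n r l : ℕ} (hl : l.Prime) (hlp : l ≠ p)
    {f : Cusp N → Cusp N → Fin (n + 1) → ZMod p} (hf : ∀ x y, wp p ^ r ∣ polU n (f x y))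
    (x y : Cusp N) : wp p ^ r ∣ polU n (hecke (ZMod p) N M n l f x y) := by
  have e1 : ∀ g : SN N, Bor (redZ p g) → wp p ^ r ∣ polU n (act (ZMod p) N n g f x y) := by
    intro g hg
    rw [act_apply, pol_slk hg]
    exact wp_dvd_slashM hg (natDegree_pol_le _) (hf _ _)
  rw [hecke_apply]
  simp only [Pi.add_apply, Finset.sum_apply]
  rw [map_add, map_sum]
  refine dvd_add (Finset.dvd_sum fun b _ =>
    e1 _ (bor_upS isCoprime_one_left not_dvd_one (not_dvd_l hl hlp))) ?_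
  by_cases h : l ∣ M
  · rw [if_pos h, LinearMap.zero_apply, Pi.zero_apply, Pi.zero_apply, map_zero]
    exact dvd_zero _
  · rw [if_neg h]
    exact e1 _ (bor_upS (cop_l hNM hl h) (not_dvd_l hl hlp) not_dvd_one)

/-! ### the matrix `δ = diag(p, 1)` -/

/-- `diag(p, 1)` -/
def dlt (p N : ℕ) : SN N := upS N p 0 1

lemma dlt_coe (hpN : IsCoprime (p : ℤ) (N : ℤ)) : (dlt p N).1 = !![(p : ℤ), 0; 0, 1] :=
  upS_coe hpN (by
    rw [mul_one]
    exact_mod_cast hp.out.ne_zero)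

/-- `δ` is surjective on the cusps -/
lemma dlt_surj (hpN : IsCoprime (p : ℤ) (N : ℤ)) (x : Cusp N) : ∃ y : Cusp N, dlt p N • y = x := by
  induction x using Cusp.ind' with
  | h u v hu hv hne =>
    have hp0 : (p : ℤ) ≠ 0 := by exact_mod_cast hp.out.ne_zero
    refine ⟨Cusp.mk u (p * v) hu (hv.mul_left _)
      (hne.imp id fun h => mul_ne_zero hp0 h), ?_⟩
    obtain ⟨h1, h2, h3, h4⟩ := smul_mk (dlt p N) u (p * v) hu (hv.mul_left _)
      (hne.imp id fun h => mul_ne_zero hp0 h)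
    rw [h4, Cusp.mk_eq, dlt_coe hpN]
    simp
    ring

/-- the conjugate of an element of `Γ₀(M p)` -/
lemma dlt_conj (hpN : IsCoprime (p : ℤ) (N : ℤ)) (hNM : N ∣ M) {g : SN N}
    (hg : IsG0 (M * p) g) : ∃ g' : SN N, IsG0 M g' ∧ dlt p N * g = g' * dlt p N ∧
      redZ p g' 0 1 = 0 := by
  obtain ⟨hd, c, hc⟩ := hg
  have hdet : g.1 0 0 * g.1 1 1 - g.1 0 1 * (M * p * c) = 1 := by
    rw [det_fin_two] at hd
    rw [hc] at hd
    push_cast at hd
    exact hd
  refine ⟨⟨!![g.1 0 0, p * g.1 0 1; M * c, g.1 1 1], ?_, ?_, ?_⟩, ⟨?_, ?_⟩, ?_, ?_⟩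
  · rw [det_fin_two_of]
    intro h
    have : (1 : ℤ) = 0 := by linear_combination h - hdet
    exact one_ne_zero this
  · simpa using g.2.2.1
  · simp only [Matrix.of_apply, cons_val', cons_val_zero, cons_val_one, cons_val_fin_one]
    exact (Int.natCast_dvd_natCast.2 hNM).mul_right _
  · rw [det_fin_two_of]
    linear_combination hdet
  · simp
  · apply Subtype.ext
    rw [Submonoid.coe_mul, Submonoid.coe_mul, dlt_coe hpN]
    ext i j
    fin_cases i <;> fin_cases j <;>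
      simp [Matrix.mul_apply, Fin.sum_univ_two]
    · ring
    · rw [hc]
      push_cast
      ring
  · simp [redZ]

lemma dlt_up (hpN : IsCoprime (p : ℤ) (N : ℤ)) {b d : ℤ} (hd : d ≠ 0) :
    dlt p N * upS N 1 b d = upS N 1 (p * b) d * dlt p N := by
  have hp0 : (p : ℤ) ≠ 0 := by exact_mod_cast hp.out.ne_zero
  rw [dlt, upS_mul ⟨hpN, hp0⟩ one_ne_zero ⟨isCoprime_one_left, one_ne_zero⟩ hd,
    upS_mul ⟨isCoprime_one_left, one_ne_zero⟩ hd ⟨hpN, hp0⟩ one_ne_zero]
  congr 1 <;> ring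

lemma dlt_dn (hpN : IsCoprime (p : ℤ) (N : ℤ)) {l : ℤ} (hl : IsCoprime l (N : ℤ)) (hl0 : l ≠ 0) :
    dlt p N * upS N l 0 1 = upS N l 0 1 * dlt p N := by
  have hp0 : (p : ℤ) ≠ 0 := by exact_mod_cast hp.out.ne_zero
  rw [dlt, upS_mul ⟨hpN, hp0⟩ one_ne_zero ⟨hl, hl0⟩ one_ne_zero,
    upS_mul ⟨hl, hl0⟩ one_ne_zero ⟨hpN, hp0⟩ one_ne_zero]
  congr 1 <;> ring

/-- the representatives `(1 p b; 0 l)` -/
lemma sum_mul_b {n l : ℕ} (hl : l.Prime) (hlp : l ≠ p)
    {f : Cusp N → Cusp N → Fin (n + 1) → ZMod p} (hf : act (ZMod p) N n (upS N 1 1 1) f = f) :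
    ∑ b ∈ range l, act (ZMod p) N n (upS N 1 b l) f =
      ∑ b ∈ range l, act (ZMod p) N n (upS N 1 (p * (b : ℕ)) l) f := by
  have hu := uact (k := ZMod p) N n
  have hl' : (0 : ℤ) < l := by exact_mod_cast hl.pos
  have hlm : Nat.Coprime l p := (Nat.coprime_primes hl hp.out).2 hlp
  have h1 : ∑ b ∈ range l, act (ZMod p) N n (upS N 1 (p * (b : ℕ)) l) f =
      ∑ b ∈ range l, act (ZMod p) N n (upS N 1 ((p * b % l : ℕ) : ℤ) l) f := by
    refine sum_congr rfl fun b _ => ?_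
    refine hu.congr hf PU.one hl' ?_
    push_cast
    exact (Int.mod_modEq _ _).symm
  rw [h1]
  symm
  refine Finset.sum_bij (fun b _ => p * b % l) ?_ ?_ ?_ ?_
  · intro b _
    exact mem_range.2 (Nat.mod_lt _ hl.pos)
  · intro b hb b' hb' hbb
    have h3 : p * b ≡ p * b' [MOD l] := hbb
    have h4 : b ≡ b' [MOD l] := Nat.ModEq.cancel_left_of_coprime hlm h3
    exact Nat.ModEq.eq_of_lt_of_lt h4 (mem_range.1 hb) (mem_range.1 hb')
  · intro c hc
    have h5 : Function.Surjective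
        (fun b : Fin l => (⟨p * b % l, Nat.mod_lt _ hl.pos⟩ : Fin l)) := by
      apply Finite.surjective_of_injective
      intro b b' hbb
      have h3 : p * (b : ℕ) ≡ p * b' [MOD l] := congrArg Fin.val hbb
      have h4 : (b : ℕ) ≡ b' [MOD l] := Nat.ModEq.cancel_left_of_coprime hlm h3
      exact Fin.ext (Nat.ModEq.eq_of_lt_of_lt h4 b.2 b'.2)
    obtain ⟨b, hb⟩ := h5 ⟨c, mem_range.1 hc⟩
    exact ⟨b, mem_range.2 b.2, by simpa using congrArg Fin.val hb⟩
  · intro b _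
    rfl

/-- the operator `T_l` on the coefficient at `(δ x, δ y)` -/
lemma coefW_hecke (h23 : p = 2 ∨ p = 3) (hpN : IsCoprime (p : ℤ) (N : ℤ)) (hNM : N ∣ M)
    {n r : ℕ} (hn : Even n) (hr : r < n + 1)
    {l : ℕ} (hl : l.Prime) (hlp : l ≠ p) {f : Cusp N → Cusp N → Fin (n + 1) → ZMod p}
    (hf : act (ZMod p) N n (upS N 1 1 1) f = f) (x y : Cusp N) (i : Fin (0 + 1)) :
    hecke (ZMod p) N M n l f (dlt p N • x) (dlt p N • y) ⟨r, hr⟩ =
      (l : ZMod p) ^ r *
        hecke (ZMod p) N M 0 l (fun x y _ => f (dlt p N • x) (dlt p N • y) ⟨r, hr⟩) x y i := by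
  have hl0 : (l : ℤ) ≠ 0 := by exact_mod_cast hl.ne_zero
  have e1 : ∀ g g' : SN N, Bor (redZ p g') → redZ p g' 0 1 = 0 → g'.1.det = l →
      dlt p N * g = g' * dlt p N →
      act (ZMod p) N n g' f (dlt p N • x) (dlt p N • y) ⟨r, hr⟩ = (l : ZMod p) ^ r *
        act (ZMod p) N 0 g (fun x y _ => f (dlt p N • x) (dlt p N • y) ⟨r, hr⟩) x y i := by
    intro g g' hg h01 hd hc
    rw [coef_diag h23 hn hr hg h01, act_zero_apply, hd, Int.cast_natCast]
    simp only [← mul_smul, hc]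
  rw [hecke_apply, sum_mul_b hl hlp hf, hecke_apply]
  simp only [Pi.add_apply, Finset.sum_apply]
  rw [mul_add, Finset.mul_sum]
  congr 1
  · refine Finset.sum_congr rfl fun b _ => e1 _ _
      (bor_upS isCoprime_one_left not_dvd_one (not_dvd_l hl hlp)) ?_
      (by rw [det_upS isCoprime_one_left (by rwa [one_mul]), one_mul]) (dlt_up hpN hl0)
    rw [redZ, upS_coe isCoprime_one_left (by rwa [one_mul])]
    simp
  · by_cases h : l ∣ M
    · rw [if_pos h, if_pos h]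
      simp
    · rw [if_neg h, if_neg h]
      refine e1 _ _ (bor_upS (cop_l hNM hl h) (not_dvd_l hl hlp) not_dvd_one) ?_
        (by rw [det_upS (cop_l hNM hl h) (by rwa [mul_one]), mul_one])
        (dlt_dn hpN (cop_l hNM hl h) hl0)
      rw [redZ, upS_coe (cop_l hNM hl h) (by rwa [mul_one])]
      simp

/-- the coefficient of `X ^ r` at `(δ x, δ y)` -/
def EW (h23 : p = 2 ∨ p = 3) (hpN : IsCoprime (p : ℤ) (N : ℤ)) (hNM : N ∣ M) (hpM : p ∣ M)
    {n : ℕ} (hn : Even n) (r : ℕ) :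
    Sym (ZMod p) N M n →ₗ[ZMod p] Sym (ZMod p) N (M * p) 0 where
  toFun φ := ⟨fun x y _ => (polU n (φ.1 (dlt p N • x) (dlt p N • y))).coeff r, by
    obtain ⟨φ, h1, h2⟩ := φ
    refine ⟨fun x y z => ?_, fun g hg => ?_⟩
    · funext i
      show (polU n (φ _ _)).coeff r + (polU n (φ _ _)).coeff r = (polU n (φ _ _)).coeff r
      rw [← coeff_add, ← map_add, h1]
    · funext x y i
      rw [act_zero_apply]
      by_cases hr : r < n + 1
      · obtain ⟨g', hg', hc, h01⟩ := dlt_conj hpN hNM hg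
        have h4 := coef_diag h23 hn hr (bor_of_G0 hpM hg') h01 φ (dlt p N • x) (dlt p N • y)
        rw [h2 g' hg', hg'.1, Int.cast_one, one_pow, one_mul, ← mul_smul, ← mul_smul, ← hc,
          mul_smul, mul_smul] at h4
        rw [coeff_polU _ (⟨r, hr⟩ : Fin (n + 1)), coeff_polU _ (⟨r, hr⟩ : Fin (n + 1))]
        exact h4.symm
      · rw [coeff_pol_of_lt _ (by omega), coeff_pol_of_lt _ (by omega)]⟩
  map_add' φ ψ := by
    apply Subtype.ext
    funext x y i
    show (polU n (φ.1 _ _ + ψ.1 _ _)).coeff r = (polU n (φ.1 _ _)).coeff r +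
      (polU n (ψ.1 _ _)).coeff r
    rw [map_add, coeff_add]
  map_smul' a φ := by
    apply Subtype.ext
    funext x y i
    show (polU n (a • φ.1 _ _)).coeff r = a • (polU n (φ.1 _ _)).coeff r
    rw [map_smul, coeff_smul]

lemma EW_apply (h23 : p = 2 ∨ p = 3) (hpN : IsCoprime (p : ℤ) (N : ℤ)) (hNM : N ∣ M) (hpM : p ∣ M)
    {n : ℕ} (hn : Even n) (r : ℕ) (φ : Sym (ZMod p) N M n) (x y : Cusp N) (i : Fin (0 + 1)) :
    (EW h23 hpN hNM hpM hn r φ).1 x y i =
      (polU n (φ.1 (dlt p N • x) (dlt p N • y))).coeff r := rfl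

/-- the kernel -/
lemma EW_zero (h23 : p = 2 ∨ p = 3) (hpN : IsCoprime (p : ℤ) (N : ℤ)) (hNM : N ∣ M) (hpM : p ∣ M)
    {n : ℕ} (hn : Even n) (r : ℕ) {φ : Sym (ZMod p) N M n} (hφ : φ ∈ NfW p N M n r) :
    EW h23 hpN hNM hpM hn r φ = 0 ↔ φ ∈ NfW p N M n (r + 1) := by
  constructor
  · intro h x y
    have h0 : ∀ x y, (polU n (φ.1 x y)).coeff r = 0 := by
      intro x y
      obtain ⟨x', rfl⟩ := dlt_surj hpN x
      obtain ⟨y', rfl⟩ := dlt_surj hpN y
      exact congrArg (fun ψ : Sym (ZMod p) N (M * p) 0 => ψ.1 x' y' 0) h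
    obtain ⟨q, hq⟩ := hφ x y
    have h1 : ∀ a : ZMod p, q.eval a = 0 := by
      intro a
      -- the translation by `a`
      set k : ℤ := ((a.val : ℕ) : ℤ) with hk
      have hka : ((k : ℤ) : ZMod p) = a := by
        rw [hk, Int.cast_natCast, ZMod.natCast_zmod_val]
      have hT : IsG0 M (upS N 1 k 1) := by
        constructor
        · rw [det_upS isCoprime_one_left (by norm_num), one_mul]
        · rw [upS_coe isCoprime_one_left (by norm_num)]
          simp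
      have e1 : upS N 1 k 1 * upS N 1 (-k) 1 = 1 := by
        rw [upS_mul PU.one one_ne_zero PU.one one_ne_zero]
        apply Subtype.ext
        rw [upS_coe (by rw [one_mul]; exact isCoprime_one_left) (by norm_num)]
        ext i j
        fin_cases i <;> fin_cases j <;> simp
      have e2 := congrArg (fun ψ : Cusp N → Cusp N → Fin (n + 1) → ZMod p =>
        polU n (ψ (upS N 1 (-k) 1 • x) (upS N 1 (-k) 1 • y))) (φ.2.2 _ hT)
      simp only [act_apply] at e2
      rw [← mul_smul, ← mul_smul, e1, one_smul, one_smul,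
        pol_slk (g := (upS N 1 k 1).1.map (Int.cast : ℤ → ZMod p)) (bor_of_G0 hpM hT),
        slashM_bor (bor_of_G0 hpM hT) (natDegree_pol_le _)] at e2
      have e3 : aff ((upS N 1 k 1).1.map (Int.cast : ℤ → ZMod p)) = X + C a := by
        rw [aff, upS_coe isCoprime_one_left (by norm_num)]
        simp [hka]
      have e4 : redZ p (upS N 1 k 1) 1 1 = 1 := by
        rw [redZ, upS_coe isCoprime_one_left (by norm_num)]
        simp
      rw [e3, e4, one_pow, C_1, one_mul, hq, mul_comp, pow_comp, wp_comp_add] at e2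
      have e5 := h0 (upS N 1 (-k) 1 • x) (upS N 1 (-k) 1 • y)
      rw [← e2, coeff_wp_mul, eval_comp, eval_add, eval_X, eval_C, zero_add] at e5
      rcases mul_eq_zero.1 e5 with h | h
      · exact absurd h (pow_ne_zero _ (neg_ne_zero.2 one_ne_zero))
      · exact h
    rw [hq, pow_succ]
    exact mul_dvd_mul_left _ (wp_dvd_of_eval h1)
  · intro h
    apply Subtype.ext
    funext x y i
    rw [EW_apply]
    obtain ⟨q, hq⟩ := h (dlt p N • x) (dlt p N • y)
    rw [hq, pow_succ, mul_assoc, coeff_wp_mul, eval_mul, wp, eval_sub, eval_pow, eval_X,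
      zero_pow hp.out.ne_zero]
    simp

variable {Q : Type} {lq : Q → ℕ}
  {Ψ : ∀ n, MvPolynomial Q ℤ →+* Module.End (ZMod p) (Sym (ZMod p) N M n)}
  {Ψ' : ∀ n, MvPolynomial Q ℤ →+* Module.End (ZMod p) (Sym (ZMod p) N (M * p) n)}

lemma NfW_stable (hNM : N ∣ M) (hq : ∀ q, (lq q).Prime ∧ lq q ≠ p) (hΨ : IsRep lq Ψ) (n r : ℕ)
    (u : MvPolynomial Q ℤ) : ∀ φ ∈ NfW p N M n r, Ψ n u φ ∈ NfW p N M n r := by
  refine stable_of_X (fun q φ hφ => ?_) u
  intro x y
  rw [hΨ]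
  exact wp_dvd_hecke hNM (hq q).1 (hq q).2 hφ x y

/-- **The filtration by the divisibility by `X ^ p - X`.** -/
theorem chain_w (h23 : p = 2 ∨ p = 3) (hpN : IsCoprime (p : ℤ) (N : ℤ)) (hNM : N ∣ M)
    (hpM : p ∣ M) (hq : ∀ q, (lq q).Prime ∧ lq q ≠ p) (hΨ : IsRep lq Ψ) (hΨ' : IsRep lq Ψ')
    (I : Ideal (MvPolynomial Q ℤ))
    {n : ℕ} (hn : Even n) [FiniteDimensional (ZMod p) (Sym (ZMod p) N M n)]
    [FiniteDimensional (ZMod p) (Sym (ZMod p) N (M * p) 0)] :
    finrank (ZMod p) (nilPart (Ψ n) I ⊤) ≤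
      ∑ r ∈ range (n / p + 1), finrank (ZMod p) (nilPart ((Ψ' 0).comp (twr lq r)) I ⊤) ∧
    ∑ r ∈ range (n / p + 1), finrank (ZMod p) (nilPart ((Ψ' 0).comp (twr lq r)) I ⊤) +
      finrank (ZMod p) (Sym (ZMod p) N M n) ≤
      finrank (ZMod p) (nilPart (Ψ n) I ⊤) +
        (n / p + 1) * finrank (ZMod p) (Sym (ZMod p) N (M * p) 0) := by
  have hrn : ∀ r < n / p + 1, r < n + 1 := by
    intro r hr
    have := Nat.div_le_self n p
    omega
  refine (nil_chain (Ψ n) (fun r => (Ψ' 0).comp (twr lq r)) I (n / p + 1)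
    (NfW p N M n)
    (eq_top_iff.2 fun φ _ x y => by
      rw [pow_zero]
      exact one_dvd _)
    (eq_bot_iff.2 fun φ hφ => (Submodule.mem_bot _).2 (Subtype.ext (by
      funext x y
      have h1 := hφ x y
      have h2 : polU n (φ.1 x y) = 0 := by
        by_contra h3
        have h4 := natDegree_le_of_dvd h1 h3
        rw [natDegree_pow, natDegree_wp] at h4
        have h5 := natDegree_pol_le (φ.1 x y)
        have h6 := Nat.div_add_mod n p
        have h7 := Nat.mod_lt n hp.out.pos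
        have h8 : (n / p + 1) * p = p * (n / p) + p := by ring
        omega
      have h3 := vec_pol (φ.1 x y)
      rw [h2, map_zero] at h3
      exact h3.symm)))
    (fun r _ φ hφ x y => (pow_dvd_pow _ (Nat.le_succ r)).trans (hφ x y))
    (fun r u => NfW_stable hNM hq hΨ n r u)
    (fun r => (EW h23 hpN hNM hpM hn r).comp (NfW p N M n r).subtype)
    (fun r _ φ => EW_zero h23 hpN hNM hpM hn r φ.2)
    (fun r hr u φ => ?_)).2
  refine eqv_sub (fun u => NfW_stable hNM hq hΨ n r u)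
    ((EW h23 hpN hNM hpM hn r).comp (NfW p N M n r).subtype) (fun q φ => ?_) u φ
  rw [RingHom.comp_apply, twr_act]
  apply Subtype.ext
  funext x y i
  show (polU n ((Ψ n (MvPolynomial.X q) φ.1).1 (dlt p N • x) (dlt p N • y))).coeff r =
    (lq q : ZMod p) ^ r * (Ψ' 0 (MvPolynomial.X q) (EW h23 hpN hNM hpM hn r φ.1)).1 x y i
  have hlM : lq q ∣ M * p ↔ lq q ∣ M := by
    rw [(hq q).1.dvd_mul]
    refine ⟨fun h => h.resolve_right fun h2 => (hq q).2 ?_, Or.inl⟩
    exact (Nat.prime_dvd_prime_iff_eq (hq q).1 hp.out).1 h2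
  rw [hΨ, hΨ', hecke_congr (N := N) (k := ZMod p) (n := 0) hlM,
    coeff_polU _ (⟨r, hrn r hr⟩ : Fin (n + 1)),
    coefW_hecke h23 hpN hNM hn (hrn r hr) (hq q).1 (hq q).2 (sym_inv φ.1.2) x y i]
  congr 2
  refine congrFun (congrFun (congrFun (congrArg _ ?_) x) y) i
  funext x y i
  rw [EW_apply, coeff_polU _ (⟨r, hrn r hr⟩ : Fin (n + 1))]

end Gouvea.P5
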