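import Pool.Agent.Work.MP_d3517d_nt.P5.Part
import Pool.Agent.Work.MP_d3517d_nt.P5.TU

/-!
# P5: one weight (MP_d3517d_nt)

`AK`, `AI` are the lattices of levels `N` and `N p`, `AL` is the ambient lattice.
`one_weight`: `Σ (x - v)^+` over the systems in one class is `c x ^ 2 / 2` up to an error.
-/

open Polynomial Finset Filter Topology Module

noncomputable section

namespace Gouvea.P5

open Pool.Agent.Gouv Gouvea.Sys

variable {p : ℕ} [hp : Fact p.Prime]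

theorem TopNil.map {A B : Type} [AddCommGroup A] [Module ℤ_[p] A] [AddCommGroup B]
    [Module ℤ_[p] B] (f : A →ₗ[ℤ_[p]] B) {g : Module.End ℤ_[p] A} {h : Module.End ℤ_[p] B}
    (hfg : ∀ x, f (g x) = h (f x)) {a : A} (ha : TopNil g a) : TopNil h (f a) := by
  have hpow : ∀ (N : ℕ) (x : A), (h ^ N) (f x) = f ((g ^ N) x) := by
    intro N
    induction N with
    | zero => intro x; simp
    | succ N ih => intro x; rw [pow_succ, pow_succ, Module.End.mul_apply, Module.End.mul_apply,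
        ← hfg, ih]
  intro k
  obtain ⟨N0, hN0⟩ := ha k
  refine ⟨N0, fun N hN => ?_⟩
  obtain ⟨y, hy⟩ := hN0 N hN
  exact ⟨f y, by rw [hpow, hy, map_smul]⟩

/-- Sharpness of a lattice inside an ambient lattice. -/
theorem sharp_of_emb {AI AL : Type} [AddCommGroup AI] [Module ℤ_[p] AI] [Module.Free ℤ_[p] AI]
    [Module.Finite ℤ_[p] AI] [AddCommGroup AL] [Module ℤ_[p] AL] [Module.Free ℤ_[p] AL]
    [Module.Finite ℤ_[p] AL] (f : AI →ₗ[ℤ_[p]] AL) (hf : Function.Injective f)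
    (hsat : ∀ x, (p : ℤ_[p]) • x ∈ LinearMap.range f → x ∈ LinearMap.range f)
    (W S : Module.End ℤ_[p] AI) (WL SL : Module.End ℤ_[p] AL) (hW : ∀ x, WL (f x) = f (W x))
    (hS : ∀ x, SL (f x) = f (S x)) {B : Submodule ℤ_[p] AI} (hB : Sat B)
    (hBW : B ≤ B.comap W) (hBS : B ≤ B.comap S) (x : ℕ) :
    GE ((W.restrict hBW) ∘ₗ (S.restrict hBS)) x ≤ HH (W.restrict hBW) x ∧
    HH (W.restrict hBW) x - GE ((W.restrict hBW) ∘ₗ (S.restrict hBS)) x ≤
      HH WL x - GE (WL ∘ₗ SL) x := by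
  set BL := B.map f with hBL
  have hBLsat : Sat BL := by
    intro x hx
    obtain ⟨b, hb, hbx⟩ := hx
    obtain ⟨y, rfl⟩ := hsat x ⟨b, hbx⟩
    refine ⟨y, hB y ?_, rfl⟩
    have h1 : f ((p : ℤ_[p]) • y) = f b := by rw [map_smul, hbx]
    rwa [hf h1]
  have hWL : BL ≤ BL.comap WL := by
    rintro _ ⟨b, hb, rfl⟩
    exact ⟨W b, hBW hb, (hW b).symm⟩
  have hSL : BL ≤ BL.comap SL := by
    rintro _ ⟨b, hb, rfl⟩
    exact ⟨S b, hBS hb, (hS b).symm⟩
  have h1 := sharp_sub hBLsat WL SL hWL hSL x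
  let g : B ≃ₗ[ℤ_[p]] BL := Submodule.equivMapOfInjective f hf B
  have hg : ∀ b : B, ((g b : BL) : AL) = f b := fun b => rfl
  have h2 : HH (WL.restrict hWL) x = HH (W.restrict hBW) x :=
    HH_conj g _ _ (fun b => Subtype.ext (hW b)) x
  have h3 : GE ((LinearMap.restrict WL (p := BL) (q := BL) hWL) ∘ₗ
      (LinearMap.restrict SL (p := BL) (q := BL) hSL)) x =
      GE ((LinearMap.restrict W (p := B) (q := B) hBW) ∘ₗ
        (LinearMap.restrict S (p := B) (q := B) hBS)) x := by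
    refine GE_conj g _ _ (fun b => Subtype.ext ?_) x
    change WL (SL (f b)) = f (W (S b))
    rw [hS, hW]
  rw [h2, h3] at h1
  exact h1

open Classical in
/-- **One weight.** -/
theorem one_weight {R0 R' : Type} [CommRing R0] [CommRing R'] (j : R0 →+* R')
    {AK AI AL X : Type} [AddCommGroup AK] [Module ℤ_[p] AK] [Module.Free ℤ_[p] AK]
    [Module.Finite ℤ_[p] AK] [AddCommGroup AI] [Module ℤ_[p] AI] [Module.Free ℤ_[p] AI]
    [Module.Finite ℤ_[p] AI] [AddCommGroup AL] [Module ℤ_[p] AL] [Module.Free ℤ_[p] AL]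
    [Module.Finite ℤ_[p] AL] [AddCommGroup X] [Module (ZMod p) X] {n : ℕ}
    -- the lattices
    (ΦK : R' →+* Module.End ℤ_[p] AK) (ΦI : R0 →+* Module.End ℤ_[p] AI)
    (iota : AK →ₗ[ℤ_[p]] AI) (trp : AI →ₗ[ℤ_[p]] AK) (W : Module.End ℤ_[p] AI) (τ : R')
    (hW : ∀ x, W (W x) = (p : ℤ_[p]) ^ n • x) (hti : ∀ x, trp (iota x) = ((p : ℤ_[p]) + 1) • x)
    (hT : ∀ x, trp (W (iota x)) = ΦK τ x) (hi : ∀ r x, iota (ΦK (j r) x) = ΦI r (iota x))
    (ht : ∀ r x, trp (ΦI r x) = ΦK (j r) (trp x)) (hWc : ∀ r x, W (ΦI r x) = ΦI r (W x))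
    -- the ambient lattice
    (f : AI →ₗ[ℤ_[p]] AL) (hf : Function.Injective f)
    (hsat : ∀ x, (p : ℤ_[p]) • x ∈ LinearMap.range f → x ∈ LinearMap.range f)
    (WL SL : Module.End ℤ_[p] AL) (hWL : ∀ x, WL (f x) = f (W x))
    (hSL : ∀ x, SL (f x) = f (iota (trp x) - x)) {η : ℝ} {x : ℕ}
    (hη : HH WL x - GE (WL ∘ₗ SL) x ≤ η)
    -- the reduction
    (Ψ : R0 →+* Module.End (ZMod p) X) (red : Red p AI X)
    (hred : ∀ u a, red.f (ΦI u a) = Ψ u (red.f a)) (Xt : ℕ → Submodule (ZMod p) X)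
    [∀ i, Module.Finite (ZMod p) (Xt i)]
    (hfil : ∀ s ≤ n, ∀ a ∈ Fs W s, red.f a ∈ Xt (n - s)) {c C δ : ℝ} (J : Ideal R0)
    (hc : ∀ i ≤ n, |(Module.finrank (ZMod p) (nilPart Ψ J (Xt i)) : ℝ) - c * i| ≤ C)
    (hδ : (Module.finrank (ZMod p) (Xt n) : ℝ) ≤ Module.finrank ℤ_[p] AI + δ)
    -- the matrices
    {ι : Type} [Fintype ι] [DecidableEq ι] (b : Module.Basis ι ℤ_[p] AK)
    (Am : R' →+* Matrix ι ι ℤ_[p]) (hAm : ∀ r, LinearMap.toMatrix b b (ΦK r) = Am r)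
    (hx : 2 * x ≤ n) :
    |GG (p : ℝ) (((Sys (matRep (toK Am))).filter fun χ => ∀ u ∈ J, ‖χ (j u)‖ < 1).map
        fun χ => χ τ) x - c * (x : ℝ) ^ 2 / 2| ≤ (2 * C + δ + 2 * |c|) * x + η := by
  obtain ⟨eI, tI, htI, heI, hetI, hcomI, hbigI⟩ := exists_idem ΦI J
  obtain ⟨eK, tK, htK, heK, hetK, hcomK, hbigK⟩ := exists_idem (ΦK.comp j) J
  have hcI : ∀ u, eI * ΦI u = ΦI u * eI := fun u => hcomI (ΦI u) fun u' => by
    rw [← map_mul, mul_comm, map_mul]
  have hcK : ∀ u, eK * ΦK u = ΦK u * eK := fun u => hcomK (ΦK u) fun u' => by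
    rw [RingHom.comp_apply, ← map_mul, mul_comm, map_mul]
  have iffI := ker_idem_iff ΦI J htI heI hetI hcI hbigI
  have iffK := ker_idem_iff (ΦK.comp j) J htK heK hetK (fun u => hcK (j u)) hbigK
  have hBA : LinearMap.ker eK ≤ (LinearMap.ker eI).comap iota := by
    intro a ha
    refine (iffI _).2 fun u hu => ?_
    exact ((iffK a).1 ha u hu).map iota fun x => hi u x
  have hAB : LinearMap.ker eI ≤ (LinearMap.ker eK).comap trp := by
    intro a ha
    refine (iffK _).2 fun u hu => ?_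
    exact ((iffI a).1 ha u hu).map trp fun x => ht u x
  have hAW : LinearMap.ker eI ≤ (LinearMap.ker eI).comap W := by
    apply ker_le_comap
    apply hcomI
    intro u
    apply LinearMap.ext
    intro x
    exact (hWc u x).symm
  have hAS : LinearMap.ker eI ≤
      (LinearMap.ker eI).comap (iota ∘ₗ trp - LinearMap.id : AI →ₗ[ℤ_[p]] AI) := by
    intro a ha
    exact (LinearMap.ker eI).sub_mem (hBA (hAB ha)) ha
  have hU : LinearMap.ker eI ≤
      (LinearMap.ker eI).comap (W ∘ₗ (iota ∘ₗ trp - LinearMap.id)) := fun a ha => hAW (hAS ha)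
  have hTK : trp ∘ₗ W ∘ₗ iota = ΦK τ := LinearMap.ext hT
  have hTB : LinearMap.ker eK ≤ (LinearMap.ker eK).comap (ΦK τ) := ker_le_comap (hcK τ)
  have hTB' : LinearMap.ker eK ≤ (LinearMap.ker eK).comap (trp ∘ₗ W ∘ₗ iota) := by
    rw [hTK]; exact hTB
  obtain ⟨-, hHH⟩ := part_bounds hW ΦI J htI heI hetI hbigI Ψ red hred Xt hfil hc hδ hAW
  have hsharp := sharp_of_emb f hf hsat W (iota ∘ₗ trp - LinearMap.id) WL SL hWL hSL
    (sat_ker eI) hAW hAS x
  have hTU := GE_TU_restrict (n := n) iota trp W hW hti (LinearMap.ker eI) (LinearMap.ker eK)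
    hAW hBA hAB hU hTB' (x := (x : ℝ)) (by
      have h1 : ((2 * x : ℕ) : ℝ) ≤ n := by exact_mod_cast hx
      push_cast at h1
      linarith)
  have hpart := (GE_part j ΦK b Am hAm J htK heK hetK hcK hbigK τ hTB).1 x
  have e1 : GE ((LinearMap.restrict W (p := LinearMap.ker eI) (q := LinearMap.ker eI) hAW) ∘ₗ
      (LinearMap.restrict (iota ∘ₗ trp - LinearMap.id : AI →ₗ[ℤ_[p]] AI) (p := LinearMap.ker eI)
        (q := LinearMap.ker eI) hAS)) x
      = GE (LinearMap.restrict (ΦK τ) (p := LinearMap.ker eK) (q := LinearMap.ker eK) hTB) x := by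
    have e2 : (LinearMap.restrict W (p := LinearMap.ker eI) (q := LinearMap.ker eI) hAW) ∘ₗ
      (LinearMap.restrict (iota ∘ₗ trp - LinearMap.id : AI →ₗ[ℤ_[p]] AI) (p := LinearMap.ker eI)
        (q := LinearMap.ker eI) hAS) =
        (W ∘ₗ (iota ∘ₗ trp - LinearMap.id)).restrict hU := rfl
    rw [e2, hTU]
    congr 1
    apply LinearMap.ext
    intro y
    exact Subtype.ext (hT y)
  rw [e1, hpart] at hsharp
  have h1 := abs_le.1 (hHH x (by omega))
  rw [abs_le]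
  constructor <;> linarith [hsharp.1, hsharp.2, h1.1, h1.2]

end Gouvea.P5
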